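import Pool.Agent.Lib.MP_9cc147_pr.BLayer

/-! The multiscale decomposition in the presence of rigid bodies. -/

open Finset Function

namespace Pool.Agent.Lib.MP_9cc147_pr.FB

variable {n : ℕ} {B : Bod n} {Y : ℝ} {K k : ℕ} {it : Vx n → Item n} {sc : Vx n → ℕ}
  {R A Q : Finset (Vx n)}

lemma Mid.anti (h : Mid B Y K k it sc R A Q) {A' Q' : Finset (Vx n)} (hA : A' ⊆ A) (hQ : Q' ⊆ Q) :
    Mid B Y K k it sc R A' Q' := by
  refine ⟨⟨h.com.ret, h.com.scl, h.com.disj.mono_right hA, fun τ hτ g hg => h.com.ra τ hτ g (hA hg),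
    fun g hg => h.com.ok g (hA hg), fun g hg g' hg' => h.com.dj g (hA hg) g' (hA hg'),
    fun g hg => h.com.conn g (hA hg)⟩, fun g hg => (h.zb g (hA hg)).trans (Real.exp_le_exp.2 ?_),
    hQ.trans h.rep, (h.nA.mono_left hA).mono_right hQ, fun b hb => h.ra b (hQ hb),
    fun b hb g hg => h.pend b (hQ hb) g (hA hg), h.nn.imp_right fun c g hg => c g (hA hg)⟩
  have : (((it g).S ∩ Q').card : ℝ) ≤ ((it g).S ∩ Q).card := by
    exact_mod_cast card_le_card (inter_subset_inter_left hQ)
  linarith

/-- replacing an active item by one with the same support -/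
lemma Mid.repl (h : Mid B Y K k it sc R A Q) {a : Vx n} (ha : a ∈ A) (a' : Item n)
    (hS : a'.S = (it a).S) (hok : Ok B K a a' (k + 1) ∧ BL B k a')
    (hz : |a'.z| ≤ Real.exp (pot B Y k a' - 2 * (a'.S ∩ Q).card))
    (hp : ∀ b ∈ Q, Pend B k a' b) (hn : ∃ x, k ≤ B.ka x) :
    Mid B Y K k (update it a a') sc R A Q := by
  have hR : ∀ τ ∈ R, update it a a' τ = it τ := fun τ hτ =>
    update_of_ne (fun e : τ = a => disjoint_left.1 h.com.disj hτ (e ▸ ha)) _ _
  have eS : ∀ g, (update it a a' g).S = (it g).S := fun g => by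
    by_cases e : g = a
    · rw [e, update_self, hS]
    · rw [update_of_ne e]
  refine ⟨⟨h.com.ret.congr hR fun _ _ => rfl, h.com.scl, h.com.disj, ?_, ?_, ?_, ?_⟩, ?_, h.rep,
    h.nA, ?_, ?_, Or.inl hn⟩
  · simp only [eS]; exact h.com.ra
  · intro g hg
    by_cases e : g = a
    · rw [e, update_self]; exact hok
    · rw [update_of_ne e]; exact h.com.ok g hg
  · simp only [eS]; exact h.com.dj
  · simp only [eS]; exact h.com.conn
  · intro g hg
    by_cases e : g = a
    · rw [e, update_self]; exact hz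
    · rw [update_of_ne e]; exact h.zb g hg
  · simp only [eS]; exact h.ra
  · intro b hb g hg
    by_cases e : g = a
    · rw [e, update_self]; exact hp b hb
    · rw [update_of_ne e]; exact h.pend b hb g hg

lemma Mid.notR {b : Vx n} (h : Mid B Y K k it sc R A Q) (hb : b ∈ Q) : b ∉ R := fun c => by
  have := (h.com.ret.ok b c).anc
  have := h.com.scl b c
  have := mem_Qk.1 (h.rep hb)
  omega

/-- a new lonely charge -/
lemma Mid.ins (hY : 10 ^ 9 ≤ Y) (hK : k < K) {b : Vx n} (h : Mid B Y K k it sc R A (insert b Q))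
    (hb : b ∉ Q) (hf : ∀ g ∈ A, Far (rr k) (it g).S {b}) {q : ℕ} (hq : 1 ≤ q) {z : ℝ}
    (hz : |z| ≤ Real.exp (2 * q + 2)) :
    Mid B Y K k (update it b (lone k b q z)) sc R (insert b A) Q := by
  have b0 := mem_insert_self b Q
  obtain ⟨b1, rfl⟩ := mem_Qk.1 (h.rep b0)
  have bA : b ∉ A := fun c => disjoint_left.1 h.nA c b0
  have bR := h.notR b0
  have hR : ∀ τ ∈ R, update it b (lone (B.ka b) b q z) τ = it τ := fun τ hτ =>
    update_of_ne (fun e : τ = b => bR (e ▸ hτ)) _ _
  have hA : ∀ τ ∈ A, update it b (lone (B.ka b) b q z) τ = it τ := fun τ hτ =>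
    update_of_ne (fun e : τ = b => bA (e ▸ hτ)) _ _
  have h' := h.anti Subset.rfl (subset_insert b Q)
  refine ⟨⟨h.com.ret.congr hR fun _ _ => rfl, h.com.scl, disjoint_insert_right.2 ⟨bR, h.com.disj⟩,
    fun τ hτ g hg => ?_, fun g hg => ?_, fun g hg g' hg' hne => ?_, fun g hg => ?_⟩, fun g hg => ?_,
    h'.rep, disjoint_insert_left.2 ⟨hb, h'.nA⟩, fun c hc τ hτ => ?_, fun c hc g hg => ?_,
    Or.inl ⟨b, le_rfl⟩⟩
  · rw [hR τ hτ]
    rcases mem_insert.1 hg with rfl | hg
    · rw [update_self]; exact h.ra g b0 τ hτ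
    · rw [hA g hg]; exact h.com.ra τ hτ g hg
  · rcases mem_insert.1 hg with rfl | hg
    · rw [update_self]; exact ⟨ok_lone b1 hK hq z, bl_lone _ _ _ _ _⟩
    · rw [hA g hg]; exact h.com.ok g hg
  · rcases mem_insert.1 hg with rfl | c <;> rcases mem_insert.1 hg' with rfl | c'
    · exact absurd rfl hne
    · rw [update_self, hA g' c']; exact (hf g' c').symm
    · rw [update_self, hA g c]; exact hf g c
    · rw [hA g c, hA g' c']; exact h.com.dj g c g' c' hne
  · rcases mem_insert.1 hg with rfl | hg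
    · rw [update_self]
      intro T h1 h2 h3
      rcases subset_singleton_iff.1 h1 with rfl | rfl
      · simp at h2
      · exact absurd rfl h3
    · rw [hA g hg]; exact h.com.conn g hg
  · rcases mem_insert.1 hg with rfl | hg
    · rw [update_self]
      refine hz.trans (Real.exp_le_exp.2 ?_)
      have eS : (lone (B.ka g) g q z).S = {g} := rfl
      have ew : (lone (B.ka g) g q z).w = q := rfl
      have en : (lone (B.ka g) g q z).nm = q := rfl
      have d : ∀ j, (Pq j {g} : ℝ) = 1 := fun j => Pq_one (mem_singleton_self g) (j := j) (by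
        simp [rr_pos]) le_rfl
      have c1 := chg_le (lone (B.ka g) g q z)
      have c3 : (0 : ℝ) ≤ (Rp B (B.ka g) {g}).card := Nat.cast_nonneg _
      have q1 : (1 : ℝ) ≤ q := by exact_mod_cast hq
      simp only [pot, eS, ew, en, d, al_single b1, singleton_inter_of_notMem hb, card_empty]
      push_cast
      nlinarith
    · rw [hA g hg]; exact h'.zb g hg
  · rw [hR τ hτ]; exact h'.ra c hc τ hτ
  · rcases mem_insert.1 hg with rfl | hg
    · rw [update_self]
      refine Or.inr fun p hp p' hp' => ?_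
      have c1 := mem_Qk.1 (h'.rep hc)
      rw [mem_singleton.1 hp, mem_singleton.1 hp']
      exact rep_far b1 c1.2.ge fun e => hb (by rw [e, c1.1]; exact hc)
    · rw [hA g hg]; exact h'.pend c hc g hg

lemma Psi_ins {X : Finset (Vx n)} {b : Vx n} (hb : b ∉ X) (it : Vx n → Item n) (a : Item n)
    (φ : Vx n → ℝ) : Psi (insert b X) (update it b a) φ = fac a φ * Psi X it φ := by
  rw [Psi, prod_insert hb, update_self, Psi]
  congr 1
  exact prod_congr rfl fun x hx => by rw [update_of_ne fun e : x = b => hb (e ▸ hx)]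

lemma touch_phase (hY : 10 ^ 9 ≤ Y) (hK : k < K) {P : Finset (Vx n) → ((Vx n → ℝ) → ℝ) → Prop}
    (hP : Fam B P) {U : Finset (Vx n)} (hU : Disjoint U (Qk B k))
    (hend : ∀ it A, Mid B Y K k it sc R A ∅ → P U (Psi (R ∪ A) it)) (Q : Finset (Vx n)) :
    ∀ it A, Mid B Y K k it sc R A Q → P (U ∪ Q) (Psi (R ∪ A) it) := by
  induction Q using Finset.induction_on with
  | empty => simpa using hend
  | insert b Q hb ih =>
    intro it A h
    have b0 := mem_insert_self b Q
    obtain ⟨b1, b2⟩ := mem_Qk.1 (h.rep b0)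
    have bA : b ∉ A := fun c => disjoint_left.1 h.nA c b0
    have bR := h.notR b0
    have eU : (U ∪ insert b Q).erase b = U ∪ Q := by
      rw [union_insert, erase_insert]
      exact fun c => (mem_union.1 c).elim (fun c => disjoint_left.1 hU c (h.rep b0)) hb
    have h' := h.anti Subset.rfl (subset_insert b Q)
    refine hP.expand _ b (mem_union_right _ b0) b1 _ _ (eU ▸ ih _ _ h') fun q z hq hz => ?_
    rw [eU]
    have q1 : (1 : ℝ) ≤ q := by exact_mod_cast hq
    by_cases hf : ∀ g ∈ A, Far (rr k) (it g).S {b}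
    · have := ih _ _ (h.ins hY hK hb hf hq (z := z) (hz.trans (Real.exp_le_exp.2 (by linarith))))
      convert this using 2 with φ
      rw [union_insert, Psi_ins (by simp [bA, bR]), fac, pr_lone]
      rfl
    push Not at hf
    obtain ⟨a, ha, hf⟩ := hf
    obtain ⟨a1, a2, a3⟩ := (h.pend b b0 a ha).resolve_right hf
    have aR : a ∉ R := fun c => disjoint_left.1 h.com.disj c ha
    have eA : R ∪ A = insert a (R ∪ A.erase a) := by rw [← union_insert, insert_erase ha]
    have nX : a ∉ R ∪ A.erase a := by simp [aR]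
    have ec : (((it a).S ∩ insert b Q).card : ℝ) = ((it a).S ∩ Q).card + 1 := by
      rw [inter_insert_of_mem a1, card_insert_of_notMem (by simp [hb])]; push_cast; ring
    have za := h.zb a ha
    rw [ec] at za
    have hn : ∃ x, k ≤ B.ka x := ⟨b, b2.ge⟩
    have c1 := ih _ _ (h'.repl ha (tri (it a)) rfl ⟨{ (h.com.ok a ha).1 with }, (h.com.ok a ha).2⟩
      (by
        have e : pot B Y k (tri (it a)) = pot B Y k (it a) := rfl
        simp only [e]
        simp only [tri, abs_mul, Nat.abs_ofNat]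
        refine (mul_le_mul three_le za (abs_nonneg _) (Real.exp_pos _).le).trans ?_
        rw [← Real.exp_add]
        exact Real.exp_le_exp.2 (by linarith)) (fun c hc => h'.pend c hc a ha) hn)
    have c2 := ih _ _ ((h.anti (erase_subset a A) Subset.rfl).ins hY hK hb (fun g hg p hp p' hp' =>
      h.com.dj g (mem_of_mem_erase hg) a ha (ne_of_mem_erase hg) p hp p'
        (mem_singleton.1 hp' ▸ a1)) hq (z := 3 * z) (by
        rw [abs_mul, Nat.abs_ofNat, add_comm, Real.exp_add]
        exact mul_le_mul three_le hz (abs_nonneg _) (Real.exp_pos _).le))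
    have c3 : ∀ s : ℤ, s = 1 ∨ s = -1 →
        P (U ∪ Q) (Psi (R ∪ A) (update it a (tch (it a) k b q z s))) := by
      intro s hs
      subst b2
      refine ih _ _ (h'.repl ha _ rfl ⟨(h.com.ok a ha).1.tch b1 hK hq z hs a1 a2 a3,
        (h.com.ok a ha).2.tch q z hs a1⟩ ?_ (fun c hc => ?_) hn)
      · have e : (tch (it a) (B.ka b) b q z s).z = 3 * (it a).z * z := rfl
        have eS : (tch (it a) (B.ka b) b q z s).S = (it a).S := rfl
        have ew : (tch (it a) (B.ka b) b q z s).w = (it a).w + q / 2 := rfl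
        have en : (tch (it a) (B.ka b) b q z s).nm = (it a).nm + q := rfl
        have d1 := chg_le (tch (it a) (B.ka b) b q z s)
        have d2 := chg_nonneg (it a)
        simp only [e, abs_mul, Nat.abs_ofNat]
        refine (mul_le_mul (mul_le_mul three_le za (abs_nonneg _) (Real.exp_pos _).le) hz
          (abs_nonneg _) (by positivity)).trans ?_
        rw [← Real.exp_add, ← Real.exp_add]
        refine Real.exp_le_exp.2 ?_
        simp only [pot, eS, ew, en]
        nlinarith
      · have c1 := mem_Qk.1 (h'.rep hc)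
        have f : rr (B.ka b) ≤ ds b c := rep_far b1 c1.2.ge fun e => hb (by rw [e, c1.1]; exact hc)
        refine (h'.pend c hc a ha).imp (fun ⟨d1, d2, d3⟩ => ⟨d1, ?_, fun x hx => ?_⟩) id
        · change |pr (fun x => (it a).ρ x + s * (lone (B.ka b) b q z).ρ x) _| ≤ _
          rw [pr_add, pr_lone, bump_zero (by rw [ds_comm]; omega)]
          simpa using d2
        · rcases add_ne hx with d4 | d4
          · exact d3 x d4
          · rw [(one1_ne d4).2]; exact f
    have := (hP.cone _).add _ _ ((hP.cone _).add _ _ ((hP.cone _).smul (1 / 3) _ (by norm_num) c1)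
      ((hP.cone _).smul (1 / 3) _ (by norm_num) c2)) ((hP.cone _).add _ _
      ((hP.cone _).smul (1 / 6) _ (by norm_num) (c3 1 (Or.inl rfl)))
      ((hP.cone _).smul (1 / 6) _ (by norm_num) (c3 (-1) (Or.inr rfl))))
    convert this using 2 with φ
    have e0 : Psi (R ∪ A) it φ = fac (it a) φ * Psi (R ∪ A.erase a) it φ := by
      rw [eA, Psi, prod_insert nX, Psi]
    rw [e0, union_insert, Psi_ins (by simp [bA, bR]), eA]
    simp only [Psi_ins nX]
    have et : ∀ s : ℤ, pr (tch (it a) k b q z s).ρ φ = pr (it a).ρ φ + s * (q * φ b) := fun s => by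
      rw [← pr_lone k b q z, ← pr_add]; rfl
    simp only [fac, et, pr_lone]
    simp only [tri, tch, mrg, lone, mul_add, Real.cos_add]
    push_cast
    simp only [one_mul, neg_mul, mul_neg, Real.cos_neg, Real.sin_neg]
    ring

/-- representatives of higher level -/
def Uk (B : Bod n) (k : ℕ) : Finset (Vx n) := univ.filter fun b => B.pi b = b ∧ k < B.ka b

lemma Uk_disj (k : ℕ) : Disjoint (Uk B k) (Qk B k) := disjoint_left.2 fun x h1 h2 => by
  have := (mem_filter.1 h1).2; have := mem_Qk.1 h2; omega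

lemma cone_main (hY : 10 ^ 9 ≤ Y) {P : Finset (Vx n) → ((Vx n → ℝ) → ℝ) → Prop} (hP : Fam B P)
    {kk : ℕ} (hkk : 16 * n < rr kk) (hka : ∀ x, B.ka x < kk)
    (hfin : ∀ it sc R, Ret B Y (kk + 1) it sc R → P ∅ (Psi R it) ∧
      ∀ a : Item n, ∑ x, a.ρ x ≠ 0 → P ∅ fun ψ => fac a ψ * Psi R it ψ) :
    ∀ j k, k + j = kk → ∀ it sc R A, Mid B Y (kk + 1) k it sc R A ∅ →
      P (Uk B k) (Psi (R ∪ A) it) := by
  intro j
  induction j with
  | zero =>
    rintro k rfl it sc R A h
    simp only [add_zero] at hkk hka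
    have eU : Uk B k = ∅ := filter_eq_empty_iff.2 fun x _ c => by have := hka x; omega
    rw [eU]
    rcases A.eq_empty_or_nonempty with rfl | ⟨g, hg⟩
    · simpa using (hfin it sc R h.com.ret).1
    · have hA : A = {g} := by
        refine eq_singleton_iff_unique_mem.2 ⟨hg, fun x hx => ?_⟩
        by_contra hne
        have := h.com.dj x hx g hg hne x (h.com.ok x hx).1.mem g (h.com.ok g hg).1.mem
        have := ds_le x g
        omega
      have := (hfin it sc R h.com.ret).2 (it g) (h.nn.resolve_left (fun ⟨x, hx⟩ => by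
        have := hka x; omega) g hg fun p _ q _ => by
        have := ds_le p q
        omega)
      convert this using 2 with ψ
      have hgR : g ∉ R := fun e => disjoint_left.1 h.com.disj e hg
      rw [hA, union_comm, ← insert_eq, Psi, prod_insert hgR, Psi]
  | succ j ih =>
    intro k hk it sc R A h
    refine merge_phase (B := B) (by linarith) (hP.cone _) (S0 := fun g => (it g).S) (D := A) ?_ _ it A
      (fun g => {g}) rfl h.com ⟨by simp, by simp +contextual, ?_, ?_, ?_⟩
    · intro it' A' U h1 h2 h3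
      obtain ⟨it2, sc2, R2, A2, h4, h5⟩ := layer_step hY (by omega) h1 (fun g hg => by
        refine (h2.zb g hg).trans (Real.exp_le_exp.2 ?_)
        have := terr_card (fun c hc c' hc' => h.com.dj c (h2.u1 g hg hc) c' (h2.u1 g hg hc'))
          (h2.u3 g hg)
        have : ((U g).card : ℝ) ≤ 263169 * Pq (k + 1) (it' g).S := by exact_mod_cast this
        linarith) h3
      have := touch_phase hY (by omega) hP (Uk_disj (k + 1))
        (fun it A => ih (k + 1) (by omega) it sc2 R2 A) _ _ _ h4
      have eU : Uk B (k + 1) ∪ Qk B (k + 1) = Uk B k := by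
        ext x; simp only [Uk, Qk, mem_union, mem_filter, mem_univ, true_and]
        rw [← and_or_left]; exact and_congr_right fun _ => by omega
      rw [eU] at this
      exact hP.congr _ _ _ (fun φ hφ => h5 φ fun x hx => hφ x (mem_filter.2
        ⟨mem_univ _, B.idem x, by rwa [B.kpi]⟩)) this
    · intro g hg c hc
      rw [mem_singleton.1 hc]
      exact ⟨g, (h.com.ok g hg).1.mem, g, (h.com.ok g hg).1.mem, by simp [rr_pos]⟩
    · intro g _ p hp
      exact ⟨g, mem_singleton_self _, hp⟩
    · intro g hg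
      simpa using h.zb g hg

theorem comb_main {B : Bod n} {Y : ℝ} (hY : 10 ^ 9 ≤ Y)
    {P : Finset (Vx n) → ((Vx n → ℝ) → ℝ) → Prop} (hP : Fam B P) {kk : ℕ} (hkk : 16 * n < rr kk)
    (hka : ∀ x, B.ka x < kk) (hfin : ∀ it sc R, Ret B Y (kk + 1) it sc R → P ∅ (Psi R it) ∧
      ∀ a : Item n, ∑ x, a.ρ x ≠ 0 → P ∅ fun ψ => fac a ψ * Psi R it ψ) :
    P (univ.filter fun x => B.pi x = x) fun _ => 1 := by
  have := touch_phase hY (Nat.succ_pos kk) hP (Uk_disj 0) (sc := fun _ => 0) (R := ∅)
    (fun it A => cone_main hY hP hkk hka hfin kk 0 (zero_add _) it _ _ A) (Qk B 0)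
    (fun x => lone 0 x 0 0) ∅ ⟨⟨⟨by simp, by simp, by simp, by simp, by simp, by simp⟩, by simp,
      by simp, by simp, by simp, by simp, by simp⟩, by simp, Subset.rfl, by simp, by simp, by simp,
      Or.inr (by simp)⟩
  have eU : Uk B 0 ∪ Qk B 0 = univ.filter fun x => B.pi x = x := by
    ext x; simp only [Uk, Qk, mem_union, mem_filter, mem_univ, true_and]
    rw [← and_or_left]; exact and_iff_left (by omega)
  rw [eU] at this
  convert this using 2
  simp [Psi]

end Pool.Agent.Lib.MP_9cc147_pr.FB
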