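import Pool.Agent.Lib.MP_9cc147_pr.BItem

/-! Cost of a complex translation by a spin wave that is constant on bodies. -/

open Finset Complex Metric
open scoped ComplexConjugate

namespace Pool.Agent.Lib.MP_9cc147_pr.FB

variable {n : ℕ} {B : Bod n}

lemma min_scale (K : ℕ) {sg : ℕ → Vx n → ℤ} (hs : Sep B sg) {F : Finset (Vx n × Vx n)}
    (hF : F ⊆ Ed n) (h : ∃ e ∈ F, sw B K sg e.1 ≠ sw B K sg e.2) :
    ∃ m < K, ∃ c, sg m c ≠ 0 ∧ (∃ e ∈ F, near m c e) ∧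
      ∀ e ∈ F, |sw B K sg e.1 - sw B K sg e.2| ≤ 17 / rr m := by
  classical
  obtain ⟨e, he, h⟩ := h
  obtain ⟨i, hi, c, hc, hn⟩ := sw_grad_ne K h
  have ex : ∃ i, ∃ c, sg i c ≠ 0 ∧ ∃ e ∈ F, near i c e := ⟨i, c, hc, e, he, hn⟩
  obtain ⟨c', h1, h2⟩ := Nat.find_spec ex
  refine ⟨Nat.find ex, (Nat.find_min' ex ⟨c, hc, e, he, hn⟩).trans_lt hi, c', h1, h2,
    fun e' he' => sw_grad K hs (hF he') _ fun j hj d hd hn' => ?_⟩
  exact Nat.find_min ex hj ⟨d, hd, e', he', hn'⟩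

/-- normalised spin wave -/
noncomputable def nw (B : Bod n) (K : ℕ) (sg : ℕ → Vx n → ℤ) (x : Vx n) : ℝ :=
  sw B K sg x - sw B K sg (vz n)

lemma nw_pi (K : ℕ) {sg : ℕ → Vx n → ℤ} (hs : Sep B sg) (x : Vx n) :
    nw B K sg (B.pi x) = nw B K sg x := by rw [nw, nw, sw_pi K hs]

lemma nw_sub (K : ℕ) (sg : ℕ → Vx n → ℤ) (x y : Vx n) :
    nw B K sg x - nw B K sg y = sw B K sg x - sw B K sg y := by unfold nw; ring

noncomputable def act (B : Bod n) (K : ℕ) (sg : ℕ → Vx n → ℤ) : Finset (Vx n × Vx n) :=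
  (Ed n).filter fun e => sw B K sg e.1 ≠ sw B K sg e.2

lemma cost_edge {W : ℂ → ℂ} {Y b y t : ℝ} (hW : WP W Y b) (hb : 0 ≤ b) (K : ℕ)
    {sg : ℕ → Vx n → ℤ} (hs : Sep B sg) (hy : 0 < y) (hyY : y ≤ Y) (ht : |t| ≤ y) {φ : Vx n → ℂ}
    (hE : ∀ i c, ∀ e ∈ Ed n, sg i c ≠ 0 → near i c e → |(gr φ e).im| ≤ y / rr i) :
    ‖∏ e ∈ act B K sg, exp (W (gr φ e) - W (gr (sh φ (nw B K sg) (t * I)) e))‖ ≤
      Real.exp (12000 * b * y ^ 2 * nb K sg) := by
  rw [norm_prod]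
  simp only [norm_exp]
  rw [← Real.exp_sum]
  refine Real.exp_le_exp.2 (dcount K sg _ _
    (fun i c e => if near i c e then 648 * b * y ^ 2 / (rr i : ℝ) ^ 2 else 0) ?_ ?_ ?_)
  · intro i c e; split_ifs <;> positivity
  · intro e he
    rw [act, mem_filter] at he
    obtain ⟨m, hm, c, hc, ⟨e', he', hn⟩, hg⟩ := min_scale K hs (F := {e}) (by simp [he.1])
      ⟨e, by simp, he.2⟩
    rw [mem_singleton] at he'
    subst he'
    refine ⟨m, hm, c, hc, ?_⟩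
    rw [if_pos hn]
    have h1 := hE m c e' he.1 hc hn
    have h2 := im_sh (a := nw B K sg) (t := t * I) h1 (B := y) (C := 17 / rr m) (by simpa using ht)
      (by rw [nw_sub]; exact hg e' (by simp))
    have r1 := rr_oneR m
    have e1 : y / rr m + y * (17 / rr m) = 18 * (y / rr m) := by ring
    have a0 : 0 < y / rr m := by positivity
    have a1 : y / rr m ≤ y := div_le_self hy.le r1
    rw [e1] at h2
    have c1 := abs_le.1 (hW.curv (gr φ e') (h1.trans_lt (by linarith)))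
    have c2 := abs_le.1 (hW.curv (gr (sh φ (nw B K sg) (t * I)) e') (h2.trans_lt (by linarith)))
    have e2 : (gr (sh φ (nw B K sg) (t * I)) e').re = (gr φ e').re := by rw [gr_sh]; simp
    rw [e2] at c2
    have s1 : (gr φ e').im ^ 2 ≤ (18 * (y / rr m)) ^ 2 :=
      sq_le_sq' (by linarith [(abs_le.1 h1).1]) (by linarith [(abs_le.1 h1).2])
    have s2 : (gr (sh φ (nw B K sg) (t * I)) e').im ^ 2 ≤ (18 * (y / rr m)) ^ 2 :=
      sq_le_sq' (abs_le.1 h2).1 (abs_le.1 h2).2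
    have e3 : 648 * b * y ^ 2 / (rr m : ℝ) ^ 2 = 2 * b * (18 * (y / rr m)) ^ 2 := by
      field_simp; ring
    rw [e3, sub_re]
    nlinarith [mul_le_mul_of_nonneg_left s1 hb, mul_le_mul_of_nonneg_left s2 hb]
  · intro i c
    rw [← sum_filter, sum_const, nsmul_eq_mul]
    have h1 : (((act B K sg).filter (near i c)).card : ℝ) ≤ 18 * (rr i : ℝ) ^ 2 :=
      le_trans (by exact_mod_cast card_le_card (filter_subset_filter _ (filter_subset _ _)))
        (near_card i c)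
    have := rr_posR i
    calc _ ≤ 18 * (rr i : ℝ) ^ 2 * (648 * b * y ^ 2 / (rr i : ℝ) ^ 2) := by gcongr
      _ = 11664 * b * y ^ 2 := by field_simp; ring
      _ ≤ _ := by gcongr; norm_num

/-- touched by the spin wave -/
def Tch (B : Bod n) (K : ℕ) (sg : ℕ → Vx n → ℤ) (j : ℕ) (τ : Vx n) : Prop :=
  ∃ e ∈ blk j τ, sw B K sg e.1 ≠ sw B K sg e.2

lemma tch_data (K : ℕ) {sg : ℕ → Vx n → ℤ} (hs : Sep B sg) {j : ℕ} {τ : Vx n} (hj : 1 ≤ j)
    (h : Tch B K sg j τ) (hf : ∀ i c, sg i c ≠ 0 → i ≤ j → rr j ≤ 2 * ds c τ) :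
    ∃ m < K, ∃ c, sg m c ≠ 0 ∧ j < m ∧ 8 * ds c τ < 2 * rr m + 8 + rr j ∧
      ∀ e ∈ blk j τ, |nw B K sg e.1 - nw B K sg e.2| ≤ 17 / rr m := by
  obtain ⟨m, hm, c, hc, ⟨e, he, hn⟩, hg⟩ := min_scale K hs (blk_sub j τ) h
  have h1 := near_ds (blk_sub j τ he) hn
  have h2 := (mem_filter.1 he).2
  have h3 := ds_tri c e.1 τ
  rw [ds_comm e.1 τ] at h3
  refine ⟨m, hm, c, hc, ?_, by omega, fun e he => by rw [nw_sub]; exact hg e he⟩
  by_contra hle
  have h4 := hf m c hc (not_lt.1 hle)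
  have h5 := rr_mono (not_lt.1 hle)
  have h6 : rr 1 ≤ rr j := rr_mono hj
  have h7 : rr 1 = 64 := rfl
  omega

lemma cost_fine {Y y t : ℝ} (hY : 1 ≤ Y) (K : ℕ) {sg : ℕ → Vx n → ℤ} (hs : Sep B sg) (hy : 0 < y)
    (hyY : y ≤ Y) (ht : |t| ≤ y) {φ : Vx n → ℂ} {T : Finset (Vx n)} {sc : Vx n → ℕ}
    {Z : Vx n → (Vx n → ℂ) → ℂ} (hZ : ∀ τ ∈ T, ZP Y (sc τ) τ (Z τ))
    (hre : ∀ τ ∈ T, ∀ ψ, (Z τ (cx ψ)).im = 0) (hpos : ∀ τ ∈ T, 1 ≤ sc τ)
    (htc : ∀ τ ∈ T, Tch B K sg (sc τ) τ)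
    (hf : ∀ τ ∈ T, ∀ i c, sg i c ≠ 0 → i ≤ sc τ → rr (sc τ) ≤ 2 * ds c τ)
    (hsp : ∀ τ ∈ T, ∀ τ' ∈ T, τ ≠ τ' → sc τ = sc τ' → rr (sc τ) ≤ ds τ τ')
    (hE : ∀ τ ∈ T, ∀ e ∈ blk (sc τ) τ, ∀ i c, sg i c ≠ 0 → |(gr φ e).im| ≤ y / rr i) :
    ‖∏ τ ∈ T, (1 + Z τ (sh φ (nw B K sg) (t * I))) / (1 + Z τ φ)‖ ≤
      Real.exp (70000 * Real.exp (-Y) * (y / Y) ^ 2 * nb K sg) := by
  rw [norm_prod]
  have key : ∀ τ ∈ T, ∃ i < K, ∃ c, sg i c ≠ 0 ∧
      Real.log ‖(1 + Z τ (sh φ (nw B K sg) (t * I))) / (1 + Z τ φ)‖ ≤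
        if sc τ < i ∧ ds c τ ≤ rr i then
          3888 * eta Y (sc τ) * (y / Y) ^ 2 * ((rr (sc τ) : ℝ) / rr i) ^ 2 else 0 := by
    intro τ hτ
    obtain ⟨m, hm, c, hc, h1, h2, h3⟩ := tch_data K hs (hpos τ hτ) (htc τ hτ) (hf τ hτ)
    have r1 := rr_lt h1
    have r0 := rr_pos (sc τ)
    refine ⟨m, hm, c, hc, ?_⟩
    rw [if_pos ⟨h1, by omega⟩]
    have p1 := rr_posR m
    have p2 := rr_posR (sc τ)
    have r2 : 64 * (rr (sc τ) : ℝ) ≤ rr m := by exact_mod_cast r1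
    have a0 : 0 < y / rr m := by positivity
    have := ratio_fine hY (hZ τ hτ) (hre τ hτ) (φ := φ) (φ' := sh φ (nw B K sg) (t * I))
      (g := 18 * (y / rr m)) (by positivity) ?_ (fun e he => by linarith [hE τ hτ e he m c hc])
      (fun e he => (im_sh (hE τ hτ e he m c hc) (B := y) (by simpa using ht) (h3 e he)).trans
        (le_of_eq (by ring))) (fun x => by simp [sh])
    · have p0 := eta_pos Y (sc τ)
      refine (log_le_of (norm_nonneg _) this (by positivity)).trans (le_of_eq ?_)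
      field_simp; ring
    · rw [← mul_div_assoc, div_lt_div_iff₀ p1 p2]; nlinarith
  have h2 := dcount K sg T _ _ (B := 3888 * 9 * (y / Y) ^ 2 * (2 * Real.exp (-Y))) (fun i c τ => by
    have := eta_pos Y (sc τ); split_ifs <;> positivity) key (fun i c => by
      rw [← sum_filter]
      refine scale_sum Y _ sc (fun j => 3888 * eta Y j * (y / Y) ^ 2 * ((rr j : ℝ) / rr i) ^ 2)
        (by positivity) fun j => ?_
      have p0 := eta_pos Y j
      have p1 := rr_posR i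
      have p2 := rr_posR j
      by_cases hj : j < i
      · have e : rr i = rr (i - j) * rr j := by unfold rr; rw [← pow_add]; congr 1; omega
        have := packing ((T.filter fun τ => sc τ < i ∧ ds c τ ≤ rr i).filter fun τ => sc τ = j) c
          (rr (i - j)) (rr_pos j) (fun x hx => by
            rw [← e]; exact (mem_filter.1 (mem_filter.1 hx).1).2.2) (fun x hx x' hx' hne => by
            have a1 := (mem_filter.1 hx).2
            have a2 := (mem_filter.1 hx').2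
            rw [← a1]
            exact hsp x (mem_filter.1 (mem_filter.1 hx).1).1 x'
              (mem_filter.1 (mem_filter.1 hx').1).1 hne (a1.trans a2.symm))
        have h3 : ((((T.filter fun τ => sc τ < i ∧ ds c τ ≤ rr i).filter
          fun τ => sc τ = j).card : ℕ) : ℝ) ≤ (2 * rr (i - j) + 1) ^ 2 := by exact_mod_cast this
        have p3 := rr_oneR (i - j)
        have h4 : (2 * (rr (i - j) : ℝ) + 1) ^ 2 ≤ 9 * (rr (i - j) : ℝ) ^ 2 := by nlinarith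
        refine (mul_le_mul_of_nonneg_right (h3.trans h4) (by positivity)).trans (le_of_eq ?_)
        rw [e]; push_cast; field_simp
      · rw [filter_eq_empty_iff.2, card_empty]
        · simp only [Nat.cast_zero, zero_mul]; positivity
        · intro τ hτ e
          exact hj (e ▸ (mem_filter.1 hτ).2.1))
  refine (prod_le_prod (fun _ _ => norm_nonneg _) fun τ _ => Real.le_exp_log _).trans ?_
  rw [← Real.exp_sum]
  refine Real.exp_le_exp.2 (h2.trans ?_)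
  have := nb_nonneg K sg
  have := Real.exp_pos (-Y)
  have : 3888 * 9 * (y / Y) ^ 2 * (2 * Real.exp (-Y)) = 69984 * Real.exp (-Y) * (y / Y) ^ 2 := by
    ring
  rw [this]
  gcongr; norm_num

end Pool.Agent.Lib.MP_9cc147_pr.FB
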