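import Pool.Agent.Lib.MP_9cc147_pr.Main

/-! Rigid bodies: fibres of an idempotent map, with a level. -/

namespace Pool.Agent.Lib.MP_9cc147_pr

/-- rigid bodies -/
structure Bod (n : ℕ) where
  pi : Vx n → Vx n
  ka : Vx n → ℕ
  idem : ∀ x, pi (pi x) = pi x
  kpi : ∀ x, ka (pi x) = ka x
  free : ∀ x, ka x = 0 → pi x = x
  near : ∀ x, 4096 * ds x (pi x) ≤ rr (ka x)
  sep : ∀ x y, ka x ≠ 0 → ka x ≤ ka y → pi x ≠ pi y → rr (ka x + ka x / 4 + 1) ≤ ds x y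
  good : ∀ y, ka y ≠ 0 → rr (ka y - 1) ≤ 4 * ds (vz n) y
  low : ∀ x, ka x ≠ 0 → 100 ≤ ka x
  gap : ∀ x y, ka x < ka y → ka x + ka x / 4 ≤ ka y

end Pool.Agent.Lib.MP_9cc147_pr
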