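import Pool.Agent.Lib.MP_9cc147_pr.BFinal

/-! Rounding one coordinate and adding a uniform variable preserves Lebesgue measure. -/

open Finset Complex MeasureTheory Filter Topology
open scoped ENNReal

namespace Pool.Agent.Lib.MP_9cc147_pr.FB

variable {n : ℕ}

lemma meas_round : Measurable fun r : ℝ => (round r : ℝ) := by
  simp only [round_eq]
  exact (measurable_of_countable fun k : ℤ => (k : ℝ)).comp
    (Int.measurable_floor.comp (measurable_id.add_const _))

lemma iv_meas (k : ℤ) : MeasurableSet (iv k) := measurableSet_Ico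

lemma mem_iv {k : ℤ} {r : ℝ} : r ∈ iv k ↔ round r = k := by simp [iv, round_eq_iff]

/-- uniform measure on the unit window -/
noncomputable def unif : Measure ℝ := volume.restrict (iv 0)

lemma unif_prob : IsProbabilityMeasure unif := ⟨by simp [unif, iv]; norm_num⟩

lemma round_mp : MeasurePreserving (fun p : ℝ × ℝ => (round p.1 : ℝ) + p.2)
    (volume.prod unif) volume := by
  have := unif_prob
  have hm : Measurable fun p : ℝ × ℝ => (round p.1 : ℝ) + p.2 :=
    (meas_round.comp measurable_fst).add measurable_snd
  refine ⟨hm, Measure.ext fun s hs => ?_⟩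
  have hd : Pairwise (Function.onFun Disjoint iv) := fun k k' h =>
    Set.disjoint_left.2 fun r h1 h2 => h ((mem_iv.1 h1).symm.trans (mem_iv.1 h2))
  have hu : ⋃ k, iv k = Set.univ :=
    Set.eq_univ_of_forall fun r => Set.mem_iUnion.2 ⟨round r, mem_iv.2 rfl⟩
  rw [Measure.map_apply hm hs, Measure.prod_apply (hm hs), ← Measure.restrict_univ (μ := volume),
    ← hu, lintegral_iUnion iv_meas hd, Measure.restrict_iUnion hd iv_meas, Measure.sum_apply _ hs]
  refine tsum_congr fun k => ?_
  rw [setLIntegral_congr_fun (iv_meas k) (g := fun _ => volume.restrict (iv k) s) fun r hr => ?_]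
  · simp [iv]; norm_num
  · have e : Prod.mk r ⁻¹' ((fun p : ℝ × ℝ => (round p.1 : ℝ) + p.2) ⁻¹' s) ∩ iv 0 =
        (fun t => (k : ℝ) + t) ⁻¹' (s ∩ iv k) := by
      ext t
      simp only [mem_iv.1 hr, iv, Set.mem_inter_iff, Set.mem_preimage, Set.mem_Ico, Int.cast_zero]
      exact and_congr_right fun _ => ⟨fun h => ⟨by linarith, by linarith⟩,
        fun h => ⟨by linarith, by linarith⟩⟩
    rw [unif, Measure.restrict_apply' (iv_meas 0), e, measure_preimage_add,
      Measure.restrict_apply hs]

/-- resample the fractional part of one coordinate -/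
noncomputable def Rs (b : Vx n) (p : (Vx n → ℝ) × ℝ) (x : Vx n) : ℝ :=
  if x = b then round (p.1 b) + p.2 else p.1 x

lemma Rs_meas (b : Vx n) : Measurable (Rs b) := by
  refine measurable_pi_lambda _ fun x => ?_
  unfold Rs
  split_ifs
  · exact (meas_round.comp ((measurable_pi_apply b).comp measurable_fst)).add measurable_snd
  · fun_prop

lemma Rs_mp (b : Vx n) : MeasurePreserving (Rs b) (volume.prod unif) volume := by
  have := unif_prob
  have h1 := measurePreserving_pi (fun _ : Vx n => (volume : Measure ℝ).prod unif) (fun _ => volume)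
    (f := fun x p => if x = b then (round p.1 : ℝ) + p.2 else p.1) fun x => by
      split_ifs
      · exact round_mp
      · exact measurePreserving_fst
  have h2 := (measurePreserving_arrowProdEquivProdArrow ℝ ℝ (Vx n) (fun _ => volume)
    fun _ => unif).symm
  have h3 := (MeasurePreserving.id (volume : Measure (Vx n → ℝ))).prod
    (measurePreserving_eval (μ := fun _ : Vx n => unif) b)
  rw [← h3.map_eq]
  refine MeasurePreserving.map_of_comp ?_ (Rs_meas b) h3.measurable
  have e : Rs b ∘ Prod.map id (Function.eval b) = (fun a x => (fun x p => if x = b then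
      (round p.1 : ℝ) + p.2 else p.1) x (a x)) ∘
        (MeasurableEquiv.arrowProdEquivProdArrow ℝ ℝ (Vx n)).symm := by
    ext p x
    by_cases h : x = b
    · subst h; simp [Rs, MeasurableEquiv.arrowProdEquivProdArrow]
    · simp [Rs, h, MeasurableEquiv.arrowProdEquivProdArrow]
  rw [e]
  exact h1.comp h2

lemma approx1 {A : ℝ → ℂ} (hA : Continuous A) :
    Tendsto (fun N => ∫ t, A t * FF N t ∂unif) atTop (𝓝 (A 0)) := by
  have := unif_prob
  have h := approx (n := 0) 0 (Φ := fun ψ => A (ψ (vz 0))) (by fun_prop)
  simp only [Pi.zero_apply, Int.cast_zero] at h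
  refine h.congr fun N => ?_
  have u : ∀ x : Vx 0, x = vz 0 := fun x =>
    Prod.ext (Fin.ext (by omega)) (Fin.ext (by omega))
  have p : ∀ f : Vx 0 → ℂ, ∏ x, f x = f (vz 0) := fun f =>
    prod_eq_single _ (fun x _ h => absurd (u x) h) (by simp)
  have := integral_fintype_prod_eq_prod (μ := fun _ : Vx 0 => unif) fun _ t => A t * FF N t
  simp only [p] at this
  rw [← this, box, volume_pi, Measure.restrict_pi_pi]
  simp only [KK, ofReal_prod, p]
  rfl

end Pool.Agent.Lib.MP_9cc147_pr.FB
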