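import Pool.Agent.Lib.MP_9cc147_pr.BFinal
import Pool.Agent.Lib.MP_9cc147_pr.BComb
import Pool.Agent.Lib.MP_9cc147_pr.BExp1

/-! Expansion of the integer constraints, one representative at a time. -/

open Finset Complex MeasureTheory
open scoped ENNReal

namespace Pool.Agent.Lib.MP_9cc147_pr.FB

variable {n : ℕ}

/-- heights from free variables: the representatives in `U` are rounded -/
noncomputable def TT (B : Bod n) (g : Vx n → ℤ) (U : Finset (Vx n)) (ψ : Vx n → ℝ) (x : Vx n) : ℝ :=
  (if B.pi x ∈ U then (round (ψ (B.pi x)) : ℝ) else ψ (B.pi x)) + g x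

/-- the variables that are not representatives are dummies in a unit window -/
noncomputable def mu (B : Bod n) (g : Vx n → ℤ) (U : Finset (Vx n)) : Measure (Vx n → ℝ) :=
  (volume.restrict {ψ : Vx n → ℝ | ∀ x, B.pi x ≠ x → ψ x ∈ iv 0}).map (TT B g U)

section aux

open Filter Topology

/-- the window of the dummy variables -/
def Dw (B : Bod n) : Set (Vx n → ℝ) := {ψ | ∀ x, B.pi x ≠ x → ψ x ∈ iv 0}

lemma Dw_meas (B : Bod n) : MeasurableSet (Dw B) := by
  simp only [Dw, Set.ofPred_forall]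
  exact MeasurableSet.iInter fun x => MeasurableSet.iInter fun _ =>
    measurable_pi_apply x (iv_meas 0)

lemma TT_meas (B : Bod n) (g : Vx n → ℤ) (U : Finset (Vx n)) : Measurable (TT B g U) := by
  refine measurable_pi_lambda _ fun x => ?_
  unfold TT
  split_ifs
  · exact (meas_round.comp (measurable_pi_apply _)).add_const _
  · fun_prop

lemma TT_mp (B : Bod n) (g : Vx n → ℤ) (U : Finset (Vx n)) :
    MeasurePreserving (TT B g U) (volume.restrict (Dw B)) (mu B g U) := ⟨TT_meas B g U, rfl⟩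

lemma maj_le' {a b p C : ℝ} (ha : 0 ≤ a) (hb : 0 ≤ b) (hp : 0 ≤ p) (hC : 0 ≤ C) (h : a ≤ b + C) :
    (1 + b) ^ (-p) ≤ (1 + C) ^ p * (1 + a) ^ (-p) := by
  rw [Real.rpow_neg (by positivity), Real.rpow_neg (by positivity), ← div_eq_mul_inv,
    inv_eq_one_div, div_le_div_iff₀ (by positivity) (by positivity), one_mul,
    ← Real.mul_rpow (by positivity) (by positivity)]
  exact Real.rpow_le_rpow (by positivity) (by nlinarith) hp

lemma mu_maj (B : Bod n) (g : Vx n → ℤ) (U : Finset (Vx n)) :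
    Integrable (fun ψ : Vx n → ℝ => (1 + ‖ψ‖) ^ (-pp n)) (mu B g U) := by
  have hp : 0 ≤ pp n := by unfold pp; positivity
  have hm : Measurable fun ψ : Vx n → ℝ => (1 + ‖ψ‖) ^ (-pp n) := by fun_prop
  rw [← (TT_mp B g U).integrable_comp hm.aestronglyMeasurable]
  refine ((integrable_maj.const_mul ((1 + (‖rl g‖ + 1 / 2)) ^ pp n)).restrict).mono'
    (hm.comp (TT_meas B g U)).aestronglyMeasurable ?_
  filter_upwards [ae_restrict_mem (Dw_meas B)] with ψ hψ
  rw [Function.comp, Real.norm_of_nonneg (by positivity)]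
  refine maj_le' (norm_nonneg _) (norm_nonneg _) hp (by positivity)
    ((pi_norm_le_iff_of_nonneg (by positivity)).2 fun x => ?_)
  have h1 : |TT B g U ψ x| ≤ ‖TT B g U ψ‖ := norm_le_pi_norm (TT B g U ψ) x
  have h2 : |(g x : ℝ)| ≤ ‖rl g‖ := norm_le_pi_norm (rl g) x
  have h3 := abs_le.1 (abs_sub_round (ψ x))
  have h4 := norm_nonneg (TT B g U ψ)
  rw [Real.norm_eq_abs, abs_le] at *
  by_cases hx : B.pi x = x
  · rw [TT, hx] at h1
    split_ifs at h1 <;> constructor <;> linarith [h1.1, h1.2]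
  · rw [mem_iv.1 (hψ x hx), Int.cast_zero] at h3
    constructor <;> linarith [h2.1, h2.2]

end aux

theorem mu_MP (B : Bod n) (g : Vx n → ℤ) : MP B (mu B g ∅) := by
  refine ⟨fun a ha => ?_, mu_maj B g ∅⟩
  have h := (measurePreserving_add_right volume
    fun x => if B.pi x = x then a x else 0).restrict_preimage (Dw_meas B)
  rw [show (fun ψ : Vx n → ℝ => ψ + fun x => if B.pi x = x then a x else 0) ⁻¹' Dw B = Dw B by
    ext ψ; simp +contextual [Dw]] at h
  refine (TT_mp B g ∅).of_semiconj h (fun ψ => ?_) (measurable_add_const a)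
  ext x
  simp only [TT, notMem_empty, if_false, Pi.add_apply, B.idem, if_true, ha]
  ring

section aux

open Filter Topology

lemma pi_vz (B : Bod n) : B.pi (vz n) = vz n := by
  refine B.free _ (by_contra fun h => ?_)
  have := B.good _ h
  have := rr_pos (B.ka (vz n) - 1)
  simp at *
  omega

lemma mu_int (B : Bod n) (g : Vx n → ℤ) (U : Finset (Vx n)) :
    ∀ᵐ φ : Vx n → ℝ ∂mu B g U, ∀ x, B.pi x ∈ U → ∃ m : ℤ, φ x = m := by
  refine (ae_map_iff (TT_meas B g U).aemeasurable ?_).2 (Eventually.of_forall fun ψ x hx => ?_)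
  · simp only [Set.ofPred_forall, Set.ofPred_exists]
    exact MeasurableSet.iInter fun x => MeasurableSet.iInter fun _ => MeasurableSet.iUnion
      fun m => measurableSet_eq_fun (measurable_pi_apply x) measurable_const
  · exact ⟨round (ψ (B.pi x)) + g x, by simp [TT, hx]⟩

/-- indicator of a body -/
def eb (B : Bod n) (b x : Vx n) : ℝ := if B.pi x = b then 1 else 0

lemma mu_erase (B : Bod n) (g : Vx n → ℤ) {U : Finset (Vx n)} {b : Vx n} (hb : b ∈ U)
    (hp : B.pi b = b) : MeasurePreserving (fun p : (Vx n → ℝ) × ℝ => p.1 + p.2 • eb B b)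
      ((mu B g U).prod unif) (mu B g (U.erase b)) := by
  have := unif_prob
  have h1 := (Rs_mp b).restrict_preimage (Dw_meas B)
  rw [show Rs b ⁻¹' Dw B = Dw B ×ˢ Set.univ by
    ext p
    simp only [Dw, Set.mem_preimage, Set.mem_ofPred_eq, Set.mem_prod, Set.mem_univ, and_true]
    refine forall₂_congr fun x hx => ?_
    rw [Rs, if_neg (by rintro rfl; exact hx hp)], ← Measure.restrict_prod_eq_prod_univ] at h1
  have h2 := (TT_mp B g U).prod (MeasurePreserving.id unif)
  rw [← h2.map_eq]
  refine MeasurePreserving.map_of_comp ?_ (by fun_prop) h2.measurable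
  have e : (fun p : (Vx n → ℝ) × ℝ => p.1 + p.2 • eb B b) ∘ Prod.map (TT B g U) id =
      TT B g (U.erase b) ∘ Rs b := by
    ext p x
    by_cases h : B.pi x = b
    · simp [TT, Rs, eb, h, hb]; ring
    · simp [TT, Rs, eb, h]
  rw [e]
  exact (TT_mp B g _).comp h1

lemma FF_int (N : ℕ) (m : ℤ) (t : ℝ) : FF N (m + t) = FF N t := by
  simp only [FF_dec]
  refine sum_congr rfl fun q _ => ?_
  rw [show 2 * Real.pi * (q * (m + t)) = 2 * Real.pi * (q * t) + (q * m : ℤ) * (2 * Real.pi) by
    push_cast; ring, Real.cos_add_int_mul_two_pi]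

lemma FF_bd (N : ℕ) : ∃ M, ∀ s, |FF N s| ≤ M := by
  refine ⟨∑ q ∈ range (N + 1), |cq N q| * (1 + |zq N q|), fun s => ?_⟩
  rw [FF_dec]
  refine (abs_sum_le_sum_abs _ _).trans (sum_le_sum fun q _ => ?_)
  rw [abs_mul]
  gcongr
  refine (abs_add_le _ _).trans ?_
  rw [abs_one, abs_mul]
  gcongr
  exact mul_le_of_le_one_right (abs_nonneg _) (Real.abs_cos_le_one _)

lemma limit1 (B : Bod n) (g : Vx n → ℤ) {U : Finset (Vx n)} {b : Vx n} (hb : b ∈ U)
    (hp : B.pi b = b) {W : ℂ → ℂ} {Y β : ℝ} (hW : WP W Y β) (hY : 1 ≤ Y) (lam : ℝ)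
    {f : (Vx n → ℝ) → ℝ} (hf : Continuous f) {M : ℝ} (hM : ∀ φ, |f φ| ≤ M) :
    Tendsto (fun N => ∫ φ, Base W lam (cx φ) * ((FF N (φ b) * f φ : ℝ) * chi φ)
      ∂mu B g (U.erase b)) atTop (𝓝 (∫ φ, Base W lam (cx φ) * (f φ * chi φ) ∂mu B g U)) := by
  have := unif_prob
  have : SFinite (mu B g U) := by unfold mu; infer_instance
  have hp0 : 0 ≤ pp n := by unfold pp; positivity
  set H : (Vx n → ℝ) → ℂ := fun φ => Base W lam (cx φ) * f φ with hH
  have Hc : Continuous H := (base_cont hW hY lam).mul (continuous_ofReal.comp hf)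
  set A : ℝ → ℂ := fun t => ∫ φ, H (φ + t • eb B b) * chi φ ∂mu B g U with hA
  have Ac : Continuous A := by
    refine continuous_iff_continuousAt.2 fun t0 => ?_
    obtain ⟨C, hC0, hC⟩ := weight_bound (n := n) hW hp0 (R := |t0| + 1) (by positivity)
    refine continuousAt_of_dominated (Eventually.of_forall fun t =>
      (Hc.comp (by fun_prop)).aestronglyMeasurable.mul chi_adm.1) ?_
      (((mu_maj B g U).const_mul C).mul_const M) (Eventually.of_forall fun φ => by fun_prop)
    filter_upwards [Metric.ball_mem_nhds t0 one_pos] with t ht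
    refine Eventually.of_forall fun φ => ?_
    have hM0 := (abs_nonneg _).trans (hM φ)
    have t1 : |t| ≤ |t0| + 1 := by
      linarith [abs_sub_abs_le_abs_sub t t0, Real.dist_eq t t0 ▸ Metric.mem_ball.1 ht]
    unfold chi win
    split_ifs with h
    · rw [mul_one, hH, norm_mul, norm_base_real, norm_real]
      refine mul_le_mul (hC _ φ (fun e _ => cx_strip hY _ e)
        (abs_le.2 ⟨by linarith [abs_nonneg t0], by linarith [abs_nonneg t0]⟩) fun e _ => ?_)
        (hM _) (norm_nonneg _) (by positivity)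
      have : (gr (cx (φ + t • eb B b)) e).re - (φ e.1 - φ e.2) =
          t * (eb B b e.1 - eb B b e.2) := by simp [gr, cx]; ring
      rw [this, abs_mul]
      refine (mul_le_of_le_one_right (abs_nonneg _) ?_).trans t1
      unfold eb; split_ifs <;> simp
    · rw [mul_zero, norm_zero]; positivity
  have e0 : A 0 = ∫ φ, Base W lam (cx φ) * (f φ * chi φ) ∂mu B g U := by
    simp only [hA, hH, zero_smul, add_zero, mul_assoc]
  rw [← e0]
  refine (approx1 Ac).congr fun N => ?_
  obtain ⟨M', hM'⟩ := FF_bd N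
  have hi := integrable_base (mu_maj B g (U.erase b)) hW hY lam (chi_adm.real
    (f := fun φ => FF N (φ b) * f φ) (((FF_cont N).comp (continuous_apply b)).mul hf)
    (M := M' * M) fun φ => by
      rw [abs_mul]
      exact mul_le_mul (hM' _) (hM _) (abs_nonneg _) ((abs_nonneg _).trans (hM' 0)))
  have hme := mu_erase B g hb hp
  rw [← hme.map_eq] at hi ⊢
  rw [integral_map hme.aemeasurable hi.1]
  refine Eq.trans (integral_congr_ae ?_)
    (integral_prod_symm _ ((integrable_map_measure hi.1 hme.aemeasurable).1 hi)).symm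
  filter_upwards [ae_restrict_mem (iv_meas 0)] with t ht
  rw [hA, ← integral_mul_const]
  refine integral_congr_ae ?_
  filter_upwards [mu_int B g U] with φ hφ
  obtain ⟨m, hm⟩ := hφ b (hp.symm ▸ hb)
  have e1 : (φ + t • eb B b) b = m + t := by simp [eb, hp, hm]
  have e2 : chi (φ + t • eb B b) = chi φ := by
    by_cases h : vz n = b
    · have : round ((m : ℝ) + t) = m := by rw [round_intCast_add, mem_iv.1 ht, add_zero]
      have k : ∀ r : ℝ, (-1 / 2 ≤ r ∧ r < 1 / 2) ↔ round r = 0 := fun r => by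
        rw [round_eq_iff]; norm_num
      simp only [chi, win, h, e1, hm, k, this, round_intCast]
    · simp [chi, win, eb, pi_vz, h]
  simp only [Function.comp, e1, e2, FF_int, hH]
  push_cast; ring

end aux

theorem fam_PP (B : Bod n) {g : Vx n → ℤ} (hg : ∀ x, g (B.pi x) = 0) {W : ℂ → ℂ} {Y b : ℝ}
    (hW : WP W Y b) (hY : 1 ≤ Y) (lam : ℝ) : Fam B fun U => PP (mu B g U) W lam := by
  have _ := hg
  refine ⟨fun U => PP_cone _ _ _, fun U f f' h hf => ?_, fun U c hc hp X it h0 h1 => ?_⟩
  · have e : ∀ l, (fun ψ => Base W l (cx ψ) * (f ψ * chi ψ)) =ᵐ[mu B g U]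
        fun ψ => Base W l (cx ψ) * (f' ψ * chi ψ) := fun l => by
      filter_upwards [mu_int B g U] with φ hφ
      rw [h φ hφ]
    refine ⟨hf.1.congr (e _), hf.2.1.congr (e _), ?_⟩
    rw [← integral_congr_ae (e _), ← integral_congr_ae (e _)]
    exact hf.2.2
  have a0 := (chi_adm (μ := mu B g U)).real (Psi_cont X it) (Psi_bd X it)
  refine ⟨integrable_base (mu_maj B g U) hW hY _ a0, integrable_base (mu_maj B g U) hW hY _ a0, ?_⟩
  have hP := PP_cone (mu B g (U.erase c)) W lam
  have key : ∀ N, PP (mu B g (U.erase c)) W lam fun φ => FF N (φ c) * Psi X it φ := by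
    intro N
    have : ∀ s ⊆ range (N + 1), PP (mu B g (U.erase c)) W lam fun φ => ∑ q ∈ s,
        cq N q * ((1 + zq N q * Real.cos (2 * Real.pi * (q * φ c))) * Psi X it φ) := by
      intro s
      induction s using Finset.induction_on with
      | empty => simpa using hP.smul 0 _ le_rfl h0
      | insert a s ha ih =>
        intro hs
        simp only [sum_insert ha]
        refine hP.add _ _ (hP.smul _ _ ?_ ?_) (ih ((subset_insert _ _).trans hs))
        · unfold cq; split_ifs <;> positivity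
        · rcases a.eq_zero_or_pos with rfl | h
          · simpa [zq] using h0
          · exact h1 a _ h (zq_le (hs (mem_insert_self _ _)))
    simpa only [FF_dec, sum_mul, mul_assoc (cq N _)] using this _ Subset.rfl
  exact le_of_tendsto_of_tendsto' ((continuous_re.tendsto _).comp
    (limit1 B g hc hp hW hY lam (Psi_cont X it) (Psi_bd X it))) (((continuous_re.tendsto _).comp
    (limit1 B g hc hp hW hY 0 (Psi_cont X it) (Psi_bd X it))).const_mul (1 / 2))
    fun N => (key N).2.2

/-- dummy variables measure the deviation from rigidity -/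
def shear (B : Bod n) (g : Vx n → ℤ) : (Vx n → ℤ) ≃ (Vx n → ℤ) where
  toFun m x := if B.pi x = x then m x else m x + m (B.pi x) + g x
  invFun m x := if B.pi x = x then m x else m x - m (B.pi x) - g x
  left_inv m := by ext x; simp only [B.idem, if_true]; split_ifs <;> ring
  right_inv m := by ext x; simp only [B.idem, if_true]; split_ifs <;> ring

lemma mu_hasSum (B : Bod n) {g : Vx n → ℤ} (hg : ∀ x, g (B.pi x) = 0) {F : (Vx n → ℝ) → ℂ}
    (hF : Integrable F (mu B g (univ.filter fun x => B.pi x = x))) :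
    HasSum (fun m : Vx n → ℤ => if ∀ x, m x = m (B.pi x) + g x then F (rl m) else 0)
      (∫ φ, F φ ∂mu B g (univ.filter fun x => B.pi x = x)) := by
  set U := univ.filter fun x => B.pi x = x with hU
  have h1 := (integrable_map_measure hF.1 (TT_meas B g U).aemeasurable).1 hF
  have h2 := box_hasSum ((integrable_indicator_iff (Dw_meas B)).2 h1)
  rw [integral_indicator (Dw_meas B)] at h2
  rw [mu, integral_map (TT_meas B g U).aemeasurable hF.1, ← (shear B g).hasSum_iff]
  refine h2.congr_fun fun m => ?_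
  have hb : ∀ ψ ∈ box m, (Dw B).indicator (F ∘ TT B g U) ψ =
      if ∀ x, shear B g m x = shear B g m (B.pi x) + g x then F (rl (shear B g m)) else 0 := by
    intro ψ hψ
    have e1 : ψ ∈ Dw B ↔ ∀ x, shear B g m x = shear B g m (B.pi x) + g x := by
      refine forall_congr' fun x => ?_
      simp only [shear, Equiv.coe_fn_mk, B.idem, if_true, mem_iv, mem_box.1 hψ x]
      by_cases hx : B.pi x = x
      · simp [hx, hx ▸ hg x]
      · simp [hx]
    by_cases h : ψ ∈ Dw B
    · rw [Set.indicator_of_mem h, if_pos (e1.1 h), Function.comp]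
      congr 1
      ext x
      rw [rl, e1.1 h x]
      simp [TT, hU, B.idem, shear, mem_box.1 hψ]
    · rw [Set.indicator_of_notMem h, if_neg (mt e1.2 h)]
  have h1 := iK 0 m
  simp only [KK, FF, GG, range_zero, sum_empty, add_zero, Nat.cast_zero, zero_add, div_one,
    prod_const_one, integral_const, smul_eq_mul, mul_one] at h1
  rw [setIntegral_congr_fun (box_meas m) hb, integral_const, h1, one_smul, Function.comp]

theorem fs_bodies (A : ℝ) : ∃ β : ℝ, 0 < β ∧ ∀ n : ℕ, 1 ≤ n → ∃ lam : ℝ, 0 < lam ∧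
    A * Real.log (n + 1) * lam ^ 2 ≤ 1 ∧ ∀ u : ℤ → ℝ, (∀ k, |d2 u k| ≤ β) → Grow u →
    ∀ (B : Bod n) (g : Vx n → ℤ), (∀ x, g (B.pi x) = 0) →
      (∑' m : Vx n → ℤ, if ∀ x, m x = m (B.pi x) + g x then ENNReal.ofReal (wt u m) else 0) ≤
        2 * ∑' m : Vx n → ℤ, if ∀ x, m x = m (B.pi x) + g x then ENNReal.ofReal (wt u m) *
          ENNReal.ofReal (1 - Real.cos (lam * m (vl n))) else 0 := by
  set A' := 5 * |A| + 4 with hA'
  have A0 := abs_nonneg A
  set Y := 10 ^ 9 + 16 * A' with hYd
  have hY : 10 ^ 9 ≤ Y := by linarith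
  have hY1 : 1 ≤ Y := by linarith
  obtain ⟨C, hC, h⟩ := exists_WP hY1
  refine ⟨1 / (12000 * C * Y), by positivity, fun n hn => ?_⟩
  set m := Nat.log 64 (4 * n) with hm
  have hL : rr m ≤ 4 * n := Nat.pow_log_le_self _ (by omega)
  have hL' : 4 * n < 64 ^ (m + 1) := Nat.lt_pow_succ_log_self (by norm_num) _
  have m0 : (0 : ℝ) ≤ m := Nat.cast_nonneg _
  set X := A' * (m + 1) with hX
  have X4 : 4 ≤ X := by nlinarith
  set lam := (√X)⁻¹ with hlam
  have sX : 2 ≤ √X := Real.le_sqrt_of_sq_le (by linarith)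
  have l0 : 0 < lam := by positivity
  have l2 : lam ^ 2 * X = 1 := by
    rw [hlam, inv_pow, Real.sq_sqrt (by linarith), inv_mul_cancel₀ (by linarith)]
  have lg : Real.log (n + 1) ≤ 5 * (m + 1) := by
    have a1 : (n + 1 : ℝ) ≤ 64 ^ (m + 1) := by exact_mod_cast (by omega : n + 1 ≤ 64 ^ (m + 1))
    have a2 := Real.log_le_log (by positivity) a1
    rw [Real.log_pow, show (64 : ℝ) = 2 ^ 6 by norm_num, Real.log_pow] at a2
    push_cast at a2
    nlinarith [Real.log_two_lt_d9]
  have lg0 : 0 ≤ Real.log (n + 1) := Real.log_nonneg (by linarith [Nat.cast_nonneg (α := ℝ) n])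
  have a3 : A * Real.log (n + 1) ≤ X := by nlinarith [le_abs_self A]
  refine ⟨lam, l0, by nlinarith [sq_nonneg lam], fun u hu hgr B g hg => ?_⟩
  obtain ⟨W, hW, hWu⟩ := h _ u hu hgr
  set kk := 16 * n + (univ.sup B.ka + 1) with hkk
  have k1 : kk < rr kk := Nat.lt_pow_self (by norm_num)
  have k2 : m < rr m := Nat.lt_pow_self (by norm_num)
  obtain ⟨i0, i1, key⟩ := comb_main hY (fam_PP B hg hW hY1 lam) (kk := kk) (by omega)
    (fun x => by have := le_sup (f := B.ka) (mem_univ x); omega) fun it sc R hR =>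
      final_PP (mu_MP B g) hW hY (by positivity) (le_of_eq (by field_simp)) hR (m := m) (by omega)
        hL l0 (by rw [hlam, one_div]; gcongr) (κ := 4 * A') (by linarith) (by linarith)
        (le_of_eq (by rw [hX] at l2; linear_combination -4 * l2))
  have e : ∀ (l : ℝ) (M : Vx n → ℤ), (Base W l (cx (rl M)) * (((1 : ℝ) : ℂ) * chi (rl M))).re =
      Real.cos (l * M (vl n)) * wt u M := fun l M => by
    have := congrArg re (base_int hWu l M)
    rw [re_mul_ofReal, exp_ofReal_mul_I_re] at this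
    rw [← this, chi_box (m := M) (ψ := rl M) (mem_box.2 fun x => round_intCast _)]
    split_ifs <;> simp
  have s0 := (mu_hasSum B hg i0).mapL reCLM
  have s1 := (mu_hasSum B hg i1).mapL reCLM
  simp only [reCLM_apply, apply_ite re, e, zero_re, zero_mul, Real.cos_zero, one_mul] at s0 s1
  have s2 := s0.sub s1
  have w0 := wt_nonneg (n := n) u
  have n0 : ∀ M : Vx n → ℤ, 0 ≤ if ∀ x, M x = M (B.pi x) + g x then wt u M else 0 := fun M => by
    split_ifs; exacts [w0 M, le_rfl]
  have e0 := ENNReal.ofReal_tsum_of_nonneg n0 s0.summable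
  have e2 := ENNReal.ofReal_tsum_of_nonneg (fun M => by
    split_ifs
    · nlinarith [w0 M, Real.cos_le_one (lam * M (vl n))]
    · simp) s2.summable
  rw [s0.tsum_eq] at e0
  rw [s2.tsum_eq] at e2
  refine ((tsum_congr fun M => ?_).trans e0.symm).trans_le (le_of_le_of_eq ?_
    (congrArg (2 * ·) (e2.trans (tsum_congr fun M => ?_))))
  · split_ifs <;> simp
  · rw [← ENNReal.ofReal_ofNat, ← ENNReal.ofReal_mul (by norm_num)]
    exact ENNReal.ofReal_le_ofReal (by linarith)
  · split_ifs
    · rw [← ENNReal.ofReal_mul (w0 M)]; congr 1; ring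
    · simp

end Pool.Agent.Lib.MP_9cc147_pr.FB
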