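import Pool.Agent.Lib.MP_9cc147_pr.BIdent

/-! Complex translations against a measure that is invariant along rigid directions. -/

open Finset Complex Metric MeasureTheory Filter
open scoped ComplexConjugate Real

namespace Pool.Agent.Lib.MP_9cc147_pr.FB

variable {n : ℕ}

def PP (μ : Measure (Vx n → ℝ)) (W : ℂ → ℂ) (lam : ℝ) (f : (Vx n → ℝ) → ℝ) : Prop :=
  Integrable (fun ψ => Base W 0 (cx ψ) * (f ψ * chi ψ)) μ ∧
  Integrable (fun ψ => Base W lam (cx ψ) * (f ψ * chi ψ)) μ ∧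
  (∫ ψ, Base W lam (cx ψ) * (f ψ * chi ψ) ∂μ).re ≤
    1 / 2 * (∫ ψ, Base W 0 (cx ψ) * (f ψ * chi ψ) ∂μ).re

section aux

variable {B : Bod n} {μ : Measure (Vx n → ℝ)}

lemma win_adm {a b : ℝ} (ha : -2 ≤ a) (hb : b ≤ 2) : Adm μ (win (n := n) a b) := by
  refine ⟨Measurable.aestronglyMeasurable ?_, 1, fun ψ => ⟨?_, fun h => ?_⟩⟩
  · refine Measurable.ite ?_ measurable_const measurable_const
    exact (measurableSet_le measurable_const (measurable_pi_apply _)).inter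
      (measurableSet_lt (measurable_pi_apply _) measurable_const)
  · unfold win; split_ifs <;> simp
  · rw [win, if_neg]
    rintro ⟨h1, h2⟩
    exact absurd h (not_lt.2 (abs_le.2 ⟨by linarith, by linarith⟩))

lemma chi_adm : Adm μ (chi (n := n)) := win_adm (by norm_num) (by norm_num)

lemma chi_inv (K : ℕ) (sg : ℕ → Vx n → ℤ) (ψ : Vx n → ℝ) (s : ℝ) :
    chi (ψ + s • nw B K sg) = chi ψ := by simp [chi, win, nw_vz]

lemma PP_cone (μ : Measure (Vx n → ℝ)) (W : ℂ → ℂ) (lam : ℝ) : Cone (PP μ W lam) := by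
  constructor
  · rintro f g ⟨f1, f2, f3⟩ ⟨g1, g2, g3⟩
    have e : ∀ l ψ, Base W l (cx ψ) * (((f ψ + g ψ : ℝ) : ℂ) * chi ψ) =
        Base W l (cx ψ) * (f ψ * chi ψ) + Base W l (cx ψ) * (g ψ * chi ψ) := by
      intro l ψ; push_cast; ring
    simp only [PP, e]
    refine ⟨f1.add g1, f2.add g2, ?_⟩
    rw [integral_add f1 g1, integral_add f2 g2, add_re, add_re]
    linarith
  · rintro c f hc ⟨f1, f2, f3⟩
    have e : ∀ l ψ, Base W l (cx ψ) * (((c * f ψ : ℝ) : ℂ) * chi ψ) =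
        c * (Base W l (cx ψ) * (f ψ * chi ψ)) := by
      intro l ψ; push_cast; ring
    simp only [PP, e]
    refine ⟨f1.const_mul _, f2.const_mul _, ?_⟩
    rw [integral_const_mul, integral_const_mul, re_ofReal_mul, re_ofReal_mul]
    nlinarith

lemma kill (hμ : MP B μ) {h : (Vx n → ℝ) → ℂ} {t : ℝ} (h0 : 0 < t) (h1 : t ≤ 1 / 2)
    (hi : ∀ a b, -2 ≤ a → b ≤ 2 → Integrable (fun ψ => h ψ * win a b ψ) μ)
    (p1 : ∀ ψ, h (ψ + fun _ => 1) = h ψ) (p2 : ∀ ψ, h (ψ + fun _ => t) = -h ψ) :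
    ∫ ψ, h ψ * chi ψ ∂μ = 0 := by
  have sp : ∀ a b c, -2 ≤ a → a ≤ b → b ≤ c → c ≤ 2 → ∫ ψ, h ψ * win a c ψ ∂μ =
      (∫ ψ, h ψ * win a b ψ ∂μ) + ∫ ψ, h ψ * win b c ψ ∂μ := by
    intro a b c a1 a2 a3 a4
    rw [← integral_add (hi a b a1 (by linarith)) (hi b c (by linarith) a4)]
    congr 1; ext ψ
    rw [← mul_add]
    congr 1
    unfold win
    by_cases c1 : a ≤ ψ (vz n) <;> by_cases c2 : ψ (vz n) < b <;> by_cases c3 : ψ (vz n) < c <;>
      simp [c1, c2, c3, not_lt.1, not_le.2] <;> linarith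
  have tr : ∀ a b s, ∫ ψ, h ψ * win (a + s) (b + s) ψ ∂μ =
      ∫ ψ, h (ψ + fun _ => s) * win a b ψ ∂μ := by
    intro a b s
    rw [← (hμ.inv (fun _ => s) fun _ => rfl).integral_comp (measurableEmbedding_addRight _)]
    simp [win]
  have e1 := sp (-1 / 2) (-1 / 2 + t) (1 / 2) (by linarith) (by linarith) (by linarith)
    (by linarith)
  have e2 := sp (-1 / 2 + t) (1 / 2) (1 / 2 + t) (by linarith) (by linarith) (by linarith)
    (by linarith)
  have e3 := tr (-1 / 2) (-1 / 2 + t) 1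
  have e4 := tr (-1 / 2) (1 / 2) t
  simp only [p1, p2, neg_mul, integral_neg] at e3 e4
  rw [show (-1 / 2 + 1 : ℝ) = 1 / 2 by norm_num, show -1 / 2 + t + 1 = 1 / 2 + t by ring] at e3
  unfold chi
  linear_combination (e1 - e2 - e3 + e4) / 2

lemma Psi_cont (R : Finset (Vx n)) (it : Vx n → Item n) : Continuous (Psi R it) :=
  continuous_finsetProd _ fun _ _ => fac_cont _

lemma Psi_bd (R : Finset (Vx n)) (it : Vx n → Item n) (ψ : Vx n → ℝ) :
    |Psi R it ψ| ≤ ∏ g ∈ R, (1 + |(it g).z|) := by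
  rw [Psi, abs_prod]
  exact prod_le_prod (fun _ _ => abs_nonneg _) fun _ _ => fac_bd _ _

lemma Adm.real {H : (Vx n → ℝ) → ℂ} (hH : Adm μ H) {f : (Vx n → ℝ) → ℝ} (hf : Continuous f) {M : ℝ}
    (hM : ∀ ψ, |f ψ| ≤ M) : Adm μ fun ψ => f ψ * H ψ :=
  hH.mul (continuous_ofReal.comp hf) (M := M) fun ψ => by simpa using hM ψ

lemma nonneutral (hμ : MP B μ) {W : ℂ → ℂ} {Y b : ℝ} (hW : WP W Y b) (hY : 1 ≤ Y) {R : Finset (Vx n)}
    {it : Vx n → Item n} (hR : ∀ τ ∈ R, ∑ x, (it τ).ρ x = 0) (a : Item n) (ha : ∑ x, a.ρ x ≠ 0)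
    (lam : ℝ) : ∫ ψ, Base W lam (cx ψ) * ((fac a ψ * Psi R it ψ : ℝ) * chi ψ) ∂μ =
      ∫ ψ, Base W lam (cx ψ) * (Psi R it ψ * chi ψ) ∂μ := by
  set c : (Vx n → ℝ) → ℝ := fun ψ => Real.cos (2 * π * pr a.ρ ψ) with hc
  have cc : Continuous c := by simp only [hc]; unfold pr; fun_prop
  have ad : ∀ H, Adm μ H → Adm μ fun ψ => c ψ * (Psi R it ψ * H ψ) := fun H hH =>
    (hH.real (Psi_cont R it) (Psi_bd R it)).real cc fun ψ => Real.abs_cos_le_one _
  have ps : ∀ ψ s, Psi R it (ψ + fun _ => s) = Psi R it ψ := fun ψ s =>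
    prod_congr rfl fun τ hτ => by simp [fac, pr_const, hR τ hτ]
  set Q : ℤ := ∑ x, a.ρ x with hQ
  have q1 : (1 : ℝ) ≤ |(Q : ℝ)| := by exact_mod_cast Int.one_le_abs ha
  have k := kill hμ (h := fun ψ => Base W lam (cx ψ) * (c ψ * Psi R it ψ)) (t := 1 / (2 * |(Q : ℝ)|))
    (by positivity) (by gcongr; linarith) (fun a b h1 h2 => by
      simpa only [mul_assoc] using integrable_base hμ.maj hW hY lam (ad _ (win_adm h1 h2)))
    (fun ψ => by
      simp only [base_const, ps, hc, pr_const, ← hQ]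
      rw [show 2 * π * (pr a.ρ ψ + 1 * Q) = 2 * π * pr a.ρ ψ + Q * (2 * π) by ring,
        Real.cos_add_int_mul_two_pi])
    (fun ψ => by
      simp only [base_const, ps, hc, pr_const, ← hQ]
      rcases le_total 0 (Q : ℝ) with h | h
      · rw [abs_of_nonneg h] at q1 ⊢
        rw [show 2 * π * (pr a.ρ ψ + 1 / (2 * Q) * Q) = 2 * π * pr a.ρ ψ + π by field_simp,
          Real.cos_add_pi]
        push_cast; ring
      · rw [abs_of_nonpos h] at q1 ⊢
        have : (Q : ℝ) ≠ 0 := by linarith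
        rw [show 2 * π * (pr a.ρ ψ + 1 / (2 * -Q) * Q) = 2 * π * pr a.ρ ψ - π by field_simp; ring,
          Real.cos_sub_pi]
        push_cast; ring)
  have i1 := integrable_base hμ.maj hW hY lam (chi_adm.real (Psi_cont R it) (Psi_bd R it))
  have i2 := integrable_base hμ.maj hW hY lam (ad _ chi_adm)
  have := integral_add i1 (i2.const_mul (a.z : ℂ))
  simp only [mul_assoc] at k
  rw [integral_const_mul, k, mul_zero, add_zero] at this
  rw [← this]
  congr 1; ext ψ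
  simp only [fac, hc]; push_cast; ring

lemma sgs_sep (m : ℕ) : Sep B (sgs (n := n) m) :=
  ⟨fun i c => by unfold sgs; split_ifs <;> simp,
    fun _ _ _ h1 h2 hne => absurd ((sgs_ne h1).2.trans (sgs_ne h2).2.symm) hne,
    fun i c x h hx => by
      rw [(sgs_ne h).2]
      exact (rr_mono (by omega)).trans (B.good x (by omega))⟩

lemma sgs_nw {K m : ℕ} (h : m < K) (hL : rr m ≤ 4 * n) : nw B K (sgs m) (vl n) = -(m + 1) := by
  have e1 : sw B K (sgs m) (vz n) = m + 1 := by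
    rw [← sgs_count h]
    refine sum_congr rfl fun i _ => ?_
    rw [sum_eq_single (vz n), bump_one (by simp)] <;> simp +contextual [sgs]
  have e2 : sw B K (sgs m) (vl n) = 0 := sw_zero K fun i c hc => by
    obtain ⟨h1, rfl⟩ := sgs_ne hc
    have : ds (vz n) (vl n) = n := by simp [ds, vz, vl]
    have := rr_mono h1
    omega
  rw [nw, e1, e2, zero_sub]

open ComplexOrder in
theorem final_est (hμ : MP B μ) {W : ℂ → ℂ} {Y b : ℝ} (hW : WP W Y b) (hY : 10 ^ 9 ≤ Y) (hb : 0 ≤ b)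
    (hbY : 12000 * b * Y ≤ 1) {K : ℕ} {it : Vx n → Item n} {sc : Vx n → ℕ} {R : Finset (Vx n)}
    (hR : Ret B Y K it sc R) {m : ℕ} (hm : m < K) (hL : rr m ≤ 4 * n) {lam κ : ℝ} (l0 : 0 < lam)
    (l1 : lam ≤ 1 / 2) (k0 : 0 < κ) (k1 : 4 * κ ≤ Y) (k2 : 4 ≤ lam ^ 2 * (m + 1) * κ) :
    PP μ W lam (Psi R it) := by
  classical
  have hY1 : 1 ≤ Y := by linarith
  have a0 := (chi_adm (μ := μ)).real (Psi_cont R it) (Psi_bd R it)
  refine ⟨integrable_base hμ.maj hW hY1 _ a0, integrable_base hμ.maj hW hY1 _ a0, ?_⟩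
  obtain ⟨Z, hZ, hI⟩ := renorm hμ hW hY hb hbY K it sc R hR
  have hl : |lam| ≤ 1 / 2 := by rwa [abs_of_pos l0]
  have h0 : |(0 : ℝ)| ≤ 1 / 2 := by simp
  rw [hI lam hl chi chi_adm fun τ _ => chi_inv K _, hI 0 h0 chi chi_adm fun τ _ => chi_inv K _]
  set N := R.filter fun τ => ¬ Spec (sc τ) τ with hN
  have zN : ∀ τ ∈ N, ZP Y (sc τ) τ (Z τ 0) := fun τ hτ => (hZ τ (mem_filter.1 hτ).1).zp 0 h0
  set G : (Vx n → ℝ) → ℂ := fun ψ => (∏ τ ∈ N, (1 + Z τ 0 (cx ψ))) * chi ψ with hG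
  have aG : Adm μ G := chi_adm.prod hY1 zN
  set G0 : (Vx n → ℝ) → ℝ := fun ψ => ‖Base W 0 (cx ψ) * G ψ‖ with hG0
  have iG : Integrable G0 μ := (integrable_base hμ.maj hW hY1 0 aG).norm
  have nG : ∀ l ψ, ‖Base W l (cx ψ) * G ψ‖ = G0 ψ := fun l ψ => by
    simp only [hG0, norm_mul, norm_base_real]
  have pG : ∀ ψ, Base W 0 (cx ψ) * G ψ = G0 ψ := by
    intro ψ
    refine (Complex.norm_of_nonneg' (mul_nonneg ?_ (mul_nonneg (prod_nonneg fun τ hτ => ?_) ?_))).symm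
    · have : (-∑ e ∈ Ed n, W (gr (cx ψ) e)).im = 0 := by
        rw [neg_im, im_sum, sum_eq_zero, neg_zero]
        intro e _
        have := hW.cj (gr (cx ψ) e)
        rw [show conj (gr (cx ψ) e) = gr (cx ψ) e by simp [gr, cx]] at this
        exact conj_eq_iff_im.1 this.symm
      rw [Base, ← re_add_im (-∑ e ∈ Ed n, W (gr (cx ψ) e)), this]
      simp only [ofReal_zero, mul_zero, zero_mul, exp_zero, one_mul, add_zero, ← ofReal_exp]
      exact_mod_cast (Real.exp_pos _).le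
    · have h1 := ((zN τ hτ).bd _ (cx_tube hY1 _ _ ψ)).trans (eta_le hY1 _)
      have h2 := (abs_le.1 ((abs_re_le_norm _).trans h1)).1
      rw [Complex.nonneg_iff]
      simp only [add_re, one_re, add_im, one_im, (hZ τ (mem_filter.1 hτ).1).real ψ]
      exact ⟨by linarith, by simp⟩
    · unfold chi win; split_ifs <;> simp
  have hJ : 0 ≤ ∫ ψ, G0 ψ ∂μ := integral_nonneg fun ψ => norm_nonneg _
  have eY : Real.exp (-Y) ≤ 1 / 10 ^ 7 := by
    rw [Real.exp_neg, one_div]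
    exact inv_anti₀ (by norm_num) (by linarith [Real.add_one_le_exp Y])
  have eY0 := Real.exp_pos (-Y)
  have err : ∀ l, |l| ≤ 1 / 2 →
      ‖(∫ ψ, Base W l (cx ψ) * ((∏ τ ∈ R, (1 + Z τ l (cx ψ))) * chi ψ) ∂μ) -
        ∫ ψ, Base W l (cx ψ) * G ψ ∂μ‖ ≤ 1 / 6 * ∫ ψ, G0 ψ ∂μ := by
    intro l hl
    rw [← integral_sub (integrable_base hμ.maj hW hY1 l (chi_adm.prod hY1 fun τ hτ => (hZ τ hτ).zp l hl))
      (integrable_base hμ.maj hW hY1 l aG), ← integral_const_mul]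
    refine norm_integral_le_of_norm_le (iG.const_mul _) (Eventually.of_forall fun ψ => ?_)
    have e : Base W l (cx ψ) * ((∏ τ ∈ R, (1 + Z τ l (cx ψ))) * chi ψ) - Base W l (cx ψ) * G ψ =
        (∏ τ ∈ R.filter fun τ => Spec (sc τ) τ, (1 + Z τ l (cx ψ)) - 1) *
          (Base W l (cx ψ) * G ψ) := by
      rw [← prod_filter_mul_prod_filter_not R fun τ => Spec (sc τ) τ, hG]
      rw [prod_congr rfl (s₂ := N) (g := fun τ => 1 + Z τ 0 (cx ψ)) fun τ hτ => by
        rw [(hZ τ (mem_filter.1 hτ).1).ns (mem_filter.1 hτ).2 l]]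
      ring
    rw [e, norm_mul, nG]
    refine mul_le_mul_of_nonneg_right ((norm_prod_one_add_sub_one_le _ _).trans ?_) (norm_nonneg _)
    have s1 := (sum_le_sum fun τ hτ => ((hZ τ (mem_filter.1 hτ).1).zp l hl).bd _
      (cx_tube hY1 _ _ ψ)).trans (scale_sum Y (R.filter fun τ => Spec (sc τ) τ) sc (eta Y)
        zero_le_two fun j => mul_le_mul_of_nonneg_right (spec_card hR (filter_subset _ _)
          (fun τ hτ => (mem_filter.1 hτ).2) j) (eta_pos Y j).le)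
    have s2 := Real.abs_exp_sub_one_le (x := 2 * (2 * Real.exp (-Y)))
      (by rw [abs_of_pos (by positivity)]; linarith)
    rw [abs_of_pos (by positivity : 0 < 2 * (2 * Real.exp (-Y)))] at s2
    linarith [Real.exp_le_exp.2 s1, le_abs_self (Real.exp (2 * (2 * Real.exp (-Y))) - 1)]
  have main : ‖∫ ψ, Base W lam (cx ψ) * G ψ ∂μ‖ ≤ 1 / 4 * ∫ ψ, G0 ψ ∂μ := by
    set T := N.filter fun τ => Tch B K (sgs m) (sc τ) τ with hT
    have tN : ∀ τ ∈ T, τ ∈ N := fun τ hτ => (mem_filter.1 hτ).1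
    have tR : ∀ τ ∈ T, τ ∈ R := fun τ hτ => (mem_filter.1 (tN τ hτ)).1
    have hf : ∀ τ ∈ T, ∀ i c, sgs m i c ≠ 0 → i ≤ sc τ → rr (sc τ) ≤ 2 * ds c τ := by
      intro τ hτ i c hc _
      have := (mem_filter.1 (tN τ hτ)).2
      simp only [Spec, not_or, not_lt] at this
      rw [(sgs_ne hc).2, ds_comm]; exact this.1
    set G1 : (Vx n → ℝ) → ℂ := fun ψ =>
      (∏ τ ∈ N.filter fun τ => ¬ Tch B K (sgs m) (sc τ) τ, (1 + Z τ 0 (cx ψ))) * chi ψ with hB
    have eT : ∀ ψ, G ψ = (∏ τ ∈ T, (1 + Z τ 0 (cx ψ))) * G1 ψ := by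
      intro ψ
      rw [hB, hT, ← mul_assoc, prod_filter_mul_prod_filter_not]
    have y0 : 0 < κ * lam := by positivity
    have y1 : κ * lam ≤ Y := by nlinarith
    have ht : |-(κ * lam)| ≤ κ * lam := by rw [abs_neg, abs_of_pos y0]
    have := step hμ hW hY1 K (sgs_sep (B := B) m) lam (fun _ => 0) (T := T) (sc := sc) (Z := fun τ => Z τ 0)
      (fun τ hτ => zN τ (tN τ hτ)) (fun τ hτ e he => by
        obtain ⟨m', -, -, -, a1, -, a5⟩ := tch_data K (sgs_sep (B := B) m) (hR.pos τ (tR τ hτ))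
          (mem_filter.1 hτ).2 (hf τ hτ)
        refine (a5 e he).trans ?_
        have := rr_posR (sc τ)
        have r2 : 64 * (rr (sc τ) : ℝ) ≤ rr m' := by exact_mod_cast rr_lt a1
        gcongr) (G := G1) (chi_adm.prod hY1 fun τ hτ => zN τ (mem_filter.1 hτ).1) (fun ψ s => by
        simp only [hB, chi_inv]
        congr 1
        exact prod_congr rfl fun τ hτ => by
          rw [loc_inv (hZ τ (mem_filter.1 (mem_filter.1 hτ).1).1) (mem_filter.1 hτ).2])
      (ht.trans y1)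
    simp only [prc, ofReal_zero, zero_mul, sum_const_zero, mul_zero, exp_zero, mul_one,
      mul_assoc, ← eT] at this
    rw [this, ← integral_const_mul]
    refine norm_integral_le_of_norm_le (iG.const_mul _) (Eventually.of_forall fun ψ => ?_)
    rw [mul_left_comm, norm_mul, nG]
    refine mul_le_mul_of_nonneg_right ?_ (norm_nonneg _)
    have im0 : ∀ e i, |(gr (cx ψ) e).im| ≤ κ * lam / rr i := fun e i => by
      have := rr_posR i
      simp only [gr, cx, sub_im, ofReal_im, sub_self, abs_zero]; positivity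
    have b3 := cost_edge hW hb K (sgs_sep (B := B) m) y0 y1 ht (φ := cx ψ) fun i c e _ _ _ => im0 e i
    have b4 := cost_fine hY1 K (sgs_sep (B := B) m) y0 y1 ht (φ := cx ψ) (T := T) (sc := sc)
      (Z := fun τ => Z τ 0) (fun τ hτ => zN τ (tN τ hτ)) (fun τ hτ => (hZ τ (tR τ hτ)).real)
      (fun τ hτ => hR.pos τ (tR τ hτ)) (fun τ hτ => (mem_filter.1 hτ).2) hf
      (fun τ hτ τ' hτ' hne e => (hR.far τ (tR τ hτ) τ' (tR τ' hτ') hne e.le τ
        (hR.ok τ (tR τ hτ)).mem τ' (hR.ok τ' (tR τ' hτ')).mem).resolve_right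
          (by have := (hR.ok τ' (tR τ' hτ')).anc; omega)) fun τ _ e _ i c _ => im0 e i
    rw [sgs_nb hm] at b3 b4
    rw [Fac, norm_mul, norm_mul, norm_mul, sgs_nw hm hL, norm_exp, norm_exp]
    simp only [prc, ofReal_zero, zero_mul, sum_const_zero, mul_zero, zero_re, Real.exp_zero,
      one_mul, neg_re, ofReal_re]
    refine (mul_le_mul (mul_le_mul_of_nonneg_left b3 (Real.exp_pos _).le) b4 (norm_nonneg _)
      (by positivity)).trans ?_
    rw [← Real.exp_add, ← Real.exp_add]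
    have f1 : Real.exp (-2) ≤ 1 / 4 := by
      have : Real.exp (-2) = Real.exp (-1) * Real.exp (-1) := by rw [← Real.exp_add]; norm_num
      nlinarith [exp_neg_one_le, Real.exp_pos (-1)]
    refine (Real.exp_le_exp.2 ?_).trans f1
    set X := lam ^ 2 * (m + 1) * κ with hX
    have g1 : 12000 * b * κ ≤ 1 / 4 := by nlinarith
    have g2 : 70000 * Real.exp (-Y) * (κ / Y ^ 2) ≤ 1 / 4 := by
      have : κ / Y ^ 2 ≤ 1 := by rw [div_le_one (by positivity)]; nlinarith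
      have : 0 ≤ κ / Y ^ 2 := by positivity
      nlinarith
    have e1 : -(lam * -(κ * lam) * -((m : ℝ) + 1)) + 12000 * b * (κ * lam) ^ 2 * (m + 1) +
        70000 * Real.exp (-Y) * (κ * lam / Y) ^ 2 * (m + 1) =
        -X + 12000 * b * κ * X + 70000 * Real.exp (-Y) * (κ / Y ^ 2) * X := by
      rw [hX]; field_simp
    rw [e1]
    nlinarith
  have r1 := err lam hl
  have r0 := err 0 h0
  simp only [pG, integral_complex_ofReal] at r0
  have c1 := (re_le_norm _).trans (norm_le_norm_add_norm_sub' _ _ |>.trans (add_le_add main r1))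
  have c0 := (abs_le.1 ((abs_re_le_norm _).trans r0)).1
  simp only [sub_re, ofReal_re] at c0
  linarith

end aux

theorem final_PP {B : Bod n} {μ : Measure (Vx n → ℝ)} (hμ : MP B μ) {W : ℂ → ℂ} {Y b : ℝ}
    (hW : WP W Y b) (hY : 10 ^ 9 ≤ Y) (hb : 0 ≤ b) (hbY : 12000 * b * Y ≤ 1) {K : ℕ}
    {it : Vx n → Item n} {sc : Vx n → ℕ} {R : Finset (Vx n)} (hR : Ret B Y K it sc R) {m : ℕ}
    (hm : m < K) (hL : rr m ≤ 4 * n) {lam κ : ℝ} (l0 : 0 < lam) (l1 : lam ≤ 1 / 2) (k0 : 0 < κ)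
    (k1 : 4 * κ ≤ Y) (k2 : 4 ≤ lam ^ 2 * (m + 1) * κ) :
    PP μ W lam (Psi R it) ∧
      ∀ a : Item n, ∑ x, a.ρ x ≠ 0 → PP μ W lam fun ψ => fac a ψ * Psi R it ψ := by
  have hY1 : 1 ≤ Y := by linarith
  have h := final_est hμ hW hY hb hbY hR hm hL l0 l1 k0 k1 k2
  refine ⟨h, fun a ha => ?_⟩
  have a0 := (chi_adm (μ := μ)).real ((fac_cont a).mul (Psi_cont R it)) (M := (1 + |a.z|) *
    ∏ g ∈ R, (1 + |(it g).z|)) fun ψ => by
      rw [Pi.mul_apply, abs_mul]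
      exact mul_le_mul (fac_bd _ _) (Psi_bd _ _ _) (abs_nonneg _) (by positivity)
  refine ⟨integrable_base hμ.maj hW hY1 _ a0, integrable_base hμ.maj hW hY1 _ a0, ?_⟩
  rw [nonneutral hμ hW hY1 hR.neu a ha, nonneutral hμ hW hY1 hR.neu a ha]
  exact h.2.2

end Pool.Agent.Lib.MP_9cc147_pr.FB
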