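import Pool.Agent.Lib.MP_9cc147_pr.BDef

/-! Bumps and spin waves that are constant on rigid bodies. -/

open Finset

namespace Pool.Agent.Lib.MP_9cc147_pr.FB

variable {n : ℕ}

lemma soft_lip (u u' t t' : ℝ) :
    |(u - max (-t) (min t u)) - (u' - max (-t') (min t' u'))| ≤ |u - u'| + |t - t'| := by
  have h1 := le_abs_self (u - u')
  have h2 := neg_abs_le (u - u')
  have h3 := le_abs_self (t - t')
  have h4 := neg_abs_le (t - t')
  rw [abs_le]
  simp only [max_def, min_def]
  split_ifs <;> constructor <;> linarith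

lemma two_pow_rr (v : ℕ) : 2 ^ v * rr v ≤ 64 * rr (v + v / 4 + 1) := by
  have e : ∀ k, rr k = 2 ^ (6 * k) := fun k => by unfold rr; rw [pow_mul]; norm_num
  rw [e, e, ← pow_add, show 64 = 2 ^ 6 by norm_num, ← pow_add]
  exact Nat.pow_le_pow_right (by norm_num) (by omega)

/-- flattening of the bodies of one level -/
lemma flat_step (B : Bod n) {v : ℕ} (hv : v ≠ 0) (d : Vx n → ℝ) {L : ℝ} (hL0 : 0 ≤ L)
    (hL : L ≤ 4 / 3) (hd : ∀ e ∈ Ed n, |d e.1 - d e.2| ≤ L) : ∃ d' : Vx n → ℝ,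
    (∀ x, |d' x - d x| ≤ rr v / 768) ∧ (∀ e ∈ Ed n, |d' e.1 - d' e.2| ≤ L + (1 / 2) ^ v / 3) ∧
      (∀ x, B.ka x = v → d' (B.pi x) = d' x) ∧ ∀ x, v < B.ka x → d' x = d x := by
  classical
  set ε : ℝ := (1 / 2) ^ v / 3 with hε
  have e0 : 0 < ε := by positivity
  have e1 : ε ≤ 1 / 3 := by
    have : (1 / 2 : ℝ) ^ v ≤ 1 := pow_le_one₀ (by norm_num) (by norm_num)
    rw [hε]; linarith
  have r0 := rr_posR v
  set t : Vx n → Vx n → ℝ := fun b x => max 0 (rr v / 768 - ε * ds b x) with ht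
  have t0 : ∀ b x, 0 ≤ t b x := fun b x => le_max_left _ _
  have t1 : ∀ b x, t b x ≤ rr v / 768 := fun b x =>
    max_le (by positivity) (sub_le_self _ (by positivity))
  have tz : ∀ b x, rr (v + v / 4 + 1) ≤ 4 * ds b x → t b x = 0 := by
    intro b x h
    refine max_eq_left ?_
    have h1 : (2 : ℝ) ^ v * rr v ≤ 64 * rr (v + v / 4 + 1) := by exact_mod_cast two_pow_rr v
    have h2 : (rr (v + v / 4 + 1) : ℝ) ≤ 4 * ds b x := by exact_mod_cast h
    have h3 : ε * 2 ^ v = 1 / 3 := by rw [hε, one_div, inv_pow]; field_simp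
    have h4 : ε * (2 ^ v * rr v) ≤ ε * (256 * ds b x) :=
      mul_le_mul_of_nonneg_left (by linarith) e0.le
    rw [← mul_assoc, h3] at h4
    linarith
  have tl : ∀ b, ∀ e ∈ Ed n, |t b e.1 - t b e.2| ≤ ε := by
    intro b e he
    refine (abs_max_sub_max_le_max _ _ _ _).trans (max_le (by simp; positivity) ?_)
    have a1 := ds_edge he
    have a2 := ds_tri b e.1 e.2
    have a3 := ds_tri b e.2 e.1
    rw [ds_comm e.2] at a3
    have a4 : (ds b e.2 : ℝ) ≤ ds b e.1 + 1 := by exact_mod_cast (by omega : ds b e.2 ≤ ds b e.1 + 1)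
    have a5 : (ds b e.1 : ℝ) ≤ ds b e.2 + 1 := by exact_mod_cast (by omega : ds b e.1 ≤ ds b e.2 + 1)
    rw [abs_le]; constructor <;> nlinarith
  set Rp := univ.filter fun b => B.pi b = b ∧ B.ka b = v with hRp
  have sp : ∀ b ∈ Rp, ∀ y, v ≤ B.ka y → b ≠ B.pi y → rr (v + v / 4 + 1) ≤ ds b y := by
    intro b hb y hy hne
    obtain ⟨h1, h2⟩ := (mem_filter.1 hb).2
    have := B.sep b y (by omega) (by omega) (by rwa [h1])
    rwa [h2] at this
  set cl : Vx n → Vx n → ℝ := fun b x => max (-t b x) (min (t b x) (d x - d b)) with hcl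
  have cz : ∀ b x, t b x = 0 → cl b x = 0 := by
    intro b x h
    simp only [hcl, h, neg_zero]
    exact max_eq_left (min_le_left _ _)
  have one : ∀ x y, ds x y ≤ 1 → ∃ b, ∑ b' ∈ Rp, cl b' x = cl b x ∧ ∑ b' ∈ Rp, cl b' y = cl b y ∨
      ∑ b' ∈ Rp, cl b' x = 0 ∧ ∑ b' ∈ Rp, cl b' y = 0 := by
    intro x y hxy
    by_cases h : ∃ b ∈ Rp, 4 * ds b x < rr (v + v / 4 + 1) ∨ 4 * ds b y < rr (v + v / 4 + 1)
    · obtain ⟨b, hb, h⟩ := h
      have far : ∀ b' ∈ Rp, b' ≠ b → rr (v + v / 4 + 1) ≤ 4 * ds b' x ∧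
          rr (v + v / 4 + 1) ≤ 4 * ds b' y := by
        intro b' hb' hne
        obtain ⟨h1, h2⟩ := (mem_filter.1 hb).2
        have a1 := sp b' hb' b h2.ge (by rwa [h1])
        have a2 := ds_tri b' x b
        have a3 := ds_tri b' y b
        have a4 := ds_tri b x y
        have a5 := ds_tri b y x
        have a6 := rr_succ (v + v / 4)
        have a7 := rr_pos (v + v / 4)
        rw [ds_comm x b] at a2
        rw [ds_comm y b] at a3
        rw [ds_comm y x] at a5
        omega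
      exact ⟨b, Or.inl ⟨sum_eq_single_of_mem b hb fun b' hb' hne => cz _ _ (tz _ _ (far b' hb' hne).1),
        sum_eq_single_of_mem b hb fun b' hb' hne => cz _ _ (tz _ _ (far b' hb' hne).2)⟩⟩
    · push Not at h
      exact ⟨x, Or.inr ⟨sum_eq_zero fun b hb => cz _ _ (tz _ _ (h b hb).1),
        sum_eq_zero fun b hb => cz _ _ (tz _ _ (h b hb).2)⟩⟩
  have body : ∀ x, B.ka x = v → d x - ∑ b ∈ Rp, cl b x = d (B.pi x) := by
    intro x hx
    have hb : B.pi x ∈ Rp := mem_filter.2 ⟨mem_univ _, B.idem x, by rw [B.kpi, hx]⟩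
    rw [sum_eq_single_of_mem _ hb fun b' hb' hne => cz _ _ (tz _ _ (by
      have := sp b' hb' x hx.ge hne; omega))]
    have a1 := B.near x
    rw [hx, ds_comm] at a1
    have a2 : 4096 * (ds (B.pi x) x : ℝ) ≤ rr v := by exact_mod_cast a1
    have a3 := path d (B.pi x) n hL0 (fun e he _ _ => hd e he) x (ds_le _ _)
    rw [Real.norm_eq_abs] at a3
    have a4 : (0 : ℝ) ≤ ds (B.pi x) x := by positivity
    have a5 : |d x - d (B.pi x)| ≤ t (B.pi x) x := by
      refine a3.trans (le_trans ?_ (le_max_right _ _))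
      nlinarith
    have a6 := abs_le.1 a5
    simp only [hcl]
    rw [min_eq_right a6.2, max_eq_right a6.1]
    ring
  refine ⟨fun x => d x - ∑ b ∈ Rp, cl b x, fun x => ?_, fun e he => ?_, fun x hx => ?_,
    fun x hx => ?_⟩
  · obtain ⟨b, h | h⟩ := one x x (by simp)
    · simp only [h.1, sub_sub_cancel_left, abs_neg]
      refine le_trans (abs_le.2 ⟨le_max_left _ _, max_le ?_ (min_le_left _ _)⟩) (t1 b x)
      linarith [t0 b x]
    · simp only [h.1, sub_zero, sub_self, abs_zero]; positivity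
  · obtain ⟨b, h | h⟩ := one e.1 e.2 (ds_edge he)
    · simp only [h.1, h.2]
      have a1 := soft_lip (d e.1 - d b) (d e.2 - d b) (t b e.1) (t b e.2)
      have a2 := hd e he
      have a3 := tl b e he
      rw [sub_sub_sub_cancel_right] at a1
      refine le_trans (le_of_eq ?_) (a1.trans (add_le_add a2 a3))
      simp only [hcl]
      congr 1; ring
    · simp only [h.1, h.2, sub_zero]
      linarith [hd e he]
  · simp only
    rw [body x hx, body _ (by rw [B.kpi, hx]), B.idem]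
  · simp only
    rw [sum_eq_zero, sub_zero]
    intro b hb
    refine cz _ _ (tz _ _ ?_)
    have := sp b hb x hx.le fun h => by
      have h2 := (mem_filter.1 hb).2.2
      rw [h, B.kpi] at h2
      omega
    omega

/-- a distance that is constant on the bodies of level at most `i` -/
lemma exists_flat (B : Bod n) (i : ℕ) (c : Vx n) : ∃ d : Vx n → ℝ,
    (∀ x, |d x - ds c x| ≤ rr i / 700) ∧ (∀ e ∈ Ed n, |d e.1 - d e.2| ≤ 4 / 3) ∧
      ∀ x, B.ka x ≤ i → d (B.pi x) = d x := by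
  have key : ∀ j w, w + j = i → ∃ d : Vx n → ℝ, (∀ x, |d x - ds c x| ≤ (rr i - rr w) / 756) ∧
      (∀ e ∈ Ed n, |d e.1 - d e.2| ≤ 1 + (1 / 2) ^ w / 3) ∧
      ∀ x, w < B.ka x → B.ka x ≤ i → d (B.pi x) = d x := by
    intro j
    induction j with
    | zero =>
      intro w hw
      obtain rfl : w = i := hw
      refine ⟨fun x => ds c x, by simp, fun e he => ?_, fun x h1 h2 => by omega⟩
      have a1 := ds_edge he
      have a2 := ds_tri c e.1 e.2
      have a3 := ds_tri c e.2 e.1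
      rw [ds_comm e.2] at a3
      have a4 : (ds c e.2 : ℝ) ≤ ds c e.1 + 1 := by
        exact_mod_cast (by omega : ds c e.2 ≤ ds c e.1 + 1)
      have a5 : (ds c e.1 : ℝ) ≤ ds c e.2 + 1 := by
        exact_mod_cast (by omega : ds c e.1 ≤ ds c e.2 + 1)
      have a6 : (0 : ℝ) < (1 / 2) ^ w / 3 := by positivity
      exact abs_le.2 ⟨by linarith, by linarith⟩
    | succ j ih =>
      intro w hw
      obtain ⟨d, h1, h2, h3⟩ := ih (w + 1) (by omega)
      have p1 : (1 / 2 : ℝ) ^ (w + 1) ≤ 1 := pow_le_one₀ (by norm_num) (by norm_num)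
      obtain ⟨d', a1, a2, a3, a4⟩ := flat_step B (Nat.succ_ne_zero w) d (by positivity)
        (by linarith) h2
      refine ⟨d', fun x => ?_, fun e he => (a2 e he).trans (le_of_eq ?_), fun x b1 b2 => ?_⟩
      · have e : (rr (w + 1) : ℝ) = 64 * rr w := by exact_mod_cast rr_succ w
        have b1 := abs_le.1 (a1 x)
        have b2 := abs_le.1 (h1 x)
        simp only [Nat.succ_eq_add_one] at b1
        rw [e] at b1 b2
        exact abs_le.2 ⟨by linarith, by linarith⟩
      · simp only [Nat.succ_eq_add_one, pow_succ]; ring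
      · rcases (Nat.succ_le_of_lt b1).eq_or_lt with h | h
        · exact a3 x h.symm
        · rw [a4 x h, a4 _ (by rwa [B.kpi]), h3 x h b2]
  obtain ⟨d, h1, h2, h3⟩ := key i 0 (zero_add _)
  refine ⟨d, fun x => (h1 x).trans ?_, fun e he => (h2 e he).trans (by norm_num), fun x hx => ?_⟩
  · have := rr_posR i
    have := rr_posR 0
    linarith
  · rcases Nat.eq_zero_or_pos (B.ka x) with h | h
    · rw [B.free x h]
    · exact h3 x h hx

noncomputable def bump (B : Bod n) (i : ℕ) (c x : Vx n) : ℝ :=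
  max 0 (min 1 (1.45 - 6 * (exists_flat B i c).choose x / rr i))

variable {B : Bod n}

lemma bump_nonneg (i : ℕ) (c x : Vx n) : 0 ≤ bump B i c x := le_max_left _ _
lemma bump_le (i : ℕ) (c x : Vx n) : bump B i c x ≤ 1 := max_le zero_le_one (min_le_left _ _)
lemma bump_one {i : ℕ} {c x : Vx n} (h : 16 * ds c x ≤ rr i) : bump B i c x = 1 := by
  have h0 := (abs_le.1 ((exists_flat B i c).choose_spec.1 x)).2
  have h2 : 16 * (ds c x : ℝ) ≤ rr i := by exact_mod_cast h
  have h1 : 6 * (exists_flat B i c).choose x / rr i ≤ 0.45 := by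
    rw [div_le_iff₀ (rr_posR i)]; linarith [rr_posR i]
  rw [bump, min_eq_left (by linarith), max_eq_right zero_le_one]
lemma bump_zero {i : ℕ} {c x : Vx n} (h : rr i ≤ 4 * ds c x) : bump B i c x = 0 := by
  have h0 := (abs_le.1 ((exists_flat B i c).choose_spec.1 x)).1
  have h2 : (rr i : ℝ) ≤ 4 * ds c x := by exact_mod_cast h
  have h1 : 1.45 ≤ 6 * (exists_flat B i c).choose x / rr i := by
    rw [le_div_iff₀ (rr_posR i)]; linarith [rr_posR i]
  exact max_eq_left ((min_le_right _ _).trans (by linarith))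
lemma bump_lip (i : ℕ) (c : Vx n) {e : Vx n × Vx n} (h : e ∈ Ed n) :
    |bump B i c e.1 - bump B i c e.2| ≤ 8 / rr i := by
  have h1 := (exists_flat B i c).choose_spec.2.1 e h
  have r0 := rr_posR i
  refine (abs_max_sub_max_le_max _ _ _ _).trans (max_le (by simp; positivity) ?_)
  refine (abs_min_sub_min_le_max _ _ _ _).trans (max_le (by simp; positivity) ?_)
  generalize (exists_flat B i c).choose = d at h1 ⊢
  have : 1.45 - 6 * d e.1 / rr i - (1.45 - 6 * d e.2 / rr i) = -(6 / rr i * (d e.1 - d e.2)) := by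
    ring
  rw [this, abs_neg, abs_mul, abs_of_pos (div_pos (by norm_num) r0)]
  refine (mul_le_mul_of_nonneg_left h1 (by positivity)).trans (le_of_eq ?_)
  ring
lemma bump_pi {i : ℕ} (c : Vx n) {x : Vx n} (h : B.ka x ≤ i) :
    bump B i c (B.pi x) = bump B i c x := by
  rw [bump, bump, (exists_flat B i c).choose_spec.2.2 x h]

/-- spin wave -/
noncomputable def sw (B : Bod n) (K : ℕ) (sg : ℕ → Vx n → ℤ) (x : Vx n) : ℝ :=
  ∑ i ∈ range K, ∑ c, (sg i c : ℝ) * bump B i c x

structure Sep (B : Bod n) (sg : ℕ → Vx n → ℤ) : Prop where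
  le : ∀ i c, |sg i c| ≤ 1
  sep : ∀ i c c', sg i c ≠ 0 → sg i c' ≠ 0 → c ≠ c' → rr i ≤ ds c c'
  free : ∀ i c x, sg i c ≠ 0 → i < B.ka x → rr i ≤ 4 * ds c x

lemma sw_pi (K : ℕ) {sg : ℕ → Vx n → ℤ} (hs : Sep B sg) (x : Vx n) :
    sw B K sg (B.pi x) = sw B K sg x := by
  refine sum_congr rfl fun i _ => sum_congr rfl fun c _ => ?_
  by_cases hc : sg i c = 0
  · simp [hc]
  rcases le_or_gt (B.ka x) i with h | h
  · rw [bump_pi c h]
  · rw [bump_zero (hs.free i c x hc h), bump_zero (hs.free i c _ hc (by rwa [B.kpi]))]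

lemma sw_diff_le (K : ℕ) (sg : ℕ → Vx n → ℤ) (x y : Vx n) :
    |sw B K sg x - sw B K sg y| ≤ nb K sg := by
  unfold sw nb
  rw [← sum_sub_distrib]
  refine (abs_sum_le_sum_abs _ _).trans (sum_le_sum fun i _ => ?_)
  rw [← sum_sub_distrib]
  refine (abs_sum_le_sum_abs _ _).trans (sum_le_sum fun c _ => ?_)
  rw [← mul_sub, abs_mul]
  refine mul_le_of_le_one_right (abs_nonneg _) (abs_le.2 ⟨?_, ?_⟩) <;>
    linarith [bump_nonneg (B := B) i c x, bump_nonneg (B := B) i c y, bump_le (B := B) i c x,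
      bump_le (B := B) i c y]

lemma sw_zero (K : ℕ) {sg : ℕ → Vx n → ℤ} {x : Vx n}
    (h : ∀ i c, sg i c ≠ 0 → rr i ≤ 4 * ds c x) : sw B K sg x = 0 := by
  refine sum_eq_zero fun i _ => sum_eq_zero fun c _ => ?_
  by_cases hc : sg i c = 0
  · simp [hc]
  · simp [bump_zero (h i c hc)]

lemma layer_grad {sg : ℕ → Vx n → ℤ} (hs : Sep B sg) (i : ℕ) {e : Vx n × Vx n} (he : e ∈ Ed n) :
    |∑ c, (sg i c : ℝ) * bump B i c e.1 - ∑ c, (sg i c : ℝ) * bump B i c e.2| ≤ 16 / rr i := by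
  have one : ∀ x : Vx n, (univ.filter fun c => sg i c ≠ 0 ∧ 4 * ds c x < rr i).card ≤ 1 := by
    intro x
    refine card_le_one.2 fun a ha b hb => ?_
    simp only [mem_filter, mem_univ, true_and] at ha hb
    by_contra hab
    have := hs.sep i a b ha.1 hb.1 hab
    have h2 := ds_tri a x b
    rw [ds_comm x b] at h2
    omega
  set N := (univ.filter fun c => sg i c ≠ 0 ∧ 4 * ds c e.1 < rr i) ∪
    (univ.filter fun c => sg i c ≠ 0 ∧ 4 * ds c e.2 < rr i) with hN
  have hc : N.card ≤ 2 := (card_union_le _ _).trans (by linarith [one e.1, one e.2])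
  rw [← sum_sub_distrib, ← sum_subset (subset_univ N)]
  · refine (abs_sum_le_sum_abs _ _).trans ((sum_le_card_nsmul _ _ (8 / (rr i : ℝ)) ?_).trans ?_)
    · intro c _
      rw [← mul_sub, abs_mul]
      have h1 : |(sg i c : ℝ)| ≤ 1 := by exact_mod_cast hs.le i c
      exact (mul_le_of_le_one_left (abs_nonneg _) h1).trans (bump_lip i c he)
    · have : (N.card : ℝ) ≤ 2 := by exact_mod_cast hc
      have h3 : 0 < 8 / (rr i : ℝ) := div_pos (by norm_num) (rr_posR i)
      rw [nsmul_eq_mul]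
      calc _ ≤ 2 * (8 / (rr i : ℝ)) := by gcongr
        _ = _ := by ring
  · intro c _ hc
    simp only [hN, mem_union, mem_filter, mem_univ, true_and, not_or, not_and, not_lt] at hc
    by_cases h0 : sg i c = 0
    · simp [h0]
    · simp [bump_zero (hc.1 h0), bump_zero (hc.2 h0)]

lemma sw_grad (K : ℕ) {sg : ℕ → Vx n → ℤ} (hs : Sep B sg) {e : Vx n × Vx n} (he : e ∈ Ed n) (m : ℕ)
    (h : ∀ i < m, ∀ c, sg i c ≠ 0 → ¬ near i c e) :
    |sw B K sg e.1 - sw B K sg e.2| ≤ 17 / rr m := by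
  unfold sw
  rw [← sum_sub_distrib]
  refine (abs_sum_le_sum_abs _ _).trans ((sum_le_sum fun i _ => ?_).trans ((geo_sum m K).trans ?_))
  · split_ifs with hi
    · exact layer_grad hs i he
    · rw [← sum_sub_distrib, sum_eq_zero, abs_zero]
      intro c _
      by_cases h0 : sg i c = 0
      · simp [h0]
      · have := h i (not_le.1 hi) c h0
        simp only [near, not_or, not_lt] at this
        simp [bump_zero this.1, bump_zero this.2]
  · have := rr_posR (max m K)
    have : 0 < 17 / (rr (max m K) : ℝ) := by positivity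
    linarith

lemma sw_grad_ne (K : ℕ) {sg : ℕ → Vx n → ℤ} {e : Vx n × Vx n}
    (h : sw B K sg e.1 ≠ sw B K sg e.2) : ∃ i < K, ∃ c, sg i c ≠ 0 ∧ near i c e := by
  by_contra hc
  push Not at hc
  apply h
  refine sum_congr rfl fun i hi => sum_congr rfl fun c _ => ?_
  by_cases h0 : sg i c = 0
  · simp [h0]
  · have := hc i (mem_range.1 hi) c h0
    simp only [near, not_or, not_lt] at this
    simp [bump_zero this.1, bump_zero this.2]

end Pool.Agent.Lib.MP_9cc147_pr.FB
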