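import Pool.Agent.Lib.MP_9cc147_pr.BGeo

/-! Charge densities in the presence of rigid bodies: definitions. -/

open Finset

namespace Pool.Agent.Lib.MP_9cc147_pr.FB

variable {n : ℕ}

structure Item (n : ℕ) where
  S : Finset (Vx n)
  ρ : Vx n → ℤ
  z : ℝ
  sg : ℕ → Vx n → ℤ
  w : ℝ
  nm : ℝ

noncomputable def fac (a : Item n) (ψ : Vx n → ℝ) : ℝ :=
  1 + a.z * Real.cos (2 * Real.pi * pr a.ρ ψ)

noncomputable def Psi (X : Finset (Vx n)) (it : Vx n → Item n) (ψ : Vx n → ℝ) : ℝ :=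
  ∏ g ∈ X, fac (it g) ψ

structure Ok (B : Bod n) (K : ℕ) (g : Vx n) (a : Item n) (k : ℕ) : Prop where
  mem : g ∈ a.S
  anc : B.ka g < k
  supp : ∀ x, a.ρ x ≠ 0 → x ∈ a.S
  cen : ∀ i c, a.sg i c ≠ 0 → c ∈ a.S ∧ i < k
  sep : Sep B a.sg
  nbw : nb K a.sg ≤ 2 * a.w
  gain : a.w ≤ pr a.ρ (sw B K a.sg)
  one : 1 ≤ a.w
  nm0 : 0 ≤ a.nm

/-- far at scale `j`, except for points of bodies of higher level -/
def WFar (B : Bod n) (j : ℕ) (S T : Finset (Vx n)) : Prop :=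
  ∀ p ∈ S, ∀ q ∈ T, rr j ≤ ds p q ∨ j < B.ka q

/-- ensembles of retired neutral charge densities -/
structure Ret (B : Bod n) (Y : ℝ) (K : ℕ) (it : Vx n → Item n) (sc : Vx n → ℕ)
    (R : Finset (Vx n)) : Prop where
  ok : ∀ τ ∈ R, Ok B K τ (it τ) (sc τ)
  neu : ∀ τ ∈ R, ∑ x, (it τ).ρ x = 0
  sm : ∀ τ ∈ R, Small (sc τ) (it τ).S
  bl : ∀ τ ∈ R, ∀ (f : Vx n → ℝ) (L : ℝ), 0 ≤ L →
    (∀ x ∈ (it τ).S, ∀ y ∈ (it τ).S, |f x - f y| ≤ L * ds x y) →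
    |pr (it τ).ρ f| ≤ (it τ).nm * (rr (sc τ) * L / 12)
  zb : ∀ τ ∈ R, |(it τ).z| ≤ Real.exp (3 * Y * (it τ).w - 1.05 * Y * (it τ).nm - sc τ - Y)
  far : ∀ τ ∈ R, ∀ g ∈ R, τ ≠ g → sc τ ≤ sc g → WFar B (sc τ) (it τ).S (it g).S

lemma Ret.pos {B : Bod n} {Y : ℝ} {K : ℕ} {it : Vx n → Item n} {sc : Vx n → ℕ} {R : Finset (Vx n)}
    (h : Ret B Y K it sc R) : ∀ τ ∈ R, 1 ≤ sc τ := fun τ hτ => by
  have := (h.ok τ hτ).anc; omega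

lemma Ret.mono {B : Bod n} {Y : ℝ} {K : ℕ} {it : Vx n → Item n} {sc : Vx n → ℕ}
    {R R' : Finset (Vx n)} (h : Ret B Y K it sc R) (hR : R' ⊆ R) : Ret B Y K it sc R' :=
  ⟨fun τ a => h.ok τ (hR a), fun τ a => h.neu τ (hR a), fun τ a => h.sm τ (hR a),
    fun τ a => h.bl τ (hR a), fun τ a => h.zb τ (hR a), fun τ a g b => h.far τ (hR a) g (hR b)⟩

/-- a family of cones, indexed by the set of representatives that still take integer values -/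
structure Fam (B : Bod n) (P : Finset (Vx n) → ((Vx n → ℝ) → ℝ) → Prop) : Prop where
  cone : ∀ U, Cone (P U)
  congr : ∀ U f f', (∀ φ : Vx n → ℝ, (∀ x, B.pi x ∈ U → ∃ m : ℤ, φ x = m) → f φ = f' φ) →
    P U f → P U f'
  expand : ∀ U b, b ∈ U → B.pi b = b → ∀ X it, P (U.erase b) (Psi X it) →
    (∀ (q : ℕ) (z : ℝ), 1 ≤ q → |z| ≤ Real.exp (2 * q) → P (U.erase b) fun φ =>
      (1 + z * Real.cos (2 * Real.pi * (q * φ b))) * Psi X it φ) → P U (Psi X it)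

end Pool.Agent.Lib.MP_9cc147_pr.FB
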