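import Pool.Agent.Lib.MP_9cc147_pr.BMerge

/-! Passing to the next scale in the presence of rigid bodies. -/

open Finset Function

namespace Pool.Agent.Lib.MP_9cc147_pr.FB

variable {n : ℕ} {B : Bod n} {Y : ℝ}

/-- all representatives of level `k` -/
def Qk (B : Bod n) (k : ℕ) : Finset (Vx n) := univ.filter fun b => B.pi b = b ∧ B.ka b = k

lemma mem_Qk {k : ℕ} {b : Vx n} : b ∈ Qk B k ↔ B.pi b = b ∧ B.ka b = k := by simp [Qk]

/-- those that are close to `S` -/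
def Nr (B : Bod n) (k : ℕ) (S : Finset (Vx n)) : Finset (Vx n) :=
  (Qk B k).filter fun b => ∃ p ∈ S, ds p b < rr k

lemma mem_Nr {k : ℕ} {S : Finset (Vx n)} {b : Vx n} :
    b ∈ Nr B k S ↔ (B.pi b = b ∧ B.ka b = k) ∧ ∃ p ∈ S, ds p b < rr k := by simp [Nr, Qk]

def Pend (B : Bod n) (k : ℕ) (a : Item n) (b : Vx n) : Prop :=
  (b ∈ a.S ∧ |pr a.ρ (bump B k b)| ≤ 1 / 2 ∧ ∀ c, a.sg k c ≠ 0 → rr k ≤ ds c b) ∨
    Far (rr k) a.S {b}

structure Stp (B : Bod n) (Y : ℝ) (K k : ℕ) (g : Vx n) (a a' : Item n) : Prop where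
  ok : Ok B K g a' (k + 1 + 1) ∧ BL B (k + 1) a'
  z : a'.z = a.z
  fac : ∀ φ : Vx n → ℝ, (∀ x, k < B.ka x → ∃ m : ℤ, φ x = m) → fac a' φ = fac a φ
  ext : ∀ q ∈ a'.S, q ∈ a.S ∨ q ∈ Nr B (k + 1) a.S ∨ (k + 1 < B.ka q ∧ 4 * ds g q < rr (k + 1))
  conn : Conn (2 * rr (k + 1 + 1)) a'.S
  zb : pot B Y k a + 526338 * Pq (k + 1) a.S ≤
    pot B Y (k + 1) a' - 2 * (a'.S ∩ Qk B (k + 1)).card
  pend : ∀ b ∈ Qk B (k + 1), Pend B (k + 1) a' b
  nn : Small (k + 1) a'.S → ∑ x, a'.ρ x ≠ 0 ∨ ∃ x, k + 1 ≤ B.ka x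

lemma far_of_not_nr {k : ℕ} {S : Finset (Vx n)} {b : Vx n} (hb : b ∈ Qk B k) (h : b ∉ Nr B k S) :
    Far (rr k) S {b} := by
  intro p hp q hq
  rw [mem_singleton.1 hq]
  by_contra hc
  exact h (mem_Nr.2 ⟨mem_Qk.1 hb, p, hp, not_le.1 hc⟩)

lemma inter_Qk_sub (k : ℕ) (S : Finset (Vx n)) : S ∩ Qk B k ⊆ Nr B k S := fun b hb =>
  mem_Nr.2 ⟨mem_Qk.1 (mem_inter.1 hb).2, b, (mem_inter.1 hb).1, by simp [rr_pos]⟩

lemma rp_far {k : ℕ} {S : Finset (Vx n)} {x y : Vx n} (hx : x ∈ Rp B k S) (h : k ≤ B.ka y)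
    (hne : x ≠ B.pi y) : 64 * rr (k + 1) ≤ ds x y := by
  obtain ⟨-, a1, a2, a3⟩ := mem_filter.1 hx
  have := (sep_far (B := B) (x := x) (y := y) (by omega) (by omega) (by rwa [a1])).1
  have := rr_succ k
  rw [a2] at *
  omega

lemma rp_small {k : ℕ} {S : Finset (Vx n)} (hs : Small (k + 1) S) : (Rp B k S).card ≤ 1 := by
  refine card_le_one.2 fun a ha b hb => ?_
  by_contra hne
  have hb' := mem_filter.1 hb
  have := rp_far ha hb'.2.2.1.ge (by rwa [hb'.2.1])
  have := hs a (mem_filter.1 ha).1 b hb'.1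
  have := rr_pos (k + 1)
  omega

lemma rp_zero {k : ℕ} {S : Finset (Vx n)} (hs : Small (k + 1) S) {p y : Vx n} (hp : p ∈ S)
    (hy : k < B.ka y) (hd : ds p y < rr (k + 1)) : (Rp B k S).card = 0 := by
  rw [card_eq_zero, eq_empty_iff_forall_notMem]
  intro x hx
  have hx' := mem_filter.1 hx
  have := rp_far hx hy.le fun e => by
    have := B.kpi y; rw [← e] at this; omega
  have := hs x hx'.1 p hp
  have := ds_tri x p y
  omega

lemma small_lt {k : ℕ} {S : Finset (Vx n)} (hs : Small k S) : ∀ p ∈ S, ∀ q ∈ S, ds p q < 2 * rr k :=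
  fun p hp q hq => by have := hs p hp q hq; have := rr_pos k; omega

lemma Pq_one {j k : ℕ} {S : Finset (Vx n)} {g : Vx n} (hg : g ∈ S)
    (h : ∀ p ∈ S, ∀ q ∈ S, ds p q < 2 * rr j) (hjk : j ≤ k) : (Pq k S : ℝ) = 1 := by
  exact_mod_cast le_antisymm (Pq_small h hjk) (one_le_Pq k hg)

lemma stp_adj (hY : 10 ^ 9 ≤ Y) {K k : ℕ} {g : Vx n} {a : Item n} (ha : Ok B K g a (k + 1))
    (hb : BL B k a) (hc : Conn (2 * rr (k + 1)) a.S)
    (h : (Nr B (k + 1) a.S).Nonempty ∨ ¬ Small (k + 1) a.S) :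
    Stp B Y K k g a (adj B (k + 1) a (Nr B (k + 1) a.S)) := by
  set T := Nr B (k + 1) a.S with hT
  have t1 : ∀ b ∈ T, B.pi b = b ∧ B.ka b = k + 1 := fun b hb => (mem_Nr.1 hb).1
  have t2 : ∀ b ∈ T, ∃ p ∈ a.S, ds p b < rr (k + 1) := fun b hb => (mem_Nr.1 hb).2
  have eS : (adj B (k + 1) a T).S = a.S ∪ T := rfl
  have r0 := rr_pos (k + 1)
  have r1 := rr_succ (k + 1)
  have e1 : (a.S ∪ T) ∩ Qk B (k + 1) = T := by
    refine Subset.antisymm (fun b hb => ?_) fun b hb =>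
      mem_inter.2 ⟨mem_union_right _ hb, mem_Qk.2 (t1 b hb)⟩
    rcases mem_union.1 (mem_inter.1 hb).1 with c | c
    · exact inter_Qk_sub _ _ (mem_inter.2 ⟨c, (mem_inter.1 hb).2⟩)
    · exact c
  have e2 : Rp B (k + 1) (a.S ∪ T) = T := by
    rw [← e1]; ext b; simp [Rp, e1]
    have := congrArg (b ∈ ·) e1
    simpa [mem_Qk] using this
  refine ⟨⟨(ha.mov _ (by positivity) fun b hb => (t1 b hb).2.ge).mono (Nat.le_succ _),
    hb.adj ha.nm0 t1⟩, rfl, fun φ hφ => fac_mov _ _ _ _ fun b hb => hφ b (by have := t1 b hb; omega),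
    fun q hq => (mem_union.1 hq).imp_right Or.inl, ?_, ?_, fun b hb => ?_, fun hs => Or.inr ?_⟩
  · refine (conn_ext hc fun q hq => ?_).mono (by omega)
    obtain ⟨p, hp, hd⟩ := t2 q hq
    exact ⟨p, hp, by omega⟩
  · have c0 := chg_nonneg a
    have c1 := chg_le (adj B (k + 1) a T)
    have c2 : (0 : ℝ) ≤ al B (k + 1) (a.S ∪ T) := Nat.cast_nonneg _
    have ew : (adj B (k + 1) a T).w = a.w := rfl
    have en : (adj B (k + 1) a T).nm = a.nm + T.card / 2 := rfl
    have p1 : (1 : ℝ) ≤ Pq k a.S := by exact_mod_cast one_le_Pq k ha.mem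
    simp only [pot, eS, e1, e2, ew, en]
    by_cases hs : Small (k + 1) a.S
    · obtain ⟨b, hb⟩ := h.resolve_right (not_not.2 hs)
      obtain ⟨p, hp, hd⟩ := t2 b hb
      have u : ∀ b' ∈ T, b' = b := by
        intro b' hb'
        by_contra hne
        obtain ⟨p', hp', hd'⟩ := t2 b' hb'
        have := (sep_far (B := B) (x := b') (y := b) (by have := t1 b' hb'; omega)
          (by have := t1 b' hb'; have := t1 b hb; omega) (by rwa [(t1 b' hb').1, (t1 b hb).1])).1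
        rw [(t1 b' hb').2] at this
        have := hs p' hp' p hp
        have a1 := ds_tri b' p' b
        have a2 := ds_tri p' p b
        rw [ds_comm b' p'] at a1
        omega
      have d : ∀ x ∈ a.S ∪ T, ∀ y ∈ a.S ∪ T, ds x y < 2 * rr (k + 1) := by
        have d1 : ∀ x ∈ a.S, ds x b < 2 * rr (k + 1) := fun x hx => by
          have := hs x hx p hp; have := ds_tri x p b; omega
        intro x hx y hy
        rcases mem_union.1 hx with hx | hx <;> rcases mem_union.1 hy with hy | hy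
        · exact small_lt hs x hx y hy
        · rw [u y hy]; exact d1 x hx
        · rw [u x hx, ds_comm]; exact d1 y hy
        · rw [u x hx, u y hy, ds_self]; omega
      have q1 : T.card = 1 := card_eq_one.2 ⟨b, eq_singleton_iff_unique_mem.2 ⟨hb, u⟩⟩
      have q2 : al B k a.S = 0 := al_zero ha.mem (y := b) (by
        have := hs g ha.mem p hp; have := ds_tri g p b; omega)
        (by have := ha.anc; have := t1 b hb; omega) fun e => by
          have := ha.anc; have := t1 b hb; rw [this.1] at e; subst e; omega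
      rw [Pq_one ha.mem (small_lt hs) le_rfl, Pq_one (mem_union_left _ ha.mem) d le_rfl,
        Pq_one (mem_union_left _ ha.mem) d (Nat.le_succ _), q1, q2,
        rp_zero hs hp (by have := t1 b hb; omega) hd]
      push_cast
      nlinarith
    · have q1 : (Pq (k + 1) (a.S ∪ T) : ℝ) ≤ Pq (k + 1) a.S + T.card := by
        exact_mod_cast (Pq_union _ _ _).trans (Nat.add_le_add_left (Pq_le_card _ _) _)
      have q2 : (2 * Pq (k + 1 + 1) (a.S ∪ T) : ℝ) ≤ Pq k a.S := by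
        exact_mod_cast Pq_double hc hs fun t ht => (mem_union.1 ht).elim
          (fun c => ⟨t, c, by simp⟩) fun c => (t2 t c).imp fun p hp => ⟨hp.1, hp.2.le⟩
      have q3 : ((Rp B k a.S).card : ℝ) + T.card ≤ Pq (k + 1) a.S := by
        have dj : Disjoint (Rp B k a.S) T := disjoint_left.2 fun x h1 h2 => by
          have := (mem_filter.1 h1).2; have := t1 x h2; omega
        obtain ⟨T', a1, a2, a3⟩ := spr_push (S := a.S) (T' := Rp B k a.S ∪ T) (r := 2 * rr (k + 1))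
          (r' := 4 * rr (k + 1)) (d := rr (k + 1)) (by
            have f : ∀ x ∈ Rp B k a.S, ∀ y ∈ Rp B k a.S ∪ T, x ≠ y → 4 * rr (k + 1) ≤ ds x y := by
              intro x hx y hy hne
              have : k ≤ B.ka y ∧ B.pi y = y := (mem_union.1 hy).elim
                (fun c => ⟨(mem_filter.1 c).2.2.1.ge, (mem_filter.1 c).2.1⟩)
                fun c => ⟨by have := t1 y c; omega, (t1 y c).1⟩
              have := rp_far hx this.1 (by rwa [this.2])
              omega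
            intro x hx y hy hne
            rcases mem_union.1 hx with c | c
            · exact f x c y hy hne
            · rcases mem_union.1 hy with c' | c'
              · rw [ds_comm]; exact f y c' x hx hne.symm
              · have := (sep_far (B := B) (x := x) (y := y) (by have := t1 x c; omega)
                  (by have := t1 x c; have := t1 y c'; omega) (by rwa [(t1 x c).1, (t1 y c').1])).1
                rw [(t1 x c).2] at this
                omega) (fun t ht => (mem_union.1 ht).elim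
              (fun c => ⟨t, (mem_filter.1 c).1, by simp⟩)
              fun c => (t2 t c).imp fun p hp => ⟨hp.1, hp.2.le⟩) (by omega) (by omega)
        have := le_Pq a1 a2
        rw [a3, card_union_of_disjoint dj] at this
        exact_mod_cast this
      have q4 : al B k a.S = 0 := by
        by_contra hc
        obtain ⟨x, e, -⟩ := al_pos hc
        exact hs (by rw [e]; simp [Small])
      have q5 : (1 : ℝ) ≤ Pq (k + 1) a.S := by exact_mod_cast one_le_Pq _ ha.mem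
      have q6 : (0 : ℝ) ≤ (Rp B k a.S).card := Nat.cast_nonneg _
      have q7 : (0 : ℝ) ≤ T.card := Nat.cast_nonneg _
      rw [q4]
      push_cast
      have hY0 : 0 ≤ Y := by linarith
      nlinarith [mul_le_mul_of_nonneg_left q1 hY0, mul_le_mul_of_nonneg_left q2 hY0,
        mul_le_mul_of_nonneg_left q3 hY0, mul_le_mul_of_nonneg_right hY q6,
        mul_le_mul_of_nonneg_right hY q7, mul_le_mul_of_nonneg_right hY (sub_nonneg.2 q3)]
  · by_cases hbT : b ∈ T
    · exact Or.inl ⟨mem_union_right _ hbT, adj_res t1 a hbT,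
        fun c hc => absurd (ha.cen _ c hc).2 (lt_irrefl _)⟩
    · refine Or.inr fun p hp q hq => (mem_union.1 hp).elim
        (fun c => far_of_not_nr hb hbT p c q hq) fun c => ?_
      rw [mem_singleton.1 hq, ← (t1 p c).2]
      refine rep_far (t1 p c).1 (by have := t1 p c; have := mem_Qk.1 hb; omega) fun e => hbT ?_
      rw [(mem_Qk.1 hb).1] at e
      exact e ▸ c
  · obtain ⟨b, hb⟩ := h.resolve_right (not_not.2 fun p hp q hq =>
      hs p (mem_union_left _ hp) q (mem_union_left _ hq))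
    exact ⟨b, (t1 b hb).2.ge⟩

lemma stp_neu (hY : 10 ^ 9 ≤ Y) {K k : ℕ} {g y : Vx n} {a : Item n} (ha : Ok B K g a (k + 1))
    (hb : BL B k a) (hc : Conn (2 * rr (k + 1)) a.S) (h : Nr B (k + 1) a.S = ∅)
    (hs : Small (k + 1) a.S) (hQ : ∑ x, a.ρ x ≠ 0) (hy : k + 1 < B.ka y)
    (hd : 4 * ds g y < rr (k + 1)) : Stp B Y K k g a (mov a {y} (fun _ => ∑ x, a.ρ x) 0) := by
  have eS : (mov a {y} (fun _ => ∑ x, a.ρ x) 0).S = a.S ∪ {y} := rfl
  have r0 := rr_pos (k + 1)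
  have r1 := rr_succ (k + 1)
  refine ⟨⟨(ha.mov _ le_rfl fun b hb => by rw [mem_singleton.1 hb]; omega).mono (Nat.le_succ _),
    hb.neu ha.nm0 ha.mem hs hd⟩, rfl, fun φ hφ => fac_mov _ _ _ _ fun b hb => hφ b (by
      rw [mem_singleton.1 hb]; omega), fun q hq => (mem_union.1 hq).imp_right fun c => Or.inr (by
      rw [mem_singleton.1 c]; exact ⟨hy, hd⟩), ?_, ?_, fun b hb => Or.inr ?_,
    fun _ => Or.inr ⟨y, hy.le⟩⟩
  · exact (conn_ext hc fun q hq => ⟨g, ha.mem, by rw [mem_singleton.1 hq]; omega⟩).mono (by omega)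
  · have e1 : (a.S ∪ {y}) ∩ Qk B (k + 1) = ∅ := by
      refine eq_empty_of_forall_notMem fun b hb => ?_
      rcases mem_union.1 (mem_inter.1 hb).1 with c | c
      · simpa [h] using inter_Qk_sub _ _ (mem_inter.2 ⟨c, (mem_inter.1 hb).2⟩)
      · have := mem_Qk.1 (mem_inter.1 hb).2
        rw [mem_singleton.1 c] at this
        omega
    have d : ∀ x ∈ a.S ∪ {y}, ∀ z ∈ a.S ∪ {y}, ds x z < 2 * rr (k + 1) := by
      have d1 : ∀ x ∈ a.S ∪ {y}, ds g x < rr (k + 1) := fun x hx => (mem_union.1 hx).elim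
        (fun c => by have := hs g ha.mem x c; omega) fun c => by rw [mem_singleton.1 c]; omega
      intro x hx z hz
      have := d1 x hx
      have := d1 z hz
      have a1 := ds_tri x g z
      rw [ds_comm x g] at a1
      omega
    have c0 : chg a = 1 := if_neg hQ
    have c1 : chg (mov a {y} (fun _ => ∑ x, a.ρ x) 0) = 0 := if_pos (by simp [mov])
    have c2 : (0 : ℝ) ≤ al B (k + 1) (a.S ∪ {y}) := Nat.cast_nonneg _
    have c3 : (0 : ℝ) ≤ (Rp B (k + 1) (a.S ∪ {y})).card := Nat.cast_nonneg _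
    have ew : (mov a {y} (fun _ => ∑ x, a.ρ x) 0).w = a.w := rfl
    have en : (mov a {y} (fun _ => ∑ x, a.ρ x) 0).nm = a.nm + 0 := rfl
    have p1 : (1 : ℝ) ≤ Pq k a.S := by exact_mod_cast one_le_Pq k ha.mem
    have q2 : al B k a.S = 0 := al_zero ha.mem (y := y) (by omega) (by have := ha.anc; omega)
      fun e => by have := ha.anc; have := B.kpi y; rw [← e] at this; omega
    simp only [pot, eS, e1, ew, en, c0, c1]
    rw [Pq_one ha.mem (small_lt hs) le_rfl, Pq_one (mem_union_left _ ha.mem) d le_rfl,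
      Pq_one (mem_union_left _ ha.mem) d (Nat.le_succ _), q2,
      rp_zero hs ha.mem (y := y) (by omega) (by omega), card_empty]
    push_cast
    nlinarith
  · intro p hp q hq
    rcases mem_union.1 hp with c | c
    · exact far_of_not_nr hb (by simp [h]) p c q hq
    · have := mem_Qk.1 hb
      rw [mem_singleton.1 hq, mem_singleton.1 c, ds_comm, ← this.2]
      exact rep_far this.1 (by omega) fun e => by have := B.kpi y; rw [← e] at this; omega

lemma stp_lay (hY : 10 ^ 9 ≤ Y) {K k : ℕ} (hk : k + 1 < K) {g : Vx n} {a : Item n}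
    (ha : Ok B K g a (k + 1)) (hb : BL B k a) (hc : Conn (2 * rr (k + 1)) a.S)
    (h : Nr B (k + 1) a.S = ∅) (hs : Small (k + 1) a.S) (hQ : ∑ x, a.ρ x ≠ 0)
    (hy : ∀ y, k + 1 < B.ka y → rr (k + 1) ≤ 4 * ds g y) : Stp B Y K k g a (lay a g (k + 1)) := by
  have r1 := rr_succ (k + 1)
  refine ⟨⟨ha.lay hk hs hQ hy, hb.succ ha.nm0⟩, rfl, fun _ _ => rfl, fun q hq => Or.inl hq,
    hc.mono (by omega), ?_, fun b hb => Or.inr (far_of_not_nr hb (by simp [lay, h])),
    fun _ => Or.inl hQ⟩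
  have eS : (lay a g (k + 1)).S = a.S := rfl
  have e1 : a.S ∩ Qk B (k + 1) = ∅ := subset_empty.1 (h ▸ inter_Qk_sub _ _)
  have c1 : chg (lay a g (k + 1)) = chg a := rfl
  have c2 : (al B k a.S : ℝ) ≤ al B (k + 1) a.S + 9 := by exact_mod_cast al_succ k a.S
  have c3 : (0 : ℝ) ≤ (Rp B (k + 1) a.S).card := Nat.cast_nonneg _
  have c4 : ((Rp B k a.S).card : ℝ) ≤ 1 := by exact_mod_cast rp_small hs
  have ew : (lay a g (k + 1)).w = a.w + 1 := rfl
  have en : (lay a g (k + 1)).nm = a.nm := rfl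
  have p1 : (1 : ℝ) ≤ Pq k a.S := by exact_mod_cast one_le_Pq k ha.mem
  simp only [pot, eS, e1, ew, en, c1]
  rw [Pq_one ha.mem (small_lt hs) le_rfl, Pq_one ha.mem (small_lt hs) (Nat.le_succ _), card_empty]
  push_cast
  nlinarith

/-- the items that retire -/
def Rt (B : Bod n) (k : ℕ) (a : Item n) : Prop := Nr B k a.S = ∅ ∧ Small k a.S ∧ ∑ x, a.ρ x = 0

lemma item_step (hY : 10 ^ 9 ≤ Y) {K k : ℕ} (hk : k + 1 < K) {g : Vx n} {a : Item n}
    (ha : Ok B K g a (k + 1)) (hb : BL B k a) (hc : Conn (2 * rr (k + 1)) a.S)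
    (h : ¬ Rt B (k + 1) a) : ∃ a', Stp B Y K k g a a' := by
  by_cases h1 : (Nr B (k + 1) a.S).Nonempty ∨ ¬ Small (k + 1) a.S
  · exact ⟨_, stp_adj hY ha hb hc h1⟩
  push Not at h1
  have hQ : ∑ x, a.ρ x ≠ 0 := fun e => h ⟨h1.1, h1.2, e⟩
  by_cases h2 : ∀ y, k + 1 < B.ka y → rr (k + 1) ≤ 4 * ds g y
  · exact ⟨_, stp_lay hY hk ha hb hc h1.1 h1.2 hQ h2⟩
  · push Not at h2
    obtain ⟨y, a1, a2⟩ := h2
    exact ⟨_, stp_neu hY ha hb hc h1.1 h1.2 hQ a1 a2⟩

lemma ret_zb (hY : 10 ^ 9 ≤ Y) {K k : ℕ} {g : Vx n} {a : Item n} (ha : Ok B K g a (k + 1))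
    (h : Rt B (k + 1) a) : pot B Y k a + 526338 * Pq (k + 1) a.S ≤
      3 * Y * a.w - 1.05 * Y * a.nm - (k + 1 : ℕ) - Y := by
  have c0 := chg_nonneg a
  have c4 : ((Rp B k a.S).card : ℝ) ≤ 1 := by exact_mod_cast rp_small h.2.1
  have p1 : (1 : ℝ) ≤ Pq k a.S := by exact_mod_cast one_le_Pq k ha.mem
  have q4 : al B k a.S = 0 := by
    by_contra hc
    obtain ⟨x, e, -⟩ := al_pos hc
    have z : ∀ y, y ≠ x → a.ρ y = 0 := fun y hy => by
      by_contra h0
      exact hy (by simpa [e] using ha.supp y h0)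
    have z1 : a.ρ x = 0 := by
      have := h.2.2
      rwa [sum_eq_single x (fun y _ => z y) (by simp)] at this
    have z2 : pr a.ρ (sw B K a.sg) = 0 := sum_eq_zero fun y _ => by
      by_cases c : y = x
      · simp [c, z1]
      · simp [z y c]
    linarith [ha.gain, ha.one]
  simp only [pot]
  rw [Pq_one ha.mem (small_lt h.2.1) le_rfl, q4]
  push_cast
  nlinarith

lemma far_ext {k : ℕ} {g h : Vx n} {S T S' T' : Finset (Vx n)} (hg : g ∈ S) (hh : h ∈ T)
    (hf : Far (2 * rr k) S T)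
    (h1 : ∀ q ∈ S', q ∈ S ∨ q ∈ Nr B k S ∨ (k < B.ka q ∧ 4 * ds g q < rr k))
    (h2 : ∀ q ∈ T', q ∈ T ∨ q ∈ Nr B k T ∨ (k < B.ka q ∧ 4 * ds h q < rr k)) :
    Far (rr k) S' T' := by
  intro p hp q hq
  have rf : ∀ {b x : Vx n}, B.pi b = b ∧ B.ka b = k → k < B.ka x → rr k ≤ ds b x := fun hb hx =>
    hb.2 ▸ rep_far hb.1 (by omega) fun e => by have := B.kpi _ ▸ congrArg B.ka e; omega
  rcases h1 p hp with c | c | c <;> rcases h2 q hq with d | d | d
  · have := hf p c q d; omega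
  · obtain ⟨-, x, hx, e⟩ := mem_Nr.1 d
    have := hf p c x hx; have := ds_tri p q x; rw [ds_comm q x] at this; omega
  · have := hf p c h hh; have := ds_tri p q h; rw [ds_comm q h] at this; omega
  · obtain ⟨-, x, hx, e⟩ := mem_Nr.1 c
    have := hf x hx q d; have := ds_tri x p q; omega
  · obtain ⟨c1, x, hx, e⟩ := mem_Nr.1 c
    obtain ⟨d1, y, hy, e'⟩ := mem_Nr.1 d
    refine c1.2 ▸ rep_far c1.1 (by omega) fun e2 => ?_
    rw [d1.1] at e2
    subst e2
    have := hf x hx y hy; have := ds_tri x p y; rw [ds_comm p y] at this; omega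
  · exact rf (mem_Nr.1 c).1 d.1
  · have := hf g hg q d; have := ds_tri g p q; omega
  · rw [ds_comm]; exact rf (mem_Nr.1 d).1 c.1
  · have := hf g hg h hh; have := ds_tri g p h; have := ds_tri p q h
    rw [ds_comm q h] at this; omega

/-- the invariant while the representatives in `Q` wait for their expansion -/
structure Mid (B : Bod n) (Y : ℝ) (K k : ℕ) (it : Vx n → Item n) (sc : Vx n → ℕ)
    (R A Q : Finset (Vx n)) : Prop where
  com : Com B Y K k it sc R A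
  zb : ∀ g ∈ A, |(it g).z| ≤ Real.exp (pot B Y k (it g) - 2 * ((it g).S ∩ Q).card)
  rep : Q ⊆ Qk B k
  nA : Disjoint A Q
  ra : ∀ b ∈ Q, ∀ τ ∈ R, WFar B (sc τ) (it τ).S {b}
  pend : ∀ b ∈ Q, ∀ g ∈ A, Pend B k (it g) b
  nn : (∃ x, k ≤ B.ka x) ∨ ∀ g ∈ A, Small k (it g).S → ∑ x, (it g).ρ x ≠ 0

lemma layer_step (hY : 10 ^ 9 ≤ Y) {K k : ℕ} (hk : k + 1 < K) {it : Vx n → Item n} {sc : Vx n → ℕ}
    {R A : Finset (Vx n)} (h : Com B Y K k it sc R A)
    (hz : ∀ g ∈ A, |(it g).z| ≤ Real.exp (pot B Y k (it g) + 526338 * Pq (k + 1) (it g).S))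
    (hf : ∀ g ∈ A, ∀ h ∈ A, g ≠ h → Far (2 * rr (k + 1)) (it g).S (it h).S) :
    ∃ it' sc' R' A', Mid B Y K (k + 1) it' sc' R' A' (Qk B (k + 1)) ∧
      ∀ φ : Vx n → ℝ, (∀ x, k < B.ka x → ∃ m : ℤ, φ x = m) →
        Psi (R' ∪ A') it' φ = Psi (R ∪ A) it φ := by
  classical
  set Q : Vx n → Prop := fun g => Rt B (k + 1) (it g) with hQ
  have ex : ∀ g, ∃ a', (g ∈ A ∧ ¬ Q g → Stp B Y K k g (it g) a') ∧ (¬ (g ∈ A ∧ ¬ Q g) → a' = it g) := by
    intro g
    by_cases c : g ∈ A ∧ ¬ Q g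
    · obtain ⟨a', h'⟩ := item_step hY hk (h.ok g c.1).1 (h.ok g c.1).2 (h.conn g c.1) c.2
      exact ⟨a', fun _ => h', fun c' => absurd c c'⟩
    · exact ⟨it g, fun c' => absurd c' c, fun _ => rfl⟩
  choose it' s1 s2 using ex
  set sc' : Vx n → ℕ := fun g => if g ∈ A then k + 1 else sc g with hsc
  have nA : ∀ τ ∈ R, τ ∉ A := fun τ hτ => disjoint_left.1 h.disj hτ
  have e1 : ∀ τ ∈ R, it' τ = it τ := fun τ hτ => s2 τ fun c => nA τ hτ c.1
  have e2 : ∀ τ ∈ R, sc' τ = sc τ := fun τ hτ => by simp [hsc, nA τ hτ]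
  have e3 : ∀ τ, Q τ → it' τ = it τ := fun τ hq => s2 τ fun c => c.2 hq
  have e4 : ∀ τ ∈ A, sc' τ = k + 1 := fun τ hτ => by simp [hsc, hτ]
  have st : ∀ g ∈ A.filter fun g => ¬ Q g, Stp B Y K k g (it g) (it' g) := fun g hg =>
    s1 g (mem_filter.1 hg)
  have hr := h.ret.congr e1 e2
  have r0 := rr_pos (k + 1)
  have cases : ∀ {C : Vx n → Prop}, (∀ τ ∈ R, C τ) → (∀ τ ∈ A, Q τ → C τ) →
      ∀ τ ∈ R ∪ A.filter Q, C τ := fun c1 c2 τ hτ =>
    (mem_union.1 hτ).elim (c1 τ) fun a => c2 τ (mem_filter.1 a).1 (mem_filter.1 a).2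
  refine ⟨it', sc', R ∪ A.filter Q, A.filter fun g => ¬ Q g,
    ⟨⟨⟨cases hr.ok ?_, cases hr.neu ?_, cases hr.sm ?_, cases hr.bl ?_, cases hr.zb ?_,
      cases ?_ ?_⟩, cases ?_ ?_, ?_, cases ?_ ?_, fun g hg => (st g hg).ok, ?_,
      fun g hg => (st g hg).conn⟩, ?_, Subset.rfl, ?_, fun b hb => cases ?_ ?_,
      fun b hb g hg => (st g hg).pend b hb, ?_⟩, ?_⟩
  · intro τ hτ hq; rw [e3 τ hq, e4 τ hτ]; exact (h.ok τ hτ).1
  · intro τ _ hq; rw [e3 τ hq]; exact hq.2.2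
  · intro τ hτ hq; rw [e3 τ hq, e4 τ hτ]; exact hq.2.1
  · intro τ hτ hq; rw [e3 τ hq, e4 τ hτ]
    exact (h.ok τ hτ).2.ret (h.ok τ hτ).1.nm0 (h.ok τ hτ).1.mem hq.2.1 hq.2.2
  · intro τ hτ hq
    rw [e3 τ hq, e4 τ hτ]
    exact (hz τ hτ).trans (Real.exp_le_exp.2 (ret_zb hY (h.ok τ hτ).1 hq))
  · intro τ hτ
    refine cases (hr.far τ hτ) fun g hg hq _ _ => ?_
    rw [e1 τ hτ, e3 g hq, e2 τ hτ]; exact h.ra τ hτ g hg
  · intro τ hτ hq
    refine cases (fun g hg _ hle => ?_) fun g hg hq' hne _ => ?_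
    · rw [e4 τ hτ, e2 g hg] at hle
      have := h.scl g hg
      omega
    · rw [e3 τ hq, e3 g hq', e4 τ hτ]
      exact fun p hp q hq => Or.inl (by have := hf τ hτ g hg hne p hp q hq; omega)
  · intro τ hτ; rw [e2 τ hτ]; exact (h.scl τ hτ).trans (Nat.le_succ _)
  · intro τ hτ _; rw [e4 τ hτ]
  · exact disjoint_union_left.2 ⟨h.disj.mono_right (filter_subset _ _),
      disjoint_filter_filter_not A A Q⟩
  · intro τ hτ g hg p hp q hq
    rw [e1 τ hτ] at hp
    rw [e2 τ hτ]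
    have := h.scl τ hτ
    rcases (st g hg).ext q hq with c | c | c
    · exact h.ra τ hτ g (mem_filter.1 hg).1 p hp q c
    · exact Or.inr (by have := (mem_Nr.1 c).1; omega)
    · exact Or.inr (by omega)
  · intro τ hτ hq g hg p hp q hq'
    rw [e3 τ hq] at hp
    rw [e4 τ hτ]
    have hg' := (mem_filter.1 hg).1
    exact Or.inl (far_ext (h.ok τ hτ).1.mem (h.ok g hg').1.mem
      (hf τ hτ g hg' fun e => (mem_filter.1 hg).2 (e ▸ hq)) (fun q hq => Or.inl hq)
      (st g hg).ext p hp q hq')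
  · intro g hg g' hg' hne
    have a := (mem_filter.1 hg).1
    have a' := (mem_filter.1 hg').1
    exact far_ext (h.ok g a).1.mem (h.ok g' a').1.mem (hf g a g' a' hne)
      (st g hg).ext (st g' hg').ext
  · intro g hg
    rw [(st g hg).z]
    exact (hz g (mem_filter.1 hg).1).trans (Real.exp_le_exp.2 (st g hg).zb)
  · refine disjoint_left.2 fun g hg c => ?_
    have := (h.ok g (mem_filter.1 hg).1).1.anc
    have := mem_Qk.1 c
    omega
  · intro τ hτ p _ q hq
    rw [e2 τ hτ, mem_singleton.1 hq]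
    have := h.scl τ hτ
    have := mem_Qk.1 hb
    exact Or.inr (by omega)
  · intro τ hτ hq p hp q hq'
    rw [e3 τ hq] at hp
    rw [e4 τ hτ]
    exact Or.inl (far_of_not_nr hb (by rw [hq.1]; simp) p hp q hq')
  · by_cases c : ∃ x, k + 1 ≤ B.ka x
    · exact Or.inl c
    · exact Or.inr fun g hg hs => ((st g hg).nn hs).resolve_right c
  · intro φ hφ
    rw [union_assoc, filter_union_filter_not_eq]
    refine prod_congr rfl fun g _ => ?_
    by_cases c : g ∈ A ∧ ¬ Q g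
    · exact (s1 g c).fac φ hφ
    · rw [s2 g c]

end Pool.Agent.Lib.MP_9cc147_pr.FB
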