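import Pool.Agent.Lib.MP_9cc147_pr.BOk

/-! The merging phase in the presence of rigid bodies. -/

open Finset Function

namespace Pool.Agent.Lib.MP_9cc147_pr.FB

variable {n : ℕ} {B : Bod n} {Y : ℝ}

lemma Ret.congr {K : ℕ} {it it' : Vx n → Item n} {sc sc' : Vx n → ℕ} {R : Finset (Vx n)}
    (h : Ret B Y K it sc R) (h1 : ∀ τ ∈ R, it' τ = it τ) (h2 : ∀ τ ∈ R, sc' τ = sc τ) :
    Ret B Y K it' sc' R := by
  refine ⟨fun τ a => ?_, fun τ a => ?_, fun τ a => ?_, fun τ a => ?_, fun τ a => ?_,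
    fun τ a g b => ?_⟩
  · rw [h1 τ a, h2 τ a]; exact h.ok τ a
  · rw [h1 τ a]; exact h.neu τ a
  · rw [h1 τ a, h2 τ a]; exact h.sm τ a
  · rw [h1 τ a, h2 τ a]; exact h.bl τ a
  · rw [h1 τ a, h2 τ a]; exact h.zb τ a
  · rw [h1 τ a, h2 τ a, h1 g b, h2 g b]; exact h.far τ a g b

structure Com (B : Bod n) (Y : ℝ) (K k : ℕ) (it : Vx n → Item n) (sc : Vx n → ℕ)
    (R A : Finset (Vx n)) : Prop where
  ret : Ret B Y K it sc R
  scl : ∀ τ ∈ R, sc τ ≤ k
  disj : Disjoint R A
  ra : ∀ τ ∈ R, ∀ g ∈ A, WFar B (sc τ) (it τ).S (it g).S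
  ok : ∀ g ∈ A, Ok B K g (it g) (k + 1) ∧ BL B k (it g)
  dj : ∀ g ∈ A, ∀ h ∈ A, g ≠ h → Far (rr k) (it g).S (it h).S
  conn : ∀ g ∈ A, Conn (2 * rr (k + 1)) (it g).S

/-- one if the total charge does not vanish -/
def chg (a : Item n) : ℝ := if ∑ x, a.ρ x = 0 then 0 else 1

lemma chg_nonneg (a : Item n) : 0 ≤ chg a := by unfold chg; split_ifs <;> norm_num
lemma chg_le (a : Item n) : chg a ≤ 1 := by unfold chg; split_ifs <;> norm_num

noncomputable def pot (B : Bod n) (Y : ℝ) (k : ℕ) (a : Item n) : ℝ :=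
  3 * Y * a.w - 1.05 * Y * a.nm - k - 0.54 * Y * (Pq k a.S + 2 * Pq (k + 1) a.S) -
    10 ^ 6 * chg a + 0.53 * Y * (Rp B k a.S).card + al B k a.S

lemma pot_mrg (hY : 0 ≤ Y) {k : ℕ} {a b : Item n} (s : ℤ) (hf : Far (rr k) a.S b.S) {p q : Vx n}
    (hp : p ∈ a.S) (hq : q ∈ b.S) (hd : ds p q < 2 * rr (k + 1)) :
    pot B Y k a + pot B Y k b ≤ pot B Y k (mrg a b s) := by
  have a1 : (Pq k (a.S ∪ b.S) : ℝ) ≤ Pq k a.S + Pq k b.S := by exact_mod_cast Pq_union k _ _
  have a2 : (Pq (k + 1) (a.S ∪ b.S) : ℝ) ≤ Pq (k + 1) a.S + Pq (k + 1) b.S := by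
    exact_mod_cast Pq_union (k + 1) _ _
  have dj : Disjoint a.S b.S := disjoint_left.2 fun x h1 h2 => by
    have := hf x h1 x h2; have := rr_pos k; simp at *; omega
  have a3 : ((Rp B k (a.S ∪ b.S)).card : ℝ) = (Rp B k a.S).card + (Rp B k b.S).card := by
    rw [Rp, filter_union, card_union_of_disjoint (disjoint_filter_filter dj)]
    push_cast; rfl
  have a4 : chg (mrg a b s) ≤ chg a + chg b := by
    have := chg_nonneg a
    have := chg_nonneg b
    have := chg_le (mrg a b s)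
    by_cases h1 : ∑ x, a.ρ x = 0
    · by_cases h2 : ∑ x, b.ρ x = 0
      · simp [chg, mrg, sum_add_distrib, ← mul_sum, h1, h2]
      · have : chg b = 1 := if_neg h2
        linarith
    · have : chg a = 1 := if_neg h1
      linarith
  have a5 : al B k a.S + al B k b.S ≤ k := by
    have b1 := al_le (B := B) k a.S
    have b2 := al_le (B := B) k b.S
    by_contra hc
    obtain ⟨x, e1, x1, -⟩ := al_pos (B := B) (k := k) (S := a.S) (by omega)
    obtain ⟨y, e2, y1, -⟩ := al_pos (B := B) (k := k) (S := b.S) (by omega)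
    obtain rfl : p = x := by simpa [e1] using hp
    obtain rfl : q = y := by simpa [e2] using hq
    have hne : p ≠ q := fun e => disjoint_left.1 dj hp (e ▸ hq)
    rcases le_total (B.ka p) (B.ka q) with h | h
    · have := al_zero hp hd h (by rwa [y1]); omega
    · have := al_zero hq (ds_comm p q ▸ hd) h (by rw [x1]; exact hne.symm); omega
  have a6 : (al B k a.S : ℝ) + al B k b.S ≤ k := by exact_mod_cast a5
  have a7 : (0 : ℝ) ≤ al B k (a.S ∪ b.S) := Nat.cast_nonneg _
  simp only [pot]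
  simp only [mrg, a3] at a4 ⊢
  nlinarith

structure Ter (B : Bod n) (Y : ℝ) (k : ℕ) (S0 : Vx n → Finset (Vx n)) (D : Finset (Vx n)) (it : Vx n → Item n)
    (A : Finset (Vx n)) (U : Vx n → Finset (Vx n)) : Prop where
  u1 : ∀ g ∈ A, U g ⊆ D
  u2 : ∀ g ∈ A, ∀ h ∈ A, g ≠ h → Disjoint (U g) (U h)
  u3 : ∀ g ∈ A, ∀ c ∈ U g, ∃ p ∈ S0 c, ∃ q ∈ (it g).S, ds p q < 2 * rr (k + 1)
  u4 : ∀ g ∈ A, ∀ p ∈ (it g).S, ∃ c ∈ U g, p ∈ S0 c
  zb : ∀ g ∈ A, |(it g).z| ≤ Real.exp (2 * ((U g).card - 1) + pot B Y k (it g))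

lemma repl_com {K k : ℕ} {it : Vx n → Item n} {sc : Vx n → ℕ} {R A : Finset (Vx n)}
    (h : Com B Y K k it sc R A) {a b : Vx n} (ha : a ∈ A) (hb : b ∈ A) (a' : Item n)
    (hS : a'.S ⊆ (it a).S ∪ (it b).S) (hok : Ok B K a a' (k + 1) ∧ BL B k a')
    (hc : Conn (2 * rr (k + 1)) a'.S) :
    Com B Y K k (update it a a') sc R (A.erase b) := by
  have hR : ∀ τ ∈ R, update it a a' τ = it τ := fun τ hτ =>
    update_of_ne (fun e : τ = a => disjoint_left.1 h.disj hτ (e ▸ ha)) _ _
  have fa : ∀ (r : ℕ) (S : Finset (Vx n)), Far r S (it a).S → Far r S (it b).S → Far r S a'.S :=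
    fun r S h1 h2 p hp q hq => (h1.union h2) p hp q (hS hq)
  have fw : ∀ (r : ℕ) (S : Finset (Vx n)), WFar B r S (it a).S → WFar B r S (it b).S →
      WFar B r S a'.S := fun r S h1 h2 p hp q hq => (mem_union.1 (hS hq)).elim (h1 p hp q) (h2 p hp q)
  refine ⟨h.ret.congr hR fun _ _ => rfl, h.scl, h.disj.mono_right (erase_subset _ _), ?_, ?_, ?_, ?_⟩
  · intro τ hτ g hg
    rw [hR τ hτ]
    by_cases e : g = a
    · subst e; rw [update_self]; exact fw _ _ (h.ra τ hτ g ha) (h.ra τ hτ b hb)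
    · rw [update_of_ne e]; exact h.ra τ hτ g (mem_of_mem_erase hg)
  · intro g hg
    by_cases e : g = a
    · subst e; rw [update_self]; exact hok
    · rw [update_of_ne e]; exact h.ok g (mem_of_mem_erase hg)
  · have key : ∀ g ∈ A.erase b, g ≠ a → Far (rr k) (it g).S a'.S := fun g hg e =>
      fa _ _ (h.dj g (mem_of_mem_erase hg) a ha e) (h.dj g (mem_of_mem_erase hg) b hb
        (ne_of_mem_erase hg))
    intro g hg g' hg' hne
    by_cases e : g = a
    · subst e; rw [update_self, update_of_ne hne.symm]; exact (key g' hg' hne.symm).symm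
    · rw [update_of_ne e]
      by_cases e' : g' = a
      · subst e'; rw [update_self]; exact key g hg e
      · rw [update_of_ne e']; exact h.dj g (mem_of_mem_erase hg) g' (mem_of_mem_erase hg') hne
  · intro g hg
    by_cases e : g = a
    · subst e; rw [update_self]; exact hc
    · rw [update_of_ne e]; exact h.conn g (mem_of_mem_erase hg)

lemma repl_ter {k : ℕ} {S0 : Vx n → Finset (Vx n)} {D : Finset (Vx n)} {it : Vx n → Item n}
    {A : Finset (Vx n)} {U : Vx n → Finset (Vx n)} (h : Ter B Y k S0 D it A U) {a b : Vx n}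
    (ha : a ∈ A) (hb : b ∈ A) (a' : Item n) (U' : Finset (Vx n)) (hU : U' ⊆ U a ∪ U b)
    (h3 : ∀ c ∈ U', ∃ p ∈ S0 c, ∃ q ∈ a'.S, ds p q < 2 * rr (k + 1))
    (h4 : ∀ p ∈ a'.S, ∃ c ∈ U', p ∈ S0 c)
    (hz : |a'.z| ≤ Real.exp (2 * (U'.card - 1) + pot B Y k a')) :
    Ter B Y k S0 D (update it a a') (A.erase b) (update U a U') := by
  refine ⟨?_, ?_, ?_, ?_, ?_⟩
  · intro g hg
    by_cases e : g = a
    · subst e; rw [update_self]; exact hU.trans (union_subset (h.u1 g ha) (h.u1 b hb))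
    · rw [update_of_ne e]; exact h.u1 g (mem_of_mem_erase hg)
  · have key : ∀ g ∈ A.erase b, g ≠ a → Disjoint (U g) U' := fun g hg e =>
      Disjoint.mono_right hU (disjoint_union_right.2 ⟨h.u2 g (mem_of_mem_erase hg) a ha e,
        h.u2 g (mem_of_mem_erase hg) b hb (ne_of_mem_erase hg)⟩)
    intro g hg g' hg' hne
    by_cases e : g = a
    · subst e; rw [update_self, update_of_ne hne.symm]; exact (key g' hg' hne.symm).symm
    · rw [update_of_ne e]
      by_cases e' : g' = a
      · subst e'; rw [update_self]; exact key g hg e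
      · rw [update_of_ne e']; exact h.u2 g (mem_of_mem_erase hg) g' (mem_of_mem_erase hg') hne
  all_goals
    intro g hg
    by_cases e : g = a
    · subst e; simp only [update_self]; assumption
    · simp only [update_of_ne e]
      first
      | exact h.u3 g (mem_of_mem_erase hg)
      | exact h.u4 g (mem_of_mem_erase hg)
      | exact h.zb g (mem_of_mem_erase hg)

lemma Psi_repl {R A : Finset (Vx n)} (hd : Disjoint R A) (it : Vx n → Item n) {a b : Vx n}
    (ha : a ∈ A) (hb : b ∈ A) (hab : a ≠ b) (a' : Item n) (ψ : Vx n → ℝ) :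
    Psi (R ∪ A.erase b) (update it a a') ψ =
      fac a' ψ * Psi (((R ∪ A).erase a).erase b) it ψ := by
  have hbR : b ∉ R := fun h => disjoint_left.1 hd h hb
  have e : R ∪ A.erase b = insert a (((R ∪ A).erase a).erase b) := by
    ext x
    simp only [mem_union, mem_erase, mem_insert]
    by_cases h1 : x = a
    · subst h1; simp [ha, hab]
    · by_cases h2 : x = b
      · subst h2; simp [hbR, h1]
      · simp [h1, h2]
  rw [e, Psi, prod_insert (by simp), update_self, Psi]
  congr 1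
  refine prod_congr rfl fun x hx => ?_
  rw [update_of_ne (ne_of_mem_erase (mem_of_mem_erase hx))]

lemma Psi_two {R A : Finset (Vx n)} (it : Vx n → Item n) {a b : Vx n}
    (ha : a ∈ A) (hb : b ∈ A) (hab : a ≠ b) (ψ : Vx n → ℝ) :
    Psi (R ∪ A) it ψ = fac (it a) ψ * (fac (it b) ψ * Psi (((R ∪ A).erase a).erase b) it ψ) := by
  unfold Psi
  rw [mul_prod_erase ((R ∪ A).erase a) (fun g => fac (it g) ψ)
    (mem_erase.2 ⟨hab.symm, mem_union_right _ hb⟩),
    mul_prod_erase (R ∪ A) (fun g => fac (it g) ψ) (mem_union_right _ ha)]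

def tri (a : Item n) : Item n := { a with z := 3 * a.z }

lemma merge_phase (hY : 0 ≤ Y) {P : ((Vx n → ℝ) → ℝ) → Prop} (hP : Cone P) {K k : ℕ} {sc : Vx n → ℕ}
    {R : Finset (Vx n)} {S0 : Vx n → Finset (Vx n)} {D : Finset (Vx n)}
    (hend : ∀ it A U, Com B Y K k it sc R A → Ter B Y k S0 D it A U →
      (∀ g ∈ A, ∀ h ∈ A, g ≠ h → Far (2 * rr (k + 1)) (it g).S (it h).S) → P (Psi (R ∪ A) it)) :
    ∀ (m : ℕ) it A U, A.card = m → Com B Y K k it sc R A → Ter B Y k S0 D it A U →
      P (Psi (R ∪ A) it) := by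
  intro m
  induction m with
  | zero =>
    intro it A U hm h1 h2
    exact hend it A U h1 h2 fun g hg => by simp [card_eq_zero.1 hm] at hg
  | succ m ih =>
    intro it A U hm h1 h2
    by_cases hf : ∀ g ∈ A, ∀ h ∈ A, g ≠ h → Far (2 * rr (k + 1)) (it g).S (it h).S
    · exact hend it A U h1 h2 hf
    simp only [Far, not_forall, not_le] at hf
    obtain ⟨a, ha, b, hb, hab, p, hp, q, hq, hd⟩ := hf
    have drop : ∀ a ∈ A, ∀ b ∈ A, a ≠ b → ∀ p ∈ (it a).S, ∀ q ∈ (it b).S, ds p q < 2 * rr (k + 1) →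
        P fun ψ => fac (tri (it a)) ψ * Psi (((R ∪ A).erase a).erase b) it ψ := by
      intro a ha b hb hab p hp q hq hd
      obtain ⟨c, hc, hqc⟩ := h2.u4 b hb q hq
      have hca : c ∉ U a := fun h => disjoint_left.1 (h2.u2 a ha b hb hab) h hc
      have := ih _ (A.erase b) _ (by rw [card_erase_of_mem hb]; omega)
        (repl_com h1 ha hb (tri (it a)) subset_union_left ⟨{ (h1.ok a ha).1 with }, (h1.ok a ha).2⟩ (h1.conn a ha))
        (repl_ter h2 ha hb (tri (it a)) (insert c (U a))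
          (insert_subset (mem_union_right _ hc) subset_union_left) ?_ ?_ ?_)
      · simpa only [← Psi_repl h1.disj it ha hb hab] using this
      · intro c' hc'
        rcases mem_insert.1 hc' with rfl | hc''
        · exact ⟨q, hqc, p, hp, ds_comm p q ▸ hd⟩
        · exact h2.u3 a ha c' hc''
      · intro x hx
        obtain ⟨c', h3, h4⟩ := h2.u4 a ha x hx
        exact ⟨c', mem_insert_of_mem h3, h4⟩
      · have hz := h2.zb a ha
        have e : pot B Y k (tri (it a)) = pot B Y k (it a) := rfl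
        rw [card_insert_of_notMem hca, e]
        simp only [tri, abs_mul, Nat.abs_ofNat]
        refine (mul_le_mul three_le hz (abs_nonneg _) (Real.exp_pos _).le).trans ?_
        rw [← Real.exp_add]
        push_cast
        exact Real.exp_le_exp.2 (by linarith)
    have mer : ∀ s : ℤ, s = 1 ∨ s = -1 →
        P fun ψ => fac (mrg (it a) (it b) s) ψ * Psi (((R ∪ A).erase a).erase b) it ψ := by
      intro s hs
      have := ih _ (A.erase b) _ (by rw [card_erase_of_mem hb]; omega)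
        (repl_com h1 ha hb (mrg (it a) (it b) s) Subset.rfl
          ⟨(h1.ok a ha).1.mrg (h1.ok b hb).1 (h1.dj a ha b hb hab) hs,
            (h1.ok a ha).2.mrg (h1.ok b hb).2 hs⟩
          ((h1.conn a ha).union (h1.conn b hb) hp hq hd))
        (repl_ter h2 ha hb (mrg (it a) (it b) s) (U a ∪ U b) Subset.rfl ?_ ?_ ?_)
      · simpa only [← Psi_repl h1.disj it ha hb hab] using this
      · intro c hc
        rcases mem_union.1 hc with hc | hc
        · obtain ⟨p, h3, q, h4, h5⟩ := h2.u3 a ha c hc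
          exact ⟨p, h3, q, mem_union_left _ h4, h5⟩
        · obtain ⟨p, h3, q, h4, h5⟩ := h2.u3 b hb c hc
          exact ⟨p, h3, q, mem_union_right _ h4, h5⟩
      · intro x hx
        rcases mem_union.1 hx with hx | hx
        · obtain ⟨c, h3, h4⟩ := h2.u4 a ha x hx
          exact ⟨c, mem_union_left _ h3, h4⟩
        · obtain ⟨c, h3, h4⟩ := h2.u4 b hb x hx
          exact ⟨c, mem_union_right _ h3, h4⟩
      · have hz := h2.zb a ha
        have hz' := h2.zb b hb
        rw [card_union_of_disjoint (h2.u2 a ha b hb hab)]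
        have a1 := pot_mrg (B := B) hY s (h1.dj a ha b hb hab) hp hq hd
        have e : (mrg (it a) (it b) s).z = 3 * (it a).z * (it b).z := rfl
        simp only [e, abs_mul, Nat.abs_ofNat]
        refine (mul_le_mul (mul_le_mul three_le hz (abs_nonneg _) (Real.exp_pos _).le) hz'
          (abs_nonneg _) (by positivity)).trans ?_
        rw [← Real.exp_add, ← Real.exp_add]
        push_cast
        exact Real.exp_le_exp.2 (by linarith)
    have d1 := drop a ha b hb hab p hp q hq hd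
    have d2 := drop b hb a ha hab.symm q hq p hp (ds_comm p q ▸ hd)
    rw [erase_right_comm] at d2
    have := hP.add _ _ (hP.add _ _ (hP.smul (1 / 3) _ (by norm_num) d1)
      (hP.smul (1 / 3) _ (by norm_num) d2)) (hP.add _ _
      (hP.smul (1 / 6) _ (by norm_num) (mer 1 (Or.inl rfl)))
      (hP.smul (1 / 6) _ (by norm_num) (mer (-1) (Or.inr rfl))))
    convert this using 2 with ψ
    rw [Psi_two it ha hb hab]
    simp only [fac, tri, mrg, pr_add, mul_add, Real.cos_add]
    push_cast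
    simp only [one_mul, neg_mul, mul_neg, Real.cos_neg, Real.sin_neg]
    ring

end Pool.Agent.Lib.MP_9cc147_pr.FB
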