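import Pool.Agent.Lib.MP_9cc147_pr.BPack

/-! Operations on charge densities in the presence of rigid bodies. -/

open Finset

namespace Pool.Agent.Lib.MP_9cc147_pr.FB

variable {n : ℕ} {B : Bod n}

lemma Ok.mono {K : ℕ} {g : Vx n} {a : Item n} {k k' : ℕ} (h : Ok B K g a k) (hk : k ≤ k') :
    Ok B K g a k' :=
  { h with
    anc := h.anc.trans_le hk
    cen := fun i c hc => ⟨(h.cen i c hc).1, (h.cen i c hc).2.trans_le hk⟩ }

lemma sw_add (K : ℕ) (sg sg' : ℕ → Vx n → ℤ) (s : ℤ) (x : Vx n) :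
    sw B K (fun i c => sg i c + s * sg' i c) x = sw B K sg x + s * sw B K sg' x := by
  simp only [sw, mul_sum, ← sum_add_distrib]
  refine sum_congr rfl fun i _ => sum_congr rfl fun c _ => ?_
  push_cast; ring

lemma sw_one1 {K j : ℕ} (h : j < K) (g x : Vx n) : sw B K (one1 j g) x = bump B j g x := by
  unfold sw one1
  rw [sum_eq_single j, sum_eq_single g] <;> simp +contextual [h]

lemma one1_ne {j i : ℕ} {g c : Vx n} (h : one1 j g i c ≠ 0) : i = j ∧ c = g := by
  by_contra hh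
  simp [one1, hh] at h

lemma one1_sep {j : ℕ} {g : Vx n} (h : ∀ x, j < B.ka x → rr j ≤ 4 * ds g x) : Sep B (one1 j g) := by
  refine ⟨fun i c => ?_, fun i c c' h1 h2 hne => ?_, fun i c x h1 h2 => ?_⟩
  · unfold one1; split_ifs <;> simp
  · exact absurd ((one1_ne h1).2.trans (one1_ne h2).2.symm) hne
  · obtain ⟨rfl, rfl⟩ := one1_ne h1
    exact h x h2

lemma rep_sep {b : Vx n} (hb : B.pi b = b) : Sep B (one1 (B.ka b) b) := one1_sep fun x hx => by
  have := rep_far hb hx.le fun e => pi_ne hx.ne (hb.trans e)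
  omega

lemma pr_cross {K r : ℕ} {ρ : Vx n → ℤ} {sg : ℕ → Vx n → ℤ} {S T : Finset (Vx n)}
    (h1 : ∀ x, ρ x ≠ 0 → x ∈ S) (h2 : ∀ i c, sg i c ≠ 0 → c ∈ T ∧ rr i ≤ r) (hf : Far r S T) :
    pr ρ (sw B K sg) = 0 := by
  refine sum_eq_zero fun x _ => ?_
  by_cases hx : ρ x = 0
  · simp [hx]
  · rw [sw_zero, mul_zero]
    intro i c hc
    have := hf x (h1 x hx) c (h2 i c hc).1
    have := (h2 i c hc).2
    rw [ds_comm c x]
    omega

lemma add_ne {sg sg' : ℕ → Vx n → ℤ} {s : ℤ} {i : ℕ} {c : Vx n} (hc : sg i c + s * sg' i c ≠ 0) :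
    sg i c ≠ 0 ∨ sg' i c ≠ 0 := by
  by_contra hh
  push Not at hh
  simp [hh.1, hh.2] at hc

lemma Sep.add {sg sg' : ℕ → Vx n → ℤ} (h : Sep B sg) (h' : Sep B sg') {s : ℤ} (hs : s = 1 ∨ s = -1)
    (hf : ∀ i c c', sg i c ≠ 0 → sg' i c' ≠ 0 → rr i ≤ ds c c') :
    Sep B fun i c => sg i c + s * sg' i c := by
  refine ⟨fun i c => ?_, fun i c c' h1 h2 hne => ?_, fun i c x h1 => ?_⟩
  · by_cases h0 : sg i c = 0
    · have := h'.le i c
      rcases hs with rfl | rfl <;> simpa [h0] using this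
    · by_cases h1 : sg' i c = 0
      · simpa [h1] using h.le i c
      · have := hf i c c h0 h1
        have := rr_pos i
        simp at *; omega
  · rcases add_ne h1 with h1 | h1 <;> rcases add_ne h2 with h2 | h2
    · exact h.sep i c c' h1 h2 hne
    · exact hf i c c' h1 h2
    · rw [ds_comm]; exact hf i c' c h2 h1
    · exact h'.sep i c c' h1 h2 hne
  · exact (add_ne h1).elim (h.free i c x) (h'.free i c x)

/-- size of the charge against Lipschitz test functions -/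
def BL (B : Bod n) (k : ℕ) (a : Item n) : Prop :=
  ∀ (f : Vx n → ℝ) (s L : ℝ), 0 ≤ L → rr k * L / 3 ≤ s → (∀ x ∈ a.S, |f x| ≤ s) →
    (∀ x ∈ a.S, ∀ y ∈ a.S, |f x - f y| ≤ L * ds x y) →
    |pr a.ρ f| ≤ a.nm * (sig B k * s + rr (lev B k) * L)

lemma bl_le {k : ℕ} {s s' L x : ℝ} (hx : 0 ≤ x) (hs : s ≤ s') (hs0 : 0 ≤ s) (hL : 0 ≤ L) :
    x * (sig B k * s + rr (lev B k) * L) ≤ x * (sig B (k + 1) * s' + rr (lev B (k + 1)) * L) := by
  have h1 : (rr (lev B k) : ℝ) ≤ rr (lev B (k + 1)) := by exact_mod_cast rr_mono (lev_mono k)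
  have h2 := sig_mono (B := B) k
  have h3 := one_le_sig (B := B) k
  gcongr
  linarith

lemma BL.succ {k : ℕ} {a : Item n} (h : BL B k a) (h0 : 0 ≤ a.nm) : BL B (k + 1) a := by
  intro f s L hL hs h1 h2
  have p := rr_posR k
  have e : (rr (k + 1) : ℝ) = 64 * rr k := by exact_mod_cast rr_succ k
  have : rr k * L / 3 ≤ s := by rw [e] at hs; nlinarith [mul_nonneg p.le hL]
  exact (h f s L hL this h1 h2).trans (bl_le h0 le_rfl (le_trans (by positivity) this) hL)

lemma pr_sub_const (ρ : Vx n → ℤ) (f : Vx n → ℝ) (c : ℝ) :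
    pr ρ (fun x => f x - c) = pr ρ f - (∑ x, ρ x : ℤ) * c := by
  simp [pr, mul_sub, sum_sub_distrib, sum_mul]

lemma BL.ret {k : ℕ} {a : Item n} {g : Vx n} (h : BL B k a) (h0 : 0 ≤ a.nm) (hg : g ∈ a.S)
    (hs : Small (k + 1) a.S) (hQ : ∑ x, a.ρ x = 0) (f : Vx n → ℝ) (L : ℝ) (hL : 0 ≤ L)
    (h2 : ∀ x ∈ a.S, ∀ y ∈ a.S, |f x - f y| ≤ L * ds x y) :
    |pr a.ρ f| ≤ a.nm * (rr (k + 1) * L / 12) := by
  have p := rr_posR k
  have e : (rr (k + 1) : ℝ) = 64 * rr k := by exact_mod_cast rr_succ k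
  have p2 := mul_nonneg p.le hL
  have := h (fun x => f x - f g) (4 * (rr k * L)) L hL (by linarith) (fun x hx => by
    have a1 : 16 * (ds x g : ℝ) ≤ rr (k + 1) := by exact_mod_cast hs x hx g hg
    exact (h2 x hx g hg).trans (by nlinarith)) (fun x hx y hy => by simpa using h2 x hx y hy)
  rw [pr_sub_const, hQ, Int.cast_zero, zero_mul, sub_zero] at this
  refine this.trans (mul_le_mul_of_nonneg_left ?_ h0)
  have a1 := sig_le (B := B) k
  have a2 : (rr (lev B k) : ℝ) ≤ rr k := by exact_mod_cast rr_mono (lev_le k)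
  rw [e]
  nlinarith

def mrg (a b : Item n) (s : ℤ) : Item n where
  S := a.S ∪ b.S
  ρ := fun x => a.ρ x + s * b.ρ x
  z := 3 * a.z * b.z
  sg := fun i c => a.sg i c + s * b.sg i c
  w := a.w + b.w
  nm := a.nm + b.nm

lemma Ok.mrg {K k : ℕ} {g h : Vx n} {a b : Item n} (ha : Ok B K g a (k + 1))
    (hb : Ok B K h b (k + 1)) (hf : Far (rr k) a.S b.S) {s : ℤ} (hs : s = 1 ∨ s = -1) :
    Ok B K g (mrg a b s) (k + 1) := by
  have ca : ∀ i c, a.sg i c ≠ 0 → c ∈ a.S ∧ rr i ≤ rr k := fun i c hc =>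
    ⟨(ha.cen i c hc).1, rr_mono (Nat.lt_succ_iff.1 (ha.cen i c hc).2)⟩
  have cb : ∀ i c, b.sg i c ≠ 0 → c ∈ b.S ∧ rr i ≤ rr k := fun i c hc =>
    ⟨(hb.cen i c hc).1, rr_mono (Nat.lt_succ_iff.1 (hb.cen i c hc).2)⟩
  refine ⟨mem_union_left _ ha.mem, ha.anc, ?_, ?_, ?_, ?_, ?_, ?_, add_nonneg ha.nm0 hb.nm0⟩
  · intro x hx
    by_cases h0 : a.ρ x = 0
    · exact mem_union_right _ (hb.supp x fun h1 => hx (by simp [FB.mrg, h0, h1]))
    · exact mem_union_left _ (ha.supp x h0)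
  · intro i c hc
    rcases add_ne hc with h0 | h0
    · exact ⟨mem_union_left _ (ha.cen i c h0).1, (ha.cen i c h0).2⟩
    · exact ⟨mem_union_right _ (hb.cen i c h0).1, (hb.cen i c h0).2⟩
  · exact ha.sep.add hb.sep hs fun i c c' h1 h2 =>
      (ca i c h1).2.trans (hf c (ca i c h1).1 c' (cb i c' h2).1)
  · refine (nb_add K _ _ hs).trans ?_
    simp only [FB.mrg]
    linarith [ha.nbw, hb.nbw]
  · simp only [FB.mrg]
    have e : sw B K (fun i c => a.sg i c + s * b.sg i c) =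
      fun x => sw B K a.sg x + (s : ℝ) * sw B K b.sg x := funext (sw_add K _ _ s)
    rw [e, pr_add, pr_add', pr_add', pr_cross ha.supp cb hf, pr_cross hb.supp ca hf.symm]
    have h1 := ha.gain
    have h2 := hb.gain
    rcases hs with rfl | rfl <;> simp <;> linarith
  · simp only [FB.mrg]; linarith [ha.one, hb.one]

lemma BL.mrg {k : ℕ} {a b : Item n} (ha : BL B k a) (hb : BL B k b) {s : ℤ} (hs : s = 1 ∨ s = -1) :
    BL B k (mrg a b s) := by
  intro f t L hL ht h1 h2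
  have a1 := ha f t L hL ht (fun x hx => h1 x (mem_union_left _ hx))
    fun x hx y hy => h2 x (mem_union_left _ hx) y (mem_union_left _ hy)
  have a2 := hb f t L hL ht (fun x hx => h1 x (mem_union_right _ hx))
    fun x hx y hy => h2 x (mem_union_right _ hx) y (mem_union_right _ hy)
  simp only [FB.mrg]
  rw [pr_add, add_mul]
  refine (abs_add_le _ _).trans (add_le_add a1 ?_)
  rcases hs with rfl | rfl <;> simpa using a2

def lay (a : Item n) (g : Vx n) (j : ℕ) : Item n :=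
  { a with sg := fun i c => a.sg i c + (∑ x, a.ρ x).sign * one1 j g i c, w := a.w + 1 }

lemma Ok.lay {K j : ℕ} {g : Vx n} {a : Item n} (ha : Ok B K g a j) (hj : j < K) (hs : Small j a.S)
    (hQ : ∑ x, a.ρ x ≠ 0) (hy : ∀ x, j < B.ka x → rr j ≤ 4 * ds g x) :
    Ok B K g (lay a g j) (j + 1) := by
  have hsg : (∑ x, a.ρ x).sign = 1 ∨ (∑ x, a.ρ x).sign = -1 := by
    rcases lt_or_gt_of_ne hQ with h | h
    · exact Or.inr (Int.sign_eq_neg_one_of_neg h)
    · exact Or.inl (Int.sign_eq_one_of_pos h)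
  refine ⟨ha.mem, ha.anc.trans (Nat.lt_succ_self _), ha.supp, ?_, ?_, ?_, ?_, ?_, ha.nm0⟩
  · intro i c hc
    rcases add_ne hc with h0 | h0
    · exact ⟨(ha.cen i c h0).1, (ha.cen i c h0).2.trans (Nat.lt_succ_self _)⟩
    · obtain ⟨rfl, rfl⟩ := one1_ne h0
      exact ⟨ha.mem, Nat.lt_succ_self _⟩
  · refine ha.sep.add (one1_sep hy) hsg fun i c c' h1 h2 => ?_
    have := (ha.cen i c h1).2
    have := (one1_ne h2).1
    omega
  · refine (nb_add K _ _ hsg).trans ?_
    rw [nb_one1 hj]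
    simp only [FB.lay]
    linarith [ha.nbw]
  · simp only [FB.lay]
    have e : sw B K (fun i c => a.sg i c + (∑ x, a.ρ x).sign * one1 j g i c) =
      fun x => sw B K a.sg x + ((∑ x, a.ρ x).sign : ℝ) * sw B K (one1 j g) x :=
        funext (sw_add K _ _ _)
    have e2 : pr a.ρ (sw B K (one1 j g)) = (∑ x, a.ρ x : ℤ) := by
      push_cast
      refine sum_congr rfl fun x _ => ?_
      by_cases hx : a.ρ x = 0
      · simp [hx]
      · rw [sw_one1 hj, bump_one (hs g ha.mem x (ha.supp x hx)), mul_one]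
    rw [e, pr_add', e2, ← Int.cast_mul, Int.sign_mul_self_eq_natAbs]
    have h1 := ha.gain
    have h2 : (1 : ℝ) ≤ ((∑ x, a.ρ x).natAbs : ℤ) := by
      exact_mod_cast Int.natAbs_pos.2 hQ
    push_cast at h2 ⊢
    linarith
  · simp only [FB.lay]; linarith [ha.one]

/-- integer charges are moved onto points that still take integer values -/
def mov (a : Item n) (T : Finset (Vx n)) (Q : Vx n → ℤ) (t : ℝ) : Item n :=
  { a with S := a.S ∪ T, ρ := fun x => a.ρ x - if x ∈ T then Q x else 0, nm := a.nm + t }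

lemma pr_mov (a : Item n) (T : Finset (Vx n)) (Q : Vx n → ℤ) (t : ℝ) (f : Vx n → ℝ) :
    pr (mov a T Q t).ρ f = pr a.ρ f - ∑ b ∈ T, Q b * f b := by
  simp only [pr, mov]
  push_cast
  simp only [sub_mul, sum_sub_distrib, ite_mul, zero_mul, sum_ite_mem, univ_inter]

lemma fac_mov (a : Item n) (T : Finset (Vx n)) (Q : Vx n → ℤ) (t : ℝ) {φ : Vx n → ℝ}
    (h : ∀ b ∈ T, ∃ m : ℤ, φ b = m) : fac (mov a T Q t) φ = fac a φ := by
  choose! m hm using h
  have e : ∑ b ∈ T, Q b * φ b = (∑ b ∈ T, Q b * m b : ℤ) := by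
    push_cast
    exact sum_congr rfl fun b hb => by rw [hm b hb]
  rw [fac, fac, pr_mov, e, mul_sub, mul_comm (2 * Real.pi) ((_ : ℤ) : ℝ),
    Real.cos_sub_int_mul_two_pi]
  rfl

lemma Ok.mov {K k : ℕ} {g : Vx n} {a : Item n} (ha : Ok B K g a k) {T : Finset (Vx n)}
    (Q : Vx n → ℤ) {t : ℝ} (ht : 0 ≤ t) (hT : ∀ b ∈ T, k ≤ B.ka b) : Ok B K g (mov a T Q t) k := by
  refine ⟨mem_union_left _ ha.mem, ha.anc, fun x hx => ?_,
    fun i c hc => ⟨mem_union_left _ (ha.cen i c hc).1, (ha.cen i c hc).2⟩, ha.sep, ha.nbw, ?_,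
    ha.one, add_nonneg ha.nm0 ht⟩
  · by_cases h : x ∈ T
    · exact mem_union_right _ h
    · exact mem_union_left _ (ha.supp x (by simpa [FB.mov, h] using hx))
  · rw [pr_mov, sum_eq_zero, sub_zero]
    · exact ha.gain
    · intro b hb
      rw [sw_zero, mul_zero]
      exact fun i c hc => ha.sep.free i c b hc ((ha.cen i c hc).2.trans_le (hT b hb))

lemma BL.neu {k : ℕ} {a : Item n} {g y : Vx n} (h : BL B k a) (h0 : 0 ≤ a.nm) (hg : g ∈ a.S)
    (hs : Small (k + 1) a.S) (hy : 4 * ds g y < rr (k + 1)) :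
    BL B (k + 1) (mov a {y} (fun _ => ∑ x, a.ρ x) 0) := by
  intro f s L hL hs' _ h2
  have p := rr_posR k
  have e : (rr (k + 1) : ℝ) = 64 * rr k := by exact_mod_cast rr_succ k
  have p2 := mul_nonneg p.le hL
  have := h (fun x => f x - f y) (rr (k + 1) * L / 3) L hL (by rw [e]; nlinarith) (fun x hx => by
    have a0 := hs x hx g hg
    have a1 := ds_tri x g y
    have a2 : 3 * (ds x y : ℝ) ≤ rr (k + 1) := by exact_mod_cast (by omega : 3 * ds x y ≤ _)
    exact (h2 x (mem_union_left _ hx) y (mem_union_right _ (mem_singleton_self _))).trans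
      (by nlinarith))
    fun x hx y hy => by simpa using h2 x (mem_union_left _ hx) y (mem_union_left _ hy)
  rw [pr_sub_const] at this
  rw [pr_mov, sum_singleton]
  refine this.trans ?_
  simp only [FB.mov, add_zero]
  exact bl_le h0 hs' (by positivity) hL

section adj

variable {k : ℕ} {T : Finset (Vx n)}

lemma one_bump (hT : ∀ b ∈ T, B.pi b = b ∧ B.ka b = k + 1) {b b' x y : Vx n} (hb : b ∈ T)
    (hb' : b' ∈ T) (hne : b' ≠ b) (hx : 4 * ds b x < rr (k + 1)) (hy : ds x y ≤ 1) :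
    bump B (k + 1) b' y = 0 := by
  have h1 := hT b hb
  have h2 := hT b' hb'
  have := (sep_far (B := B) (x := b') (y := b) (by omega) (by omega)
    (by rwa [h1.1, h2.1])).1
  rw [h2.2] at this
  have a1 := ds_tri b' y b
  have a2 := ds_tri y x b
  rw [ds_comm y x, ds_comm x b] at a2
  have := rr_pos (k + 1)
  exact bump_zero (by omega)

lemma sum_bump (hT : ∀ b ∈ T, B.pi b = b ∧ B.ka b = k + 1) (c : Vx n → ℝ) {x y : Vx n}
    (hy : ds x y ≤ 1) : (∀ z, z = x ∨ z = y → ∑ b ∈ T, c b * bump B (k + 1) b z = 0) ∨ ∃ b ∈ T,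
      (4 * ds b x < rr (k + 1) ∨ 4 * ds b y < rr (k + 1)) ∧
      ∀ z, z = x ∨ z = y → ∑ b ∈ T, c b * bump B (k + 1) b z = c b * bump B (k + 1) b z := by
  by_cases h : ∃ b ∈ T, 4 * ds b x < rr (k + 1) ∨ 4 * ds b y < rr (k + 1)
  · obtain ⟨b, hb, h⟩ := h
    refine Or.inr ⟨b, hb, h, fun z hz => sum_eq_single_of_mem b hb fun b' hb' hne => ?_⟩
    have hy' : ds y x ≤ 1 := ds_comm x y ▸ hy
    rcases h with h | h <;> rcases hz with rfl | rfl
    · rw [one_bump hT hb hb' hne h (by simp), mul_zero]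
    · rw [one_bump hT hb hb' hne h hy, mul_zero]
    · rw [one_bump hT hb hb' hne h hy', mul_zero]
    · rw [one_bump hT hb hb' hne h (by simp), mul_zero]
  · push Not at h
    refine Or.inl fun z hz => sum_eq_zero fun b hb => ?_
    rcases hz with rfl | rfl
    · rw [bump_zero (h b hb).1, mul_zero]
    · rw [bump_zero (h b hb).2, mul_zero]

/-- rounding of the smoothed charge -/
noncomputable def adj (B : Bod n) (k : ℕ) (a : Item n) (T : Finset (Vx n)) : Item n :=
  mov a T (fun b => round (pr a.ρ (bump B k b))) (T.card / 2)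

lemma adj_res (hT : ∀ b ∈ T, B.pi b = b ∧ B.ka b = k + 1) (a : Item n) {b : Vx n} (hb : b ∈ T) :
    |pr (adj B (k + 1) a T).ρ (bump B (k + 1) b)| ≤ 1 / 2 := by
  rw [adj, pr_mov, sum_eq_single_of_mem b hb, bump_one (by simp), mul_one]
  · exact abs_sub_round _
  · intro b' hb' hne
    rw [one_bump hT hb' hb hne.symm (x := b') (by simp [rr_pos]) (by simp), mul_zero]

lemma BL.adj {a : Item n} (h : BL B k a) (h0 : 0 ≤ a.nm)
    (hT : ∀ b ∈ T, B.pi b = b ∧ B.ka b = k + 1) : BL B (k + 1) (adj B (k + 1) a T) := by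
  rcases T.eq_empty_or_nonempty with rfl | ⟨b0, hb0⟩
  · intro f s L hL hs h1 h2
    have := h.succ h0 f s L hL hs (fun x hx => h1 x (mem_union_left _ hx))
      fun x hx y hy => h2 x (mem_union_left _ hx) y (mem_union_left _ hy)
    simpa [FB.adj, pr_mov, FB.mov] using this
  intro f s L hL hs h1 h2
  have p := rr_posR k
  have e : (rr (k + 1) : ℝ) = 64 * rr k := by exact_mod_cast rr_succ k
  have p1 := rr_posR (k + 1)
  have p2 := mul_nonneg p.le hL
  have s0 : 0 ≤ s := le_trans (by positivity) hs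
  set G : Vx n → ℝ := fun x => ∑ b ∈ T, f b * bump B (k + 1) b x with hG
  have fb : ∀ b ∈ T, |f b| ≤ s := fun b hb => h1 b (mem_union_right _ hb)
  have g1 : ∀ x y, |G x - G y| ≤ 16 * s / rr (k + 1) * ds x y := by
    intro x y
    have := path G y n (θ := s * (8 / rr (k + 1))) (by positivity) (fun e he _ _ => by
      rcases sum_bump hT f (ds_edge he) with c | ⟨b, hb, -, c⟩
      · simp only [hG, c _ (Or.inl rfl), c _ (Or.inr rfl), sub_self, norm_zero]; positivity
      · simp only [hG, c _ (Or.inl rfl), c _ (Or.inr rfl), ← mul_sub, Real.norm_eq_abs, abs_mul]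
        exact mul_le_mul (fb b hb) (bump_lip _ _ he) (abs_nonneg _) s0) x (ds_le _ _)
    rw [ds_comm y x] at this
    exact this.trans (le_of_eq (by ring))
  have := h (fun x => f x + -1 * G x) (s + 16 * (rr k * L)) (L + 16 * s / rr (k + 1))
    (by positivity) (by
      have : rr k * (16 * s / rr (k + 1)) = s / 4 := by rw [e]; field_simp; ring
      rw [mul_add, this]; linarith) (fun x hx => by
      have hx' := h1 x (mem_union_left _ hx)
      rcases sum_bump hT f (x := x) (y := x) (by simp) with c | ⟨b, hb, d, c⟩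
      · simp only [hG, c _ (Or.inl rfl), mul_zero, add_zero]; linarith
      · simp only [hG, c _ (Or.inl rfl)]
        have a1 := abs_le.1 (h2 x (mem_union_left _ hx) b (mem_union_right _ hb))
        have a2 : 4 * (ds x b : ℝ) ≤ rr (k + 1) := by
          rw [ds_comm]; exact_mod_cast (d.elim id id).le
        have a3 : L * ds x b ≤ 16 * (rr k * L) := by nlinarith
        have a4 := bump_nonneg (B := B) (k + 1) b x
        have a5 := bump_le (B := B) (k + 1) b x
        have a6 := abs_le.1 hx'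
        refine abs_le.2 ⟨?_, ?_⟩ <;> nlinarith) (fun x hx y hy => by
      have a1 := abs_le.1 (h2 x (mem_union_left _ hx) y (mem_union_left _ hy))
      have a2 := abs_le.1 (g1 x y)
      rw [add_mul]
      exact abs_le.2 ⟨by linarith, by linarith⟩)
  rw [pr_add'] at this
  have e2 : pr a.ρ G = ∑ b ∈ T, f b * pr a.ρ (bump B (k + 1) b) := by
    simp only [pr, hG, mul_sum]
    rw [sum_comm]
    exact sum_congr rfl fun b _ => sum_congr rfl fun x _ => by ring
  have e3 : pr (FB.adj B (k + 1) a T).ρ f = pr a.ρ f + -1 * pr a.ρ G +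
      ∑ b ∈ T, f b * (pr a.ρ (bump B (k + 1) b) - round (pr a.ρ (bump B (k + 1) b))) := by
    rw [FB.adj, pr_mov, e2]
    simp only [mul_sub, sum_sub_distrib, mul_comm (f _) ((round _ : ℤ) : ℝ)]
    ring
  have a3 : |∑ b ∈ T, f b * (pr a.ρ (bump B (k + 1) b) - round (pr a.ρ (bump B (k + 1) b)))| ≤
      T.card * (s * (1 / 2)) := by
    rw [← nsmul_eq_mul]
    refine (abs_sum_le_sum_abs _ _).trans (sum_le_card_nsmul _ _ _ fun b hb => ?_)
    rw [abs_mul]
    exact mul_le_mul (fb b hb) (abs_sub_round _) (abs_nonneg _) s0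
  rw [e3]
  refine (abs_add_le _ _).trans ((add_le_add this a3).trans ?_)
  have b1 := sig_jump (hT b0 hb0).2
  have b2 : lev B (k + 1) = k + 1 := by rw [← (hT b0 hb0).2, lev_eq]
  have b3 := sig_le (B := B) k
  have b4 : (rr (lev B k) : ℝ) ≤ rr k := by exact_mod_cast rr_mono (lev_le k)
  have b5 := one_le_sig (B := B) (k + 1)
  have b6 : sig B k * (s + 16 * (rr k * L)) + rr (lev B k) * (L + 16 * s / rr (k + 1)) ≤
      sig B (k + 1) * s + rr (k + 1) * L := by
    have : rr (lev B k) * (16 * s / rr (k + 1)) = 16 * rr (lev B k) / rr (k + 1) * s := by ring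
    rw [mul_add, mul_add, this]
    nlinarith [mul_le_mul_of_nonneg_right b1 s0]
  have b7 : (0 : ℝ) ≤ T.card := Nat.cast_nonneg _
  have b8 : s ≤ sig B (k + 1) * s + rr (k + 1) * L := by nlinarith [mul_nonneg p1.le hL]
  simp only [FB.adj, FB.mov, b2, add_mul]
  nlinarith [mul_le_mul_of_nonneg_left b6 h0, mul_le_mul_of_nonneg_left b8 b7]

end adj

/-- the charge of a body that has just been expanded -/
def lone (k : ℕ) (b : Vx n) (q : ℕ) (z : ℝ) : Item n where
  S := {b}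
  ρ := fun y => if y = b then q else 0
  z := z
  sg := one1 k b
  w := q
  nm := q

lemma pr_lone (k : ℕ) (b : Vx n) (q : ℕ) (z : ℝ) (f : Vx n → ℝ) :
    pr (lone k b q z).ρ f = q * f b := by
  simp only [lone, pr]
  rw [sum_eq_single b] <;> simp +contextual

lemma ok_lone {K : ℕ} {b : Vx n} (hb : B.pi b = b) (hK : B.ka b < K) {q : ℕ} (hq : 1 ≤ q) (z : ℝ) :
    Ok B K b (lone (B.ka b) b q z) (B.ka b + 1) := by
  have q1 : (1 : ℝ) ≤ q := by exact_mod_cast hq
  refine ⟨by simp [lone], Nat.lt_succ_self _, by simp +contextual [lone], fun i c hc => ?_,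
    rep_sep hb, ?_, ?_, q1, by simp [lone]⟩
  · obtain ⟨rfl, rfl⟩ := one1_ne hc
    simp [lone]
  · simp only [lone]
    rw [nb_one1 hK]; linarith
  · rw [pr_lone]
    simp only [lone]
    rw [sw_one1 hK, bump_one (by simp), mul_one]

lemma bl_lone (j k : ℕ) (b : Vx n) (q : ℕ) (z : ℝ) : BL B j (lone k b q z) := by
  intro f s L hL hs h1 _
  have a1 := h1 b (mem_singleton_self _)
  have a2 := one_le_sig (B := B) j
  have a3 := rr_posR (lev B j)
  have a4 := (abs_nonneg _).trans a1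
  rw [pr_lone, abs_mul, Nat.abs_cast]
  exact mul_le_mul_of_nonneg_left (by nlinarith [mul_nonneg a3.le hL]) (Nat.cast_nonneg _)

/-- merging with the charge of a body that the item touches -/
noncomputable def tch (a : Item n) (k : ℕ) (b : Vx n) (q : ℕ) (z : ℝ) (s : ℤ) : Item n :=
  { mrg a (lone k b q z) s with S := a.S, w := a.w + q / 2 }

lemma Ok.tch {K : ℕ} {g b : Vx n} {a : Item n} (ha : Ok B K g a (B.ka b + 1)) (hb : B.pi b = b)
    (hK : B.ka b < K) {q : ℕ} (hq : 1 ≤ q) (z : ℝ) {s : ℤ} (hs : s = 1 ∨ s = -1) (h1 : b ∈ a.S)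
    (h2 : |pr a.ρ (bump B (B.ka b) b)| ≤ 1 / 2)
    (h3 : ∀ c, a.sg (B.ka b) c ≠ 0 → rr (B.ka b) ≤ ds c b) :
    Ok B K g (tch a (B.ka b) b q z s) (B.ka b + 1) := by
  have q1 : (1 : ℝ) ≤ q := by exact_mod_cast hq
  refine ⟨ha.mem, ha.anc, fun x hx => ?_, fun i c hc => ?_, ?_, ?_, ?_, ?_, ?_⟩
  · by_cases h0 : x = b
    · exact h0 ▸ h1
    · exact ha.supp x (by simpa [FB.tch, FB.mrg, lone, h0] using hx)
  · rcases add_ne hc with h0 | h0
    · exact ha.cen i c h0
    · obtain ⟨rfl, rfl⟩ := one1_ne h0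
      exact ⟨h1, Nat.lt_succ_self _⟩
  · refine ha.sep.add (rep_sep hb) hs fun i c c' a1 a2 => ?_
    obtain ⟨rfl, rfl⟩ := one1_ne a2
    exact h3 c a1
  · refine (nb_add K _ _ hs).trans ?_
    simp only [FB.tch, lone]
    rw [nb_one1 hK]
    linarith [ha.nbw]
  · have e : sw B K (fun i c => a.sg i c + s * one1 (B.ka b) b i c) =
      fun x => sw B K a.sg x + (s : ℝ) * bump B (B.ka b) b x := by
        ext x; rw [sw_add, sw_one1 hK]
    have e0 : sw B K a.sg b = 0 := sw_zero K fun i c hc => by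
      rcases (Nat.lt_succ_iff.1 (ha.cen i c hc).2).eq_or_lt with rfl | h
      · have := h3 c hc; omega
      · exact ha.sep.free i c b hc h
    change a.w + q / 2 ≤ pr (fun x => a.ρ x + s * (lone (B.ka b) b q z).ρ x)
      (sw B K fun i c => a.sg i c + s * one1 (B.ka b) b i c)
    rw [e, pr_add, pr_lone, pr_add', e0, bump_one (by simp)]
    have a1 := ha.gain
    have a2 := abs_le.1 h2
    rcases hs with rfl | rfl <;> simp <;> linarith
  · simp only [FB.tch]; linarith [ha.one]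
  · simp only [FB.tch, FB.mrg, lone]; linarith [ha.nm0]

lemma BL.tch {j k : ℕ} {a : Item n} {b : Vx n} (ha : BL B j a) (q : ℕ) (z : ℝ) {s : ℤ}
    (hs : s = 1 ∨ s = -1) (h1 : b ∈ a.S) : BL B j (tch a k b q z s) := by
  intro f t L hL ht a1 a2
  have e : a.S ∪ {b} = a.S := union_eq_left.2 (singleton_subset_iff.2 h1)
  exact (ha.mrg (bl_lone j k b q z) hs) f t L hL ht (fun x hx => a1 x (e ▸ hx))
    fun x hx y hy => a2 x (e ▸ hx) y (e ▸ hy)

end Pool.Agent.Lib.MP_9cc147_pr.FB
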