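import Pool.Agent.Lib.MP_9cc147_pr.BItem

/-! Packing numbers at a doubled radius, facts on bodies, potential. -/

open Finset

namespace Pool.Agent.Lib.MP_9cc147_pr.FB

variable {n : ℕ}

open Classical in
noncomputable def Pq (k : ℕ) (S : Finset (Vx n)) : ℕ :=
  (S.powerset.filter (Spr (2 * rr k))).sup card

lemma le_Pq {k : ℕ} {S T : Finset (Vx n)} (h : T ⊆ S) (hT : Spr (2 * rr k) T) :
    T.card ≤ Pq k S := by
  classical
  exact le_sup (f := card) (mem_filter.2 ⟨mem_powerset.2 h, hT⟩)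

lemma Pq_spec (k : ℕ) (S : Finset (Vx n)) : ∃ T ⊆ S, Spr (2 * rr k) T ∧ T.card = Pq k S := by
  classical
  obtain ⟨T, hT, h⟩ := exists_mem_eq_sup (S.powerset.filter (Spr (2 * rr k)))
    ⟨∅, mem_filter.2 ⟨by simp, by simp [Spr]⟩⟩ card
  rw [mem_filter, mem_powerset] at hT
  exact ⟨T, hT.1, hT.2, h.symm⟩

lemma one_le_Pq (k : ℕ) {S : Finset (Vx n)} {g : Vx n} (h : g ∈ S) : 1 ≤ Pq k S := by
  simpa using le_Pq (k := k) (singleton_subset_iff.2 h) (by simp [Spr])

lemma Pq_union (k : ℕ) (S S' : Finset (Vx n)) : Pq k (S ∪ S') ≤ Pq k S + Pq k S' := by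
  obtain ⟨T, h1, h2, h3⟩ := Pq_spec k (S ∪ S')
  have a1 : (T ∩ S).card ≤ Pq k S := le_Pq inter_subset_right
    fun p hp q hq => h2 p (mem_inter.1 hp).1 q (mem_inter.1 hq).1
  have a2 : (T ∩ S').card ≤ Pq k S' := le_Pq inter_subset_right
    fun p hp q hq => h2 p (mem_inter.1 hp).1 q (mem_inter.1 hq).1
  have a3 : T = T ∩ S ∪ T ∩ S' := by rw [← inter_union_distrib_left, inter_eq_left.2 h1]
  have a4 := card_union_le (T ∩ S) (T ∩ S')
  rw [← a3] at a4
  omega

lemma Pq_le_card (k : ℕ) (S : Finset (Vx n)) : Pq k S ≤ S.card := by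
  obtain ⟨T, h1, -, h3⟩ := Pq_spec k S
  exact h3 ▸ card_le_card h1

lemma Pq_small {j k : ℕ} {S : Finset (Vx n)} (h : ∀ p ∈ S, ∀ q ∈ S, ds p q < 2 * rr j)
    (hjk : j ≤ k) : Pq k S ≤ 1 := by
  obtain ⟨T, h1, h2, h3⟩ := Pq_spec k S
  rw [← h3]
  refine card_le_one.2 fun a ha b hb => ?_
  by_contra hab
  have := h2 a ha b hb hab
  have := h a (h1 ha) b (h1 hb)
  have := rr_mono hjk
  omega

lemma Pq_cover (k : ℕ) (S : Finset (Vx n)) :
    ∃ T : Finset (Vx n), T.card = Pq k S ∧ ∀ p ∈ S, ∃ t ∈ T, ds t p < 2 * rr k := by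
  obtain ⟨T, h1, h2, h3⟩ := Pq_spec k S
  refine ⟨T, h3, fun p hp => ?_⟩
  by_contra hc
  push Not at hc
  have hpT : p ∉ T := fun h => by have := hc p h; have := rr_pos k; simp at *; omega
  have := le_Pq (k := k) (insert_subset hp h1) (by
    intro a ha b hb hab
    rcases mem_insert.1 ha with rfl | ha' <;> rcases mem_insert.1 hb with rfl | hb'
    · exact absurd rfl hab
    · rw [ds_comm]; exact hc b hb'
    · exact hc a ha'
    · exact h2 a ha' b hb' hab)
  rw [card_insert_of_notMem hpT] at this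
  omega

/-- a separated set near `S` can be pushed into `S` -/
lemma spr_push {r r' d : ℕ} {S T' : Finset (Vx n)} (hT : Spr r' T')
    (h : ∀ t ∈ T', ∃ p ∈ S, ds p t ≤ d) (hr : r + 2 * d ≤ r') (h0 : 0 < r) :
    ∃ T ⊆ S, Spr r T ∧ T.card = T'.card := by
  choose! f h1 h2 using h
  have far : ∀ a ∈ T', ∀ b ∈ T', a ≠ b → r ≤ ds (f a) (f b) := by
    intro a ha b hb hab
    have := hT a ha b hb hab
    have := h2 a ha
    have := h2 b hb
    have a1 := ds_tri a (f a) b
    have a2 := ds_tri (f a) (f b) b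
    rw [ds_comm a (f a)] at a1
    omega
  refine ⟨T'.image f, fun x hx => ?_, fun x hx y hy hxy => ?_, card_image_of_injOn ?_⟩
  · obtain ⟨a, ha, rfl⟩ := mem_image.1 hx
    exact h1 a ha
  · obtain ⟨a, ha, rfl⟩ := mem_image.1 hx
    obtain ⟨b, hb, rfl⟩ := mem_image.1 hy
    exact far a ha b hb fun e => hxy (e ▸ rfl)
  · intro a ha b hb hab
    by_contra hne
    have := far a ha b hb hne
    rw [hab, ds_self] at this
    omega

lemma Pq_double {k : ℕ} {S S' : Finset (Vx n)} (hc : Conn (2 * rr (k + 1)) S)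
    (hl : ¬ Small (k + 1) S) (hS : ∀ t ∈ S', ∃ p ∈ S, ds p t ≤ rr (k + 1)) :
    2 * Pq (k + 2) S' ≤ Pq k S := by
  obtain ⟨T', g1, g2, g3⟩ := Pq_spec (k + 2) S'
  have e1 := rr_succ k
  have e2 : rr (k + 2) = 64 * rr (k + 1) := rr_succ (k + 1)
  have e0 := rr_pos k
  obtain ⟨T, h1, h2, h3⟩ := spr_push (r := 100 * rr (k + 1)) g2 (fun t ht => hS t (g1 ht))
    (by omega) (by omega)
  have : ∀ t ∈ S, ∃ q ∈ S, 2 * rr k ≤ ds t q ∧ ds t q < 2 * rr k + 2 * rr (k + 1) := by
    intro t ht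
    obtain ⟨p, hp, q, hq, hq', hd⟩ := hc (S.filter fun x => ds t x < 2 * rr k) (filter_subset _ _)
      ⟨t, by simp [ht, e0]⟩ (by
        intro e
        apply hl
        intro a ha b hb
        rw [← e, mem_filter] at ha hb
        have := ds_tri a t b
        rw [ds_comm a t] at this
        omega)
    rw [mem_filter] at hp hq'
    have := ds_tri t p q
    exact ⟨q, hq, by simpa [hq] using hq', by omega⟩
  choose! f hf1 hf2 hf3 using this
  have far : ∀ a ∈ T, ∀ b ∈ T, a ≠ b → 2 * rr k ≤ ds a (f b) ∧ 2 * rr k ≤ ds (f a) (f b) := by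
    intro a ha b hb hab
    have := h2 a ha b hb hab
    have := hf3 a (h1 ha)
    have := hf3 b (h1 hb)
    have a1 := ds_tri a (f b) b
    have a2 := ds_tri a (f a) (f b)
    rw [ds_comm (f b) b] at a1
    omega
  have far' : ∀ a ∈ T, ∀ b ∈ T, 2 * rr k ≤ ds a (f b) := by
    intro a ha b hb
    by_cases hab : a = b
    · subst hab; exact hf2 a (h1 ha)
    · exact (far a ha b hb hab).1
  have inj : Set.InjOn f T := by
    intro a ha b hb hab
    by_contra hne
    have := (far a ha b hb hne).2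
    rw [hab, ds_self] at this
    omega
  have dj : Disjoint T (T.image f) := by
    rw [disjoint_left]
    intro a ha hb
    obtain ⟨b, hb', rfl⟩ := mem_image.1 hb
    have := far' _ ha b hb'
    rw [ds_self] at this
    omega
  have := le_Pq (k := k) (S := S) (T := T ∪ T.image f) (union_subset h1 (by
    intro a ha
    obtain ⟨b, hb, rfl⟩ := mem_image.1 ha
    exact hf1 b (h1 hb))) (by
    intro a ha b hb hab
    rcases mem_union.1 ha with ha | ha <;> rcases mem_union.1 hb with hb | hb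
    · have := h2 a ha b hb hab
      omega
    · obtain ⟨b, hb', rfl⟩ := mem_image.1 hb
      exact far' a ha b hb'
    · obtain ⟨a, ha', rfl⟩ := mem_image.1 ha
      rw [ds_comm]; exact far' b hb a ha'
    · obtain ⟨b, hb', rfl⟩ := mem_image.1 hb
      obtain ⟨a, ha', rfl⟩ := mem_image.1 ha
      exact (far a ha' b hb' fun e => hab (e ▸ rfl)).2)
  rw [card_union_of_disjoint dj, card_image_of_injOn inj] at this
  omega

lemma terr_card {k : ℕ} {S U : Finset (Vx n)} {S0 : Vx n → Finset (Vx n)}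
    (hf : ∀ c ∈ U, ∀ c' ∈ U, c ≠ c' → Far (rr k) (S0 c) (S0 c'))
    (hU : ∀ c ∈ U, ∃ p ∈ S0 c, ∃ q ∈ S, ds p q < 2 * rr (k + 1)) :
    U.card ≤ 263169 * Pq (k + 1) S := by
  obtain ⟨T, h1, h2⟩ := Pq_cover (k + 1) S
  have : ∀ c ∈ U, ∃ p ∈ S0 c, ∃ t ∈ T, ds t p ≤ 256 * rr k := by
    intro c hc
    obtain ⟨p, hp, q, hq, hd⟩ := hU c hc
    obtain ⟨t, ht, hd'⟩ := h2 q hq
    have := ds_tri t q p
    rw [ds_comm q p] at this
    have := rr_succ k
    exact ⟨p, hp, t, ht, by omega⟩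
  choose! p hp t ht hd using this
  have e0 := rr_pos k
  have inj : Set.InjOn p U := by
    intro a ha b hb hab
    by_contra hne
    have := hf a ha b hb hne _ (hp a ha) _ (hp b hb)
    rw [hab, ds_self] at this
    omega
  rw [← h1]
  refine card_le_mul_card_image_of_maps_to ht 263169 fun b _ => ?_
  rw [← card_image_of_injOn (f := p) (inj.mono (by simp [Set.subset_def]; tauto))]
  refine packing _ b 256 e0 ?_ ?_
  · intro x hx
    obtain ⟨c, hc, rfl⟩ := mem_image.1 hx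
    rw [mem_filter] at hc
    rw [← hc.2]; exact hd c hc.1
  · intro x hx y hy hxy
    obtain ⟨c, hc, rfl⟩ := mem_image.1 hx
    obtain ⟨c', hc', rfl⟩ := mem_image.1 hy
    rw [mem_filter] at hc hc'
    exact hf c hc.1 c' hc'.1 (fun e => hxy (e ▸ rfl)) _ (hp c hc.1) _ (hp c' hc'.1)

lemma conn_ext {r : ℕ} {S T : Finset (Vx n)} (h : Conn r S) (hT : ∀ q ∈ T, ∃ p ∈ S, ds p q < r) :
    Conn r (S ∪ T) := by
  induction T using Finset.induction_on with
  | empty => simpa using h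
  | insert q T _ ih =>
    obtain ⟨p, hp, hd⟩ := hT q (mem_insert_self _ _)
    have := (ih fun q hq => hT q (mem_insert_of_mem hq)).union (S' := {q}) (fun T h1 h2 h3 => by
      rcases subset_singleton_iff.1 h1 with rfl | rfl
      · simp at h2
      · exact absurd rfl h3) (mem_union_left _ hp) (mem_singleton_self q) hd
    rwa [union_assoc, union_comm T, ← insert_eq] at this

/-! ### bodies -/

variable {B : Bod n}

/-- a body is far from every other body of at least its level -/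
lemma sep_far {x y : Vx n} (h0 : B.ka x ≠ 0) (h : B.ka x ≤ B.ka y) (hne : B.pi x ≠ B.pi y) :
    4096 * rr (B.ka x) ≤ ds x y ∧ rr (B.ka x + B.ka x / 4 + 1) ≤ ds x y := by
  have h1 := B.sep x y h0 h hne
  have h2 := B.low x h0
  have h3 : rr (B.ka x + 2) ≤ rr (B.ka x + B.ka x / 4 + 1) := rr_mono (by omega)
  have h4 : rr (B.ka x + 2) = 64 * rr (B.ka x + 1) := rr_succ (B.ka x + 1)
  have h5 := rr_succ (B.ka x)
  exact ⟨by omega, h1⟩

lemma pi_ne {x y : Vx n} (h : B.ka x ≠ B.ka y) : B.pi x ≠ B.pi y := fun e =>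
  h (by rw [← B.kpi x, e, B.kpi])

lemma rep_far {b x : Vx n} (hb : B.pi b = b) (h : B.ka b ≤ B.ka x) (hne : b ≠ B.pi x) :
    rr (B.ka b) ≤ ds b x := by
  by_cases h0 : B.ka b = 0
  · rw [h0]
    exact ds_pos fun e => hne (by rw [← e, hb])
  · have := (sep_far h0 h (by rwa [hb])).1
    omega

/-- representatives of level `k` -/
def Rp (B : Bod n) (k : ℕ) (S : Finset (Vx n)) : Finset (Vx n) :=
  S.filter fun x => B.pi x = x ∧ B.ka x = k ∧ k ≠ 0

/-- allowance of a lonely body -/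
def al (B : Bod n) (k : ℕ) (S : Finset (Vx n)) : ℕ :=
  S.sup fun x => if S = {x} ∧ B.pi x = x ∧ B.ka x ≠ 0 then k - 10 * (k - B.ka x) else 0

lemma al_le (k : ℕ) (S : Finset (Vx n)) : al B k S ≤ k :=
  Finset.sup_le fun x _ => by split_ifs <;> omega

lemma al_succ (k : ℕ) (S : Finset (Vx n)) : al B k S ≤ al B (k + 1) S + 9 := by
  refine Finset.sup_le fun x hx => ?_
  have := le_sup (f := fun x => if S = {x} ∧ B.pi x = x ∧ B.ka x ≠ 0 then
    k + 1 - 10 * (k + 1 - B.ka x) else 0) hx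
  unfold al
  split_ifs at this ⊢ <;> omega

lemma al_pos {k : ℕ} {S : Finset (Vx n)} (h : al B k S ≠ 0) :
    ∃ x, S = {x} ∧ B.pi x = x ∧ B.ka x ≠ 0 ∧ 9 * k < 10 * B.ka x := by
  by_contra hc
  push Not at hc
  refine h (Nat.le_zero.1 (Finset.sup_le fun x _ => ?_))
  split_ifs with h1
  · have := hc x h1.1 h1.2.1 h1.2.2; omega
  · rfl

lemma al_single {b : Vx n} (hb : B.pi b = b) : al B (B.ka b) {b} = B.ka b := by
  unfold al
  rw [sup_singleton]
  split_ifs with h
  · omega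
  · simpa [hb, eq_comm] using h

/-- no allowance close to another body -/
lemma al_zero {k : ℕ} {S : Finset (Vx n)} {p y : Vx n} (hp : p ∈ S) (hd : ds p y < 2 * rr (k + 1))
    (h1 : B.ka p ≤ B.ka y) (h2 : p ≠ B.pi y) : al B k S = 0 := by
  by_contra hc
  obtain ⟨x, rfl, a1, a2, a3⟩ := al_pos hc
  obtain rfl := mem_singleton.1 hp
  have b1 := (sep_far a2 h1 (by rwa [a1])).2
  have b2 := B.low p a2
  have b3 : rr (k + 2) ≤ rr (B.ka p + B.ka p / 4 + 1) := rr_mono (by omega)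
  have b4 : rr (k + 2) = 64 * rr (k + 1) := rr_succ (k + 1)
  omega

/-- last level of a body -/
def lev (B : Bod n) (k : ℕ) : ℕ := (univ.filter fun x => B.ka x ≤ k).sup B.ka

lemma lev_le (k : ℕ) : lev B k ≤ k := Finset.sup_le fun _ hx => (mem_filter.1 hx).2

lemma lev_mono (k : ℕ) : lev B k ≤ lev B (k + 1) :=
  sup_mono fun _ hx => mem_filter.2 ⟨mem_univ _, (mem_filter.1 hx).2.trans (Nat.le_succ _)⟩

lemma lev_eq (x : Vx n) : lev B (B.ka x) = B.ka x :=
  le_antisymm (lev_le _) (le_sup (f := B.ka) (mem_filter.2 ⟨mem_univ _, le_rfl⟩))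

lemma lev_gap {k : ℕ} {x : Vx n} (hx : B.ka x = k + 1) : 7 * lev B k + 12 ≤ 6 * (k + 1) := by
  have h1 := B.low x (by omega)
  by_cases h0 : lev B k = 0
  · omega
  · obtain ⟨y, hy, e⟩ := exists_mem_eq_sup (univ.filter fun x => B.ka x ≤ k) (by
      by_contra hc
      rw [not_nonempty_iff_eq_empty] at hc
      exact h0 (by rw [lev, hc]; rfl)) B.ka
    have e' : lev B k = B.ka y := e
    have := B.low y (by omega)
    have := B.gap y x (by have := (mem_filter.1 hy).2; omega)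
    omega

noncomputable def sig (B : Bod n) (k : ℕ) : ℝ := 1.01 - 0.01 / 2 ^ lev B k

lemma one_le_sig (k : ℕ) : 1 ≤ sig B k := by
  have : (0.01 : ℝ) / 2 ^ lev B k ≤ 0.01 := div_le_self (by norm_num) (one_le_pow₀ one_le_two)
  unfold sig; linarith

lemma sig_le (k : ℕ) : sig B k ≤ 1.01 := by
  have : (0 : ℝ) ≤ 0.01 / 2 ^ lev B k := by positivity
  unfold sig; linarith

lemma sig_mono (k : ℕ) : sig B k ≤ sig B (k + 1) := by
  have : (0.01 : ℝ) / 2 ^ lev B (k + 1) ≤ 0.01 / 2 ^ lev B k := by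
    gcongr
    · norm_num
    · exact lev_mono k
  unfold sig; linarith

lemma sig_jump {k : ℕ} {x : Vx n} (hx : B.ka x = k + 1) :
    sig B k + 16 * rr (lev B k) / rr (k + 1) ≤ sig B (k + 1) := by
  have h1 := lev_gap hx
  have h2 := lev_le (B := B) k
  have h3 : lev B (k + 1) = k + 1 := by rw [← hx, lev_eq]
  set l := lev B k with hl
  have a1 : (0.01 : ℝ) / 2 ^ (k + 1) ≤ 0.005 / 2 ^ l := by
    rw [div_le_div_iff₀ (by positivity) (by positivity)]
    have : (2 : ℝ) ^ (l + 1) ≤ 2 ^ (k + 1) := pow_le_pow_right₀ one_le_two (by omega)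
    rw [pow_succ] at this
    linarith
  have a2 : 16 * (rr l : ℝ) / rr (k + 1) ≤ 0.005 / 2 ^ l := by
    rw [div_le_div_iff₀ (rr_posR _) (by positivity)]
    have : (2 : ℝ) ^ (7 * l + 12) ≤ 2 ^ (6 * (k + 1)) := pow_le_pow_right₀ one_le_two h1
    have e1 : (rr (k + 1) : ℝ) = 2 ^ (6 * (k + 1)) := by rw [pow_mul]; simp [rr]; norm_num
    have e2 : (rr l : ℝ) * 2 ^ l * 4096 = 2 ^ (7 * l + 12) := by
      rw [show 7 * l + 12 = 6 * l + l + 12 by ring, pow_add, pow_add, pow_mul]; simp [rr]; norm_num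
    have : 0 ≤ (rr l : ℝ) * 2 ^ l := by positivity
    linarith
  unfold sig
  rw [h3, ← hl]
  have : (0.01 : ℝ) / 2 ^ l = 2 * (0.005 / 2 ^ l) := by ring
  linarith

end Pool.Agent.Lib.MP_9cc147_pr.FB
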