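import Pool.Agent.Lib.MP_9cc147_pr.BStep

/-! Renormalised activity of one neutral charge density, with rigid bodies. -/

open Finset Complex Metric MeasureTheory Filter
open scoped ComplexConjugate Real

namespace Pool.Agent.Lib.MP_9cc147_pr.FB

variable {n : ℕ} {B : Bod n}

lemma spec_card {Y : ℝ} {K : ℕ} {it : Vx n → Item n} {sc : Vx n → ℕ} {R T : Finset (Vx n)}
    (hR : Ret B Y K it sc R) (hT : T ⊆ R) (hs : ∀ τ ∈ T, Spec (sc τ) τ) (j : ℕ) :
    ((T.filter fun τ => sc τ = j).card : ℝ) ≤ 2 := by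
  have one : ∀ x : Vx n, (T.filter fun τ => sc τ = j ∧ 2 * ds τ x < rr j).card ≤ 1 := by
    intro x
    refine card_le_one.2 fun a ha b hb => ?_
    simp only [mem_filter] at ha hb
    by_contra hab
    have := hR.far a (hT ha.1) b (hT hb.1) hab (by omega) a (hR.ok a (hT ha.1)).mem b
      (hR.ok b (hT hb.1)).mem
    have h1 := (hR.ok b (hT hb.1)).anc
    have h2 := ds_tri a x b
    rw [ds_comm x b] at h2
    rw [ha.2.1] at this
    omega
  have : (T.filter fun τ => sc τ = j) ⊆ (T.filter fun τ => sc τ = j ∧ 2 * ds τ (vz n) < rr j) ∪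
      (T.filter fun τ => sc τ = j ∧ 2 * ds τ (vl n) < rr j) := by
    intro τ hτ
    rw [mem_filter] at hτ
    have := hs τ hτ.1
    rw [hτ.2] at this
    simp only [mem_union, mem_filter]
    exact this.imp (fun h => ⟨hτ.1, hτ.2, h⟩) fun h => ⟨hτ.1, hτ.2, h⟩
  have h3 := (card_le_card this).trans (card_union_le _ _)
  have h4 := one (vz n)
  have h5 := one (vl n)
  exact_mod_cast (by omega : (T.filter fun τ => sc τ = j).card ≤ 2)

section one

variable {K : ℕ} {it : Vx n → Item n} {sc : Vx n → ℕ} {R : Finset (Vx n)} {g : Vx n}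
  {W : ℂ → ℂ} {Y b : ℝ} {T : Finset (Vx n)} {Z : Vx n → ℝ → (Vx n → ℂ) → ℂ}

structure Ctx (B : Bod n) (K : ℕ) (it : Vx n → Item n) (sc : Vx n → ℕ) (R : Finset (Vx n))
    (g : Vx n) (Y : ℝ) (T : Finset (Vx n)) (Z : Vx n → ℝ → (Vx n → ℂ) → ℂ) : Prop where
  ret : Ret B Y K it sc R
  mem : g ∈ R
  sub : ∀ τ ∈ T, τ ∈ R ∧ τ ≠ g ∧ sc τ ≤ sc g ∧ Tch B K (it g).sg (sc τ) τ
  nice : ∀ τ ∈ T, Nice Y (sc τ) τ (Z τ)

lemma Ctx.hf (h : Ctx B K it sc R g Y T Z) : ∀ τ ∈ T, ∀ i c, (it g).sg i c ≠ 0 → i ≤ sc τ →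
    rr (sc τ) ≤ 2 * ds c τ := by
  intro τ hτ i c hc hi
  obtain ⟨h1, h2, h3, -⟩ := h.sub τ hτ
  rcases h.ret.far τ h1 g h.mem h2 h3 τ (h.ret.ok τ h1).mem c
    ((h.ret.ok g h.mem).cen i c hc).1 with h4 | h4
  · rw [ds_comm c τ]; omega
  · have := (h.ret.ok g h.mem).sep.free i c c hc (by omega)
    have := rr_pos i
    simp only [ds_self] at *
    omega

lemma Ctx.tch (h : Ctx B K it sc R g Y T Z) {τ : Vx n} (hτ : τ ∈ T) :
    ∃ m, sc τ < m ∧ m < sc g ∧ 8 * ds g τ ≤ rr (sc g) ∧ blk (sc τ) τ ⊆ blk (sc g) g ∧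
      ∀ e ∈ blk (sc τ) τ, |nw B K (it g).sg e.1 - nw B K (it g).sg e.2| ≤ 17 / rr m := by
  obtain ⟨h1, h2, h3, h4⟩ := h.sub τ hτ
  have ok := h.ret.ok g h.mem
  obtain ⟨m, -, c, hc, a1, a2, a3⟩ := tch_data K ok.sep (h.ret.pos τ h1) h4 (h.hf τ hτ)
  have a4 := ok.cen m c hc
  have a5 := h.ret.sm g h.mem g ok.mem c a4.1
  have a6 := rr_lt a1
  have a7 := rr_lt a4.2
  have a8 := rr_pos (sc τ)
  have a9 := ds_tri g c τ
  refine ⟨m, a1, a4.2, by omega, fun e he => ?_, a3⟩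
  rw [blk, mem_filter] at he ⊢
  have := ds_tri g τ e.1
  have := ds_tri g τ e.2
  exact ⟨he.1, by omega, by omega⟩

lemma near_blk (hR : Ret B Y K it sc R) (hg : g ∈ R) {i : ℕ} {c : Vx n} {e : Vx n × Vx n}
    (he : e ∈ Ed n) (hc : (it g).sg i c ≠ 0) (hn : near i c e) : e ∈ blk (sc g) g := by
  have ok := hR.ok g hg
  have a4 := ok.cen i c hc
  have a5 := hR.sm g hg g ok.mem c a4.1
  have a7 := rr_lt a4.2
  have a8 := rr_pos i
  have := near_ds he hn
  have := ds_tri g c e.1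
  have := ds_tri g c e.2
  rw [blk, mem_filter]
  exact ⟨he, by omega, by omega⟩

lemma act_blk (hR : Ret B Y K it sc R) (hg : g ∈ R) : act B K (it g).sg ⊆ blk (sc g) g := by
  intro e he
  rw [act, mem_filter] at he
  obtain ⟨i, -, c, hc, hn⟩ := sw_grad_ne K he.2
  exact near_blk hR hg he.1 hc hn

lemma Ctx.tub (h : Ctx B K it sc R g Y T Z) (hY : 1 ≤ Y) {τ : Vx n} (hτ : τ ∈ T) {φ : Vx n → ℂ}
    (hφ : φ ∈ tube Y (sc g) g) {t : ℝ} (ht : |t| ≤ Y) :
    φ ∈ tube Y (sc τ) τ ∧ sh φ (nw B K (it g).sg) (t * I) ∈ tube Y (sc τ) τ := by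
  obtain ⟨m, a1, a2, -, a4, a5⟩ := h.tch hτ
  refine ⟨fun e he => (hφ e (a4 he)).trans_le (div_rr_le hY (by omega)), fun e he => ?_⟩
  have := im_sh ((hφ e (a4 he)).le.trans (div_rr_le hY a2.le)) (t := t * I) (B := Y)
    (by simpa using ht) (a5 e he)
  refine this.trans_lt ?_
  have p1 := rr_posR m
  have p2 := rr_posR (sc τ)
  have r2 : 64 * (rr (sc τ) : ℝ) ≤ rr m := by exact_mod_cast rr_lt a1
  rw [← mul_div_assoc, ← add_div, div_lt_div_iff₀ p1 p2]
  nlinarith

lemma Ctx.diff (h : Ctx B K it sc R g Y T Z) (hW : WP W Y b) (hY : 1 ≤ Y) {lam : ℝ}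
    (hl : |lam| ≤ 1 / 2) (ρ : Vx n → ℝ) {t : ℝ} (ht : |t| ≤ Y) :
    DifferentiableOn ℂ (Fac B W K (it g).sg lam ρ T (fun τ => Z τ lam) t) (tube Y (sc g) g) := by
  have hsh : Differentiable ℂ fun φ : Vx n → ℂ => sh φ (nw B K (it g).sg) (t * I) := by
    unfold sh; fun_prop
  unfold Fac
  refine DifferentiableOn.mul (DifferentiableOn.mul (DifferentiableOn.mul_const ?_ _)
    (diffOn_prod fun e he => ?_)) (diffOn_prod fun τ hτ => ?_)
  · unfold prc sh; fun_prop
  · have he' := act_blk h.ret h.mem he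
    have p := div_le_self (by linarith : 0 ≤ Y) (rr_oneR (sc g))
    refine (DifferentiableOn.sub (hW.diff.comp (by unfold gr; fun_prop) fun φ hφ => ?_)
      (hW.diff.comp (by unfold gr sh; fun_prop) fun φ hφ => ?_)).cexp
    · exact (hφ e he').trans (by linarith)
    · exact (im_sh (hφ e he').le (t := t * I) (B := Y) (by simpa using ht)
        (nw_grad K (h.ret.ok g h.mem).sep (blk_sub _ _ he'))).trans_lt (by linarith)
  · have zp := (h.nice τ hτ).zp lam hl
    simp only [div_eq_mul_inv]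
    refine DifferentiableOn.mul (DifferentiableOn.const_add _ ?_) (DifferentiableOn.inv
      (DifferentiableOn.const_add _ ?_) fun φ hφ => one_add_ne hY zp (h.tub hY hτ hφ ht).1)
    · exact zp.diff.comp hsh.differentiableOn fun φ hφ => (h.tub hY hτ hφ ht).2
    · exact zp.diff.mono fun φ hφ => (h.tub hY hτ hφ ht).1

lemma Ctx.bd (h : Ctx B K it sc R g Y T Z) (hW : WP W Y b) (hY : 10 ^ 9 ≤ Y) (hb : 0 ≤ b)
    (hbY : 12000 * b * Y ≤ 1) {lam : ℝ} (hl : |lam| ≤ 1 / 2) {ε : ℝ} (hε : ε = 1 ∨ ε = -1)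
    {φ : Vx n → ℂ} (hφ : φ ∈ tube Y (sc g) g) :
    ‖Fac B W K (it g).sg lam (fun x => ε * (it g).ρ x) T (fun τ => Z τ lam) (ε * Y) φ‖ ≤
      Real.exp (1.05 * Y * (it g).nm - 3 * Y * (it g).w) := by
  classical
  have hY1 : 1 ≤ Y := by linarith
  have ok := h.ret.ok g h.mem
  have ht : |ε * Y| ≤ Y := by
    rcases hε with rfl | rfl <;> simp [abs_of_pos (by linarith : 0 < Y)]
  have hw : (1 : ℝ) ≤ (it g).w := ok.one
  have hn := ok.nm0
  have n0 := nb_nonneg K (it g).sg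
  have n1 := ok.nbw
  have b1 : ‖exp (2 * π * I * prc (fun x => ε * (it g).ρ x)
      (sh φ (nw B K (it g).sg) ((ε * Y : ℝ) * I)))‖ ≤
        Real.exp (1.05 * Y * (it g).nm - 6.28 * Y * (it g).w) := by
    rw [norm_exp]
    refine Real.exp_le_exp.2 ?_
    have e1 : (2 * π * I * prc (fun x => ε * (it g).ρ x)
        (sh φ (nw B K (it g).sg) ((ε * Y : ℝ) * I))).re = -(2 * π * (ε * ∑ x, (it g).ρ x * (φ x).im +
          ε * ε * Y * ∑ x, (it g).ρ x * nw B K (it g).sg x)) := by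
      simp [prc, sh, mul_sum, ← sum_add_distrib]
      refine sum_congr rfl fun x _ => by ring
    have e2 : ε * ε = 1 := by rcases hε with rfl | rfl <;> norm_num
    have e3 : ∑ x, (it g).ρ x * nw B K (it g).sg x = pr (it g).ρ (sw B K (it g).sg) :=
      (neutral_sum (h.ret.neu g h.mem) _ _).symm
    have p := rr_posR (sc g)
    have a1 : |∑ x, (it g).ρ x * (φ x).im| ≤ (it g).nm * (Y / 6) := by
      refine (h.ret.bl g h.mem (fun x => (φ x).im) (2 * (Y / rr (sc g))) (by positivity)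
        fun x hx y hy => ?_).trans (le_of_eq (by field_simp; ring))
      have s1 := h.ret.sm g h.mem g ok.mem x hx
      have s2 := h.ret.sm g h.mem x hx y hy
      have := path (fun x => (φ x).im) x (ds x y) (θ := Y / rr (sc g)) (by positivity)
        (fun e he a1 a2 => by
          have := ds_tri g x e.1
          have := ds_tri g x e.2
          simpa [gr] using (hφ e (mem_filter.2 ⟨he, by omega, by omega⟩)).le) y le_rfl
      rw [Real.norm_eq_abs, abs_sub_comm] at this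
      exact this.trans (le_of_eq (by ring))
    have a2 : -((it g).nm * (Y / 6)) ≤ ε * ∑ x, (it g).ρ x * (φ x).im := by
      have := abs_le.1 a1
      rcases hε with rfl | rfl <;> linarith
    rw [e1, e2, e3]
    have a3 := mul_le_mul_of_nonneg_left ok.gain (by linarith : 0 ≤ Y)
    have a4 : 0 ≤ Y * (it g).w := by positivity
    have a5 : 0 ≤ Y * (it g).nm := by positivity
    have a6 := mul_le_mul_of_nonneg_left (add_le_add a2 a3) Real.two_pi_pos.le
    nlinarith [Real.pi_gt_d2, Real.pi_lt_d2]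
  have b2 : ‖exp (-(lam * (ε * Y) * nw B K (it g).sg (vl n) : ℝ))‖ ≤
      Real.exp (1 / 2 * Y * (2 * (it g).w)) := by
    rw [norm_exp, neg_re, ofReal_re]
    refine Real.exp_le_exp.2 ((neg_le_abs _).trans ?_)
    rw [abs_mul, abs_mul]
    exact mul_le_mul (mul_le_mul hl ht (abs_nonneg _) (by norm_num))
      ((sw_diff_le K _ _ _).trans n1) (abs_nonneg _) (by positivity)
  have b3 := cost_edge hW hb K ok.sep (by linarith) le_rfl ht (φ := φ) fun i c e he hc hn =>
    (hφ e (near_blk h.ret h.mem he hc hn)).le.trans (div_rr_le hY1 (ok.cen i c hc).2.le)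
  have b4 := cost_fine hY1 K ok.sep (by linarith) le_rfl ht (φ := φ)
    (T := T.filter fun τ => ¬ Spec (sc τ) τ) (sc := sc) (Z := fun τ => Z τ lam)
    (fun τ hτ => (h.nice τ (mem_filter.1 hτ).1).zp lam hl)
    (fun τ hτ ψ => by
      rw [(h.nice τ (mem_filter.1 hτ).1).ns (mem_filter.1 hτ).2]
      exact (h.nice τ (mem_filter.1 hτ).1).real ψ)
    (fun τ hτ => h.ret.pos τ (h.sub τ (mem_filter.1 hτ).1).1)
    (fun τ hτ => (h.sub τ (mem_filter.1 hτ).1).2.2.2) (fun τ hτ => h.hf τ (mem_filter.1 hτ).1)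
    (fun τ hτ τ' hτ' hne e => by
      have a1 := (h.sub τ (mem_filter.1 hτ).1).1
      have a2 := (h.sub τ' (mem_filter.1 hτ').1).1
      exact (h.ret.far τ a1 τ' a2 hne e.le τ (h.ret.ok τ a1).mem τ' (h.ret.ok τ' a2).mem).resolve_right
        (by have := (h.ret.ok τ' a2).anc; omega))
    (fun τ hτ e he i c hc => by
      obtain ⟨m, -, -, -, a4, -⟩ := h.tch (mem_filter.1 hτ).1
      exact (hφ e (a4 he)).le.trans (div_rr_le hY1 (ok.cen i c hc).2.le))
  have b5 : ‖∏ τ ∈ T.filter fun τ => Spec (sc τ) τ,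
      (1 + Z τ lam (sh φ (nw B K (it g).sg) ((ε * Y : ℝ) * I))) / (1 + Z τ lam φ)‖ ≤
      Real.exp (6 * (2 * Real.exp (-Y))) := by
    rw [norm_prod]
    refine (prod_le_prod (fun _ _ => norm_nonneg _) fun τ hτ => ratio_crude hY1
      ((h.nice τ (mem_filter.1 hτ).1).zp lam hl) (h.tub hY1 (mem_filter.1 hτ).1 hφ ht).1
      (h.tub hY1 (mem_filter.1 hτ).1 hφ ht).2).trans ?_
    rw [← Real.exp_sum]
    refine Real.exp_le_exp.2 (scale_sum Y _ sc (fun j => 3 * eta Y j) (by norm_num) fun j => ?_)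
    have := spec_card h.ret (T := T.filter fun τ => Spec (sc τ) τ)
      (fun τ hτ => (h.sub τ (mem_filter.1 hτ).1).1) (fun τ hτ => (mem_filter.1 hτ).2) j
    have := eta_pos Y j
    nlinarith
  rw [Fac, ← prod_filter_mul_prod_filter_not T fun τ => Spec (sc τ) τ, norm_mul, norm_mul,
    norm_mul, norm_mul]
  refine (mul_le_mul (mul_le_mul (mul_le_mul b1 b2 (norm_nonneg _) (by positivity)) b3
    (norm_nonneg _) (by positivity)) (mul_le_mul b5 b4 (norm_nonneg _) (by positivity))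
    (by positivity) (by positivity)).trans ?_
  simp only [← Real.exp_add]
  refine Real.exp_le_exp.2 ?_
  have c1 : Real.exp (-Y) ≤ 1 := Real.exp_le_one_iff.2 (by linarith)
  have c0 := Real.exp_pos (-Y)
  have c2 : 12000 * b * Y ^ 2 * nb K (it g).sg ≤ Y * (2 * (it g).w) := by
    have : 12000 * b * Y ^ 2 = (12000 * b * Y) * Y := by ring
    rw [this]
    exact mul_le_mul (mul_le_of_le_one_left (by linarith) hbY) n1 n0 (by linarith)
  have c3 : 70000 * Real.exp (-Y) * (Y / Y) ^ 2 * nb K (it g).sg ≤ 70000 * (2 * (it g).w) := by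
    rw [div_self (by linarith), one_pow, mul_one]
    exact mul_le_mul (by linarith) n1 n0 (by norm_num)
  nlinarith

lemma Ctx.loc (h : Ctx B K it sc R g Y T Z) (lam ε t : ℝ) {φ φ' : Vx n → ℂ}
    (hφ : ∀ e ∈ blk (sc g) g, gr φ e = gr φ' e) :
    Fac B W K (it g).sg lam (fun x => ε * (it g).ρ x) T (fun τ => Z τ lam) t φ =
      Fac B W K (it g).sg lam (fun x => ε * (it g).ρ x) T (fun τ => Z τ lam) t φ' := by
  have ok := h.ret.ok g h.mem
  unfold Fac
  congr 1
  · congr 1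
    · congr 3
      rw [← sub_eq_zero, prc, prc, ← sum_sub_distrib]
      have e : ∀ x, ((ε * (it g).ρ x : ℝ) : ℂ) * sh φ (nw B K (it g).sg) (t * I) x -
          (ε * (it g).ρ x : ℝ) * sh φ' (nw B K (it g).sg) (t * I) x =
          ε * ((it g).ρ x * (φ x - φ' x)) := by
        intro x; simp only [sh]; push_cast; ring
      simp only [e, ← mul_sum]
      rw [neutral_sum (h.ret.neu g h.mem) _ (φ g - φ' g), sum_eq_zero, mul_zero]
      intro x _
      by_cases hx : (it g).ρ x = 0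
      · simp [hx]
      have := path_blk (fun x => φ x - φ' x) (θ := 0) le_rfl (fun e he => by
        have := hφ e he
        unfold gr at this
        rw [norm_le_zero_iff]; linear_combination this)
        (h.ret.sm g h.mem g ok.mem x (ok.supp x hx))
      rw [mul_zero, norm_le_zero_iff] at this
      rw [this, mul_zero]
    · refine prod_congr rfl fun e he => ?_
      rw [gr_sh, gr_sh, hφ e (act_blk h.ret h.mem he)]
  · refine prod_congr rfl fun τ hτ => ?_
    obtain ⟨m, -, -, -, a4, -⟩ := h.tch hτ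
    simp only
    rw [(h.nice τ hτ).loc lam φ φ' fun e he => hφ e (a4 he),
      (h.nice τ hτ).loc lam (sh φ _ _) (sh φ' _ _) fun e he => by rw [gr_sh, gr_sh, hφ e (a4 he)]]

lemma Ctx.cj (h : Ctx B K it sc R g Y T Z) (hW : WP W Y b) (ε t : ℝ) (ρ : Vx n → ℝ) (φ : Vx n → ℂ) :
    Fac B W K (it g).sg 0 (fun x => -ε * ρ x) T (fun τ => Z τ 0) (-t) (fun x => conj (φ x)) =
      conj (Fac B W K (it g).sg 0 (fun x => ε * ρ x) T (fun τ => Z τ 0) t φ) := by
  have e : sh (fun x => conj (φ x)) (nw B K (it g).sg) ((-t : ℝ) * I) =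
      fun x => conj (sh φ (nw B K (it g).sg) (t * I) x) := by
    ext x; simp [sh]
  have e2 : ∀ (φ : Vx n → ℂ) e, gr (fun x => conj (φ x)) e = conj (gr φ e) := by
    intro φ e; simp [gr]
  unfold Fac
  rw [e]
  simp only [map_mul, map_prod, ← exp_conj, map_sub, map_div₀, map_add, map_one, e2, hW.cj]
  congr 1
  · congr 3
    · simp [prc, conj_ofNat]
    · simp
  · refine prod_congr rfl fun τ hτ => ?_
    rw [(h.nice τ hτ).cj, (h.nice τ hτ).cj]

lemma Ctx.ns (h : Ctx B K it sc R g Y T Z) (hs : ¬ Spec (sc g) g) (lam t : ℝ) (ρ : Vx n → ℝ) :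
    Fac B W K (it g).sg lam ρ T (fun τ => Z τ lam) t =
      Fac B W K (it g).sg 0 ρ T (fun τ => Z τ 0) t := by
  have ok := h.ret.ok g h.mem
  simp only [Spec, not_or, not_lt] at hs
  have z : ∀ x, rr (sc g) ≤ 2 * ds g x → sw B K (it g).sg x = 0 := by
    intro x hx
    refine sw_zero K fun i c hc => ?_
    have a4 := ok.cen i c hc
    have a5 := h.ret.sm g h.mem g ok.mem c a4.1
    have a7 := rr_lt a4.2
    have := ds_tri g c x
    omega
  have e : nw B K (it g).sg (vl n) = 0 := by rw [nw, z _ hs.1, z _ hs.2, sub_self]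
  ext φ
  unfold Fac
  rw [e, mul_zero, mul_zero]
  congr 1
  refine prod_congr rfl fun τ hτ => ?_
  obtain ⟨m, a1, a2, a3, -, -⟩ := h.tch hτ
  have := rr_lt (a1.trans a2)
  have := ds_tri g τ (vz n)
  have := ds_tri g τ (vl n)
  simp only
  rw [(h.nice τ hτ).ns (by simp only [Spec, not_or, not_lt]; omega) lam]

noncomputable def Znew (B : Bod n) (W : ℂ → ℂ) (K : ℕ) (a : Item n) (Y : ℝ) (T : Finset (Vx n))
    (Z : Vx n → ℝ → (Vx n → ℂ) → ℂ) (lam : ℝ) (φ : Vx n → ℂ) : ℂ :=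
  a.z / 2 * (Fac B W K a.sg lam (fun x => 1 * a.ρ x) T (fun τ => Z τ lam) (1 * Y) φ +
    Fac B W K a.sg lam (fun x => -1 * a.ρ x) T (fun τ => Z τ lam) (-1 * Y) φ)

lemma Ctx.nice_new (h : Ctx B K it sc R g Y T Z) (hW : WP W Y b) (hY : 10 ^ 9 ≤ Y) (hb : 0 ≤ b)
    (hbY : 12000 * b * Y ≤ 1) : Nice Y (sc g) g (Znew B W K (it g) Y T Z) := by
  have hY1 : 1 ≤ Y := by linarith
  refine ⟨fun lam hl => ⟨?_, fun φ hφ => ?_⟩, fun lam φ φ' hφ => ?_, fun φ => ?_, fun hs lam => ?_⟩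
  · exact ((h.diff hW hY1 hl _ (by simp [abs_of_pos (by linarith : 0 < Y)])).add
      (h.diff hW hY1 hl _ (by simp [abs_of_pos (by linarith : 0 < Y)]))).const_mul _
  · have a1 := h.bd hW hY hb hbY hl (Or.inl rfl) hφ
    have a2 := h.bd hW hY hb hbY hl (Or.inr rfl) hφ
    have a3 := h.ret.zb g h.mem
    rw [Znew, norm_mul, norm_div, norm_real, Real.norm_eq_abs, Complex.norm_ofNat]
    refine (mul_le_mul (div_le_div_of_nonneg_right a3 zero_le_two)
      ((norm_add_le _ _).trans (add_le_add a1 a2)) (norm_nonneg _) (by positivity)).trans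
      (le_of_eq ?_)
    rw [eta, ← two_mul, ← mul_assoc, div_mul_cancel₀ _ two_ne_zero, ← Real.exp_add]
    ring_nf
  · rw [Znew, Znew, h.loc lam _ _ hφ, h.loc lam _ _ hφ]
  · have a1 := h.cj hW 1 (1 * Y) (fun x => (it g).ρ x) φ
    have a2 := h.cj hW (-1) (-1 * Y) (fun x => (it g).ρ x) φ
    simp only [neg_mul, neg_neg] at a1 a2
    simp only [Znew, map_mul, map_add, map_div₀, conj_ofReal, conj_ofNat, neg_mul, a1, a2]
    ring
  · ext φ
    rw [Znew, Znew, h.ns hs, h.ns hs lam]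

end one

end Pool.Agent.Lib.MP_9cc147_pr.FB
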