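import Pool.Agent.Lib.MP_9cc147_pr.BCost

/-! One complex translation, against an invariant measure. -/

open Finset Complex Metric MeasureTheory Filter Topology
open scoped ComplexConjugate Real

namespace Pool.Agent.Lib.MP_9cc147_pr.FB

variable {n : ℕ} {B : Bod n} {μ : Measure (Vx n → ℝ)}

open Set in
lemma shift {V : Type*} [Fintype V] {μ : Measure (V → ℝ)} (A : (V → ℂ) → ℂ) (B : (V → ℝ) → ℂ)
    (a : V → ℝ) (hμ : ∀ s : ℝ, MeasurePreserving (fun ψ => ψ + s • a) μ μ)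
    {U : Set (V → ℂ)} (hU : IsOpen U)
    (hA : DifferentiableOn ℂ A U) {ρ : ℝ} (hin : ∀ ψ t, |t.im| < ρ → pt ψ a t ∈ U)
    (hB : AEStronglyMeasurable B μ) (hinv : ∀ ψ (s : ℝ), B (ψ + s • a) = B ψ)
    (hdom : ∀ R : ℝ, ∃ g : (V → ℝ) → ℝ, Integrable g μ ∧
      ∀ ψ t, |t.im| < ρ → ‖t‖ ≤ R → ‖A (pt ψ a t) * B ψ‖ ≤ g ψ) {y : ℝ} (hy : |y| < ρ) :
    ∫ ψ, A (cx ψ) * B ψ ∂μ = ∫ ψ, A (pt ψ a (y * I)) * B ψ ∂μ := by
  have hρ : 0 < ρ := (abs_nonneg _).trans_lt hy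
  set S : Set ℂ := {t | |t.im| < ρ} with hS
  have hSo : IsOpen S := isOpen_lt (by fun_prop) continuous_const
  have hSc : Convex ℝ S := by
    have : S = {t | t.im < ρ} ∩ {t | -ρ < t.im} := by
      ext t; simp [hS, abs_lt, and_comm]
    rw [this]
    exact (convex_halfSpace_im_lt ρ).inter (convex_halfSpace_im_gt (-ρ))
  set F : ℂ → (V → ℝ) → ℂ := fun t ψ => A (pt ψ a t) * B ψ with hF
  have hpc : ∀ t, Continuous fun ψ => pt ψ a t := by intro t; unfold pt; fun_prop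
  have hmeas : ∀ t ∈ S, AEStronglyMeasurable (F t) μ := by
    intro t ht
    refine AEStronglyMeasurable.mul ?_ hB
    exact (hA.continuousOn.comp_continuous (hpc t) fun ψ => hin ψ t ht).aestronglyMeasurable
  have hder : ∀ t ∈ S, ∀ ψ, HasDerivAt (F · ψ) (fderiv ℂ A (pt ψ a t) (cx a) * B ψ) t := by
    intro t ht ψ
    have h1 := (hA.differentiableAt (hU.mem_nhds (hin ψ t ht))).hasFDerivAt
    exact (h1.comp_hasDerivAt t (hasDerivAt_pt ψ a t)).mul_const (B ψ)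
  have hG : DifferentiableOn ℂ (fun t => ∫ ψ, F t ψ ∂μ) S := by
    intro t0 ht0
    obtain ⟨δ, hδ, hsub⟩ := Metric.isOpen_iff.1 hSo t0 ht0
    obtain ⟨g, hg, hgb⟩ := hdom (‖t0‖ + δ)
    have hb : ∀ t ∈ ball t0 δ, ∀ ψ, ‖F t ψ‖ ≤ g ψ := by
      intro t ht ψ
      refine hgb ψ t (hsub ht) ?_
      have := norm_sub_norm_le t t0
      rw [mem_ball, dist_eq_norm] at ht
      linarith
    have hsub2 : ∀ t ∈ ball t0 (δ / 2), ball t (δ / 2) ⊆ ball t0 δ := by
      intro t ht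
      refine ball_subset_ball' ?_
      rw [mem_ball] at ht; linarith
    refine (hasDerivAt_integral_of_dominated_loc_of_deriv_le (μ := μ) (F := F)
      (F' := fun t ψ => fderiv ℂ A (pt ψ a t) (cx a) * B ψ) (s := ball t0 (δ / 2))
      (bound := fun ψ => 2 * g ψ / (δ / 2)) (ball_mem_nhds _ (by positivity)) ?_ ?_ ?_ ?_ ?_
      ?_).2.differentiableAt.differentiableWithinAt
    · filter_upwards [hSo.mem_nhds ht0] with t ht using hmeas t ht
    · exact hg.mono' (hmeas t0 ht0) (Eventually.of_forall fun ψ => hb t0 (mem_ball_self hδ) ψ)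
    · refine AEStronglyMeasurable.mul ?_ hB
      exact ((measurable_fderiv_apply_const ℂ A (cx a)).comp
        (hpc t0).measurable).aestronglyMeasurable
    · refine Eventually.of_forall fun ψ t ht => ?_
      have htS : t ∈ S := hsub (ball_subset_ball (by linarith) ht)
      rw [← (hder t htS ψ).deriv]
      refine norm_deriv_le_div_of_mapsTo_ball ?_ (mapsTo_cb (by positivity) ?_) (by positivity)
      · intro s hs
        exact (hder s (hsub (hsub2 t ht hs)) ψ).differentiableAt.differentiableWithinAt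
      · intro s hs
        exact hb s (hsub2 t ht hs) ψ
    · exact (hg.const_mul 2).div_const _
    · exact Eventually.of_forall fun ψ t ht =>
        hder t (hsub (ball_subset_ball (by linarith) ht)) ψ
  have hreal : ∀ s : ℝ, ∫ ψ, F s ψ ∂μ = ∫ ψ, F 0 ψ ∂μ := by
    intro s
    rw [← (hμ s).integral_comp (measurableEmbedding_addRight (s • a)) fun ψ => F 0 ψ]
    refine integral_congr_ae (Eventually.of_forall fun ψ => ?_)
    simp only [hF, hinv]
    congr 2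
    ext x; simp [pt]
  have h0 : (0 : ℂ) ∈ S := by simpa [hS] using hρ
  have hfr : ∃ᶠ z in 𝓝[≠] (0 : ℂ), (fun t => ∫ ψ, F t ψ ∂μ) z = (fun _ => ∫ ψ, F 0 ψ ∂μ) z := by
    have ht : Tendsto (fun s : ℝ => (s : ℂ)) (𝓝[≠] 0) (𝓝[≠] 0) := by
      refine tendsto_nhdsWithin_iff.2 ⟨?_, ?_⟩
      · simpa using (continuous_ofReal.tendsto 0).mono_left nhdsWithin_le_nhds
      · filter_upwards [self_mem_nhdsWithin] with s hs using by simpa using hs
    exact ht.frequently (Frequently.of_forall hreal)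
  have := (hG.analyticOnNhd hSo).eqOn_of_preconnected_of_frequently_eq analyticOnNhd_const
    hSc.isPreconnected h0 hfr (x := y * I) (by simpa [hS] using hy)
  simp only [hF, pt_zero] at this
  exact this.symm

structure MP (B : Bod n) (μ : Measure (Vx n → ℝ)) : Prop where
  inv : ∀ a : Vx n → ℝ, (∀ x, a (B.pi x) = a x) → MeasurePreserving (fun ψ => ψ + a) μ μ
  maj : Integrable (fun ψ : Vx n → ℝ => (1 + ‖ψ‖) ^ (-pp n)) μ

def Adm (μ : Measure (Vx n → ℝ)) (H : (Vx n → ℝ) → ℂ) : Prop :=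
  AEStronglyMeasurable H μ ∧ ∃ M, ∀ ψ, ‖H ψ‖ ≤ M ∧ (2 < |ψ (vz n)| → H ψ = 0)

lemma Adm.mul {H G : (Vx n → ℝ) → ℂ} (hH : Adm μ H) (hG : Continuous G) {M : ℝ}
    (hM : ∀ ψ, ‖G ψ‖ ≤ M) : Adm μ fun ψ => G ψ * H ψ := by
  obtain ⟨h1, M', h2⟩ := hH
  refine ⟨hG.aestronglyMeasurable.mul h1, M * M', fun ψ => ⟨?_, fun h => by simp [(h2 ψ).2 h]⟩⟩
  rw [norm_mul]
  exact mul_le_mul (hM ψ) (h2 ψ).1 (norm_nonneg _) ((norm_nonneg _).trans (hM ψ))

lemma integrable_base (hμ : Integrable (fun ψ : Vx n → ℝ => (1 + ‖ψ‖) ^ (-pp n)) μ) {W : ℂ → ℂ}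
    {Y b : ℝ} (hW : WP W Y b) (hY : 1 ≤ Y) (lam : ℝ) {H : (Vx n → ℝ) → ℂ} (hH : Adm μ H) :
    Integrable (fun ψ => Base W lam (cx ψ) * H ψ) μ := by
  obtain ⟨C, hC0, hC⟩ := weight_bound (n := n) hW (p := pp n) (by unfold pp; positivity)
    (R := 2) (by norm_num)
  obtain ⟨h1, M, h2⟩ := hH
  refine ((hμ.const_mul C).mul_const M).mono'
    ((base_cont hW hY lam).aestronglyMeasurable.mul h1) (Eventually.of_forall fun ψ => ?_)
  have hM := (norm_nonneg _).trans (h2 ψ).1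
  by_cases h : 2 < |ψ (vz n)|
  · rw [(h2 ψ).2 h, mul_zero, norm_zero]; positivity
  · rw [norm_mul, norm_base_real]
    exact mul_le_mul (hC _ ψ (fun e _ => cx_strip hY ψ e) (not_lt.1 h)
      (fun e _ => by simp [gr, cx])) (h2 ψ).1 (norm_nonneg _) (by positivity)

noncomputable def Fac (B : Bod n) (W : ℂ → ℂ) (K : ℕ) (sg : ℕ → Vx n → ℤ) (lam : ℝ) (ρ : Vx n → ℝ)
    (T : Finset (Vx n)) (Z : Vx n → (Vx n → ℂ) → ℂ) (t : ℝ) (φ : Vx n → ℂ) : ℂ :=
  exp (2 * π * I * prc ρ (sh φ (nw B K sg) (t * I))) * exp (-(lam * t * nw B K sg (vl n) : ℝ)) *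
    (∏ e ∈ act B K sg, exp (W (gr φ e) - W (gr (sh φ (nw B K sg) (t * I)) e))) *
    ∏ τ ∈ T, (1 + Z τ (sh φ (nw B K sg) (t * I))) / (1 + Z τ φ)

lemma nw_vz (K : ℕ) (sg : ℕ → Vx n → ℤ) : nw B K sg (vz n) = 0 := sub_self _

lemma nw_grad (K : ℕ) {sg : ℕ → Vx n → ℤ} (hs : Sep B sg) {e : Vx n × Vx n} (he : e ∈ Ed n) :
    |nw B K sg e.1 - nw B K sg e.2| ≤ 17 := by
  rw [nw_sub]; simpa [rr] using sw_grad K hs he 0 (by simp)

lemma base_sh (W : ℂ → ℂ) (K : ℕ) (sg : ℕ → Vx n → ℤ) (lam t : ℝ) (φ : Vx n → ℂ) :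
    Base W lam (sh φ (nw B K sg) (t * I)) = Base W lam φ * (exp (-(lam * t * nw B K sg (vl n) : ℝ)) *
      ∏ e ∈ act B K sg, exp (W (gr φ e) - W (gr (sh φ (nw B K sg) (t * I)) e))) := by
  have e1 : ∑ e ∈ act B K sg, (W (gr φ e) - W (gr (sh φ (nw B K sg) (t * I)) e)) =
      ∑ e ∈ Ed n, (W (gr φ e) - W (gr (sh φ (nw B K sg) (t * I)) e)) := by
    refine sum_subset (filter_subset _ _) fun e he hn => ?_
    have : sw B K sg e.1 = sw B K sg e.2 := by simpa [act, he] using hn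
    rw [gr_sh, nw_sub, this]; simp
  rw [← exp_sum, e1, sum_sub_distrib, Base, Base]
  simp only [← exp_add]
  congr 1
  simp only [sh, nw_vz]
  push_cast
  linear_combination (lam * t * nw B K sg (vl n) : ℂ) * I_mul_I

lemma step (hμ : MP B μ) {W : ℂ → ℂ} {Y b : ℝ} (hW : WP W Y b) (hY : 1 ≤ Y) (K : ℕ) {sg : ℕ → Vx n → ℤ}
    (hs : Sep B sg) (lam : ℝ) (ρ : Vx n → ℝ) {T : Finset (Vx n)} {sc : Vx n → ℕ}
    {Z : Vx n → (Vx n → ℂ) → ℂ} (hZ : ∀ τ ∈ T, ZP Y (sc τ) τ (Z τ))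
    (hgr : ∀ τ ∈ T, ∀ e ∈ blk (sc τ) τ, |nw B K sg e.1 - nw B K sg e.2| ≤ 17 / (64 * rr (sc τ)))
    {G : (Vx n → ℝ) → ℂ} (hB : Adm μ G) (hinv : ∀ ψ (s : ℝ), G (ψ + s • nw B K sg) = G ψ)
    {t : ℝ} (ht : |t| ≤ Y) :
    ∫ ψ, (Base W lam (cx ψ) * exp (2 * π * I * prc ρ (cx ψ)) * ∏ τ ∈ T, (1 + Z τ (cx ψ))) * G ψ ∂μ =
      ∫ ψ, (Base W lam (cx ψ) * Fac B W K sg lam ρ T Z t (cx ψ) * ∏ τ ∈ T, (1 + Z τ (cx ψ))) *
        G ψ ∂μ := by
  set U : Set (Vx n → ℂ) := {φ | ∀ e ∈ Ed n, gr φ e ∈ strip (40 * Y)} ∩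
    ⋂ τ ∈ T, tube Y (sc τ) τ with hU
  have hUo : IsOpen U := by
    refine IsOpen.inter ?_ (isOpen_biInter_finset fun τ _ => tube_open _ _ _)
    have : {φ : Vx n → ℂ | ∀ e ∈ Ed n, gr φ e ∈ strip (40 * Y)} =
      ⋂ e ∈ Ed n, (fun φ => gr φ e) ⁻¹' strip (40 * Y) := by ext φ; simp
    rw [this]
    exact isOpen_biInter_finset fun e _ => (strip_open _).preimage (by unfold gr; fun_prop)
  have hin : ∀ ψ (s : ℂ), |s.im| < 2 * Y → pt ψ (nw B K sg) s ∈ U := by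
    intro ψ s hs'
    refine ⟨fun e he => ?_, Set.mem_iInter₂.2 fun τ hτ e he => ?_⟩
    · have := im_sh (φ := cx ψ) (A := 0) (by simp [gr, cx]) hs'.le (nw_grad K hs he)
      exact this.trans_lt (by linarith)
    · have := im_sh (φ := cx ψ) (A := 0) (by simp [gr, cx]) hs'.le (hgr τ hτ e he)
      refine this.trans_lt ?_
      have := rr_posR (sc τ)
      rw [zero_add, ← mul_div_assoc, div_lt_div_iff₀ (by positivity) this]
      nlinarith
  have key := shift (fun φ => Base W lam φ * exp (2 * π * I * prc ρ φ) * ∏ τ ∈ T, (1 + Z τ φ)) G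
    (nw B K sg) (fun s => hμ.inv _ fun x => by simp [nw_pi K hs]) hUo ?_ hin hB.1 hinv ?_ (y := t) (by linarith)
  · rw [key]
    refine integral_congr_ae (Eventually.of_forall fun ψ => ?_)
    have e : pt ψ (nw B K sg) (t * I) = sh (cx ψ) (nw B K sg) (t * I) := rfl
    simp only [e, base_sh, Fac, prod_div_distrib]
    have : ∏ τ ∈ T, (1 + Z τ (cx ψ)) ≠ 0 :=
      prod_ne_zero_iff.2 fun τ hτ => one_add_ne hY (hZ τ hτ) (cx_tube hY _ _ ψ)
    field_simp
  · refine (((base_diff hW lam).mono Set.inter_subset_left).mul (by unfold prc; fun_prop)).mul ?_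
    refine diffOn_prod fun τ hτ => DifferentiableOn.const_add _ ?_
    exact (hZ τ hτ).diff.mono fun φ hφ => Set.mem_iInter₂.1 hφ.2 τ hτ
  · intro R
    obtain ⟨C, hC0, hC⟩ := weight_bound (n := n) hW (p := pp n) (by unfold pp; positivity)
      (R := 2 + |R| * 17) (by positivity)
    obtain ⟨-, M, h2⟩ := hB
    refine ⟨_, (((hμ.maj.const_mul C).const_mul
      (Real.exp (|lam| * (|R| * |nw B K sg (vl n)|)))).mul_const
      (Real.exp (2 * π * (|R| * |∑ x, ρ x * nw B K sg x|)))).mul_const (2 ^ T.card * M),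
      fun ψ s h3 h4 => ?_⟩
    have hM := (norm_nonneg _).trans (h2 ψ).1
    have h5 : |s.im| ≤ |R| := (abs_im_le_norm s).trans (h4.trans (le_abs_self _))
    have h6 : |s.re| ≤ |R| := (abs_re_le_norm s).trans (h4.trans (le_abs_self _))
    by_cases h : 2 < |ψ (vz n)|
    · rw [(h2 ψ).2 h, mul_zero, norm_zero]; positivity
    rw [norm_mul, norm_mul, norm_mul, mul_assoc, Base, norm_mul]
    have hU' := hin ψ s h3
    refine mul_le_mul (mul_le_mul (mul_le_mul ?_ ?_ (norm_nonneg _) (by positivity)) ?_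
      (norm_nonneg _) (by positivity)) (mul_le_mul ?_ (h2 ψ).1 (norm_nonneg _) (by positivity))
      (by positivity) (by positivity)
    · rw [norm_exp]
      refine Real.exp_le_exp.2 ((le_abs_self _).trans ?_)
      have : (I * lam * (pt ψ (nw B K sg) s (vl n) - pt ψ (nw B K sg) s (vz n))).re =
        -(lam * (s.im * nw B K sg (vl n))) := by simp [pt, nw_vz]
      rw [this, abs_neg, abs_mul, abs_mul]
      gcongr
    · refine hC _ ψ hU'.1 ((not_lt.1 h).trans (by linarith [abs_nonneg R])) fun e he => ?_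
      have : (gr (pt ψ (nw B K sg) s) e).re - (ψ e.1 - ψ e.2) =
        s.re * (nw B K sg e.1 - nw B K sg e.2) := by simp [gr, pt]; ring
      rw [this, abs_mul]
      exact (mul_le_mul h6 (nw_grad K hs he) (abs_nonneg _) (abs_nonneg _)).trans (by linarith)
    · rw [norm_exp]
      refine Real.exp_le_exp.2 ((le_abs_self _).trans ?_)
      have : (2 * π * I * prc ρ (pt ψ (nw B K sg) s)).re =
          -(2 * π * (s.im * ∑ x, ρ x * nw B K sg x)) := by
        simp [prc, pt, mul_sum, mul_left_comm]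
      rw [this, abs_neg, abs_mul, abs_mul s.im, abs_of_pos Real.two_pi_pos]
      gcongr
    · rw [norm_prod, ← prod_const]
      refine prod_le_prod (fun _ _ => norm_nonneg _) fun τ hτ => ?_
      have := ((hZ τ hτ).bd _ (Set.mem_iInter₂.1 hU'.2 τ hτ)).trans (eta_le hY _)
      have h7 := norm_add_le 1 (Z τ (pt ψ (nw B K sg) s))
      rw [norm_one] at h7
      linarith

end Pool.Agent.Lib.MP_9cc147_pr.FB
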