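import Pool.Agent.Lib.MP_9cc147_pr.Pack

/-! The multiscale decomposition into ensembles of charge densities. -/

open Finset Function

namespace Pool.Agent.Lib.MP_9cc147_pr

variable {n : ℕ}

structure Ret (K : ℕ) (it : Vx n → Item n) (sc : Vx n → ℕ) (R : Finset (Vx n)) : Prop where
  ok : ∀ τ ∈ R, Ok K τ (it τ) (sc τ)
  pos : ∀ τ ∈ R, 1 ≤ sc τ
  neu : ∀ τ ∈ R, ∑ x, (it τ).ρ x = 0
  sm : ∀ τ ∈ R, Small (sc τ) (it τ).S
  zb : ∀ τ ∈ R, |(it τ).z| ≤ Real.exp (10 ^ 6 * (it τ).w - sc τ)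
  far : ∀ τ ∈ R, ∀ g ∈ R, τ ≠ g → sc τ ≤ sc g → Far (rr (sc τ)) (it τ).S (it g).S

lemma Ret.mono {K : ℕ} {it : Vx n → Item n} {sc : Vx n → ℕ} {R R' : Finset (Vx n)}
    (h : Ret K it sc R) (hR : R' ⊆ R) : Ret K it sc R' :=
  ⟨fun τ a => h.ok τ (hR a), fun τ a => h.pos τ (hR a), fun τ a => h.neu τ (hR a),
    fun τ a => h.sm τ (hR a), fun τ a => h.zb τ (hR a),
    fun τ a g b => h.far τ (hR a) g (hR b)⟩

lemma Ret.congr {K : ℕ} {it it' : Vx n → Item n} {sc sc' : Vx n → ℕ} {R : Finset (Vx n)}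
    (h : Ret K it sc R) (h1 : ∀ τ ∈ R, it' τ = it τ) (h2 : ∀ τ ∈ R, sc' τ = sc τ) :
    Ret K it' sc' R := by
  refine ⟨fun τ a => ?_, fun τ a => ?_, fun τ a => ?_, fun τ a => ?_, fun τ a => ?_,
    fun τ a g b => ?_⟩
  · rw [h1 τ a, h2 τ a]; exact h.ok τ a
  · rw [h2 τ a]; exact h.pos τ a
  · rw [h1 τ a]; exact h.neu τ a
  · rw [h1 τ a, h2 τ a]; exact h.sm τ a
  · rw [h1 τ a, h2 τ a]; exact h.zb τ a
  · rw [h1 τ a, h2 τ a, h1 g b, h2 g b]; exact h.far τ a g b

structure Com (K k : ℕ) (it : Vx n → Item n) (sc : Vx n → ℕ) (R A : Finset (Vx n)) : Prop where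
  ret : Ret K it sc R
  scl : ∀ τ ∈ R, sc τ ≤ k
  disj : Disjoint R A
  ra : ∀ τ ∈ R, ∀ g ∈ A, Far (rr (sc τ)) (it τ).S (it g).S
  ok : ∀ g ∈ A, Ok K g (it g) (k + 1)
  dj : ∀ g ∈ A, ∀ h ∈ A, g ≠ h → Far (rr k) (it g).S (it h).S
  conn : ∀ g ∈ A, Conn (rr (k + 1)) (it g).S

noncomputable def pot (k : ℕ) (a : Item n) : ℝ :=
  10 ^ 6 * a.w - k - 200000 * (Pk k a.S + 2 * Pk (k + 1) a.S)

structure Ter (k : ℕ) (S0 : Vx n → Finset (Vx n)) (D : Finset (Vx n)) (it : Vx n → Item n)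
    (A : Finset (Vx n)) (U : Vx n → Finset (Vx n)) : Prop where
  u1 : ∀ g ∈ A, U g ⊆ D
  u2 : ∀ g ∈ A, ∀ h ∈ A, g ≠ h → Disjoint (U g) (U h)
  u3 : ∀ g ∈ A, ∀ c ∈ U g, ∃ p ∈ S0 c, ∃ q ∈ (it g).S, ds p q < rr (k + 1)
  u4 : ∀ g ∈ A, ∀ p ∈ (it g).S, ∃ c ∈ U g, p ∈ S0 c
  zb : ∀ g ∈ A, |(it g).z| ≤ Real.exp (2 * ((U g).card - 1) + pot k (it g))

lemma repl_com {K k : ℕ} {it : Vx n → Item n} {sc : Vx n → ℕ} {R A : Finset (Vx n)}
    (h : Com K k it sc R A) {a b : Vx n} (ha : a ∈ A) (hb : b ∈ A) (a' : Item n)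
    (hS : a'.S ⊆ (it a).S ∪ (it b).S) (hok : Ok K a a' (k + 1)) (hc : Conn (rr (k + 1)) a'.S) :
    Com K k (update it a a') sc R (A.erase b) := by
  have hR : ∀ τ ∈ R, update it a a' τ = it τ := fun τ hτ =>
    update_of_ne (fun e : τ = a => disjoint_left.1 h.disj hτ (e ▸ ha)) _ _
  have fa : ∀ (r : ℕ) (S : Finset (Vx n)), Far r S (it a).S → Far r S (it b).S → Far r S a'.S :=
    fun r S h1 h2 p hp q hq => (h1.union h2) p hp q (hS hq)
  refine ⟨h.ret.congr hR fun _ _ => rfl, h.scl, h.disj.mono_right (erase_subset _ _), ?_, ?_, ?_, ?_⟩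
  · intro τ hτ g hg
    rw [hR τ hτ]
    by_cases e : g = a
    · subst e; rw [update_self]; exact fa _ _ (h.ra τ hτ g ha) (h.ra τ hτ b hb)
    · rw [update_of_ne e]; exact h.ra τ hτ g (mem_of_mem_erase hg)
  · intro g hg
    by_cases e : g = a
    · subst e; rw [update_self]; exact hok
    · rw [update_of_ne e]; exact h.ok g (mem_of_mem_erase hg)
  · have key : ∀ g ∈ A.erase b, g ≠ a → Far (rr k) (it g).S a'.S := fun g hg e =>
      fa _ _ (h.dj g (mem_of_mem_erase hg) a ha e) (h.dj g (mem_of_mem_erase hg) b hb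
        (ne_of_mem_erase hg))
    intro g hg g' hg' hne
    by_cases e : g = a
    · subst e; rw [update_self, update_of_ne hne.symm]; exact (key g' hg' hne.symm).symm
    · rw [update_of_ne e]
      by_cases e' : g' = a
      · subst e'; rw [update_self]; exact key g hg e
      · rw [update_of_ne e']; exact h.dj g (mem_of_mem_erase hg) g' (mem_of_mem_erase hg') hne
  · intro g hg
    by_cases e : g = a
    · subst e; rw [update_self]; exact hc
    · rw [update_of_ne e]; exact h.conn g (mem_of_mem_erase hg)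

lemma repl_ter {k : ℕ} {S0 : Vx n → Finset (Vx n)} {D : Finset (Vx n)} {it : Vx n → Item n}
    {A : Finset (Vx n)} {U : Vx n → Finset (Vx n)} (h : Ter k S0 D it A U) {a b : Vx n}
    (ha : a ∈ A) (hb : b ∈ A) (a' : Item n) (U' : Finset (Vx n)) (hU : U' ⊆ U a ∪ U b)
    (h3 : ∀ c ∈ U', ∃ p ∈ S0 c, ∃ q ∈ a'.S, ds p q < rr (k + 1))
    (h4 : ∀ p ∈ a'.S, ∃ c ∈ U', p ∈ S0 c)
    (hz : |a'.z| ≤ Real.exp (2 * (U'.card - 1) + pot k a')) :
    Ter k S0 D (update it a a') (A.erase b) (update U a U') := by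
  refine ⟨?_, ?_, ?_, ?_, ?_⟩
  · intro g hg
    by_cases e : g = a
    · subst e; rw [update_self]; exact hU.trans (union_subset (h.u1 g ha) (h.u1 b hb))
    · rw [update_of_ne e]; exact h.u1 g (mem_of_mem_erase hg)
  · have key : ∀ g ∈ A.erase b, g ≠ a → Disjoint (U g) U' := fun g hg e =>
      Disjoint.mono_right hU (disjoint_union_right.2 ⟨h.u2 g (mem_of_mem_erase hg) a ha e,
        h.u2 g (mem_of_mem_erase hg) b hb (ne_of_mem_erase hg)⟩)
    intro g hg g' hg' hne
    by_cases e : g = a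
    · subst e; rw [update_self, update_of_ne hne.symm]; exact (key g' hg' hne.symm).symm
    · rw [update_of_ne e]
      by_cases e' : g' = a
      · subst e'; rw [update_self]; exact key g hg e
      · rw [update_of_ne e']; exact h.u2 g (mem_of_mem_erase hg) g' (mem_of_mem_erase hg') hne
  all_goals
    intro g hg
    by_cases e : g = a
    · subst e; simp only [update_self]; assumption
    · simp only [update_of_ne e]
      first
      | exact h.u3 g (mem_of_mem_erase hg)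
      | exact h.u4 g (mem_of_mem_erase hg)
      | exact h.zb g (mem_of_mem_erase hg)

lemma Psi_repl {R A : Finset (Vx n)} (hd : Disjoint R A) (it : Vx n → Item n) {a b : Vx n}
    (ha : a ∈ A) (hb : b ∈ A) (hab : a ≠ b) (a' : Item n) (ψ : Vx n → ℝ) :
    Psi (R ∪ A.erase b) (update it a a') ψ =
      fac a' ψ * Psi (((R ∪ A).erase a).erase b) it ψ := by
  have hbR : b ∉ R := fun h => disjoint_left.1 hd h hb
  have e : R ∪ A.erase b = insert a (((R ∪ A).erase a).erase b) := by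
    ext x
    simp only [mem_union, mem_erase, mem_insert]
    by_cases h1 : x = a
    · subst h1; simp [ha, hab]
    · by_cases h2 : x = b
      · subst h2; simp [hbR, h1]
      · simp [h1, h2]
  rw [e, Psi, prod_insert (by simp), update_self, Psi]
  congr 1
  refine prod_congr rfl fun x hx => ?_
  rw [update_of_ne (ne_of_mem_erase (mem_of_mem_erase hx))]

lemma Psi_two {R A : Finset (Vx n)} (it : Vx n → Item n) {a b : Vx n}
    (ha : a ∈ A) (hb : b ∈ A) (hab : a ≠ b) (ψ : Vx n → ℝ) :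
    Psi (R ∪ A) it ψ = fac (it a) ψ * (fac (it b) ψ * Psi (((R ∪ A).erase a).erase b) it ψ) := by
  unfold Psi
  rw [mul_prod_erase ((R ∪ A).erase a) (fun g => fac (it g) ψ)
    (mem_erase.2 ⟨hab.symm, mem_union_right _ hb⟩),
    mul_prod_erase (R ∪ A) (fun g => fac (it g) ψ) (mem_union_right _ ha)]

def tri (a : Item n) : Item n := { a with z := 3 * a.z }

lemma three_le : (3 : ℝ) ≤ Real.exp 2 := by
  have := Real.add_one_le_exp (2 : ℝ); linarith

structure Cone (P : ((Vx n → ℝ) → ℝ) → Prop) : Prop where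
  add : ∀ f g, P f → P g → P fun ψ => f ψ + g ψ
  smul : ∀ (c : ℝ) f, 0 ≤ c → P f → P fun ψ => c * f ψ

lemma merge_phase {P : ((Vx n → ℝ) → ℝ) → Prop} (hP : Cone P) {K k : ℕ} {sc : Vx n → ℕ}
    {R : Finset (Vx n)} {S0 : Vx n → Finset (Vx n)} {D : Finset (Vx n)}
    (hend : ∀ it A U, Com K k it sc R A → Ter k S0 D it A U →
      (∀ g ∈ A, ∀ h ∈ A, g ≠ h → Far (rr (k + 1)) (it g).S (it h).S) → P (Psi (R ∪ A) it)) :
    ∀ (m : ℕ) it A U, A.card = m → Com K k it sc R A → Ter k S0 D it A U →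
      P (Psi (R ∪ A) it) := by
  intro m
  induction m with
  | zero =>
    intro it A U hm h1 h2
    exact hend it A U h1 h2 fun g hg => by simp [card_eq_zero.1 hm] at hg
  | succ m ih =>
    intro it A U hm h1 h2
    by_cases hf : ∀ g ∈ A, ∀ h ∈ A, g ≠ h → Far (rr (k + 1)) (it g).S (it h).S
    · exact hend it A U h1 h2 hf
    simp only [Far, not_forall, not_le] at hf
    obtain ⟨a, ha, b, hb, hab, p, hp, q, hq, hd⟩ := hf
    have drop : ∀ a ∈ A, ∀ b ∈ A, a ≠ b → ∀ p ∈ (it a).S, ∀ q ∈ (it b).S, ds p q < rr (k + 1) →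
        P fun ψ => fac (tri (it a)) ψ * Psi (((R ∪ A).erase a).erase b) it ψ := by
      intro a ha b hb hab p hp q hq hd
      obtain ⟨c, hc, hqc⟩ := h2.u4 b hb q hq
      have hca : c ∉ U a := fun h => disjoint_left.1 (h2.u2 a ha b hb hab) h hc
      have := ih _ (A.erase b) _ (by rw [card_erase_of_mem hb]; omega)
        (repl_com h1 ha hb (tri (it a)) subset_union_left { h1.ok a ha with } (h1.conn a ha))
        (repl_ter h2 ha hb (tri (it a)) (insert c (U a))
          (insert_subset (mem_union_right _ hc) subset_union_left) ?_ ?_ ?_)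
      · simpa only [← Psi_repl h1.disj it ha hb hab] using this
      · intro c' hc'
        rcases mem_insert.1 hc' with rfl | hc''
        · exact ⟨q, hqc, p, hp, ds_comm p q ▸ hd⟩
        · exact h2.u3 a ha c' hc''
      · intro x hx
        obtain ⟨c', h3, h4⟩ := h2.u4 a ha x hx
        exact ⟨c', mem_insert_of_mem h3, h4⟩
      · have hz := h2.zb a ha
        have e : pot k (tri (it a)) = pot k (it a) := rfl
        rw [card_insert_of_notMem hca, e]
        simp only [tri, abs_mul, Nat.abs_ofNat]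
        refine (mul_le_mul three_le hz (abs_nonneg _) (Real.exp_pos _).le).trans ?_
        rw [← Real.exp_add]
        push_cast
        exact Real.exp_le_exp.2 (by linarith)
    have mer : ∀ s : ℤ, s = 1 ∨ s = -1 →
        P fun ψ => fac (mrg (it a) (it b) s) ψ * Psi (((R ∪ A).erase a).erase b) it ψ := by
      intro s hs
      have := ih _ (A.erase b) _ (by rw [card_erase_of_mem hb]; omega)
        (repl_com h1 ha hb (mrg (it a) (it b) s) Subset.rfl
          ((h1.ok a ha).mrg (h1.ok b hb) (h1.dj a ha b hb hab) hs)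
          ((h1.conn a ha).union (h1.conn b hb) hp hq hd))
        (repl_ter h2 ha hb (mrg (it a) (it b) s) (U a ∪ U b) Subset.rfl ?_ ?_ ?_)
      · simpa only [← Psi_repl h1.disj it ha hb hab] using this
      · intro c hc
        rcases mem_union.1 hc with hc | hc
        · obtain ⟨p, h3, q, h4, h5⟩ := h2.u3 a ha c hc
          exact ⟨p, h3, q, mem_union_left _ h4, h5⟩
        · obtain ⟨p, h3, q, h4, h5⟩ := h2.u3 b hb c hc
          exact ⟨p, h3, q, mem_union_right _ h4, h5⟩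
      · intro x hx
        rcases mem_union.1 hx with hx | hx
        · obtain ⟨c, h3, h4⟩ := h2.u4 a ha x hx
          exact ⟨c, mem_union_left _ h3, h4⟩
        · obtain ⟨c, h3, h4⟩ := h2.u4 b hb x hx
          exact ⟨c, mem_union_right _ h3, h4⟩
      · have hz := h2.zb a ha
        have hz' := h2.zb b hb
        rw [card_union_of_disjoint (h2.u2 a ha b hb hab)]
        simp only [mrg, abs_mul, Nat.abs_ofNat, pot] at hz hz' ⊢
        refine (mul_le_mul (mul_le_mul three_le hz (abs_nonneg _) (Real.exp_pos _).le) hz'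
          (abs_nonneg _) (by positivity)).trans ?_
        rw [← Real.exp_add, ← Real.exp_add]
        have a1 : (Pk k ((it a).S ∪ (it b).S) : ℝ) ≤ Pk k (it a).S + Pk k (it b).S := by
          exact_mod_cast Pk_union k _ _
        have a2 : (Pk (k + 1) ((it a).S ∪ (it b).S) : ℝ) ≤
            Pk (k + 1) (it a).S + Pk (k + 1) (it b).S := by exact_mod_cast Pk_union (k + 1) _ _
        push_cast
        have : (0 : ℝ) ≤ k := Nat.cast_nonneg _
        exact Real.exp_le_exp.2 (by linarith)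
    have d1 := drop a ha b hb hab p hp q hq hd
    have d2 := drop b hb a ha hab.symm q hq p hp (ds_comm p q ▸ hd)
    rw [erase_right_comm] at d2
    have := hP.add _ _ (hP.add _ _ (hP.smul (1 / 3) _ (by norm_num) d1)
      (hP.smul (1 / 3) _ (by norm_num) d2)) (hP.add _ _
      (hP.smul (1 / 6) _ (by norm_num) (mer 1 (Or.inl rfl)))
      (hP.smul (1 / 6) _ (by norm_num) (mer (-1) (Or.inr rfl))))
    convert this using 2 with ψ
    rw [Psi_two it ha hb hab]
    simp only [fac, tri, mrg, pr_add, mul_add, Real.cos_add]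
    push_cast
    simp only [one_mul, neg_mul, mul_neg, Real.cos_neg, Real.sin_neg]
    ring

structure Inv (K k : ℕ) (it : Vx n → Item n) (sc : Vx n → ℕ) (R A : Finset (Vx n)) : Prop where
  com : Com K k it sc R A
  zb : ∀ g ∈ A, |(it g).z| ≤ Real.exp (pot k (it g))
  nn : ∀ g ∈ A, Small k (it g).S → ∑ x, (it g).ρ x ≠ 0

lemma layer_step {K k : ℕ} (hk : k + 1 < K) {it : Vx n → Item n} {sc : Vx n → ℕ}
    {R A : Finset (Vx n)} (h : Com K k it sc R A)
    (hz : ∀ g ∈ A, |(it g).z| ≤ Real.exp (2 * (66049 * Pk (k + 1) (it g).S) + pot k (it g)))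
    (hf : ∀ g ∈ A, ∀ h ∈ A, g ≠ h → Far (rr (k + 1)) (it g).S (it h).S) :
    ∃ it' sc' R' A', Inv K (k + 1) it' sc' R' A' ∧ Psi (R' ∪ A') it' = Psi (R ∪ A) it := by
  classical
  set Q : Vx n → Prop := fun g => Small (k + 1) (it g).S ∧ ∑ x, (it g).ρ x = 0 with hQ
  set it' : Vx n → Item n := fun g => if g ∈ A ∧ Small (k + 1) (it g).S ∧ ∑ x, (it g).ρ x ≠ 0
    then lay (it g) g (k + 1) else it g with hit
  set sc' : Vx n → ℕ := fun g => if g ∈ A then k + 1 else sc g with hsc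
  have eS : ∀ g, (it' g).S = (it g).S := fun g => by simp only [hit]; split_ifs <;> rfl
  have eρ : ∀ g, (it' g).ρ = (it g).ρ := fun g => by simp only [hit]; split_ifs <;> rfl
  have ez : ∀ g, (it' g).z = (it g).z := fun g => by simp only [hit]; split_ifs <;> rfl
  have nA : ∀ τ ∈ R, τ ∉ A := fun τ hτ => disjoint_left.1 h.disj hτ
  have e1 : ∀ τ ∈ R, it' τ = it τ := fun τ hτ => by simp [hit, nA τ hτ]
  have e2 : ∀ τ ∈ R, sc' τ = sc τ := fun τ hτ => by simp [hsc, nA τ hτ]
  have e3 : ∀ τ ∈ A, Q τ → it' τ = it τ := fun τ _ hq => by simp [hit, hq.2]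
  have e4 : ∀ τ ∈ A, sc' τ = k + 1 := fun τ hτ => by simp [hsc, hτ]
  have hr := h.ret.congr e1 e2
  have P1 : ∀ g ∈ A, ∀ j, (1 : ℝ) ≤ Pk j (it g).S := fun g hg j => by
    exact_mod_cast one_le_Pk j (h.ok g hg).mem
  have P2 : ∀ g j, Small (k + 1) (it g).S → k + 1 ≤ j → (Pk j (it g).S : ℝ) ≤ 1 :=
    fun g j a b => by exact_mod_cast Pk_small a b
  have cases : ∀ {C : Vx n → Prop}, (∀ τ ∈ R, C τ) → (∀ τ ∈ A, Q τ → C τ) →
      ∀ τ ∈ R ∪ A.filter Q, C τ := fun c1 c2 τ hτ =>
    (mem_union.1 hτ).elim (c1 τ) fun a => c2 τ (mem_filter.1 a).1 (mem_filter.1 a).2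
  refine ⟨it', sc', R ∪ A.filter Q, A.filter fun g => ¬ Q g,
    ⟨⟨⟨cases hr.ok ?_, cases hr.pos ?_, cases hr.neu ?_, cases hr.sm ?_, cases hr.zb ?_,
      cases ?_ ?_⟩, cases ?_ ?_, ?_, cases ?_ ?_, ?_, ?_, ?_⟩, ?_, ?_⟩, ?_⟩
  · intro τ hτ hq; rw [e3 τ hτ hq, e4 τ hτ]; exact h.ok τ hτ
  · intro τ hτ _; rw [e4 τ hτ]; omega
  · intro τ _ hq; rw [eρ]; exact hq.2
  · intro τ hτ hq; rw [eS, e4 τ hτ]; exact hq.1
  · intro τ hτ hq
    rw [e3 τ hτ hq, e4 τ hτ]
    refine (hz τ hτ).trans (Real.exp_le_exp.2 ?_)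
    have := P1 τ hτ k
    have := P1 τ hτ (k + 1)
    have := P2 τ (k + 1) hq.1 le_rfl
    unfold pot; push_cast; linarith
  · intro τ hτ
    refine cases (hr.far τ hτ) fun g hg _ _ _ => ?_
    rw [eS, eS, e2 τ hτ]; exact h.ra τ hτ g hg
  · intro τ hτ _
    refine cases (fun g hg _ hle => ?_) fun g hg _ hne _ => ?_
    · rw [e4 τ hτ, e2 g hg] at hle
      have := h.scl g hg
      omega
    · rw [eS, eS, e4 τ hτ]; exact hf τ hτ g hg hne
  · intro τ hτ; rw [e2 τ hτ]; exact (h.scl τ hτ).trans (Nat.le_succ _)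
  · intro τ hτ _; rw [e4 τ hτ]
  · exact disjoint_union_left.2 ⟨h.disj.mono_right (filter_subset _ _),
      disjoint_filter_filter_not A A Q⟩
  · intro τ hτ g hg
    rw [eS, eS, e2 τ hτ]; exact h.ra τ hτ g (mem_filter.1 hg).1
  · intro τ hτ hq g hg
    rw [eS, eS, e4 τ hτ]
    exact hf τ hτ g (mem_filter.1 hg).1 fun e => (mem_filter.1 hg).2 (e ▸ hq)
  · intro g hg
    have hg' := (mem_filter.1 hg).1
    simp only [hit]
    split_ifs with hc
    · exact (h.ok g hg').lay hk hc.2.1 hc.2.2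
    · exact (h.ok g hg').mono (Nat.le_succ _)
  · intro g hg g' hg' hne
    rw [eS, eS]; exact hf g (mem_filter.1 hg).1 g' (mem_filter.1 hg').1 hne
  · intro g hg
    rw [eS]; exact (h.conn g (mem_filter.1 hg).1).mono (rr_mono (Nat.le_succ _))
  · intro g hg
    have hg' := (mem_filter.1 hg).1
    rw [ez]
    refine (hz g hg').trans (Real.exp_le_exp.2 ?_)
    have := P1 g hg' k
    have := P1 g hg' (k + 1)
    have := P1 g hg' (k + 1 + 1)
    unfold pot
    rw [eS]
    by_cases hs : Small (k + 1) (it g).S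
    · have hQ' : ∑ x, (it g).ρ x ≠ 0 := fun e => (mem_filter.1 hg).2 ⟨hs, e⟩
      have ew : (it' g).w = (it g).w + 1 := by simp [hit, hg', hs, hQ', lay]
      have := P2 g (k + 1) hs le_rfl
      have := P2 g (k + 1 + 1) hs (Nat.le_succ _)
      rw [ew]; push_cast; linarith
    · have ew : (it' g).w = (it g).w := by simp [hit, hs]
      have : (2 * Pk (k + 1 + 1) (it g).S : ℝ) ≤ Pk k (it g).S := by
        exact_mod_cast Pk_double (h.conn g hg') hs
      rw [ew]; push_cast; linarith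
  · intro g hg hs
    rw [eS] at hs
    rw [eρ]
    exact fun e => (mem_filter.1 hg).2 ⟨hs, e⟩
  · rw [union_assoc, filter_union_filter_not_eq]
    ext ψ
    exact prod_congr rfl fun g _ => by simp only [fac, ez, eρ]

theorem cone_main {P : ((Vx n → ℝ) → ℝ) → Prop} (hP : Cone P) {kk : ℕ} (hkk : 16 * n < rr kk)
    (hfin : ∀ it sc R, Ret (kk + 1) it sc R → P (Psi R it) ∧
      ∀ a : Item n, ∑ x, a.ρ x ≠ 0 → P fun ψ => fac a ψ * Psi R it ψ) :
    ∀ j k, k + j = kk → ∀ it sc R A, Inv (kk + 1) k it sc R A → P (Psi (R ∪ A) it) := by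
  intro j
  induction j with
  | zero =>
    rintro k rfl it sc R A h
    rcases A.eq_empty_or_nonempty with rfl | ⟨g, hg⟩
    · simpa using (hfin it sc R h.com.ret).1
    · have hA : A = {g} := by
        refine eq_singleton_iff_unique_mem.2 ⟨hg, fun x hx => ?_⟩
        by_contra hne
        have := h.com.dj x hx g hg hne x (h.com.ok x hx).mem g (h.com.ok g hg).mem
        have := ds_le x g
        simp only [add_zero] at hkk
        omega
      have := (hfin it sc R h.com.ret).2 (it g) (h.nn g hg fun p _ q _ => by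
        have := ds_le p q
        simp only [add_zero] at hkk
        omega)
      convert this using 2 with ψ
      have hgR : g ∉ R := fun e => disjoint_left.1 h.com.disj e hg
      rw [hA, union_comm, ← insert_eq, Psi, prod_insert hgR, Psi]
  | succ j ih =>
    intro k hk it sc R A h
    refine merge_phase hP (S0 := fun g => (it g).S) (D := A) ?_ _ it A (fun g => {g}) rfl h.com
      ⟨by simp, by simp +contextual, ?_, ?_, ?_⟩
    · intro it' A' U h1 h2 h3
      obtain ⟨it2, sc2, R2, A2, h4, h5⟩ := layer_step (by omega) h1 (fun g hg => by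
        refine (h2.zb g hg).trans (Real.exp_le_exp.2 ?_)
        have := terr_card (fun c hc c' hc' => h.com.dj c (h2.u1 g hg hc) c' (h2.u1 g hg hc'))
          (h2.u3 g hg)
        have : ((U g).card : ℝ) ≤ 66049 * Pk (k + 1) (it' g).S := by exact_mod_cast this
        linarith) h3
      rw [← h5]
      exact ih (k + 1) (by omega) _ _ _ _ h4
    · intro g hg c hc
      rw [mem_singleton.1 hc]
      exact ⟨g, (h.com.ok g hg).mem, g, (h.com.ok g hg).mem, by simp [rr_pos]⟩
    · intro g _ p hp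
      exact ⟨g, mem_singleton_self _, hp⟩
    · intro g hg
      simpa using h.zb g hg

def ini (q : Vx n → ℕ) (ζ : Vx n → ℝ) (x : Vx n) : Item n where
  S := {x}
  ρ := fun y => if y = x then q x else 0
  z := ζ x
  sg := one1 0 x
  w := q x

lemma ini_inv {K : ℕ} (hK : 0 < K) (q : Vx n → ℕ) (ζ : Vx n → ℝ)
    (hζ : ∀ x, |ζ x| ≤ Real.exp (2 * q x)) :
    Inv K 0 (ini q ζ) (fun _ => 0) ∅ (univ.filter fun x => q x ≠ 0) := by
  have o1 : ∀ (g : Vx n) i c, one1 0 g i c ≠ 0 → i = 0 ∧ c = g := by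
    intro g i c h
    by_contra hh
    simp [one1, hh] at h
  refine ⟨⟨⟨by simp, by simp, by simp, by simp, by simp, by simp⟩, by simp, by simp, by simp,
    ?_, ?_, ?_⟩, ?_, ?_⟩
  · intro g hg
    have hq : 1 ≤ q g := Nat.pos_of_ne_zero (mem_filter.1 hg).2
    refine ⟨by simp [ini], by simp +contextual [ini], fun i c hc => ?_,
      ⟨fun i c => ?_, fun i c c' h1 h2 hne => ?_⟩, ?_, ?_, ?_, hq⟩
    · obtain ⟨rfl, rfl⟩ := o1 g i c hc
      simp [ini]
    · simp only [ini, one1]; split_ifs <;> simp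
    · exact absurd ((o1 g i c h1).2.trans (o1 g i c' h2).2.symm) hne
    · simp only [ini]
      rw [sum_eq_single g] <;> simp +contextual
    · simp only [ini]
      rw [nb_one1 hK]; exact_mod_cast hq
    · simp only [ini, pr]
      rw [sum_eq_single g, sw_one1 hK, bump_one (by simp)] <;> simp +contextual
  · intro g _ h _ hne p hp p' hp'
    simp only [ini, mem_singleton] at hp hp'
    subst hp hp'
    exact ds_pos hne
  · intro g _ T h1 h2 h3
    rcases subset_singleton_iff.1 h1 with rfl | rfl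
    · simp at h2
    · exact absurd rfl h3
  · intro g hg
    have hq : (1 : ℝ) ≤ q g := by exact_mod_cast Nat.pos_of_ne_zero (mem_filter.1 hg).2
    have hs : Small 0 (ini q ζ g).S := by simp [Small, ini]
    have a1 : (Pk 0 (ini q ζ g).S : ℝ) ≤ 1 := by exact_mod_cast Pk_small hs le_rfl
    have a2 : (Pk (0 + 1) (ini q ζ g).S : ℝ) ≤ 1 := by exact_mod_cast Pk_small hs (by omega)
    refine (hζ g).trans (Real.exp_le_exp.2 ?_)
    have : ((ini q ζ g).w : ℝ) = q g := rfl
    unfold pot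
    rw [this]; push_cast; linarith
  · intro g hg _
    simpa [ini] using (mem_filter.1 hg).2

end Pool.Agent.Lib.MP_9cc147_pr
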