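import Pool.Agent.Lib.MP_9cc147_pr.Schwarz

/-! Analytic interpolation on a strip of a sequence with small second differences. -/

open Complex Metric Set Filter Topology
open scoped ComplexConjugate Real

namespace Pool.Agent.Lib.MP_9cc147_pr

def strip (H : ℝ) : Set ℂ := {z | |z.im| < H}

lemma strip_open (H : ℝ) : IsOpen (strip H) := isOpen_lt (by fun_prop) continuous_const

lemma sumZ {c : ℝ} (hc : 0 < c) (a : ℝ) :
    Summable fun k : ℤ => (|(k : ℝ)| + a) * Real.exp (-c * |(k : ℝ)|) := by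
  have h : Summable fun n : ℕ => ((n : ℝ) + a) * Real.exp (-c * n) := by
    have h1 := Real.summable_pow_mul_exp_neg_nat_mul 1 hc
    have h0 := (Real.summable_pow_mul_exp_neg_nat_mul 0 hc).mul_left a
    refine (h1.add h0).congr fun n => ?_
    simp; ring
  refine Summable.of_nat_of_neg ?_ ?_ <;> simpa using h

noncomputable def sgm (c : ℝ) (z : ℂ) : ℂ := (1 + exp (-(c * z)))⁻¹

lemma den_bound {H : ℝ} (hH : 0 < H) {z : ℂ} (hz : z ∈ strip H) :
    Real.exp (-(π / (2 * H) * z.re)) ≤ ‖1 + exp (-((π / (2 * H) : ℝ) * z))‖ := by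
  set w := exp (-((π / (2 * H) : ℝ) * z)) with hw
  have hre : 0 ≤ w.re := by
    rw [hw, exp_re]
    refine mul_nonneg (Real.exp_pos _).le (Real.cos_nonneg_of_neg_pi_div_two_le_of_le ?_ ?_)
    all_goals
      simp only [neg_im, mul_im, ofReal_re, ofReal_im, zero_mul, add_zero]
      have h1 : |z.im| < H := hz
      have := abs_lt.1 h1
      have h2 : π / (2 * H) * H = π / 2 := by field_simp
      have h3 : 0 < π / (2 * H) := by positivity
      nlinarith
  have hn : ‖w‖ = Real.exp (-(π / (2 * H) * z.re)) := by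
    rw [hw, norm_exp]; simp only [neg_re, mul_re, ofReal_re, ofReal_im, zero_mul, sub_zero]
  rw [← hn]
  refine abs_le_of_sq_le_sq' ?_ (norm_nonneg _) |>.2
  rw [← normSq_eq_norm_sq, ← normSq_eq_norm_sq, normSq_apply, normSq_apply]
  simp only [add_re, one_re, add_im, one_im, zero_add]
  nlinarith

lemma den_ne {H : ℝ} (hH : 0 < H) {z : ℂ} (hz : z ∈ strip H) :
    1 + exp (-((π / (2 * H) : ℝ) * z)) ≠ 0 := by
  intro h
  have := den_bound hH hz
  rw [h, norm_zero] at this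
  exact absurd this (not_le.2 (Real.exp_pos _))

lemma sgm_norm {H : ℝ} (hH : 0 < H) {z : ℂ} (hz : z ∈ strip H) :
    ‖sgm (π / (2 * H)) z‖ ≤ Real.exp (π / (2 * H) * z.re) := by
  rw [sgm, norm_inv]
  have := den_bound hH hz
  rw [Real.exp_neg] at this
  exact inv_le_of_inv_le₀ (Real.exp_pos _) this

lemma neg_strip {H : ℝ} {z : ℂ} (hz : z ∈ strip H) : -z ∈ strip H := by
  simpa [strip] using hz

lemma sgm_add {H : ℝ} (hH : 0 < H) {z : ℂ} (hz : z ∈ strip H) :
    sgm (π / (2 * H)) z + sgm (π / (2 * H)) (-z) = 1 := by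
  have h1 := den_ne hH hz
  have h2 := den_ne hH (neg_strip hz)
  unfold sgm
  have h3 : exp (-((π / (2 * H) : ℝ) * z)) * exp (-((π / (2 * H) : ℝ) * -z)) = 1 := by
    rw [← exp_add]; simp
  generalize exp (-((π / (2 * H) : ℝ) * z)) = a at *
  generalize exp (-((π / (2 * H) : ℝ) * -z)) = b at *
  field_simp
  linear_combination -h3

lemma sgm_diff {H : ℝ} (hH : 0 < H) : DifferentiableOn ℂ (sgm (π / (2 * H))) (strip H) := by
  unfold sgm
  exact DifferentiableOn.inv (by fun_prop) fun z hz => den_ne hH hz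

def sel (m n : ℤ) (z : ℂ) : ℂ := if m < n then z - n else n - z

lemma sel_strip {H : ℝ} {z : ℂ} (hz : z ∈ strip H) (m n : ℤ) : sel m n z ∈ strip H := by
  unfold sel; split_ifs <;> simpa [strip] using hz

noncomputable def rp (H : ℝ) (z : ℂ) : ℂ := z * sgm (π / (2 * H)) z

noncomputable def g1 (H R : ℝ) (k : ℤ) : ℝ :=
  Real.exp (π / (2 * H) * R) * ((|(k : ℝ)| + (R + H)) * Real.exp (-(π / (2 * H)) * |(k : ℝ)|))

lemma g1_sum {H : ℝ} (hH : 0 < H) (R : ℝ) : Summable (g1 H R) :=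
  (sumZ (by positivity) _).mul_left _

lemma rp_norm {H R : ℝ} (hH : 0 < H) {z : ℂ} (hz : z ∈ strip H) (m n : ℤ) (h : |z.re - m| ≤ R) :
    ‖rp H (sel m n z)‖ ≤ g1 H R (n - m) := by
  have h1 := sgm_norm hH (sel_strip hz m n)
  have hz' : |z.im| < H := hz
  have h2 := abs_le.1 h
  have h3 : (sel m n z).re ≤ R - |((n - m : ℤ) : ℝ)| ∧
      |(sel m n z).re| ≤ |((n - m : ℤ) : ℝ)| + R ∧ |(sel m n z).im| ≤ H := by
    unfold sel
    split_ifs with hmn
    · have : (m : ℝ) < n := by exact_mod_cast hmn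
      push_cast
      rw [abs_of_pos (by linarith : 0 < (n : ℝ) - m)]
      simp only [sub_re, intCast_re, sub_im, intCast_im, sub_zero]
      exact ⟨by linarith, abs_le.2 ⟨by linarith, by linarith⟩, hz'.le⟩
    · have : (n : ℝ) ≤ m := by exact_mod_cast not_lt.1 hmn
      push_cast
      rw [abs_of_nonpos (by linarith : (n : ℝ) - m ≤ 0)]
      simp only [sub_re, intCast_re, sub_im, intCast_im, zero_sub, abs_neg]
      exact ⟨by linarith, abs_le.2 ⟨by linarith, by linarith⟩, hz'.le⟩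
  have h4 := norm_le_abs_re_add_abs_im (sel m n z)
  rw [rp, norm_mul, g1, mul_left_comm, ← Real.exp_add]
  have hc : 0 < π / (2 * H) := by positivity
  refine mul_le_mul (by linarith) (h1.trans (Real.exp_le_exp.2 ?_)) (norm_nonneg _) ?_
  · nlinarith [h3.1]
  · have := abs_nonneg ((n - m : ℤ) : ℝ)
    have := abs_nonneg (z.re - m)
    linarith

def d2 (u : ℤ → ℝ) (n : ℤ) : ℝ := u (n + 1) - 2 * u n + u (n - 1)

def lin (u : ℤ → ℝ) (m : ℤ) (z : ℂ) : ℂ := u m + (z - m) * (u (m + 1) - u m : ℝ)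

noncomputable def Am (H : ℝ) (u : ℤ → ℝ) (m : ℤ) (z : ℂ) : ℂ :=
  lin u m z + ∑' n, d2 u n * rp H (sel m n z)

lemma sum_shift {g : ℤ → ℝ} (hg : Summable g) (m : ℤ) : HasSum (fun n => g (n - m)) (∑' n, g n) :=
  (Equiv.subRight m).hasSum_iff.2 hg.hasSum

lemma term_norm {H R β : ℝ} (hH : 0 < H) {u : ℤ → ℝ} (hu : ∀ n, |d2 u n| ≤ β) {z : ℂ}
    (hz : z ∈ strip H) (m n : ℤ) (h : |z.re - m| ≤ R) :
    ‖d2 u n * rp H (sel m n z)‖ ≤ β * g1 H R (n - m) := by
  rw [norm_mul, norm_real, Real.norm_eq_abs]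
  exact mul_le_mul (hu n) (rp_norm hH hz m n h) (norm_nonneg _) ((abs_nonneg _).trans (hu n))

lemma Am_summable {H β : ℝ} (hH : 0 < H) {u : ℤ → ℝ} (hu : ∀ n, |d2 u n| ≤ β) {z : ℂ}
    (hz : z ∈ strip H) (m : ℤ) : Summable fun n => d2 u n * rp H (sel m n z) :=
  Summable.of_norm_bounded ((sum_shift (g1_sum hH |z.re - m|) m).summable.mul_left β)
    fun n => term_norm hH hu hz m n le_rfl

lemma Am_succ {H β : ℝ} (hH : 0 < H) {u : ℤ → ℝ} (hu : ∀ n, |d2 u n| ≤ β) {z : ℂ}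
    (hz : z ∈ strip H) (m : ℤ) : Am H u (m + 1) z = Am H u m z := by
  have h := (Am_summable hH hu hz (m + 1)).tsum_sub (Am_summable hH hu hz m)
  rw [tsum_eq_single (m + 1)] at h
  · have hz' : z - ((m + 1 : ℤ) : ℂ) ∈ strip H := by simpa [strip] using hz
    have h2 := sgm_add hH hz'
    have e1 : sel (m + 1) (m + 1) z = -(z - ((m + 1 : ℤ) : ℂ)) := by simp [sel]
    have e2 : sel m (m + 1) z = z - ((m + 1 : ℤ) : ℂ) := by simp [sel]
    rw [e1, e2] at h
    unfold Am lin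
    unfold rp at h
    have e3 : (d2 u (m + 1) : ℂ) = u (m + 1 + 1) - 2 * u (m + 1) + u m := by simp [d2]
    rw [e3] at h
    unfold rp
    push_cast at h h2 ⊢
    linear_combination -h - ((u (m + 1 + 1) : ℂ) - 2 * u (m + 1) + u m) * (z - (m + 1)) * h2
  · intro n hn
    have : sel (m + 1) n z = sel m n z := by
      unfold sel
      by_cases h1 : m < n
      · rw [if_pos h1, if_pos (by omega)]
      · rw [if_neg h1, if_neg (by omega)]
    rw [this, sub_self]

lemma Am_eq {H β : ℝ} (hH : 0 < H) {u : ℤ → ℝ} (hu : ∀ n, |d2 u n| ≤ β) {z : ℂ}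
    (hz : z ∈ strip H) (m : ℤ) : Am H u 0 z = Am H u m z := by
  induction m using Int.induction_on with
  | zero => rfl
  | succ i ih => rw [Am_succ hH hu hz, ih]
  | pred i ih => rw [ih, ← Am_succ hH hu hz (-i - 1)]; simp

lemma Am_near {H R β : ℝ} (hH : 0 < H) {u : ℤ → ℝ} (hu : ∀ n, |d2 u n| ≤ β) {z : ℂ}
    (hz : z ∈ strip H) (m : ℤ) (h : |z.re - m| ≤ R) :
    ‖Am H u 0 z - lin u m z‖ ≤ β * ∑' n, g1 H R n := by
  rw [Am_eq hH hu hz m, Am, add_sub_cancel_left]
  exact tsum_of_norm_bounded ((sum_shift (g1_sum hH R) m).mul_left β)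
    fun n => term_norm hH hu hz m n h

lemma ser_diff {H : ℝ} {f : ℤ → ℂ → ℂ} (hd : ∀ n, DifferentiableOn ℂ (f n) (strip H))
    (hb : ∀ R, ∃ g : ℤ → ℝ, Summable g ∧ ∀ n, ∀ z ∈ strip H, |z.re - (0 : ℤ)| ≤ R → ‖f n z‖ ≤ g n) :
    DifferentiableOn ℂ (fun z => ∑' n, f n z) (strip H) := by
  intro z hz
  obtain ⟨g, hg, hgb⟩ := hb (|z.re| + 1)
  have hO : IsOpen (strip H ∩ {w : ℂ | |w.re| < |z.re| + 1}) :=
    (strip_open H).inter (isOpen_lt (by fun_prop) continuous_const)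
  have := differentiableOn_tsum_of_summable_norm hg (fun n => (hd n).mono inter_subset_left) hO
    (fun n w hw => hgb n w hw.1 (by simpa using hw.2.le))
  exact (this.differentiableAt (hO.mem_nhds ⟨hz, by simp⟩)).differentiableWithinAt

lemma Am_diff {H β : ℝ} (hH : 0 < H) {u : ℤ → ℝ} (hu : ∀ n, |d2 u n| ≤ β) :
    DifferentiableOn ℂ (Am H u 0) (strip H) := by
  unfold Am
  refine DifferentiableOn.add (by unfold lin; fun_prop) (ser_diff (fun n => ?_) fun R => ?_)
  · have hs : Differentiable ℂ (sel 0 n) := by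
      unfold sel; split_ifs <;> fun_prop
    unfold rp
    refine (hs.differentiableOn.mul ?_).const_mul _
    exact (sgm_diff hH).comp hs.differentiableOn fun z hz => sel_strip hz 0 n
  · exact ⟨_, (sum_shift (g1_sum hH R) 0).summable.mul_left β,
      fun n z hz h => term_norm hH hu hz 0 n h⟩

lemma Am_conj (H : ℝ) (u : ℤ → ℝ) (z : ℂ) : Am H u 0 (conj z) = conj (Am H u 0 z) := by
  unfold Am lin
  rw [map_add, Complex.conj_tsum]
  congr 1
  · simp
  · refine tsum_congr fun n => ?_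
    have : sel 0 n (conj z) = conj (sel 0 n z) := by unfold sel; split_ifs <;> simp
    rw [this, rp, rp, sgm, sgm]
    simp only [map_mul, conj_ofReal, map_inv₀, map_add, map_one, ← exp_conj, map_neg]

noncomputable def kap (z : ℂ) : ℂ := dslope (fun w => sin (π * w)) 0 z / π * exp (-z ^ 2)

lemma kap_zero : kap 0 = 1 := by
  have : deriv (fun w : ℂ => sin (π * w)) 0 = π := by
    have h := ((hasDerivAt_id (0 : ℂ)).const_mul (π : ℂ)).csin
    simpa using h.deriv
  have hp : (π : ℂ) ≠ 0 := by exact_mod_cast Real.pi_ne_zero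
  simp [kap, this, hp]

lemma kap_ne {z : ℂ} (hz : z ≠ 0) : kap z = sin (π * z) / z / π * exp (-z ^ 2) := by
  rw [kap, dslope_of_ne _ hz, slope_def_field]; simp

lemma kap_int {k : ℤ} (hk : k ≠ 0) : kap k = 0 := by
  rw [kap_ne (by exact_mod_cast hk), mul_comm (π : ℂ), sin_int_mul_pi]; simp

lemma kap_conj (z : ℂ) : kap (conj z) = conj (kap z) := by
  by_cases hz : z = 0
  · simp [hz, kap_zero]
  · rw [kap_ne hz, kap_ne (by simpa using hz)]
    simp only [map_mul, map_div₀, conj_ofReal, ← exp_conj, ← sin_conj, map_neg, map_pow]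

lemma kap_diff : Differentiable ℂ kap := by
  have : Differentiable ℂ (dslope (fun w : ℂ => sin (π * w)) 0) := by
    rw [← differentiableOn_univ, Complex.differentiableOn_dslope univ_mem]
    fun_prop
  unfold kap; fun_prop

lemma norm_sin_le' (w : ℂ) : ‖sin w‖ ≤ Real.exp ‖w‖ := by
  have h : ∀ v : ℂ, ‖v‖ = ‖w‖ → ‖exp v‖ ≤ Real.exp ‖w‖ := by
    intro v hv
    rw [norm_exp, ← hv]
    exact Real.exp_le_exp.2 (re_le_norm v)
  have h1 := h (-w * I) (by simp)
  have h2 := h (w * I) (by simp)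
  have h3 := norm_sub_le (exp (-w * I)) (exp (w * I))
  rw [sin, norm_div, norm_mul, norm_I]
  simp only [Complex.norm_ofNat]
  linarith

noncomputable def g2 (H R : ℝ) (k : ℤ) : ℝ :=
  2 * Real.exp (π * (H + 1) + H ^ 2 + 5 + R) * ((|(k : ℝ)| + 1) * Real.exp (-1 * |(k : ℝ)|))

lemma g2_sum (H R : ℝ) : Summable (g2 H R) := (sumZ one_pos _).mul_left _

lemma kap_norm {H R : ℝ} {z : ℂ} (hz : z ∈ strip H) (m n : ℤ) (h : |z.re - m| ≤ R) :
    ‖kap (z - n)‖ ≤ g2 H R (n - m) := by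
  set w := z - n with hw
  have hz' : |z.im| < H := hz
  have him : |w.im| < H := by simpa [hw] using hz'
  have hre : |((n - m : ℤ) : ℝ)| - R ≤ |w.re| := by
    have : ((n - m : ℤ) : ℝ) = (z.re - m) - w.re := by simp [hw]
    rw [this]
    have := abs_sub (z.re - m) w.re
    linarith
  have hp := Real.pi_pos
  have h1 : ‖dslope (fun w => sin (π * w)) 0 w‖ ≤
      2 * Real.exp (π * (‖w‖ + 1)) / (‖w‖ + 1) := by
    refine norm_dslope_le_div_of_mapsTo_ball (by fun_prop) (mapsTo_cb (by positivity) ?_)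
      (by simp)
    intro v hv
    refine (norm_sin_le' _).trans (Real.exp_le_exp.2 ?_)
    rw [norm_mul, norm_real, Real.norm_eq_abs, abs_of_pos hp]
    have : ‖v‖ < ‖w‖ + 1 := by simpa using hv
    gcongr
  have h2 : ‖dslope (fun w => sin (π * w)) 0 w / π‖ ≤ 2 * Real.exp (π * (‖w‖ + 1)) := by
    rw [norm_div, norm_real, Real.norm_eq_abs, abs_of_pos hp]
    refine (div_le_self (norm_nonneg _) (by linarith [Real.pi_gt_three])).trans (h1.trans ?_)
    exact div_le_self (by positivity) (by linarith [norm_nonneg w])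
  have h3 : (-w ^ 2).re = w.im ^ 2 - w.re ^ 2 := by simp [sq]
  have h4 := norm_le_abs_re_add_abs_im w
  rw [kap, norm_mul, norm_exp, h3, g2]
  refine (mul_le_mul_of_nonneg_right h2 (Real.exp_pos _).le).trans ?_
  have h5 : Real.exp (π * (‖w‖ + 1)) * Real.exp (w.im ^ 2 - w.re ^ 2) ≤
      Real.exp (π * (H + 1) + H ^ 2 + 5 + R) * Real.exp (-1 * |((n - m : ℤ) : ℝ)|) := by
    rw [← Real.exp_add, ← Real.exp_add]
    refine Real.exp_le_exp.2 ?_
    have h6 : w.im ^ 2 ≤ H ^ 2 := sq_le_sq' (abs_lt.1 him).1.le (abs_lt.1 him).2.le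
    have h7 : π * ‖w‖ ≤ π * (|w.re| + H) := by gcongr; linarith
    have h8 : π * |w.re| ≤ 3.2 * |w.re| := by gcongr; linarith [Real.pi_lt_d2]
    nlinarith [sq_abs w.re, sq_nonneg (|w.re| - 2.1)]
  have h9 := abs_nonneg ((n - m : ℤ) : ℝ)
  have h10 := mul_pos (Real.exp_pos (π * (H + 1) + H ^ 2 + 5 + R))
    (Real.exp_pos (-1 * |((n - m : ℤ) : ℝ)|))
  nlinarith

theorem exists_W {H : ℝ} (hH : 0 < H) : ∃ C : ℝ, 0 < C ∧ ∀ (β : ℝ) (u : ℤ → ℝ),
    (∀ n, |d2 u n| ≤ β) → ∃ W : ℂ → ℂ, DifferentiableOn ℂ W (strip H) ∧ (∀ n : ℤ, W n = u n) ∧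
      (∀ z, W (conj z) = conj (W z)) ∧
      ∀ m : ℤ, ∀ z ∈ strip H, |z.re - m| ≤ H + 1 → ‖W z - lin u m z‖ ≤ C * β := by
  set C1 := ∑' n, g1 H (H + 1) n
  set C2 := ∑' n, g2 H (H + 1) n
  refine ⟨|C1| + |C1| * |C2| + 1, by positivity, fun β u hu => ?_⟩
  have hβ : 0 ≤ β := (abs_nonneg _).trans (hu 0)
  have hn : ∀ n : ℤ, (n : ℂ) ∈ strip H := fun n => by simpa [strip] using hH
  have hc : ∀ n : ℤ, ‖u n - Am H u 0 n‖ ≤ β * |C1| := by
    intro n
    have := Am_near (R := H + 1) hH hu (hn n) n (by simp; linarith)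
    rw [norm_sub_rev]
    refine le_trans ?_ (this.trans (by gcongr; exact le_abs_self _))
    simp [lin]
  have ht : ∀ R m n, ∀ z ∈ strip H, |z.re - (m : ℤ)| ≤ R →
      ‖(u n - Am H u 0 n) * kap (z - n)‖ ≤ β * |C1| * g2 H R (n - m) := by
    intro R m n z hz h
    rw [norm_mul]
    exact mul_le_mul (hc n) (kap_norm hz m n h) (norm_nonneg _) (by positivity)
  refine ⟨fun z => Am H u 0 z + ∑' n : ℤ, (u n - Am H u 0 n) * kap (z - n), ?_, ?_, ?_, ?_⟩
  · refine (Am_diff hH hu).add (ser_diff (fun n => ?_) fun R => ?_)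
    · have := kap_diff
      fun_prop
    · exact ⟨_, (sum_shift (g2_sum H R) 0).summable.mul_left _, fun n z hz h => ht R 0 n z hz h⟩
  · intro n
    beta_reduce
    rw [tsum_eq_single n]
    · simp [kap_zero]
    · intro k hk
      rw [← Int.cast_sub, kap_int (by omega), mul_zero]
  · intro z
    simp only [map_add, Complex.conj_tsum, map_mul, ← kap_conj, map_sub, conj_ofReal,
      ← Am_conj, map_intCast]
  · intro m z hz h
    have h1 := Am_near hH hu hz m h
    have h2 := tsum_of_norm_bounded ((sum_shift (g2_sum H (H + 1)) m).mul_left (β * |C1|))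
      fun n => ht (H + 1) m n z hz h
    have h3 := norm_add_le (Am H u 0 z - lin u m z)
      (∑' n : ℤ, (u n - Am H u 0 n) * kap (z - n))
    have e : Am H u 0 z + ∑' n : ℤ, (u n - Am H u 0 n) * kap (z - n) - lin u m z =
      Am H u 0 z - lin u m z + ∑' n : ℤ, (u n - Am H u 0 n) * kap (z - n) := by ring
    rw [e]
    have h4 : β * C1 ≤ β * |C1| := by gcongr; exact le_abs_self _
    have h5 : β * |C1| * C2 ≤ β * |C1| * |C2| := by gcongr; exact le_abs_self _
    nlinarith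

end Pool.Agent.Lib.MP_9cc147_pr
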