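import Pool.Agent.Lib.MP_9cc147_pr.Comb
import Pool.Agent.Lib.MP_9cc147_pr.Interp

/-! Cost of a complex translation by a spin wave. -/

open Finset Complex Metric
open scoped ComplexConjugate

namespace Pool.Agent.Lib.MP_9cc147_pr

variable {n : ℕ}

def gr (φ : Vx n → ℂ) (e : Vx n × Vx n) : ℂ := φ e.1 - φ e.2

def blk (j : ℕ) (τ : Vx n) : Finset (Vx n × Vx n) :=
  (Ed n).filter fun e => 8 * ds τ e.1 ≤ rr j ∧ 8 * ds τ e.2 ≤ rr j

def tube (Y : ℝ) (j : ℕ) (τ : Vx n) : Set (Vx n → ℂ) :=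
  {φ | ∀ e ∈ blk j τ, |(gr φ e).im| < Y / rr j}

noncomputable def eta (Y : ℝ) (j : ℕ) : ℝ := Real.exp (-Y - j)

def sh (φ : Vx n → ℂ) (a : Vx n → ℝ) (t : ℂ) : Vx n → ℂ := fun x => φ x + t * a x

structure WP (W : ℂ → ℂ) (Y b : ℝ) : Prop where
  diff : DifferentiableOn ℂ W (strip (40 * Y))
  cj : ∀ z, W (conj z) = conj (W z)
  curv : ∀ z ∈ strip (40 * Y), |(W z).re - (W z.re).re| ≤ b * z.im ^ 2
  grow : ∀ p : ℝ, 0 ≤ p → ∃ C, ∀ z ∈ strip (40 * Y), p * Real.log (1 + |z.re|) - C ≤ (W z).re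

structure ZP (Y : ℝ) (j : ℕ) (τ : Vx n) (Z : (Vx n → ℂ) → ℂ) : Prop where
  diff : DifferentiableOn ℂ Z (tube Y j τ)
  bd : ∀ φ ∈ tube Y j τ, ‖Z φ‖ ≤ eta Y j

lemma tube_open (Y : ℝ) (j : ℕ) (τ : Vx n) : IsOpen (tube Y j τ) := by
  have : tube Y j τ = ⋂ e ∈ blk j τ, {φ : Vx n → ℂ | |(gr φ e).im| < Y / rr j} := by
    ext φ; simp [tube]
  rw [this]
  exact isOpen_biInter_finset fun e _ => isOpen_lt (by unfold gr; fun_prop) continuous_const

lemma eta_pos (Y : ℝ) (j : ℕ) : 0 < eta Y j := Real.exp_pos _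

lemma exp_neg_one_le : Real.exp (-1) ≤ 1 / 2 := by
  have := Real.add_one_le_exp (1 : ℝ)
  rw [Real.exp_neg, one_div]
  exact inv_anti₀ (by norm_num) (by linarith)

lemma eta_le {Y : ℝ} (hY : 1 ≤ Y) (j : ℕ) : eta Y j ≤ 1 / 2 :=
  (Real.exp_le_exp.2 (by have : (0 : ℝ) ≤ j := Nat.cast_nonneg _; linarith)).trans exp_neg_one_le

lemma eta_sum (Y : ℝ) (N : ℕ) : ∑ j ∈ range N, eta Y j ≤ 2 * Real.exp (-Y) := by
  have : ∑ j ∈ range N, eta Y j ≤ 2 * Real.exp (-Y) - 2 * eta Y N := by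
    induction N with
    | zero => simp [eta]
    | succ N ih =>
      rw [sum_range_succ]
      have : eta Y (N + 1) = eta Y N * Real.exp (-1) := by
        unfold eta; rw [← Real.exp_add]; push_cast; ring_nf
      have h2 := exp_neg_one_le
      have h3 := eta_pos Y N
      nlinarith
  linarith [eta_pos Y N]

lemma scale_sum (Y : ℝ) (T : Finset (Vx n)) (sc : Vx n → ℕ) (f : ℕ → ℝ) {B : ℝ} (hB : 0 ≤ B)
    (h : ∀ j, (T.filter fun τ => sc τ = j).card * f j ≤ B * eta Y j) :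
    ∑ τ ∈ T, f (sc τ) ≤ B * (2 * Real.exp (-Y)) := by
  rw [← sum_fiberwise_of_maps_to (s := T) (t := range (T.sup sc + 1)) (g := sc)
    (fun τ hτ => mem_range.2 (Nat.lt_succ_of_le (le_sup (f := sc) hτ)))]
  refine le_trans (sum_le_sum fun j _ => ?_) ((mul_sum _ _ _).symm.le.trans
    (mul_le_mul_of_nonneg_left (eta_sum Y (T.sup sc + 1)) hB))
  refine le_trans (le_of_eq ?_) (h j)
  rw [sum_congr rfl (g := fun _ => f j) fun τ hτ => by rw [(mem_filter.1 hτ).2]]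
  simp

lemma dcount {X : Type*} (K : ℕ) (sg : ℕ → Vx n → ℤ) (T : Finset X) (cost : X → ℝ)
    (ω : ℕ → Vx n → X → ℝ) (hω : ∀ i c x, 0 ≤ ω i c x) {B : ℝ}
    (h1 : ∀ x ∈ T, ∃ i < K, ∃ c, sg i c ≠ 0 ∧ cost x ≤ ω i c x)
    (h2 : ∀ i c, ∑ x ∈ T, ω i c x ≤ B) : ∑ x ∈ T, cost x ≤ B * nb K sg := by
  calc ∑ x ∈ T, cost x ≤ ∑ x ∈ T, ∑ i ∈ range K, ∑ c, |(sg i c : ℝ)| * ω i c x := by
        refine sum_le_sum fun x hx => ?_
        obtain ⟨i, hi, c, hc, h⟩ := h1 x hx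
        have a1 : (1 : ℝ) ≤ |(sg i c : ℝ)| := by exact_mod_cast Int.one_le_abs hc
        refine (h.trans (le_mul_of_one_le_left (hω i c x) a1)).trans ?_
        refine le_trans (single_le_sum (f := fun c => |(sg i c : ℝ)| * ω i c x)
          (fun c _ => mul_nonneg (abs_nonneg _) (hω i c x)) (mem_univ c)) ?_
        exact single_le_sum (f := fun i => ∑ c, |(sg i c : ℝ)| * ω i c x)
          (fun i _ => sum_nonneg fun c _ => mul_nonneg (abs_nonneg _) (hω i c x)) (mem_range.2 hi)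
    _ = ∑ i ∈ range K, ∑ c, |(sg i c : ℝ)| * ∑ x ∈ T, ω i c x := by
        rw [sum_comm]
        refine sum_congr rfl fun i _ => ?_
        rw [sum_comm]
        exact sum_congr rfl fun c _ => (mul_sum _ _ _).symm
    _ ≤ B * nb K sg := by
        rw [nb, mul_sum]
        refine sum_le_sum fun i _ => ?_
        rw [mul_sum]
        refine sum_le_sum fun c _ => ?_
        rw [mul_comm B]
        exact mul_le_mul_of_nonneg_left (h2 i c) (abs_nonneg _)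

lemma min_scale (K : ℕ) {sg : ℕ → Vx n → ℤ} (hs : Sep sg) {F : Finset (Vx n × Vx n)}
    (hF : F ⊆ Ed n) (h : ∃ e ∈ F, sw K sg e.1 ≠ sw K sg e.2) :
    ∃ m < K, ∃ c, sg m c ≠ 0 ∧ (∃ e ∈ F, near m c e) ∧
      ∀ e ∈ F, |sw K sg e.1 - sw K sg e.2| ≤ 17 / rr m := by
  classical
  obtain ⟨e, he, h⟩ := h
  obtain ⟨i, hi, c, hc, hn⟩ := sw_grad_ne K h
  have ex : ∃ i, ∃ c, sg i c ≠ 0 ∧ ∃ e ∈ F, near i c e := ⟨i, c, hc, e, he, hn⟩
  obtain ⟨c', h1, h2⟩ := Nat.find_spec ex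
  refine ⟨Nat.find ex, (Nat.find_min' ex ⟨c, hc, e, he, hn⟩).trans_lt hi, c', h1, h2,
    fun e' he' => sw_grad K hs (hF he') _ fun j hj d hd hn' => ?_⟩
  exact Nat.find_min ex hj ⟨d, hd, e', he', hn'⟩

lemma gr_sh (φ : Vx n → ℂ) (a : Vx n → ℝ) (t : ℂ) (e : Vx n × Vx n) :
    gr (sh φ a t) e = gr φ e + t * (a e.1 - a e.2 : ℝ) := by
  simp only [gr, sh]; push_cast; ring

lemma im_sh {φ : Vx n → ℂ} {a : Vx n → ℝ} {t : ℂ} {e : Vx n × Vx n} {A B C : ℝ}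
    (h1 : |(gr φ e).im| ≤ A) (h2 : |t.im| ≤ B) (h3 : |a e.1 - a e.2| ≤ C) :
    |(gr (sh φ a t) e).im| ≤ A + B * C := by
  rw [gr_sh, add_im, mul_im, ofReal_im, ofReal_re, mul_zero, zero_add]
  refine (abs_add_le _ _).trans (add_le_add h1 ?_)
  rw [abs_mul]
  exact mul_le_mul h2 h3 (abs_nonneg _) ((abs_nonneg _).trans h2)

lemma cx_tube {Y : ℝ} (hY : 1 ≤ Y) (j : ℕ) (τ : Vx n) (ψ : Vx n → ℝ) : cx ψ ∈ tube Y j τ := by
  intro e _
  have := rr_posR j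
  simp only [gr, cx, sub_im, ofReal_im, sub_self, abs_zero]
  positivity

lemma logZ {Y : ℝ} (hY : 1 ≤ Y) {j : ℕ} {τ : Vx n} {Z : (Vx n → ℂ) → ℂ} (hZ : ZP Y j τ Z)
    (hre : ∀ ψ, (Z (cx ψ)).im = 0) {φ : Vx n → ℂ} {g : ℝ} (hg : 0 < g) (hg' : g < Y / rr j)
    (h : ∀ e ∈ blk j τ, |(gr φ e).im| ≤ g) :
    |Real.log ‖1 + Z φ‖ - Real.log ‖1 + Z (cx fun x => (φ x).re)‖| ≤
      6 * eta Y j * g ^ 2 / (Y / rr j) ^ 2 := by
  set ψ : Vx n → ℝ := fun x => (φ x).re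
  set b : Vx n → ℝ := fun x => (φ x).im
  have hin : ∀ t ∈ ball (0 : ℂ) (Y / rr j / g), pt ψ b t ∈ tube Y j τ := by
    intro t ht e he
    have h1 : ‖t‖ < Y / rr j / g := by simpa using ht
    have h2 := im_sh (φ := cx ψ) (a := b) (t := t) (e := e) (A := 0) (by simp [gr, cx])
      (abs_im_le_norm t) (C := g) (by simpa [gr, b] using h e he)
    rw [lt_div_iff₀ hg] at h1
    exact h2.trans_lt (by linarith)
  have hb : ∀ t ∈ ball (0 : ℂ) (Y / rr j / g), ‖Z (pt ψ b t)‖ ≤ 1 / 2 := fun t ht =>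
    (hZ.bd _ (hin t ht)).trans (eta_le hY j)
  have := schwarz2 (f := fun t => log (1 + Z (pt ψ b t))) (R := Y / rr j / g)
    (B := 3 / 2 * eta Y j) ?_ ?_ ?_ (y := 1) (by rw [abs_one, lt_div_iff₀ hg]; linarith)
  · have e1 : pt ψ b ((1 : ℝ) * I) = φ := by
      ext x; simp only [pt, ψ, b]; rw [← re_add_im (φ x)]; simp [mul_comm]
    simp only [e1, pt_zero, log_re] at this
    refine this.trans (le_of_eq ?_)
    have := rr_posR j
    field_simp; ring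
  · refine DifferentiableOn.clog (DifferentiableOn.const_add _ ?_) fun t ht => ?_
    · exact hZ.diff.comp (fun t _ => (hasDerivAt_pt ψ b t).differentiableAt.differentiableWithinAt)
        hin
    · exact mem_slitPlane_of_norm_lt_one (by linarith [hb t ht])
  · intro t ht
    exact (norm_log_one_add_half_le_self (hb t ht)).trans (by gcongr; exact hZ.bd _ (hin t ht))
  · intro t ht
    have e : pt ψ b t = cx fun x => ψ x + t * b x := by ext x; simp [pt, cx]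
    have h1 := hb t (by simpa using ht)
    rw [log_im, arg_eq_zero_iff]
    have h2 := (abs_le.1 ((abs_re_le_norm _).trans h1)).1
    refine ⟨by simp only [add_re, one_re]; linarith, ?_⟩
    rw [e]; simp [hre]

lemma norm_one_add {z : ℂ} {η : ℝ} (h : ‖z‖ ≤ η) (hη : η ≤ 1 / 2) :
    Real.exp (-(2 * η)) ≤ ‖1 + z‖ ∧ ‖1 + z‖ ≤ Real.exp η := by
  have h0 : 0 ≤ η := (norm_nonneg _).trans h
  constructor
  · have h1 := norm_sub_norm_le 1 (-z)
    simp only [norm_one, norm_neg, sub_neg_eq_add] at h1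
    have h2 := Real.add_one_le_exp (2 * η)
    rw [Real.exp_neg]
    refine (inv_anti₀ (by linarith) h2).trans ?_
    rw [inv_le_iff_one_le_mul₀ (by linarith)]
    nlinarith
  · have := norm_add_le 1 z
    have := Real.add_one_le_exp η
    simp only [norm_one] at *
    linarith

lemma one_add_ne {Y : ℝ} (hY : 1 ≤ Y) {j : ℕ} {τ : Vx n} {Z : (Vx n → ℂ) → ℂ} (hZ : ZP Y j τ Z)
    {φ : Vx n → ℂ} (h : φ ∈ tube Y j τ) : 1 + Z φ ≠ 0 :=
  norm_pos_iff.1 ((Real.exp_pos _).trans_le (norm_one_add (hZ.bd φ h) (eta_le hY j)).1)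

lemma ratio_crude {Y : ℝ} (hY : 1 ≤ Y) {j : ℕ} {τ : Vx n} {Z : (Vx n → ℂ) → ℂ} (hZ : ZP Y j τ Z)
    {φ φ' : Vx n → ℂ} (h : φ ∈ tube Y j τ) (h' : φ' ∈ tube Y j τ) :
    ‖(1 + Z φ') / (1 + Z φ)‖ ≤ Real.exp (3 * eta Y j) := by
  have h1 := (norm_one_add (hZ.bd φ h) (eta_le hY j)).1
  have h2 := (norm_one_add (hZ.bd φ' h') (eta_le hY j)).2
  rw [norm_div]
  refine (div_le_div₀ (Real.exp_pos _).le h2 (Real.exp_pos _) h1).trans (le_of_eq ?_)
  rw [← Real.exp_sub]; ring_nf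

lemma ratio_fine {Y : ℝ} (hY : 1 ≤ Y) {j : ℕ} {τ : Vx n} {Z : (Vx n → ℂ) → ℂ} (hZ : ZP Y j τ Z)
    (hre : ∀ ψ, (Z (cx ψ)).im = 0) {φ φ' : Vx n → ℂ} {g : ℝ} (hg : 0 < g) (hg' : g < Y / rr j)
    (h : ∀ e ∈ blk j τ, |(gr φ e).im| ≤ g) (h' : ∀ e ∈ blk j τ, |(gr φ' e).im| ≤ g)
    (hr : ∀ x, (φ' x).re = (φ x).re) :
    ‖(1 + Z φ') / (1 + Z φ)‖ ≤ Real.exp (12 * eta Y j * g ^ 2 / (Y / rr j) ^ 2) := by
  have h1 := abs_le.1 (logZ hY hZ hre hg hg' h)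
  have h2 := abs_le.1 (logZ hY hZ hre hg hg' h')
  simp only [hr] at h2
  have n1 := norm_pos_iff.2 (one_add_ne hY hZ (φ := φ) fun e he => (h e he).trans_lt hg')
  have n2 := norm_pos_iff.2 (one_add_ne hY hZ (φ := φ') fun e he => (h' e he).trans_lt hg')
  rw [norm_div, ← Real.exp_log (div_pos n2 n1), Real.log_div n2.ne' n1.ne']
  refine Real.exp_le_exp.2 ?_
  have : 12 * eta Y j * g ^ 2 / (Y / rr j) ^ 2 = 2 * (6 * eta Y j * g ^ 2 / (Y / rr j) ^ 2) := by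
    ring
  linarith [h1.1, h2.2]

/-- pinned corner -/
def vz (n : ℕ) : Vx n := (0, 0)
/-- opposite corner -/
def vl (n : ℕ) : Vx n := (Fin.last n, Fin.last n)

/-- normalised spin wave -/
noncomputable def nw (K : ℕ) (sg : ℕ → Vx n → ℤ) (x : Vx n) : ℝ := sw K sg x - sw K sg (vz n)

lemma nw_sub (K : ℕ) (sg : ℕ → Vx n → ℤ) (x y : Vx n) :
    nw K sg x - nw K sg y = sw K sg x - sw K sg y := by unfold nw; ring

noncomputable def act (K : ℕ) (sg : ℕ → Vx n → ℤ) : Finset (Vx n × Vx n) :=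
  (Ed n).filter fun e => sw K sg e.1 ≠ sw K sg e.2

lemma cost_edge {W : ℂ → ℂ} {Y b y t : ℝ} (hW : WP W Y b) (hb : 0 ≤ b) (K : ℕ)
    {sg : ℕ → Vx n → ℤ} (hs : Sep sg) (hy : 0 < y) (hyY : y ≤ Y) (ht : |t| ≤ y) {φ : Vx n → ℂ}
    (hE : ∀ i c, ∀ e ∈ Ed n, sg i c ≠ 0 → near i c e → |(gr φ e).im| ≤ y / rr i) :
    ‖∏ e ∈ act K sg, exp (W (gr φ e) - W (gr (sh φ (nw K sg) (t * I)) e))‖ ≤
      Real.exp (12000 * b * y ^ 2 * nb K sg) := by
  rw [norm_prod]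
  simp only [norm_exp]
  rw [← Real.exp_sum]
  refine Real.exp_le_exp.2 (dcount K sg _ _
    (fun i c e => if near i c e then 648 * b * y ^ 2 / (rr i : ℝ) ^ 2 else 0) ?_ ?_ ?_)
  · intro i c e; split_ifs <;> positivity
  · intro e he
    rw [act, mem_filter] at he
    obtain ⟨m, hm, c, hc, ⟨e', he', hn⟩, hg⟩ := min_scale K hs (F := {e}) (by simp [he.1])
      ⟨e, by simp, he.2⟩
    rw [mem_singleton] at he'
    subst he'
    refine ⟨m, hm, c, hc, ?_⟩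
    rw [if_pos hn]
    have h1 := hE m c e' he.1 hc hn
    have h2 := im_sh (a := nw K sg) (t := t * I) h1 (B := y) (C := 17 / rr m) (by simpa using ht)
      (by rw [nw_sub]; exact hg e' (by simp))
    have r1 := rr_oneR m
    have e1 : y / rr m + y * (17 / rr m) = 18 * (y / rr m) := by ring
    have a0 : 0 < y / rr m := by positivity
    have a1 : y / rr m ≤ y := div_le_self hy.le r1
    rw [e1] at h2
    have c1 := abs_le.1 (hW.curv (gr φ e') (h1.trans_lt (by linarith)))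
    have c2 := abs_le.1 (hW.curv (gr (sh φ (nw K sg) (t * I)) e') (h2.trans_lt (by linarith)))
    have e2 : (gr (sh φ (nw K sg) (t * I)) e').re = (gr φ e').re := by rw [gr_sh]; simp
    rw [e2] at c2
    have s1 : (gr φ e').im ^ 2 ≤ (18 * (y / rr m)) ^ 2 :=
      sq_le_sq' (by linarith [(abs_le.1 h1).1]) (by linarith [(abs_le.1 h1).2])
    have s2 : (gr (sh φ (nw K sg) (t * I)) e').im ^ 2 ≤ (18 * (y / rr m)) ^ 2 :=
      sq_le_sq' (abs_le.1 h2).1 (abs_le.1 h2).2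
    have e3 : 648 * b * y ^ 2 / (rr m : ℝ) ^ 2 = 2 * b * (18 * (y / rr m)) ^ 2 := by
      field_simp; ring
    rw [e3, sub_re]
    nlinarith [mul_le_mul_of_nonneg_left s1 hb, mul_le_mul_of_nonneg_left s2 hb]
  · intro i c
    rw [← sum_filter, sum_const, nsmul_eq_mul]
    have h1 : (((act K sg).filter (near i c)).card : ℝ) ≤ 18 * (rr i : ℝ) ^ 2 :=
      le_trans (by exact_mod_cast card_le_card (filter_subset_filter _ (filter_subset _ _)))
        (near_card i c)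
    have := rr_posR i
    calc _ ≤ 18 * (rr i : ℝ) ^ 2 * (648 * b * y ^ 2 / (rr i : ℝ) ^ 2) := by gcongr
      _ = 11664 * b * y ^ 2 := by field_simp; ring
      _ ≤ _ := by gcongr; norm_num

/-- touched by the spin wave -/
def Tch (K : ℕ) (sg : ℕ → Vx n → ℤ) (j : ℕ) (τ : Vx n) : Prop :=
  ∃ e ∈ blk j τ, sw K sg e.1 ≠ sw K sg e.2

lemma blk_sub (j : ℕ) (τ : Vx n) : blk j τ ⊆ Ed n := filter_subset _ _

lemma tch_data (K : ℕ) {sg : ℕ → Vx n → ℤ} (hs : Sep sg) {j : ℕ} {τ : Vx n} (hj : 1 ≤ j)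
    (h : Tch K sg j τ) (hf : ∀ i c, sg i c ≠ 0 → i ≤ j → rr j ≤ 2 * ds c τ) :
    ∃ m < K, ∃ c, sg m c ≠ 0 ∧ j < m ∧ 8 * ds c τ < 2 * rr m + 8 + rr j ∧
      ∀ e ∈ blk j τ, |nw K sg e.1 - nw K sg e.2| ≤ 17 / rr m := by
  obtain ⟨m, hm, c, hc, ⟨e, he, hn⟩, hg⟩ := min_scale K hs (blk_sub j τ) h
  have h1 := near_ds (blk_sub j τ he) hn
  have h2 := (mem_filter.1 he).2
  have h3 := ds_tri c e.1 τ
  rw [ds_comm e.1 τ] at h3
  refine ⟨m, hm, c, hc, ?_, by omega, fun e he => by rw [nw_sub]; exact hg e he⟩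
  by_contra hle
  have h4 := hf m c hc (not_lt.1 hle)
  have h5 := rr_mono (not_lt.1 hle)
  have h6 : rr 1 ≤ rr j := rr_mono hj
  have h7 : rr 1 = 64 := rfl
  omega

lemma log_le_of {x y : ℝ} (hx : 0 ≤ x) (h : x ≤ Real.exp y) (hy : 0 ≤ y) : Real.log x ≤ y := by
  rcases hx.eq_or_lt with rfl | hx
  · simpa
  · exact (Real.log_le_iff_le_exp hx).2 h

lemma cost_fine {Y y t : ℝ} (hY : 1 ≤ Y) (K : ℕ) {sg : ℕ → Vx n → ℤ} (hs : Sep sg) (hy : 0 < y)
    (hyY : y ≤ Y) (ht : |t| ≤ y) {φ : Vx n → ℂ} {T : Finset (Vx n)} {sc : Vx n → ℕ}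
    {Z : Vx n → (Vx n → ℂ) → ℂ} (hZ : ∀ τ ∈ T, ZP Y (sc τ) τ (Z τ))
    (hre : ∀ τ ∈ T, ∀ ψ, (Z τ (cx ψ)).im = 0) (hpos : ∀ τ ∈ T, 1 ≤ sc τ)
    (htc : ∀ τ ∈ T, Tch K sg (sc τ) τ)
    (hf : ∀ τ ∈ T, ∀ i c, sg i c ≠ 0 → i ≤ sc τ → rr (sc τ) ≤ 2 * ds c τ)
    (hsp : ∀ τ ∈ T, ∀ τ' ∈ T, τ ≠ τ' → sc τ = sc τ' → rr (sc τ) ≤ ds τ τ')
    (hE : ∀ τ ∈ T, ∀ e ∈ blk (sc τ) τ, ∀ i c, sg i c ≠ 0 → |(gr φ e).im| ≤ y / rr i) :
    ‖∏ τ ∈ T, (1 + Z τ (sh φ (nw K sg) (t * I))) / (1 + Z τ φ)‖ ≤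
      Real.exp (70000 * Real.exp (-Y) * (y / Y) ^ 2 * nb K sg) := by
  rw [norm_prod]
  have key : ∀ τ ∈ T, ∃ i < K, ∃ c, sg i c ≠ 0 ∧
      Real.log ‖(1 + Z τ (sh φ (nw K sg) (t * I))) / (1 + Z τ φ)‖ ≤
        if sc τ < i ∧ ds c τ ≤ rr i then
          3888 * eta Y (sc τ) * (y / Y) ^ 2 * ((rr (sc τ) : ℝ) / rr i) ^ 2 else 0 := by
    intro τ hτ
    obtain ⟨m, hm, c, hc, h1, h2, h3⟩ := tch_data K hs (hpos τ hτ) (htc τ hτ) (hf τ hτ)
    have r1 := rr_lt h1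
    have r0 := rr_pos (sc τ)
    refine ⟨m, hm, c, hc, ?_⟩
    rw [if_pos ⟨h1, by omega⟩]
    have p1 := rr_posR m
    have p2 := rr_posR (sc τ)
    have r2 : 64 * (rr (sc τ) : ℝ) ≤ rr m := by exact_mod_cast r1
    have a0 : 0 < y / rr m := by positivity
    have := ratio_fine hY (hZ τ hτ) (hre τ hτ) (φ := φ) (φ' := sh φ (nw K sg) (t * I))
      (g := 18 * (y / rr m)) (by positivity) ?_ (fun e he => by linarith [hE τ hτ e he m c hc])
      (fun e he => (im_sh (hE τ hτ e he m c hc) (B := y) (by simpa using ht) (h3 e he)).trans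
        (le_of_eq (by ring))) (fun x => by simp [sh])
    · have p0 := eta_pos Y (sc τ)
      refine (log_le_of (norm_nonneg _) this (by positivity)).trans (le_of_eq ?_)
      field_simp; ring
    · rw [← mul_div_assoc, div_lt_div_iff₀ p1 p2]; nlinarith
  have h2 := dcount K sg T _ _ (B := 3888 * 9 * (y / Y) ^ 2 * (2 * Real.exp (-Y))) (fun i c τ => by
    have := eta_pos Y (sc τ); split_ifs <;> positivity) key (fun i c => by
      rw [← sum_filter]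
      refine scale_sum Y _ sc (fun j => 3888 * eta Y j * (y / Y) ^ 2 * ((rr j : ℝ) / rr i) ^ 2)
        (by positivity) fun j => ?_
      have p0 := eta_pos Y j
      have p1 := rr_posR i
      have p2 := rr_posR j
      by_cases hj : j < i
      · have e : rr i = rr (i - j) * rr j := by unfold rr; rw [← pow_add]; congr 1; omega
        have := packing ((T.filter fun τ => sc τ < i ∧ ds c τ ≤ rr i).filter fun τ => sc τ = j) c
          (rr (i - j)) (rr_pos j) (fun x hx => by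
            rw [← e]; exact (mem_filter.1 (mem_filter.1 hx).1).2.2) (fun x hx x' hx' hne => by
            have a1 := (mem_filter.1 hx).2
            have a2 := (mem_filter.1 hx').2
            rw [← a1]
            exact hsp x (mem_filter.1 (mem_filter.1 hx).1).1 x'
              (mem_filter.1 (mem_filter.1 hx').1).1 hne (a1.trans a2.symm))
        have h3 : ((((T.filter fun τ => sc τ < i ∧ ds c τ ≤ rr i).filter
          fun τ => sc τ = j).card : ℕ) : ℝ) ≤ (2 * rr (i - j) + 1) ^ 2 := by exact_mod_cast this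
        have p3 := rr_oneR (i - j)
        have h4 : (2 * (rr (i - j) : ℝ) + 1) ^ 2 ≤ 9 * (rr (i - j) : ℝ) ^ 2 := by nlinarith
        refine (mul_le_mul_of_nonneg_right (h3.trans h4) (by positivity)).trans (le_of_eq ?_)
        rw [e]; push_cast; field_simp
      · rw [filter_eq_empty_iff.2, card_empty]
        · simp only [Nat.cast_zero, zero_mul]; positivity
        · intro τ hτ e
          exact hj (e ▸ (mem_filter.1 hτ).2.1))
  refine (prod_le_prod (fun _ _ => norm_nonneg _) fun τ _ => Real.le_exp_log _).trans ?_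
  rw [← Real.exp_sum]
  refine Real.exp_le_exp.2 (h2.trans ?_)
  have := nb_nonneg K sg
  have := Real.exp_pos (-Y)
  have : 3888 * 9 * (y / Y) ^ 2 * (2 * Real.exp (-Y)) = 69984 * Real.exp (-Y) * (y / Y) ^ 2 := by
    ring
  rw [this]
  gcongr; norm_num

end Pool.Agent.Lib.MP_9cc147_pr
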