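import Pool.Agent.Lib.MP_9cc147_pr.Final

/-! The Fejer kernel: convex decomposition and approximate identity. -/

open Finset MeasureTheory Filter Topology
open scoped Real

namespace Pool.Agent.Lib.MP_9cc147_pr

variable {n : ℕ}

noncomputable def GG (N : ℕ) (t : ℝ) : ℝ :=
  (N + 1) + ∑ q ∈ range N, 2 * ((N : ℝ) - q) * Real.cos ((q + 1) * t)

lemma dir_id (N : ℕ) (t : ℝ) : (1 - Real.cos t) * (1 + ∑ q ∈ range N, 2 * Real.cos ((q + 1) * t)) =
    Real.cos (N * t) - Real.cos ((N + 1) * t) := by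
  induction N with
  | zero => simp
  | succ N ih =>
    rw [sum_range_succ, ← add_assoc, mul_add, ih]
    have e1 : ((N + 1 : ℕ) + 1 : ℝ) * t = (N + 1) * t + t := by push_cast; ring
    have e2 : (N : ℝ) * t = (N + 1) * t - t := by ring
    rw [e1, e2, Real.cos_add, Real.cos_sub]
    push_cast; ring

lemma GG_id (N : ℕ) (t : ℝ) : (1 - Real.cos t) * GG N t = 1 - Real.cos ((N + 1) * t) := by
  induction N with
  | zero => simp [GG]
  | succ N ih =>
    have e : GG (N + 1) t = GG N t + (1 + ∑ q ∈ range (N + 1), 2 * Real.cos ((q + 1) * t)) := by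
      have : ∑ q ∈ range (N + 1), 2 * (((N + 1 : ℕ) : ℝ) - q) * Real.cos ((q + 1) * t) =
          ∑ q ∈ range (N + 1), 2 * ((N : ℝ) - q) * Real.cos ((q + 1) * t) +
          ∑ q ∈ range (N + 1), 2 * Real.cos ((q + 1) * t) := by
        rw [← sum_add_distrib]
        exact sum_congr rfl fun q _ => by push_cast; ring
      rw [GG, GG, this, sum_range_succ (n := N) fun q => 2 * ((N : ℝ) - q) * _]
      push_cast; ring
    rw [e, mul_add, ih, dir_id]
    push_cast; ring

lemma GG_nonneg (N : ℕ) (t : ℝ) : 0 ≤ GG N t := by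
  rcases (Real.cos_le_one t).eq_or_lt with h | h
  · obtain ⟨k, rfl⟩ := (Real.cos_eq_one_iff t).1 h
    refine add_nonneg (by positivity) (sum_nonneg fun q hq => ?_)
    have : ((q : ℝ) + 1) * (k * (2 * π)) = ((q + 1) * k : ℤ) * (2 * π) := by push_cast; ring
    rw [this, Real.cos_int_mul_two_pi]
    have : (q : ℝ) ≤ N := by exact_mod_cast (mem_range.1 hq).le
    linarith
  · have := GG_id N t
    have h2 := Real.cos_le_one ((N + 1) * t)
    by_contra hc
    nlinarith

noncomputable def FF (N : ℕ) (s : ℝ) : ℝ := GG N (2 * π * s) / (N + 1)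

lemma FF_nonneg (N : ℕ) (s : ℝ) : 0 ≤ FF N s := div_nonneg (GG_nonneg _ _) (by positivity)

lemma FF_cont (N : ℕ) : Continuous (FF N) := by unfold FF GG; fun_prop

noncomputable def cq (N q : ℕ) : ℝ := if q = 0 then (1 / 2) ^ N else (1 / 2) ^ q
noncomputable def zq (N q : ℕ) : ℝ := if q = 0 then 0 else 2 * ((N : ℝ) + 1 - q) / (N + 1) * 2 ^ q

lemma FF_dec (N : ℕ) (s : ℝ) :
    FF N s = ∑ q ∈ range (N + 1), cq N q * (1 + zq N q * Real.cos (2 * π * (q * s))) := by
  have h1 : ∑ q ∈ range N, (1 / 2 : ℝ) ^ (q + 1) + (1 / 2) ^ N = 1 := by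
    induction N with
    | zero => simp
    | succ N ih => rw [sum_range_succ, pow_succ]; linarith
  rw [sum_range_succ']
  simp only [cq, zq, Nat.add_eq_zero_iff, one_ne_zero, and_false, if_false, if_true, mul_add,
    mul_one, sum_add_distrib, zero_mul, add_zero]
  rw [add_right_comm, h1, FF, GG, add_div, div_self (by positivity), sum_div]
  congr 1
  refine sum_congr rfl fun q _ => ?_
  rw [one_div, inv_pow]
  push_cast
  rw [show 2 * π * (((q : ℝ) + 1) * s) = (q + 1) * (2 * π * s) by ring]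
  field_simp; ring

lemma zq_le {N q : ℕ} (h : q ∈ range (N + 1)) : |zq N q| ≤ Real.exp (2 * q) := by
  unfold zq
  split_ifs with h0
  · simp [h0]
  have h1 : (q : ℝ) ≤ N := by exact_mod_cast Nat.lt_succ_iff.1 (mem_range.1 h)
  have h2 : (1 : ℝ) ≤ q := by exact_mod_cast Nat.pos_of_ne_zero h0
  have h3 : (2 : ℝ) ≤ Real.exp 1 := by linarith [Real.add_one_le_exp (1 : ℝ)]
  have h4 : (2 : ℝ) ^ q ≤ Real.exp q := by
    rw [← mul_one (q : ℝ), Real.exp_nat_mul]; gcongr
  have h5 : 2 * ((N : ℝ) + 1 - q) / (N + 1) ≤ Real.exp q := by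
    refine le_trans ?_ (h3.trans (Real.exp_le_exp.2 h2))
    rw [div_le_iff₀ (by positivity)]; linarith
  rw [abs_of_nonneg (mul_nonneg (div_nonneg (by linarith) (by positivity)) (by positivity)),
    two_mul (q : ℝ), Real.exp_add]
  exact mul_le_mul h5 h4 (by positivity) (by positivity)

noncomputable def KK (N : ℕ) (ψ : Vx n → ℝ) : ℝ := ∏ x, FF N (ψ x)

lemma KK_nonneg (N : ℕ) (ψ : Vx n → ℝ) : 0 ≤ KK N ψ := prod_nonneg fun _ _ => FF_nonneg _ _

lemma KK_cont (N : ℕ) : Continuous (KK (n := n) N) :=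
  continuous_finsetProd _ fun x _ => (FF_cont N).comp (continuous_apply x)

lemma KK_cone {P : ((Vx n → ℝ) → ℝ) → Prop} (hP : Cone P)
    (h : ∀ (q : Vx n → ℕ) (ζ : Vx n → ℝ), (∀ x, |ζ x| ≤ Real.exp (2 * q x)) →
      P (Psi (univ.filter fun x => q x ≠ 0) (ini q ζ))) (N : ℕ) : P (KK N) := by
  classical
  have e : KK (n := n) N = fun ψ => ∑ q ∈ Fintype.piFinset fun _ : Vx n => range (N + 1),
      (∏ x, cq N (q x)) * Psi (univ.filter fun x => q x ≠ 0) (ini q fun x => zq N (q x)) ψ := by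
    ext ψ
    simp only [KK, FF_dec, prod_univ_sum, prod_mul_distrib]
    refine sum_congr rfl fun q _ => ?_
    congr 1
    rw [Psi, prod_filter]
    refine prod_congr rfl fun x _ => ?_
    split_ifs with hx
    · simp [fac, ini, pr]
    · simp [not_not.1 hx, zq]
  have h0 : P fun _ => 0 := by
    simpa using hP.smul 0 _ le_rfl (h (fun _ => 0) (fun _ => 0) (by simp))
  have : ∀ s ⊆ Fintype.piFinset fun _ : Vx n => range (N + 1), P fun ψ => ∑ q ∈ s,
      (∏ x, cq N (q x)) * Psi (univ.filter fun x => q x ≠ 0) (ini q fun x => zq N (q x)) ψ := by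
    intro s
    induction s using Finset.induction_on with
    | empty => simpa using h0
    | insert a s ha ih =>
      intro hs
      simp only [sum_insert ha]
      refine hP.add _ _ (hP.smul _ _ (prod_nonneg fun x _ => ?_) (h _ _ fun x => zq_le ?_))
        (ih ((subset_insert _ _).trans hs))
      · unfold cq; split_ifs <;> positivity
      · exact Fintype.mem_piFinset.1 (hs (mem_insert_self _ _)) x
  exact e ▸ this _ Subset.rfl

def iv (k : ℤ) : Set ℝ := Set.Ico (k - 1 / 2) (k + 1 / 2)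

lemma iv_int (k : ℤ) (f : ℝ → ℝ) :
    ∫ s in iv k, f s = ∫ s in ((k : ℝ) - 1 / 2)..(k + 1 / 2), f s := by
  rw [intervalIntegral.integral_of_le (by linarith), iv, integral_Ico_eq_integral_Ioo,
    integral_Ioc_eq_integral_Ioo]

lemma icos (q : ℕ) (k : ℤ) :
    ∫ s in ((k : ℝ) - 1 / 2)..(k + 1 / 2), Real.cos ((q + 1) * (2 * π * s)) = 0 := by
  simp only [← mul_assoc]
  rw [intervalIntegral.integral_comp_mul_left Real.cos (by positivity), integral_cos]
  have : ((q : ℝ) + 1) * 2 * π * (k + 1 / 2) =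
    (q + 1) * 2 * π * (k - 1 / 2) + (q + 1 : ℕ) * (2 * π) := by push_cast; ring
  rw [this, Real.sin_add_nat_mul_two_pi, sub_self, smul_zero]

lemma iF (N : ℕ) (k : ℤ) : ∫ s in iv k, FF N s = 1 := by
  rw [iv_int]
  unfold FF GG
  rw [intervalIntegral.integral_div, intervalIntegral.integral_add (by simp)
    (Continuous.intervalIntegrable (by fun_prop) _ _), intervalIntegral.integral_finsetSum
    fun q _ => Continuous.intervalIntegrable (by fun_prop) _ _]
  simp only [intervalIntegral.integral_const_mul, icos]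
  simp; field_simp; ring

lemma iF2 (N : ℕ) (k : ℤ) :
    ∫ s in iv k, (1 - Real.cos (2 * π * s)) * FF N s = 1 / (N + 1) := by
  rw [iv_int]
  simp only [FF, ← mul_div_assoc, GG_id]
  rw [intervalIntegral.integral_div, intervalIntegral.integral_sub (by simp)
    (Continuous.intervalIntegrable (by fun_prop) _ _), icos]
  simp; ring

def box (m : Vx n → ℤ) : Set (Vx n → ℝ) := Set.univ.pi fun x => iv (m x)

lemma box_meas (m : Vx n → ℤ) : MeasurableSet (box m) :=
  MeasurableSet.univ_pi fun _ => measurableSet_Ico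

lemma mem_box {m : Vx n → ℤ} {ψ : Vx n → ℝ} : ψ ∈ box m ↔ ∀ x, round (ψ x) = m x := by
  simp [box, iv, round_eq_iff]

lemma box_near {m : Vx n → ℤ} {ψ : Vx n → ℝ} (h : ψ ∈ box m) (x : Vx n) : |ψ x - m x| ≤ 1 / 2 := by
  rw [← mem_box.1 h x]; exact abs_sub_round _

lemma box_prod (m : Vx n → ℤ) (f : Vx n → ℝ → ℝ) :
    ∫ ψ in box m, ∏ x, f x (ψ x) = ∏ x, ∫ s in iv (m x), f x s := by
  rw [box, volume_pi, Measure.restrict_pi_pi, integral_fintype_prod_eq_prod]

lemma box_sub (m : Vx n → ℤ) :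
    box m ⊆ Set.Icc (fun x => (m x : ℝ) - 1 / 2) fun x => (m x : ℝ) + 1 / 2 :=
  fun _ h => ⟨fun x => (h x trivial).1, fun x => (h x trivial).2.le⟩

lemma box_int {E : Type*} [NormedAddCommGroup E] (m : Vx n → ℤ) {f : (Vx n → ℝ) → E}
    (hf : Continuous f) : IntegrableOn f (box m) := hf.integrableOn_Icc.mono_set (box_sub m)

lemma iK (N : ℕ) (m : Vx n → ℤ) : ∫ ψ in box m, KK N ψ = 1 := by
  simp only [KK, box_prod m fun _ => FF N, iF, prod_const_one]

lemma iK2 (N : ℕ) (m : Vx n → ℤ) (x : Vx n) :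
    ∫ ψ in box m, (1 - Real.cos (2 * π * ψ x)) * KK N ψ = 1 / (N + 1) := by
  have := box_prod m fun y s => (if y = x then 1 - Real.cos (2 * π * s) else 1) * FF N s
  simp only [prod_mul_distrib, prod_ite_eq', mem_univ, if_true] at this
  simp only [KK]
  rw [this, prod_eq_single x]
  · simp only [if_true, iF2]
  · intro y _ hy
    simp only [hy, if_false, one_mul, iF]
  · simp

lemma approx (m : Vx n → ℤ) {Φ : (Vx n → ℝ) → ℂ} (hΦ : Continuous Φ) :
    Tendsto (fun N => ∫ ψ in box m, Φ ψ * KK N ψ) atTop (𝓝 (Φ fun x => m x)) := by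
  obtain ⟨M, hM⟩ := isCompact_Icc.exists_bound_of_continuousOn
    (s := Set.Icc (fun x => (m x : ℝ) - 1 / 2) fun x => (m x : ℝ) + 1 / 2)
    (f := fun ψ => Φ ψ - Φ fun x => m x) (by fun_prop)
  rw [Metric.tendsto_atTop]
  intro ε hε
  obtain ⟨δ, hδ, hc⟩ := Metric.continuous_iff.1 hΦ (fun x => m x) (ε / 2) (by positivity)
  set C := |M| / (8 * δ ^ 2) with hC
  have C0 : 0 ≤ C := by positivity
  have key : ∀ ψ ∈ box m, ‖Φ ψ - Φ fun x => m x‖ ≤
      ε / 2 + C * ∑ x, (1 - Real.cos (2 * π * ψ x)) := by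
    intro ψ hψ
    have s0 : ∀ x ∈ univ, 0 ≤ 1 - Real.cos (2 * π * ψ x) := fun x _ => by
      linarith [Real.cos_le_one (2 * π * ψ x)]
    by_cases h : dist ψ (fun x => (m x : ℝ)) < δ
    · have := (hc ψ h).le
      rw [dist_eq_norm] at this
      have := mul_nonneg C0 (sum_nonneg s0)
      linarith
    · rw [dist_pi_lt_iff hδ] at h
      push Not at h
      obtain ⟨x, hx⟩ := h
      rw [Real.dist_eq] at hx
      have h1 := box_near hψ x
      have hp := Real.pi_pos
      have h2 := Real.cos_le_one_sub_mul_cos_sq (x := 2 * π * (ψ x - m x)) (by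
        rw [abs_mul, abs_of_pos Real.two_pi_pos]; nlinarith)
      rw [mul_sub, mul_comm (2 * π) (m x), Real.cos_sub_int_mul_two_pi, mul_comm (m x : ℝ),
        ← mul_sub] at h2
      have h3 : 2 / π ^ 2 * (2 * π * (ψ x - m x)) ^ 2 = 8 * (ψ x - m x) ^ 2 := by
        field_simp; ring
      have h4 : δ ^ 2 ≤ (ψ x - m x) ^ 2 := by rw [← sq_abs (ψ x - m x)]; gcongr
      have h5 := single_le_sum s0 (mem_univ x)
      have h6 : C * (8 * δ ^ 2) ≤ C * ∑ x, (1 - Real.cos (2 * π * ψ x)) := by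
        gcongr; linarith
      rw [hC, div_mul_cancel₀ _ (by positivity)] at h6
      linarith [hM ψ (box_sub m hψ), le_abs_self M]
  obtain ⟨N0, hN0⟩ := exists_nat_gt (C * Fintype.card (Vx n) / (ε / 2))
  refine ⟨N0, fun N hN => ?_⟩
  have kc : Continuous fun ψ : Vx n → ℝ => (KK N ψ : ℂ) :=
    Complex.continuous_ofReal.comp (KK_cont N)
  have kc' := KK_cont (n := n) N
  have e1 : (∫ ψ in box m, Φ ψ * KK N ψ) - (Φ fun x => m x) =
      ∫ ψ in box m, (Φ ψ - Φ fun x => m x) * KK N ψ := by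
    simp only [sub_mul]
    rw [integral_sub (box_int m (by fun_prop)) (box_int m (by fun_prop)),
      integral_const_mul, integral_complex_ofReal, iK]
    simp
  rw [dist_eq_norm, e1]
  refine (norm_integral_le_of_norm_le (g := fun ψ => (ε / 2 + C * ∑ x,
    (1 - Real.cos (2 * π * ψ x))) * KK N ψ) (box_int m (by fun_prop)) ?_).trans_lt ?_
  · filter_upwards [ae_restrict_mem (box_meas m)] with ψ hψ
    rw [norm_mul, Complex.norm_real, Real.norm_of_nonneg (KK_nonneg N ψ)]
    exact mul_le_mul_of_nonneg_right (key ψ hψ) (KK_nonneg N ψ)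
  · simp only [add_mul, mul_assoc C, sum_mul]
    rw [integral_add (box_int m (by fun_prop)) (box_int m (by fun_prop)), integral_const_mul,
      integral_const_mul, integral_finsetSum _ fun x _ => box_int m (by fun_prop), iK]
    simp only [iK2, sum_const, card_univ, nsmul_eq_mul]
    have : (N0 : ℝ) ≤ N := by exact_mod_cast hN
    rw [div_lt_iff₀ (by positivity)] at hN0
    have h2 : C * (Fintype.card (Vx n) * (1 / (N + 1))) < ε / 2 := by
      rw [← mul_assoc, mul_one_div, div_lt_iff₀ (by positivity)]; nlinarith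
    linarith

lemma box_hasSum {E : Type*} [NormedAddCommGroup E] [NormedSpace ℝ E] {f : (Vx n → ℝ) → E}
    (hf : Integrable f) : HasSum (fun m : Vx n → ℤ => ∫ ψ in box m, f ψ) (∫ ψ, f ψ) := by
  have e : ⋃ m : Vx n → ℤ, box m = Set.univ :=
    Set.eq_univ_of_forall fun ψ => Set.mem_iUnion.2 ⟨fun x => round (ψ x), mem_box.2 fun _ => rfl⟩
  have := hasSum_integral_iUnion (μ := volume) (f := f) box_meas (fun m m' h => ?_) hf.integrableOn
  · rwa [e, Measure.restrict_univ] at this
  · refine Set.disjoint_left.2 fun ψ h1 h2 => h ?_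
    ext x; rw [← mem_box.1 h1 x, mem_box.1 h2 x]

/-- integer point as a real point -/
def rl (m : Vx n → ℤ) : Vx n → ℝ := fun x => m x

lemma maj_le {a b p : ℝ} (ha : 0 ≤ a) (hb : 0 ≤ b) (hp : 0 ≤ p) (h : a ≤ b + 1 / 2) :
    (1 + b) ^ (-p) ≤ 2 ^ p * (1 + a) ^ (-p) := by
  rw [Real.rpow_neg (by positivity), Real.rpow_neg (by positivity), ← div_eq_mul_inv,
    inv_eq_one_div, div_le_div_iff₀ (by positivity) (by positivity), one_mul,
    ← Real.mul_rpow (by positivity) (by positivity)]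
  exact Real.rpow_le_rpow (by positivity) (by linarith) hp

lemma box_norm {m : Vx n → ℤ} {ψ : Vx n → ℝ} (h : ψ ∈ box m) : ‖ψ - rl m‖ ≤ 1 / 2 :=
  (pi_norm_le_iff_of_nonneg (by norm_num)).2 fun x => box_near h x

lemma summable_maj : Summable fun m : Vx n → ℤ => (1 + ‖rl m‖) ^ (-pp n) := by
  have hp : 0 ≤ pp n := by unfold pp; positivity
  refine Summable.of_nonneg_of_le (fun _ => by positivity) (fun m => ?_)
    ((box_hasSum (integrable_maj.const_mul (2 ^ pp n))).summable)
  have h1 : ∫ ψ in box m, (1 + ‖rl m‖) ^ (-pp n) * KK 0 ψ = (1 + ‖rl m‖) ^ (-pp n) := by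
    rw [integral_const_mul, iK, mul_one]
  rw [← h1]
  refine setIntegral_mono_on (box_int m (continuous_const.mul (KK_cont 0)))
    (integrable_maj.const_mul _).integrableOn (box_meas m) fun ψ hψ => ?_
  have : KK 0 ψ = 1 := by simp [KK, FF, GG]
  rw [this, mul_one]
  exact maj_le (norm_nonneg _) (norm_nonneg _) hp
    (by linarith [norm_sub_norm_le ψ (rl m), box_norm hψ])

lemma chi_box {m : Vx n → ℤ} {ψ : Vx n → ℝ} (h : ψ ∈ box m) :
    chi ψ = if m (vz n) = 0 then 1 else 0 := by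
  rw [← mem_box.1 h (vz n)]
  simp only [chi, win, round_eq_iff, Set.mem_Ico]
  norm_num

lemma limit {W : ℂ → ℂ} {Y b : ℝ} (hW : WP W Y b) (hY : 1 ≤ Y) (lam : ℝ) :
    Tendsto (fun N => ∫ ψ : Vx n → ℝ, Base W lam (cx ψ) * (KK N ψ * chi ψ)) atTop
      (𝓝 (∑' m : Vx n → ℤ, if m (vz n) = 0 then Base W lam (cx (rl m)) else 0)) := by
  have hp : 0 ≤ pp n := by unfold pp; positivity
  obtain ⟨C, hC0, hC⟩ := weight_bound (n := n) hW hp (R := 2) (by norm_num)
  have e : ∀ N, ∫ ψ : Vx n → ℝ, Base W lam (cx ψ) * (KK N ψ * chi ψ) = ∑' m : Vx n → ℤ,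
      if m (vz n) = 0 then ∫ ψ in box m, Base W lam (cx ψ) * KK N ψ else 0 := by
    intro N
    obtain ⟨M, hM⟩ : ∃ M, ∀ s, |FF N s| ≤ M := by
      refine ⟨∑ q ∈ range (N + 1), |cq N q| * (1 + |zq N q|), fun s => ?_⟩
      rw [FF_dec]
      refine (abs_sum_le_sum_abs _ _).trans (sum_le_sum fun q _ => ?_)
      rw [abs_mul]
      gcongr
      refine (abs_add_le _ _).trans ?_
      rw [abs_one, abs_mul]
      gcongr
      exact mul_le_of_le_one_right (abs_nonneg _) (Real.abs_cos_le_one _)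
    rw [← (box_hasSum (integrable_base hW hY lam (chi_adm.real (KK_cont N) (M := ∏ _x : Vx n, M)
      fun ψ => by
        rw [KK, abs_prod]; exact prod_le_prod (fun _ _ => abs_nonneg _) fun _ _ => hM _))).tsum_eq]
    refine tsum_congr fun m => ?_
    rw [setIntegral_congr_fun (box_meas m) fun ψ hψ => by rw [chi_box hψ]]
    split_ifs <;> simp
  simp only [e]
  refine tendsto_tsum_of_dominated_convergence ((summable_maj.mul_left (2 ^ pp n)).mul_left C)
    (fun m => ?_) (Eventually.of_forall fun N m => ?_)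
  · split_ifs
    · exact approx m (base_cont hW hY lam)
    · exact tendsto_const_nhds
  · split_ifs with hm
    · refine (norm_integral_le_of_norm_le (g := fun ψ =>
        C * (2 ^ pp n * (1 + ‖rl m‖) ^ (-pp n)) * KK N ψ)
        (box_int m (continuous_const.mul (KK_cont N))) ?_).trans (le_of_eq ?_)
      · filter_upwards [ae_restrict_mem (box_meas m)] with ψ hψ
        rw [norm_mul, Complex.norm_real, Real.norm_of_nonneg (KK_nonneg N ψ), norm_base_real]
        refine mul_le_mul_of_nonneg_right ((hC _ ψ (fun e _ => cx_strip hY ψ e) ?_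
          fun e _ => by simp [gr, cx]).trans (mul_le_mul_of_nonneg_left ?_ hC0)) (KK_nonneg N ψ)
        · have := box_near hψ (vz n)
          rw [hm, Int.cast_zero, sub_zero] at this
          linarith
        · exact maj_le (norm_nonneg _) (norm_nonneg _) hp
            (by linarith [norm_sub_norm_le (rl m) ψ, box_norm hψ, norm_sub_rev ψ (rl m)])
      · rw [integral_const_mul, iK, mul_one]
    · rw [norm_zero]; positivity

end Pool.Agent.Lib.MP_9cc147_pr
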