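import Mathlib

/-! Geometry of the box: distance, edges, packing, paths, bumps. -/

open Finset

namespace Pool.Agent.Lib.MP_9cc147_pr

abbrev Vx (n : ℕ) := Fin (n + 1) × Fin (n + 1)

variable {n : ℕ}

def ds (x y : Vx n) : ℕ := max ((x.1 : ℤ) - y.1).natAbs ((x.2 : ℤ) - y.2).natAbs

def Ed (n : ℕ) : Finset (Vx n × Vx n) :=
  univ.filter fun e => (e.2.1.val = e.1.1.val + 1 ∧ e.2.2.val = e.1.2.val) ∨
    (e.2.1.val = e.1.1.val ∧ e.2.2.val = e.1.2.val + 1)

lemma mem_Ed {e : Vx n × Vx n} : e ∈ Ed n ↔ (e.2.1.val = e.1.1.val + 1 ∧ e.2.2.val = e.1.2.val) ∨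
    (e.2.1.val = e.1.1.val ∧ e.2.2.val = e.1.2.val + 1) := by simp [Ed]

@[simp] lemma ds_self (x : Vx n) : ds x x = 0 := by simp [ds]
lemma ds_comm (x y : Vx n) : ds x y = ds y x := by unfold ds; omega
lemma ds_tri (x y z : Vx n) : ds x z ≤ ds x y + ds y z := by unfold ds; omega
lemma ds_pos {x y : Vx n} (h : x ≠ y) : 1 ≤ ds x y := by
  by_contra h'
  apply h
  unfold ds at h'
  ext <;> omega
lemma ds_le (x y : Vx n) : ds x y ≤ n := by
  have := x.1.2; have := x.2.2; have := y.1.2; have := y.2.2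
  unfold ds; omega
lemma ds_edge {e : Vx n × Vx n} (he : e ∈ Ed n) : ds e.1 e.2 ≤ 1 := by
  rw [mem_Ed] at he; unfold ds; omega

lemma div_eq_lt {a b s : ℕ} (hs : 0 < s) (h : a / s = b / s) : a < b + s := by
  have h1 := Nat.div_add_mod a s
  have h2 := Nat.div_add_mod b s
  have h3 := Nat.mod_lt a hs
  rw [h] at h1
  omega

lemma packing (T : Finset (Vx n)) (c : Vx n) {s : ℕ} (k : ℕ) (hs : 0 < s)
    (h1 : ∀ x ∈ T, ds c x ≤ k * s) (h2 : ∀ x ∈ T, ∀ y ∈ T, x ≠ y → s ≤ ds x y) :
    T.card ≤ (2 * k + 1) ^ 2 := by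
  have hb : ∀ a b : ℕ, ((a : ℤ) - b).natAbs ≤ k * s → (b + k * s - a) / s < 2 * k + 1 := by
    intro a b h
    rw [Nat.div_lt_iff_lt_mul hs]
    have : (2 * k + 1) * s = 2 * (k * s) + s := by ring
    omega
  have := card_le_card_of_injOn (s := T) (t := range (2 * k + 1) ×ˢ range (2 * k + 1))
    (fun x => ((x.1.val + k * s - c.1.val) / s, (x.2.val + k * s - c.2.val) / s)) ?_ ?_
  · simpa [sq] using this
  · intro x hx
    have := h1 x hx
    unfold ds at this
    simp only [coe_product, coe_range, Set.mem_prod, Set.mem_Iio]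
    exact ⟨hb _ _ (by omega), hb _ _ (by omega)⟩
  · intro x hx y hy hxy
    by_contra hne
    have h3 := h2 x hx y hy hne
    have h4 := h1 x hx
    have h5 := h1 y hy
    simp only [Prod.mk.injEq] at hxy
    have a1 := div_eq_lt hs hxy.1
    have a2 := div_eq_lt hs hxy.1.symm
    have a3 := div_eq_lt hs hxy.2
    have a4 := div_eq_lt hs hxy.2.symm
    unfold ds at h3 h4 h5
    omega

lemma path {G : Type*} [SeminormedAddCommGroup G] (f : Vx n → G) (c : Vx n) (R : ℕ) {θ : ℝ}
    (hθ : 0 ≤ θ) (h : ∀ e ∈ Ed n, ds c e.1 ≤ R → ds c e.2 ≤ R → ‖f e.1 - f e.2‖ ≤ θ)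
    (p : Vx n) (hp : ds c p ≤ R) : ‖f p - f c‖ ≤ 2 * ds c p * θ := by
  have key : ∀ m : ℕ, ∀ p : Vx n, ds c p ≤ R →
      ((c.1 : ℤ) - p.1).natAbs + ((c.2 : ℤ) - p.2).natAbs = m → ‖f p - f c‖ ≤ m * θ := by
    intro m
    induction m with
    | zero =>
      intro p _ hm
      have : p = c := by ext <;> omega
      simp [this]
    | succ m ih =>
      intro p hp hm
      have step : ∀ q : Vx n, ds c q ≤ R →
          ((c.1 : ℤ) - q.1).natAbs + ((c.2 : ℤ) - q.2).natAbs = m →
          ((p, q) ∈ Ed n ∨ (q, p) ∈ Ed n) → ‖f p - f c‖ ≤ (m + 1 : ℕ) * θ := by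
        intro q hq hqm he
        have h1 := ih q hq hqm
        have h2 : ‖f p - f q‖ ≤ θ := by
          rcases he with he | he
          · exact h _ he hp hq
          · rw [norm_sub_rev]; exact h _ he hq hp
        have h3 := norm_sub_le_norm_sub_add_norm_sub (f p) (f q) (f c)
        push_cast; linarith
      have := p.1.2; have := p.2.2; have := c.1.2; have := c.2.2
      unfold ds at hp step
      rcases lt_trichotomy p.1.val c.1.val with h1 | h1 | h1
      · refine step (⟨p.1.val + 1, by omega⟩, p.2) ?_ ?_ (Or.inl ?_)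
        · simp only; omega
        · simp only; omega
        · simp [mem_Ed]
      · rcases lt_trichotomy p.2.val c.2.val with h2 | h2 | h2
        · refine step (p.1, ⟨p.2.val + 1, by omega⟩) ?_ ?_ (Or.inl ?_)
          · simp only; omega
          · simp only; omega
          · simp [mem_Ed]
        · omega
        · refine step (p.1, ⟨p.2.val - 1, by omega⟩) ?_ ?_ (Or.inr ?_)
          · simp only; omega
          · simp only; omega
          · simp [mem_Ed]; omega
      · refine step (⟨p.1.val - 1, by omega⟩, p.2) ?_ ?_ (Or.inr ?_)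
        · simp only; omega
        · simp only; omega
        · simp [mem_Ed]; omega
  refine (key _ p hp rfl).trans ?_
  gcongr
  have : ((c.1 : ℤ) - p.1).natAbs + ((c.2 : ℤ) - p.2).natAbs ≤ 2 * ds c p := by
    unfold ds; omega
  exact_mod_cast this

/-- scales -/
def rr (i : ℕ) : ℕ := 64 ^ i

lemma rr_pos (i : ℕ) : 0 < rr i := by unfold rr; positivity
lemma rr_succ (i : ℕ) : rr (i + 1) = 64 * rr i := by unfold rr; ring
lemma rr_mono {i j : ℕ} (h : i ≤ j) : rr i ≤ rr j := Nat.pow_le_pow_right (by norm_num) h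
lemma rr_lt {i j : ℕ} (h : i < j) : 64 * rr i ≤ rr j := by rw [← rr_succ]; exact rr_mono h
lemma rr_posR (i : ℕ) : (0 : ℝ) < rr i := by exact_mod_cast rr_pos i
lemma rr_oneR (i : ℕ) : (1 : ℝ) ≤ rr i := by exact_mod_cast rr_pos i

noncomputable def bump (i : ℕ) (c x : Vx n) : ℝ := max 0 (min 1 (2 - 8 * ds c x / rr i))

lemma bump_nonneg (i : ℕ) (c x : Vx n) : 0 ≤ bump i c x := le_max_left _ _
lemma bump_le (i : ℕ) (c x : Vx n) : bump i c x ≤ 1 := max_le zero_le_one (min_le_left _ _)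
lemma bump_one {i : ℕ} {c x : Vx n} (h : 8 * ds c x ≤ rr i) : bump i c x = 1 := by
  have h1 : 8 * (ds c x : ℝ) / rr i ≤ 1 := by
    rw [div_le_one (rr_posR i)]; exact_mod_cast h
  rw [bump, min_eq_left (by linarith), max_eq_right zero_le_one]
lemma bump_zero {i : ℕ} {c x : Vx n} (h : rr i ≤ 4 * ds c x) : bump i c x = 0 := by
  have h1 : 2 ≤ 8 * (ds c x : ℝ) / rr i := by
    rw [le_div_iff₀ (rr_posR i)]
    have : (rr i : ℝ) ≤ 4 * ds c x := by exact_mod_cast h
    linarith
  rw [bump, max_eq_left ((min_le_right _ _).trans (by linarith))]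
lemma bump_lip (i : ℕ) (c : Vx n) {x y : Vx n} (h : ds x y ≤ 1) :
    |bump i c x - bump i c y| ≤ 8 / rr i := by
  have h1 : |(ds c x : ℝ) - ds c y| ≤ 1 := by
    have a := ds_tri c x y
    have b := ds_tri c y x
    rw [ds_comm y x] at b
    have a' : (ds c y : ℝ) ≤ ds c x + 1 := by exact_mod_cast (by omega : ds c y ≤ ds c x + 1)
    have b' : (ds c x : ℝ) ≤ ds c y + 1 := by exact_mod_cast (by omega : ds c x ≤ ds c y + 1)
    exact abs_le.2 ⟨by linarith, by linarith⟩
  refine (abs_max_sub_max_le_max _ _ _ _).trans (max_le (by simp; positivity) ?_)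
  refine (abs_min_sub_min_le_max _ _ _ _).trans (max_le (by simp; positivity) ?_)
  have : 2 - 8 * (ds c x : ℝ) / rr i - (2 - 8 * ds c y / rr i) =
      -(8 / rr i * ((ds c x : ℝ) - ds c y)) := by ring
  rw [this, abs_neg, abs_mul, abs_of_pos (div_pos (by norm_num) (rr_posR i))]
  exact mul_le_of_le_one_right (by have := rr_posR i; positivity) h1

/-- spin wave -/
noncomputable def sw (K : ℕ) (sg : ℕ → Vx n → ℤ) (x : Vx n) : ℝ :=
  ∑ i ∈ range K, ∑ c, (sg i c : ℝ) * bump i c x

/-- number of bumps -/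
noncomputable def nb (K : ℕ) (sg : ℕ → Vx n → ℤ) : ℝ := ∑ i ∈ range K, ∑ c, |(sg i c : ℝ)|

def near (i : ℕ) (c : Vx n) (e : Vx n × Vx n) : Prop := 4 * ds c e.1 < rr i ∨ 4 * ds c e.2 < rr i

instance (i : ℕ) (c : Vx n) (e : Vx n × Vx n) : Decidable (near i c e) := by
  unfold near; infer_instance

structure Sep (sg : ℕ → Vx n → ℤ) : Prop where
  le : ∀ i c, |sg i c| ≤ 1
  sep : ∀ i c c', sg i c ≠ 0 → sg i c' ≠ 0 → c ≠ c' → rr i ≤ ds c c'

lemma nb_nonneg (K : ℕ) (sg : ℕ → Vx n → ℤ) : 0 ≤ nb K sg := by unfold nb; positivity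

lemma sw_diff_le (K : ℕ) (sg : ℕ → Vx n → ℤ) (x y : Vx n) : |sw K sg x - sw K sg y| ≤ nb K sg := by
  unfold sw nb
  rw [← sum_sub_distrib]
  refine (abs_sum_le_sum_abs _ _).trans (sum_le_sum fun i _ => ?_)
  rw [← sum_sub_distrib]
  refine (abs_sum_le_sum_abs _ _).trans (sum_le_sum fun c _ => ?_)
  rw [← mul_sub, abs_mul]
  refine mul_le_of_le_one_right (abs_nonneg _) (abs_le.2 ⟨?_, ?_⟩) <;>
    linarith [bump_nonneg i c x, bump_nonneg i c y, bump_le i c x, bump_le i c y]

lemma sw_zero (K : ℕ) {sg : ℕ → Vx n → ℤ} {x : Vx n}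
    (h : ∀ i c, sg i c ≠ 0 → rr i ≤ 4 * ds c x) : sw K sg x = 0 := by
  refine sum_eq_zero fun i _ => sum_eq_zero fun c _ => ?_
  by_cases hc : sg i c = 0
  · simp [hc]
  · simp [bump_zero (h i c hc)]

lemma layer_grad {sg : ℕ → Vx n → ℤ} (hs : Sep sg) (i : ℕ) {e : Vx n × Vx n} (he : e ∈ Ed n) :
    |∑ c, (sg i c : ℝ) * bump i c e.1 - ∑ c, (sg i c : ℝ) * bump i c e.2| ≤ 16 / rr i := by
  have one : ∀ x : Vx n, (univ.filter fun c => sg i c ≠ 0 ∧ 4 * ds c x < rr i).card ≤ 1 := by
    intro x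
    refine card_le_one.2 fun a ha b hb => ?_
    simp only [mem_filter, mem_univ, true_and] at ha hb
    by_contra hab
    have := hs.sep i a b ha.1 hb.1 hab
    have h2 := ds_tri a x b
    rw [ds_comm x b] at h2
    omega
  set N := (univ.filter fun c => sg i c ≠ 0 ∧ 4 * ds c e.1 < rr i) ∪
    (univ.filter fun c => sg i c ≠ 0 ∧ 4 * ds c e.2 < rr i) with hN
  have hc : N.card ≤ 2 := (card_union_le _ _).trans (by linarith [one e.1, one e.2])
  rw [← sum_sub_distrib, ← sum_subset (subset_univ N)]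
  · refine (abs_sum_le_sum_abs _ _).trans ((sum_le_card_nsmul _ _ (8 / (rr i : ℝ)) ?_).trans ?_)
    · intro c _
      rw [← mul_sub, abs_mul]
      have h1 : |(sg i c : ℝ)| ≤ 1 := by exact_mod_cast hs.le i c
      exact (mul_le_of_le_one_left (abs_nonneg _) h1).trans (bump_lip i c (ds_edge he))
    · have : (N.card : ℝ) ≤ 2 := by exact_mod_cast hc
      have h3 : 0 < 8 / (rr i : ℝ) := div_pos (by norm_num) (rr_posR i)
      rw [nsmul_eq_mul]
      calc _ ≤ 2 * (8 / (rr i : ℝ)) := by gcongr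
        _ = _ := by ring
  · intro c _ hc
    simp only [hN, mem_union, mem_filter, mem_univ, true_and, not_or, not_and, not_lt] at hc
    by_cases h0 : sg i c = 0
    · simp [h0]
    · simp [bump_zero (hc.1 h0), bump_zero (hc.2 h0)]

lemma geo_sum (m K : ℕ) :
    ∑ i ∈ range K, (if m ≤ i then 16 / (rr i : ℝ) else 0) ≤ 17 / rr m - 17 / rr (max m K) := by
  induction K with
  | zero => simp
  | succ K ih =>
    rw [sum_range_succ]
    split_ifs with h
    · rw [max_eq_right h] at ih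
      rw [max_eq_right (by omega), rr_succ]
      have := rr_posR K
      have : 16 / (rr K : ℝ) ≤ 17 / rr K - 17 / (64 * rr K : ℕ) := by
        push_cast; field_simp; norm_num
      linarith
    · rw [max_eq_left (by omega)] at ih ⊢
      simpa using ih

lemma sw_grad (K : ℕ) {sg : ℕ → Vx n → ℤ} (hs : Sep sg) {e : Vx n × Vx n} (he : e ∈ Ed n) (m : ℕ)
    (h : ∀ i < m, ∀ c, sg i c ≠ 0 → ¬ near i c e) :
    |sw K sg e.1 - sw K sg e.2| ≤ 17 / rr m := by
  unfold sw
  rw [← sum_sub_distrib]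
  refine (abs_sum_le_sum_abs _ _).trans ((sum_le_sum fun i _ => ?_).trans ((geo_sum m K).trans ?_))
  · split_ifs with hi
    · exact layer_grad hs i he
    · rw [← sum_sub_distrib, sum_eq_zero, abs_zero]
      intro c _
      by_cases h0 : sg i c = 0
      · simp [h0]
      · have := h i (not_le.1 hi) c h0
        simp only [near, not_or, not_lt] at this
        simp [bump_zero this.1, bump_zero this.2]
  · have := rr_posR (max m K)
    have : 0 < 17 / (rr (max m K) : ℝ) := by positivity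
    linarith

lemma sw_grad_ne (K : ℕ) {sg : ℕ → Vx n → ℤ} {e : Vx n × Vx n}
    (h : sw K sg e.1 ≠ sw K sg e.2) : ∃ i < K, ∃ c, sg i c ≠ 0 ∧ near i c e := by
  by_contra hc
  push Not at hc
  apply h
  refine sum_congr rfl fun i hi => sum_congr rfl fun c _ => ?_
  by_cases h0 : sg i c = 0
  · simp [h0]
  · have := hc i (mem_range.1 hi) c h0
    simp only [near, not_or, not_lt] at this
    simp [bump_zero this.1, bump_zero this.2]

lemma near_ds {i : ℕ} {c : Vx n} {e : Vx n × Vx n} (he : e ∈ Ed n) (h : near i c e) :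
    4 * ds c e.1 < rr i + 4 ∧ 4 * ds c e.2 < rr i + 4 := by
  have h1 := ds_edge he
  have h2 := ds_tri c e.1 e.2
  have h3 := ds_tri c e.2 e.1
  rw [ds_comm e.2] at h3
  unfold near at h
  omega

lemma near_card (i : ℕ) (c : Vx n) :
    (((Ed n).filter (near i c)).card : ℝ) ≤ 18 * (rr i : ℝ) ^ 2 := by
  have h1 : (univ.filter fun x : Vx n => ds c x ≤ rr i).card ≤ (2 * rr i + 1) ^ 2 :=
    packing _ c (s := 1) _ one_pos (by simp) fun x _ y _ h => ds_pos h
  have h2 := card_le_card_of_injOn (s := (Ed n).filter (near i c))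
    (t := (univ.filter fun x : Vx n => ds c x ≤ rr i) ×ˢ (univ : Finset Bool))
    (fun e => (e.1, decide (e.2.1.val = e.1.1.val))) ?_ ?_
  · rw [card_product, card_univ, Fintype.card_bool] at h2
    have h3 : ((Ed n).filter (near i c)).card ≤ (2 * rr i + 1) ^ 2 * 2 := by omega
    have h4 : (((Ed n).filter (near i c)).card : ℝ) ≤ (2 * rr i + 1) ^ 2 * 2 := by
      exact_mod_cast h3
    nlinarith [rr_oneR i]
  · intro e he
    simp only [coe_filter, Set.mem_ofPred_eq] at he
    have := near_ds he.1 he.2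
    have := rr_pos i
    simp only [coe_product, coe_filter, mem_univ, true_and, coe_univ, Set.mem_prod,
      Set.mem_ofPred_eq, Set.mem_univ, and_true]
    omega
  · intro e he e' he' h
    simp only [coe_filter, Set.mem_ofPred_eq, mem_Ed] at he he'
    simp only [Prod.mk.injEq, decide_eq_decide] at h
    have h1 := h.1
    have h2 := h.2
    have a1 := he.1
    have a2 := he'.1
    rw [← h1] at a2 h2
    refine Prod.ext h1 ?_
    ext <;> omega

end Pool.Agent.Lib.MP_9cc147_pr
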