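import Pool.Agent.Lib.MP_9cc147_pr.Rec

/-! Renormalisation of a whole ensemble of neutral charge densities. -/

open Finset Complex Metric MeasureTheory Filter
open scoped ComplexConjugate Real

namespace Pool.Agent.Lib.MP_9cc147_pr

variable {n : ℕ}

lemma ZP.cont {Y : ℝ} (hY : 1 ≤ Y) {j : ℕ} {τ : Vx n} {Z : (Vx n → ℂ) → ℂ} (h : ZP Y j τ Z) :
    Continuous fun ψ => Z (cx ψ) :=
  h.diff.continuousOn.comp_continuous cont_cx fun ψ => cx_tube hY j τ ψ

lemma Adm.prod {H : (Vx n → ℝ) → ℂ} (hH : Adm H) {Y : ℝ} (hY : 1 ≤ Y) {T : Finset (Vx n)}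
    {sc : Vx n → ℕ} {Z : Vx n → (Vx n → ℂ) → ℂ} (hZ : ∀ τ ∈ T, ZP Y (sc τ) τ (Z τ)) :
    Adm fun ψ => (∏ τ ∈ T, (1 + Z τ (cx ψ))) * H ψ := by
  refine hH.mul (continuous_finsetProd _ fun τ hτ => continuous_const.add ((hZ τ hτ).cont hY))
    (M := 2 ^ T.card) fun ψ => ?_
  rw [norm_prod, ← prod_const]
  refine prod_le_prod (fun _ _ => norm_nonneg _) fun τ hτ => ?_
  have := ((hZ τ hτ).bd _ (cx_tube hY _ _ ψ)).trans (eta_le hY _)
  have h7 := norm_add_le 1 (Z τ (cx ψ))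
  rw [norm_one] at h7
  linarith

lemma fac_cont (a : Item n) : Continuous (fac a) := by unfold fac pr; fun_prop

lemma fac_bd (a : Item n) (ψ : Vx n → ℝ) : |fac a ψ| ≤ 1 + |a.z| := by
  refine (abs_add_le _ _).trans ?_
  rw [abs_one, abs_mul]
  gcongr
  exact mul_le_of_le_one_right (abs_nonneg _) (Real.abs_cos_le_one _)

lemma fac_exp (a : Item n) (ψ : Vx n → ℝ) : (fac a ψ : ℂ) = 1 + a.z / 2 *
    (exp (2 * π * I * prc (fun x => 1 * a.ρ x) (cx ψ)) +
      exp (2 * π * I * prc (fun x => -1 * a.ρ x) (cx ψ))) := by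
  have e1 : ∀ ε : ℝ, prc (fun x => ε * a.ρ x) (cx ψ) = ε * pr a.ρ ψ := by
    intro ε; simp [prc, pr, cx, mul_sum, mul_assoc]
  rw [e1, e1, fac]
  push_cast
  rw [Complex.cos]
  ring_nf

lemma loc_inv {Y : ℝ} {j : ℕ} {τ : Vx n} {Z : ℝ → (Vx n → ℂ) → ℂ} (h : Nice Y j τ Z) {K : ℕ}
    {sg : ℕ → Vx n → ℤ} (ht : ¬ Tch K sg j τ) (lam : ℝ) (ψ : Vx n → ℝ) (s : ℝ) :
    Z lam (cx (ψ + s • nw K sg)) = Z lam (cx ψ) := by
  refine h.loc lam _ _ fun e he => ?_
  have : nw K sg e.1 = nw K sg e.2 := by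
    rw [← sub_eq_zero, nw_sub, sub_eq_zero]
    by_contra hne
    exact ht ⟨e, he, hne⟩
  simp [gr, cx, this]

theorem renorm {W : ℂ → ℂ} {Y b : ℝ} (hW : WP W Y b) (hY : 10 ^ 7 ≤ Y) (hb : 0 ≤ b)
    (hbY : 12000 * b * Y ≤ 1) (K : ℕ) (it : Vx n → Item n) (sc : Vx n → ℕ) (R : Finset (Vx n)) :
    Ret K it sc R → ∃ Z : Vx n → ℝ → (Vx n → ℂ) → ℂ, (∀ τ ∈ R, Nice Y (sc τ) τ (Z τ)) ∧
      ∀ lam : ℝ, |lam| ≤ 1 / 2 → ∀ H, Adm H →
        (∀ τ ∈ R, ∀ ψ (s : ℝ), H (ψ + s • nw K (it τ).sg) = H ψ) →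
        ∫ ψ, Base W lam (cx ψ) * (Psi R it ψ * H ψ) =
          ∫ ψ, Base W lam (cx ψ) * ((∏ τ ∈ R, (1 + Z τ lam (cx ψ))) * H ψ) := by
  classical
  have hY1 : 1 ≤ Y := by linarith
  induction R using Finset.induction_on_max_value sc with
  | empty => exact fun _ => ⟨fun _ _ _ => 0, by simp, by simp [Psi]⟩
  | insert g R hg hmax ih =>
    intro hR
    obtain ⟨Z, hZ, hI⟩ := ih (hR.mono (subset_insert _ _))
    have hne : ∀ τ ∈ R, τ ≠ g := fun τ hτ e => hg (e ▸ hτ)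
    set T := R.filter fun τ => Tch K (it g).sg (sc τ) τ with hT
    have ctx : Ctx K it sc (insert g R) g Y T Z := ⟨hR, mem_insert_self _ _, fun τ hτ =>
      ⟨mem_insert_of_mem (mem_filter.1 hτ).1, hne τ (mem_filter.1 hτ).1,
        hmax τ (mem_filter.1 hτ).1, (mem_filter.1 hτ).2⟩, fun τ hτ => hZ τ (mem_filter.1 hτ).1⟩
    have hN := ctx.nice_new hW hY hb hbY
    refine ⟨Function.update Z g (Znew W K (it g) Y T Z), fun τ hτ => ?_, fun lam hl H hH hinv => ?_⟩
    · rcases mem_insert.1 hτ with rfl | hτ'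
      · rwa [Function.update_self]
      · rw [Function.update_of_ne (hne τ hτ')]; exact hZ τ hτ'
    have okg := hR.ok g (mem_insert_self _ _)
    have zp : ∀ τ ∈ R, ZP Y (sc τ) τ (Z τ lam) := fun τ hτ => (hZ τ hτ).zp lam hl
    have h1 := hI lam hl (fun ψ => fac (it g) ψ * H ψ)
      (hH.mul (continuous_ofReal.comp (fac_cont _)) (M := 1 + |(it g).z|)
        fun ψ => by simpa using fac_bd _ ψ) (by
      intro τ hτ ψ s
      have okt := hR.ok τ (mem_insert_of_mem hτ)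
      rw [hinv τ (mem_insert_of_mem hτ)]
      have e : pr (it g).ρ (ψ + s • nw K (it τ).sg) = pr (it g).ρ ψ := by
        have := pr_add' (it g).ρ s ψ (nw K (it τ).sg)
        have e2 : pr (it g).ρ (nw K (it τ).sg) = pr (it g).ρ (sw K (it τ).sg) :=
          (neutral_sum (hR.neu g (mem_insert_self _ _)) _ _).symm
        rw [e2, pr_cross okg.supp (fun i c hc => ⟨(okt.cen i c hc).1, rr_mono (okt.cen i c hc).2.le⟩)
          (hR.far τ (mem_insert_of_mem hτ) g (mem_insert_self _ _) (hne τ hτ) (hmax τ hτ)).symm,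
          mul_zero, add_zero] at this
        exact this
      simp only [fac, e])
    set B : (Vx n → ℝ) → ℂ := fun ψ =>
      (∏ τ ∈ R.filter fun τ => ¬ Tch K (it g).sg (sc τ) τ, (1 + Z τ lam (cx ψ))) * H ψ with hB
    have aB : Adm B := hH.prod hY1 fun τ hτ => zp τ (mem_filter.1 hτ).1
    have aT : Adm fun ψ => (∏ τ ∈ T, (1 + Z τ lam (cx ψ))) * B ψ :=
      aB.prod hY1 fun τ hτ => zp τ (mem_filter.1 hτ).1
    have eT : ∀ ψ, (∏ τ ∈ R, (1 + Z τ lam (cx ψ))) * H ψ =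
        (∏ τ ∈ T, (1 + Z τ lam (cx ψ))) * B ψ := by
      intro ψ
      rw [hB, hT, ← mul_assoc, prod_filter_mul_prod_filter_not]
    have st : ∀ ε : ℝ, ε = 1 ∨ ε = -1 →
        Integrable (fun ψ => Base W lam (cx ψ) * (exp (2 * π * I * prc (fun x => ε * (it g).ρ x)
          (cx ψ)) * ((∏ τ ∈ T, (1 + Z τ lam (cx ψ))) * B ψ))) ∧
        Integrable (fun ψ => Base W lam (cx ψ) * (Fac W K (it g).sg lam (fun x => ε * (it g).ρ x) T
          (fun τ => Z τ lam) (ε * Y) (cx ψ) * ((∏ τ ∈ T, (1 + Z τ lam (cx ψ))) * B ψ))) ∧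
        ∫ ψ, Base W lam (cx ψ) * (exp (2 * π * I * prc (fun x => ε * (it g).ρ x)
          (cx ψ)) * ((∏ τ ∈ T, (1 + Z τ lam (cx ψ))) * B ψ)) =
        ∫ ψ, Base W lam (cx ψ) * (Fac W K (it g).sg lam (fun x => ε * (it g).ρ x) T
          (fun τ => Z τ lam) (ε * Y) (cx ψ) * ((∏ τ ∈ T, (1 + Z τ lam (cx ψ))) * B ψ)) := by
      intro ε hε
      have ht : |ε * Y| ≤ Y := by
        rcases hε with rfl | rfl <;> simp [abs_of_pos (by linarith : 0 < Y)]
      refine ⟨integrable_base hW hY1 lam (aT.mul (by unfold prc cx; fun_prop) (M := 1) fun ψ => ?_),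
        integrable_base hW hY1 lam (aT.mul ((ctx.diff hW hY1 hl _ ht).continuousOn.comp_continuous
          cont_cx fun ψ => cx_tube hY1 _ _ ψ) fun ψ =>
          ctx.bd hW hY hb hbY hl hε (cx_tube hY1 _ _ ψ)), ?_⟩
      · rw [norm_exp]; simp [prc, cx]
      · have := step hW hY1 K okg.sep lam (fun x => ε * (it g).ρ x) (T := T) (sc := sc)
          (Z := fun τ => Z τ lam) (fun τ hτ => zp τ (mem_filter.1 hτ).1) (fun τ hτ e he => by
            obtain ⟨m, a1, -, -, -, a5⟩ := ctx.tch hτ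
            refine (a5 e he).trans ?_
            have := rr_posR (sc τ)
            have r2 : 64 * (rr (sc τ) : ℝ) ≤ rr m := by exact_mod_cast rr_lt a1
            gcongr) aB (fun ψ s => by
            simp only [hB]
            rw [hinv g (mem_insert_self _ _)]
            congr 1
            exact prod_congr rfl fun τ hτ => by
              rw [loc_inv (hZ τ (mem_filter.1 hτ).1) (mem_filter.1 hτ).2]) ht
        simpa only [mul_assoc] using this
    obtain ⟨p1, p2, p3⟩ := st 1 (Or.inl rfl)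
    obtain ⟨q1, q2, q3⟩ := st (-1) (Or.inr rfl)
    have i0 := integrable_base hW hY1 lam aT
    have e1 : ∀ ψ, ∏ τ ∈ insert g R, (1 + Function.update Z g (Znew W K (it g) Y T Z) τ lam (cx ψ)) =
        (1 + Znew W K (it g) Y T Z lam (cx ψ)) * ∏ τ ∈ R, (1 + Z τ lam (cx ψ)) := by
      intro ψ
      rw [prod_insert hg, Function.update_self]
      congr 1
      exact prod_congr rfl fun τ hτ => by rw [Function.update_of_ne (hne τ hτ)]
    calc _ = ∫ ψ, Base W lam (cx ψ) * (Psi R it ψ * (fac (it g) ψ * H ψ)) := by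
          congr 1; ext ψ; rw [Psi, prod_insert hg, Psi]; push_cast; ring
      _ = _ := h1
      _ = _ := by
          have a := integral_add i0 ((p1.add q1).const_mul ((it g).z / 2 : ℂ))
          have a' := integral_add i0 ((p2.add q2).const_mul ((it g).z / 2 : ℂ))
          simp only [Pi.add_apply] at a a'
          rw [integral_const_mul, integral_add p1 q1, p3, q3] at a
          rw [integral_const_mul, integral_add p2 q2, ← a] at a'
          refine Eq.trans ?_ (a'.symm.trans ?_)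
          · congr 1; ext ψ; rw [← eT, fac_exp]; ring
          · congr 1; ext ψ; rw [← eT, e1, Znew]; ring

end Pool.Agent.Lib.MP_9cc147_pr
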