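import Pool.Agent.Lib.MP_9cc147_pr.MReg

/-! Vertex weights: bounds, and the total weight of the preimages of a repair. -/

open Finset
open scoped ENNReal

namespace Pool.Agent.Lib.MP_9cc147_pr.Mono

variable {n N : ℕ} {u : ℤ → ℝ} {β ε S : ℝ} {ω ω' ω₁ : St n} {c : ℕ × Finset (Vx n)} {x : Vx n}
  {m : Vx n → ℤ}

lemma Hyp.abs (H : Hyp u N β ε S) (k : ℤ) : u |k| = u k := by
  rcases abs_choice k with h | h
  · rw [h]
  · rw [h, H.even]

lemma Hyp.le (H : Hyp u N β ε S) {k l : ℤ} (h : |k| ≤ l) : u k ≤ u l := by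
  rw [← H.abs k]; exact H.mono _ _ (abs_nonneg k) h

lemma Hyp.nonneg (H : Hyp u N β ε S) (k : ℤ) : 0 ≤ u k := by
  rw [← H.abs k, ← H.zero]; exact H.mono 0 _ le_rfl (abs_nonneg k)

lemma wv_pos (u : ℤ → ℝ) (m : Vx n → ℤ) (x : Vx n) : 0 < wv u m x := Real.exp_pos _

lemma grad_le_sl {e : Vx n × Vx n} (he : e ∈ oe x) : (m e.1 - m e.2).natAbs ≤ sl m x :=
  single_le_sum (f := fun e : Vx n × Vx n => (m e.1 - m e.2).natAbs) (fun _ _ => Nat.zero_le _) he

lemma u0_ge (H : Hyp u N β ε S) {k : ℤ} (hk : |k| ≤ 4 * N) : u k ≤ u0 u N β k := by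
  unfold u0
  rw [if_pos hk]
  have := H.b0
  exact le_add_of_nonneg_right (by positivity)

lemma u0_lin (H : Hyp u N β ε S) (k : ℤ) :
    β / 4 * (2 * N * |(k : ℝ)| - 3 * (N : ℝ) ^ 2) ≤ u0 u N β k := by
  unfold u0
  have hb := H.b0
  have h1 : 0 ≤ (if |k| ≤ 4 * N then u k else
      u (4 * N) + (|k| - 4 * N : ℤ) * (u (4 * N) - u (4 * N - 1))) := by
    split_ifs with h
    · exact H.nonneg k
    · have a1 : (0 : ℝ) ≤ (|k| - 4 * N : ℤ) := by exact_mod_cast (by omega : (0 : ℤ) ≤ |k| - 4 * N)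
      have a2 := H.mono (4 * N - 1) (4 * N) (by have := H.one; omega) (by omega)
      have a3 := H.nonneg (4 * N)
      exact add_nonneg a3 (mul_nonneg a1 (by linarith))
  have h2 : |(k : ℝ)| - N ≤ ((max (|k| - N) 0 : ℤ) : ℝ) := by
    exact_mod_cast le_max_left (|k| - (N : ℤ)) 0
  have h3 : (0 : ℝ) ≤ N := Nat.cast_nonneg N
  have h4 : 2 * N * |(k : ℝ)| - 3 * (N : ℝ) ^ 2 ≤ ((max (|k| - N) 0 : ℤ) : ℝ) ^ 2 := by
    nlinarith [sq_nonneg (((max (|k| - N) 0 : ℤ) : ℝ) - N), mul_le_mul_of_nonneg_left h2 h3]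
  have := mul_le_mul_of_nonneg_left h4 (by positivity : 0 ≤ β / 4)
  linarith

lemma wv_u0_le (H : Hyp u N β ε S) (h : sl m x ≤ 4 * N) : wv (u0 u N β) m x ≤ wv u m x :=
  Real.exp_le_exp.2 (neg_le_neg (sum_le_sum fun e he => u0_ge H (by
    have := grad_le_sl (m := m) he
    rw [Int.abs_eq_natAbs]
    omega)))

lemma wx_lab (H : Hyp u N β ε S) (h0 : ω.2 x ≠ 0) (hs : ω.2 x = 1 ∨ sl ω.1 x ≤ 20000 * N) :
    ε * wv u ω.1 x ≤ wx u N β ε ω x := by
  have p1 := wv_pos u ω.1 x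
  have e0 := H.e0
  have e1 := H.e1
  unfold wx
  rw [if_neg h0]
  by_cases h1 : ω.2 x = 1
  · rw [if_pos h1]
    have a : (if sl ω.1 x ≤ 4 * N then (1 - 2 * ε) * wv (u0 u N β) ω.1 x else 0) ≤
        (1 - 2 * ε) * wv u ω.1 x := by
      split_ifs with h
      · exact mul_le_mul_of_nonneg_left (wv_u0_le H h) (by linarith)
      · exact mul_nonneg (by linarith) p1.le
    have b : (if sl ω.1 x ≤ 20000 * N then ε * wv u ω.1 x else 0) ≤ ε * wv u ω.1 x := by
      split_ifs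
      · exact le_rfl
      · positivity
    linarith
  · rw [if_neg h1, if_pos (hs.resolve_left h1)]

lemma wx_nonneg' (H : Hyp u N β ε S) (ω : St n) (x : Vx n) : 0 ≤ wx u N β ε ω x := by
  have p1 := wv_pos u ω.1 x
  have e0 := H.e0
  have e1 := H.e1
  by_cases h1 : ω.2 x = 1
  · exact le_trans (by positivity) (wx_lab H (by rw [h1]; decide) (Or.inl h1))
  unfold wx
  rw [if_neg h1]
  split_ifs
  · exact mul_nonneg (by linarith) (wv_pos _ _ _).le
  · positivity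
  · exact le_rfl

lemma wx_pos (H : Hyp u N β ε S) (h : Pre N ω) (x : Vx n) : 0 < wx u N β ε ω x := by
  have p1 := wv_pos u ω.1 x
  have e0 := H.e0
  have e1 := H.e1
  by_cases h0 : ω.2 x = 0
  · unfold wx
    rw [if_pos h0]
    exact mul_pos (by linarith) (wv_pos _ _ _)
  · refine lt_of_lt_of_le (by positivity) (wx_lab H h0 ?_)
    by_cases h1 : ω.2 x = 1
    · exact Or.inl h1
    · exact Or.inr (h.fil x (by omega))

lemma wx_le (H : Hyp u N β ε S) (h : x ∉ Df N ω) : wx u N β ε ω x ≤ wv u ω.1 x := by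
  have p1 := wv_pos u ω.1 x
  have p2 := wv_pos (u0 u N β) ω.1 x
  have e0 := H.e0
  have e1 := H.e1
  have q1 : 0 ≤ (1 - 2 * ε) * wv (u0 u N β) ω.1 x := mul_nonneg (by linarith) p2.le
  have q2 : 0 ≤ ε * wv u ω.1 x := by positivity
  unfold wx
  by_cases h0 : ω.2 x = 0
  · rw [if_pos h0]
    have := wv_u0_le H (not_lt.1 fun a => h (mem_Df.2 ⟨h0, a⟩))
    nlinarith
  · rw [if_neg h0]
    split_ifs <;> nlinarith

lemma wx_congr' (h : ω'.2 x = ω.2 x) (hg : ∀ e ∈ oe x, ω'.1 e.1 - ω'.1 e.2 = ω.1 e.1 - ω.1 e.2) :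
    wx u N β ε ω' x = wx u N β ε ω x := by
  have e : ∀ v : ℤ → ℝ, wv v ω'.1 x = wv v ω.1 x := fun v => by
    unfold wv
    rw [sum_congr rfl fun e he => by rw [hg e he]]
  unfold wx
  rw [h, e, e, sl_congr hg]

/-- summable majorant of the edge weights -/
noncomputable def hw (u : ℤ → ℝ) (k : ℤ) : ℝ := Real.exp (-u k) + Real.exp (-|(k : ℝ)|)

lemma hw_pos (k : ℤ) : 0 < hw u k := add_pos (Real.exp_pos _) (Real.exp_pos _)

lemma wv_le : wv u m x ≤ ∏ e ∈ oe x, hw u (m e.1 - m e.2) := by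
  unfold wv
  rw [← sum_neg_distrib, Real.exp_sum]
  exact prod_le_prod (fun _ _ => (Real.exp_pos _).le) fun _ _ =>
    le_add_of_nonneg_right (Real.exp_pos _).le

lemma wx_df (H : Hyp u N β ε S) (h : x ∈ Df N ω) : wx u N β ε ω x ≤
    Real.exp (-(β * N / 16 * sl ω.1 x)) * ∏ e ∈ oe x, hw u (ω.1 e.1 - ω.1 e.2) := by
  obtain ⟨h0, h4⟩ := mem_Df.1 h
  have e0 := H.e0
  have hb := H.b0
  have bN := H.bN
  have es : (sl ω.1 x : ℝ) = ∑ e ∈ oe x, |((ω.1 e.1 - ω.1 e.2 : ℤ) : ℝ)| := by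
    unfold sl
    rw [Nat.cast_sum]
    exact sum_congr rfl fun e _ => by rw [Nat.cast_natAbs, Int.cast_abs]
  have h4' : 4 * (N : ℝ) ≤ sl ω.1 x := by exact_mod_cast h4.le
  have hc : ((oe x).card : ℝ) ≤ 2 := by exact_mod_cast oe_card x
  have hN : (0 : ℝ) ≤ N := Nat.cast_nonneg N
  have k1 : β / 4 * (2 * N * sl ω.1 x - (oe x).card * (3 * (N : ℝ) ^ 2)) ≤
      ∑ e ∈ oe x, u0 u N β (ω.1 e.1 - ω.1 e.2) := by
    refine le_trans (le_of_eq ?_) (sum_le_sum fun e _ => u0_lin H _)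
    rw [← mul_sum, sum_sub_distrib, ← mul_sum, ← es, sum_const, nsmul_eq_mul]
  have k2 : β * N / 16 * sl ω.1 x + sl ω.1 x ≤ ∑ e ∈ oe x, u0 u N β (ω.1 e.1 - ω.1 e.2) := by
    refine le_trans ?_ k1
    have a1 : (oe x).card * (3 * (N : ℝ) ^ 2) ≤ 3 / 2 * (N * sl ω.1 x) := by
      nlinarith [mul_le_mul_of_nonneg_left h4' hN, mul_le_mul_of_nonneg_right hc (sq_nonneg (N : ℝ))]
    have a2 := mul_le_mul_of_nonneg_left a1 hb.le
    have a3 := mul_le_mul_of_nonneg_right bN (Nat.cast_nonneg (α := ℝ) (sl ω.1 x))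
    have a4 := Nat.cast_nonneg (α := ℝ) (sl ω.1 x)
    nlinarith
  have k3 : Real.exp (-(sl ω.1 x : ℝ)) ≤ ∏ e ∈ oe x, hw u (ω.1 e.1 - ω.1 e.2) := by
    rw [es, ← sum_neg_distrib, Real.exp_sum]
    exact prod_le_prod (fun _ _ => (Real.exp_pos _).le) fun _ _ =>
      le_add_of_nonneg_left (Real.exp_pos _).le
  unfold wx
  rw [if_pos h0]
  calc (1 - 2 * ε) * wv (u0 u N β) ω.1 x ≤ wv (u0 u N β) ω.1 x := by
        have := wv_pos (u0 u N β) ω.1 x
        nlinarith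
    _ ≤ Real.exp (-(β * N / 16 * sl ω.1 x)) * Real.exp (-(sl ω.1 x : ℝ)) := by
        rw [← Real.exp_add]
        exact Real.exp_le_exp.2 (by linarith)
    _ ≤ _ := mul_le_mul_of_nonneg_left k3 (Real.exp_pos _).le

lemma prod_oe (X : Finset (Vx n)) (f : Vx n × Vx n → ℝ) :
    ∏ x ∈ X, ∏ e ∈ oe x, f e = ∏ e : (X.biUnion oe : Finset (Vx n × Vx n)), f e := by
  rw [prod_coe_sort, prod_biUnion]
  intro x _ y _ hxy
  exact disjoint_left.2 fun e h1 h2 => hxy ((mem_oe.1 h1).2.symm.trans (mem_oe.1 h2).2)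

/-- the weight of a preimage on the repaired region -/
lemma Opt.prod_le (H : Hyp u N β ε S) (h : Opt N c ω₁ ω) :
    ∏ x ∈ Ob (Os N ω₁ c), wx u N β ε ω₁ x ≤ Real.exp (-(β * N ^ 2 / 11552)) ^ (Ob (Os N ω₁ c)).card *
      ∏ x ∈ Ob (Os N ω₁ c), ∏ e ∈ oe x, hw u (ω₁.1 e.1 - ω₁.1 e.2) := by
  have hb := H.b0
  have hsub : c.2 ⊆ Ob (Os N ω₁ c) := h.pu.sub.trans (sub_Ob _)
  have hc : (N : ℝ) * (Ob (Os N ω₁ c)).card ≤ 361 * ∑ p ∈ c.2, (sl ω₁.1 p : ℝ) := by
    exact_mod_cast O_card (μ := sl ω₁.1) (sp_of_cl h.pu.1) H.one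
  calc ∏ x ∈ Ob (Os N ω₁ c), wx u N β ε ω₁ x
      ≤ ∏ x ∈ Ob (Os N ω₁ c), (Real.exp (-(β * N / 16 * if x ∈ c.2 then (sl ω₁.1 x : ℝ) else 0)) *
          ∏ e ∈ oe x, hw u (ω₁.1 e.1 - ω₁.1 e.2)) := by
        refine prod_le_prod (fun x _ => wx_nonneg' H _ _) fun x hx => ?_
        split_ifs with hp
        · exact wx_df H (h.pu.2 hp)
        · rw [mul_zero, neg_zero, Real.exp_zero, one_mul]
          exact (wx_le H fun a => hp (h.leaf (mem_inter.2 ⟨a, hx⟩))).trans wv_le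
    _ ≤ _ := by
        rw [prod_mul_distrib]
        refine mul_le_mul_of_nonneg_right ?_
          (prod_nonneg fun _ _ => prod_nonneg fun _ _ => (hw_pos _).le)
        rw [← Real.exp_sum, ← Real.exp_nat_mul, sum_neg_distrib, ← mul_sum, sum_ite_mem,
          inter_eq_right.2 hsub]
        refine Real.exp_le_exp.2 ?_
        have a0 : (0 : ℝ) ≤ β * N := by positivity
        have a1 := mul_le_mul_of_nonneg_left hc a0
        have a2 : (0 : ℝ) ≤ β * N * ∑ p ∈ c.2, (sl ω₁.1 p : ℝ) := by positivity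
        nlinarith

/-- the weight of the repaired state on the repaired region -/
lemma Opt.le_wx (H : Hyp u N β ε S) (h : Opt N c ω₁ ω) (hx : x ∈ Ob (Os N ω₁ c)) :
    ε * Real.exp (-(2 * u (10000 * N))) ≤ wx u N β ε ω x := by
  have hs := h.slope H.one hx
  have hc := oe_card x
  have h0 : ω.2 x ≠ 0 := mem_lab.1 (h.lab_eq ▸ mem_union_right _ hx)
  have h1 : sl ω.1 x ≤ 20000 * N := by
    refine (sum_le_card_nsmul _ _ (10000 * N) fun e he => ?_).trans ?_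
    · have := hs e he
      rw [Int.abs_eq_natAbs] at this
      omega
    · rw [smul_eq_mul]; nlinarith
  refine le_trans (mul_le_mul_of_nonneg_left ?_ H.e0.le) (wx_lab H h0 (Or.inr h1))
  refine Real.exp_le_exp.2 (neg_le_neg ?_)
  refine (sum_le_card_nsmul _ _ (u (10000 * N)) fun e he => H.le (hs e he)).trans ?_
  rw [nsmul_eq_mul]
  exact mul_le_mul_of_nonneg_right (by exact_mod_cast hc) (H.nonneg _)

lemma sum_prod_le {α γ ι : Type*} [Fintype γ] [Fintype ι] (s : Finset α) (L : α → γ)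
    (F : α → ι → ℤ) (w : ℤ → ℝ) (S : ℝ) (h0 : ∀ k, 0 ≤ w k)
    (hS : ∀ T : Finset ℤ, ∑ k ∈ T, w k ≤ S)
    (inj : ∀ a ∈ s, ∀ b ∈ s, L a = L b → F a = F b → a = b) :
    ∑ a ∈ s, ∏ i, w (F a i) ≤ Fintype.card γ * S ^ Fintype.card ι := by
  classical
  calc ∑ a ∈ s, ∏ i, w (F a i) = ∑ t ∈ s.image (fun a => (L a, F a)), ∏ i, w (t.2 i) :=
        (sum_image (f := fun t : γ × (ι → ℤ) => ∏ i, w (t.2 i)) (g := fun a => (L a, F a))
          fun a ha b hb e => inj a ha b hb (congrArg Prod.fst e) (congrArg Prod.snd e)).symm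
    _ ≤ ∑ t ∈ univ ×ˢ Fintype.piFinset (fun _ : ι => s.biUnion fun a => univ.image (F a)),
          ∏ i, w (t.2 i) := by
        refine sum_le_sum_of_subset_of_nonneg (fun t ht => ?_) fun _ _ _ =>
          prod_nonneg fun _ _ => h0 _
        obtain ⟨a, ha, rfl⟩ := mem_image.1 ht
        exact mem_product.2 ⟨mem_univ _, Fintype.mem_piFinset.2 fun i =>
          mem_biUnion.2 ⟨a, ha, mem_image_of_mem _ (mem_univ i)⟩⟩
    _ = Fintype.card γ * ∏ _i : ι, ∑ k ∈ s.biUnion fun a => univ.image (F a), w k := by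
        rw [sum_product, prod_univ_sum]
        simp
    _ ≤ _ := by
        rw [prod_const, card_univ]
        exact mul_le_mul_of_nonneg_left
          (pow_le_pow_left₀ (sum_nonneg fun _ _ => h0 _) (hS _) _) (Nat.cast_nonneg _)

/-- pinned states with the same labels and gradients are equal -/
lemma st_ext {a b : St n} (ha : a.1 (vz n) = 0) (hb : b.1 (vz n) = 0)
    (h : ∀ x, a.2 x = b.2 x ∧ ∀ e ∈ oe x, a.1 e.1 - a.1 e.2 = b.1 e.1 - b.1 e.2) : a = b := by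
  refine Prod.ext (funext fun x => ?_) (funext fun x => (h x).1)
  have := sub_const (c := vz n) (r := n)
    (fun e he _ => (h e.1).2 e (mem_oe.2 ⟨he, rfl⟩)) (ds_le (vz n) x)
  omega

lemma sum_pre_le (H : Hyp u N β ε S) (s : Finset (St n)) (hs : ∀ a ∈ s, Opt N c a ω) :
    ∑ a ∈ s, ∏ x, wx u N β ε a x ≤ ∏ x, wx u N β ε ω x := by
  rcases s.eq_empty_or_nonempty with rfl | ⟨a₀, ha₀⟩
  · exact prod_nonneg fun x _ => wx_nonneg' H _ _
  have h₀ := hs a₀ ha₀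
  obtain ⟨X, hX⟩ : ∃ X, X = Ob (Os N a₀ c) := ⟨_, rfl⟩
  have eX : ∀ a ∈ s, Ob (Os N a c) = X := fun a ha => by
    ext y
    rw [hX, (hs a ha).ob H.one, h₀.ob H.one]
  have hS : (1 : ℝ) ≤ S := by
    have := H.sum {0}
    simp only [sum_singleton, H.zero, Int.cast_zero, abs_zero, neg_zero, Real.exp_zero] at this
    linarith
  have k1 : ∑ a ∈ s, ∏ e : (X.biUnion oe : Finset (Vx n × Vx n)), hw u (a.1 e.1.1 - a.1 e.1.2) ≤
      (3 * S ^ 2) ^ X.card := by
    refine (sum_prod_le s (fun a (x : X) => a.2 x) (fun a (e : (X.biUnion oe : Finset _)) =>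
      a.1 e.1.1 - a.1 e.1.2) (hw u) S (fun k => (hw_pos k).le) H.sum
      fun a ha b hb e1 e2 => ?_).trans ?_
    · refine st_ext (hs a ha).reg.pin (hs b hb).reg.pin fun x => ?_
      by_cases hx : x ∈ X
      · exact ⟨congrFun e1 ⟨x, hx⟩, fun e he => congrFun e2 ⟨e, mem_biUnion.2 ⟨x, hx, he⟩⟩⟩
      · have o1 := (hs a ha).out (eX a ha ▸ hx)
        have o2 := (hs b hb).out (eX b hb ▸ hx)
        exact ⟨o1.1.symm.trans o2.1, fun e he => (o1.2 e he).symm.trans (o2.2 e he)⟩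
    · rw [Fintype.card_fun, Fintype.card_fin, Fintype.card_coe, Fintype.card_coe, mul_pow,
        ← pow_mul]
      push_cast
      refine mul_le_mul_of_nonneg_left (pow_le_pow_right₀ hS ?_) (by positivity)
      exact (card_biUnion_le_card_mul _ _ 2 fun x _ => oe_card x).trans (by omega)
  have k2 : ∑ a ∈ s, ∏ x ∈ X, wx u N β ε a x ≤ ∏ x ∈ X, wx u N β ε ω x := by
    calc ∑ a ∈ s, ∏ x ∈ X, wx u N β ε a x
        ≤ ∑ a ∈ s, Real.exp (-(β * N ^ 2 / 11552)) ^ X.card *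
          ∏ e : (X.biUnion oe : Finset (Vx n × Vx n)), hw u (a.1 e.1.1 - a.1 e.1.2) := by
          refine sum_le_sum fun a ha => ?_
          have := (hs a ha).prod_le H
          rwa [eX a ha, prod_oe X fun e => hw u (a.1 e.1 - a.1 e.2)] at this
      _ ≤ (Real.exp (-(β * N ^ 2 / 11552)) * (3 * S ^ 2)) ^ X.card := by
          rw [← mul_sum, mul_pow]
          exact mul_le_mul_of_nonneg_left k1 (by positivity)
      _ ≤ (ε * Real.exp (-(2 * u (10000 * N)))) ^ X.card := by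
          refine pow_le_pow_left₀ (by positivity) ?_ _
          rw [Real.exp_neg, Real.exp_neg, inv_mul_le_iff₀ (Real.exp_pos _), ← mul_assoc,
            le_mul_inv_iff₀ (Real.exp_pos _), mul_comm _ ε]
          exact H.cost
      _ ≤ _ := by
          rw [← prod_const]
          have := H.e0
          exact prod_le_prod (fun _ _ => by positivity) fun x hx => h₀.le_wx H (hX ▸ hx)
  rw [← prod_mul_prod_compl X]
  refine le_trans (le_of_eq ?_) (mul_le_mul_of_nonneg_right k2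
    (prod_nonneg fun x _ => wx_nonneg' H _ _))
  rw [sum_mul]
  refine sum_congr rfl fun a ha => ?_
  rw [← prod_mul_prod_compl X]
  congr 1
  refine prod_congr rfl fun x hx => ?_
  have o := (hs a ha).out (eX a ha ▸ mem_compl.1 hx)
  exact (wx_congr' o.1 o.2).symm

open Classical in
/-- total weight of the preimages -/
noncomputable def pm (u : ℤ → ℝ) (N : ℕ) (β ε : ℝ) (c : ℕ × Finset (Vx n)) (ω' : St n) : ℝ≥0∞ :=
  ∑' ω, if Opt N c ω ω' then nu u N β ε ω else 0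

lemma ac_pm : ac u N β ε c ω = pm u N β ε c ω / nu u N β ε ω := rfl

lemma pm_le_nu (H : Hyp u N β ε S) : pm u N β ε c ω ≤ nu u N β ε ω := by
  classical
  unfold pm
  rw [ENNReal.tsum_eq_iSup_sum]
  refine iSup_le fun s => ?_
  rw [← sum_filter]
  unfold nu
  rw [← ENNReal.ofReal_sum_of_nonneg fun a _ => prod_nonneg fun x _ => wx_nonneg' H _ _]
  exact ENNReal.ofReal_le_ofReal (sum_pre_le H _ fun a ha => (mem_filter.1 ha).2)

end Pool.Agent.Lib.MP_9cc147_pr.Mono
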