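import Pool.Agent.Lib.MP_9cc147_pr.MReg

/-! Changing the heights outside the frozen set. -/

open Finset

namespace Pool.Agent.Lib.MP_9cc147_pr.Mono

variable {n N : ℕ} {ω ω₁ ω₂ : St n} {c : ℕ × Finset (Vx n)} {G : Set (ℕ × Finset (Vx n))}

/-- same labels, pinned, same gradients on the edges that leave `A` -/
structure Same (A : Finset (Vx n)) (ω ω₂ : St n) : Prop where
  lab : ω₂.2 = ω.2
  pin : ω₂.1 (vz n) = 0
  grad : ∀ e ∈ Ed n, e.1 ∈ A → ω₂.1 e.1 - ω₂.1 e.2 = ω.1 e.1 - ω.1 e.2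

lemma mem_Lam {y : Vx n} : y ∈ Lam N ω G ↔
    y ∈ lab ω ∨ ∃ c, Pu N ω c ∧ c ∉ G ∧ y ∈ Ob (Os N ω c) := by
  classical
  simp only [Lam, mem_filter, mem_univ, true_and]

lemma lam_anti {G G' : Set (ℕ × Finset (Vx n))} (h : G ⊆ G') : Lam N ω G' ⊆ Lam N ω G := by
  intro y hy
  rw [mem_Lam] at hy ⊢
  exact hy.imp id fun ⟨c, h1, h2, h3⟩ => ⟨c, h1, fun a => h2 (h a), h3⟩

lemma lab_sub_lam : lab ω ⊆ Lam N ω G := fun _ hy => mem_Lam.2 (Or.inl hy)

lemma adm_Gs : Adm N ω (Gs N ω) := by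
  rintro c ⟨G, hG, hc⟩
  refine ⟨(hG c hc).1, (hG c hc).2.mono_right (AA_mono (lam_anti fun c' h' => ⟨G, hG, h'⟩))⟩

lemma ob_sub_lam (hc : Pu N ω c) (hn : c ∉ G) : Ob (Os N ω c) ⊆ Lam N ω G :=
  fun _ hy => mem_Lam.2 (Or.inr ⟨c, hc, hn, hy⟩)

lemma Adm.notMem (hG : Adm N ω G) {s : Vx n} (hs : s ∈ c.2) (hA : s ∈ AA (Lam N ω G)) : c ∉ G :=
  fun a => disjoint_left.1 (hG c a).2 hs hA

lemma sd_lab {s : Vx n} (hs : s ∈ Sd N ω) (hd : s ∉ Df N ω) : s ∈ lab ω := by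
  rcases mem_Sd.1 hs with a | a | a
  · exact mem_lab.2 (by rw [a]; decide)
  · exact mem_lab.2 (by rw [a.1]; decide)
  · exact absurd a hd

lemma seed_lam (h : Reg N ω) (hG : Adm N ω G) {s : Vx n} (hs : s ∈ Sd N ω)
    (hA : s ∈ AA (Lam N ω G)) : s ∈ Lam N ω G := by
  by_cases hd : s ∈ Df N ω
  · obtain ⟨k, -, hk⟩ := exists_lm hs
    obtain ⟨C, hC, hsC⟩ := lv_exists_cl hk
    have hp : Pu N ω (k, C) := ⟨hC, h.pure k C hC ⟨s, mem_inter.2 ⟨hsC, hd⟩⟩⟩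
    exact ob_sub_lam hp (hG.notMem hsC hA) (sub_Ob _ (hp.sub hsC))
  · exact lab_sub_lam (sd_lab hs hd)

/-- the levels of seeds in the frozen set are dominated by the levels of the labelled set -/
lemma domin (hN : 1 ≤ N) (h : Reg N ω) (hG : Adm N ω G) (j : ℕ) :
    ∀ s ∈ Rm N ω j, s ∈ AA (Lam N ω G) → s ∈ Rem ra Ip okT (Lam N ω G) j := by
  induction j with
  | zero => exact fun s hs hA => seed_lam h hG hs hA
  | succ j ih =>
    intro s hs hA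
    obtain ⟨s1, s2⟩ := mem_rem_succ.1 hs
    have s3 := ih s s1 hA
    have ball : ∀ y, ds s y ≤ be j → y ∈ AA (Lam N ω G) := fun y hy => mem_AA.2 ⟨j, s, s3, hy⟩
    have ch := chain j
    by_contra hc
    have hI : Iso ra Ip okT j (Rem ra Ip okT (Lam N ω G) j) s := by
      by_contra a
      exact hc (mem_rem_succ.2 ⟨s3, a⟩)
    refine s2 ⟨fun y hy y' hy' d1 d2 => ?_, ?_⟩
    · have := ds_tri s y y'
      exact hI.1 y (ih y hy (ball y (by omega))) y' (ih y' hy' (ball y' (by omega))) d1 (by omega)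
    by_contra hok
    unfold okS at hok
    rw [not_or, not_and_or] at hok
    obtain ⟨hw, hok | hok⟩ := hok
    · push Not at hok
      obtain ⟨t, ht, y, hy, hd⟩ := hok
      have htl : t ∈ lab ω := by
        by_contra a
        rw [hy.eq_of_notMem a, ds_self] at hd
        omega
      have t1 : t ∈ Rem ra Ip okT (Lam N ω G) (j + 1) :=
        rem_of_cn par_Ip (hy.mono lab_sub_lam) (lab_sub_lam htl) (by omega)
      have t2 := (mem_filter.1 ht).2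
      exact hc (rem_near par_Ip s3 (by rw [ds_comm]; omega) (Nat.le_succ j) t1)
    · obtain ⟨k, -, hk⟩ := exists_lm (rem_sub s1)
      obtain ⟨P, hP, hsP⟩ := lv_exists_cl hk
      have hjk : j + 1 ≤ k := lv_le hs hk
      have hCP : ((Rm N ω j).filter fun y => ds s y ≤ ra j) ⊆ P := fun y hy =>
        IsCl.mem_of_near par_Ir hP hsP (by omega : j ≤ k) (mem_filter.1 hy).1
          (by have := (mem_filter.1 hy).2; omega)
      have hne : (((Rm N ω j).filter fun y => ds s y ≤ ra j) ∩ Df N ω).Nonempty := by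
        by_contra a
        apply hok
        change ∑ x ∈ ((Rm N ω j).filter fun y => ds s y ≤ ra j) ∩ Df N ω, sl ω.1 x < _
        rw [not_nonempty_iff_eq_empty.1 a, sum_empty]
        exact Nat.mul_pos hN (pow_pos (by omega) 2)
      have hp : Pu N ω (k, P) :=
        ⟨hP, h.pure k P hP (hne.mono (inter_subset_inter hCP Subset.rfl))⟩
      have hv : Hv N (sl ω.1) P s (ra j) := by
        refine ⟨hsP, by omega, (not_lt.1 hok).trans (sum_le_sum_of_subset fun y hy => ?_)⟩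
        have := (mem_inter.1 hy).1
        exact mem_filter.2 ⟨hCP this, (mem_filter.1 this).2⟩
      have hb : ∀ y, ds s y ≤ 5 * ra j → y ∈ Lam N ω G := fun y hy =>
        ob_sub_lam hp (hG.notMem hsP hA) (sub_Ob _ (heavy_sub hv (by omega : j < k) hy))
      obtain ⟨b, hb'⟩ := exists_ds (r := ra j + 1) s (by omega)
      exact hc (rem_of_cn par_Ip (cn_ball hb (by omega : ds s b ≤ 5 * ra j)) (hb s (by simp))
        (by omega))

lemma seed_ball (hN : 1 ≤ N) (h : Reg N ω) (hG : Adm N ω G) {j : ℕ} {s y : Vx n}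
    (hs : s ∈ Rm N ω j) (hA : s ∈ AA (Lam N ω G)) (hy : ds s y ≤ be j) : y ∈ AA (Lam N ω G) :=
  mem_AA.2 ⟨j, s, domin hN h hG j s hs hA, hy⟩

lemma pu_sub_AA (hc : Pu N ω c) (hn : c ∉ G) : c.2 ⊆ AA (Lam N ω G) := fun _ hp =>
  sub_AA _ (ob_sub_lam hc hn (sub_Ob _ (hc.sub hp)))

/-- clusters of defects that are repaired are deep inside the frozen set -/
theorem inner_ball (hN : 1 ≤ N) (h : Reg N ω) (hG : Adm N ω G) (hc : Pu N ω c) (hn : c ∉ G) :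
    ∀ p ∈ c.2, ∀ y, ds p y ≤ be c.1 → y ∈ AA (Lam N ω G) := fun _ hp _ hy =>
  seed_ball hN h hG (lv_rem (IsCl.lv par_Ir hc.1 hp)) (pu_sub_AA hc hn hp) hy

lemma ob_ball (hN : 1 ≤ N) (h : Reg N ω) (hG : Adm N ω G) (hc : Pu N ω c) (hn : c ∉ G)
    {x y : Vx n} (hx : x ∈ Ob (Os N ω c)) (hy : ds x y ≤ be c.1) : y ∈ AA (Lam N ω G) := by
  obtain ⟨p, hp, hcn⟩ := O_conn hx
  exact mem_AA.2 ⟨c.1, x, rem_cn par_Ip (hcn.mono (ob_sub_lam hc hn))
    (domin hN h hG _ p (lv_rem (IsCl.lv par_Ir hc.1 hp)) (pu_sub_AA hc hn hp)), hy⟩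

section same

variable {A : Finset (Vx n)} {x : Vx n}

lemma Same.lab_eq (hs : Same A ω ω₂) : Mono.lab ω₂ = Mono.lab ω := by
  unfold Mono.lab; rw [hs.lab]

lemma Same.out (hs : Same A ω ω₂) (hx : x ∈ A) :
    ∀ e ∈ oe x, ω₂.1 e.1 - ω₂.1 e.2 = ω.1 e.1 - ω.1 e.2 := fun e he =>
  hs.grad e (mem_oe.1 he).1 ((mem_oe.1 he).2 ▸ hx)

lemma Same.sl_eq (hs : Same A ω ω₂) (hx : x ∈ A) : sl ω₂.1 x = sl ω.1 x := sl_congr (hs.out hx)

lemma Same.df (hs : Same A ω ω₂) (hx : x ∈ A) : x ∈ Df N ω₂ ↔ x ∈ Df N ω := by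
  rw [mem_Df, mem_Df, hs.lab, hs.sl_eq hx]

lemma Same.sd (hs : Same A ω ω₂) (hx : x ∈ A) : x ∈ Sd N ω₂ ↔ x ∈ Sd N ω := by
  rw [mem_Sd, mem_Sd, hs.df hx, hs.lab_eq, hs.lab]

lemma Same.ok (hs : Same A ω ω₂) {C : Finset (Vx n)} (hC : C ⊆ A) (j : ℕ) :
    okS N ω j C ↔ okS N ω₂ j C := by
  have e : C ∩ Df N ω₂ = C ∩ Df N ω := by
    ext y
    rw [mem_inter, mem_inter]
    exact and_congr_right fun a => hs.df (hC a)
  unfold okS
  rw [hs.lab_eq, e, sum_congr rfl fun y hy => hs.sl_eq (hC (mem_inter.1 hy).1)]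

end same

lemma Same.rm (hN : 1 ≤ N) (h : Reg N ω) (hG : Adm N ω G) (hs : Same (AA (Lam N ω G)) ω ω₂)
    (j : ℕ) : ∀ s ∈ AA (Lam N ω G), s ∈ Rm N ω j ↔ s ∈ Rm N ω₂ j := by
  induction j with
  | zero => exact fun s hA => (hs.sd hA).symm
  | succ j ih =>
    intro s hA
    have ch := chain j
    refine mem_rem_succ.trans (Iff.trans ?_ mem_rem_succ.symm)
    refine (and_congr_right fun s1 => not_congr ?_).trans (and_congr_left' (ih s hA))
    have ball : ∀ y, ds s y ≤ be j → y ∈ AA (Lam N ω G) := fun y hy => seed_ball hN h hG s1 hA hy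
    refine iso_congr (fun y hy => ih y (ball y (by omega))) (fun y _ hy y' hy' => ?_) fun _ => ?_
    · have := ds_tri s y y'
      exact ih y' (ball y' (by omega))
    · exact hs.ok (fun y hy => ball y (by have := (mem_filter.1 hy).2; omega)) j

lemma Same.lm (hN : 1 ≤ N) (h : Reg N ω) (hG : Adm N ω G) (hs : Same (AA (Lam N ω G)) ω ω₂)
    {j : ℕ} {s : Vx n} (hA : s ∈ AA (Lam N ω G)) : s ∈ Lm N ω j ↔ s ∈ Lm N ω₂ j :=
  mem_sdiff.trans ((and_congr (hs.rm hN h hG j s hA)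
    (not_congr (hs.rm hN h hG (j + 1) s hA))).trans mem_sdiff.symm)

lemma cl_sub_AA (hN : 1 ≤ N) (h : Reg N ω) (hG : Adm N ω G) {k : ℕ} {C : Finset (Vx n)} {s : Vx n}
    (hC : Cl N ω k C) (hsC : s ∈ C) (hA : s ∈ AA (Lam N ω G)) : C ⊆ AA (Lam N ω G) := fun y hy =>
  seed_ball hN h hG (lv_rem (IsCl.lv par_Ir hC hsC)) hA
    (by have := IsCl.diam par_Ir hC hsC hy; have := chain k; omega)

lemma Same.cl (hN : 1 ≤ N) (h : Reg N ω) (hG : Adm N ω G) (hs : Same (AA (Lam N ω G)) ω ω₂)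
    {k : ℕ} {C : Finset (Vx n)} {s : Vx n} (hsC : s ∈ C) (hA : s ∈ AA (Lam N ω G)) :
    Cl N ω k C ↔ Cl N ω₂ k C := by
  have e : s ∈ Lm N ω k → ((Rm N ω k).filter fun y => ds s y ≤ ra k) =
      (Rm N ω₂ k).filter fun y => ds s y ≤ ra k := fun a => by
    ext y
    rw [mem_filter, mem_filter]
    exact and_congr_left fun b => hs.rm hN h hG k y
      (seed_ball hN h hG (lv_rem a) hA (by have := chain k; omega))
  constructor
  · intro hC
    have a := IsCl.lv par_Ir hC hsC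
    exact ⟨s, (hs.lm hN h hG hA).1 a, (IsCl.eq par_Ir hC hsC).trans (e a)⟩
  · intro hC
    have a := (hs.lm hN h hG hA).2 (IsCl.lv par_Ir hC hsC)
    exact ⟨s, a, (IsCl.eq par_Ir hC hsC).trans (e a).symm⟩

lemma Same.pu_back (hN : 1 ≤ N) (h : Reg N ω) (hG : Adm N ω G) (hs : Same (AA (Lam N ω G)) ω ω₂)
    (hc : Pu N ω₂ c) : (Pu N ω c ∧ c ∉ G) ∨ Disjoint c.2 (AA (Lam N ω G)) := by
  by_cases hd : Disjoint c.2 (AA (Lam N ω G))
  · exact Or.inr hd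
  obtain ⟨s, hsC, hA⟩ := not_disjoint_iff.1 hd
  have hC := (hs.cl hN h hG hsC hA).2 hc.1
  exact Or.inl ⟨⟨hC, fun y hy => (hs.df (cl_sub_AA hN h hG hC hsC hA hy)).1 (hc.2 hy)⟩,
    hG.notMem hsC hA⟩

theorem transfer (hN : 1 ≤ N) (h : Reg N ω) (hG : Adm N ω G) (hs : Same (AA (Lam N ω G)) ω ω₂) :
    Reg N ω₂ ∧ (∀ c, Pu N ω c → c ∉ G → Pu N ω₂ c ∧ Os N ω₂ c = Os N ω c) ∧
      ∀ c, Pu N ω₂ c → (Pu N ω c ∧ c ∉ G) ∨ Disjoint c.2 (AA (Lam N ω G)) := by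
  have hl : ∀ y ∈ lab ω, y ∈ AA (Lam N ω G) := fun y hy => sub_AA _ (lab_sub_lam hy)
  refine ⟨⟨⟨hs.pin, fun x hx => ?_⟩, fun k C hC hne => ?_, fun c hc => ?_⟩, fun c hc hn => ?_,
    fun c hc => hs.pu_back hN h hG hc⟩
  · rw [hs.lab] at hx
    rw [hs.sl_eq (hl x (mem_lab.2 (by rw [hx]; decide)))]
    exact h.fil x hx
  · by_cases hd : Disjoint C (AA (Lam N ω G))
    · intro y hy
      by_contra a
      have := sd_lab (rem_sub (lv_rem (IsCl.lv par_Ir hC hy))) a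
      rw [hs.lab_eq] at this
      exact disjoint_left.1 hd hy (hl y this)
    obtain ⟨s, hsC, hA⟩ := not_disjoint_iff.1 hd
    have hC' := (hs.cl hN h hG hsC hA).2 hC
    have hsub := cl_sub_AA hN h hG hC' hsC hA
    obtain ⟨t, ht⟩ := hne
    rw [mem_inter] at ht
    exact fun y hy => (hs.df (hsub hy)).2
      (h.pure k C hC' ⟨t, mem_inter.2 ⟨ht.1, (hs.df (hsub ht.1)).1 ht.2⟩⟩ hy)
  · intro y hy p hp hd
    rw [hs.lab_eq] at hy
    have ck := chain c.1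
    rcases hs.pu_back hN h hG hc with ⟨h1, h2⟩ | hdj
    · obtain ⟨l, hl', z, hz, hzy⟩ := h.sc c h1 y hy p hp hd
      have := ra_mono hl'.le
      have t := ds_tri p y z
      rw [ds_comm y z] at t
      exact ⟨l, hl', z, (hs.lm hN h hG (inner_ball hN h hG h1 h2 p hp z (by omega))).1 hz, hzy⟩
    · obtain ⟨s, s1, s2, s3⟩ := exists_seed (N := N) hy
      obtain ⟨l, -, hsl⟩ := exists_lm s1
      obtain ⟨C, hC, hsC⟩ := lv_exists_cl hsl
      have far : be l < ds s p := by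
        by_contra a
        exact disjoint_left.1 hdj hp (seed_ball hN h hG (lv_rem hsl) (hl s s2) (not_lt.1 a))
      have cl := chain l
      have dn := ds_le s p
      rcases IsCl.isOk hC with w | w
      · omega
      have d4 := w.1 s hsC y s3
      have t := ds_tri s y p
      rw [ds_comm y p] at t
      have hlt : l < c.1 := by
        by_contra a
        have := Jr_mono (not_lt.1 a)
        omega
      exact ⟨l, hlt, s, (hs.lm hN h hG (hl s s2)).1 hsl, by omega⟩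
  · have hsub := pu_sub_AA hc hn
    obtain ⟨s, hsC⟩ := IsCl.nonempty hc.1
    refine ⟨⟨(hs.cl hN h hG hsC (hsub hsC)).1 hc.1, fun y hy => (hs.df (hsub hy)).2 (hc.2 hy)⟩,
      O_congr (fun p hp => (hs.sl_eq (hsub hp)).symm) fun l hl' z => ?_⟩
    by_cases hz : z ∈ AA (Lam N ω G)
    · exact Or.inl (hs.lm hN h hG hz)
    refine Or.inr (Or.inr fun y hy => ?_)
    by_contra a
    have := Jr_mono hl'.le
    have ck := chain c.1
    exact hz (ob_ball hN h hG hc hn (sub_Ob _ hy) (by rw [ds_comm]; omega))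

lemma Same.ast_sub (hN : 1 ≤ N) (h : Reg N ω) (hG : Adm N ω G)
    (hs : Same (AA (Lam N ω G)) ω ω₂) : Ast N ω₂ ⊆ AA (Lam N ω G) := by
  obtain ⟨-, t2, t3⟩ := transfer hN h hG hs
  have e : Lam N ω₂ {c | Pu N ω₂ c ∧ Disjoint c.2 (AA (Lam N ω G))} = Lam N ω G := by
    ext y
    rw [mem_Lam, mem_Lam, hs.lab_eq]
    refine or_congr_right ⟨fun ⟨c, h1, h2, h3⟩ => ?_, fun ⟨c, h1, h2, h3⟩ => ?_⟩
    · rcases t3 c h1 with a | a
      · exact ⟨c, a.1, a.2, (t2 c a.1 a.2).2 ▸ h3⟩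
      · exact absurd ⟨h1, a⟩ h2
    · refine ⟨c, (t2 c h1 h2).1, fun a => ?_, (t2 c h1 h2).2.symm ▸ h3⟩
      obtain ⟨s, hsC⟩ := IsCl.nonempty h1.1
      exact disjoint_left.1 a.2 hsC (pu_sub_AA h1 h2 hsC)
  have ad : Adm N ω₂ {c | Pu N ω₂ c ∧ Disjoint c.2 (AA (Lam N ω G))} := fun c hc =>
    ⟨hc.1, e.symm ▸ hc.2⟩
  rw [← e]
  exact AA_mono (lam_anti (G' := Gs N ω₂) fun c hc => ⟨_, ad, hc⟩)

lemma Same.reg (hN : 1 ≤ N) (h : Reg N ω) (hs : Same (Ast N ω) ω ω₂) : Reg N ω₂ :=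
  (transfer hN h adm_Gs hs).1

lemma Same.symm (hN : 1 ≤ N) (h : Reg N ω) (hs : Same (Ast N ω) ω ω₂) : Same (Ast N ω₂) ω₂ ω :=
  ⟨hs.lab.symm, h.pin, fun e he a => (hs.grad e he (hs.ast_sub hN h adm_Gs a)).symm⟩

theorem Same.ast (hN : 1 ≤ N) (h : Reg N ω) (hs : Same (Ast N ω) ω ω₂) :
    Ast N ω₂ = Ast N ω :=
  Subset.antisymm (hs.ast_sub hN h adm_Gs) ((hs.symm hN h).ast_sub hN (hs.reg hN h) adm_Gs)

/-- preimages are transported inside a class -/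
theorem Same.opt (hN : 1 ≤ N) (h : Opt N c ω₁ ω) (hs : Same (Ast N ω) ω ω₂) :
    Opt N c (fun x => ω₁.1 x + (ω₂.1 x - ω.1 x), ω₁.2) ω₂ ∧
      Os N (fun x => ω₁.1 x + (ω₂.1 x - ω.1 x), ω₁.2) c = Os N ω₁ c ∧
      Ob (Os N ω₁ c) ⊆ Ast N ω := by
  have hr := h.reg' hN
  have hn : c ∉ Gs N ω := fun a => ((h.pu_iff hN).1 (adm_Gs c a).1).2 rfl
  have eA : Ast N ω = AA (Lam N ω₁ (Gs N ω)) := by rw [Ast, h.lam_eq hN hn]
  have hG : Adm N ω₁ (Gs N ω) := fun c' hc' =>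
    ⟨((h.pu_iff hN).1 (adm_Gs c' hc').1).1, eA ▸ (adm_Gs c' hc').2⟩
  have hs3 : Same (AA (Lam N ω₁ (Gs N ω))) ω₁ (fun x => ω₁.1 x + (ω₂.1 x - ω.1 x), ω₁.2) := by
    refine ⟨rfl, ?_, fun e he a => ?_⟩
    · simp only [h.reg.pin, hs.pin, hr.pin]; rfl
    · have := hs.grad e he (eA ▸ a)
      simp only
      omega
  obtain ⟨t1, t2, -⟩ := transfer hN h.reg hG hs3
  obtain ⟨t3, t4⟩ := t2 c h.pu hn
  have hX : Ob (Os N ω₁ c) ⊆ AA (Lam N ω₁ (Gs N ω)) := (ob_sub_lam h.pu hn).trans (sub_AA _)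
  refine ⟨⟨t1, t3, fun x hx => ?_, ?_⟩, t4, eA ▸ hX⟩
  · rw [t4, mem_inter] at hx
    exact h.leaf (mem_inter.2 ⟨(hs3.df (hX hx.2)).1 hx.1, hx.2⟩)
  obtain ⟨p, hp⟩ := IsCl.nonempty h.pu.1
  have ck := chain c.1
  have cst : ∀ x, ds p x ≤ be c.1 → ω₂.1 x - ω.1 x = ω₂.1 p - ω.1 p := fun x hx =>
    sub_const (fun e he a => (hs.grad e he (eA ▸ inner_ball hN h.reg hG h.pu hn p hp _ a)).symm) hx
  have near : ∀ x ∈ Os N ω₁ c, ∀ y, ds x y ≤ 1 → ds p y ≤ be c.1 := fun x hx y hy => by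
    have := ds_le p y
    have := ds_tri p x y
    rcases h.pu.conf with w | w
    · omega
    · have := w p hp x (sub_Ob _ hx); omega
  have key : ∀ x, McS (10000 * N) (fun x => ω₁.1 x + (ω₂.1 x - ω.1 x)) (Os N ω₁ c) x =
      McS (10000 * N) ω₁.1 (Os N ω₁ c) x + (ω₂.1 x - ω.1 x) := by
    intro x
    by_cases hx : x ∈ Os N ω₁ c
    · by_cases hne : (dO (Os N ω₁ c)).Nonempty
      · rw [cst x (near x hx x (by simp))]
        refine McS_add hne (fun y hy => ?_) hx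
        obtain ⟨-, z, hz, hd⟩ := mem_dO.1 hy
        simp only [cst y (near z hz y hd)]
      · have all : ∀ y, ω₂.1 y - ω.1 y = 0 := fun y => by
          have u : ∀ y, y ∈ Os N ω₁ c := fun y => by
            by_contra a
            exact hne (dO_nonempty ⟨x, hx⟩ a)
          have a1 := cst y (near y (u y) y (by simp))
          have a2 := cst (vz n) (near (vz n) (u _) _ (by simp))
          rw [hs.pin, hr.pin] at a2
          omega
        simp only [all, add_zero]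
    · rw [McS_out hx, McS_out hx]
  have e1 := congrArg Prod.fst h.eq
  have e2 := congrArg Prod.snd h.eq
  unfold rep at e1 e2 ⊢
  rw [t4]
  refine Prod.ext (funext fun x => ?_) (e2.trans hs.lab.symm)
  have a1 := congrFun e1 x
  have a2 := hs.pin
  have a3 := hr.pin
  simp only at a1 ⊢
  rw [key, key]
  omega

end Pool.Agent.Lib.MP_9cc147_pr.Mono
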