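import Pool.Agent.Lib.MP_9cc147_pr.MPatch
import Pool.Agent.Lib.MP_9cc147_pr.MTrans
import Pool.Agent.Lib.MP_9cc147_pr.MAc1

/-! Weights of preimages, resummation over regular states. -/

open Finset
open scoped ENNReal

namespace Pool.Agent.Lib.MP_9cc147_pr.Mono

variable {n N : ℕ} {u : ℤ → ℝ} {β ε S : ℝ} {ω ω' ω₂ : St n} {c c₀ : ℕ × Finset (Vx n)}

lemma wx_nonneg (H : Hyp u N β ε S) (ω : St n) (x : Vx n) : 0 ≤ wx u N β ε ω x := wx_nonneg' H ω x

lemma nu_pos (H : Hyp u N β ε S) (h : Pre N ω) : nu u N β ε ω ≠ 0 :=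
  (ENNReal.ofReal_pos.2 (prod_pos fun x _ => wx_pos H h x)).ne'

lemma nu_ne_top : nu u N β ε ω ≠ ∞ := ENNReal.ofReal_ne_top

lemma wx_congr {x : Vx n} (h : ω'.2 x = ω.2 x)
    (hg : ∀ e ∈ oe x, ω'.1 e.1 - ω'.1 e.2 = ω.1 e.1 - ω.1 e.2) :
    wx u N β ε ω' x = wx u N β ε ω x := wx_congr' h hg

/-- the preimages weigh less than the repaired state -/
theorem ac_le_one (H : Hyp u N β ε S) (c : ℕ × Finset (Vx n)) (ω : St n) :
    ac u N β ε c ω ≤ 1 := by
  rw [ac_pm]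
  exact ENNReal.div_le_of_le_mul (by rw [one_mul]; exact pm_le_nu H)

lemma ac_pu (h : Pu N ω c) : ac u N β ε c ω = 0 := by
  have e : pm u N β ε c ω = 0 := by
    refine ENNReal.tsum_eq_zero.2 fun a => if_neg fun ha => ?_
    obtain ⟨p, hp⟩ := IsCl.nonempty h.1
    have h0 := (mem_Df.1 (h.2 hp)).1
    rw [← ha.eq] at h0
    simp only [rep, if_pos hp] at h0
    exact absurd h0 (by decide)
  rw [ac_pm, e, ENNReal.zero_div]

lemma nu_mul (H : Hyp u N β ε S) {a b a' b' : St n}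
    (h : ∀ x, wx u N β ε a x * wx u N β ε b x = wx u N β ε a' x * wx u N β ε b' x) :
    nu u N β ε a * nu u N β ε b = nu u N β ε a' * nu u N β ε b' := by
  unfold nu
  rw [← ENNReal.ofReal_mul (prod_nonneg fun x _ => wx_nonneg H _ x),
    ← ENNReal.ofReal_mul (prod_nonneg fun x _ => wx_nonneg H _ x), ← prod_mul_distrib,
    ← prod_mul_distrib, prod_congr rfl fun x _ => h x]

open Classical in
lemma tsum_le_rel {α γ : Type*} {p : α → Prop} {q : γ → Prop} {f : α → ℝ≥0∞} {g : γ → ℝ≥0∞}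
    (R : α → γ → Prop) (ex : ∀ a, p a → ∃ b, q b ∧ R a b ∧ f a ≤ g b)
    (inj : ∀ a a' b, R a b → R a' b → a = a') :
    (∑' a, if p a then f a else 0) ≤ ∑' b, if q b then g b else 0 := by
  choose φ h1 h2 h3 using ex
  have e : (∑' a, if p a then f a else 0) = ∑' a : {a | p a}, f a := by
    rw [_root_.tsum_subtype]
    rfl
  rw [e]
  refine le_trans (ENNReal.tsum_le_tsum fun a => ?_) (ENNReal.tsum_comp_le_tsum_of_injective
    (f := fun a : {a | p a} => φ a.1 a.2) (fun a a' h => ?_) fun b => if q b then g b else 0)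
  · rw [if_pos (h1 a.1 a.2)]
    exact h3 a.1 a.2
  · exact Subtype.ext (inj _ _ _ (h2 a.1 a.2) (by
      have h' : φ a.1 a.2 = φ a'.1 a'.2 := h
      rw [h']
      exact h2 a'.1 a'.2))

lemma pm_le (R : St n → St n → Prop) (ex : ∀ a, Opt N c a ω → ∃ b, Opt N c b ω' ∧ R a b ∧
    nu u N β ε a * nu u N β ε ω' = nu u N β ε b * nu u N β ε ω)
    (inj : ∀ a a' b, R a b → R a' b → a = a') :
    pm u N β ε c ω * nu u N β ε ω' ≤ pm u N β ε c ω' * nu u N β ε ω := by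
  unfold pm
  rw [← ENNReal.tsum_mul_right, ← ENNReal.tsum_mul_right]
  simp only [ite_mul, zero_mul]
  exact tsum_le_rel R (fun a ha => (ex a ha).imp fun b hb => ⟨hb.1, hb.2.1, hb.2.2.le⟩) inj

lemma ac_eq (H : Hyp u N β ε S) (h : Pre N ω) (h' : Pre N ω')
    (h1 : pm u N β ε c ω * nu u N β ε ω' ≤ pm u N β ε c ω' * nu u N β ε ω)
    (h2 : pm u N β ε c ω' * nu u N β ε ω ≤ pm u N β ε c ω * nu u N β ε ω') :
    ac u N β ε c ω = ac u N β ε c ω' := by
  rw [ac_pm, ac_pm, ENNReal.div_eq_div_iff (nu_pos H h') nu_ne_top (nu_pos H h) nu_ne_top,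
    mul_comm, mul_comm (nu u N β ε ω)]
  exact le_antisymm h1 h2

lemma Sq.nu_eq (H : Hyp u N β ε S) {ω₁ : St n} (h : Sq N c c₀ ω₁ ω ω₂ ω') :
    nu u N β ε ω₁ * nu u N β ε ω' = nu u N β ε ω₂ * nu u N β ε ω := by
  refine nu_mul H fun x => ?_
  by_cases hx : x ∈ Ob (Os N ω c₀)
  · have hx' := disjoint_left.1 h.dj hx
    have o1 := h.o1.out (h.e1 ▸ hx')
    have o4 := h.o4.out hx'
    rw [wx_congr o1.1 o1.2, wx_congr o4.1 o4.2, mul_comm]
  · have o2 := h.o2.out hx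
    have o3 := h.o3.out (h.e0 ▸ hx)
    rw [wx_congr o2.1 o2.2, wx_congr o3.1 o3.2]

lemma Sq.unique {a b : St n} (ha : Sq N c c₀ a ω ω₂ ω') (hb : Sq N c c₀ b ω ω₂ ω') : a = b := by
  refine st_ext ha.o1.reg.pin hb.o1.reg.pin fun x => ?_
  by_cases hx : x ∈ Ob (Os N ω c₀)
  · have hx' := disjoint_left.1 ha.dj hx
    have o1 := ha.o1.out (ha.e1 ▸ hx')
    have o2 := hb.o1.out (hb.e1 ▸ hx')
    exact ⟨o1.1.symm.trans o2.1, fun e he => (o1.2 e he).symm.trans (o2.2 e he)⟩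
  · have o1 := ha.o3.out (ha.e0 ▸ hx)
    have o2 := hb.o3.out (hb.e0 ▸ hx)
    exact ⟨o1.1.symm.trans o2.1, fun e he => (o1.2 e he).symm.trans (o2.2 e he)⟩

theorem ac_rep (H : Hyp u N β ε S) (h : Opt N c₀ ω ω') (hl : c₀.1 ≤ c.1) (hne : c ≠ c₀) :
    ac u N β ε c ω = ac u N β ε c ω' := by
  refine ac_eq H h.reg.toPre (h.reg' H.one).toPre
    (pm_le (fun a b => Sq N c c₀ a ω b ω') (fun a ha => ?_) fun a a' b h1 h2 => h1.unique h2)
    (pm_le (fun b a => Sq N c c₀ a ω b ω') (fun b hb => ?_)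
      fun b b' a h1 h2 => h1.o3.eq.symm.trans h2.o3.eq)
  · have q := commute H.one ha h hl
    exact ⟨_, q.o4, q, q.nu_eq H⟩
  · obtain ⟨a, q⟩ := patch H.one hb h hl hne
    exact ⟨a, q.o1, q, (q.nu_eq H).symm⟩

lemma Same.pm_le (H : Hyp u N β ε S) (hs : Same (Ast N ω) ω ω₂) :
    pm u N β ε c ω * nu u N β ε ω₂ ≤ pm u N β ε c ω₂ * nu u N β ε ω := by
  refine Mono.pm_le (fun a b => b = (fun x => a.1 x + (ω₂.1 x - ω.1 x), a.2)) (fun a ha => ?_)
    fun a a' b h1 h2 => ?_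
  · obtain ⟨q1, q2, q3⟩ := hs.opt H.one ha
    refine ⟨_, q1, rfl, nu_mul H fun x => ?_⟩
    by_cases hx : x ∈ Ast N ω
    · rw [wx_congr (congrFun hs.lab x) (hs.out hx),
        wx_congr (ω' := (fun x => a.1 x + (ω₂.1 x - ω.1 x), a.2)) (ω := a) rfl fun e he => by
          have := hs.out hx e he
          simp only
          omega]
    · have o1 := ha.out fun b => hx (q3 b)
      have o2 := q1.out (q2 ▸ fun b => hx (q3 b))
      rw [wx_congr o1.1 o1.2, wx_congr o2.1 o2.2, mul_comm]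
  · have e := h1.symm.trans h2
    refine Prod.ext (funext fun x => ?_) (congrArg Prod.snd e :)
    have := congrFun (congrArg Prod.fst e) x
    simp only at this
    omega

theorem gg_same (H : Hyp u N β ε S) (h : Reg N ω) (hs : Same (Ast N ω) ω ω₂) :
    gg u N β ε ω₂ = gg u N β ε ω :=
  prod_congr rfl fun _ _ => by
    rw [ac_eq H (hs.reg H.one h).toPre h.toPre ((hs.symm H.one h).pm_le H) (hs.pm_le H)]

/-- regular, and all clusters of defects are in `T` -/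
def Qt (N : ℕ) (T : Finset (ℕ × Finset (Vx n))) (ω : St n) : Prop :=
  Reg N ω ∧ ∀ c, Pu N ω c → c ∈ T

open Classical in
lemma resum_step (H : Hyp u N β ε S) (Φ : St n → ℝ≥0∞) (hΦ : ∀ c ω ω', Opt N c ω ω' → Φ ω = Φ ω')
    {T : Finset (ℕ × Finset (Vx n))} (hn : c₀ ∉ T) (hm : ∀ c ∈ T, c₀.1 ≤ c.1) :
    (∑' ω, if Qt N (insert c₀ T) ω then
      nu u N β ε ω * (∏ c ∈ insert c₀ T, (1 - ac u N β ε c ω)) * Φ ω else 0) =
      ∑' ω, if Qt N T ω then nu u N β ε ω * (∏ c ∈ T, (1 - ac u N β ε c ω)) * Φ ω else 0 := by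
  obtain ⟨g, hg⟩ : ∃ g : St n → ℝ≥0∞, ∀ ω, g ω = (∏ c ∈ T, (1 - ac u N β ε c ω)) * Φ ω :=
    ⟨_, fun _ => rfl⟩
  have split : ∀ ω, (if Qt N (insert c₀ T) ω then
      nu u N β ε ω * (∏ c ∈ insert c₀ T, (1 - ac u N β ε c ω)) * Φ ω else 0) =
      (if Qt N T ω then nu u N β ε ω * (1 - ac u N β ε c₀ ω) * g ω else 0) +
        ∑' ω', (if Opt N c₀ ω ω' then nu u N β ε ω else 0) * if Qt N T ω' then g ω' else 0 := by
    intro ω
    rw [prod_insert hn, mul_assoc, mul_assoc, ← hg, ← mul_assoc]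
    by_cases hp : Pu N ω c₀
    · rw [if_neg (c := Qt N T ω) fun a => hn (a.2 c₀ hp), zero_add]
      by_cases hq : Qt N (insert c₀ T) ω
      · have ho : Opt N c₀ ω (rep N ω c₀) := ⟨hq.1, hp, hq.1.leaf hp fun c' hc' => by
          rcases mem_insert.1 (hq.2 c' hc') with rfl | a
          · exact le_rfl
          · exact hm c' a, rfl⟩
        have hq' : Qt N T (rep N ω c₀) := ⟨ho.reg' H.one, fun c' hc' =>
          have a := (ho.pu_iff H.one).1 hc'
          (mem_insert.1 (hq.2 c' a.1)).resolve_left a.2⟩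
        rw [if_pos hq, tsum_eq_single (rep N ω c₀) fun b hb => by
          rw [if_neg fun a : Opt N c₀ ω b => hb a.eq.symm, zero_mul], if_pos ho, if_pos hq',
          ac_pu hp, tsub_zero, mul_one, hg, hg, hΦ _ _ _ ho,
          prod_congr rfl fun c' hc' => by
            rw [ac_rep H ho (hm c' hc') fun e => hn (e ▸ hc')]]
      · rw [if_neg hq]
        refine (ENNReal.tsum_eq_zero.2 fun b => ?_).symm
        by_cases ho : Opt N c₀ ω b
        · rw [if_neg (c := Qt N T b) fun a => hq ⟨ho.reg, fun c' hc' => ?_⟩, mul_zero]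
          by_cases e : c' = c₀
          · exact e ▸ mem_insert_self _ _
          · exact mem_insert_of_mem (a.2 c' ((ho.pu_iff H.one).2 ⟨hc', e⟩))
        · rw [if_neg ho, zero_mul]
    · rw [ENNReal.tsum_eq_zero.2 fun b => by
        rw [if_neg fun a : Opt N c₀ ω b => hp a.pu, zero_mul], add_zero]
      refine if_congr (and_congr_right fun _ => forall₂_congr fun c' hc' => ?_) rfl rfl
      exact ⟨fun a => (mem_insert.1 a).resolve_left fun e => hp (e ▸ hc'), mem_insert_of_mem⟩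
  rw [tsum_congr split, ENNReal.tsum_add, ENNReal.tsum_comm, ← ENNReal.tsum_add]
  refine tsum_congr fun ω => ?_
  rw [ENNReal.tsum_mul_right]
  by_cases hq : Qt N T ω
  · rw [if_pos hq, if_pos hq, if_pos hq, mul_assoc _ _ (Φ ω), ← hg, ← add_mul]
    congr 1
    change _ + pm u N β ε c₀ ω = _
    rw [← ENNReal.div_mul_cancel (b := pm u N β ε c₀ ω) (nu_pos H hq.1.toPre) nu_ne_top, ← ac_pm,
      mul_comm (ac u N β ε c₀ ω), ← mul_add, tsub_add_cancel_of_le (ac_le_one H _ _), mul_one]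
  · rw [if_neg hq, if_neg hq, if_neg hq, mul_zero, add_zero]

open Classical in
/-- resummation -/
theorem resum (H : Hyp u N β ε S) (Φ : St n → ℝ≥0∞) (hΦ : ∀ c ω ω', Opt N c ω ω' → Φ ω = Φ ω') :
    (∑' ω, if Reg N ω then nu u N β ε ω * gg u N β ε ω * Φ ω else 0) =
      ∑' ω, if Pre N ω ∧ Df N ω = ∅ then nu u N β ε ω * Φ ω else 0 := by
  have key : ∀ T : Finset (ℕ × Finset (Vx n)),
      (∑' ω, if Qt N T ω then nu u N β ε ω * (∏ c ∈ T, (1 - ac u N β ε c ω)) * Φ ω else 0) =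
        ∑' ω, if Pre N ω ∧ Df N ω = ∅ then nu u N β ε ω * Φ ω else 0 := by
    intro T
    refine Finset.induction_on_min_value (α := ℕ) (fun c : ℕ × Finset (Vx n) => c.1)
      (motive := fun T => (∑' ω, if Qt N T ω then
        nu u N β ε ω * (∏ c ∈ T, (1 - ac u N β ε c ω)) * Φ ω else 0) = _) T ?_
      fun c₀ T hn hm ih => (resum_step H Φ hΦ hn hm).trans ih
    refine tsum_congr fun ω => if_congr ⟨fun a => ⟨a.1.toPre, a.1.df_empty.2 fun c hc =>
      notMem_empty _ (a.2 c hc)⟩, fun a => ?_⟩ (by rw [prod_empty, mul_one]) rfl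
    have r := reg_of_empty a.1 a.2
    exact ⟨r, fun c hc => absurd hc (r.df_empty.1 a.2 c)⟩
  rw [← key (range (n + 1) ×ˢ univ)]
  refine tsum_congr fun ω => if_congr ⟨fun a => ⟨a, fun c hc => mem_product.2
    ⟨mem_range.2 (Nat.lt_succ_of_le hc.1.level_le), mem_univ _⟩⟩, fun a => a.1⟩ rfl rfl

end Pool.Agent.Lib.MP_9cc147_pr.Mono
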