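import Pool.Agent.Lib.MP_9cc147_pr.MDef

/-! Segments, the ring lemma and the chaining lemma. -/

open Finset

namespace Pool.Agent.Lib.MP_9cc147_pr.Mono

variable {n : ℕ}

lemma seg_aux (g v : Fin (n + 1) → ℤ) (a : Fin (n + 1)) (d : ℕ) :
    ∀ b : Fin (n + 1), b.val = a.val + d →
    (∀ i j : Fin (n + 1), j.val = i.val + 1 → a.val ≤ i.val → j.val ≤ b.val → |g i - g j| ≤ v i) →
    |g a - g b| ≤ ∑ i ∈ univ.filter fun i : Fin (n + 1) => a.val ≤ i.val ∧ i.val < b.val, v i := by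
  induction d with
  | zero =>
    intro b hb _
    have : b = a := Fin.ext (by omega)
    subst this
    rw [filter_false_of_mem (by intro i _; omega)]
    simp
  | succ d ih =>
    intro b hb h
    have := b.2
    obtain ⟨b', hb'⟩ : ∃ b' : Fin (n + 1), b'.val = a.val + d := ⟨⟨a.val + d, by omega⟩, rfl⟩
    have h1 := ih b' hb' fun i j e h1 h2 => h i j e h1 (by omega)
    have h2 := h b' b (by omega) (by omega) le_rfl
    have e : (univ.filter fun i : Fin (n + 1) => a.val ≤ i.val ∧ i.val < b.val) =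
        insert b' (univ.filter fun i : Fin (n + 1) => a.val ≤ i.val ∧ i.val < b'.val) := by
      ext i
      simp only [mem_filter, mem_univ, true_and, mem_insert, Fin.ext_iff]
      omega
    rw [e, sum_insert (by simp)]
    have := abs_sub_le (g a) (g b') (g b)
    linarith

/-- interval of the line -/
def Iv (c : Fin (n + 1)) (s : ℕ) : Finset (Fin (n + 1)) :=
  univ.filter fun a => ((c : ℤ) - a).natAbs ≤ s

lemma mem_Iv {c a : Fin (n + 1)} {s : ℕ} : a ∈ Iv c s ↔ ((c : ℤ) - a).natAbs ≤ s := by simp [Iv]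

lemma seg_sum (g : Fin (n + 1) → ℤ) (v : Fin (n + 1) → ℕ)
    (h : ∀ i j : Fin (n + 1), j.val = i.val + 1 → |g i - g j| ≤ v i) {c a b : Fin (n + 1)} {s : ℕ}
    (ha : a ∈ Iv c s) (hb : b ∈ Iv c s) : |g a - g b| ≤ ((∑ i ∈ Iv c s, v i : ℕ) : ℤ) := by
  wlog hab : a.val ≤ b.val generalizing a b
  · rw [abs_sub_comm]; exact this hb ha (by omega)
  refine (seg_aux g (fun i => v i) a (b.val - a.val) b (by omega) fun i j e _ _ => h i j e).trans ?_
  push_cast
  refine sum_le_sum_of_subset_of_nonneg (fun i hi => ?_) fun _ _ _ => by positivity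
  rw [mem_Iv] at *
  simp only [mem_filter, mem_univ, true_and] at hi
  omega

lemma seg_lip (g : Fin (n + 1) → ℤ) {L : ℤ} {c a b : Fin (n + 1)} {s : ℕ}
    (h : ∀ i j : Fin (n + 1), j.val = i.val + 1 → i ∈ Iv c s → j ∈ Iv c s → |g i - g j| ≤ L)
    (ha : a ∈ Iv c s) (hb : b ∈ Iv c s) : |g a - g b| ≤ L * (((a : ℤ) - b).natAbs : ℕ) := by
  wlog hab : a.val ≤ b.val generalizing a b
  · rw [abs_sub_comm, show ((a : ℤ) - b).natAbs = ((b : ℤ) - a).natAbs by omega]
    exact this hb ha (by omega)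
  simp only [mem_Iv] at h ha hb
  refine (seg_aux g (fun _ => L) a (b.val - a.val) b (by omega) fun i j e _ _ =>
    h i j e (by omega) (by omega)).trans (le_of_eq ?_)
  have e : (univ.filter fun i : Fin (n + 1) => a.val ≤ i.val ∧ i.val < b.val) = Ico a b := by
    ext i; simp
  rw [e, sum_const, Fin.card_Ico, nsmul_eq_mul, mul_comm]
  congr 2
  omega

lemma exists_end (c : Fin (n + 1)) {r : ℕ} (hn : 2 * r ≤ n + 1) :
    ∃ b : Fin (n + 1), ((c : ℤ) - b).natAbs = r := by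
  have := c.2
  by_cases hc : r ≤ c.val
  · exact ⟨⟨c.val - r, by omega⟩, by simp only; omega⟩
  · exact ⟨⟨c.val + r, by omega⟩, by simp only; omega⟩

/-- slopes on a square ring control differences on the ring -/
lemma ring_lip {f : Vx n → ℤ} {z : Vx n} {r L : ℕ} (hn : 2 * r ≤ n + 1)
    (h : ∀ e ∈ Ed n, ds z e.1 = r → ds z e.2 = r → |f e.1 - f e.2| ≤ L) {y y' : Vx n}
    (hy : ds z y = r) (hy' : ds z y' = r) : |f y - f y'| ≤ ((3 * L : ℕ) : ℤ) * d1 y y' := by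
  have col : ∀ a : Fin (n + 1), ((z.1 : ℤ) - a).natAbs = r → ∀ b b' : Fin (n + 1),
      ((z.2 : ℤ) - b).natAbs ≤ r → ((z.2 : ℤ) - b').natAbs ≤ r →
      |f (a, b) - f (a, b')| ≤ L * (((b : ℤ) - b').natAbs : ℕ) := by
    intro a ha b b' hb hb'
    refine seg_lip (fun b => f (a, b)) (fun i j e hi hj => ?_) (mem_Iv.2 hb) (mem_Iv.2 hb')
    rw [mem_Iv] at hi hj
    exact h ((a, i), (a, j)) (mem_Ed.2 (Or.inr ⟨rfl, e⟩)) (by unfold ds; simp only; omega)
      (by unfold ds; simp only; omega)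
  have row : ∀ b : Fin (n + 1), ((z.2 : ℤ) - b).natAbs = r → ∀ a a' : Fin (n + 1),
      ((z.1 : ℤ) - a).natAbs ≤ r → ((z.1 : ℤ) - a').natAbs ≤ r →
      |f (a, b) - f (a', b)| ≤ L * (((a : ℤ) - a').natAbs : ℕ) := by
    intro b hb a a' ha ha'
    refine seg_lip (fun a => f (a, b)) (fun i j e hi hj => ?_) (mem_Iv.2 ha) (mem_Iv.2 ha')
    rw [mem_Iv] at hi hj
    exact h ((i, b), (j, b)) (mem_Ed.2 (Or.inl ⟨e, rfl⟩)) (by unfold ds; simp only; omega)
      (by unfold ds; simp only; omega)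
  obtain ⟨a, b⟩ := y
  obtain ⟨a', b'⟩ := y'
  have fin : ∀ s : ℕ, s ≤ 3 * d1 ((a, b) : Vx n) (a', b') → |f (a, b) - f (a', b')| ≤ L * (s : ℤ) →
      |f (a, b) - f (a', b')| ≤ ((3 * L : ℕ) : ℤ) * d1 ((a, b) : Vx n) (a', b') := by
    intro s hs hf
    have : (L : ℤ) * s ≤ L * (3 * d1 ((a, b) : Vx n) (a', b') : ℕ) :=
      mul_le_mul_of_nonneg_left (by exact_mod_cast hs) (by positivity)
    push_cast at this ⊢
    linarith
  unfold ds at hy hy'
  unfold d1 at fin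
  simp only at hy hy' fin
  by_cases c1 : ((z.1 : ℤ) - a).natAbs = r
  · by_cases c2 : ((z.2 : ℤ) - b').natAbs = r
    · have h1 := col a c1 b b' (by omega) (by omega)
      have h2 := row b' c2 a a' (by omega) (by omega)
      have := abs_sub_le (f (a, b)) (f (a, b')) (f (a', b'))
      refine fin (((b : ℤ) - b').natAbs + ((a : ℤ) - a').natAbs) (by omega) ?_
      rw [Nat.cast_add]; linarith
    · by_cases c3 : a = a'
      · subst c3
        exact fin _ (by omega) (col a c1 b b' (by omega) (by omega))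
      · obtain ⟨u, hu⟩ := exists_end z.2 hn
        have c4 : a.val ≠ a'.val := fun e => c3 (Fin.ext e)
        have h1 := col a c1 b u (by omega) (by omega)
        have h2 := row u hu a a' (by omega) (by omega)
        have h3 := col a' (by omega) u b' (by omega) (by omega)
        have := abs_sub_le (f (a, b)) (f (a, u)) (f (a', b'))
        have := abs_sub_le (f (a, u)) (f (a', u)) (f (a', b'))
        refine fin (((b : ℤ) - u).natAbs + ((a : ℤ) - a').natAbs + ((u : ℤ) - b').natAbs)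
          (by omega) ?_
        rw [Nat.cast_add, Nat.cast_add]; linarith
  · have c0 : ((z.2 : ℤ) - b).natAbs = r := by omega
    by_cases c2 : ((z.1 : ℤ) - a').natAbs = r
    · have h1 := row b c0 a a' (by omega) (by omega)
      have h2 := col a' c2 b b' (by omega) (by omega)
      have := abs_sub_le (f (a, b)) (f (a', b)) (f (a', b'))
      refine fin (((b : ℤ) - b').natAbs + ((a : ℤ) - a').natAbs) (by omega) ?_
      rw [Nat.cast_add]; linarith
    · by_cases c3 : b = b'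
      · subst c3
        exact fin _ (by omega) (row b c0 a a' (by omega) (by omega))
      · obtain ⟨u, hu⟩ := exists_end z.1 hn
        have c4 : b.val ≠ b'.val := fun e => c3 (Fin.ext e)
        have h1 := row b c0 a u (by omega) (by omega)
        have h2 := col u hu b b' (by omega) (by omega)
        have h3 := row b' (by omega) u a' (by omega) (by omega)
        have := abs_sub_le (f (a, b)) (f (u, b)) (f (a', b'))
        have := abs_sub_le (f (u, b)) (f (u, b')) (f (a', b'))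
        refine fin (((a : ℤ) - u).natAbs + ((b : ℤ) - b').natAbs + ((u : ℤ) - a').natAbs)
          (by omega) ?_
        rw [Nat.cast_add, Nat.cast_add]; linarith

lemma ball_eq (y : Vx n) (t : ℕ) :
    (univ.filter fun x => ds y x ≤ t) = Iv y.1 t ×ˢ Iv y.2 t := by
  ext x
  simp only [mem_filter, mem_univ, true_and, mem_product, mem_Iv, ds]
  omega

lemma le_card_Iv (c : Fin (n + 1)) {t : ℕ} (ht : t ≤ n) : t + 1 ≤ (Iv c t).card := by
  have := c.2
  obtain ⟨a, ha⟩ : ∃ a : Fin (n + 1), a.val = min c.val (n - t) := ⟨⟨_, by omega⟩, rfl⟩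
  obtain ⟨b, hb⟩ : ∃ b : Fin (n + 1), b.val = a.val + t := ⟨⟨_, by omega⟩, rfl⟩
  have : Icc a b ⊆ Iv c t := by
    intro i hi
    rw [mem_Icc, Fin.le_def, Fin.le_def] at hi
    rw [mem_Iv]; omega
  have := card_le_card this
  rw [Fin.card_Icc] at this
  omega

lemma pigeon (F : Fin (n + 1) → ℕ) (c : Fin (n + 1)) {t θ : ℕ} (ht : t ≤ n)
    (h : ∑ b ∈ Iv c (2 * t), F b ≤ θ * (2 * t) ^ 2) : ∃ b ∈ Iv c t, F b ≤ 4 * (θ * t) := by
  by_contra hc
  push Not at hc
  have h1 := card_nsmul_le_sum (Iv c t) F (4 * (θ * t) + 1) fun b hb => hc b hb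
  have h2 : ∑ b ∈ Iv c t, F b ≤ ∑ b ∈ Iv c (2 * t), F b :=
    sum_le_sum_of_subset fun b hb => by rw [mem_Iv] at *; omega
  have h3 := Nat.mul_le_mul_right (4 * (θ * t) + 1) (le_card_Iv c ht)
  rw [smul_eq_mul] at h1
  nlinarith

section cz

variable {f : Vx n → ℤ} {w : Vx n → ℕ} {θ : ℕ}

lemma cz_row (h : ∀ e ∈ Ed n, |f e.1 - f e.2| ≤ w e.1) (b : Fin (n + 1)) {c a a' : Fin (n + 1)}
    {s : ℕ} (ha : a ∈ Iv c s) (ha' : a' ∈ Iv c s) :
    |f (a, b) - f (a', b)| ≤ ((∑ i ∈ Iv c s, w (i, b) : ℕ) : ℤ) :=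
  seg_sum (fun a => f (a, b)) (fun a => w (a, b))
    (fun i j e => h ((i, b), (j, b)) (mem_Ed.2 (Or.inl ⟨e, rfl⟩))) ha ha'

lemma cz_col (h : ∀ e ∈ Ed n, |f e.1 - f e.2| ≤ w e.1) (a : Fin (n + 1)) {c b b' : Fin (n + 1)}
    {s : ℕ} (hb : b ∈ Iv c s) (hb' : b' ∈ Iv c s) :
    |f (a, b) - f (a, b')| ≤ ((∑ i ∈ Iv c s, w (a, i) : ℕ) : ℤ) :=
  seg_sum (fun b => f (a, b)) (fun b => w (a, b))
    (fun i j e => h ((a, i), (a, j)) (mem_Ed.2 (Or.inr ⟨rfl, e⟩))) hb hb'

lemma good_col {y : Vx n} {t : ℕ} (ht : t ≤ n)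
    (hy : ∑ x ∈ univ.filter fun x => ds y x ≤ 2 * t, w x ≤ θ * (2 * t) ^ 2) :
    ∃ a ∈ Iv y.1 t, ∑ i ∈ Iv y.2 (2 * t), w (a, i) ≤ 4 * (θ * t) := by
  rw [ball_eq, sum_product] at hy
  exact pigeon _ _ ht hy

lemma good_row {y : Vx n} {t : ℕ} (ht : t ≤ n)
    (hy : ∑ x ∈ univ.filter fun x => ds y x ≤ 2 * t, w x ≤ θ * (2 * t) ^ 2) :
    ∃ b ∈ Iv y.2 t, ∑ i ∈ Iv y.1 (2 * t), w (i, b) ≤ 4 * (θ * t) := by
  rw [ball_eq, sum_product_right] at hy
  exact pigeon _ _ ht hy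

lemma cz_chain (h : ∀ e ∈ Ed n, |f e.1 - f e.2| ≤ w e.1) {y : Vx n} {D : ℕ} (hD : D ≤ n)
    (hy : ∀ t, 1 ≤ t → t ≤ 2 * D → ∑ x ∈ univ.filter fun x => ds y x ≤ t, w x ≤ θ * t ^ 2) :
    ∀ t, 1 ≤ t → t ≤ D → ∃ a ∈ Iv y.1 t, ∃ b ∈ Iv y.2 t, |f y - f (a, b)| ≤ 20 * (θ * t : ℕ) ∧
      ∑ i ∈ Iv y.1 (2 * t), w (i, b) ≤ 4 * (θ * t) := by
  intro t
  induction t using Nat.strong_induction_on with
  | _ t ih =>
    intro h1 h2
    obtain ⟨a, ha, ha2⟩ := good_col (by omega : t ≤ n) (hy (2 * t) (by omega) (by omega))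
    obtain ⟨b, hb, hb2⟩ := good_row (by omega : t ≤ n) (hy (2 * t) (by omega) (by omega))
    refine ⟨a, ha, b, hb, ?_, hb2⟩
    rw [mem_Iv] at ha hb
    by_cases c : t = 1
    · subst c
      have e1 := cz_row h y.2 (c := y.1) (a := y.1) (a' := a) (s := 1) (by simp [mem_Iv])
        (mem_Iv.2 ha)
      have e2 := cz_col h a (c := y.2) (b := y.2) (b' := b) (s := 2 * 1) (by simp [mem_Iv])
        (mem_Iv.2 (by omega))
      have e3 := hy 1 le_rfl (by omega)
      rw [ball_eq, sum_product_right] at e3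
      have e4 := single_le_sum (f := fun j => ∑ i ∈ Iv y.1 1, w (i, j)) (fun _ _ => Nat.zero_le _)
        (show y.2 ∈ Iv y.2 1 by simp [mem_Iv])
      have e5 := abs_sub_le (f (y.1, y.2)) (f (a, y.2)) (f (a, b))
      simp only [Prod.mk.eta] at e1 e5 e4
      omega
    · obtain ⟨a0, ha0, b0, hb0, e0, r0⟩ := ih ((t + 1) / 2) (by omega) (by omega) (by omega)
      rw [mem_Iv] at ha0 hb0
      have e1 := cz_row h b0 (c := y.1) (a := a0) (a' := a) (s := 2 * ((t + 1) / 2))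
        (mem_Iv.2 (by omega)) (mem_Iv.2 (by omega))
      have e2 := cz_col h a (c := y.2) (b := b0) (b' := b) (s := 2 * t) (mem_Iv.2 (by omega))
        (mem_Iv.2 (by omega))
      have e3 := abs_sub_le (f y) (f (a0, b0)) (f (a, b))
      have e4 := abs_sub_le (f (a0, b0)) (f (a, b0)) (f (a, b))
      have e5 : θ * (3 * ((t + 1) / 2)) ≤ θ * (2 * t) := Nat.mul_le_mul_left _ (by omega)
      have e6 : 3 * (θ * ((t + 1) / 2)) ≤ 2 * (θ * t) := by nlinarith
      omega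

/-- chaining: quadratic growth of the total variation around two points gives a Lipschitz bound -/
lemma cz (h : ∀ e ∈ Ed n, |f e.1 - f e.2| ≤ w e.1) {y y' : Vx n}
    (hy : ∀ t, 1 ≤ t → t ≤ 2 * ds y y' →
      ∑ x ∈ univ.filter fun x => ds y x ≤ t, w x ≤ θ * t ^ 2)
    (hy' : ∀ t, 1 ≤ t → t ≤ 2 * ds y y' →
      ∑ x ∈ univ.filter fun x => ds y' x ≤ t, w x ≤ θ * t ^ 2) :
    |f y - f y'| ≤ 52 * (θ * ds y y' : ℕ) := by
  by_cases e : y = y'
  · simp [e]
  have h1 := ds_pos e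
  have hD := ds_le y y'
  obtain ⟨a, ha, b, hb, e0, r0⟩ := cz_chain h hD hy _ h1 le_rfl
  obtain ⟨a', ha', b', hb', e0', r0'⟩ := cz_chain h hD hy' _ h1 le_rfl
  obtain ⟨u, hu, r⟩ := good_col hD (hy _ (by omega) le_rfl)
  have d1 : ((y.1 : ℤ) - y'.1).natAbs ≤ ds y y' := le_max_left _ _
  have d2 : ((y.2 : ℤ) - y'.2).natAbs ≤ ds y y' := le_max_right _ _
  rw [mem_Iv] at ha hb ha' hb' hu
  have e1 := cz_row h b (c := y.1) (a := a) (a' := u) (s := 2 * ds y y')
    (mem_Iv.2 (by omega)) (mem_Iv.2 (by omega))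
  have e2 := cz_col h u (c := y.2) (b := b) (b' := b') (s := 2 * ds y y')
    (mem_Iv.2 (by omega)) (mem_Iv.2 (by omega))
  have e3 := cz_row h b' (c := y'.1) (a := u) (a' := a') (s := 2 * ds y y')
    (mem_Iv.2 (by omega)) (mem_Iv.2 (by omega))
  have t1 := abs_sub_le (f y) (f (a, b)) (f y')
  have t2 := abs_sub_le (f (a, b)) (f (u, b)) (f y')
  have t3 := abs_sub_le (f (u, b)) (f (u, b')) (f y')
  have t4 := abs_sub_le (f (u, b')) (f (a', b')) (f y')
  rw [abs_sub_comm] at e0'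
  omega

end cz

end Pool.Agent.Lib.MP_9cc147_pr.Mono
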