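import Pool.Agent.Lib.MP_9cc147_pr.MO
import Pool.Agent.Lib.MP_9cc147_pr.MCZ1

/-! The boundary values of the repaired region are Lipschitz. -/

open Finset

namespace Pool.Agent.Lib.MP_9cc147_pr.Mono

variable {n : ℕ}

lemma exists_net (S : Finset (Vx n)) (r : ℕ) : ∃ T ⊆ S,
    (∀ a ∈ T, ∀ b ∈ T, a ≠ b → r < ds a b) ∧ ∀ x ∈ S, ∃ t ∈ T, ds t x ≤ r := by
  induction S using Finset.induction_on with
  | empty => exact ⟨∅, Subset.rfl, by simp, by simp⟩
  | insert x S _ ih =>
    obtain ⟨T, h1, h2, h3⟩ := ih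
    by_cases c : ∃ t ∈ T, ds t x ≤ r
    · refine ⟨T, h1.trans (subset_insert _ _), h2, fun y hy => ?_⟩
      rcases mem_insert.1 hy with rfl | hy
      · exact c
      · exact h3 y hy
    · push Not at c
      refine ⟨insert x T, insert_subset_insert _ h1, fun a ha b hb hab => ?_, fun y hy => ?_⟩
      · rcases mem_insert.1 ha with rfl | ha' <;> rcases mem_insert.1 hb with rfl | hb'
        · exact absurd rfl hab
        · rw [ds_comm]; exact c b hb'
        · exact c a ha'
        · exact h2 a ha' b hb' hab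
      · rcases mem_insert.1 hy with rfl | hy
        · exact ⟨y, mem_insert_self _ _, by simp⟩
        · obtain ⟨t, ht, hd⟩ := h3 y hy
          exact ⟨t, mem_insert_of_mem ht, hd⟩

lemma edge_le_sl (m : Vx n → ℤ) {e : Vx n × Vx n} (he : e ∈ Ed n) :
    |m e.1 - m e.2| ≤ sl m e.1 := by
  have := single_le_sum (f := fun e : Vx n × Vx n => (m e.1 - m e.2).natAbs)
    (fun _ _ => Nat.zero_le _) (mem_oe.2 ⟨he, rfl⟩ : e ∈ oe e.1)
  rw [Int.abs_eq_natAbs]
  exact_mod_cast this

lemma ball_card (y : Vx n) (t : ℕ) :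
    (univ.filter fun x => ds y x ≤ t).card ≤ (2 * t + 1) ^ 2 :=
  packing _ y t one_pos (fun _ hx => by simpa using hx) fun _ _ _ _ h => ds_pos h

/-- fill square holes that are far apart -/
lemma fill_holes {f : Vx n → ℤ} {T : Finset (Vx n)} {R L : ℕ}
    (hT : ∀ a ∈ T, ∀ b ∈ T, a ≠ b → 2 * R + 1 < ds a b) (hn : T.Nonempty → 2 * R + 1 ≤ n)
    (h : ∀ z ∈ T, ∀ e ∈ Ed n, ds z e.1 = R + 1 → |f e.1 - f e.2| ≤ L) :
    ∃ g : Vx n → ℤ, (∀ x, (∀ z ∈ T, R < ds z x) → g x = f x) ∧
      ∀ e ∈ Ed n, ∀ z ∈ T, (ds z e.1 ≤ R ∨ ds z e.2 ≤ R) → |g e.1 - g e.2| ≤ (3 * L : ℕ) := by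
  classical
  let H : Vx n → Finset (Vx n) := fun z => univ.filter fun x => ds z x ≤ R
  have mH : ∀ z x, x ∈ H z ↔ ds z x ≤ R := fun z x => by simp [H]
  let g : Vx n → ℤ := fun x =>
    if hx : ∃ z ∈ T, ds z x ≤ R then McS (3 * L) f (H hx.choose) x else f x
  have hg : ∀ z ∈ T, ∀ x, ds z x ≤ R + 1 → g x = McS (3 * L) f (H z) x := by
    intro z hz x hx
    by_cases c : ∃ z ∈ T, ds z x ≤ R
    · have e : c.choose = z := by
        by_contra hne
        have := hT _ c.choose_spec.1 z hz hne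
        have := c.choose_spec.2
        have := ds_tri c.choose x z
        rw [ds_comm x z] at this
        omega
      simp only [g, dif_pos c, e]
    · simp only [g, dif_neg c]
      exact (McS_out fun hx => c ⟨z, hz, (mH z x).1 hx⟩).symm
  refine ⟨g, fun x hx => dif_neg fun ⟨z, hz, hd⟩ => absurd (hx z hz) (by omega),
    fun e he z hz hd => ?_⟩
  have h1 := ds_edge he
  have h2 := ds_tri z e.1 e.2
  have h3 := ds_tri z e.2 e.1
  rw [ds_comm e.2 e.1] at h3
  rw [hg z hz _ (by omega), hg z hz _ (by omega)]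
  have bd : ∀ y ∈ dO (H z), ds z y = R + 1 := by
    intro y hy
    obtain ⟨a, x, hx, b⟩ := mem_dO.1 hy
    rw [mH] at a hx
    have := ds_tri z x y
    omega
  refine McS_lip (fun y hy y' hy' => ?_) he (hd.imp (mH _ _).2 (mH _ _).2)
  have := hn ⟨z, hz⟩
  exact ring_lip (by omega) (fun e he a _ => h z hz e he a) (bd y hy) (bd y' hy')

variable {N : ℕ} {ω : St n}

lemma fill (hp : Pre N ω) {k : ℕ} (hn : ∀ l < k, (Lm N ω l).Nonempty → Ir l ≤ n) :
    ∀ j ≤ k, ∃ f : Vx n → ℤ, (∀ x, (∀ l < j, ∀ z ∈ Lm N ω l, ra l < ds z x) → f x = ω.1 x) ∧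
      ∀ e ∈ Ed n, ∀ i ≤ j, e.1 ∉ Rm N ω i →
        (∀ l, i ≤ l → l < j → ∀ z ∈ Lm N ω l, ra l + 1 < ds z e.1) →
        |f e.1 - f e.2| ≤ (3 ^ i * (20000 * N) : ℕ) := by
  intro j
  induction j with
  | zero =>
    refine fun _ => ⟨ω.1, fun _ _ => rfl, fun e he i hi h _ => ?_⟩
    obtain rfl : i = 0 := by omega
    have h0 : e.1 ∉ Sd N ω := h
    rw [mem_Sd, mem_Df] at h0
    have h1 := edge_le_sl ω.1 he
    have h2 := hp.fil e.1
    have : sl ω.1 e.1 ≤ 20000 * N := by omega
    omega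
  | succ j ih =>
    intro hj
    obtain ⟨f, f1, f2⟩ := ih (by omega)
    obtain ⟨T, T1, T2, T3⟩ := exists_net (Lm N ω j) (ra j)
    have ch := chain j
    have near : ∀ z ∈ Lm N ω j, ∀ x ∈ Rm N ω j, ds z x ≤ Ir j → ds z x ≤ ra j :=
      fun z hz x hx hd => (lv_near par_Ir (lv_rem hz) hx hd hz).2
    obtain ⟨g, g1, g2⟩ := fill_holes (f := f) (T := T) (R := ra j) (L := 3 ^ j * (20000 * N))
      (fun a ha b hb hab => by
        have := T2 a ha b hb hab
        have := near a (T1 ha) b (lv_rem (T1 hb))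
        omega)
      (fun h => by have := hn j hj (h.mono T1); omega)
      (fun z hz e he hd => f2 e he j le_rfl
        (fun hx => by have := near z (T1 hz) _ hx; omega) (fun l h1 h2 => by omega))
    refine ⟨g, fun x hx => ?_, fun e he i hi h1 h2 => ?_⟩
    · rw [g1 x fun z hz => hx j (by omega) z (T1 hz)]
      exact f1 x fun l hl => hx l (by omega)
    · have d1 := ds_edge he
      by_cases c : ∃ z ∈ T, ds z e.1 ≤ ra j ∨ ds z e.2 ≤ ra j
      · obtain ⟨z, hz, hd⟩ := c
        have : i = j + 1 := by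
          by_contra hne
          have := h2 j (by omega) (by omega) z (T1 hz)
          have := ds_tri z e.2 e.1
          rw [ds_comm e.2 e.1] at this
          omega
        subst this
        refine (g2 e he z hz hd).trans (le_of_eq ?_)
        congr 1
        ring
      · push Not at c
        rw [g1 _ fun z hz => (c z hz).1, g1 _ fun z hz => (c z hz).2]
        by_cases hi' : i ≤ j
        · exact f2 e he i hi' h1 fun l a b => h2 l a (by omega)
        · obtain rfl : i = j + 1 := by omega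
          have : e.1 ∉ Rm N ω j := by
            intro hx
            obtain ⟨t, ht, hd⟩ := T3 e.1 (mem_sdiff.2 ⟨hx, h1⟩)
            have := (c t ht).1
            omega
          refine (f2 e he j le_rfl this fun l a b => by omega).trans ?_
          exact_mod_cast Nat.mul_le_mul_right _ (Nat.pow_le_pow_right (by norm_num) (by omega))

lemma geo_nat (W : ℕ → ℕ) (X : ℕ) : ∀ k, (∀ l < k, 2 ^ (l + 1) * W l ≤ X) →
    2 ^ k * ∑ l ∈ range k, W l + X ≤ 2 ^ k * X := by
  intro k
  induction k with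
  | zero => simp
  | succ k ih =>
    intro h
    have h1 := ih fun l hl => h l (by omega)
    have h2 := h k (by omega)
    rw [sum_range_succ, mul_add]
    rw [pow_succ] at h2 ⊢
    nlinarith

open Classical in
/-- few points of a square are close to a sparse set that avoids the centre -/
lemma count_level {S : Finset (Vx n)} {l t : ℕ} {y : Vx n}
    (hs : ∀ z ∈ S, ∀ z' ∈ S, ds z z' ≤ Ir l → ds z z' ≤ ra l)
    (hy : ∀ z ∈ S, Jr l ≤ 2 * ds z y + 2) :
    2 ^ (l + 1) * (3 ^ (l + 1) * 20000 *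
      ((univ.filter fun x => ds y x ≤ t).filter fun x => ∃ z ∈ S, ds z x ≤ 8 * ra l).card) ≤
      t ^ 2 := by
  obtain ⟨T, T1, T2, T3⟩ := exists_net (S.filter fun z => ds y z ≤ t + 8 * ra l) (ra l)
  have ch := chain l
  have hB : ((univ.filter fun x => ds y x ≤ t).filter fun x => ∃ z ∈ S, ds z x ≤ 8 * ra l) ⊆
      T.biUnion fun u => univ.filter fun x => ds u x ≤ 9 * ra l := by
    intro x hx
    simp only [mem_filter, mem_univ, true_and] at hx
    obtain ⟨h1, z, hz, h2⟩ := hx
    have := ds_tri y x z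
    rw [ds_comm x z] at this
    obtain ⟨u, hu, hd⟩ := T3 z (mem_filter.2 ⟨hz, by omega⟩)
    have := ds_tri u z x
    exact mem_biUnion.2 ⟨u, hu, mem_filter.2 ⟨mem_univ _, by omega⟩⟩
  have h1 := (card_le_card hB).trans
    (card_biUnion_le_card_mul _ _ _ fun u _ => ball_card u (9 * ra l))
  rcases T.eq_empty_or_nonempty with rfl | ⟨u, hu⟩
  · simp only [card_empty, zero_mul, nonpos_iff_eq_zero] at h1
    rw [h1]
    simp
  have hu' := mem_filter.1 (T1 hu)
  have h2 := hy u hu'.1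
  rw [ds_comm] at h2
  have hJ : 0 < Jr l := by omega
  have h3 := Nat.div_add_mod t (Jr l)
  have h4 := Nat.mod_lt t hJ
  have h5 := packing T y (t / Jr l + 2) hJ
    (fun x hx => by
      have := (mem_filter.1 (T1 hx)).2
      rw [add_mul, mul_comm (t / Jr l)]
      omega)
    (fun a ha b hb hab => by
      have := T2 a ha b hb hab
      have := hs a (mem_filter.1 (T1 ha)).1 b (mem_filter.1 (T1 hb)).1
      omega)
  have h6 : (2 * (t / Jr l + 2) + 1) * Jr l ≤ 22 * t := by
    have : (2 * (t / Jr l + 2) + 1) * Jr l = 2 * (Jr l * (t / Jr l)) + 5 * Jr l := by ring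
    omega
  have h7 : T.card * Jr l ^ 2 ≤ (22 * t) ^ 2 :=
    (Nat.mul_le_mul_right _ h5).trans (by rw [← mul_pow]; exact Nat.pow_le_pow_left h6 2)
  have h8 : (2 * (9 * ra l) + 1) ^ 2 ≤ (19 * ra l) ^ 2 := Nat.pow_le_pow_left (by omega) 2
  have h9 : 2 ^ (l + 1) * 3 ^ (l + 1) * 20000 * 361 * 484 ≤ (64 ^ (l + 3)) ^ 2 := by
    have a1 : 2 ^ l * 3 ^ l ≤ (64 ^ l) ^ 2 := by
      rw [← mul_pow, ← pow_mul, mul_comm l 2, pow_mul]
      exact Nat.pow_le_pow_left (by norm_num) l
    calc _ = 2 ^ l * 3 ^ l * (6 * 20000 * 361 * 484) := by ring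
      _ ≤ (64 ^ l) ^ 2 * (64 ^ 3) ^ 2 := Nat.mul_le_mul a1 (by norm_num)
      _ = _ := by ring
  have h10 := h1.trans (Nat.mul_le_mul_left _ h8)
  rw [Jr_eq] at h7
  refine Nat.le_of_mul_le_mul_left ?_ (by norm_num : 0 < 484)
  calc _ ≤ 484 * (2 ^ (l + 1) * (3 ^ (l + 1) * 20000 * (T.card * (19 * ra l) ^ 2))) := by gcongr
    _ = T.card * ((2 ^ (l + 1) * 3 ^ (l + 1) * 20000 * 361 * 484) * ra l ^ 2) := by ring
    _ ≤ T.card * ((64 ^ (l + 3)) ^ 2 * ra l ^ 2) := by gcongr
    _ = T.card * (64 ^ (l + 3) * ra l) ^ 2 := by ring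
    _ ≤ _ := h7.trans (le_of_eq (by ring))

theorem lip_of_low {N : ℕ} {ω : St n} {c : ℕ × Finset (Vx n)} (hN : 1 ≤ N) (hp : Pre N ω)
    (hc : Pu N ω c) (hl : SC N ω c) : ∀ y ∈ dO (Os N ω c), ∀ y' ∈ dO (Os N ω c),
      |ω.1 y - ω.1 y'| ≤ ((10000 * N : ℕ) : ℤ) * d1 y y' := by
  classical
  obtain ⟨k, P⟩ := c
  have hcl : Cl N ω k P := hc.1
  have sp := sp_of_cl hcl
  obtain ⟨p, hp0⟩ := IsCl.nonempty hcl
  have chk := chain k
  -- boundary points are far from lower levels
  have far : ∀ y ∈ dO (Os N ω (k, P)), ∀ l < k, ∀ z ∈ Lm N ω l, Jr l ≤ 2 * ds z y + 2 := by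
    intro y hy l hl z hz
    obtain ⟨h1, x, hx, h2⟩ := mem_dO.1 hy
    have := chain l
    rcases O_dich (N := N) (μ := sl ω.1) sp hl hz with h | h
    · by_contra hc
      exact h1 (ol_mono (Nat.sub_le k l) (h y (by omega)))
    · have := h x hx
      have := ds_tri z y x
      rw [ds_comm y x] at this
      omega
  obtain ⟨f, f1, f2⟩ := fill hp (k := k) (fun l hl ⟨z, hz⟩ => by
    have := sp.far l hl z hz p hp0
    have := ds_le z p
    omega) k le_rfl
  have fy : ∀ y ∈ dO (Os N ω (k, P)), f y = ω.1 y := fun y hy => f1 y fun l hl z hz => by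
    have := far y hy l hl z hz
    have := chain l
    omega
  -- the weight
  let w0 : Vx n → ℕ := fun x => (if x ∈ P then sl ω.1 x else 0) + 4 * N +
    ∑ l ∈ range k, if ∃ z ∈ Lm N ω l, ds z x ≤ 8 * ra l then 3 ^ (l + 1) * (20000 * N) else 0
  let w : Vx n → ℕ := fun x => if 4 * ds p x ≤ Jr k then w0 x else sl f x
  have hw : ∀ e ∈ Ed n, |f e.1 - f e.2| ≤ w e.1 := by
    intro e he
    by_cases c0 : 4 * ds p e.1 ≤ Jr k
    swap
    · simp only [w, if_neg c0]
      exact edge_le_sl f he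
    simp only [w, if_pos c0]
    have d1 := ds_edge he
    have same : (∀ l < k, ∀ z ∈ Lm N ω l, 8 * ra l < ds z e.1) →
        |f e.1 - f e.2| ≤ sl ω.1 e.1 := by
      intro h
      rw [f1 e.1 fun l hl z hz => by have := h l hl z hz; omega, f1 e.2 fun l hl z hz => by
        have := h l hl z hz
        have := ds_tri z e.2 e.1
        have := chain l
        rw [ds_comm e.2 e.1] at *
        omega]
      exact edge_le_sl _ he
    by_cases c1 : e.1 ∈ P
    · refine (same fun l hl z hz => ?_).trans ?_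
      · have := sp.far l hl z hz _ c1
        have := chain l
        omega
      · simp only [w0, if_pos c1]
        exact_mod_cast (Nat.le_add_right _ _).trans (Nat.le_add_right _ _)
    have nk : e.1 ∉ Rm N ω k := fun hx =>
      c1 (IsCl.mem_of_near par_Ir hcl hp0 le_rfl hx (by omega))
    have lev : ∀ i, e.1 ∈ Rm N ω i → ∃ j, i ≤ j ∧ j < k ∧ e.1 ∈ Lm N ω j := by
      intro i hi
      obtain ⟨j, _, hj⟩ := exists_lm (rem_sub hi)
      refine ⟨j, lv_le hi hj, ?_, hj⟩
      by_contra hc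
      exact nk (rem_anti (not_lt.1 hc) (lv_rem hj))
    by_cases c2 : ∃ l < k, ∃ z ∈ Lm N ω l, ds z e.1 ≤ 8 * ra l
    · obtain ⟨l, hl, hmax⟩ := exists_max_image
        ((range k).filter fun l => ∃ z ∈ Lm N ω l, ds z e.1 ≤ 8 * ra l) id (by
          obtain ⟨l, hl, h⟩ := c2
          exact ⟨l, mem_filter.2 ⟨mem_range.2 hl, h⟩⟩)
      rw [mem_filter, mem_range] at hl
      have top : ∀ l', l + 1 ≤ l' → l' < k → ∀ z ∈ Lm N ω l', 8 * ra l' < ds z e.1 := by
        intro l' h1 h2 z hz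
        by_contra hc
        have := hmax l' (mem_filter.2 ⟨mem_range.2 h2, z, hz, not_lt.1 hc⟩)
        simp only [id] at this
        omega
      refine (f2 e he (l + 1) hl.1 (fun hx => ?_) fun l' h1 h2 z hz => ?_).trans ?_
      · obtain ⟨j, h1, h2, h3⟩ := lev _ hx
        simpa using top j h1 h2 _ h3
      · have := top l' h1 h2 z hz
        have := chain l'
        omega
      · have := single_le_sum (f := fun l => if ∃ z ∈ Lm N ω l, ds z e.1 ≤ 8 * ra l then
          3 ^ (l + 1) * (20000 * N) else 0) (fun _ _ => Nat.zero_le _) (mem_range.2 hl.1)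
        simp only [if_pos hl.2] at this
        exact_mod_cast this.trans (Nat.le_add_left _ _)
    · have h0 : ω.2 e.1 = 0 := by
        by_contra hc
        exact c2 (hl e.1 (mem_lab.2 hc) p hp0 c0)
      have h1 : sl ω.1 e.1 ≤ 4 * N := by
        by_contra hc
        obtain ⟨j, _, h2, h3⟩ := lev 0 (Df_sub (mem_Df.2 ⟨h0, not_le.1 hc⟩))
        exact c2 ⟨j, h2, _, h3, by simp⟩
      push Not at c2
      refine (same c2).trans ?_
      exact_mod_cast h1.trans ((Nat.le_add_left _ _).trans (Nat.le_add_right _ _))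
  have tv : ∀ y ∈ dO (Os N ω (k, P)), ∀ t, 1 ≤ t → (n ≤ 8 * ra k ∨ t ≤ 16 * ra k) →
      ∑ x ∈ univ.filter fun x => ds y x ≤ t, w x ≤ 41 * N * t ^ 2 := by
    intro y hy t ht ht'
    obtain ⟨h1, x0, hx0, h2⟩ := mem_dO.1 hy
    have e : ∀ x ∈ univ.filter fun x => ds y x ≤ t, w x = w0 x := by
      intro x hx
      refine if_pos ?_
      have := (mem_filter.1 hx).2
      have := ds_le p x
      rcases hc.conf with h | h
      · simp only at h; omega
      · have := h p hp0 x0 (sub_Ob _ hx0)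
        have := ds_tri p x0 y
        have := ds_tri p y x
        simp only at *
        omega
    rw [sum_congr rfl e]
    simp only [w0]
    rw [sum_add_distrib, sum_add_distrib, sum_comm]
    have a1 : ∑ x ∈ univ.filter fun x => ds y x ≤ t, (if x ∈ P then sl ω.1 x else 0) ≤
        4 * N * t ^ 2 := by
      refine le_trans (le_of_eq ?_) (not_heavy (S := Lm N ω) (k := k) (P := P) h1 ht)
      rw [← sum_filter]
      refine sum_congr ?_ fun _ _ => rfl
      ext x
      simp [and_comm]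
    have a2 : ∑ _x ∈ univ.filter fun x => ds y x ≤ t, 4 * N ≤ 36 * N * t ^ 2 := by
      rw [sum_const, smul_eq_mul]
      have := (ball_card y t).trans (Nat.pow_le_pow_left (by omega : 2 * t + 1 ≤ 3 * t) 2)
      nlinarith
    have a3 := geo_nat (fun l => ∑ x ∈ univ.filter fun x => ds y x ≤ t,
        if ∃ z ∈ Lm N ω l, ds z x ≤ 8 * ra l then 3 ^ (l + 1) * (20000 * N) else 0) (N * t ^ 2) k
      (fun l hl => by
        have := count_level (S := Lm N ω l) (t := t)
          (fun z hz z' hz' hd => (sp.sep l l le_rfl hl z hz z' hz' hd).2) (far y hy l hl)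
        rw [← sum_filter, sum_const, smul_eq_mul]
        refine le_trans (le_of_eq ?_) (Nat.mul_le_mul_left N this)
        ring)
    have a4 := Nat.le_of_mul_le_mul_left ((Nat.le_add_right _ _).trans a3) (by positivity)
    nlinarith
  intro y hy y' hy'
  have hD : n ≤ 8 * ra k ∨ ds y y' ≤ 8 * ra k := by
    refine hc.conf.imp id fun h => ?_
    obtain ⟨_, x, hx, h1⟩ := mem_dO.1 hy
    obtain ⟨_, x', hx', h2⟩ := mem_dO.1 hy'
    have := h p hp0 x (sub_Ob _ hx)
    have := h p hp0 x' (sub_Ob _ hx')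
    have := ds_tri p x y
    have := ds_tri p x' y'
    have := ds_tri y p y'
    rw [ds_comm y p] at this
    simp only at *
    omega
  have := cz (θ := 41 * N) hw (fun t h1 h2 => tv y hy t h1 (by omega))
    (fun t h1 h2 => tv y' hy' t h1 (by omega))
  rw [fy y hy, fy y' hy'] at this
  refine this.trans ?_
  have h1 : ds y y' ≤ d1 y y' := by unfold ds d1; omega
  have h2 : 52 * (41 * N * ds y y') ≤ 10000 * N * d1 y y' := by
    have := Nat.mul_le_mul_left N h1
    nlinarith
  exact_mod_cast h2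

end Pool.Agent.Lib.MP_9cc147_pr.Mono
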