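import Pool.Agent.Lib.MP_9cc147_pr.BDef

/-! Definitions for the monotone case: multiscale clusters, repair map, regular states. -/

open Finset
open scoped ENNReal

namespace Pool.Agent.Lib.MP_9cc147_pr.Mono

variable {n : ℕ}

/-! ### generic multiscale cluster structure -/

/-- the points of `X` within `R j` of `x` form a small isolated set accepted by `ok` -/
def Iso (R I : ℕ → ℕ) (ok : ℕ → Finset (Vx n) → Prop) (j : ℕ) (X : Finset (Vx n)) (x : Vx n) :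
    Prop :=
  (∀ y ∈ X, ∀ y' ∈ X, ds x y ≤ R j → ds y y' ≤ I j → ds y y' ≤ R j ∧ ds x y' ≤ R j) ∧
    ok j (X.filter fun y => ds x y ≤ R j)

open Classical in
/-- points that survive to level `j` -/
noncomputable def Rem (R I : ℕ → ℕ) (ok : ℕ → Finset (Vx n) → Prop) (X : Finset (Vx n)) :
    ℕ → Finset (Vx n)
  | 0 => X
  | j + 1 => (Rem R I ok X j).filter fun x => ¬ Iso R I ok j (Rem R I ok X j) x

/-- points removed at level `j` -/
noncomputable def Lv (R I : ℕ → ℕ) (ok : ℕ → Finset (Vx n) → Prop) (X : Finset (Vx n)) (j : ℕ) :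
    Finset (Vx n) := Rem R I ok X j \ Rem R I ok X (j + 1)

/-- `C` is a cluster removed at level `k` -/
def IsCl (R I : ℕ → ℕ) (ok : ℕ → Finset (Vx n) → Prop) (X : Finset (Vx n)) (k : ℕ)
    (C : Finset (Vx n)) : Prop :=
  ∃ x ∈ Lv R I ok X k, C = (Rem R I ok X k).filter fun y => ds x y ≤ R k

structure Par (R I : ℕ → ℕ) : Prop where
  two : ∀ j, 2 * R j ≤ I j
  pos : ∀ j, 1 ≤ R j
  monoR : Monotone R
  monoI : Monotone I

/-- no veto -/
def okT (_ : ℕ) (_ : Finset (Vx n)) : Prop := True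

/-- connected inside `X` through steps of sup length at most one -/
def Cn (X : Finset (Vx n)) (a b : Vx n) : Prop :=
  Relation.ReflTransGen (fun x y => x ∈ X ∧ y ∈ X ∧ ds x y ≤ 1) a b

/-! ### scales -/

def aa : ℕ → ℕ
  | 0 => 1000
  | j + 1 => aa j + aa j / 2

def ra (j : ℕ) : ℕ := rr (aa j)
def Jr (j : ℕ) : ℕ := rr (aa j + j + 3)
def Ir (j : ℕ) : ℕ := rr (aa j + j + 5)
def be (j : ℕ) : ℕ := rr (aa j + j + 6)
def tb (j : ℕ) : ℕ := rr (aa j + j + 7)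
def kb (j : ℕ) : ℕ := aa j + j + 9
def Ib (j : ℕ) : ℕ := rr (kb j + kb j / 4 + 1)
def Ip (j : ℕ) : ℕ := rr (kb j + kb j / 4 + 2)

open Classical in
/-- frozen set generated by the labelled set `X` -/
noncomputable def AA (X : Finset (Vx n)) : Finset (Vx n) :=
  univ.filter fun y => ∃ k, ∃ x ∈ Rem ra Ip okT X k, ds x y ≤ be k

/-- labelled sets that are too dense near the pinned corner, or contain the far corner -/
def Bad (X : Finset (Vx n)) : Prop :=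
  vl n ∈ X ∨ ∃ k, ∃ x ∈ Rem ra Ip okT X k, ds (vz n) x ≤ Ip k

def Good (A : Finset (Vx n)) : Prop :=
  ∃ B : Bod n, ∀ e ∈ Ed n, e.1 ∈ A → B.pi e.1 = B.pi e.2

/-! ### the repaired region -/

/-- outgoing edges -/
def oe (x : Vx n) : Finset (Vx n × Vx n) := (Ed n).filter fun e => e.1 = x

/-- total outgoing slope -/
def sl (m : Vx n → ℤ) (x : Vx n) : ℕ := ∑ e ∈ oe x, (m e.1 - m e.2).natAbs

def d1 (x y : Vx n) : ℕ := ((x.1 : ℤ) - y.1).natAbs + ((x.2 : ℤ) - y.2).natAbs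

/-- heavy square -/
def Hv (N : ℕ) (μ : Vx n → ℕ) (P : Finset (Vx n)) (p : Vx n) (s : ℕ) : Prop :=
  p ∈ P ∧ 1 ≤ s ∧ N * s ^ 2 ≤ ∑ x ∈ P.filter fun x => ds p x ≤ s, μ x

open Classical in
/-- heavy squares, then balls around lower level points `S l`, from level `k - 1` down -/
noncomputable def Ol (N : ℕ) (μ : Vx n → ℕ) (S : ℕ → Finset (Vx n)) (k : ℕ) (P : Finset (Vx n)) :
    ℕ → Finset (Vx n)
  | 0 => univ.filter fun y => ∃ p s, Hv N μ P p s ∧ ds p y ≤ 5 * s ∧ ds p y ≤ s + ra k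
  | i + 1 => univ.filter fun y => y ∈ Ol N μ S k P i ∨ ∃ z ∈ S (k - 1 - i),
      ds z y ≤ Jr (k - 1 - i) ∧ ∃ y' ∈ Ol N μ S k P i, ds z y' ≤ Jr (k - 1 - i)

noncomputable def OO (N : ℕ) (μ : Vx n → ℕ) (S : ℕ → Finset (Vx n)) (k : ℕ) (P : Finset (Vx n)) :
    Finset (Vx n) := Ol N μ S k P k

open Classical in
/-- vertices with an outgoing edge that meets `O` -/
noncomputable def Ob (O : Finset (Vx n)) : Finset (Vx n) :=
  univ.filter fun x => x ∈ O ∨ ∃ e ∈ oe x, e.2 ∈ O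

open Classical in
/-- outer boundary -/
noncomputable def dO (O : Finset (Vx n)) : Finset (Vx n) :=
  univ.filter fun y => y ∉ O ∧ ∃ x ∈ O, ds x y ≤ 1

/-- Lipschitz extension into `O` -/
noncomputable def McS (L : ℕ) (m : Vx n → ℤ) (O : Finset (Vx n)) (x : Vx n) : ℤ :=
  if x ∈ O then (if h : (dO O).Nonempty then (dO O).inf' h fun y => m y + L * d1 x y else 0)
  else m x

/-- the separation properties of level sets used by the geometry of `OO` -/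
structure SP (S : ℕ → Finset (Vx n)) (k : ℕ) (P : Finset (Vx n)) : Prop where
  far : ∀ l < k, ∀ z ∈ S l, ∀ p ∈ P, Ir l < ds z p
  sep : ∀ l l', l ≤ l' → l' < k → ∀ z ∈ S l, ∀ z' ∈ S l', ds z z' ≤ Ir l → l = l' ∧ ds z z' ≤ ra l
  diam : ∀ p ∈ P, ∀ q ∈ P, ds p q ≤ ra k

/-! ### states -/

/-- heights and labels (0 none, 1 seed, 2 filler) -/
abbrev St (n : ℕ) := (Vx n → ℤ) × (Vx n → Fin 3)

def lab (ω : St n) : Finset (Vx n) := univ.filter fun x => ω.2 x ≠ 0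

def Df (N : ℕ) (ω : St n) : Finset (Vx n) := univ.filter fun x => ω.2 x = 0 ∧ 4 * N < sl ω.1 x

open Classical in
noncomputable def Sd (N : ℕ) (ω : St n) : Finset (Vx n) :=
  univ.filter fun x => ω.2 x = 1 ∨ (ω.2 x = 2 ∧ ∀ y, Cn (lab ω) x y → ω.2 y ≠ 1) ∨ x ∈ Df N ω

def okS (N : ℕ) (ω : St n) (j : ℕ) (C : Finset (Vx n)) : Prop :=
  n ≤ 8 * ra j ∨ ((∀ s ∈ C, ∀ y, Cn (lab ω) s y → ds s y ≤ 4 * ra j) ∧
    ∑ x ∈ C ∩ Df N ω, sl ω.1 x < N * ra j ^ 2)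

noncomputable def Rm (N : ℕ) (ω : St n) : ℕ → Finset (Vx n) := Rem ra Ir (okS N ω) (Sd N ω)
noncomputable def Lm (N : ℕ) (ω : St n) : ℕ → Finset (Vx n) := Lv ra Ir (okS N ω) (Sd N ω)
def Cl (N : ℕ) (ω : St n) (k : ℕ) (C : Finset (Vx n)) : Prop := IsCl ra Ir (okS N ω) (Sd N ω) k C

/-- cluster of defects -/
def Pu (N : ℕ) (ω : St n) (c : ℕ × Finset (Vx n)) : Prop := Cl N ω c.1 c.2 ∧ c.2 ⊆ Df N ω

noncomputable def Os (N : ℕ) (ω : St n) (c : ℕ × Finset (Vx n)) : Finset (Vx n) :=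
  OO N (sl ω.1) (Lm N ω) c.1 c.2

/-- repair of one cluster of defects -/
noncomputable def rep (N : ℕ) (ω : St n) (c : ℕ × Finset (Vx n)) : St n :=
  (fun x => McS (10000 * N) ω.1 (Os N ω c) x - McS (10000 * N) ω.1 (Os N ω c) (vz n),
    fun x => if x ∈ c.2 then 1 else if x ∈ Ob (Os N ω c) then 2 else ω.2 x)

/-- labels near the cluster belong to lower levels -/
def SC (N : ℕ) (ω : St n) (c : ℕ × Finset (Vx n)) : Prop :=
  ∀ y ∈ lab ω, ∀ p ∈ c.2, 4 * ds p y ≤ Jr c.1 → ∃ l < c.1, ∃ z ∈ Lm N ω l, ds z y ≤ 8 * ra l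

/-- pinned, fillers have bounded slope -/
structure Pre (N : ℕ) (ω : St n) : Prop where
  pin : ω.1 (vz n) = 0
  fil : ∀ x, ω.2 x = 2 → sl ω.1 x ≤ 20000 * N

structure Reg (N : ℕ) (ω : St n) : Prop extends Pre N ω where
  pure : ∀ k C, Cl N ω k C → (C ∩ Df N ω).Nonempty → C ⊆ Df N ω
  sc : ∀ c, Pu N ω c → SC N ω c

/-- `ω` is repaired to `ω'` at the cluster `c`, which swallows no other defect -/
structure Opt (N : ℕ) (c : ℕ × Finset (Vx n)) (ω ω' : St n) : Prop where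
  reg : Reg N ω
  pu : Pu N ω c
  leaf : Df N ω ∩ Ob (Os N ω c) ⊆ c.2
  eq : rep N ω c = ω'

open Classical in
/-- labels after the repair of all clusters of defects outside `G` -/
noncomputable def Lam (N : ℕ) (ω : St n) (G : Set (ℕ × Finset (Vx n))) : Finset (Vx n) :=
  univ.filter fun y => y ∈ lab ω ∨ ∃ c, Pu N ω c ∧ c ∉ G ∧ y ∈ Ob (Os N ω c)

def Adm (N : ℕ) (ω : St n) (G : Set (ℕ × Finset (Vx n))) : Prop :=
  ∀ c ∈ G, Pu N ω c ∧ Disjoint c.2 (AA (Lam N ω G))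

def Gs (N : ℕ) (ω : St n) : Set (ℕ × Finset (Vx n)) := {c | ∃ G, Adm N ω G ∧ c ∈ G}

noncomputable def Ast (N : ℕ) (ω : St n) : Finset (Vx n) := AA (Lam N ω (Gs N ω))

/-! ### weights -/

/-- potential with bounded curvature and a wall -/
noncomputable def u0 (u : ℤ → ℝ) (N : ℕ) (β : ℝ) (k : ℤ) : ℝ :=
  (if |k| ≤ 4 * N then u k else u (4 * N) + (|k| - 4 * N : ℤ) * (u (4 * N) - u (4 * N - 1))) +
    β / 4 * ((max (|k| - N) 0 : ℤ) : ℝ) ^ 2

noncomputable def wv (u : ℤ → ℝ) (m : Vx n → ℤ) (x : Vx n) : ℝ :=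
  Real.exp (-∑ e ∈ oe x, u (m e.1 - m e.2))

/-- vertex weight of a labelled state -/
noncomputable def wx (u : ℤ → ℝ) (N : ℕ) (β ε : ℝ) (ω : St n) (x : Vx n) : ℝ :=
  if ω.2 x = 0 then (1 - 2 * ε) * wv (u0 u N β) ω.1 x
  else if ω.2 x = 1 then wv u ω.1 x -
    (if sl ω.1 x ≤ 4 * N then (1 - 2 * ε) * wv (u0 u N β) ω.1 x else 0) -
    (if sl ω.1 x ≤ 20000 * N then ε * wv u ω.1 x else 0)
  else if sl ω.1 x ≤ 20000 * N then ε * wv u ω.1 x else 0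

noncomputable def nu (u : ℤ → ℝ) (N : ℕ) (β ε : ℝ) (ω : St n) : ℝ≥0∞ :=
  ENNReal.ofReal (∏ x, wx u N β ε ω x)

open Classical in
/-- total weight of the preimages at `c` -/
noncomputable def ac (u : ℤ → ℝ) (N : ℕ) (β ε : ℝ) (c : ℕ × Finset (Vx n)) (ω' : St n) : ℝ≥0∞ :=
  (∑' ω, if Opt N c ω ω' then nu u N β ε ω else 0) / nu u N β ε ω'

noncomputable def gg (u : ℤ → ℝ) (N : ℕ) (β ε : ℝ) (ω : St n) : ℝ≥0∞ :=
  ∏ c ∈ range (n + 1) ×ˢ (univ : Finset (Finset (Vx n))), (1 - ac u N β ε c ω)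

/-- standing assumptions on the potential -/
structure Hyp (u : ℤ → ℝ) (N : ℕ) (β ε S : ℝ) : Prop where
  even : ∀ k, u (-k) = u k
  mono : ∀ k l : ℤ, 0 ≤ k → k ≤ l → u k ≤ u l
  zero : u 0 = 0
  one : 1 ≤ N
  b0 : 0 < β
  e0 : 0 < ε
  e1 : ε ≤ 1 / 4
  sum : ∀ T : Finset ℤ, ∑ k ∈ T, (Real.exp (-u k) + Real.exp (-|(k : ℝ)|)) ≤ S
  bN : 32 ≤ β * N
  cost : 3 * S ^ 2 * Real.exp (2 * u (10000 * N)) ≤ ε * Real.exp (β * N ^ 2 / 11552)

end Pool.Agent.Lib.MP_9cc147_pr.Mono
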