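import Pool.Agent.Lib.MP_9cc147_pr.MRefl
import Pool.Agent.Lib.MP_9cc147_pr.MDef

/-! Steep edges are rare, uniformly in the box. -/

open Finset Filter
open scoped ENNReal

namespace Pool.Agent.Lib.MP_9cc147_pr.Mono

variable {n : ℕ}

lemma wt_ZZ (u : ℤ → ℝ) (m : Vx n → ℤ) : ENNReal.ofReal (wt u m) =
    if m (vz n) = 0 then PW (Ed n) (fun _ k => Real.exp (-u k)) m else 0 := by
  unfold wt PW
  split_ifs
  · rw [← sum_neg_distrib, Real.exp_sum, ENNReal.ofReal_prod_of_nonneg fun _ _ => (Real.exp_pos _).le]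
  · simp

theorem steep' {u : ℤ → ℝ} (he : ∀ k, u (-k) = u k) (hm : ∀ k l : ℤ, 0 ≤ k → k ≤ l → u k ≤ u l)
    {N b : ℕ} {η : ℝ≥0∞} (ht : ENNReal.ofReal (Real.exp (-u (N + 1))) * (2 * b + 1) +
      ∑' k : ℤ, ENNReal.ofReal (Real.exp (-u (max |k| (N + 1)))) ≤
        η * ENNReal.ofReal (Real.exp (-u b)) * (2 * b + 1))
    (E : Finset (Vx n × Vx n)) (hE : E ⊆ Ed n) :
    (∑' m : Vx n → ℤ, if ∀ e ∈ E, (N : ℤ) < |m e.1 - m e.2| then ENNReal.ofReal (wt u m) else 0) ≤
      η ^ E.card * ∑' m : Vx n → ℤ, ENNReal.ofReal (wt u m) := by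
  have ha : ∀ k, u |k| = u k := fun k => by
    rcases abs_choice k with h | h <;> rw [h]
    exact he k
  have h1 : Dn fun k => Real.exp (-u k) := fun k l h => by
    refine Real.exp_le_exp.2 (neg_le_neg ?_)
    rw [← ha k, ← ha l]
    exact hm _ _ (abs_nonneg _) h
  have h2 : Dn fun k => Real.exp (-u (max |k| (N + 1))) := fun k l h =>
    Real.exp_le_exp.2 (neg_le_neg (hm _ _ (le_max_of_le_left (abs_nonneg _)) (max_le_max_right _ h)))
  have h3 := ZZ_repl (E := Ed n) h1 h2 (b := b) (η := η)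
    (by rwa [abs_zero, max_eq_right (by positivity)]) (vz n) E hE
  simp only [wt_ZZ]
  refine le_trans (ENNReal.tsum_le_tsum fun m => ?_) h3
  by_cases hs : ∀ e ∈ E, (N : ℤ) < |m e.1 - m e.2|
  · rw [if_pos hs]
    split_ifs
    · refine le_of_eq (prod_congr rfl fun e _ => ?_)
      by_cases h : e ∈ E
      · simp only [if_pos h]
        rw [max_eq_left (hs e h), ha]
      · simp only [if_neg h]
    · exact le_rfl
  · rw [if_neg hs]; exact zero_le

lemma tail_nat {A : ℕ} (hA : 1 ≤ A) (j : ℕ) :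
    ∑ i ∈ range j, (1 : ℝ) / (max (i : ℝ) A) ^ 2 ≤ 6 / (A : ℝ) - 6 / ((j : ℝ) + A) := by
  have h1 : (1 : ℝ) ≤ A := by exact_mod_cast hA
  induction j with
  | zero => simp
  | succ j ih =>
    rw [sum_range_succ]
    have hj : (0 : ℝ) ≤ j := Nat.cast_nonneg j
    have e : (6 : ℝ) / (j + A) - 6 / (j + 1 + A) = 6 / ((j + A) * (j + 1 + A)) := by
      field_simp; ring
    have a1 := le_max_left (j : ℝ) A
    have a2 := le_max_right (j : ℝ) A
    have : 1 / (max (j : ℝ) A) ^ 2 ≤ 6 / ((j + A) * (j + 1 + A)) := by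
      rw [div_le_div_iff₀ (by positivity) (by positivity)]
      have b1 : (j : ℝ) + A ≤ 2 * max (j : ℝ) A := by linarith
      have b2 : (j : ℝ) + 1 + A ≤ 3 * max (j : ℝ) A := by linarith
      have := mul_le_mul b1 b2 (by positivity) (by positivity)
      nlinarith
    push_cast
    linarith

lemma tail_int {A : ℕ} (hA : 1 ≤ A) {c : ℝ} (hc : 0 ≤ c) {f : ℤ → ℝ}
    (hf : ∀ k, f k ≤ c / (max |(k : ℝ)| A) ^ 2) :
    ∑' k : ℤ, ENNReal.ofReal (f k) ≤ ENNReal.ofReal (12 * c / A) := by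
  have h1 : (1 : ℝ) ≤ A := by exact_mod_cast hA
  have key : ∀ g : ℕ → ℝ, (∀ i, g i ≤ c / (max (i : ℝ) A) ^ 2) →
      ∑' i, ENNReal.ofReal (g i) ≤ ENNReal.ofReal (6 * c / A) := by
    intro g hg
    refine ENNReal.tsum_le_of_sum_range_le fun j => ?_
    refine (sum_le_sum fun i _ => ENNReal.ofReal_le_ofReal (hg i)).trans ?_
    rw [← ENNReal.ofReal_sum_of_nonneg fun _ _ => by positivity]
    refine ENNReal.ofReal_le_ofReal ?_
    have := mul_le_mul_of_nonneg_left (tail_nat hA j) hc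
    rw [mul_sum] at this
    simp only [mul_one_div] at this
    have h2 : 0 ≤ c * (6 / ((j : ℝ) + A)) := by positivity
    have h3 : 6 * c / A = c * (6 / A) := by ring
    linarith
  rw [tsum_of_nat_of_neg_add_one ENNReal.summable ENNReal.summable,
    show 12 * c / A = 6 * c / A + 6 * c / A by ring,
    ENNReal.ofReal_add (by positivity) (by positivity)]
  refine add_le_add (key _ fun i => ?_) (key _ fun i => (hf _).trans ?_)
  · simpa using hf i
  · refine div_le_div_of_nonneg_left hc (by positivity) (pow_le_pow_left₀ (by positivity)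
      (max_le_max_right _ ?_) 2)
    push_cast
    rw [abs_neg, abs_of_nonneg (by positivity)]
    linarith

lemma exp_small {U : ℝ → ℝ} {α : ℝ} (hα : 0 < α) (ht : Tendsto (fun x => U x / x ^ α) atTop atTop)
    {δ : ℝ} (hδ : 0 < δ) : ∀ᶠ x in atTop, Real.exp (-U x) ≤ δ / x ^ 2 := by
  have h1 := (tendsto_rpow_mul_exp_neg_mul_atTop_nhds_zero (2 / α) 1 one_pos).comp
    (tendsto_rpow_atTop hα)
  filter_upwards [h1.eventually (gt_mem_nhds hδ), ht.eventually_ge_atTop 1, eventually_gt_atTop 0]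
    with x a b c
  have hp : 0 < x ^ α := Real.rpow_pos_of_pos c α
  rw [le_div_iff₀ hp, one_mul] at b
  simp only [Function.comp] at a
  rw [← Real.rpow_mul c.le, show α * (2 / α) = 2 by field_simp, Real.rpow_two] at a
  rw [le_div_iff₀ (by positivity), mul_comm]
  refine le_trans (mul_le_mul_of_nonneg_left (Real.exp_le_exp.2 ?_) (by positivity)) a.le
  linarith

theorem steepU {U : ℝ → ℝ} {α : ℝ} (he : ∀ x, U (-x) = U x) (hm : MonotoneOn U (Set.Ici 0))
    (hα : 0 < α) (ht : Tendsto (fun x => U x / x ^ α) atTop atTop) {η : ℝ} (hη : 0 < η) :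
    ∃ K : ℕ, 1 ≤ K ∧ ∀ M : ℝ, 1 ≤ M → ∀ N : ℕ, K * M ≤ N → ∀ n, ∀ E ⊆ Ed n,
      (∑' m : Vx n → ℤ, if ∀ e ∈ E, (N : ℤ) < |m e.1 - m e.2| then
        ENNReal.ofReal (wt (fun k => U (k / M) - U 0) m) else 0) ≤
      ENNReal.ofReal η ^ E.card *
        ∑' m : Vx n → ℤ, ENNReal.ofReal (wt (fun k => U (k / M) - U 0) m) := by
  set δ := η * Real.exp (-U 1) / 13 with hδ
  have hδ0 : 0 < δ := by positivity
  obtain ⟨x0, hx0⟩ := eventually_atTop.1 (exp_small hα ht hδ0)
  refine ⟨⌈x0⌉₊ + 1, by omega, fun M hM N hN n E hE => ?_⟩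
  have hM0 : 0 < M := by linarith
  have hx1 := Nat.le_ceil x0
  have hx2 : (0 : ℝ) ≤ ⌈x0⌉₊ := Nat.cast_nonneg _
  push_cast at hN
  have hMN : M ≤ N := by nlinarith
  have hb1 := Nat.floor_le hM0.le
  have hb2 := Nat.lt_floor_add_one M
  have hb3 : (1 : ℝ) ≤ ⌊M⌋₊ := by exact_mod_cast Nat.le_floor (by simpa using hM)
  have key : ∀ k : ℤ, (N : ℝ) + 1 ≤ k →
      Real.exp (-(U (k / M) - U 0)) ≤ Real.exp (U 0) * δ * M ^ 2 / (k : ℝ) ^ 2 := by
    intro k hk
    have h1 := hx0 (k / M) (by rw [le_div_iff₀ hM0]; nlinarith)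
    rw [neg_sub, sub_eq_add_neg, Real.exp_add, mul_assoc, mul_div_assoc]
    refine mul_le_mul_of_nonneg_left (h1.trans (le_of_eq ?_)) (Real.exp_pos _).le
    have : (0 : ℝ) < k := by linarith
    field_simp
  refine steep' (b := ⌊M⌋₊) (fun k => by rw [Int.cast_neg, neg_div, he]) (fun k l hk hl => ?_) ?_ E hE
  · have h1 : (0 : ℝ) ≤ k := by exact_mod_cast hk
    have h2 : (k : ℝ) ≤ l := by exact_mod_cast hl
    have h3 : (0 : ℝ) ≤ l := h1.trans h2
    exact sub_le_sub_right (hm (by simp only [Set.mem_Ici]; positivity)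
      (by simp only [Set.mem_Ici]; positivity) (by gcongr)) _
  have t1 := tail_int (A := N + 1) (by omega) (c := Real.exp (U 0) * δ * M ^ 2) (by positivity)
    (f := fun k => Real.exp (-(U ((max |k| (N + 1) : ℤ) / M) - U 0))) fun k => by
      have := key (max |k| (N + 1)) (by push_cast; exact le_max_right _ _)
      push_cast at this ⊢
      exact this
  have t2 := key (N + 1) (by push_cast; exact le_rfl)
  have e1 : (2 * (⌊M⌋₊ : ℕ) + 1 : ℝ≥0∞) = ENNReal.ofReal (2 * ⌊M⌋₊ + 1) := by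
    rw [ENNReal.ofReal_add (by positivity) (by positivity), ENNReal.ofReal_mul (by positivity)]
    simp
  refine (add_le_add (mul_le_mul_left (ENNReal.ofReal_le_ofReal t2) _) t1).trans ?_
  rw [e1, ← ENNReal.ofReal_mul (by positivity), ← ENNReal.ofReal_add (by positivity) (by positivity),
    ← ENNReal.ofReal_mul hη.le, ← ENNReal.ofReal_mul (by positivity)]
  refine ENNReal.ofReal_le_ofReal ?_
  push_cast
  have s1 : Real.exp (U 0) * δ * M ^ 2 / ((N : ℝ) + 1) ^ 2 ≤ Real.exp (U 0) * δ := by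
    rw [div_le_iff₀ (by positivity)]
    exact mul_le_mul_of_nonneg_left (pow_le_pow_left₀ hM0.le (by linarith) 2) (by positivity)
  have s2 : 12 * (Real.exp (U 0) * δ * M ^ 2) / ((N : ℝ) + 1) ≤
      12 * (Real.exp (U 0) * δ) * (2 * ⌊M⌋₊ + 1) := by
    rw [div_le_iff₀ (by positivity), mul_assoc 12, mul_assoc 12, mul_assoc (Real.exp (U 0) * δ)]
    refine mul_le_mul_of_nonneg_left (mul_le_mul_of_nonneg_left ?_ (by positivity)) (by norm_num)
    rw [sq]
    exact mul_le_mul (by linarith) (by linarith) hM0.le (by positivity)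
  have s3 : Real.exp (U 0) * (13 * δ) ≤ η * Real.exp (-(U (⌊M⌋₊ / M) - U 0)) := by
    rw [hδ, mul_div_cancel₀ _ (by norm_num), mul_left_comm, ← Real.exp_add]
    refine mul_le_mul_of_nonneg_left (Real.exp_le_exp.2 ?_) hη.le
    have := hm (a := ⌊M⌋₊ / M) (b := 1) (by simp only [Set.mem_Ici]; positivity) (by simp)
      ((div_le_one hM0).2 hb1)
    linarith
  have s4 : (0 : ℝ) ≤ 2 * ⌊M⌋₊ + 1 := by positivity
  nlinarith [mul_le_mul_of_nonneg_right s1 s4, mul_le_mul_of_nonneg_right s3 s4]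

end Pool.Agent.Lib.MP_9cc147_pr.Mono
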