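import Pool.Agent.Lib.MP_9cc147_pr.MSum
import Pool.Agent.Lib.MP_9cc147_pr.MSteep
import Pool.Agent.Lib.MP_9cc147_pr.BExp

/-! Delocalisation for monotone potentials. -/

open Finset Filter
open scoped ENNReal Topology

namespace Pool.Agent.Lib.MP_9cc147_pr.Mono

variable {n : ℕ}

lemma wt_bound {u : ℤ → ℝ} (hg : Grow u) {p : ℝ} (hp : 0 ≤ p) :
    ∃ C, 0 ≤ C ∧ ∀ m : Vx n → ℤ, wt u m ≤ C * (1 + ‖rl m‖) ^ (-p) := by
  obtain ⟨C, hC⟩ := hg p hp
  refine ⟨Real.exp ((Ed n).card * C) * (1 + 2 * n) ^ p, by positivity, fun m => ?_⟩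
  unfold wt
  split_ifs with hm
  swap
  · positivity
  set S := ∑ e ∈ Ed n, Real.log (1 + |((m e.1 - m e.2 : ℤ) : ℝ)|) with hS
  have l0 : ∀ e ∈ Ed n, 0 ≤ Real.log (1 + |((m e.1 - m e.2 : ℤ) : ℝ)|) := fun e _ =>
    Real.log_nonneg (by linarith [abs_nonneg ((m e.1 - m e.2 : ℤ) : ℝ)])
  have hS0 : 1 ≤ Real.exp S := Real.one_le_exp (sum_nonneg l0)
  have a1 : ∀ e ∈ Ed n, ‖rl m e.1 - rl m e.2‖ ≤ Real.exp S := by
    intro e he
    have b1 := Real.exp_le_exp.2 (single_le_sum l0 he)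
    rw [Real.exp_log (by positivity), ← hS] at b1
    push_cast at b1
    rw [Real.norm_eq_abs]
    unfold rl
    linarith
  have a2 : 1 + ‖rl m‖ ≤ (1 + 2 * n) * Real.exp S := by
    have : ‖rl m‖ ≤ 2 * n * Real.exp S := by
      refine (pi_norm_le_iff_of_nonneg (by positivity)).2 fun x => ?_
      have b1 := path (rl m) (vz n) n (by positivity) (fun e he _ _ => a1 e he) x (ds_le _ _)
      have b2 : (ds (vz n) x : ℝ) ≤ n := by exact_mod_cast ds_le _ _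
      have b3 : 2 * (ds (vz n) x : ℝ) * Real.exp S ≤ 2 * n * Real.exp S := by gcongr
      have b4 : rl m (vz n) = 0 := by simp [rl, hm]
      rw [b4, sub_zero] at b1
      linarith
    nlinarith
  have a3 : p * S - (Ed n).card * C ≤ ∑ e ∈ Ed n, u (m e.1 - m e.2) := by
    rw [hS, mul_sum, ← nsmul_eq_mul, ← sum_const, ← sum_sub_distrib]
    exact sum_le_sum fun e _ => hC _
  have a4 : (1 + ‖rl m‖) ^ p ≤ (1 + 2 * n) ^ p * Real.exp (p * S) := by
    rw [mul_comm p, Real.exp_mul, ← Real.mul_rpow (by positivity) (by positivity)]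
    exact Real.rpow_le_rpow (by positivity) a2 hp
  rw [Real.rpow_neg (by positivity), ← div_eq_mul_inv, le_div_iff₀ (by positivity)]
  refine (mul_le_mul (Real.exp_le_exp.2 (neg_le_neg a3)) a4 (by positivity) (by positivity)).trans
    (le_of_eq ?_)
  rw [mul_comm _ (Real.exp (p * S)), ← mul_assoc, ← Real.exp_add]
  congr 2; ring

lemma wt_sum {u : ℤ → ℝ} (hg : Grow u) : Summable (wt (n := n) u) ∧
    Summable fun m : Vx n → ℤ => (m (vl n) : ℝ) ^ 2 * wt u m := by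
  have hp : 0 ≤ pp n := by unfold pp; positivity
  obtain ⟨C, hC0, hC⟩ := wt_bound (n := n) hg (p := pp n + 2) (by positivity)
  have w0 := wt_nonneg (n := n) u
  have s : Summable fun m : Vx n → ℤ => (1 + (m (vl n) : ℝ) ^ 2) * wt u m := by
    refine Summable.of_nonneg_of_le (fun m => mul_nonneg (by positivity) (w0 m))
      (fun m => ?_) (summable_maj.mul_left C)
    have h3 : |(m (vl n) : ℝ)| ≤ ‖rl m‖ := norm_le_pi_norm (rl m) (vl n)
    have h4 : 1 + (m (vl n) : ℝ) ^ 2 ≤ (1 + ‖rl m‖) ^ (2 : ℝ) := by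
      rw [Real.rpow_two, ← sq_abs]
      nlinarith [abs_nonneg (m (vl n) : ℝ)]
    refine (mul_le_mul h4 (hC m) (w0 m) (by positivity)).trans (le_of_eq ?_)
    rw [mul_left_comm, ← Real.rpow_add (by positivity)]
    congr 2; ring
  exact ⟨Summable.of_nonneg_of_le w0
    (fun m => le_mul_of_one_le_left (w0 m) (by nlinarith [sq_nonneg (m (vl n) : ℝ)])) s,
    Summable.of_nonneg_of_le (fun m => mul_nonneg (sq_nonneg _) (w0 m))
      (fun m => by nlinarith [w0 m]) s⟩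

lemma grow_real {U : ℝ → ℝ} (hU : Continuous U) {α : ℝ} (hα : 0 < α)
    (ht : Tendsto (fun x => U x / x ^ α) atTop atTop) :
    ∃ C, 0 < C ∧ ∀ x, 0 ≤ x → Real.exp (-U x) ≤ C / (1 + x) ^ 2 := by
  have h1 : ∀ᶠ x : ℝ in atTop, 2 * Real.log (1 + x) ≤ U x := by
    have a2 := (isLittleO_log_rpow_atTop hα).bound (c := 1 / 4) (by positivity)
    filter_upwards [ht.eventually_ge_atTop 1, a2, eventually_ge_atTop 2] with x b1 b2 b3
    rw [one_le_div (by positivity)] at b1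
    have b4 : 0 ≤ Real.log x := Real.log_nonneg (by linarith)
    rw [Real.norm_of_nonneg b4, Real.norm_of_nonneg (by positivity)] at b2
    have b5 : Real.log (1 + x) ≤ 2 * Real.log x := by
      rw [← Real.log_rpow (by linarith), Real.rpow_two]
      exact Real.log_le_log (by linarith) (by nlinarith)
    linarith
  obtain ⟨X, hX⟩ := eventually_atTop.1 h1
  obtain ⟨C, hC⟩ := isCompact_Icc.exists_bound_of_continuousOn (s := Set.Icc 0 X)
    (f := fun x => 2 * Real.log (1 + x) - U x) (ContinuousOn.sub (ContinuousOn.mul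
      continuousOn_const (ContinuousOn.log (by fun_prop) fun x hx => by linarith [hx.1]))
      (by fun_prop))
  refine ⟨Real.exp |C|, Real.exp_pos _, fun x hx => ?_⟩
  have e : (1 + x) ^ 2 = Real.exp (2 * Real.log (1 + x)) := by
    rw [mul_comm, Real.exp_mul, Real.exp_log (by linarith), Real.rpow_two]
  rw [e, ← Real.exp_sub, Real.exp_le_exp]
  rcases le_total X x with h | h
  · linarith [hX _ h, abs_nonneg C]
  · linarith [le_abs_self C, (abs_le.1 (hC _ ⟨hx, h⟩)).2]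

lemma sum_nat : Summable fun j : ℕ => 1 / (1 + (j : ℝ)) ^ 2 := by
  have := (summable_nat_add_iff 1).2 (Real.summable_one_div_nat_pow.2 (by norm_num : 1 < 2))
  simpa [add_comm] using this

lemma sum_int : Summable fun k : ℤ => 1 / (1 + |(k : ℝ)|) ^ 2 :=
  Summable.of_nat_of_neg (by simpa using sum_nat) (by simpa using sum_nat)

lemma small (k : ℕ) : ∃ δ : ℝ, 0 < δ ∧ δ ≤ 1 ∧
    ENNReal.ofReal (2 * (δ / 4)) + 2 * ENNReal.ofReal (δ / 4) ≤ (64 : ℝ≥0∞)⁻¹ ^ k := by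
  refine ⟨(64 : ℝ)⁻¹ ^ k, by positivity, pow_le_one₀ (by norm_num) (by norm_num), le_of_eq ?_⟩
  rw [← ENNReal.ofReal_ofNat 2, ← ENNReal.ofReal_mul (by norm_num),
    ← ENNReal.ofReal_add (by positivity) (by positivity),
    show 2 * ((64 : ℝ)⁻¹ ^ k / 4) + 2 * ((64 : ℝ)⁻¹ ^ k / 4) = (64 : ℝ)⁻¹ ^ k by ring,
    ENNReal.ofReal_pow (by norm_num), ENNReal.ofReal_inv_of_pos (by norm_num), ENNReal.ofReal_ofNat]

lemma wall_d2 {N : ℕ} (hN : 1 ≤ N) (k : ℤ) :
    0 ≤ max (|k + 1| - N) 0 ^ 2 - 2 * max (|k| - N) 0 ^ 2 + max (|k - 1| - N) 0 ^ 2 ∧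
      max (|k + 1| - N) 0 ^ 2 - 2 * max (|k| - N) 0 ^ 2 + max (|k - 1| - N) 0 ^ 2 ≤ 2 := by
  have key : ∀ a b c : ℤ, (a = 0 ∧ b = 0 ∧ c = 0) ∨ (a = 1 ∧ b = 0 ∧ c = 0) ∨
      (a = 0 ∧ b = 0 ∧ c = 1) ∨ (a = b + 1 ∧ c = b - 1) ∨ (a = b - 1 ∧ c = b + 1) →
      0 ≤ a ^ 2 - 2 * b ^ 2 + c ^ 2 ∧ a ^ 2 - 2 * b ^ 2 + c ^ 2 ≤ 2 := by
    rintro a b c (⟨rfl, rfl, rfl⟩ | ⟨rfl, rfl, rfl⟩ | ⟨rfl, rfl, rfl⟩ | ⟨rfl, rfl⟩ | ⟨rfl, rfl⟩) <;>
      constructor <;> nlinarith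
  refine key _ _ _ ?_
  simp only [Int.abs_eq_natAbs]
  omega

lemma u0_d2 {u : ℤ → ℝ} {N : ℕ} {β : ℝ} (hN : 1 ≤ N) (hβ : 0 ≤ β) (he : ∀ k, u (-k) = u k)
    (h : ∀ k : ℤ, -(4 * N : ℤ) ≤ k → k < 4 * N → |u (k + 1) - u k| ≤ β / 4) (k : ℤ) :
    |d2 (u0 u N β) k| ≤ β := by
  have w := wall_d2 hN k
  have w1 : (0 : ℝ) ≤ ((max (|k + 1| - N) 0 : ℤ) : ℝ) ^ 2 - 2 * ((max (|k| - N) 0 : ℤ) : ℝ) ^ 2 +
      ((max (|k - 1| - N) 0 : ℤ) : ℝ) ^ 2 := by exact_mod_cast w.1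
  have w2 : ((max (|k + 1| - N) 0 : ℤ) : ℝ) ^ 2 - 2 * ((max (|k| - N) 0 : ℤ) : ℝ) ^ 2 +
      ((max (|k - 1| - N) 0 : ℤ) : ℝ) ^ 2 ≤ 2 := by exact_mod_cast w.2
  set p : ℤ → ℝ := fun k =>
    if |k| ≤ 4 * N then u k else u (4 * N) + (|k| - 4 * N : ℤ) * (u (4 * N) - u (4 * N - 1)) with hp
  have lin : ∀ k : ℤ, 4 * N - 1 ≤ |k| →
      p k = u (4 * N) + (|k| - 4 * N : ℤ) * (u (4 * N) - u (4 * N - 1)) := by
    intro k hk
    simp only [hp]
    split_ifs with a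
    · have e : u k = u |k| := by
        rcases abs_cases k with b | b <;> rw [b.1]
        rw [he]
      rw [e]
      rcases (by omega : |k| = 4 * N ∨ |k| = 4 * N - 1) with b | b <;> rw [b] <;> push_cast <;> ring
    · rfl
  have k1 : |d2 p k| ≤ β / 2 := by
    by_cases c : |k| < 4 * N
    · have c' := abs_lt.1 c
      have a1 := abs_le.1 (h k (by omega) (by omega))
      have a2 := abs_le.1 (h (k - 1) (by omega) (by omega))
      rw [sub_add_cancel] at a2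
      simp only [d2, hp]
      rw [if_pos (abs_le.2 ⟨by omega, by omega⟩), if_pos c.le,
        if_pos (abs_le.2 ⟨by omega, by omega⟩), abs_le]
      constructor <;> linarith
    · have e : |k + 1| + |k - 1| = 2 * |k| ∧ 4 * N - 1 ≤ |k + 1| ∧ 4 * N - 1 ≤ |k - 1| := by
        simp only [Int.abs_eq_natAbs] at c ⊢; omega
      have e1 : ((|k + 1| - 4 * N : ℤ) : ℝ) + ((|k - 1| - 4 * N : ℤ) : ℝ) =
          2 * ((|k| - 4 * N : ℤ) : ℝ) := by exact_mod_cast (by omega)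
      have : d2 p k = 0 := by
        rw [d2, lin _ e.2.1, lin _ e.2.2, lin k (by omega)]
        linear_combination (u (4 * N) - u (4 * N - 1)) * e1
      rw [this, abs_zero]; positivity
  have e : d2 (u0 u N β) k = d2 p k + β / 4 * (((max (|k + 1| - N) 0 : ℤ) : ℝ) ^ 2 -
      2 * ((max (|k| - N) 0 : ℤ) : ℝ) ^ 2 + ((max (|k - 1| - N) 0 : ℤ) : ℝ) ^ 2) := by
    simp only [d2, u0, hp]; ring
  rw [e, abs_le]
  have := abs_le.1 k1
  constructor <;> nlinarith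

lemma u0_grow {u : ℤ → ℝ} {N : ℕ} {β ε S : ℝ} (H : Hyp u N β ε S) : Grow (u0 u N β) := by
  intro p hp
  have hb := H.b0
  refine ⟨p * Real.log (1 + N) + p ^ 2 / β, fun k => ?_⟩
  have a1 : 0 ≤ (if |k| ≤ 4 * N then u k else
      u (4 * N) + (|k| - 4 * N : ℤ) * (u (4 * N) - u (4 * N - 1))) := by
    split_ifs with a
    · exact H.nonneg k
    · have b1 := H.mono (4 * N - 1) (4 * N) (by have := H.one; omega) (by omega)
      have b2 : (0 : ℝ) ≤ (|k| - 4 * N : ℤ) := by exact_mod_cast (by omega)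
      have := H.nonneg (4 * N)
      have := mul_nonneg b2 (sub_nonneg.2 b1)
      linarith
  unfold u0
  have t0 : (0 : ℝ) ≤ (max (|k| - N) 0 : ℤ) := by exact_mod_cast le_max_right _ _
  have t1 : |(k : ℝ)| ≤ N + (max (|k| - N) 0 : ℤ) := by
    have : |k| ≤ N + max (|k| - N) 0 := by omega
    exact_mod_cast this
  generalize ((max (|k| - N) 0 : ℤ) : ℝ) = t at *
  have a2 : Real.log (1 + |(k : ℝ)|) ≤ Real.log (1 + N) + t := by
    have := Real.log_le_sub_one_of_pos (by linarith : 0 < 1 + t)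
    have b : Real.log (1 + |(k : ℝ)|) ≤ Real.log (1 + N) + Real.log (1 + t) := by
      rw [← Real.log_mul (by positivity) (by positivity)]
      exact Real.log_le_log (by positivity) (by nlinarith [Nat.cast_nonneg (α := ℝ) N])
    linarith
  have a3 : p * t ≤ β / 4 * t ^ 2 + p ^ 2 / β := by
    have : β / 4 * t ^ 2 + p ^ 2 / β - p * t = (β * t - 2 * p) ^ 2 / (4 * β) := by
      field_simp; ring
    have b : 0 ≤ (β * t - 2 * p) ^ 2 / (4 * β) := by positivity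
    linarith
  nlinarith [mul_le_mul_of_nonneg_left a2 hp]

/-- the choice of the constants -/
lemma consts {U : ℝ → ℝ} {α β δ : ℝ} (hc : Continuous U) (he : ∀ x, U (-x) = U x)
    (hm : MonotoneOn U (Set.Ici 0)) (hα : 0 < α) (ht : Tendsto (fun x => U x / x ^ α) atTop atTop)
    (h0 : U 0 = 0) (hβ : 0 < β) (hδ : 0 < δ) (hδ1 : δ ≤ 1) {K : ℕ} (hK1 : 1 ≤ K) :
    ∃ M₀ : ℝ, 1 ≤ M₀ ∧ ∀ M : ℝ, M₀ < M → ∃ (N : ℕ) (S : ℝ), K * M ≤ N ∧
      Hyp (fun k => U (k / M)) N β (δ / 4) S ∧ ∀ k, |d2 (u0 (fun k => U (k / M)) N β) k| ≤ β := by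
  obtain ⟨C, hC, hg⟩ := grow_real hc hα ht
  obtain ⟨r, hr, hu⟩ := Metric.uniformContinuousOn_iff.1
    ((isCompact_Icc (a := -(4 * ((K : ℝ) + 1))) (b := 4 * (K + 1))).uniformContinuousOn_of_continuous
      hc.continuousOn) (β / 4) (by positivity)
  set S₀ := ∑' k : ℤ, 1 / (1 + |(k : ℝ)|) ^ 2 with hS₀
  set D := 3 * ((C + 2) * S₀) ^ 2 * Real.exp (2 * U (10000 * (K + 1))) with hD
  have D0 : 0 ≤ D := by positivity
  set c := δ / 4 * ((β / 11552) ^ 3 / 6) with hcc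
  have c0 : 0 < c := by positivity
  have p1 : 0 < 32 / β := by positivity
  have p2 : 0 < 1 / r := by positivity
  have p3 : 0 ≤ D / c := by positivity
  refine ⟨1 + 32 / β + 1 / r + D / c, by linarith, fun M hM => ?_⟩
  have M1 : 1 ≤ M := by linarith
  have M0 : 0 < M := by linarith
  have K1 : (1 : ℝ) ≤ K := by exact_mod_cast hK1
  have N1 : (K : ℝ) * M ≤ ⌈K * M⌉₊ := Nat.le_ceil _
  have N2 : (⌈(K : ℝ) * M⌉₊ : ℝ) ≤ (K + 1) * M := by
    have := Nat.ceil_lt_add_one (a := (K : ℝ) * M) (by positivity)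
    linarith
  generalize ⌈(K : ℝ) * M⌉₊ = N at N1 N2
  have N3 : M ≤ N := by nlinarith
  have N4 : 1 ≤ N := by exact_mod_cast M1.trans N3
  have ev : ∀ k : ℤ, U (((-k : ℤ) : ℝ) / M) = U (k / M) := fun k => by
    rw [Int.cast_neg, neg_div, he]
  refine ⟨N, (C + 2) * S₀ * M ^ 2, N1, ⟨ev, fun k l h1 h2 => ?_, by simp [h0], N4, hβ,
    by positivity, by linarith, fun T => ?_, ?_, ?_⟩, u0_d2 N4 hβ.le ev fun k h1 h2 => ?_⟩
  · have a1 : (0 : ℝ) ≤ k := by exact_mod_cast h1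
    have a2 : (k : ℝ) ≤ l := by exact_mod_cast h2
    exact hm (div_nonneg a1 M0.le) (div_nonneg (a1.trans a2) M0.le) (by gcongr)
  · have a1 : ∀ k ∈ T, Real.exp (-U (k / M)) + Real.exp (-|(k : ℝ)|) ≤
        (C + 2) * M ^ 2 * (1 / (1 + |(k : ℝ)|) ^ 2) := by
      intro k _
      have e : U (k / M) = U (|(k : ℝ)| / M) := by
        rcases abs_cases (k : ℝ) with h | h <;> rw [h.1]
        rw [neg_div, he]
      rw [e]
      have x0 := abs_nonneg (k : ℝ)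
      generalize |(k : ℝ)| = x at *
      have b1 : C / (1 + x / M) ^ 2 ≤ C * M ^ 2 * (1 / (1 + x) ^ 2) := by
        have : C / (1 + x / M) ^ 2 = C * M ^ 2 * (1 / (M + x) ^ 2) := by field_simp
        rw [this]; gcongr
      have b2 : Real.exp (-x) ≤ 2 * (1 / (1 + x) ^ 2) := by
        have := Real.quadratic_le_exp_of_nonneg x0
        rw [Real.exp_neg, mul_one_div, inv_eq_one_div, div_le_div_iff₀ (Real.exp_pos _)
          (by positivity)]
        nlinarith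
      have b3 := hg (x / M) (by positivity)
      have b4 : 0 ≤ 1 / (1 + x) ^ 2 := by positivity
      have b5 : 1 ≤ M ^ 2 := by nlinarith
      nlinarith [mul_le_mul_of_nonneg_right b5 b4]
    refine (sum_le_sum a1).trans ?_
    rw [← mul_sum, mul_right_comm (C + 2) S₀]
    exact mul_le_mul_of_nonneg_left (sum_int.sum_le_tsum T fun _ _ => by positivity)
      (by positivity)
  · have : 32 / β ≤ N := by linarith
    rwa [div_le_iff₀' hβ] at this
  · have a1 : U (((10000 * N : ℤ) : ℝ) / M) ≤ U (10000 * (K + 1)) := by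
      refine hm (Set.mem_Ici.2 (by positivity)) (Set.mem_Ici.2 (by positivity)) ?_
      rw [div_le_iff₀ M0]; push_cast; linarith
    have a2 := Real.pow_div_factorial_le_exp (β * M ^ 2 / 11552) (by positivity) 3
    have a3 : Real.exp (β * M ^ 2 / 11552) ≤ Real.exp (β * N ^ 2 / 11552) := by gcongr
    have a4 : D ≤ c * M ^ 2 := by
      have : D / c ≤ M ^ 2 := by nlinarith
      rwa [div_le_iff₀' c0] at this
    calc _ ≤ 3 * ((C + 2) * S₀ * M ^ 2) ^ 2 * Real.exp (2 * U (10000 * (K + 1))) := by gcongr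
      _ = D * M ^ 4 := by rw [hD]; ring
      _ ≤ c * M ^ 2 * M ^ 4 := by gcongr
      _ = δ / 4 * ((β * M ^ 2 / 11552) ^ 3 / (Nat.factorial 3 : ℕ)) := by
        rw [hcc]; norm_num [Nat.factorial]; ring
      _ ≤ _ := mul_le_mul_of_nonneg_left (a2.trans a3) (by positivity)
  · have a1 : -(4 * N : ℝ) ≤ k := by exact_mod_cast h1
    have a2 : (k : ℝ) + 1 ≤ 4 * N := by exact_mod_cast h2
    have mem : ∀ x : ℝ, -(4 * N : ℝ) ≤ x → x ≤ 4 * N →
        x / M ∈ Set.Icc (-(4 * ((K : ℝ) + 1))) (4 * (K + 1)) := fun x b1 b2 =>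
      ⟨by rw [le_div_iff₀ M0]; linarith, by rw [div_le_iff₀ M0]; linarith⟩
    have := hu _ (mem (k + 1) (by linarith) a2) _ (mem k a1 (by linarith)) (by
      rw [Real.dist_eq, ← sub_div, add_sub_cancel_left, abs_of_pos (by positivity),
        one_div_lt M0 hr]
      linarith)
    rw [Real.dist_eq] at this
    push_cast
    exact this.le

lemma mono_zero (A : ℝ) {U : ℝ → ℝ} {α : ℝ} (hc : Continuous U) (he : ∀ x, U (-x) = U x)
    (hm : MonotoneOn U (Set.Ici 0)) (hα : 0 < α) (ht : Tendsto (fun x => U x / x ^ α) atTop atTop)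
    (h0 : U 0 = 0) : ∃ M₀ : ℝ, 0 < M₀ ∧ ∀ M : ℝ, M₀ < M → ∀ n : ℕ, 1 ≤ n →
      A * Real.log (n + 1) ≤ (∑' m : Vx n → ℤ, (m (vl n) : ℝ) ^ 2 * wt (fun k => U (k / M)) m) /
        ∑' m : Vx n → ℤ, wt (fun k => U (k / M)) m := by
  obtain ⟨β, hβ, hfs⟩ := FB.fs_bodies (2 * A)
  obtain ⟨δ, d0, d1, d2⟩ := small 20000
  obtain ⟨K, hK, hst⟩ := steepU he hm hα ht (η := δ / 4) (by positivity)
  obtain ⟨M₀, hM₀, h⟩ := consts hc he hm hα ht h0 hβ d0 d1 hK
  refine ⟨M₀, by linarith, fun M hM n hn => ?_⟩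
  obtain ⟨N, S, h2, H, h1⟩ := h M hM
  obtain ⟨lam, l0, l1, l2⟩ := hfs n hn
  obtain ⟨s0, s2⟩ := wt_sum (n := n) (grow_of hc he hα ht (by linarith : 0 < M))
  have st := hst M (by linarith) N h2 n
  simp only [h0, sub_zero] at st
  generalize (fun k : ℤ => U (k / M)) = u at *
  have w0 := wt_nonneg (n := n) u
  have e0 := ENNReal.ofReal_tsum_of_nonneg w0 s0
  have k := core_sum H d2 st (l2 _ h1 (u0_grow H)) (e0 ▸ ENNReal.ofReal_ne_top)
  have w2 : ∀ m : Vx n → ℤ, 0 ≤ (m (vl n) : ℝ) ^ 2 * wt u m := fun m =>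
    mul_nonneg (sq_nonneg _) (w0 m)
  have e2 := ENNReal.ofReal_tsum_of_nonneg w2 s2
  have k2 : ∑' m : Vx n → ℤ, ENNReal.ofReal (wt u m) *
      ENNReal.ofReal (1 - Real.cos (lam * m (vl n))) ≤ ENNReal.ofReal (lam ^ 2 / 2) *
      ∑' m : Vx n → ℤ, ENNReal.ofReal ((m (vl n) : ℝ) ^ 2 * wt u m) := by
    rw [← ENNReal.tsum_mul_left]
    refine ENNReal.tsum_le_tsum fun m => ?_
    rw [← ENNReal.ofReal_mul (w0 m), ← ENNReal.ofReal_mul (by positivity)]
    refine ENNReal.ofReal_le_ofReal ?_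
    nlinarith [mul_le_mul_of_nonneg_right (Real.one_sub_sq_div_two_le_cos (x := lam * m (vl n)))
      (w0 m)]
  have k3 := k.trans (mul_le_mul_right k2 4)
  have t2 : 0 ≤ ∑' m : Vx n → ℤ, (m (vl n) : ℝ) ^ 2 * wt u m := tsum_nonneg w2
  rw [← e0, ← e2, ← ENNReal.ofReal_ofNat 4, ← ENNReal.ofReal_mul (by positivity),
    ← ENNReal.ofReal_mul (by positivity), ENNReal.ofReal_le_ofReal_iff (by positivity)] at k3
  have pos : 0 < ∑' m : Vx n → ℤ, wt u m := s0.tsum_pos w0 0 (by simp [wt, Real.exp_pos])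
  rw [le_div_iff₀ pos]
  generalize ∑' m : Vx n → ℤ, wt u m = Z at *
  generalize ∑' m : Vx n → ℤ, (m (vl n) : ℝ) ^ 2 * wt u m = X at *
  generalize Real.log (n + 1) = L at *
  rcases le_total (A * L) 0 with a | a
  · nlinarith
  · nlinarith [mul_le_mul_of_nonneg_left k3 a, mul_le_mul_of_nonneg_right l1 t2]

theorem mono_main (A : ℝ) {U : ℝ → ℝ} {α : ℝ} (hc : Continuous U) (he : ∀ x, U (-x) = U x)
    (hm : MonotoneOn U (Set.Ici 0)) (hα : 0 < α) (ht : Tendsto (fun x => U x / x ^ α) atTop atTop) :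
    ∃ M₀ : ℝ, 0 < M₀ ∧ ∀ M : ℝ, M₀ < M → ∀ n : ℕ, 1 ≤ n →
      Summable (wt (n := n) fun k => U (k / M)) ∧
      Summable (fun m : Vx n → ℤ => (m (vl n) : ℝ) ^ 2 * wt (fun k => U (k / M)) m) ∧
      A * Real.log (n + 1) ≤ (∑' m : Vx n → ℤ, (m (vl n) : ℝ) ^ 2 * wt (fun k => U (k / M)) m) /
        ∑' m : Vx n → ℤ, wt (fun k => U (k / M)) m := by
  have ht' : Tendsto (fun x => (U x - U 0) / x ^ α) atTop atTop := by
    refine (ht.atTop_add ((tendsto_rpow_atTop hα).const_div_atTop (U 0)).neg).congr fun x => ?_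
    ring
  obtain ⟨M₀, hM₀, h⟩ := mono_zero A (U := fun x => U x - U 0) (by fun_prop)
    (fun x => by simp only [he]) (fun x hx y hy hxy => sub_le_sub_right (hm hx hy hxy) _) hα ht'
    (sub_self _)
  refine ⟨M₀, hM₀, fun M hM n hn => ?_⟩
  obtain ⟨s0, s2⟩ := wt_sum (n := n) (grow_of hc he hα ht (hM₀.trans hM))
  refine ⟨s0, s2, (h M hM n hn).trans (le_of_eq ?_)⟩
  have e : ∀ m : Vx n → ℤ, wt (fun k => U (k / M) - U 0) m =
      Real.exp ((Ed n).card * U 0) * wt (fun k => U (k / M)) m := by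
    intro m
    unfold wt
    split_ifs
    · rw [← Real.exp_add, sum_sub_distrib, sum_const, nsmul_eq_mul]
      congr 1; ring
    · simp
  simp only [e, mul_left_comm _ (Real.exp _), tsum_mul_left]
  exact mul_div_mul_left _ _ (Real.exp_pos _).ne'

end Pool.Agent.Lib.MP_9cc147_pr.Mono
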