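import Pool.Agent.Lib.MP_9cc147_pr.MStr

/-! Geometry of the repaired region and of the Lipschitz extension. -/

open Finset

namespace Pool.Agent.Lib.MP_9cc147_pr.Mono

variable {n : ℕ}

section region

variable {N k : ℕ} {μ μ' : Vx n → ℕ} {S S' : ℕ → Finset (Vx n)} {P O : Finset (Vx n)}
  {x y p z : Vx n}

lemma mem_oe {e : Vx n × Vx n} : e ∈ oe x ↔ e ∈ Ed n ∧ e.1 = x := mem_filter

lemma oe_card (x : Vx n) : (oe x).card ≤ 2 := by
  have := card_le_card_of_injOn (s := oe x) (t := (univ : Finset Bool))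
    (fun e => decide (e.2.1.val = e.1.1.val)) (fun _ _ => mem_univ _) (by
      intro e he e' he' h
      obtain ⟨a, b⟩ := mem_oe.1 (mem_coe.1 he)
      obtain ⟨a', b'⟩ := mem_oe.1 (mem_coe.1 he')
      rw [mem_Ed, b] at a
      rw [mem_Ed, b'] at a'
      simp only [b, b', decide_eq_decide] at h
      refine Prod.ext (b.trans b'.symm) (Prod.ext (Fin.ext ?_) (Fin.ext ?_)) <;> omega)
  simpa using this

lemma mem_Ob : x ∈ Ob O ↔ x ∈ O ∨ ∃ e ∈ oe x, e.2 ∈ O := by
  classical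
  simp only [Ob, mem_filter, mem_univ, true_and]

lemma mem_dO : y ∈ dO O ↔ y ∉ O ∧ ∃ x ∈ O, ds x y ≤ 1 := by
  classical
  simp only [dO, mem_filter, mem_univ, true_and]

lemma sub_Ob (O : Finset (Vx n)) : O ⊆ Ob O := fun _ h => mem_Ob.2 (Or.inl h)

lemma Ob_near (h : x ∈ Ob O) : ∃ y ∈ O, ds y x ≤ 1 := by
  rcases mem_Ob.1 h with g | ⟨e, he, g⟩
  · exact ⟨x, g, by simp⟩
  · obtain ⟨a, rfl⟩ := mem_oe.1 he
    exact ⟨_, g, ds_comm e.1 e.2 ▸ ds_edge a⟩

lemma mem_ol_zero : y ∈ Ol N μ S k P 0 ↔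
    ∃ p s, Hv N μ P p s ∧ ds p y ≤ 5 * s ∧ ds p y ≤ s + ra k := by
  classical
  simp only [Ol, mem_filter, mem_univ, true_and]

lemma mem_ol_succ {i : ℕ} : y ∈ Ol N μ S k P (i + 1) ↔ y ∈ Ol N μ S k P i ∨ ∃ z ∈ S (k - 1 - i),
    ds z y ≤ Jr (k - 1 - i) ∧ ∃ y' ∈ Ol N μ S k P i, ds z y' ≤ Jr (k - 1 - i) := by
  classical
  rw [Ol]
  simp only [mem_filter, mem_univ, true_and]

lemma ol_mono {i i' : ℕ} (h : i ≤ i') : Ol N μ S k P i ⊆ Ol N μ S k P i' := by
  induction h with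
  | refl => exact Subset.rfl
  | step _ ih => exact fun y hy => mem_ol_succ.2 (Or.inl (ih hy))

lemma P_sub (hμ : ∀ p ∈ P, 4 * N ≤ μ p) : P ⊆ OO N μ S k P := fun p hp =>
  ol_mono (Nat.zero_le k) (mem_ol_zero.2 ⟨p, 2, ⟨hp, by omega, (by have := hμ p hp; omega :
    N * 2 ^ 2 ≤ μ p).trans (single_le_sum (f := μ) (fun _ _ => Nat.zero_le _)
      (mem_filter.2 ⟨hp, by simp⟩))⟩, by simp, by simp⟩)

lemma heavy_sub {j : ℕ} (h : Hv N μ P p (ra j)) (hj : j < k) (hy : ds p y ≤ 5 * ra j) :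
    y ∈ OO N μ S k P :=
  ol_mono (Nat.zero_le k) (mem_ol_zero.2 ⟨p, _, h, hy, by
    have := Ip_ra hj; have := chain j; omega⟩)

lemma not_heavy (hy : y ∉ OO N μ S k P) {t : ℕ} (ht : 1 ≤ t) :
    ∑ x ∈ P.filter fun x => ds y x ≤ t, μ x ≤ 4 * N * t ^ 2 := by
  rcases (P.filter fun x => ds y x ≤ t).eq_empty_or_nonempty with e | ⟨p, hp⟩
  · simp [e]
  rw [mem_filter, ds_comm] at hp
  by_contra hc
  refine hy (ol_mono (Nat.zero_le k) (mem_ol_zero.2 ⟨p, 2 * t, ⟨hp.1, by omega, ?_⟩, by omega,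
    by omega⟩))
  refine le_trans (by nlinarith) ((not_le.1 hc).le.trans (sum_le_sum_of_subset fun x hx => ?_))
  rw [mem_filter] at hx ⊢
  have := ds_tri p y x
  exact ⟨hx.1, by omega⟩

lemma O_conn (hy : y ∈ Ob (OO N μ S k P)) : ∃ p ∈ P, Cn (Ob (OO N μ S k P)) p y := by
  have key : ∀ i, ∀ y ∈ Ol N μ S k P i, ∃ p ∈ P, Cn (Ol N μ S k P i) p y := by
    intro i
    induction i with
    | zero =>
      intro y hy
      obtain ⟨p, s, h, h1, h2⟩ := mem_ol_zero.1 hy
      exact ⟨p, h.1, cn_ball (r := ds p y)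
        (fun z hz => mem_ol_zero.2 ⟨p, s, h, by omega, by omega⟩) le_rfl⟩
    | succ i ih =>
      intro y hy
      rcases mem_ol_succ.1 hy with h | ⟨z, hz, h1, y', h2, h3⟩
      · obtain ⟨p, hp, h⟩ := ih y h
        exact ⟨p, hp, h.mono (ol_mono (by omega))⟩
      · obtain ⟨p, hp, h⟩ := ih y' h2
        have b : ∀ w, ds z w ≤ Jr (k - 1 - i) → w ∈ Ol N μ S k P (i + 1) := fun w hw =>
          mem_ol_succ.2 (Or.inr ⟨z, hz, hw, y', h2, h3⟩)
        exact ⟨p, hp, (h.mono (ol_mono (by omega))).trans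
          ((cn_ball b h3).symm.trans (cn_ball b h1))⟩
  obtain ⟨x, hx, hd⟩ := Ob_near hy
  obtain ⟨p, hp, h⟩ := key k x hx
  exact ⟨p, hp, (h.mono (sub_Ob _)).trans (Cn.step (sub_Ob _ hx) hy hd)⟩

lemma ol_step {i : ℕ} (hy : y ∈ Ol N μ S k P (i + 1)) :
    ∃ y' ∈ Ol N μ S k P i, ds y' y ≤ 2 * Jr (k - 1 - i) := by
  rcases mem_ol_succ.1 hy with h | ⟨z, -, h1, y', h2, h3⟩
  · exact ⟨y, h, by simp⟩
  · have := ds_tri y' z y
    rw [ds_comm y' z] at this
    exact ⟨y', h2, by omega⟩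

lemma ol_drift {i i' : ℕ} (h : i ≤ i') (hk : i' ≤ k) (hy : y ∈ Ol N μ S k P i') :
    ∃ y' ∈ Ol N μ S k P i, ds y' y + ra (k - i') ≤ ra (k - i) := by
  induction h generalizing y with
  | refl => exact ⟨y, hy, by simp⟩
  | @step m _ ih =>
    obtain ⟨w, hw, h1⟩ := ol_step hy
    obtain ⟨y', h2, h3⟩ := ih (by omega) hw
    have := ds_tri y' w y
    have := Ip_ra (by omega : k - 1 - m < k - m)
    have := chain (k - 1 - m)
    refine ⟨y', h2, ?_⟩
    rw [show k - m.succ = k - 1 - m by omega]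
    omega

lemma O_conf (hd : ∀ p ∈ P, ∀ q ∈ P, ds p q ≤ ra k) (hm : ∑ p ∈ P, μ p < N * ra k ^ 2)
    (hy : y ∈ Ob (OO N μ S k P)) (hp : p ∈ P) : ds p y + 10 ≤ 4 * ra k := by
  obtain ⟨x, hx, h1⟩ := Ob_near hy
  obtain ⟨w, hw, h2⟩ := ol_drift (Nat.zero_le k) le_rfl hx
  obtain ⟨q, s, h, -, h3⟩ := mem_ol_zero.1 hw
  have h4 : s < ra k := lt_of_pow_lt_pow_left₀ 2 (Nat.zero_le _) (lt_of_mul_lt_mul_left
    ((h.2.2.trans (sum_le_sum_of_subset (filter_subset _ _))).trans_lt hm) (Nat.zero_le _))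
  have := hd p hp q h.1
  have := ds_tri p q y
  have := ds_tri q w y
  have := ds_tri w x y
  have := ra_pos (k - k)
  rw [Nat.sub_zero] at h2
  omega

lemma O_dich (hS : SP S k P) {l : ℕ} (hl : l < k) (hz : z ∈ S l) :
    (∀ y, ds z y + ra l ≤ Jr l → y ∈ Ol N μ S k P (k - l)) ∨
      ∀ y ∈ OO N μ S k P, Jr l < 2 * ds z y := by
  have e : k - l = (k - 1 - l) + 1 := by omega
  have e' : k - 1 - (k - 1 - l) = l := by omega
  have c := chain l
  by_cases h : ∃ z' ∈ S l, ds z z' ≤ ra l ∧ ∃ y' ∈ Ol N μ S k P (k - 1 - l), ds z' y' ≤ Jr l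
  · obtain ⟨z', h1, h2, h3⟩ := h
    refine Or.inl fun y hy => ?_
    have := ds_tri z' z y
    rw [ds_comm z' z] at this
    rw [e, mem_ol_succ, e']
    exact Or.inr ⟨z', h1, by omega, h3⟩
  · push Not at h
    refine Or.inr fun y hy => ?_
    obtain ⟨w, hw, h1⟩ := ol_drift (by omega : k - l ≤ k) le_rfl hy
    rw [show k - (k - l) = l by omega] at h1
    have := ds_tri z y w
    rw [ds_comm y w] at this
    rw [e, mem_ol_succ, e'] at hw
    rcases hw with hw | ⟨z', h2, h3, y', h4, h5⟩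
    · have := h z hz (by simp) w hw
      omega
    · by_contra hc
      have := ds_tri z w z'
      rw [ds_comm w z'] at this
      have := h z' h2 (hS.sep l l le_rfl hl z hz z' h2 (by omega)).2 y' h4
      omega

lemma ol_near (hS : SP S k P) {i : ℕ} (hi : i ≤ k) (hy : y ∈ Ol N μ S k P i) :
    ∃ p s, Hv N μ P p s ∧ ds p y + min s (ra (k - i)) ≤ 6 * s := by
  induction i generalizing y with
  | zero =>
    obtain ⟨p, s, h, h1, -⟩ := mem_ol_zero.1 hy
    exact ⟨p, s, h, by omega⟩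
  | succ i ih =>
    have := Ip_ra (by omega : k - 1 - i < k - i)
    have := chain (k - 1 - i)
    rw [show k - (i + 1) = k - 1 - i by omega]
    rcases mem_ol_succ.1 hy with h | ⟨z, hz, h1, y', h2, h3⟩
    · obtain ⟨p, s, h, h1⟩ := ih (by omega) h
      exact ⟨p, s, h, by omega⟩
    · obtain ⟨p, s, h, h4⟩ := ih (by omega) h2
      have := hS.far _ (by omega) z hz p h.1
      have := ds_tri z y' p
      have := ds_tri p y' y
      have := ds_tri y' z y
      have := ds_comm y' p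
      have := ds_comm y' z
      exact ⟨p, s, h, by omega⟩

lemma vitali (T : Finset (Vx n × ℕ)) : ∃ T' ⊆ T, (∀ a ∈ T', ∀ b ∈ T', a ≠ b → a.2 + b.2 < ds a.1 b.1) ∧
    ∀ a ∈ T, ∃ b ∈ T', a.2 ≤ b.2 ∧ ds b.1 a.1 ≤ 2 * b.2 := by
  induction T using Finset.induction_on_min_value (fun a : Vx n × ℕ => a.2) with
  | empty => exact ⟨∅, Subset.rfl, by simp, by simp⟩
  | insert a T _ hm ih =>
    obtain ⟨T', h1, h2, h3⟩ := ih
    by_cases h : ∃ b ∈ T', ds b.1 a.1 ≤ a.2 + b.2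
    · obtain ⟨b, hb, h⟩ := h
      have := hm b (h1 hb)
      exact ⟨T', h1.trans (subset_insert _ _), h2,
        forall_mem_insert .. |>.2 ⟨⟨b, hb, this, by omega⟩, h3⟩⟩
    · push Not at h
      refine ⟨insert a T', insert_subset_insert _ h1, fun u hu v hv huv => ?_,
        forall_mem_insert .. |>.2 ⟨⟨a, mem_insert_self _ _, le_rfl, by simp⟩, fun u hu => ?_⟩⟩
      · rcases mem_insert.1 hu with rfl | hu' <;> rcases mem_insert.1 hv with rfl | hv'
        · exact absurd rfl huv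
        · exact ds_comm _ _ ▸ h v hv'
        · exact add_comm u.2 v.2 ▸ h u hu'
        · exact h2 u hu' v hv' huv
      · obtain ⟨b, hb, h⟩ := h3 u hu
        exact ⟨b, mem_insert_of_mem hb, h⟩

lemma O_card (hS : SP S k P) (hN : 1 ≤ N) :
    N * (Ob (OO N μ S k P)).card ≤ 361 * ∑ p ∈ P, μ p := by
  classical
  obtain ⟨T, h1, h2, h3⟩ := vitali
    ((univ ×ˢ range (∑ p ∈ P, μ p + 1)).filter fun a => Hv N μ P a.1 a.2)
  have hv : ∀ a ∈ T, Hv N μ P a.1 a.2 := fun a ha => (mem_filter.1 (h1 ha)).2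
  have c : Ob (OO N μ S k P) ⊆ T.biUnion fun a => univ.filter fun y => ds a.1 y ≤ 9 * a.2 := by
    intro y hy
    obtain ⟨x, hx, d⟩ := Ob_near hy
    obtain ⟨p, s, h, d'⟩ := ol_near hS le_rfl hx
    have := h.2.2.trans (sum_le_sum_of_subset (filter_subset _ _))
    obtain ⟨b, hb, b1, b2⟩ := h3 (p, s) (mem_filter.2 ⟨mem_product.2 ⟨mem_univ _, mem_range.2
      (Nat.lt_succ_of_le (le_trans (by nlinarith [h.2.1]) this))⟩, h⟩)
    have := ds_tri b.1 p y
    have := ds_tri p x y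
    have := (hv b hb).2.1
    exact mem_biUnion.2 ⟨b, hb, mem_filter.2 ⟨mem_univ _, by simp only at b1 b2; omega⟩⟩
  calc N * (Ob (OO N μ S k P)).card ≤ N * ∑ a ∈ T, 361 * a.2 ^ 2 := by
        refine Nat.mul_le_mul_left _ ((card_le_card c).trans (card_biUnion_le.trans
          (sum_le_sum fun a ha => ?_)))
        have : (univ.filter fun y => ds a.1 y ≤ 9 * a.2).card ≤ (2 * (9 * a.2) + 1) ^ 2 :=
          packing _ a.1 _ one_pos (fun y hy => by simpa using hy) fun _ _ _ _ h => ds_pos h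
        have := (hv a ha).2.1
        nlinarith
    _ ≤ 361 * ∑ a ∈ T, ∑ x ∈ P.filter fun x => ds a.1 x ≤ a.2, μ x := by
        rw [mul_sum, mul_sum]
        exact sum_le_sum fun a ha => by have := (hv a ha).2.2; nlinarith
    _ ≤ _ := by
        rw [← sum_biUnion]
        · exact Nat.mul_le_mul_left _ (sum_le_sum_of_subset
            (biUnion_subset.2 fun _ _ => filter_subset _ _))
        · intro a ha b hb hab
          refine disjoint_left.2 fun x h h' => ?_
          have := h2 a ha b hb hab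
          have := ds_tri a.1 x b.1
          have := ds_comm x b.1
          have := (mem_filter.1 h).2
          have := (mem_filter.1 h').2
          omega

lemma O_congr (hμ : ∀ p ∈ P, μ p = μ' p) (h : ∀ l < k, ∀ z, (z ∈ S l ↔ z ∈ S' l) ∨
    (∀ y, ds z y ≤ Jr l → y ∈ Ol N μ S k P (k - 1 - l)) ∨ ∀ y ∈ OO N μ S k P, Jr l < ds z y) :
    OO N μ' S' k P = OO N μ S k P := by
  have key : ∀ i ≤ k, Ol N μ' S' k P i = Ol N μ S k P i := by
    intro i
    induction i with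
    | zero =>
      intro _
      ext y
      have : ∀ p s, Hv N μ' P p s ↔ Hv N μ P p s := fun p s => by
        unfold Hv
        rw [sum_congr rfl fun x hx => hμ x (mem_filter.1 hx).1]
      simp only [mem_ol_zero, this]
    | succ i ih =>
      intro hi
      ext y
      rw [mem_ol_succ, mem_ol_succ, ih (by omega)]
      refine or_congr_right' fun hy => exists_congr fun z => and_congr_left fun ⟨h1, y', h2, h3⟩ => ?_
      rcases h (k - 1 - i) (by omega) z with h | h | h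
      · exact h.symm
      · exact absurd (by simpa [show k - 1 - (k - 1 - i) = i by omega] using h y h1) hy
      · exact absurd (h y' (ol_mono (by omega) h2)) (not_lt.2 h3)
  exact key k le_rfl

end region

section ext

variable {L : ℕ} {m m' : Vx n → ℤ} {O : Finset (Vx n)} {x : Vx n}

lemma McS_out (h : x ∉ O) : McS L m O x = m x := if_neg h

lemma McS_in (hne : (dO O).Nonempty) (h : x ∈ O) :
    McS L m O x = (dO O).inf' hne fun y => m y + L * d1 x y := by
  rw [McS, if_pos h, dif_pos hne]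

lemma McS_lip (h : ∀ y ∈ dO O, ∀ y' ∈ dO O, |m y - m y'| ≤ (L : ℤ) * d1 y y') {e : Vx n × Vx n}
    (he : e ∈ Ed n) (hO : e.1 ∈ O ∨ e.2 ∈ O) : |McS L m O e.1 - McS L m O e.2| ≤ L := by
  have key : ∀ a b : Vx n, d1 a b ≤ 1 → a ∈ O → |McS L m O a - McS L m O b| ≤ L := by
    intro a b hab ha
    have L0 : (0 : ℤ) ≤ L := by positivity
    have t : ∀ a b : Vx n, d1 a b ≤ 1 → ∀ y, (L : ℤ) * d1 a y ≤ L * d1 b y + L := fun a b hab y => by
      have : (d1 a y : ℤ) ≤ d1 b y + 1 := by unfold d1 at hab ⊢; omega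
      nlinarith
    have hba : d1 b a ≤ 1 := by unfold d1 at hab ⊢; omega
    by_cases hb : b ∈ O
    · by_cases hne : (dO O).Nonempty
      · rw [McS_in hne ha, McS_in hne hb]
        obtain ⟨u, hu, eu⟩ := exists_mem_eq_inf' hne fun y => m y + L * d1 a y
        obtain ⟨v, hv, ev⟩ := exists_mem_eq_inf' hne fun y => m y + L * d1 b y
        have := inf'_le (fun y => m y + L * d1 a y) hv
        have := inf'_le (fun y => m y + L * d1 b y) hu
        exact abs_le.2 ⟨by linarith [t b a hba u], by linarith [t a b hab v]⟩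
      · simp [McS, ha, hb, hne]
    · have hd : b ∈ dO O := mem_dO.2 ⟨hb, a, ha, by unfold d1 at hab; unfold ds; omega⟩
      rw [McS_in ⟨b, hd⟩ ha, McS_out hb]
      obtain ⟨u, hu, eu⟩ := exists_mem_eq_inf' ⟨b, hd⟩ fun y => m y + L * d1 a y
      have := inf'_le (fun y => m y + L * d1 a y) hd
      have : (L : ℤ) * d1 a b ≤ L := mul_le_of_le_one_right L0 (by exact_mod_cast hab)
      exact abs_le.2 ⟨by linarith [t b a hba u, (abs_le.1 (h b hd u hu)).2], by linarith⟩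
  have := mem_Ed.1 he
  rcases hO with hO | hO
  · exact key _ _ (by unfold d1; omega) hO
  · exact (abs_sub_comm _ _).trans_le (key _ _ (by unfold d1; omega) hO)

lemma McS_add (hne : (dO O).Nonempty) {c : ℤ} (h : ∀ y ∈ dO O, m' y = m y + c) (hx : x ∈ O) :
    McS L m' O x = McS L m O x + c := by
  rw [McS_in hne hx, McS_in hne hx]
  obtain ⟨u, hu, eu⟩ := exists_mem_eq_inf' hne fun y => m y + L * d1 x y
  obtain ⟨v, hv, ev⟩ := exists_mem_eq_inf' hne fun y => m' y + L * d1 x y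
  have := inf'_le (fun y => m y + L * d1 x y) hv
  have := inf'_le (fun y => m' y + L * d1 x y) hu
  linarith [h u hu, h v hv]

lemma dO_nonempty (h : O.Nonempty) (hx : x ∉ O) : (dO O).Nonempty := by
  obtain ⟨a, ha⟩ := h
  by_contra hc
  refine hx ((cn_ball (X := univ) (fun _ _ => mem_univ _) (le_refl (ds a x))).ind (p := (· ∈ O)) ha
    fun u _ v _ hd hu => ?_)
  by_contra hv
  exact hc ⟨v, mem_dO.2 ⟨hv, u, hu, hd⟩⟩

/-- equal gradients on a square: the difference is constant on it -/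
lemma sub_const {c : Vx n} {r : ℕ} (h : ∀ e ∈ Ed n, ds c e.1 ≤ r → m e.1 - m e.2 = m' e.1 - m' e.2)
    (hx : ds c x ≤ r) : m' x - m x = m' c - m c := by
  have := path (fun y => m' y - m y) c r le_rfl (fun e he h1 _ => by
    rw [show m' e.1 - m e.1 - (m' e.2 - m e.2) = 0 by linarith [h e he h1], norm_zero]) x hx
  rwa [mul_zero, norm_le_zero_iff, sub_eq_zero] at this

lemma sl_congr (h : ∀ e ∈ oe x, m e.1 - m e.2 = m' e.1 - m' e.2) : sl m x = sl m' x :=
  sum_congr rfl fun e he => by rw [h e he]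

end ext

variable {N : ℕ} {ω : St n} {c : ℕ × Finset (Vx n)}

lemma Pu.sub (h : Pu N ω c) : c.2 ⊆ Os N ω c := P_sub fun _ hp => (mem_Df.1 (h.2 hp)).2.le

/-- confinement of the repaired region of a cluster of defects -/
lemma Pu.conf (h : Pu N ω c) : n ≤ 8 * ra c.1 ∨
    ∀ p ∈ c.2, ∀ y ∈ Ob (Os N ω c), ds p y + 10 ≤ 4 * ra c.1 :=
  (IsCl.isOk h.1).imp_right fun a _ hp _ hy =>
    O_conf (fun _ hp _ hq => IsCl.diam par_Ir h.1 hp hq) (inter_eq_left.2 h.2 ▸ a.2) hy hp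

end Pool.Agent.Lib.MP_9cc147_pr.Mono
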