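import Pool.Agent.Lib.MP_9cc147_pr.MReg

/-! Two repairs commute. -/

open Finset

namespace Pool.Agent.Lib.MP_9cc147_pr.Mono

variable {n N : ℕ} {ω ω' ω₁ ω₂ : St n} {c c₀ : ℕ × Finset (Vx n)}

/-- the square of two repairs -/
structure Sq (N : ℕ) (c c₀ : ℕ × Finset (Vx n)) (ω₁ ω ω₂ ω' : St n) : Prop where
  o1 : Opt N c ω₁ ω
  o2 : Opt N c₀ ω ω'
  o3 : Opt N c₀ ω₁ ω₂
  o4 : Opt N c ω₂ ω'
  e0 : Os N ω₁ c₀ = Os N ω c₀
  e1 : Os N ω₁ c = Os N ω₂ c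
  dj : Disjoint (Ob (Os N ω c₀)) (Ob (Os N ω₂ c))

/-- separation of two regions from the separation of one centre -/
lemma far_of {σ : St n} {O : Finset (Vx n)} (h : Pu N σ c₀) {p : Vx n} (hp : p ∈ c₀.2)
    (hf : ∀ o ∈ O, Jr c₀.1 < 2 * ds p o) {x y : Vx n} (hx : x ∈ Ob (Os N σ c₀)) (hy : y ∈ Ob O) :
    Jr c₀.1 < 4 * ds x y := by
  obtain ⟨o, ho, h1⟩ := Ob_near hy
  have h2 := hf o ho
  have h3 := h.close hp hx
  have h4 := ds_tri p x o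
  have h5 := ds_tri x y o
  rw [ds_comm y o] at h5
  have := chain c₀.1
  omega

lemma dO_far {O O' : Finset (Vx n)} (h : ∀ x ∈ Ob O, ∀ y ∈ Ob O', 2 ≤ ds x y) {y : Vx n}
    (hy : y ∈ dO O) : y ∉ O' := by
  obtain ⟨-, x, hx, hd⟩ := mem_dO.1 hy
  intro a
  have := h x (sub_Ob _ hx) y (sub_Ob _ a)
  omega

theorem commute (hN : 1 ≤ N) (h1 : Opt N c ω₁ ω) (h0 : Opt N c₀ ω ω') (hl : c₀.1 ≤ c.1) :
    Sq N c c₀ ω₁ ω (rep N ω₁ c₀) ω' := by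
  obtain ⟨p0, ne⟩ := (h1.pu_iff hN).1 h0.pu
  have e0 : Os N ω c₀ = Os N ω₁ c₀ := h1.os_eq hN h0.pu
  obtain ⟨q, hq⟩ := p0.ne
  obtain ⟨p, hp⟩ := h1.pu.ne
  have hc := chain c₀.1
  have far : ∀ x ∈ Ob (Os N ω₁ c₀), ∀ y ∈ Ob (Os N ω₁ c), 2 ≤ ds x y := fun x hx y hy => by
    have := far_of p0 hq (fun o ho => h1.pu.far hl (p0.lm hq) (h1.df.1 (h0.pu.2 hq)).2
      (fun t => h1.t_notDf t (p0.2 hq)) ho) hx hy
    omega
  have far' : ∀ x ∈ Ob (Os N ω₁ c), ∀ y ∈ Ob (Os N ω₁ c₀), 2 ≤ ds x y := fun x hx y hy =>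
    ds_comm y x ▸ far y hy x hx
  have dj : ∀ x ∈ Ob (Os N ω₁ c₀), x ∉ Ob (Os N ω₁ c) := fun x hx hx' => by
    simpa using far x hx x hx'
  have o3 : Opt N c₀ ω₁ (rep N ω₁ c₀) := ⟨h1.reg, p0, fun d hd => by
    rw [mem_inter] at hd
    exact h0.leaf (mem_inter.2 ⟨(h1.df_out (dj d hd.2)).2 hd.1, e0 ▸ hd.2⟩), rfl⟩
  have p1 : Pu N (rep N ω₁ c₀) c := (o3.pu_iff hN).2 ⟨h1.pu, ne.symm⟩
  have e1 : Os N (rep N ω₁ c₀) c = Os N ω₁ c := o3.os_eq hN p1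
  refine ⟨h1, h0, o3, ⟨o3.reg' hN, p1, fun d hd => ?_, ?_⟩, e0.symm, e1.symm, ?_⟩
  · rw [mem_inter, e1] at hd
    exact h1.leaf (mem_inter.2 ⟨(o3.df.1 hd.1).1, hd.2⟩)
  · have n0 : (dO (Os N ω₁ c₀)).Nonempty :=
      dO_nonempty ⟨q, p0.sub hq⟩ (x := p) fun a => dj p (sub_Ob _ a) (h1.pu.subX hp)
    have n1 : (dO (Os N ω₁ c)).Nonempty :=
      dO_nonempty ⟨p, h1.pu.sub hp⟩ (x := q) fun a => dj q (p0.subX hq) (sub_Ob _ a)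
    have key : ∀ x, McS (10000 * N) (rep N ω₁ c₀).1 (Os N ω₁ c) x +
        McS (10000 * N) ω₁.1 (Os N ω₁ c₀) (vz n) =
        McS (10000 * N) ω.1 (Os N ω₁ c₀) x + McS (10000 * N) ω₁.1 (Os N ω₁ c) (vz n) := by
      intro x
      by_cases a : x ∈ Os N ω₁ c
      · have b : x ∉ Os N ω₁ c₀ := fun b => dj x (sub_Ob _ b) (sub_Ob _ a)
        rw [McS_add (m := ω₁.1) (c := -McS (10000 * N) ω₁.1 (Os N ω₁ c₀) (vz n)) n1
          (fun y hy => by rw [o3.hgt, McS_out (dO_far far' hy)]; ring) a, McS_out b, h1.hgt]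
        ring
      by_cases b : x ∈ Os N ω₁ c₀
      · rw [McS_add (m := ω₁.1) (m' := ω.1) (c := -McS (10000 * N) ω₁.1 (Os N ω₁ c) (vz n)) n0
          (fun y hy => by rw [h1.hgt, McS_out (dO_far far hy)]; ring) b, McS_out a, o3.hgt]
        ring
      · rw [McS_out a, McS_out b, o3.hgt, h1.hgt, McS_out a, McS_out b]
        ring
    refine Prod.ext (funext fun x => ?_) (funext fun x => ?_)
    · rw [h0.hgt, e0]
      change McS _ _ (Os N (rep N ω₁ c₀) c) x - McS _ _ (Os N (rep N ω₁ c₀) c) (vz n) = _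
      rw [e1]
      have := key x
      have := key (vz n)
      omega
    · rw [h0.lab2, e0, h1.lab2]
      change (if x ∈ c.2 then 1 else if x ∈ Ob (Os N (rep N ω₁ c₀) c) then 2 else
        (rep N ω₁ c₀).2 x) = _
      rw [e1, o3.lab2]
      by_cases a : x ∈ Ob (Os N ω₁ c₀)
      · simp only [if_neg (dj x a), if_neg fun b => dj x a (h1.pu.subX b), if_pos a]
      · simp only [if_neg a, if_neg fun b => a (p0.subX b)]
  · rw [e0, e1]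
    exact disjoint_left.2 dj

/-- two repairs with the same result and the patched state -/
structure Two (N : ℕ) (c₀ c : ℕ × Finset (Vx n)) (ω ω₂ ω' ω₁ : St n) : Prop where
  one : 1 ≤ N
  h0 : Opt N c₀ ω ω'
  h2 : Opt N c ω₂ ω'
  far : ∀ x ∈ Ob (Os N ω c₀), ∀ y ∈ Ob (Os N ω₂ c), Jr (min c₀.1 c.1) < 4 * ds x y
  hg : ∀ x, ω₁.1 x = ω.1 x + ω₂.1 x - ω'.1 x
  l0 : ∀ x, x ∉ Ob (Os N ω₂ c) → ω₁.2 x = ω.2 x
  l2 : ∀ x, x ∉ Ob (Os N ω c₀) → ω₁.2 x = ω₂.2 x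

namespace Two

variable {x y : Vx n}

lemma symm (h : Two N c₀ c ω ω₂ ω' ω₁) : Two N c c₀ ω₂ ω ω' ω₁ :=
  ⟨h.one, h.h2, h.h0, fun x hx y hy => by rw [min_comm, ds_comm]; exact h.far y hy x hx,
    fun x => by rw [h.hg]; ring, h.l2, h.l0⟩

lemma far2 (h : Two N c₀ c ω ω₂ ω' ω₁) :
    ∀ x ∈ Ob (Os N ω c₀), ∀ y ∈ Ob (Os N ω₂ c), 2 ≤ ds x y := fun x hx y hy => by
  have := h.far x hx y hy
  have := chain (min c₀.1 c.1)
  omega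

lemma dj (h : Two N c₀ c ω ω₂ ω' ω₁) (hx : x ∈ Ob (Os N ω c₀)) : x ∉ Ob (Os N ω₂ c) :=
  fun a => by simpa using h.far2 x hx x a

lemma lab_sub (h : Two N c₀ c ω ω₂ ω' ω₁) : lab ω₁ ⊆ lab ω := by
  intro x hx
  by_cases a : x ∈ Ob (Os N ω₂ c)
  · rw [mem_lab, ← (h.h0.out (h.symm.dj a)).1]
    exact mem_lab.1 (h.h2.lab_in a)
  · rw [mem_lab, ← h.l0 x a]
    exact mem_lab.1 hx

lemma agr (h : Two N c₀ c ω ω₂ ω' ω₁) (hx : x ∉ Ob (Os N ω₂ c)) : Agr ω ω₁ x := by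
  have k : ∀ y, Cn (lab ω) x y → y ∉ Ob (Os N ω₂ c) := fun y a =>
    h.h2.cn_far hx ((h.h2.cn_out hx).1 (a.mono h.h0.lab_sub))
  refine ⟨h.l0 x hx, sl_congr fun e he => ?_, fun y => ⟨fun a => a.mono h.lab_sub, fun a => ?_⟩,
    fun y a => h.l0 y (k y a)⟩
  · have := (h.h2.out hx).2 e he
    rw [h.hg, h.hg]
    omega
  · refine a.restrict (p := fun z => Cn (lab ω) x z) (Cn.refl _ _)
      (fun u hu v hv huv e => e.trans (Cn.step hu hv huv)) fun u hu e => ?_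
    rw [mem_lab, h.l0 u (k u e)]
    exact mem_lab.1 hu

lemma notT (h : Two N c₀ c ω ω₂ ω' ω₁) (hx : x ∈ Sd N ω) : ¬ Tt N ω₂ c x := fun t =>
  ((h.h2.sd h.one).1 ((h.h0.agr (h.symm.dj t.2.1)).sd.2 hx)).2 t

lemma rm_or (h : Two N c₀ c ω ω₂ ω' ω₁) {j : ℕ} (hx : x ∈ Rm N ω₂ j) :
    x ∈ Rm N ω j ∨ Tt N ω₂ c x := by
  by_cases t : Tt N ω₂ c x
  · exact Or.inr t
  · exact Or.inl ((h.h0.rm h.one j x).1 ((h.h2.rm h.one j x).2 ⟨hx, t⟩)).1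

lemma t_far (h : Two N c₀ c ω ω₂ ω' ω₁) {j : ℕ} (hj : j < c₀.1) (hx : x ∈ Ob (Os N ω c₀))
    (hy : y ∈ Rm N ω₂ j) (t : Tt N ω₂ c y) : Ir j < ds x y := by
  have h1 := h.far x hx y t.2.1
  have h2 := Jr_ra (lt_min hj (h.h2.pu.t_lt t hy))
  have := chain (min c₀.1 c.1)
  omega

/-- swallowed seeds are closed in the union -/
lemma t_closed (h : Two N c₀ c ω ω₂ ω' ω₁) {j : ℕ} (t : Tt N ω c₀ x) (hx : x ∈ Rm N ω j)
    (hy : y ∈ Rm N ω j ∪ Rm N ω₂ j) (hd : ds x y ≤ Ir j) : y ∈ Rm N ω j ∧ Tt N ω c₀ y := by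
  have : y ∈ Rm N ω j := by
    rcases mem_union.1 hy with a | a
    · exact a
    · exact (h.rm_or a).resolve_right fun t' =>
        absurd hd (not_le.2 (h.t_far (h.h0.pu.t_lt t hx) t.2.1 a t'))
  exact ⟨this, h.h0.pu.t_closed t hx this hd⟩

/-- near a point of the first state the union looks like the first state -/
lemma near (h : Two N c₀ c ω ω₂ ω' ω₁) {j : ℕ} (hx : x ∈ Rm N ω j)
    (hy : y ∈ Rm N ω j ∪ Rm N ω₂ j) (hd : ds x y ≤ Ir j) : y ∈ Rm N ω j := by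
  rcases mem_union.1 hy with a | a
  · exact a
  · exact (h.rm_or a).resolve_right fun t => h.notT (rm_sd hx)
      (h.symm.t_closed t a (mem_union_right _ hx) (ds_comm x y ▸ hd)).2

lemma iso (h : Two N c₀ c ω ω₂ ω' ω₁) {j : ℕ} (hx : x ∈ Rm N ω j)
    (hC : ∀ y ∈ Rm N ω j, ds x y ≤ ra j → y ∉ Ob (Os N ω₂ c)) :
    Iso ra Ir (okS N ω) j (Rm N ω j) x ↔ Iso ra Ir (okS N ω₁) j (Rm N ω j ∪ Rm N ω₂ j) x := by
  have hc := chain j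
  exact iso_congr (fun y hd => ⟨mem_union_left _, fun a => h.near hx a (by omega)⟩)
    (fun y hy _ y' hd => ⟨mem_union_left _, fun a => h.near hy a hd⟩)
    fun _ => ok_congr fun y hy => h.agr (hC y (mem_filter.1 hy).1 (mem_filter.1 hy).2)

lemma rm_up (h : Two N c₀ c ω ω₂ ω' ω₁) {j : ℕ} (hx : x ∈ Sd N ω) (a : x ∈ Rm N ω₂ j) :
    x ∈ Rm N ω j := (h.rm_or a).resolve_right (h.notT hx)

lemma step (h : Two N c₀ c ω ω₂ ω' ω₁) {j : ℕ} (hx : x ∈ Rm N ω j)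
    (hC : ∀ y ∈ Rm N ω j, ds x y ≤ ra j → y ∉ Ob (Os N ω₂ c)) :
    ¬ Iso ra Ir (okS N ω₁) j (Rm N ω j ∪ Rm N ω₂ j) x ↔
      x ∈ Rm N ω (j + 1) ∪ Rm N ω₂ (j + 1) := by
  have e : x ∈ Rm N ω (j + 1) ↔ x ∈ Rm N ω j ∧ ¬ Iso ra Ir (okS N ω) j (Rm N ω j) x :=
    mem_rem_succ
  rw [← h.iso hx hC, mem_union]
  exact ⟨fun a => Or.inl (e.2 ⟨hx, a⟩), fun a => (e.1 (a.elim id (h.rm_up (rm_sd hx)))).2⟩

lemma ne (h : Two N c₀ c ω ω₂ ω' ω₁) (hx : x ∈ c₀.2) : x ∉ c.2 :=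
  fun a => h.dj (h.h0.pu.subX hx) (h.h2.pu.subX a)

lemma cl0 (h : Two N c₀ c ω ω₂ ω' ω₁) : Cl N ω' c₀.1 c₀.2 :=
  (h.h0.cl h.one).2 ⟨h.h0.pu.1, fun _ hx t => t.2.2 hx⟩

/-- a seed of the first state inside the second region near `x` forces `x` into the cluster -/
lemma force (h : Two N c₀ c ω ω₂ ω' ω₁) {j : ℕ} (hx : x ∈ Rm N ω₂ j) (hy : y ∈ Rm N ω j)
    (hd : ds x y ≤ ra j) (hX : y ∈ Ob (Os N ω₂ c)) : x ∈ c.2 := by
  have hc := chain j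
  have h1 : y ∈ Rm N ω₂ j := (h.symm.rm_or hy).resolve_right fun t => h.dj t.2.1 hX
  have h2 : y ∈ c.2 := by
    by_contra a
    exact h.notT (rm_sd hy) ⟨rm_sd h1, hX, a⟩
  exact Cl.mem_near h.h2.pu.1 h2 (lv_le h1 (h.h2.pu.lm h2)) hx (by rw [ds_comm]; omega)

theorem rm (h : Two N c₀ c ω ω₂ ω' ω₁) (j : ℕ) : Rm N ω₁ j = Rm N ω j ∪ Rm N ω₂ j := by
  induction j with
  | zero =>
    ext x
    rw [mem_union]
    change x ∈ Sd N ω₁ ↔ x ∈ Sd N ω ∨ x ∈ Sd N ω₂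
    by_cases a : x ∈ Ob (Os N ω₂ c)
    · have b := h.symm.dj a
      rw [(h.symm.agr b).sd]
      exact ⟨Or.inr, fun e => e.elim (fun e => ((h.h2.sd h.one).1 ((h.h0.agr b).sd.2 e)).1) id⟩
    · rw [(h.agr a).sd]
      exact ⟨Or.inl, fun e => e.elim id fun e => ((h.h0.sd h.one).1 ((h.h2.agr a).sd.2 e)).1⟩
  | succ j ih =>
    ext x
    have e : x ∈ Rm N ω₁ (j + 1) ↔ x ∈ Rm N ω₁ j ∧ ¬ Iso ra Ir (okS N ω₁) j (Rm N ω₁ j) x :=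
      mem_rem_succ
    rw [e, ih]
    have hc := chain j
    have key : x ∈ Rm N ω j ∪ Rm N ω₂ j →
        (¬ Iso ra Ir (okS N ω₁) j (Rm N ω j ∪ Rm N ω₂ j) x ↔
          x ∈ Rm N ω (j + 1) ∪ Rm N ω₂ (j + 1)) := by
      intro hx
      by_cases A : x ∈ Rm N ω j ∧ ∀ y ∈ Rm N ω j, ds x y ≤ ra j → y ∉ Ob (Os N ω₂ c)
      · exact h.step A.1 A.2
      have B : x ∈ Rm N ω₂ j ∧ ∀ y ∈ Rm N ω₂ j, ds x y ≤ ra j → y ∉ Ob (Os N ω c₀) := by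
        by_cases a : x ∈ Rm N ω j
        · have A' := not_and.1 A a
          push Not at A'
          obtain ⟨y, hy, hd, hX⟩ := A'
          have hy2 : y ∈ Rm N ω₂ j := (h.symm.rm_or hy).resolve_right fun t => h.dj t.2.1 hX
          have hx2 : x ∈ Rm N ω₂ j :=
            h.symm.near hy2 (mem_union_right _ a) (by rw [ds_comm]; omega)
          exact ⟨hx2, fun z hz hd' hZ => h.ne (h.symm.force a hz hd' hZ) (h.force hx2 hy hd hX)⟩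
        · have b := (mem_union.1 hx).resolve_left a
          have t := (h.rm_or b).resolve_left a
          exact ⟨b, fun z hz hd' =>
            h.symm.dj (h.h2.pu.t_closed t b hz (by omega)).2.1⟩
      rw [union_comm, union_comm (Rm N ω (j + 1))]
      exact h.symm.step B.1 B.2
    refine ⟨fun a => (key a.1).1 a.2, fun a => ?_⟩
    have b : x ∈ Rm N ω j ∪ Rm N ω₂ j :=
      union_subset_union (rem_anti (Nat.le_succ j)) (rem_anti (Nat.le_succ j)) a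
    exact ⟨b, (key b).2 a⟩

lemma lm_up (h : Two N c₀ c ω ω₂ ω' ω₁) {l : ℕ} (hx : x ∈ Lm N ω l) : x ∈ Lm N ω₁ l := by
  rw [mem_lm] at hx ⊢
  rw [h.rm, h.rm, mem_union, mem_union]
  exact ⟨Or.inl hx.1, fun a => hx.2 (a.elim id (h.rm_up (rm_sd hx.1)))⟩

lemma lm_or (h : Two N c₀ c ω ω₂ ω' ω₁) {l : ℕ} (hx : x ∈ Lm N ω₁ l) :
    x ∈ Lm N ω l ∨ (x ∈ Rm N ω₂ l ∧ Tt N ω₂ c x) := by
  rw [mem_lm, h.rm, h.rm, mem_union, mem_union, not_or] at hx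
  by_cases a : x ∈ Rm N ω l
  · exact Or.inl (mem_lm.2 ⟨a, hx.2.1⟩)
  · have b := hx.1.resolve_left a
    exact Or.inr ⟨b, (h.rm_or b).resolve_left a⟩

lemma cl_up (h : Two N c₀ c ω ω₂ ω' ω₁) {l : ℕ} {C : Finset (Vx n)} (hC : Cl N ω l C) :
    Cl N ω₁ l C := by
  obtain ⟨x, hx, rfl⟩ := hC
  refine ⟨x, h.lm_up hx, ?_⟩
  have hc := chain l
  ext y
  change y ∈ (Rm N ω l).filter _ ↔ y ∈ (Rm N ω₁ l).filter _
  rw [mem_filter, mem_filter, h.rm]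
  exact and_congr_left fun hd => ⟨mem_union_left _, fun a => h.near (lv_rem hx) a (by omega)⟩

lemma df_up (h : Two N c₀ c ω ω₂ ω' ω₁) (hx : x ∈ Df N ω) : x ∈ Df N ω₁ := by
  refine (h.agr fun a => ?_).df.2 hx
  exact h.h2.df_notX ((h.h0.df_out (h.symm.dj a)).2 hx) a

lemma df_or (h : Two N c₀ c ω ω₂ ω' ω₁) (hx : x ∈ Df N ω₁) : x ∈ Df N ω ∨ x ∈ Df N ω₂ := by
  by_cases a : x ∈ Ob (Os N ω₂ c)
  · exact Or.inr ((h.symm.agr (h.symm.dj a)).df.1 hx)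
  · exact Or.inl ((h.agr a).df.1 hx)

lemma pu_up (h : Two N c₀ c ω ω₂ ω' ω₁) {c' : ℕ × Finset (Vx n)} (hc : Pu N ω c') : Pu N ω₁ c' :=
  ⟨h.cl_up hc.1, fun _ hx => h.df_up (hc.2 hx)⟩

lemma pu_down (h : Two N c₀ c ω ω₂ ω' ω₁) {c' : ℕ × Finset (Vx n)} (hc : Cl N ω₁ c'.1 c'.2)
    (hx : x ∈ c'.2) (hd : x ∈ Df N ω) : Pu N ω c' := by
  obtain ⟨c'', h1, h2⟩ := h.h0.reg.exists_pu hd
  rw [Cl.eq_of_mem hc (h.cl_up h1.1) hx h2]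
  exact h1

lemma sc_up (h : Two N c₀ c ω ω₂ ω' ω₁) {c' : ℕ × Finset (Vx n)} (hc : Pu N ω c') : SC N ω₁ c' :=
  fun y hy p hp hd => by
    obtain ⟨l, hl, z, hz, h1⟩ := h.h0.reg.sc c' hc y (h.lab_sub hy) p hp hd
    exact ⟨l, hl, z, h.lm_up hz, h1⟩

lemma reg (h : Two N c₀ c ω ω₂ ω' ω₁) : Reg N ω₁ := by
  refine ⟨⟨?_, fun x hx => ?_⟩, fun k C hC ⟨d, hd⟩ => ?_, fun c' hc' => ?_⟩
  · rw [h.hg, h.h0.reg.pin, h.h2.reg.pin, (h.h0.reg' h.one).pin]; rfl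
  · by_cases a : x ∈ Ob (Os N ω₂ c)
    · have b := h.symm.agr (h.symm.dj a)
      rw [b.sl]
      exact h.h2.reg.fil x (b.lb ▸ hx)
    · have b := h.agr a
      rw [b.sl]
      exact h.h0.reg.fil x (b.lb ▸ hx)
  · rw [mem_inter] at hd
    rcases h.df_or hd.2 with a | a
    · exact (h.pu_up (h.pu_down (c' := (k, C)) hC hd.1 a)).2
    · exact (h.symm.pu_up (h.symm.pu_down (c' := (k, C)) hC hd.1 a)).2
  · obtain ⟨p, hp⟩ := hc'.ne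
    rcases h.df_or (hc'.2 hp) with a | a
    · exact h.sc_up (h.pu_down hc'.1 hp a)
    · exact h.symm.sc_up (h.symm.pu_down hc'.1 hp a)

lemma os (h : Two N c₀ c ω ω₂ ω' ω₁) : Os N ω₁ c₀ = Os N ω c₀ := by
  refine O_congr (fun p hp => (h.agr (h.dj (h.h0.pu.subX hp))).sl.symm) fun l hl z => ?_
  by_cases a : z ∈ Lm N ω l ↔ z ∈ Lm N ω₁ l
  · exact Or.inl a
  refine Or.inr (Or.inr fun y hy => ?_)
  have b : z ∈ Lm N ω₁ l ∧ z ∉ Lm N ω l := by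
    have := h.lm_up (x := z) (l := l)
    tauto
  obtain ⟨b1, b2⟩ := (h.lm_or b.1).resolve_left b.2
  have := h.t_far hl (sub_Ob _ hy) b1 b2
  have := chain l
  rw [ds_comm]
  omega

lemma opt (h : Two N c₀ c ω ω₂ ω' ω₁) : Opt N c₀ ω₁ ω₂ := by
  refine ⟨h.reg, h.pu_up h.h0.pu, fun d hd => ?_, ?_⟩
  · rw [mem_inter, h.os] at hd
    exact h.h0.leaf (mem_inter.2 ⟨(h.agr (h.dj hd.2)).df.1 hd.1, hd.2⟩)
  obtain ⟨q, hq⟩ := h.h0.pu.ne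
  obtain ⟨p, hp⟩ := h.h2.pu.ne
  have n0 : (dO (Os N ω c₀)).Nonempty :=
    dO_nonempty ⟨q, h.h0.pu.sub hq⟩ (x := p) fun a => h.dj (sub_Ob _ a) (h.h2.pu.subX hp)
  have key : ∀ x, McS (10000 * N) ω₁.1 (Os N ω c₀) x =
      ω₂.1 x + McS (10000 * N) ω.1 (Os N ω c₀) (vz n) := by
    intro x
    by_cases a : x ∈ Os N ω c₀
    · have b : x ∉ Os N ω₂ c := fun b => h.dj (sub_Ob _ a) (sub_Ob _ b)
      rw [McS_add (m := ω.1) (c := McS (10000 * N) ω₂.1 (Os N ω₂ c) (vz n)) n0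
        (fun y hy => by rw [h.hg, h.h2.hgt, McS_out (dO_far h.far2 hy)]; ring) a]
      have e1 := h.h0.hgt x
      have e2 := h.h2.hgt x
      rw [McS_out b] at e2
      omega
    · rw [McS_out a, h.hg, h.h0.hgt, McS_out a]; ring
  refine Prod.ext (funext fun x => ?_) (funext fun x => ?_)
  · change McS _ _ (Os N ω₁ c₀) x - McS _ _ (Os N ω₁ c₀) (vz n) = _
    rw [h.os, key, key (vz n), h.h2.reg.pin]; ring
  · change (if x ∈ c₀.2 then 1 else if x ∈ Ob (Os N ω₁ c₀) then 2 else ω₁.2 x) = _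
    rw [h.os]
    by_cases a : x ∈ Ob (Os N ω c₀)
    · rw [← (h.h2.out (h.dj a)).1, h.h0.lab2]
      simp only [if_pos a]
    · rw [if_neg fun b => a (h.h0.pu.subX b), if_neg a, h.l2 x a]

end Two

theorem patch (hN : 1 ≤ N) (h2 : Opt N c ω₂ ω') (h0 : Opt N c₀ ω ω') (hl : c₀.1 ≤ c.1)
    (hne : c ≠ c₀) : ∃ ω₁, Sq N c c₀ ω₁ ω ω₂ ω' := by
  classical
  have c0 : Cl N ω' c₀.1 c₀.2 := (h0.cl hN).2 ⟨h0.pu.1, fun _ hx t => t.2.2 hx⟩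
  obtain ⟨c1, c2⟩ := (h2.cl hN).1 c0
  obtain ⟨q, hq⟩ := h0.pu.ne
  have far : ∀ x ∈ Ob (Os N ω c₀), ∀ y ∈ Ob (Os N ω₂ c), Jr (min c₀.1 c.1) < 4 * ds x y := by
    intro x hx y hy
    rw [min_eq_left hl]
    exact far_of h0.pu hq (fun o ho => h2.pu.far hl (IsCl.lv par_Ir c1 hq)
      (fun a => hne (Cl.eq_of_mem h2.pu.1 c1 a hq)) (c2 q hq) ho) hx hy
  have h : Two N c₀ c ω ω₂ ω' (fun x => ω.1 x + ω₂.1 x - ω'.1 x,
      fun x => if x ∈ Ob (Os N ω c₀) then ω.2 x else ω₂.2 x) := by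
    refine ⟨hN, h0, h2, far, fun _ => rfl, fun x hx => ?_, fun x hx => if_neg hx⟩
    by_cases a : x ∈ Ob (Os N ω c₀)
    · exact if_pos a
    · exact (if_neg a).trans ((h2.out hx).1.symm.trans (h0.out a).1)
  exact ⟨_, h.symm.opt, h0, h.opt, h2, h.os, h.symm.os, disjoint_left.2 fun _ => h.dj⟩

end Pool.Agent.Lib.MP_9cc147_pr.Mono
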