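import Pool.Agent.Lib.MP_9cc147_pr.MPei1

/-! Sparse label sets give rigid bodies, and dense ones are rare. -/

open Finset
open scoped ENNReal

namespace Pool.Agent.Lib.MP_9cc147_pr.Mono

variable {n : ℕ}

/-- points that survive in the thickened frozen set are close to surviving labels -/
lemma cover_rem {X A : Finset (Vx n)} (hA : ∀ y ∈ A, ∃ x ∈ AA X, ds x y ≤ 1) (j : ℕ) :
    ∀ y ∈ Rem tb Ib okT A j, ∃ i, j ≤ i ∧ ∃ x ∈ Rem ra Ip okT X i, ds x y ≤ be i + ra j := by
  induction j with
  | zero =>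
    intro y hy
    obtain ⟨y0, h0, d0⟩ := hA y hy
    obtain ⟨k, x, hx, hd⟩ := mem_AA.1 h0
    have := ds_tri x y0 y
    have := ra_pos 0
    exact ⟨k, Nat.zero_le _, x, hx, by omega⟩
  | succ j ih =>
    intro y hy
    obtain ⟨h1, h2⟩ := mem_rem_succ.1 hy
    have ch := chain j
    have ch' : 262144 * Ip j ≤ ra (j + 1) := Ip_ra (Nat.lt_succ_self j)
    by_contra hc
    push Not at hc
    have wit : ∀ z ∈ Rem tb Ib okT A j, ds z y ≤ tb j + Ib j →
        ∃ x ∈ Rem ra Ip okT X j, ds x z ≤ be j + ra j := by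
      intro z hz hd
      obtain ⟨i, hi, x, hx, d⟩ := ih z hz
      rcases hi.eq_or_lt with rfl | hi
      · exact ⟨x, hx, d⟩
      · have := hc i hi x hx
        have := ds_tri x z y
        omega
    obtain ⟨x, hx, d⟩ := wit y h1 (by simp)
    have iso : Iso ra Ip okT j (Rem ra Ip okT X j) x := by
      by_contra hi
      have := hc (j + 1) le_rfl x (mem_rem_succ.2 ⟨hx, hi⟩)
      omega
    refine h2 ⟨fun y1 hy1 y2 hy2 d1 d2 => ?_, trivial⟩
    have t1 := ds_tri y y1 y2
    obtain ⟨x1, hx1, e1⟩ := wit y1 hy1 (by rw [ds_comm]; omega)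
    obtain ⟨x2, hx2, e2⟩ := wit y2 hy2 (by rw [ds_comm]; omega)
    have a1 := ds_tri x y x1
    have a2 := ds_tri y y1 x1
    have a3 := ds_tri x y x2
    have a4 := ds_tri y y2 x2
    rw [ds_comm y1 x1] at a2
    rw [ds_comm y2 x2] at a4
    have b1 := (iso.1 x hx x1 hx1 (by simp) (by omega)).1
    have b2 := (iso.1 x hx x2 hx2 (by simp) (by omega)).1
    have c1 := ds_tri x x2 y2
    have c2 := ds_tri y x y2
    have c3 := ds_tri y1 x1 y2
    have c4 := ds_tri x1 x y2
    rw [ds_comm y x] at c2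
    rw [ds_comm y1 x1] at c3
    rw [ds_comm x1 x] at c4
    omega

lemma kb_le {i j : ℕ} (h : kb i ≤ kb j) : i ≤ j := by
  by_contra hc
  have := kb_lt (not_le.1 hc)
  have := aa_ge j
  unfold kb at *
  omega

theorem good_of_not_bad {X : Finset (Vx n)} (h : ¬ Bad X) : Good (AA X) := by
  classical
  obtain ⟨A, hA⟩ : ∃ A : Finset (Vx n), ∀ y, y ∈ A ↔ ∃ x ∈ AA X, ds x y ≤ 1 :=
    ⟨univ.filter fun y => ∃ x ∈ AA X, ds x y ≤ 1, fun y => by
      simp only [mem_filter, mem_univ, true_and]⟩
  have hex : ∀ y ∈ A, ∃ j C, IsCl tb Ib okT A j C ∧ y ∈ C := by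
    intro y hy
    obtain ⟨j, _, hj⟩ := exists_lv (R := tb) (I := Ib) (ok := okT)
      (rem_empty (j := n) (by have := chain n; have := lt_ra n; omega) fun _ => trivial) hy
    exact ⟨j, lv_exists_cl hj⟩
  choose! lv cl hcl hmem using hex
  have hrep : ∀ C : Finset (Vx n), ∃ r, C.Nonempty → r ∈ C := fun C => by
    by_cases c : C.Nonempty
    · exact ⟨c.choose, fun _ => c.choose_spec⟩
    · exact ⟨vz n, fun h => absurd h c⟩
  choose rp hrp using hrep
  have same : ∀ y ∈ A, ∀ z ∈ cl y, z ∈ A ∧ lv z = lv y ∧ cl z = cl y := by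
    intro y hy z hz
    have hz' : z ∈ A := rem_sub (lv_rem ((hcl y hy).lv par_Ib hz))
    exact ⟨hz', (hcl z hz').unique par_Ib (hcl y hy) (hmem z hz') hz⟩
  have rpm : ∀ y ∈ A, rp (cl y) ∈ cl y := fun y hy => hrp _ ⟨y, hmem y hy⟩
  have k0 : ∀ j, 1000 ≤ kb j := fun j => by have := aa_ge j; unfold kb; omega
  have hr : ∀ y ∈ A, y ∈ Rem tb Ib okT A (lv y) := fun y hy =>
    lv_rem ((hcl y hy).lv par_Ib (hmem y hy))
  refine ⟨⟨fun y => if y ∈ A then rp (cl y) else y, fun y => if y ∈ A then kb (lv y) else 0,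
    fun x => ?_, fun x => ?_, fun x => ?_, fun x => ?_, fun x y => ?_, fun y => ?_, fun x => ?_,
    fun x y => ?_⟩, fun e he h1 => ?_⟩
  · by_cases c : x ∈ A
    · obtain ⟨a, _, b⟩ := same x c _ (rpm x c)
      simp only [if_pos c, if_pos a, b]
    · simp only [if_neg c]
  · by_cases c : x ∈ A
    · obtain ⟨a, b, _⟩ := same x c _ (rpm x c)
      simp only [if_pos c, if_pos a, b]
    · simp only [if_neg c]
  · by_cases c : x ∈ A
    · have := k0 (lv x)
      simp only [if_pos c]
      omega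
    · simp only [if_neg c, implies_true]
  · by_cases c : x ∈ A
    · have := (hcl x c).diam par_Ib (hmem x c) (rpm x c)
      simp only [if_pos c, kb_eq]
      omega
    · simp [if_neg c]
  · by_cases c : x ∈ A
    · have := k0 (lv x)
      by_cases c' : y ∈ A
      · simp only [if_pos c, if_pos c']
        intro _ h1 h2
        by_contra hc
        have := (hcl y c').mem_of_near par_Ib (hmem y c') (kb_le h1) (hr x c)
          (ds_comm x y ▸ (not_le.1 hc).le)
        exact h2 (by rw [(same y c' x this).2.2])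
      · simp only [if_pos c, if_neg c']
        omega
    · simp [if_neg c]
  · by_cases c : y ∈ A
    · simp only [if_pos c]
      intro _
      obtain ⟨i, hi, x, hx, d⟩ := cover_rem (fun y hy => (hA y).1 hy) _ y (hr y c)
      have h1 : Ip i < ds (vz n) x := not_le.1 fun hc => h (Or.inr ⟨i, x, hx, hc⟩)
      have h2 : rr (kb (lv y) - 1) ≤ rr (kb (lv y)) := rr_mono (Nat.sub_le _ _)
      have := kb_eq (lv y)
      have := par_Ib.monoR hi
      have := ra_mono hi
      have := chain i
      have := ds_tri (vz n) y x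
      rw [ds_comm y x] at this
      omega
    · simp [if_neg c]
  · by_cases c : x ∈ A
    · have := k0 (lv x)
      simp only [if_pos c]
      omega
    · simp [if_neg c]
  · by_cases c : x ∈ A
    · by_cases c' : y ∈ A
      · simp only [if_pos c, if_pos c']
        intro h1
        have := kb_lt (lt_of_le_of_ne (kb_le h1.le) fun e => by rw [e] at h1; omega)
        have : aa (lv y) ≤ kb (lv y) := by unfold kb; omega
        omega
      · simp [if_neg c']
    · simp [if_neg c]
  · have c1 : e.1 ∈ A := (hA _).2 ⟨_, h1, by simp⟩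
    have c2 : e.2 ∈ A := (hA _).2 ⟨_, h1, ds_edge he⟩
    have := (hcl _ c1).mem_of_near par_Ib (hmem _ c1) (Nat.zero_le _) (b := e.2) c2
      ((ds_edge he).trans (by have := chain 0; omega))
    simp only [if_pos c1, if_pos c2, (same _ c1 _ this).2.2]

end Pool.Agent.Lib.MP_9cc147_pr.Mono
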