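import Pool.Agent.Lib.MP_9cc147_pr.MStr

/-! Dense label sets are rare: multiscale union bound. -/

open Finset
open scoped ENNReal

namespace Pool.Agent.Lib.MP_9cc147_pr.Mono

variable {n : ℕ}

open Classical in
/-- mass of an event -/
noncomputable def pms {Ω : Type*} (ν : Ω → ℝ≥0∞) (A : Ω → Prop) : ℝ≥0∞ :=
  ∑' ω, if A ω then ν ω else 0

lemma pms_tsum {Ω ι : Type*} (ν : Ω → ℝ≥0∞) {A : Ω → Prop} {B : ι → Ω → Prop}
    (h : ∀ ω, A ω → ∃ i, B i ω) : pms ν A ≤ ∑' i, pms ν (B i) := by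
  unfold pms
  rw [ENNReal.tsum_comm]
  refine ENNReal.tsum_le_tsum fun ω => ?_
  split_ifs with c
  · obtain ⟨i, hi⟩ := h ω c
    exact le_trans (by rw [if_pos hi]) (ENNReal.le_tsum i)
  · exact zero_le

lemma pms_sum {Ω ι : Type*} (ν : Ω → ℝ≥0∞) {A : Ω → Prop} {B : ι → Ω → Prop} {s : Finset ι}
    {b : ℝ≥0∞} (h : ∀ ω, A ω → ∃ i ∈ s, B i ω) (hb : ∀ i ∈ s, pms ν (B i) ≤ b) :
    pms ν A ≤ s.card * b := by
  refine (pms_tsum ν (B := fun i : s => B i) fun ω c => ?_).trans ?_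
  · obtain ⟨i, hi, e⟩ := h ω c
    exact ⟨⟨i, hi⟩, e⟩
  · rw [Finset.tsum_subtype s fun i => pms ν (B i), ← nsmul_eq_mul]
    exact sum_le_card_nsmul _ _ _ hb

lemma pms_or {Ω : Type*} (ν : Ω → ℝ≥0∞) (A B : Ω → Prop) :
    pms ν (fun ω => A ω ∨ B ω) ≤ pms ν A + pms ν B := by
  unfold pms
  rw [← ENNReal.tsum_add]
  refine ENNReal.tsum_le_tsum fun ω => ?_
  by_cases a : A ω <;> by_cases b : B ω <;> simp [a, b]

lemma nat_mul_q {M e f g : ℕ} (hM : M ≤ 64 ^ e) (h : e + f ≤ g) :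
    (M : ℝ≥0∞) * (64 : ℝ≥0∞)⁻¹ ^ g ≤ (64 : ℝ≥0∞)⁻¹ ^ f := by
  have h1 : (64 : ℝ≥0∞)⁻¹ ^ g ≤ (64 : ℝ≥0∞)⁻¹ ^ (e + f) :=
    pow_le_pow_right_of_le_one' (ENNReal.inv_le_one.2 (by norm_num)) h
  have h2 : (M : ℝ≥0∞) ≤ 64 ^ e := by exact_mod_cast hM
  calc _ ≤ (64 : ℝ≥0∞) ^ e * (64 : ℝ≥0∞)⁻¹ ^ (e + f) := mul_le_mul' h2 h1
    _ = _ := by
      rw [pow_add, ← mul_assoc, ← mul_pow, ENNReal.mul_inv_cancel (by norm_num) (by norm_num),
        one_pow, one_mul]

lemma ball_pow (x : Vx n) (k : ℕ) :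
    (univ.filter fun y => ds x y ≤ ra k + Ip k).card ≤ 64 ^ (2 * (kb k + kb k / 4 + 3)) := by
  refine (packing _ x (ra k + Ip k) one_pos (fun _ hx => by simpa using hx)
    fun _ _ _ _ h => ds_pos h).trans ?_
  rw [mul_comm 2 (kb k + _ + _), pow_mul]
  refine Nat.pow_le_pow_left ?_ 2
  have := chain k
  have e : rr (kb k + kb k / 4 + 3) = 64 * Ip k := rr_succ _
  unfold rr at e
  omega

lemma pei_step {Ω : Type*} (ν : Ω → ℝ≥0∞) (Λ : Ω → Finset (Vx n)) (Z : ℝ≥0∞) (k : ℕ)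
    (h : ∀ Y : Finset (Vx n), (∀ a ∈ Y, ∀ b ∈ Y, a ≠ b → ra k < ds a b) →
      pms ν (fun ω => Y ⊆ Rem ra Ip okT (Λ ω) k) ≤ ((64 : ℝ≥0∞)⁻¹ ^ (20 * aa k)) ^ Y.card * Z)
    (X : Finset (Vx n)) : (∀ a ∈ X, ∀ b ∈ X, a ≠ b → ra (k + 1) < ds a b) →
      ∀ Y : Finset (Vx n), (∀ a ∈ Y, ∀ b ∈ Y, a ≠ b → ra k < ds a b) →
      (∀ a ∈ X, ∀ b ∈ Y, 2 * ra k + Ip k < ds a b) →
      pms ν (fun ω => X ⊆ Rem ra Ip okT (Λ ω) (k + 1) ∧ Y ⊆ Rem ra Ip okT (Λ ω) k) ≤
        ((64 : ℝ≥0∞)⁻¹ ^ (20 * aa (k + 1))) ^ X.card *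
          (((64 : ℝ≥0∞)⁻¹ ^ (20 * aa k)) ^ Y.card * Z) := by
  have ch := chain k
  have ch' := Ip_ra (Nat.lt_succ_self k)
  induction X using Finset.induction_on with
  | empty =>
    intro _ Y hY _
    simpa using h Y hY
  | insert x X hx ih =>
    intro hX Y hY hXY
    set B := univ.filter fun y => ds x y ≤ ra k + Ip k with hB
    have mB : ∀ y, y ∈ B ↔ ds x y ≤ ra k + Ip k := fun y => by simp [hB]
    refine (pms_sum ν (s := (B ×ˢ B).filter fun q => ra k < ds q.1 q.2)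
      (B := fun q ω => X ⊆ Rem ra Ip okT (Λ ω) (k + 1) ∧
        insert q.1 (insert q.2 Y) ⊆ Rem ra Ip okT (Λ ω) k)
      (b := ((64 : ℝ≥0∞)⁻¹ ^ (20 * aa (k + 1))) ^ X.card *
          (((64 : ℝ≥0∞)⁻¹ ^ (20 * aa k)) ^ (Y.card + 2) * Z)) ?_ ?_).trans ?_
    · rintro ω ⟨h1, h2⟩
      obtain ⟨h3, h4⟩ := insert_subset_iff.1 h1
      obtain ⟨h5, h6⟩ := mem_rem_succ.1 h3
      have : ∃ a ∈ Rem ra Ip okT (Λ ω) k, ∃ b ∈ Rem ra Ip okT (Λ ω) k, ds x a ≤ ra k + Ip k ∧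
          ds x b ≤ ra k + Ip k ∧ ra k < ds a b := by
        by_contra hc
        push Not at hc
        refine h6 ⟨fun y hy y' hy' d1 d2 => ?_, trivial⟩
        have := ds_tri x y y'
        exact ⟨hc y hy y' hy' (by omega) (by omega), hc x h5 y' hy' (by simp) (by omega)⟩
      obtain ⟨a, ha, b, hb, d1, d2, d3⟩ := this
      exact ⟨(a, b), mem_filter.2 ⟨mem_product.2 ⟨(mB _).2 d1, (mB _).2 d2⟩, d3⟩, h4,
        insert_subset ha (insert_subset hb h2)⟩
    · rintro ⟨a, b⟩ hq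
      rw [mem_filter, mem_product, mB, mB] at hq
      obtain ⟨⟨d1, d2⟩, d3⟩ := hq
      simp only at d1 d2 d3 ⊢
      have fy : ∀ u, ds x u ≤ ra k + Ip k → ∀ y ∈ Y, ra k < ds u y := by
        intro u hu y hy
        have := hXY x (mem_insert_self _ _) y hy
        have := ds_tri x u y
        omega
      have fx : ∀ u, ds x u ≤ ra k + Ip k → ∀ y ∈ X, 2 * ra k + Ip k < ds y u := by
        intro u hu y hy
        have := hX x (mem_insert_self _ _) y (mem_insert_of_mem hy) fun e => hx (e ▸ hy)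
        have := ds_tri x u y
        rw [ds_comm u y] at this
        simp only [Nat.succ_eq_add_one] at ch'
        omega
      have hb : b ∉ Y := fun hb => by simpa using fy b d2 b hb
      have ha : a ∉ insert b Y := by
        intro ha
        rcases mem_insert.1 ha with rfl | ha
        · simp at d3
        · simpa using fy a d1 a ha
      have := ih (fun a ha b hb => hX a (mem_insert_of_mem ha) b (mem_insert_of_mem hb))
        (insert a (insert b Y)) (by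
          intro u hu v hv huv
          simp only [mem_insert] at hu hv
          rcases hu with rfl | rfl | hu <;> rcases hv with rfl | rfl | hv
          · exact absurd rfl huv
          · exact d3
          · exact fy _ d1 _ hv
          · rw [ds_comm]; exact d3
          · exact absurd rfl huv
          · exact fy _ d2 _ hv
          · rw [ds_comm]; exact fy _ d1 _ hu
          · rw [ds_comm]; exact fy _ d2 _ hu
          · exact hY _ hu _ hv huv) (by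
          intro u hu v hv
          simp only [mem_insert] at hv
          rcases hv with rfl | rfl | hv
          · exact fx _ d1 _ hu
          · exact fx _ d2 _ hu
          · exact hXY _ (mem_insert_of_mem hu) _ hv)
      rwa [card_insert_of_notMem ha, card_insert_of_notMem hb] at this
    · have h1 : ((B ×ˢ B).filter fun q => ra k < ds q.1 q.2).card ≤
          64 ^ (4 * (kb k + kb k / 4 + 3)) := by
        refine (card_filter_le _ _).trans ?_
        rw [card_product, show 4 * (kb k + kb k / 4 + 3) =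
          2 * (kb k + kb k / 4 + 3) + 2 * (kb k + kb k / 4 + 3) by ring, pow_add]
        exact Nat.mul_le_mul (ball_pow x k) (ball_pow x k)
      have h2 := nat_mul_q (f := 20 * aa (k + 1)) (g := 20 * aa k * 2) h1 (by
        have := aa_ge k
        rw [aa]; unfold kb; omega)
      rw [pow_mul _ (20 * aa k) 2] at h2
      rw [card_insert_of_notMem hx]
      generalize (64 : ℝ≥0∞)⁻¹ ^ (20 * aa k) = p at h2 ⊢
      generalize (64 : ℝ≥0∞)⁻¹ ^ (20 * aa (k + 1)) = p' at h2 ⊢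
      calc _ = p' ^ X.card * ((((B ×ˢ B).filter fun q => ra k < ds q.1 q.2).card * p ^ 2) *
            (p ^ Y.card * Z)) := by ring
        _ ≤ p' ^ X.card * (p' * (p ^ Y.card * Z)) := by gcongr
        _ = _ := by ring

open Classical in
theorem peierls {Ω : Type*} (ν : Ω → ℝ≥0∞) (Λ : Ω → Finset (Vx n)) (Z : ℝ≥0∞)
    (h : ∀ E : Finset (Vx n), (∑' ω, if E ⊆ Λ ω then ν ω else 0) ≤
      ((64 : ℝ≥0∞)⁻¹ ^ 20000) ^ E.card * Z) :
    10 * (∑' ω, if Bad (Λ ω) then ν ω else 0) ≤ Z := by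
  have key : ∀ k, ∀ Y : Finset (Vx n), (∀ a ∈ Y, ∀ b ∈ Y, a ≠ b → ra k < ds a b) →
      pms ν (fun ω => Y ⊆ Rem ra Ip okT (Λ ω) k) ≤
        ((64 : ℝ≥0∞)⁻¹ ^ (20 * aa k)) ^ Y.card * Z := by
    intro k
    induction k with
    | zero =>
      intro Y _
      rw [show 20 * aa 0 = 20000 from rfl]
      refine le_trans (ENNReal.tsum_le_tsum fun ω => ?_) (h Y)
      by_cases c : Y ⊆ Λ ω
      · rw [if_pos c]; split_ifs <;> simp
      · rw [if_neg c, if_neg (by exact c)]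
    | succ k ih =>
      intro X hX
      simpa using pei_step ν Λ Z k ih X hX ∅ (by simp) (by simp)
  have one : ∀ k x, pms ν (fun ω => x ∈ Rem ra Ip okT (Λ ω) k) ≤
      (64 : ℝ≥0∞)⁻¹ ^ (20 * aa k) * Z := fun k x => by
    simpa using key k {x} (by simp)
  have a1 : pms ν (fun ω => vl n ∈ Λ ω) ≤ 64⁻¹ * Z := by
    refine (one 0 (vl n)).trans (mul_le_mul_left ?_ Z)
    simpa using nat_mul_q (M := 1) (e := 0) (f := 1) (g := 20 * aa 0) (by simp)
      (by have := aa_ge 0; omega)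
  have a2 : ∀ k, pms ν (fun ω => ∃ x ∈ Rem ra Ip okT (Λ ω) k, ds (vz n) x ≤ Ip k) ≤
      2⁻¹ ^ k * (64⁻¹ * Z) := by
    intro k
    refine (pms_sum ν (s := univ.filter fun y => ds (vz n) y ≤ ra k + Ip k)
      (B := fun x ω => x ∈ Rem ra Ip okT (Λ ω) k)
      (fun ω ⟨x, h1, h2⟩ => ⟨x, mem_filter.2 ⟨mem_univ _, by omega⟩, h1⟩)
      fun x _ => one k x).trans ?_
    rw [← mul_assoc, ← mul_assoc]
    refine mul_le_mul_left ((nat_mul_q (f := k + 1) (ball_pow (vz n) k) (by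
      have := aa_ge k
      unfold kb; omega)).trans ?_) Z
    rw [pow_succ]
    exact mul_le_mul_left (pow_le_pow_left' (ENNReal.inv_le_inv.2 (by norm_num)) k) _
  have a3 := (pms_tsum ν (A := fun ω => ∃ k, ∃ x ∈ Rem ra Ip okT (Λ ω) k, ds (vz n) x ≤ Ip k)
    fun _ h => h).trans (ENNReal.tsum_le_tsum a2)
  rw [ENNReal.tsum_mul_right, ENNReal.tsum_geometric_two] at a3
  have a4 := (pms_or ν _ _).trans (add_le_add a1 a3)
  calc _ ≤ 10 * (64⁻¹ * Z + 2 * (64⁻¹ * Z)) := mul_le_mul_right a4 10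
    _ = 30 * 64⁻¹ * Z := by ring
    _ ≤ 64 * 64⁻¹ * Z := by gcongr; norm_num
    _ = Z := by rw [ENNReal.mul_inv_cancel (by norm_num) (by norm_num), one_mul]

end Pool.Agent.Lib.MP_9cc147_pr.Mono
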