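import Mathlib

/-! Unimodality of one gradient for monotone edge weights, by reflection of a cluster. -/

open Finset MeasureTheory
open scoped ENNReal

namespace Pool.Agent.Lib.MP_9cc147_pr.Mono

lemma tsum_inj {α β : Type*} {f : α → ℝ≥0∞} {g : β → ℝ≥0∞} (i : α → β)
    (hi : ∀ a a', f a ≠ 0 → f a' ≠ 0 → i a = i a' → a = a') (h : ∀ a, f a ≤ g (i a)) :
    ∑' a, f a ≤ ∑' b, g b := by
  rw [← tsum_subtype_support f]
  refine (ENNReal.tsum_le_tsum fun a : Function.support f => h a).trans ?_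
  exact ENNReal.tsum_comp_le_tsum_of_injective (f := fun a : Function.support f => i a)
    (fun a a' e => Subtype.ext (hi _ _ a.2 a'.2 e)) g

/-- decreasing in the absolute value -/
def Dn (w : ℤ → ℝ) : Prop := ∀ k l : ℤ, |l| ≤ |k| → w k ≤ w l

lemma Dn.neg {w : ℤ → ℝ} (h : Dn w) (k : ℤ) : w (-k) = w k :=
  le_antisymm (h _ _ (by simp)) (h _ _ (by simp))

variable {V : Type*} [Fintype V] [DecidableEq V]

noncomputable def PW (E : Finset (V × V)) (w : V × V → ℤ → ℝ) (m : V → ℤ) : ℝ≥0∞ :=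
  ∏ e ∈ E, ENNReal.ofReal (w e (m e.1 - m e.2))

/-- weight of the fields with prescribed values at `v` and `u` -/
noncomputable def nJ (E : Finset (V × V)) (w : V × V → ℤ → ℝ) (u v : V) (J : ℤ) : ℝ≥0∞ :=
  ∑' m : V → ℤ, if m v = 0 ∧ m u = J then PW E w m else 0

def Bd (E : Finset (V × V)) (w : V × V → ℤ → ℝ) (c : ℤ) (m : V → ℤ) (x y : V) : Prop :=
  ∃ e ∈ E, ((e.1 = x ∧ e.2 = y) ∨ (e.1 = y ∧ e.2 = x)) ∧ w e (c - m x - m y) ≠ 1

def Lg (E : Finset (V × V)) (w : V × V → ℤ → ℝ) (m : V → ℤ) : Prop :=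
  ∀ e ∈ E, w e (m e.1 - m e.2) = 1

open Classical in
noncomputable def Rf (E : Finset (V × V)) (w : V × V → ℤ → ℝ) (c : ℤ) (u : V) (m : V → ℤ) :
    V → ℤ := fun x => if Relation.ReflTransGen (Bd E w c m) u x then c - m x else m x

variable {E : Finset (V × V)} {w : V × V → ℤ → ℝ} {c : ℤ} {u : V} {m : V → ℤ}

omit [Fintype V] [DecidableEq V] in
lemma Lg.edge (hd : ∀ e ∈ E, Dn (w e)) (hm : Lg E w m) {e : V × V} (he : e ∈ E) {x y : V}
    (h : (e.1 = x ∧ e.2 = y) ∨ (e.1 = y ∧ e.2 = x)) : w e (m x - m y) = 1 := by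
  have := hm e he
  rcases h with ⟨h1, h2⟩ | ⟨h1, h2⟩
  · rwa [h1, h2] at this
  · rw [h1, h2, ← (hd e he).neg] at this
    rwa [show m x - m y = -(m y - m x) by ring]

omit [Fintype V] [DecidableEq V] in
lemma side (hd : ∀ e ∈ E, Dn (w e)) (h1 : ∀ e ∈ E, ∀ k, w e k ≤ 1) (hm : Lg E w m)
    (hu : c < 2 * m u) {x : V} (hx : Relation.ReflTransGen (Bd E w c m) u x) : c < 2 * m x := by
  induction hx with
  | refl => exact hu
  | @tail y z _ hb ih =>
    obtain ⟨e, he, hyz, hne⟩ := hb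
    by_contra hz
    apply hne
    refine le_antisymm (h1 e he _) ?_
    rw [← hm.edge hd he hyz]
    refine hd e he _ _ ?_
    rw [abs_le]
    have := le_abs_self (m y - m z)
    constructor <;> omega

omit [Fintype V] [DecidableEq V] in
lemma Rf_lg (hd : ∀ e ∈ E, Dn (w e)) (hm : Lg E w m) : Lg E w (Rf E w c u m) := by
  intro e he
  unfold Rf
  by_cases h1 : Relation.ReflTransGen (Bd E w c m) u e.1 <;>
    by_cases h2 : Relation.ReflTransGen (Bd E w c m) u e.2
  · rw [if_pos h1, if_pos h2, show c - m e.1 - (c - m e.2) = -(m e.1 - m e.2) by ring,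
      (hd e he).neg]
    exact hm e he
  · rw [if_pos h1, if_neg h2]
    by_contra hne
    exact h2 (h1.tail ⟨e, he, Or.inl ⟨rfl, rfl⟩, hne⟩)
  · rw [if_neg h1, if_pos h2, show m e.1 - (c - m e.2) = -(c - m e.2 - m e.1) by ring,
      (hd e he).neg]
    by_contra hne
    exact h1 (h2.tail ⟨e, he, Or.inr ⟨rfl, rfl⟩, hne⟩)
  · rw [if_neg h1, if_neg h2]; exact hm e he

omit [Fintype V] [DecidableEq V] in
lemma Rf_cl (hd : ∀ e ∈ E, Dn (w e)) (hm : Lg E w m) (x : V) :
    Relation.ReflTransGen (Bd E w c (Rf E w c u m)) u x ↔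
      Relation.ReflTransGen (Bd E w c m) u x := by
  constructor
  · intro h
    induction h with
    | refl => exact .refl
    | @tail y z _ hb ih =>
      obtain ⟨e, he, hyz, hne⟩ := hb
      by_contra hz
      apply hne
      unfold Rf
      rw [if_pos ih, if_neg hz, show c - (c - m y) - m z = m y - m z by ring]
      exact hm.edge hd he hyz
  · intro h
    induction h with
    | refl => exact .refl
    | @tail y z hy hb ih =>
      have hz := hy.tail hb
      obtain ⟨e, he, hyz, hne⟩ := hb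
      refine ih.tail ⟨e, he, hyz, ?_⟩
      unfold Rf
      rwa [if_pos hy, if_pos hz, show c - (c - m y) - (c - m z) = -(c - m y - m z) by ring,
        (hd e he).neg]

omit [Fintype V] [DecidableEq V] in
lemma Rf_Rf (hd : ∀ e ∈ E, Dn (w e)) (hm : Lg E w m) : Rf E w c u (Rf E w c u m) = m := by
  funext x
  have := Rf_cl (c := c) (u := u) hd hm x
  by_cases h : Relation.ReflTransGen (Bd E w c m) u x
  · rw [Rf, if_pos (this.2 h), Rf, if_pos h]; ring
  · rw [Rf, if_neg (fun h' => h (this.1 h')), Rf, if_neg h]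

omit [Fintype V] [DecidableEq V] in
lemma PW_lg (hm : Lg E w m) : PW E w m = 1 :=
  prod_eq_one fun e he => by rw [hm e he]; simp

omit [Fintype V] [DecidableEq V] in
lemma lg_of_ne (hi : ∀ e ∈ E, ∀ k, w e k = 0 ∨ w e k = 1) (h : PW E w m ≠ 0) : Lg E w m := by
  intro e he
  rcases hi e he (m e.1 - m e.2) with h0 | h1
  · exact absurd (prod_eq_zero he (by rw [h0]; simp)) h
  · exact h1

omit [Fintype V] [DecidableEq V] in
lemma nJ_hard (hd : ∀ e ∈ E, Dn (w e)) (hi : ∀ e ∈ E, ∀ k, w e k = 0 ∨ w e k = 1) (u v : V)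
    {J J' : ℤ} (h1 : 0 < J + J') (h2 : J' < J) : nJ E w u v J ≤ nJ E w u v J' := by
  have hle : ∀ e ∈ E, ∀ k, w e k ≤ 1 := fun e he k => by
    rcases hi e he k with h | h <;> simp [h]
  have key : ∀ m : V → ℤ, (if m v = 0 ∧ m u = J then PW E w m else 0) ≠ 0 →
      (m v = 0 ∧ m u = J) ∧ Lg E w m := by
    intro m h
    by_cases hc : m v = 0 ∧ m u = J
    · rw [if_pos hc] at h; exact ⟨hc, lg_of_ne hi h⟩
    · exact absurd (if_neg hc) h
  refine tsum_inj (Rf E w (J + J') u) (fun a a' ha ha' e => ?_) fun a => ?_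
  · rw [← Rf_Rf (c := J + J') (u := u) hd (key a ha).2, e, Rf_Rf hd (key a' ha').2]
  · by_cases ha : (if a v = 0 ∧ a u = J then PW E w a else 0) = 0
    · rw [ha]; exact zero_le
    obtain ⟨⟨hv, hu⟩, hl⟩ := key a ha
    have hnv : ¬ Relation.ReflTransGen (Bd E w (J + J') a) u v := fun h => by
      have := side hd hle hl (by omega) h
      omega
    rw [if_pos ⟨hv, hu⟩, if_pos, PW_lg hl, PW_lg (Rf_lg hd hl)]
    constructor
    · rw [Rf, if_neg hnv, hv]
    · rw [Rf, if_pos .refl]; omega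

omit [Fintype V] [DecidableEq V] in
lemma nJ_neg (hd : ∀ e ∈ E, Dn (w e)) (u v : V) (J : ℤ) : nJ E w u v J ≤ nJ E w u v (-J) := by
  refine tsum_inj (fun m => -m) (fun a a' _ _ e => neg_injective e) fun a => ?_
  by_cases h : a v = 0 ∧ a u = J
  · rw [if_pos h, if_pos (by simp [h.1, h.2])]
    refine le_of_eq (prod_congr rfl fun e he => ?_)
    rw [← (hd e he).neg]
    congr 2
    simp only [Pi.neg_apply]; ring
  · rw [if_neg h]; exact zero_le

omit [Fintype V] in
lemma PW_update (w : V × V → ℤ → ℝ) {e : V × V} (he : e ∈ E) (φ : ℤ → ℝ) (m : V → ℤ) :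
    PW E (Function.update w e φ) m = ENNReal.ofReal (φ (m e.1 - m e.2)) * PW (E.erase e) w m := by
  unfold PW
  rw [← mul_prod_erase E _ he, Function.update_self]
  congr 1
  exact prod_congr rfl fun e' he' => by rw [Function.update_of_ne (ne_of_mem_erase he')]

open Classical in
/-- level set of a weight -/
noncomputable def lvl (φ : ℤ → ℝ) (t : ℝ) (k : ℤ) : ℝ := if 0 < t ∧ t < φ k then 1 else 0

lemma lvl_dn {φ : ℤ → ℝ} (h : Dn φ) (t : ℝ) : Dn (lvl φ t) := by
  intro k l hkl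
  unfold lvl
  have := h k l hkl
  by_cases h1 : 0 < t ∧ t < φ k
  · rw [if_pos h1, if_pos ⟨h1.1, h1.2.trans_le this⟩]
  · rw [if_neg h1]; split_ifs <;> norm_num

lemma lvl_ind (φ : ℤ → ℝ) (k : ℤ) : (fun t => ENNReal.ofReal (lvl φ t k)) =
    (Set.Ioo 0 (φ k)).indicator 1 := by
  funext t
  unfold lvl
  by_cases h : 0 < t ∧ t < φ k
  · rw [if_pos h, Set.indicator_of_mem (show t ∈ Set.Ioo 0 (φ k) from h)]; simp
  · rw [if_neg h, Set.indicator_of_notMem (show t ∉ Set.Ioo 0 (φ k) from h)]; simp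

lemma lvl_meas (φ : ℤ → ℝ) (k : ℤ) : Measurable fun t => ENNReal.ofReal (lvl φ t k) := by
  rw [lvl_ind]; exact measurable_one.indicator measurableSet_Ioo

lemma lvl_int (φ : ℤ → ℝ) (k : ℤ) : ∫⁻ t, ENNReal.ofReal (lvl φ t k) = ENNReal.ofReal (φ k) := by
  rw [lvl_ind, lintegral_indicator_one measurableSet_Ioo, Real.volume_Ioo, sub_zero]

lemma nJ_lvl (w : V × V → ℤ → ℝ) {e : V × V} (he : e ∈ E) (u v : V) (J : ℤ) :
    nJ E w u v J = ∫⁻ t, nJ E (Function.update w e (lvl (w e) t)) u v J := by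
  unfold nJ
  rw [lintegral_tsum]
  · refine tsum_congr fun m => ?_
    split_ifs
    · simp only [PW_update w he]
      rw [lintegral_mul_const _ (lvl_meas _ _), lvl_int, ← PW_update w he, Function.update_eq_self]
    · simp
  · intro m
    split_ifs
    · simp only [PW_update w he]
      exact ((lvl_meas _ _).mul_const _).aemeasurable
    · exact aemeasurable_const

lemma nJ_soft (u v : V) {J J' : ℤ} (h1 : 0 < J + J') (h2 : J' < J) (T : Finset (V × V)) :
    ∀ w : V × V → ℤ → ℝ, (∀ e ∈ E, Dn (w e)) → (∀ e ∈ E, e ∉ T → ∀ k, w e k = 0 ∨ w e k = 1) →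
      nJ E w u v J ≤ nJ E w u v J' := by
  induction T using Finset.induction_on with
  | empty => exact fun w hd hi => nJ_hard hd (fun e he => hi e he (by simp)) u v h1 h2
  | insert e T _ ih =>
    intro w hd hi
    by_cases he : e ∈ E
    · rw [nJ_lvl w he, nJ_lvl w he]
      refine lintegral_mono fun t => ih _ (fun e' he' => ?_) fun e' he' hT k => ?_
      · by_cases h : e' = e
        · rw [h, Function.update_self]; exact lvl_dn (hd e he) t
        · rw [Function.update_of_ne h]; exact hd e' he'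
      · by_cases h : e' = e
        · rw [h, Function.update_self]; unfold lvl; split_ifs <;> simp
        · rw [Function.update_of_ne h]; exact hi e' he' (by simp [h, hT]) k
    · refine ih w hd fun e' he' hT => hi e' he' ?_
      rw [mem_insert, not_or]
      exact ⟨fun h => he (h ▸ he'), hT⟩

/-- the law of one gradient is unimodal -/
theorem nJ_uni (hd : ∀ e ∈ E, Dn (w e)) (u v : V) {J J' : ℤ} (h : |J'| ≤ |J|) :
    nJ E w u v J ≤ nJ E w u v J' := by
  have A : ∀ J J' : ℤ, 0 ≤ J → |J'| ≤ J → nJ E w u v J ≤ nJ E w u v J' := by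
    intro J J' _ h
    rw [abs_le] at h
    rcases eq_or_lt_of_le h.2 with e | l
    · rw [e]
    rcases eq_or_lt_of_le h.1 with e | l'
    · rw [← e]; exact nJ_neg hd u v J
    exact nJ_soft u v (by omega) l E w hd fun e he h => absurd he h
  rcases le_total 0 J with hJ | hJ
  · exact A J J' hJ (by rwa [abs_of_nonneg hJ] at h)
  · exact (nJ_neg hd u v J).trans (A (-J) J' (by omega) (by rwa [abs_of_nonpos hJ] at h))

noncomputable def ZZ (E : Finset (V × V)) (w : V × V → ℤ → ℝ) (o : V) : ℝ≥0∞ :=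
  ∑' m : V → ℤ, if m o = 0 then PW E w m else 0

omit [Fintype V] [DecidableEq V] in
lemma ZZ_pin_le (E : Finset (V × V)) (w : V × V → ℤ → ℝ) (o o' : V) : ZZ E w o ≤ ZZ E w o' := by
  refine tsum_inj (fun m x => m x - m o') (fun a a' ha ha' e => ?_) fun a => ?_
  · have h1 : a o = 0 := by by_contra h; exact ha (if_neg h)
    have h2 : a' o = 0 := by by_contra h; exact ha' (if_neg h)
    funext x
    have e1 := congrFun e x
    have e2 := congrFun e o
    omega
  · rw [if_pos (sub_self _)]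
    split_ifs
    · refine le_of_eq (prod_congr rfl fun e _ => ?_)
      congr 2; ring
    · exact zero_le

omit [Fintype V] [DecidableEq V] in
lemma ZZ_pin (E : Finset (V × V)) (w : V × V → ℤ → ℝ) (o o' : V) : ZZ E w o = ZZ E w o' :=
  le_antisymm (ZZ_pin_le E w o o') (ZZ_pin_le E w o' o)

omit [Fintype V] in
lemma ZZ_update (w : V × V → ℤ → ℝ) {e : V × V} (he : e ∈ E) (φ : ℤ → ℝ) (o : V) :
    ZZ E (Function.update w e φ) o =
      ∑' J : ℤ, ENNReal.ofReal (φ J) * nJ (E.erase e) w e.1 e.2 J := by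
  rw [ZZ_pin E _ o e.2]
  unfold ZZ nJ
  simp only [← ENNReal.tsum_mul_left]
  rw [ENNReal.tsum_comm]
  refine tsum_congr fun m => ?_
  rw [tsum_eq_single (m e.1)]
  · by_cases h : m e.2 = 0
    · rw [if_pos h, if_pos ⟨h, rfl⟩, PW_update w he, h, sub_zero]
    · rw [if_neg h, if_neg (fun h' => h h'.1), mul_zero]
  · intro J hJ
    rw [if_neg (fun h' => hJ h'.2.symm), mul_zero]

/-- comparison of two weights against a unimodal function -/
lemma uni_cmp {g : ℤ → ℝ≥0∞} (hg : ∀ J J', |J'| ≤ |J| → g J ≤ g J') {φ ψ : ℤ → ℝ≥0∞} {b : ℕ}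
    {A B η : ℝ≥0∞} (hA : ∀ J, ψ J ≤ A) (hB : ∀ J : ℤ, |J| ≤ b → B ≤ φ J)
    (h : A * (2 * b + 1) + ∑' J, ψ J ≤ η * B * (2 * b + 1)) :
    ∑' J, ψ J * g J ≤ η * ∑' J, φ J * g J := by
  set I : Finset ℤ := Icc (-(b : ℤ)) b with hI
  set Y := ∑ J ∈ I, g J with hY
  have hc : (I.card : ℝ≥0∞) = 2 * b + 1 := by
    have : I.card = 2 * b + 1 := by rw [hI, Int.card_Icc]; omega
    rw [this]; push_cast; ring
  have h1 : ∀ J, J ∉ I → g J * (2 * b + 1) ≤ Y := by
    intro J hJ
    rw [← hc, mul_comm, ← nsmul_eq_mul]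
    refine card_nsmul_le_sum _ _ _ fun J' hJ' => hg _ _ ?_
    rw [hI, mem_Icc] at hJ hJ'
    rw [abs_le]
    have := le_abs_self J
    have := neg_abs_le J
    constructor <;> omega
  have h2 : B * Y ≤ ∑' J, φ J * g J := by
    rw [hY, mul_sum]
    refine le_trans (sum_le_sum fun J hJ => mul_le_mul_left (hB J ?_) _) (ENNReal.sum_le_tsum I)
    rw [hI, mem_Icc] at hJ
    exact abs_le.2 hJ
  have h3 : (∑' J, ψ J * g J) * (2 * b + 1) ≤ (A * (2 * b + 1) + ∑' J, ψ J) * Y := by
    rw [← ENNReal.tsum_mul_right, add_mul, ← ENNReal.tsum_mul_right]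
    have e : A * (2 * b + 1) * Y = ∑' J, if J ∈ I then A * (2 * b + 1) * g J else 0 := by
      rw [tsum_eq_sum (s := I) (fun J hJ => if_neg hJ), hY, mul_sum]
      exact sum_congr rfl fun J hJ => (if_pos hJ).symm
    rw [e, ← ENNReal.tsum_add]
    refine ENNReal.tsum_le_tsum fun J => ?_
    by_cases hJ : J ∈ I
    · rw [if_pos hJ, mul_right_comm]
      exact le_add_right (mul_le_mul_left (mul_le_mul_left (hA J) _) _)
    · rw [if_neg hJ, zero_add, mul_assoc]
      exact mul_le_mul_right (h1 J hJ) _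
  have h0 : (2 * b + 1 : ℝ≥0∞) ≠ 0 := by simp
  have ht : (2 * b + 1 : ℝ≥0∞) ≠ ⊤ := by
    rw [← hc]; exact ENNReal.natCast_ne_top _
  rw [← ENNReal.mul_le_mul_iff_left h0 ht]
  refine h3.trans ((mul_le_mul_left h _).trans ?_)
  rw [mul_right_comm, mul_assoc η]
  exact mul_le_mul_left (mul_le_mul_right h2 _) _

/-- replacing the weight `φ` by `ψ` on a set of edges -/
theorem ZZ_repl {φ ψ : ℤ → ℝ} (hφ : Dn φ) (hψ : Dn ψ) {b : ℕ} {η : ℝ≥0∞}
    (h : ENNReal.ofReal (ψ 0) * (2 * b + 1) + ∑' J, ENNReal.ofReal (ψ J) ≤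
      η * ENNReal.ofReal (φ b) * (2 * b + 1)) (o : V) (T : Finset (V × V)) (hT : T ⊆ E) :
    ZZ E (fun e => if e ∈ T then ψ else φ) o ≤ η ^ T.card * ZZ E (fun _ => φ) o := by
  induction T using Finset.induction_on with
  | empty => simp
  | insert e T he ih =>
    have hE : e ∈ E := hT (mem_insert_self _ _)
    have e1 : (fun e' => if e' ∈ insert e T then ψ else φ) =
        Function.update (fun e' => if e' ∈ T then ψ else φ) e ψ := by
      funext e'
      by_cases h : e' = e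
      · rw [h, Function.update_self, if_pos (mem_insert_self _ _)]
      · rw [Function.update_of_ne h]; simp [h]
    have e2 : (fun e' => if e' ∈ T then ψ else φ) =
        Function.update (fun e' => if e' ∈ T then ψ else φ) e φ := by
      funext e'
      by_cases h : e' = e
      · rw [h, Function.update_self, if_neg he]
      · rw [Function.update_of_ne h]
    rw [card_insert_of_notMem he, pow_succ', mul_assoc]
    refine le_trans ?_ (mul_le_mul_right (ih ((subset_insert _ _).trans hT)) _)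
    rw [e1, ZZ_update _ hE]
    conv_rhs => rw [e2, ZZ_update _ hE]
    refine uni_cmp (fun J J' hJ => nJ_uni (fun e' _ => ?_) _ _ hJ)
      (fun J => ENNReal.ofReal_le_ofReal (hψ _ _ (by simp)))
      (fun J hJ => ENNReal.ofReal_le_ofReal (hφ _ _ (by simpa using hJ))) h
    split_ifs
    exacts [hψ, hφ]

end Pool.Agent.Lib.MP_9cc147_pr.Mono
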