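import Pool.Agent.Lib.MP_9cc147_pr.MCZ

/-! One repair: what it changes and what it keeps. -/

open Finset

namespace Pool.Agent.Lib.MP_9cc147_pr.Mono

variable {n N : ℕ} {ω ω' ω₁ ω₂ : St n} {c c' c₀ : ℕ × Finset (Vx n)} {x y : Vx n}

lemma Pu.ne (h : Pu N ω c) : ∃ p, p ∈ c.2 := IsCl.nonempty h.1

lemma Pu.lm (h : Pu N ω c) (hx : x ∈ c.2) : x ∈ Lm N ω c.1 := IsCl.lv par_Ir h.1 hx

lemma Pu.subX (h : Pu N ω c) (hx : x ∈ c.2) : x ∈ Ob (Os N ω c) := sub_Ob _ (h.sub hx)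

lemma Pu.close (h : Pu N ω c) (hx : x ∈ c.2) (hy : y ∈ Ob (Os N ω c)) : ds x y ≤ 8 * ra c.1 := by
  rcases h.conf with h1 | h1
  · exact (ds_le _ _).trans h1
  · have := h1 x hx y hy; omega

lemma Cl.mem_near {k j : ℕ} {C : Finset (Vx n)} (h : Cl N ω k C) (hx : x ∈ C) (hj : j ≤ k)
    (hy : y ∈ Rm N ω j) (hd : ds x y ≤ Ir j) : y ∈ C := IsCl.mem_of_near par_Ir h hx hj hy hd

lemma lm_rm {l : ℕ} (h : x ∈ Lm N ω l) : x ∈ Rm N ω l := lv_rem h

lemma rm_sd {l : ℕ} (h : x ∈ Rm N ω l) : x ∈ Sd N ω := rem_sub h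

lemma mem_lm {l : ℕ} : x ∈ Lm N ω l ↔ x ∈ Rm N ω l ∧ x ∉ Rm N ω (l + 1) := mem_sdiff

lemma Jr_ra {j k : ℕ} (h : j < k) : 4096 * Jr j ≤ ra k ∧ 4096 * Ir j ≤ ra k := by
  have := chain j; have := Ip_ra h; omega

/-- a lower level point close to the repaired region is deep inside it -/
lemma Pu.deep (h : Pu N ω c) {l : ℕ} {z o : Vx n} (hl : l < c.1) (hz : z ∈ Lm N ω l)
    (ho : o ∈ Os N ω c) (hd : 2 * ds z o ≤ Jr l) (hy : ds z y + ra l ≤ Jr l) : y ∈ Os N ω c := by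
  rcases O_dich (N := N) (μ := sl ω.1) (sp_of_cl h.1) hl hz with h1 | h1
  · exact ol_mono (Nat.sub_le _ _) (h1 y hy)
  · have := h1 o ho; omega

lemma reg_of_empty (hp : Pre N ω) (h : Df N ω = ∅) : Reg N ω := by
  refine ⟨hp, fun k C _ h1 => ?_, fun c hc => ?_⟩
  · simp [h] at h1
  · obtain ⟨p, hp⟩ := hc.ne
    simpa [h] using hc.2 hp

lemma Reg.exists_pu (h : Reg N ω) (hx : x ∈ Df N ω) : ∃ c, Pu N ω c ∧ x ∈ c.2 := by
  obtain ⟨l, -, hl⟩ := exists_lm (Df_sub hx)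
  obtain ⟨C, hC, hxC⟩ := lv_exists_cl hl
  exact ⟨(l, C), ⟨hC, h.pure l C hC ⟨x, mem_inter.2 ⟨hxC, hx⟩⟩⟩, hxC⟩

lemma Reg.df_empty (h : Reg N ω) : Df N ω = ∅ ↔ ∀ c, ¬ Pu N ω c := by
  refine ⟨fun h1 c hc => ?_, fun h1 => eq_empty_of_forall_notMem fun x hx => ?_⟩
  · obtain ⟨p, hp⟩ := hc.ne
    simpa [h1] using hc.2 hp
  · obtain ⟨c, hc, -⟩ := h.exists_pu hx
    exact h1 c hc

lemma Reg.leaf (h : Reg N ω) (hc : Pu N ω c) (hm : ∀ c', Pu N ω c' → c.1 ≤ c'.1) :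
    Df N ω ∩ Ob (Os N ω c) ⊆ c.2 := by
  intro d hd
  rw [mem_inter] at hd
  obtain ⟨c', hc', hd'⟩ := h.exists_pu hd.1
  obtain ⟨p, hp⟩ := hc.ne
  have h1 := hc.close hp hd.2
  have := chain c.1
  exact Cl.mem_near hc.1 hp le_rfl (rem_anti (hm c' hc') (lm_rm (hc'.lm hd'))) (by omega)

lemma Opt.lab2 (h : Opt N c ω ω') (x : Vx n) : ω'.2 x =
    if x ∈ c.2 then 1 else if x ∈ Ob (Os N ω c) then 2 else ω.2 x := by
  rw [← h.eq]; rfl

lemma Opt.hgt (h : Opt N c ω ω') (x : Vx n) : ω'.1 x =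
    McS (10000 * N) ω.1 (Os N ω c) x - McS (10000 * N) ω.1 (Os N ω c) (vz n) := by
  rw [← h.eq]; rfl

lemma Opt.out (h : Opt N c ω ω') (hx : x ∉ Ob (Os N ω c)) :
    ω'.2 x = ω.2 x ∧ ∀ e ∈ oe x, ω'.1 e.1 - ω'.1 e.2 = ω.1 e.1 - ω.1 e.2 := by
  refine ⟨by rw [h.lab2, if_neg fun a => hx (h.pu.subX a), if_neg hx], fun e he => ?_⟩
  have h1 : e.1 ∉ Os N ω c := fun a => hx (sub_Ob _ ((mem_oe.1 he).2 ▸ a))
  have h2 : e.2 ∉ Os N ω c := fun a => hx (mem_Ob.2 (Or.inr ⟨e, he, a⟩))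
  rw [h.hgt, h.hgt e.2, McS_out h1, McS_out h2]; ring

lemma Opt.height (h : Opt N c ω ω') (hz : vz n ∉ Os N ω c) (hx : x ∉ Os N ω c) :
    ω'.1 x = ω.1 x := by
  rw [h.hgt, McS_out hz, McS_out hx, h.reg.pin, sub_zero]

lemma Opt.lab_in (h : Opt N c ω ω') (hx : x ∈ Ob (Os N ω c)) : x ∈ lab ω' := by
  rw [mem_lab, h.lab2]
  split_ifs <;> decide

lemma Opt.lab_eq (h : Opt N c ω ω') : lab ω' = lab ω ∪ Ob (Os N ω c) := by
  ext x
  rw [mem_union]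
  by_cases hx : x ∈ Ob (Os N ω c)
  · simp only [hx, h.lab_in hx, or_true]
  · simp only [hx, or_false, mem_lab, (h.out hx).1]

lemma Opt.lab_sub (h : Opt N c ω ω') : lab ω ⊆ lab ω' := h.lab_eq ▸ subset_union_left

lemma Opt.slope (hN : 1 ≤ N) (h : Opt N c ω ω') (hx : x ∈ Ob (Os N ω c)) :
    ∀ e ∈ oe x, |ω'.1 e.1 - ω'.1 e.2| ≤ 10000 * N := by
  intro e he
  have hl := lip_of_low hN h.reg.toPre h.pu (h.reg.sc c h.pu)
  obtain ⟨he1, he2⟩ := mem_oe.1 he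
  rw [h.hgt, h.hgt e.2, sub_sub_sub_cancel_right]
  by_cases hO : e.1 ∈ Os N ω c ∨ e.2 ∈ Os N ω c
  · have := McS_lip hl he1 hO
    push_cast at this
    exact this
  · push Not at hO
    rw [McS_out hO.1, McS_out hO.2]
    rcases mem_Ob.1 hx with a | ⟨e', he', a⟩
    · exact absurd (he2 ▸ a) hO.1
    obtain ⟨he1', he2'⟩ := mem_oe.1 he'
    have e3 : e'.1 = e.1 := he2'.trans he2.symm
    have q := mem_Ed.1 he1
    have q' := mem_Ed.1 he1'
    rw [e3] at q'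
    have := hl e.1 (mem_dO.2 ⟨hO.1, e'.2, a, by unfold ds; omega⟩) e.2
      (mem_dO.2 ⟨hO.2, e'.2, a, by unfold ds; omega⟩)
    have e4 : d1 e.1 e.2 = 1 := by unfold d1; omega
    rw [e4] at this
    push_cast at this
    simpa using this

/-- walk lemma -/
lemma Opt.walk (h : Opt N c ω ω') (hy : y ∈ lab ω) {o z : Vx n} (ho : o ∈ Os N ω c)
    (hd : ds o y ≤ 2) (hz : ds y z ≤ 2) : z ∈ Os N ω c := by
  obtain ⟨p, hp⟩ := h.pu.ne
  have h1 := h.pu.close hp (sub_Ob _ ho)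
  have h2 := ds_tri p o y
  have := chain c.1
  obtain ⟨l, hl, w, hw, h3⟩ := h.reg.sc c h.pu y hy p hp (by omega)
  have := chain l
  have h4 := ds_tri w y o
  have h5 := ds_tri w y z
  rw [ds_comm y o] at h4
  exact h.pu.deep hl hw ho (by omega) (by omega)

lemma Opt.comp_in (h : Opt N c ω ω') (hy : y ∈ lab ω) (hx : x ∈ Ob (Os N ω c)) (hd : ds x y ≤ 1)
    {z : Vx n} (hz : Cn (lab ω) y z) : z ∈ Os N ω c := by
  obtain ⟨o, ho, h1⟩ := Ob_near hx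
  have := ds_tri o x y
  refine hz.ind (p := fun z => z ∈ Os N ω c) (h.walk hy ho (by omega) (by simp)) ?_
  intro u hu v _ huv hO
  exact h.walk hu hO (by simp) (by omega)

lemma Opt.cn_far (h : Opt N c ω ω') (hx : x ∉ Ob (Os N ω c)) (hy : Cn (lab ω) x y) :
    y ∉ Ob (Os N ω c) := by
  intro a
  by_cases hl : x ∈ lab ω
  · exact hx (sub_Ob _ (h.comp_in (hy.mem hl) a (by simp) hy.symm))
  · exact hx (hy.eq_of_notMem hl ▸ a)

lemma Opt.cn_out (h : Opt N c ω ω') (hx : x ∉ Ob (Os N ω c)) :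
    Cn (lab ω') x y ↔ Cn (lab ω) x y := by
  refine ⟨fun a => ?_, fun a => a.mono h.lab_sub⟩
  refine a.ind (p := fun z => Cn (lab ω) x z) (Cn.refl _ _) fun u hu v hv huv e => ?_
  have hu' : u ∈ lab ω := by
    rw [h.lab_eq, mem_union] at hu
    exact hu.resolve_right (h.cn_far hx e)
  rw [h.lab_eq, mem_union] at hv
  refine e.trans (Cn.step hu' (hv.resolve_right fun b => ?_) huv)
  exact hx (sub_Ob _ (h.comp_in hu' b (ds_comm u v ▸ huv) e.symm))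

set_option linter.unusedVariables false in
lemma Opt.ob (hN : 1 ≤ N) (h : Opt N c ω ω') : y ∈ Ob (Os N ω c) ↔ ∃ p ∈ c.2, Cn (lab ω') p y := by
  refine ⟨fun a => ?_, fun ⟨p, hp, a⟩ => ?_⟩
  · obtain ⟨p, hp, b⟩ := O_conn a
    exact ⟨p, hp, b.mono fun z hz => h.lab_in hz⟩
  · by_contra hy
    exact h.cn_far hy ((h.cn_out hy).1 a.symm) (h.pu.subX hp)

lemma Opt.sl_out (h : Opt N c ω ω') (hx : x ∉ Ob (Os N ω c)) : sl ω'.1 x = sl ω.1 x :=
  sl_congr (h.out hx).2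

lemma Opt.df_notX (h : Opt N c ω ω') (hx : x ∈ Df N ω') : x ∉ Ob (Os N ω c) :=
  fun a => mem_lab.1 (h.lab_in a) (mem_Df.1 hx).1

lemma Opt.df_out (h : Opt N c ω ω') (hx : x ∉ Ob (Os N ω c)) : x ∈ Df N ω' ↔ x ∈ Df N ω := by
  rw [mem_Df, mem_Df, (h.out hx).1, h.sl_out hx]

lemma Opt.df (h : Opt N c ω ω') : x ∈ Df N ω' ↔ x ∈ Df N ω ∧ x ∉ c.2 := by
  refine ⟨fun a => ⟨(h.df_out (h.df_notX a)).1 a, fun b => h.df_notX a (h.pu.subX b)⟩, fun a => ?_⟩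
  exact (h.df_out fun b => a.2 (h.leaf (mem_inter.2 ⟨a.1, b⟩))).2 a.1

/-- seeds swallowed by the repair -/
def Tt (N : ℕ) (ω : St n) (c : ℕ × Finset (Vx n)) (x : Vx n) : Prop :=
  x ∈ Sd N ω ∧ x ∈ Ob (Os N ω c) ∧ x ∉ c.2

/-- two states that look the same from `x` -/
structure Agr (ω ω' : St n) (x : Vx n) : Prop where
  lb : ω'.2 x = ω.2 x
  sl : sl ω'.1 x = sl ω.1 x
  cn : ∀ y, Cn (lab ω') x y ↔ Cn (lab ω) x y
  cl : ∀ y, Cn (lab ω) x y → ω'.2 y = ω.2 y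

lemma Agr.df (h : Agr ω ω' x) : x ∈ Df N ω' ↔ x ∈ Df N ω := by
  rw [mem_Df, mem_Df, h.lb, h.sl]

lemma Agr.sd (h : Agr ω ω' x) : x ∈ Sd N ω' ↔ x ∈ Sd N ω := by
  rw [mem_Sd, mem_Sd, h.lb, h.df]
  refine or_congr_right (or_congr_left (and_congr_right fun _ => forall_congr' fun y => ?_))
  rw [h.cn]
  exact imp_congr_right fun a => by rw [h.cl y a]

lemma ok_congr {j : ℕ} {C : Finset (Vx n)} (h : ∀ x ∈ C, Agr ω ω' x) :
    okS N ω j C ↔ okS N ω' j C := by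
  have e : C ∩ Df N ω = C ∩ Df N ω' := by
    ext x
    simp only [mem_inter]
    exact and_congr_right fun a => (h x a).df.symm
  unfold okS
  rw [← e, sum_congr rfl fun x hx => (h x (mem_inter.1 hx).1).sl]
  refine or_congr_right (and_congr_left fun _ => forall₂_congr fun s hs => forall_congr' fun y => ?_)
  rw [(h s hs).cn]

lemma Opt.agr (h : Opt N c ω ω') (hx : x ∉ Ob (Os N ω c)) : Agr ω ω' x :=
  ⟨(h.out hx).1, h.sl_out hx, fun _ => h.cn_out hx, fun _ a => (h.out (h.cn_far hx a)).1⟩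

lemma Opt.sd (hN : 1 ≤ N) (h : Opt N c ω ω') : x ∈ Sd N ω' ↔ x ∈ Sd N ω ∧ ¬ Tt N ω c x := by
  by_cases hP : x ∈ c.2
  · refine iff_of_true (mem_Sd.2 (Or.inl ?_)) ⟨Df_sub (h.pu.2 hP), fun a => a.2.2 hP⟩
    rw [h.lab2, if_pos hP]
  by_cases hX : x ∈ Ob (Os N ω c)
  · refine iff_of_false ?_ fun a => a.2 ⟨a.1, hX, hP⟩
    have e : ω'.2 x = 2 := by rw [h.lab2, if_neg hP, if_pos hX]
    obtain ⟨p, hp, a⟩ := (h.ob hN).1 hX
    rw [mem_Sd, mem_Df, e]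
    rintro (b | b | b)
    · exact absurd b (by decide)
    · exact b.2 p a.symm (by rw [h.lab2, if_pos hp])
    · exact absurd b.1 (by decide)
  · rw [(h.agr hX).sd]
    exact ⟨fun a => ⟨a, fun b => hX b.2.1⟩, fun a => a.1⟩

lemma Opt.t_notDf (h : Opt N c ω ω') (ht : Tt N ω c x) : x ∉ Df N ω :=
  fun a => ht.2.2 (h.leaf (mem_inter.2 ⟨a, ht.2.1⟩))

lemma Pu.t_lt (h : Pu N ω c) (ht : Tt N ω c x) {j : ℕ} (hj : x ∈ Rm N ω j) : j < c.1 := by
  by_contra a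
  obtain ⟨p, hp⟩ := h.ne
  have h1 := h.close hp ht.2.1
  have := chain c.1
  exact ht.2.2 (Cl.mem_near h.1 hp le_rfl (rem_anti (not_lt.1 a) hj) (by omega))

lemma Pu.t_deep (h : Pu N ω c) (ht : Tt N ω c x) {l : ℕ} {z : Vx n} (hx : x ∈ Lm N ω l)
    (hz : z ∈ Lm N ω l) (hd : ds z x ≤ ra l) (hy : ds z y + ra l ≤ Jr l) : y ∈ Os N ω c := by
  obtain ⟨o, ho, h1⟩ := Ob_near ht.2.1
  have h2 := ds_tri z x o
  rw [ds_comm x o] at h2
  have := chain l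
  exact h.deep (h.t_lt ht (lm_rm hx)) hz ho (by omega) hy

lemma Pu.t_closed (h : Pu N ω c) (ht : Tt N ω c x) {j : ℕ} (hx : x ∈ Rm N ω j)
    (hy : y ∈ Rm N ω j) (hd : ds x y ≤ Ir j) : Tt N ω c y := by
  obtain ⟨l, -, hl⟩ := exists_lm ht.1
  obtain ⟨h1, h2⟩ := lv_near par_Ir hx hy hd hl
  have := chain l
  refine ⟨rm_sd hy, sub_Ob _ (h.t_deep ht hl h1 (ds_comm x y ▸ h2) (by simp; omega)), fun a => ?_⟩
  have := lv_unique h1 (h.lm a)
  have := h.t_lt ht (lm_rm hl)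
  omega

theorem Opt.rm (hN : 1 ≤ N) (h : Opt N c ω ω') (j : ℕ) :
    ∀ x, x ∈ Rm N ω' j ↔ x ∈ Rm N ω j ∧ ¬ Tt N ω c x := by
  induction j with
  | zero => exact fun x => h.sd hN
  | succ j ih =>
    intro x
    have key : x ∈ Rm N ω j → ¬ Tt N ω c x →
        (Iso ra Ir (okS N ω) j (Rm N ω j) x ↔ Iso ra Ir (okS N ω') j (Rm N ω' j) x) := by
      intro hx hT
      have hc := chain j
      have n1 : ∀ y ∈ Rm N ω j, ds x y ≤ ra j → ¬ Tt N ω c y := fun y hy hd a =>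
        hT (h.pu.t_closed a hy hx (by rw [ds_comm]; omega))
      refine iso_congr (fun y hd => ?_) (fun y hy hd y' hd' => ?_) fun hg => ?_
      · rw [ih]; exact ⟨fun a => ⟨a, n1 y a hd⟩, fun a => a.1⟩
      · rw [ih]
        exact ⟨fun a => ⟨a, fun b => n1 y hy hd (h.pu.t_closed b a hy (ds_comm y y' ▸ hd'))⟩,
          fun a => a.1⟩
      by_cases hP : x ∈ c.2
      swap
      · refine ok_congr fun y hy => h.agr fun a => ?_
        rw [mem_filter] at hy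
        by_cases hy' : y ∈ c.2
        · exact hP (Cl.mem_near h.pu.1 hy' (lv_le hy.1 (h.pu.lm hy')) hx (by rw [ds_comm]; omega))
        · exact n1 y hy.1 hy.2 ⟨rm_sd hy.1, a, hy'⟩
      have hj : j ≤ c.1 := lv_le hx (h.pu.lm hP)
      have hsub : ∀ y ∈ (Rm N ω j).filter fun y => ds x y ≤ ra j, y ∈ c.2 := fun y hy =>
        Cl.mem_near h.pu.1 hP hj (mem_filter.1 hy).1 (by have := (mem_filter.1 hy).2; omega)
      rcases hj.eq_or_lt with e | hj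
      · refine iff_of_true ?_ ?_
        · have := (mem_lv.1 (h.pu.lm hP)).2.2
          rw [← e] at this
          exact this
        · rcases h.pu.conf with a | a
          · exact Or.inl (e ▸ a)
          refine Or.inr ⟨fun s hs y hy => ?_, ?_⟩
          · have := a s (hsub s hs) y ((h.ob hN).2 ⟨s, hsub s hs, hy⟩)
            rw [← e] at this
            omega
          · rw [sum_eq_zero fun y hy => absurd (hsub y (mem_inter.1 hy).1)
              (h.df.1 (mem_inter.1 hy).2).2]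
            have : 0 < ra j := by omega
            positivity
      · have no : ¬ okS N ω j ((Rm N ω j).filter fun y => ds x y ≤ ra j) := fun a => by
          have := lv_unique (mem_lv.2 ⟨hx, hg, a⟩) (h.pu.lm hP)
          omega
        refine iff_of_false no ?_
        unfold okS at no ⊢
        push Not at no ⊢
        refine ⟨no.1, fun a => absurd ?_ (not_le.2 (Nat.lt_succ_self (4 * ra j)))⟩
        have hm := no.2 fun s hs y hy => by
          rw [hy.eq_of_notMem fun b => mem_lab.1 b (mem_Df.1 (h.pu.2 (hsub s hs))).1]; simp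
        have hv : Hv N (sl ω.1) c.2 x (ra j) := ⟨hP, by omega, hm.trans (sum_le_sum_of_subset
          fun y hy => mem_filter.2 ⟨hsub y (mem_inter.1 hy).1, (mem_filter.1 (mem_inter.1 hy).1).2⟩)⟩
        obtain ⟨b, hb⟩ := exists_ds (r := 4 * ra j + 1) x (by have := no.1; omega)
        have := a x (mem_filter.2 ⟨hx, by simp⟩) b (cn_ball (r := 5 * ra j)
          (fun z hz => h.lab_in (sub_Ob _ (heavy_sub hv hj hz))) (by omega))
        omega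
    have e1 : x ∈ Rm N ω' (j + 1) ↔ x ∈ Rm N ω' j ∧ ¬ Iso ra Ir (okS N ω') j (Rm N ω' j) x :=
      mem_rem_succ
    have e2 : x ∈ Rm N ω (j + 1) ↔ x ∈ Rm N ω j ∧ ¬ Iso ra Ir (okS N ω) j (Rm N ω j) x :=
      mem_rem_succ
    rw [e1, e2, ih]
    tauto

lemma Opt.lm (hN : 1 ≤ N) (h : Opt N c ω ω') {l : ℕ} :
    x ∈ Lm N ω' l ↔ x ∈ Lm N ω l ∧ ¬ Tt N ω c x := by
  rw [mem_lm, mem_lm, h.rm hN, h.rm hN]
  tauto

lemma Opt.cl (hN : 1 ≤ N) (h : Opt N c ω ω') {l : ℕ} {C : Finset (Vx n)} :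
    Cl N ω' l C ↔ Cl N ω l C ∧ ∀ x ∈ C, ¬ Tt N ω c x := by
  have hc := chain l
  have key : ∀ x ∈ Rm N ω l, ¬ Tt N ω c x → ((Rm N ω' l).filter fun y => ds x y ≤ ra l) =
      (Rm N ω l).filter fun y => ds x y ≤ ra l := fun x hx hT => by
    ext y
    simp only [mem_filter, h.rm hN]
    exact ⟨fun a => ⟨a.1.1, a.2⟩, fun a => ⟨⟨a.1, fun b =>
      hT (h.pu.t_closed b a.1 hx (by rw [ds_comm]; omega))⟩, a.2⟩⟩
  constructor
  · rintro ⟨x, hx, rfl⟩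
    obtain ⟨h1, h2⟩ := (h.lm hN).1 hx
    exact ⟨⟨x, h1, key x (lm_rm h1) h2⟩, fun y hy => ((h.rm hN l y).1 (mem_filter.1 hy).1).2⟩
  · rintro ⟨⟨x, hx, rfl⟩, h2⟩
    have h3 := h2 x (mem_filter.2 ⟨lv_rem hx, by simp⟩)
    exact ⟨x, (h.lm hN).2 ⟨hx, h3⟩, (key x (lm_rm hx) h3).symm⟩

lemma Cl.eq_of_mem (h : Cl N ω c.1 c.2) (h' : Cl N ω c'.1 c'.2) (hx : x ∈ c.2) (hx' : x ∈ c'.2) :
    c = c' := by
  obtain ⟨a, b⟩ := IsCl.unique par_Ir h h' hx hx'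
  exact Prod.ext a b

theorem Opt.pu_iff (hN : 1 ≤ N) (h : Opt N c ω ω') : Pu N ω' c' ↔ Pu N ω c' ∧ c' ≠ c := by
  constructor
  · intro a
    refine ⟨⟨((h.cl hN).1 a.1).1, fun x hx => (h.df.1 (a.2 hx)).1⟩, ?_⟩
    rintro rfl
    obtain ⟨p, hp⟩ := a.ne
    exact (h.df.1 (a.2 hp)).2 hp
  · rintro ⟨a, b⟩
    exact ⟨(h.cl hN).2 ⟨a.1, fun x hx t => h.t_notDf t (a.2 hx)⟩,
      fun x hx => h.df.2 ⟨a.2 hx, fun t => b (Cl.eq_of_mem a.1 h.pu.1 hx t)⟩⟩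

/-- a point of another cluster of level at most `c.1`, not swallowed, is far from the region -/
lemma Pu.far (h : Pu N ω c) {l : ℕ} (hl : l ≤ c.1) (hx : x ∈ Lm N ω l) (hP : x ∉ c.2)
    (hT : ¬ Tt N ω c x) (hy : y ∈ Os N ω c) : Jr l < 2 * ds x y := by
  have hc := chain l
  by_contra a
  rcases hl.eq_or_lt with e | hl
  · obtain ⟨p, hp⟩ := h.ne
    have h1 := h.close hp (sub_Ob _ hy)
    have h2 := ds_tri p y x
    rw [ds_comm y x] at h2
    rw [← e] at h1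
    exact hP (Cl.mem_near h.1 hp e.le (lm_rm hx) (by omega))
  · exact hT ⟨rm_sd (lm_rm hx), sub_Ob _ (h.deep hl hx hy (by omega) (by simp; omega)), hP⟩

theorem Opt.reg' (hN : 1 ≤ N) (h : Opt N c ω ω') : Reg N ω' := by
  refine ⟨⟨by rw [h.hgt, sub_self], fun x hx => ?_⟩, fun k C hC hn => ?_, fun c' hc' => ?_⟩
  · by_cases hX : x ∈ Ob (Os N ω c)
    · have h1 : sl ω'.1 x ≤ (oe x).card • (10000 * N) := sum_le_card_nsmul _ _ _ fun e he => by
        have := h.slope hN hX e he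
        rw [← Int.natCast_natAbs] at this
        exact_mod_cast this
      have h2 := oe_card x
      rw [smul_eq_mul] at h1
      nlinarith
    · rw [h.sl_out hX]
      exact h.reg.fil x ((h.out hX).1 ▸ hx)
  · obtain ⟨d, hd⟩ := hn
    rw [mem_inter, h.df] at hd
    have h1 := ((h.cl hN).1 hC).1
    have h2 := h.reg.pure k C h1 ⟨d, mem_inter.2 ⟨hd.1, hd.2.1⟩⟩
    refine fun x hx => h.df.2 ⟨h2 hx, fun a => hd.2.2 ?_⟩
    rw [← (IsCl.unique par_Ir h1 h.pu.1 hx a).2]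
    exact hd.1
  · intro y hy p' hp' hd
    obtain ⟨h1, h2⟩ := (h.pu_iff hN).1 hc'
    by_cases hX : y ∈ Ob (Os N ω c)
    · obtain ⟨p, hp⟩ := h.pu.ne
      rcases lt_or_ge c.1 c'.1 with a | a
      · exact ⟨c.1, a, p, (h.lm hN).2 ⟨h.pu.lm hp, fun t => t.2.2 hp⟩, h.pu.close hp hX⟩
      · obtain ⟨o, ho, h3⟩ := Ob_near hX
        have h4 := h.pu.far a (h1.lm hp') (h.df.1 (hc'.2 hp')).2
          (fun t => h.t_notDf t (h1.2 hp')) ho
        have h5 := ds_tri p' y o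
        rw [ds_comm y o] at h5
        have := chain c'.1
        omega
    · rw [h.lab_eq, mem_union] at hy
      obtain ⟨l, hl, z, hz, h3⟩ := h.reg.sc c' h1 y (hy.resolve_right hX) p' hp' hd
      refine ⟨l, hl, z, (h.lm hN).2 ⟨hz, fun t => hX (sub_Ob _ ?_)⟩, h3⟩
      have := chain l
      exact h.pu.t_deep t hz hz (by simp) (by omega)

theorem Opt.os_eq (hN : 1 ≤ N) (h : Opt N c ω ω') (hc : Pu N ω' c') :
    Os N ω' c' = Os N ω c' := by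
  obtain ⟨h1, h2⟩ := (h.pu_iff hN).1 hc
  refine O_congr (fun p hp => (h.sl_out (h.df_notX (hc.2 hp))).symm) fun l hl z => ?_
  by_cases hz : z ∈ Lm N ω l ∧ Tt N ω c z
  swap
  · left; rw [h.lm hN]; tauto
  right
  obtain ⟨hz, t⟩ := hz
  have hk := h.pu.t_lt t (lm_rm hz)
  obtain ⟨p, hp⟩ := h.pu.ne
  have d1 := h.pu.close hp t.2.1
  have j1 := Jr_ra hk
  have j2 := Jr_ra hl
  have c1 := chain c.1
  have c2 := chain c'.1
  rcases lt_or_ge c.1 c'.1 with a | a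
  · rcases O_dich (N := N) (μ := sl ω.1) (sp_of_cl h1.1) a (h.pu.lm hp) with b | b
    · left
      intro y hy
      have := ds_tri p z y
      exact ol_mono (by omega) (b y (by omega))
    · right
      intro y hy
      have := b y hy
      have := ds_tri p z y
      omega
  · right
    intro y hy
    obtain ⟨p', hp'⟩ := h1.ne
    obtain ⟨o, ho, h3⟩ := Ob_near t.2.1
    have h4 := h.pu.far a (h1.lm hp') (h.df.1 (hc.2 hp')).2 (fun t => h.t_notDf t (h1.2 hp')) ho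
    have h5 := h1.close hp' (sub_Ob _ hy)
    have h6 := ds_tri p' y o
    have h7 := ds_tri y z o
    rw [ds_comm y z, ds_comm z o] at h7
    omega

theorem Opt.lam_eq (hN : 1 ≤ N) (h : Opt N c ω ω') {G : Set (ℕ × Finset (Vx n))} (hG : c ∉ G) :
    Lam N ω' G = Lam N ω G := by
  classical
  ext y
  simp only [Lam, mem_filter, mem_univ, true_and]
  rw [h.lab_eq, mem_union]
  constructor
  · rintro ((a | a) | ⟨c', a1, a2, a3⟩)
    · exact Or.inl a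
    · exact Or.inr ⟨c, h.pu, hG, a⟩
    · exact Or.inr ⟨c', ((h.pu_iff hN).1 a1).1, a2, h.os_eq hN a1 ▸ a3⟩
  · rintro (a | ⟨c', a1, a2, a3⟩)
    · exact Or.inl (Or.inl a)
    · by_cases e : c' = c
      · exact Or.inl (Or.inr (e ▸ a3))
      · have := (h.pu_iff hN).2 ⟨a1, e⟩
        exact Or.inr ⟨c', this, a2, (h.os_eq hN this).symm ▸ a3⟩

end Pool.Agent.Lib.MP_9cc147_pr.Mono
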