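import Pool.Agent.Lib.MP_9cc147_pr.MDef

/-! Generic facts on multiscale clusters, scale inequalities. -/

open Finset

namespace Pool.Agent.Lib.MP_9cc147_pr.Mono

variable {n : ℕ}

section generic

variable {R I : ℕ → ℕ} {ok ok' : ℕ → Finset (Vx n) → Prop} {X X' C C' : Finset (Vx n)}
  {j k l : ℕ} {x y a b : Vx n}

lemma mem_rem_succ : x ∈ Rem R I ok X (j + 1) ↔
    x ∈ Rem R I ok X j ∧ ¬ Iso R I ok j (Rem R I ok X j) x := by
  classical
  rw [Rem, mem_filter]

lemma rem_anti (h : j ≤ k) : Rem R I ok X k ⊆ Rem R I ok X j := by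
  induction h with
  | refl => exact Subset.rfl
  | step _ ih => exact fun x hx => ih (mem_rem_succ.1 hx).1

lemma rem_sub : Rem R I ok X j ⊆ X := rem_anti (Nat.zero_le j)

lemma mem_lv : x ∈ Lv R I ok X j ↔ x ∈ Rem R I ok X j ∧ Iso R I ok j (Rem R I ok X j) x := by
  rw [Lv, mem_sdiff, mem_rem_succ]; tauto

lemma lv_rem (h : x ∈ Lv R I ok X j) : x ∈ Rem R I ok X j := (mem_lv.1 h).1

lemma lv_le (h : x ∈ Rem R I ok X j) (h' : x ∈ Lv R I ok X k) : j ≤ k := by
  by_contra hc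
  exact (mem_sdiff.1 h').2 (rem_anti (by omega) h)

lemma lv_unique (h : x ∈ Lv R I ok X j) (h' : x ∈ Lv R I ok X k) : j = k :=
  le_antisymm (lv_le (lv_rem h) h') (lv_le (lv_rem h') h)

lemma Iso.filter_eq (hP : Par R I) (h : Iso R I ok j X x) (hy : y ∈ X) (hd : ds x y ≤ R j) :
    (X.filter fun z => ds y z ≤ R j) = X.filter fun z => ds x z ≤ R j := by
  ext z
  simp only [mem_filter]
  have h2 := hP.two j
  refine and_congr_right fun hz => ⟨fun a => (h.1 y hy z hz hd (by omega)).2, fun a => ?_⟩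
  have := ds_tri y x z
  rw [ds_comm y x] at this
  exact (h.1 y hy z hz hd (by omega)).1

lemma Iso.nbr (hP : Par R I) (h : Iso R I ok j X x) (hy : y ∈ X) (hd : ds x y ≤ R j) :
    Iso R I ok j X y := by
  have e := h.filter_eq hP hy hd
  refine ⟨fun z hz z' hz' h1 h2 => ?_, e ▸ h.2⟩
  have a1 : z ∈ X.filter fun z => ds x z ≤ R j := e ▸ mem_filter.2 ⟨hz, h1⟩
  have a2 := h.1 z hz z' hz' (mem_filter.1 a1).2 h2
  have a3 : z' ∈ X.filter fun z => ds y z ≤ R j := e ▸ mem_filter.2 ⟨hz', a2.2⟩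
  exact ⟨a2.1, (mem_filter.1 a3).2⟩

/-- `Iso` only looks at the points reached in two steps -/
lemma iso_congr (h1 : ∀ y, ds x y ≤ R j → (y ∈ X ↔ y ∈ X'))
    (h2 : ∀ y ∈ X, ds x y ≤ R j → ∀ y', ds y y' ≤ I j → (y' ∈ X ↔ y' ∈ X'))
    (h3 : (∀ y ∈ X, ∀ y' ∈ X, ds x y ≤ R j → ds y y' ≤ I j → ds y y' ≤ R j ∧ ds x y' ≤ R j) →
      (ok j (X.filter fun y => ds x y ≤ R j) ↔ ok' j (X.filter fun y => ds x y ≤ R j))) :
    Iso R I ok j X x ↔ Iso R I ok' j X' x := by
  have e : (X.filter fun y => ds x y ≤ R j) = X'.filter fun y => ds x y ≤ R j := by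
    ext y; simp only [mem_filter]; exact and_congr_left (h1 y)
  have g : (∀ y ∈ X, ∀ y' ∈ X, ds x y ≤ R j → ds y y' ≤ I j → ds y y' ≤ R j ∧ ds x y' ≤ R j) ↔
      ∀ y ∈ X', ∀ y' ∈ X', ds x y ≤ R j → ds y y' ≤ I j → ds y y' ≤ R j ∧ ds x y' ≤ R j :=
    ⟨fun h y hy y' hy' a b => h y ((h1 y a).2 hy) y' ((h2 y ((h1 y a).2 hy) a y' b).2 hy') a b,
      fun h y hy y' hy' a b => h y ((h1 y a).1 hy) y' ((h2 y hy a y' b).1 hy') a b⟩
  unfold Iso
  rw [← e, ← g]
  exact and_congr_right h3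

lemma rem_near (hP : Par R I) (hb : b ∈ Rem R I ok X j) (hd : ds a b ≤ I j) (hj : j ≤ k)
    (ha : a ∈ Rem R I ok X k) : b ∈ Rem R I ok X k := by
  induction hj with
  | refl => exact hb
  | @step m hm ih =>
    obtain ⟨a1, a2⟩ := mem_rem_succ.1 ha
    refine mem_rem_succ.2 ⟨ih a1, fun h => a2 (h.nbr hP a1 ?_)⟩
    exact (h.1 b (ih a1) a a1 (by simp) (ds_comm a b ▸ hd.trans (hP.monoI hm))).2

/-- points that are close at some level end in the same cluster -/
lemma lv_near (hP : Par R I) (ha : a ∈ Rem R I ok X j) (hb : b ∈ Rem R I ok X j) (hd : ds a b ≤ I j)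
    (hk : a ∈ Lv R I ok X k) : b ∈ Lv R I ok X k ∧ ds a b ≤ R k := by
  have hj := lv_le ha hk
  obtain ⟨a1, a2⟩ := mem_lv.1 hk
  have b1 := rem_near hP hb hd hj a1
  have := (a2.1 a a1 b b1 (by simp) (hd.trans (hP.monoI hj))).2
  exact ⟨mem_lv.2 ⟨b1, a2.nbr hP b1 this⟩, this⟩

lemma rem_empty (hn : n ≤ R j) (hok : ∀ C, ok j C) : Rem R I ok X (j + 1) = ∅ :=
  eq_empty_of_forall_notMem fun _ hx => (mem_rem_succ.1 hx).2
    ⟨fun _ _ _ _ _ _ => ⟨(ds_le _ _).trans hn, (ds_le _ _).trans hn⟩, hok _⟩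

lemma exists_lv (h : Rem R I ok X k = ∅) (hx : x ∈ X) : ∃ j < k, x ∈ Lv R I ok X j := by
  by_contra hc
  push Not at hc
  have : ∀ j ≤ k, x ∈ Rem R I ok X j := by
    intro j
    induction j with
    | zero => exact fun _ => hx
    | succ j ih =>
      intro hj
      by_contra h2
      exact hc j hj (mem_sdiff.2 ⟨ih (by omega), h2⟩)
  simpa [h] using this k le_rfl

lemma lv_isCl (h : x ∈ Lv R I ok X k) :
    IsCl R I ok X k ((Rem R I ok X k).filter fun y => ds x y ≤ R k) := ⟨x, h, rfl⟩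

lemma lv_exists_cl (h : x ∈ Lv R I ok X k) : ∃ C, IsCl R I ok X k C ∧ x ∈ C :=
  ⟨_, lv_isCl h, mem_filter.2 ⟨lv_rem h, by simp⟩⟩

lemma IsCl.nonempty (h : IsCl R I ok X k C) : C.Nonempty := by
  obtain ⟨x, hx, rfl⟩ := h
  exact ⟨x, mem_filter.2 ⟨lv_rem hx, by simp⟩⟩

lemma IsCl.lv (hP : Par R I) (h : IsCl R I ok X k C) (hy : y ∈ C) : y ∈ Lv R I ok X k := by
  obtain ⟨x, hx, rfl⟩ := h
  rw [mem_filter] at hy
  exact mem_lv.2 ⟨hy.1, (mem_lv.1 hx).2.nbr hP hy.1 hy.2⟩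

lemma IsCl.eq (hP : Par R I) (h : IsCl R I ok X k C) (hy : y ∈ C) :
    C = (Rem R I ok X k).filter fun z => ds y z ≤ R k := by
  obtain ⟨x, hx, rfl⟩ := h
  rw [mem_filter] at hy
  exact ((mem_lv.1 hx).2.filter_eq hP hy.1 hy.2).symm

lemma IsCl.isOk (h : IsCl R I ok X k C) : ok k C := by
  obtain ⟨x, hx, rfl⟩ := h
  exact (mem_lv.1 hx).2.2

lemma IsCl.diam (hP : Par R I) (h : IsCl R I ok X k C) (ha : a ∈ C) (hb : b ∈ C) : ds a b ≤ R k := by
  rw [h.eq hP ha] at hb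
  exact (mem_filter.1 hb).2

/-- a point that is close to a point of the cluster at some level is in the cluster -/
lemma IsCl.mem_of_near (hP : Par R I) (h : IsCl R I ok X k C) (ha : a ∈ C) (hj : j ≤ k)
    (hb : b ∈ Rem R I ok X j) (hd : ds a b ≤ I j) : b ∈ C := by
  have h1 := h.lv hP ha
  have h2 := lv_near hP (rem_anti hj (lv_rem h1)) hb hd h1
  rw [h.eq hP ha]
  exact mem_filter.2 ⟨lv_rem h2.1, h2.2⟩

lemma IsCl.unique (hP : Par R I) (h : IsCl R I ok X k C) (h' : IsCl R I ok X l C') (ha : a ∈ C)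
    (ha' : a ∈ C') : k = l ∧ C = C' := by
  obtain rfl := lv_unique (h.lv hP ha) (h'.lv hP ha')
  exact ⟨rfl, (h.eq hP ha).trans (h'.eq hP ha').symm⟩

lemma rem_mono (h : X ⊆ X') (j : ℕ) : Rem R I okT X j ⊆ Rem R I okT X' j := by
  induction j with
  | zero => exact h
  | succ j ih =>
    intro x hx
    obtain ⟨a1, a2⟩ := mem_rem_succ.1 hx
    exact mem_rem_succ.2 ⟨ih a1, fun b => a2
      ⟨fun y hy y' hy' => b.1 y (ih hy) y' (ih hy'), trivial⟩⟩

lemma Cn.refl (X : Finset (Vx n)) (a : Vx n) : Cn X a a := Relation.ReflTransGen.refl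

lemma Cn.trans {c : Vx n} (h : Cn X a b) (h' : Cn X b c) : Cn X a c :=
  Relation.ReflTransGen.trans h h'

lemma Cn.step (ha : a ∈ X) (hb : b ∈ X) (hd : ds a b ≤ 1) : Cn X a b :=
  Relation.ReflTransGen.single ⟨ha, hb, hd⟩

lemma Cn.symm (h : Cn X a b) : Cn X b a := by
  induction h with
  | refl => exact Cn.refl _ _
  | tail _ h ih => exact (Cn.step h.2.1 h.1 (ds_comm _ _ ▸ h.2.2)).trans ih

lemma Cn.mono (h : Cn X a b) (hX : X ⊆ X') : Cn X' a b := by
  induction h with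
  | refl => exact Cn.refl _ _
  | tail _ h ih => exact ih.trans (Cn.step (hX h.1) (hX h.2.1) h.2.2)

lemma Cn.mem (h : Cn X a b) (ha : a ∈ X) : b ∈ X := by
  induction h with
  | refl => exact ha
  | tail _ h _ => exact h.2.1

lemma Cn.eq_of_notMem (h : Cn X a b) (ha : a ∉ X) : b = a := by
  induction h with
  | refl => rfl
  | tail _ h ih => exact absurd (ih ▸ h.1) ha

/-- induction along a connection -/
lemma Cn.ind {p : Vx n → Prop} (h : Cn X a b) (ha : p a)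
    (hs : ∀ x ∈ X, ∀ y ∈ X, ds x y ≤ 1 → p x → p y) : p b := by
  induction h with
  | refl => exact ha
  | tail _ h ih => exact hs _ h.1 _ h.2.1 h.2.2 ih

/-- a connection stays in a closed part of `X` and only depends on that part -/
lemma Cn.restrict {p : Vx n → Prop} (h : Cn X a b) (ha : p a)
    (hs : ∀ x ∈ X, ∀ y ∈ X, ds x y ≤ 1 → p x → p y) (hX : ∀ x ∈ X, p x → x ∈ X') : Cn X' a b := by
  refine (h.ind (p := fun y => p y ∧ Cn X' a y) ⟨ha, Cn.refl _ _⟩ fun x hx y hy hd e => ?_).2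
  have := hs x hx y hy hd e.1
  exact ⟨this, e.2.trans (Cn.step (hX x hx e.1) (hX y hy this) hd)⟩

/-- squares are connected -/
lemma cn_ball {r : ℕ} (h : ∀ z, ds a z ≤ r → z ∈ X) (hb : ds a b ≤ r) : Cn X a b := by
  have key : ∀ m : ℕ, ∀ b, ds a b = m → m ≤ r → Cn X a b := by
    intro m
    induction m with
    | zero =>
      intro b hb _
      by_cases e : a = b
      · exact e ▸ Cn.refl _ _
      · have := ds_pos e; omega
    | succ m ih =>
      intro b hb hm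
      have := a.1.2; have := a.2.2; have := b.1.2; have := b.2.2
      have st : ∀ s t : Fin (n + 1), ∃ t' : Fin (n + 1), ((t' : ℤ) - t).natAbs ≤ 1 ∧
          ((s : ℤ) - t').natAbs = ((s : ℤ) - t).natAbs - 1 := by
        intro s t
        have := s.2; have := t.2
        rcases lt_trichotomy s.val t.val with h | h | h
        · exact ⟨⟨t.val - 1, by omega⟩, by simp only; omega, by simp only; omega⟩
        · exact ⟨t, by omega, by omega⟩
        · exact ⟨⟨t.val + 1, by omega⟩, by simp only; omega, by simp only; omega⟩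
      obtain ⟨t1, p1, q1⟩ := st a.1 b.1
      obtain ⟨t2, p2, q2⟩ := st a.2 b.2
      have e : ds a (t1, t2) = m := by unfold ds at hb ⊢; simp only; omega
      exact (ih _ e (by omega)).trans (Cn.step (h _ (by omega)) (h _ (by omega))
        (by unfold ds; simp only; omega))
  exact key _ b rfl hb

lemma exists_ds {r : ℕ} (a : Vx n) (h : 2 * r ≤ n + 1) : ∃ b, ds a b = r := by
  have := a.1.2
  by_cases c : r ≤ a.1.val
  · exact ⟨(⟨a.1.val - r, by omega⟩, a.2), by unfold ds; simp only; omega⟩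
  · exact ⟨(⟨a.1.val + r, by omega⟩, a.2), by unfold ds; simp only; omega⟩

lemma rem_cn (hP : Par R I) (h : Cn X a b) (ha : a ∈ Rem R I ok X j) : b ∈ Rem R I ok X j := by
  refine h.ind ha fun x _ y hy hd hx => rem_near hP (j := 0) hy ?_ (Nat.zero_le _) hx
  have := hP.two 0; have := hP.pos 0; omega

/-- a long connected piece survives -/
lemma rem_of_cn (hP : Par R I) (h : Cn X a b) (ha : a ∈ X) (hd : R j < ds a b) :
    a ∈ Rem R I ok X (j + 1) := by
  have key : ∀ i ≤ j + 1, a ∈ Rem R I ok X i := by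
    intro i
    induction i with
    | zero => exact fun _ => ha
    | succ i ih =>
      intro hi
      have a1 := ih (by omega)
      refine mem_rem_succ.2 ⟨a1, fun hI => ?_⟩
      have := (h.ind (p := fun y => y ∈ Rem R I ok X i ∧ ds a y ≤ R i) ⟨a1, by simp⟩
        fun x hx y hy hd e => by
          have b1 := rem_cn hP (Cn.step hx hy hd) e.1
          have := hP.two i; have := hP.pos i
          exact ⟨b1, (hI.1 x e.1 y b1 e.2 (by omega)).2⟩).2
      have := hP.monoR (by omega : i ≤ j)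
      omega
  exact key _ le_rfl

end generic

/-! ### scales -/

lemma rr_add (i j : ℕ) : rr (i + j) = 64 ^ j * rr i := by unfold rr; ring

lemma aa_ge (j : ℕ) : 1000 + 500 * j ≤ aa j := by
  induction j with
  | zero => simp [aa]
  | succ j ih => rw [aa]; omega

lemma aa_lt {j k : ℕ} (h : j < k) : aa j + aa j / 2 ≤ aa k := by
  induction h with
  | refl => rw [aa]
  | step _ ih => rw [aa]; omega

lemma aa_mono {j k : ℕ} (h : j ≤ k) : aa j ≤ aa k := by
  rcases h.eq_or_lt with rfl | h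
  · rfl
  · have := aa_lt h; omega

lemma ra_pos (j : ℕ) : 1000 ≤ ra j :=
  le_trans (by decide : 1000 ≤ rr 2) (rr_mono (by have := aa_ge j; omega))
lemma ra_mono {j k : ℕ} (h : j ≤ k) : ra j ≤ ra k := rr_mono (aa_mono h)
lemma lt_ra (j : ℕ) : j < ra j :=
  lt_of_le_of_lt (by have := aa_ge j; omega) (Nat.lt_pow_self (n := aa j) (by norm_num))
lemma Jr_eq (j : ℕ) : Jr j = 64 ^ (j + 3) * ra j := by rw [Jr, ra, ← rr_add, add_assoc]
lemma ra_Jr (j : ℕ) : 262144 * ra j ≤ Jr j := by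
  have := rr_add (aa j) 3
  have h2 : rr (aa j + 3) ≤ Jr j := rr_mono (by omega)
  unfold ra; omega
lemma Ir_eq (j : ℕ) : Ir j = 4096 * Jr j := rr_add (aa j + j + 3) 2
lemma be_eq (j : ℕ) : be j = 64 * Ir j := rr_succ _
lemma tb_eq (j : ℕ) : tb j = 64 * be j := rr_succ _
lemma kb_eq (j : ℕ) : rr (kb j) = 4096 * tb j := rr_add (aa j + j + 7) 2
lemma kb_Ib (j : ℕ) : 64 * rr (kb j) ≤ Ib j := rr_lt (by omega)
lemma Ip_eq (j : ℕ) : Ip j = 64 * Ib j := rr_succ _
lemma kb_lt {j k : ℕ} (h : j < k) : kb j + kb j / 4 + 5 ≤ aa k := by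
  have := aa_lt h; have := aa_ge j; unfold kb; omega
/-- every length of level `j` is negligible at a higher level -/
lemma Ip_ra {j k : ℕ} (h : j < k) : 262144 * Ip j ≤ ra k := by
  have h1 := rr_add (kb j + kb j / 4 + 2) 3
  have h2 : rr (kb j + kb j / 4 + 2 + 3) ≤ ra k := rr_mono (kb_lt h)
  unfold Ip; omega
/-- the chain of lengths of one level -/
lemma chain (j : ℕ) : 1000 ≤ ra j ∧ 262144 * ra j ≤ Jr j ∧ Ir j = 4096 * Jr j ∧ be j = 64 * Ir j ∧
    tb j = 64 * be j ∧ 262144 * tb j ≤ Ib j ∧ Ip j = 64 * Ib j :=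
  ⟨ra_pos j, ra_Jr j, Ir_eq j, be_eq j, tb_eq j, by have := kb_Ib j; have := kb_eq j; omega, Ip_eq j⟩

lemma mono_of {f : ℕ → ℕ} (h : ∀ j, ra j ≤ f j ∧ f j ≤ Ip j) : Monotone f := by
  intro j k hjk
  rcases hjk.eq_or_lt with rfl | hjk
  · rfl
  · have := h j; have := h k; have := Ip_ra hjk; omega

lemma Jr_mono : Monotone Jr := mono_of fun j => by have := chain j; omega
lemma Ir_mono : Monotone Ir := mono_of fun j => by have := chain j; omega
lemma be_mono : Monotone be := mono_of fun j => by have := chain j; omega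
lemma par_Ir : Par ra Ir :=
  ⟨fun j => by have := chain j; omega, fun j => by have := chain j; omega, fun _ _ => ra_mono, Ir_mono⟩
lemma par_Ip : Par ra Ip :=
  ⟨fun j => by have := chain j; omega, fun j => by have := chain j; omega, fun _ _ => ra_mono,
    mono_of fun j => by have := chain j; omega⟩
lemma par_Ib : Par tb Ib :=
  ⟨fun j => by have := chain j; omega, fun j => by have := chain j; omega,
    mono_of fun j => by have := chain j; omega, mono_of fun j => by have := chain j; omega⟩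

/-! ### frozen sets -/

lemma mem_AA {X : Finset (Vx n)} {y : Vx n} :
    y ∈ AA X ↔ ∃ k, ∃ x ∈ Rem ra Ip okT X k, ds x y ≤ be k := by
  classical
  simp [AA]

lemma sub_AA (X : Finset (Vx n)) : X ⊆ AA X := fun x hx => mem_AA.2 ⟨0, x, hx, by simp⟩

lemma AA_mono {X X' : Finset (Vx n)} (h : X ⊆ X') : AA X ⊆ AA X' := fun _ hy => by
  obtain ⟨k, x, hx, hd⟩ := mem_AA.1 hy
  exact mem_AA.2 ⟨k, x, rem_mono h k hx, hd⟩

lemma Bad.mono {X X' : Finset (Vx n)} (hb : Bad X) (h : X ⊆ X') : Bad X' :=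
  hb.imp (fun a => h a) fun ⟨k, x, hx, hd⟩ => ⟨k, x, rem_mono h k hx, hd⟩

/-! ### clusters of a state -/

variable {N : ℕ} {ω : St n}

lemma mem_lab {x : Vx n} : x ∈ lab ω ↔ ω.2 x ≠ 0 := by simp [lab]
lemma mem_Df {x : Vx n} : x ∈ Df N ω ↔ ω.2 x = 0 ∧ 4 * N < sl ω.1 x := by simp [Df]
lemma mem_Sd {x : Vx n} : x ∈ Sd N ω ↔
    ω.2 x = 1 ∨ (ω.2 x = 2 ∧ ∀ y, Cn (lab ω) x y → ω.2 y ≠ 1) ∨ x ∈ Df N ω := by
  classical
  simp only [Sd, mem_filter, mem_univ, true_and]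

lemma Df_sub : Df N ω ⊆ Sd N ω := fun _ h => mem_Sd.2 (Or.inr (Or.inr h))

lemma rm_empty : Rm N ω (n + 1) = ∅ :=
  rem_empty (lt_ra n).le fun _ => Or.inl (by have := lt_ra n; omega)

lemma exists_lm {x : Vx n} (hx : x ∈ Sd N ω) : ∃ k ≤ n, x ∈ Lm N ω k := by
  obtain ⟨k, hk, h⟩ := exists_lv rm_empty hx
  exact ⟨k, by omega, h⟩

lemma Cl.level_le {k : ℕ} {C : Finset (Vx n)} (h : Cl N ω k C) : k ≤ n := by
  obtain ⟨x, hx⟩ := IsCl.nonempty h
  obtain ⟨j, hj, h'⟩ := exists_lm (rem_sub (lv_rem (IsCl.lv par_Ir h hx)))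
  exact lv_unique h' (IsCl.lv par_Ir h hx) ▸ hj

/-- every label is connected to a seed -/
lemma exists_seed {y : Vx n} (hy : y ∈ lab ω) : ∃ s ∈ Sd N ω, s ∈ lab ω ∧ Cn (lab ω) s y := by
  by_cases h : y ∈ Sd N ω
  · exact ⟨y, h, hy, Cn.refl _ _⟩
  · rw [mem_Sd] at h
    push Not at h
    have h2 : ω.2 y = 2 := by
      have := mem_lab.1 hy
      have := h.1
      omega
    obtain ⟨s, hs, h1⟩ := h.2.1 h2
    exact ⟨s, mem_Sd.2 (Or.inl h1), hs.mem hy, hs.symm⟩

lemma sp_of_cl {k : ℕ} {C : Finset (Vx n)} (h : Cl N ω k C) : SP (Lm N ω) k C := by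
  refine ⟨fun l hl z hz p hp => ?_, fun l l' h1 _ z hz z' hz' hd => ?_,
    fun p hp q hq => IsCl.diam par_Ir h hp hq⟩
  · by_contra hc
    have := IsCl.mem_of_near par_Ir h hp hl.le (lv_rem hz) (ds_comm z p ▸ not_lt.1 hc)
    have := lv_unique hz (IsCl.lv par_Ir h this)
    omega
  · have := lv_near par_Ir (lv_rem hz) (rem_anti h1 (lv_rem hz')) hd hz
    exact ⟨lv_unique this.1 hz', this.2⟩

end Pool.Agent.Lib.MP_9cc147_pr.Mono
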