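import Pool.Agent.Lib.MP_9cc147_pr.MAc
import Pool.Agent.Lib.MP_9cc147_pr.MPei

/-! From the estimate for rigid bodies to the estimate for the true weight. -/

open Finset
open scoped ENNReal

namespace Pool.Agent.Lib.MP_9cc147_pr.Mono

variable {n N : ℕ} {u : ℤ → ℝ} {β ε S : ℝ}

lemma prod_wv (u : ℤ → ℝ) {m : Vx n → ℤ} (h : m (vz n) = 0) : ∏ x, wv u m x = wt u m := by
  rw [wt, if_pos h]
  unfold wv oe
  rw [← Real.exp_sum, sum_neg_distrib,
    sum_fiberwise_of_maps_to (s := Ed n) (t := univ) (g := fun e => e.1) (fun _ _ => mem_univ _)]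

/-- vertex weight of a label, zero on defects -/
noncomputable def wl (u : ℤ → ℝ) (N : ℕ) (β ε : ℝ) (m : Vx n → ℤ) (x : Vx n) (i : Fin 3) : ℝ :=
  if i = 0 ∧ 4 * N < sl m x then 0 else wx u N β ε (m, fun _ => i) x

lemma wl_nonneg (H : Hyp u N β ε S) (m : Vx n → ℤ) (x : Vx n) (i : Fin 3) :
    0 ≤ wl u N β ε m x i := by
  unfold wl
  split_ifs
  · rfl
  · exact wx_nonneg H _ _

lemma wl_sum (m : Vx n → ℤ) (x : Vx n) :
    wl u N β ε m x 0 + wl u N β ε m x 1 + wl u N β ε m x 2 = wv u m x := by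
  have a : ((1 : Fin 3) = 0) = False := by simp
  have b : ((2 : Fin 3) = 0) = False := by simp
  have c : ((2 : Fin 3) = 1) = False := by simp
  simp only [wl, wx, a, b, c, true_and, false_and, if_true, if_false, ← not_le, ite_not]
  ring

open Classical in
lemma ind_nu (H : Hyp u N β ε S) (ω : St n) :
    (if Pre N ω ∧ Df N ω = ∅ then nu u N β ε ω else 0) =
      if ω.1 (vz n) = 0 then ∏ x, ENNReal.ofReal (wl u N β ε ω.1 x (ω.2 x)) else 0 := by
  by_cases h : Pre N ω ∧ Df N ω = ∅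
  · rw [if_pos h, if_pos h.1.pin, nu, ENNReal.ofReal_prod_of_nonneg fun x _ => wx_nonneg H ω x]
    refine prod_congr rfl fun x _ => ?_
    have : ¬ (ω.2 x = 0 ∧ 4 * N < sl ω.1 x) := fun a => by
      have := mem_Df.2 a
      rw [h.2] at this
      exact absurd this (notMem_empty _)
    rw [wl, if_neg this]
    rfl
  · rw [if_neg h]
    split_ifs with hz
    · symm
      by_cases h2 : Df N ω = ∅
      · have : ¬ ∀ x, ω.2 x = 2 → sl ω.1 x ≤ 20000 * N := fun a => h ⟨⟨hz, a⟩, h2⟩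
        push Not at this
        obtain ⟨x, h3, h4⟩ := this
        refine prod_eq_zero (mem_univ x) ?_
        simp [wl, wx, h3, not_le.2 h4]
      · obtain ⟨x, hx⟩ := nonempty_iff_ne_empty.2 h2
        refine prod_eq_zero (mem_univ x) ?_
        rw [wl, if_pos (mem_Df.1 hx), ENNReal.ofReal_zero]
    · rfl

lemma sum_lab (a : Vx n → Fin 3 → ℝ≥0∞) :
    ∑' l : Vx n → Fin 3, ∏ x, a x (l x) = ∏ x, (a x 0 + a x 1 + a x 2) := by
  rw [tsum_fintype, ← Fintype.piFinset_univ, ← prod_univ_sum]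
  exact prod_congr rfl fun x _ => Fin.sum_univ_three _

lemma wl_sumE (H : Hyp u N β ε S) (m : Vx n → ℤ) (x : Vx n) :
    ENNReal.ofReal (wl u N β ε m x 0) + ENNReal.ofReal (wl u N β ε m x 1) +
      ENNReal.ofReal (wl u N β ε m x 2) = ENNReal.ofReal (wv u m x) := by
  have := wl_nonneg H m x
  rw [← ENNReal.ofReal_add (this 0) (this 1),
    ← ENNReal.ofReal_add (add_nonneg (this 0) (this 1)) (this 2), wl_sum]

lemma prod_wvE (u : ℤ → ℝ) (m : Vx n → ℤ) :
    (if m (vz n) = 0 then ∏ x, ENNReal.ofReal (wv u m x) else 0) = ENNReal.ofReal (wt u m) := by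
  split_ifs with h
  · rw [← ENNReal.ofReal_prod_of_nonneg fun x _ => (wv_pos u m x).le, prod_wv u h]
  · rw [wt, if_neg h, ENNReal.ofReal_zero]

open Classical in
/-- the labels sum out -/
lemma sum_labels (H : Hyp u N β ε S) (F : (Vx n → ℤ) → ℝ≥0∞) :
    (∑' ω : St n, if Pre N ω ∧ Df N ω = ∅ then nu u N β ε ω * F ω.1 else 0) =
      ∑' m : Vx n → ℤ, ENNReal.ofReal (wt u m) * F m := by
  have e : ∀ ω : St n, (if Pre N ω ∧ Df N ω = ∅ then nu u N β ε ω * F ω.1 else 0) =
      (if ω.1 (vz n) = 0 then ∏ x, ENNReal.ofReal (wl u N β ε ω.1 x (ω.2 x)) else 0) * F ω.1 :=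
    fun ω => by rw [← ind_nu H, ite_mul, zero_mul]
  rw [tsum_congr e, ENNReal.tsum_prod']
  refine tsum_congr fun m => ?_
  dsimp only
  rw [ENNReal.tsum_mul_right, ← prod_wvE]
  congr 1
  split_ifs
  · rw [sum_lab fun x i => ENNReal.ofReal (wl u N β ε m x i)]
    exact prod_congr rfl fun x _ => wl_sumE H m x
  · exact tsum_zero

/-- number of steep outgoing edges -/
noncomputable def stp (N : ℕ) (m : Vx n → ℤ) (x : Vx n) : ℝ≥0∞ :=
  ∑ e ∈ oe x, if (N : ℤ) < |m e.1 - m e.2| then 1 else 0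

lemma wl_lab (H : Hyp u N β ε S) (m : Vx n → ℤ) (x : Vx n) :
    ENNReal.ofReal (wl u N β ε m x 1) + ENNReal.ofReal (wl u N β ε m x 2) ≤
      ENNReal.ofReal (wv u m x) * (ENNReal.ofReal (2 * ε) + stp N m x) := by
  by_cases h : ∀ e ∈ oe x, |m e.1 - m e.2| ≤ N
  · have h1 : sl m x ≤ 4 * N := by
      have := sum_le_card_nsmul (oe x) (fun e => (m e.1 - m e.2).natAbs) N fun e he => by
        have := h e he
        rw [Int.abs_eq_natAbs] at this
        exact_mod_cast this
      have h2 := oe_card x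
      rw [smul_eq_mul] at this
      unfold sl
      nlinarith
    have h2 : wv (u0 u N β) m x = wv u m x := by
      unfold wv
      congr 2
      refine sum_congr rfl fun e he => ?_
      have := h e he
      rw [u0, if_pos (by omega), max_eq_right (by omega)]
      simp
    have h3 : wl u N β ε m x 0 = (1 - 2 * ε) * wv u m x := by
      rw [wl, if_neg (by omega), wx, if_pos rfl, h2]
    have h4 := wl_sum (u := u) (N := N) (β := β) (ε := ε) m x
    rw [← ENNReal.ofReal_add (wl_nonneg H m x 1) (wl_nonneg H m x 2)]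
    refine le_trans ?_ (mul_le_mul_right le_self_add _)
    rw [← ENNReal.ofReal_mul (wv_pos u m x).le]
    exact ENNReal.ofReal_le_ofReal (by linarith)
  · push Not at h
    obtain ⟨e, he, h⟩ := h
    have h1 : 1 ≤ stp N m x := by
      have := single_le_sum (f := fun e : Vx n × Vx n =>
        if (N : ℤ) < |m e.1 - m e.2| then (1 : ℝ≥0∞) else 0) (fun _ _ => zero_le) he
      rwa [if_pos h] at this
    calc _ ≤ ENNReal.ofReal (wv u m x) * 1 := by
          rw [mul_one, ← wl_sumE H m x, add_assoc]; exact le_add_self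
      _ ≤ _ := mul_le_mul_right (h1.trans le_add_self) _

lemma steep_prod {w : (Vx n → ℤ) → ℝ≥0∞} {η a Z : ℝ≥0∞}
    (hs : ∀ E ⊆ Ed n, (∑' m : Vx n → ℤ, if ∀ e ∈ E, (N : ℤ) < |m e.1 - m e.2| then
      w m else 0) ≤ η ^ E.card * Z) (E : Finset (Vx n)) :
    ∀ E' ⊆ Ed n, (∀ e ∈ E', e.1 ∉ E) →
      (∑' m : Vx n → ℤ, (if ∀ e ∈ E', (N : ℤ) < |m e.1 - m e.2| then w m else 0) *
        ∏ x ∈ E, (a + stp N m x)) ≤ (a + 2 * η) ^ E.card * (η ^ E'.card * Z) := by
  induction E using Finset.induction_on with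
  | empty => intro E' h _; simpa using hs E' h
  | insert x E hx ih =>
    intro E' h1 h2
    have i0 := ih E' h1 fun e he a => h2 e he (mem_insert_of_mem a)
    have i1 : ∀ e ∈ oe x, (∑' m : Vx n → ℤ,
        (if ∀ f ∈ insert e E', (N : ℤ) < |m f.1 - m f.2| then w m else 0) *
          ∏ x ∈ E, (a + stp N m x)) ≤ η * ((a + 2 * η) ^ E.card * (η ^ E'.card * Z)) := by
      intro e he
      obtain ⟨e1, e2⟩ := mem_oe.1 he
      have e3 : e ∉ E' := fun a => h2 e a (e2 ▸ mem_insert_self _ _)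
      refine (ih (insert e E') (insert_subset e1 h1) fun f hf => ?_).trans (le_of_eq ?_)
      · rcases mem_insert.1 hf with rfl | hf
        · exact e2 ▸ hx
        · exact fun a => h2 f hf (mem_insert_of_mem a)
      · rw [card_insert_of_notMem e3]; ring
    have e : ∀ m : Vx n → ℤ, (if ∀ e ∈ E', (N : ℤ) < |m e.1 - m e.2| then w m else 0) *
        ∏ y ∈ insert x E, (a + stp N m y) =
        a * ((if ∀ e ∈ E', (N : ℤ) < |m e.1 - m e.2| then w m else 0) * ∏ y ∈ E, (a + stp N m y)) +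
        ∑ e ∈ oe x, (if ∀ f ∈ insert e E', (N : ℤ) < |m f.1 - m f.2| then w m else 0) *
          ∏ y ∈ E, (a + stp N m y) := by
      intro m
      rw [prod_insert hx, add_mul, mul_add, mul_left_comm]
      congr 1
      rw [← mul_assoc, ← sum_mul]
      congr 1
      rw [stp, mul_sum]
      refine sum_congr rfl fun e _ => ?_
      simp only [forall_mem_insert]
      by_cases a1 : (N : ℤ) < |m e.1 - m e.2| <;> simp [a1]
    rw [tsum_congr e, ENNReal.tsum_add, ENNReal.tsum_mul_left,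
      Summable.tsum_finsetSum fun _ _ => ENNReal.summable, card_insert_of_notMem hx]
    have i2 := (sum_le_card_nsmul _ _ _ i1).trans (nsmul_le_nsmul_left zero_le (oe_card x))
    refine (add_le_add (mul_le_mul_right i0 _) i2).trans (le_of_eq ?_)
    rw [two_nsmul]; ring

open Classical in
/-- labels are rare -/
lemma label_rare (H : Hyp u N β ε S) {η : ℝ≥0∞}
    (hs : ∀ E ⊆ Ed n, (∑' m : Vx n → ℤ, if ∀ e ∈ E, (N : ℤ) < |m e.1 - m e.2| then
      ENNReal.ofReal (wt u m) else 0) ≤ η ^ E.card * ∑' m : Vx n → ℤ, ENNReal.ofReal (wt u m))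
    (E : Finset (Vx n)) :
    (∑' ω : St n, if E ⊆ lab ω then (if Pre N ω ∧ Df N ω = ∅ then nu u N β ε ω else 0) else 0) ≤
      (ENNReal.ofReal (2 * ε) + 2 * η) ^ E.card * ∑' m : Vx n → ℤ, ENNReal.ofReal (wt u m) := by
  have k := steep_prod (a := ENNReal.ofReal (2 * ε)) hs E ∅ (empty_subset _) (by simp)
  simp only [notMem_empty, IsEmpty.forall_iff, implies_true, if_true, card_empty, pow_zero,
    one_mul] at k
  refine le_trans ?_ k
  have e : ∀ ω : St n, (if E ⊆ lab ω then (if Pre N ω ∧ Df N ω = ∅ then nu u N β ε ω else 0)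
      else 0) = if ω.1 (vz n) = 0 then ∏ x, (if x ∈ E ∧ ω.2 x = 0 then 0 else
        ENNReal.ofReal (wl u N β ε ω.1 x (ω.2 x))) else 0 := by
    intro ω
    rw [ind_nu H]
    by_cases h : E ⊆ lab ω
    · rw [if_pos h]
      congr 1
      exact prod_congr rfl fun x _ => (if_neg fun a => mem_lab.1 (h a.1) a.2).symm
    · rw [if_neg h]
      obtain ⟨x, h1, h2⟩ := not_subset.1 h
      rw [mem_lab, not_not] at h2
      split_ifs
      · symm
        refine prod_eq_zero (mem_univ x) ?_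
        exact if_pos ⟨h1, h2⟩
      · rfl
  rw [tsum_congr e, ENNReal.tsum_prod']
  refine ENNReal.tsum_le_tsum fun m => ?_
  dsimp only
  rw [← prod_wvE]
  split_ifs
  · rw [sum_lab fun x i => if x ∈ E ∧ i = 0 then 0 else ENNReal.ofReal (wl u N β ε m x i),
      ← prod_ite_mem_eq E, ← prod_mul_distrib]
    refine prod_le_prod' fun x _ => ?_
    by_cases hx : x ∈ E
    · simpa [hx] using wl_lab H m x
    · simpa [hx] using (wl_sumE H m x).le
  · simp

open Classical in
/-- representatives of the rigid bodies of a frozen set -/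
noncomputable def piA (A : Finset (Vx n)) : Vx n → Vx n := if h : Good A then h.choose.pi else id

/-- the class of a state -/
noncomputable def key (N : ℕ) (ω : St n) : (Vx n → Fin 3) × Finset (Vx n) × (Vx n → ℤ) :=
  (ω.2, Ast N ω, fun x => ω.1 x - ω.1 (piA (Ast N ω) x))

open Classical in
lemma fibre (H : Hyp u N β ε S) {ω₀ : St n} (h0 : Reg N ω₀) (hG : Good (Ast N ω₀)) :
    ∃ (B : Bod n) (g : Vx n → ℤ) (K : ℝ≥0∞), (∀ x, g (B.pi x) = 0) ∧ ∀ F : (Vx n → ℤ) → ℝ≥0∞,
      (∑' ω : St n, if key N ω = key N ω₀ then (if Reg N ω ∧ Good (Ast N ω) then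
        nu u N β ε ω * gg u N β ε ω * F ω.1 else 0) else 0) =
      K * ∑' m : Vx n → ℤ, if ∀ x, m x = m (B.pi x) + g x then
        ENNReal.ofReal (wt (u0 u N β) m) * F m else 0 := by
  have hB := hG.choose_spec
  have hp : piA (Ast N ω₀) = hG.choose.pi := by rw [piA, dif_pos hG]
  generalize hG.choose = B at hB hp
  refine ⟨B, fun x => ω₀.1 x - ω₀.1 (B.pi x), ENNReal.ofReal (∏ x, if x ∈ Ast N ω₀ then
    wx u N β ε ω₀ x / wv (u0 u N β) ω₀.1 x else 1 - 2 * ε) * gg u N β ε ω₀,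
    fun x => by simp [B.idem], fun F => ?_⟩
  rw [ENNReal.tsum_prod', ← ENNReal.tsum_mul_left]
  refine tsum_congr fun m => ?_
  rw [tsum_eq_single ω₀.2 fun l hl => if_neg fun a => hl (congrArg Prod.fst a)]
  by_cases hm : (∀ x, m x = m (B.pi x) + (ω₀.1 x - ω₀.1 (B.pi x))) ∧ m (vz n) = 0
  · have hs : Same (Ast N ω₀) ω₀ (m, ω₀.2) := ⟨rfl, hm.2, fun e he h => by
      have a1 := hm.1 e.1
      have a2 := hm.1 e.2
      rw [hB e he h] at a1
      dsimp only
      omega⟩
    have a1 := hs.ast H.one h0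
    have a2 : Reg N (m, ω₀.2) := (transfer H.one h0 adm_Gs hs).1
    have a3 : key N (m, ω₀.2) = key N ω₀ := by
      unfold key
      rw [a1, hp]
      refine Prod.ext rfl (Prod.ext rfl (funext fun x => ?_))
      have := hm.1 x
      dsimp only
      omega
    rw [if_pos a3, if_pos ⟨a2, a1 ▸ hG⟩, if_pos hm.1, gg_same H h0 hs]
    have a4 : ∏ x, wx u N β ε (m, ω₀.2) x = (∏ x, if x ∈ Ast N ω₀ then
        wx u N β ε ω₀ x / wv (u0 u N β) ω₀.1 x else 1 - 2 * ε) * wt (u0 u N β) m := by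
      rw [← prod_wv _ hm.2, ← prod_mul_distrib]
      refine prod_congr rfl fun x _ => ?_
      split_ifs with hx
      · have b1 : ∀ e ∈ oe x, m e.1 - m e.2 = ω₀.1 e.1 - ω₀.1 e.2 := fun e he =>
          hs.grad e (mem_oe.1 he).1 ((mem_oe.1 he).2 ▸ hx)
        have b2 : wv (u0 u N β) m x = wv (u0 u N β) ω₀.1 x := by
          unfold wv
          rw [sum_congr rfl fun e he => by rw [b1 e he]]
        rw [b2, div_mul_cancel₀ _ (wv_pos _ _ _).ne']
        exact wx_congr rfl b1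
      · have b1 : ω₀.2 x = 0 := by
          by_contra b
          exact hx (sub_AA _ (lab_sub_lam (mem_lab.2 b)))
        rw [wx, if_pos b1]
    rw [nu, a4, ENNReal.ofReal_mul' (wt_nonneg _ _)]
    dsimp only
    ring
  · have a1 : (if ∀ x, m x = m (B.pi x) + (ω₀.1 x - ω₀.1 (B.pi x)) then
        ENNReal.ofReal (wt (u0 u N β) m) * F m else 0) = 0 := by
      split_ifs with a
      · rw [wt, if_neg fun b => hm ⟨a, b⟩, ENNReal.ofReal_zero, zero_mul]
      · rfl
    rw [a1, mul_zero]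
    split_ifs with a b
    · refine absurd ⟨fun x => ?_, b.1.pin⟩ hm
      have c1 : Ast N (m, ω₀.2) = Ast N ω₀ := congrArg (fun k => k.2.1) a
      have c2 := congrFun (congrArg (fun k => k.2.2) a) x
      simp only [key, c1, hp] at c2
      omega
    · rfl
    · rfl

open Classical in
lemma tsum_key {Ω κ : Type*} (k : Ω → κ) (f : Ω → ℝ≥0∞) :
    ∑' ω, f ω = ∑' a, ∑' ω, if k ω = a then f ω else 0 := by
  rw [ENNReal.tsum_comm]
  refine tsum_congr fun ω => ?_
  rw [tsum_eq_single (k ω) fun a ha => if_neg ha.symm, if_pos rfl]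

open Classical in
lemma class_sum (H : Hyp u N β ε S) {F : (Vx n → ℤ) → ℝ≥0∞}
    (hfs : ∀ (B : Bod n) (g : Vx n → ℤ), (∀ x, g (B.pi x) = 0) →
      (∑' m : Vx n → ℤ, if ∀ x, m x = m (B.pi x) + g x then ENNReal.ofReal (wt (u0 u N β) m) else 0) ≤
        2 * ∑' m : Vx n → ℤ, if ∀ x, m x = m (B.pi x) + g x then ENNReal.ofReal (wt (u0 u N β) m) *
          F m else 0) :
    (∑' ω : St n, if Reg N ω ∧ Good (Ast N ω) then nu u N β ε ω * gg u N β ε ω * 1 else 0) ≤
      2 * ∑' ω : St n, if Reg N ω ∧ Good (Ast N ω) then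
        nu u N β ε ω * gg u N β ε ω * F ω.1 else 0 := by
  rw [tsum_key (key N), tsum_key (key N) fun ω => if Reg N ω ∧ Good (Ast N ω) then
    nu u N β ε ω * gg u N β ε ω * F ω.1 else 0, ← ENNReal.tsum_mul_left]
  refine ENNReal.tsum_le_tsum fun k => ?_
  by_cases h : ∃ ω₀, key N ω₀ = k ∧ Reg N ω₀ ∧ Good (Ast N ω₀)
  · obtain ⟨ω₀, rfl, h0, hG⟩ := h
    obtain ⟨B, g, K, h1, h2⟩ := fibre H h0 hG
    have a1 := h2 fun _ => 1
    have a2 := h2 F
    have a3 := mul_le_mul_right (hfs B g h1) K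
    simp only [mul_one] at a1 ⊢
    rw [← a1, mul_left_comm, ← a2] at a3
    convert a3
  · refine le_trans (le_of_eq ?_) zero_le
    rw [ENNReal.tsum_eq_zero]
    intro ω
    split_ifs with a b
    · exact absurd ⟨ω, a, b⟩ h
    · rfl
    · rfl

lemma lam_empty {ω : St n} (h : Df N ω = ∅) : Lam N ω ∅ = lab ω := by
  refine Subset.antisymm (fun y hy => ?_) lab_sub_lam
  classical
  rcases (mem_filter.1 hy).2 with a | ⟨c, a, -⟩
  · exact a
  · obtain ⟨x, hx⟩ := IsCl.nonempty a.1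
    exact absurd (h ▸ a.2 hx) (notMem_empty _)

theorem core_sum (H : Hyp u N β ε S) {lam : ℝ} {η : ℝ≥0∞}
    (hη : ENNReal.ofReal (2 * ε) + 2 * η ≤ (64 : ℝ≥0∞)⁻¹ ^ 20000)
    (hs : ∀ E ⊆ Ed n, (∑' m : Vx n → ℤ, if ∀ e ∈ E, (N : ℤ) < |m e.1 - m e.2| then
      ENNReal.ofReal (wt u m) else 0) ≤ η ^ E.card * ∑' m : Vx n → ℤ, ENNReal.ofReal (wt u m))
    (hfs : ∀ (B : Bod n) (g : Vx n → ℤ), (∀ x, g (B.pi x) = 0) →
      (∑' m : Vx n → ℤ, if ∀ x, m x = m (B.pi x) + g x then ENNReal.ofReal (wt (u0 u N β) m) else 0) ≤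
        2 * ∑' m : Vx n → ℤ, if ∀ x, m x = m (B.pi x) + g x then ENNReal.ofReal (wt (u0 u N β) m) *
          ENNReal.ofReal (1 - Real.cos (lam * m (vl n))) else 0)
    (hfin : ∑' m : Vx n → ℤ, ENNReal.ofReal (wt u m) ≠ ⊤) :
    ∑' m : Vx n → ℤ, ENNReal.ofReal (wt u m) ≤
      4 * ∑' m : Vx n → ℤ, ENNReal.ofReal (wt u m) *
        ENNReal.ofReal (1 - Real.cos (lam * m (vl n))) := by
  classical
  have c0 := class_sum H (F := fun m => ENNReal.ofReal (1 - Real.cos (lam * m (vl n)))) hfs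
  have s1 := sum_labels (n := n) H fun _ => 1
  have sX := sum_labels (n := n) H fun m => ENNReal.ofReal (1 - Real.cos (lam * m (vl n)))
  have r1 := resum (n := n) H (fun _ => 1) fun _ _ _ _ => rfl
  have r2 := resum (n := n) H (fun ω => if Bad (Lam N ω ∅) then 1 else 0) fun c ω ω' h => by
    rw [h.lam_eq H.one (Set.notMem_empty c)]
  have r3 := resum (n := n) H (fun ω => if Bad (Lam N ω ∅) then 0 else
      ENNReal.ofReal (1 - Real.cos (lam * ω.1 (vl n)))) fun c ω ω' h => by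
    rw [h.lam_eq H.one (Set.notMem_empty c)]
    split_ifs with a
    · rfl
    · have b : Os N ω c ⊆ Lam N ω ∅ := fun y hy =>
        mem_filter.2 ⟨mem_univ _, Or.inr ⟨c, h.pu, Set.notMem_empty c, sub_Ob _ hy⟩⟩
      rw [h.height (fun d => a (Or.inr ⟨0, vz n, b d, by simp⟩)) fun d => a (Or.inl (b d))]
  have pe := peierls (n := n) (fun ω : St n => if Pre N ω ∧ Df N ω = ∅ then nu u N β ε ω else 0) lab
    (∑' m : Vx n → ℤ, ENNReal.ofReal (wt u m)) fun E =>
      le_trans (by convert label_rare H hs E) (mul_le_mul_left (pow_le_pow_left' hη _) _)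
  have e2 : (∑' ω : St n, if Pre N ω ∧ Df N ω = ∅ then nu u N β ε ω *
      (if Bad (Lam N ω ∅) then 1 else 0) else 0) = ∑' ω : St n, if Bad (lab ω) then
      (if Pre N ω ∧ Df N ω = ∅ then nu u N β ε ω else 0) else 0 := by
    refine tsum_congr fun ω => ?_
    by_cases a : Pre N ω ∧ Df N ω = ∅
    · rw [if_pos a, if_pos a, lam_empty a.2]; split_ifs <;> simp
    · rw [if_neg a, if_neg a, ite_self]
  have e3 : (∑' ω : St n, if Pre N ω ∧ Df N ω = ∅ then nu u N β ε ω * (if Bad (Lam N ω ∅) then 0 else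
      ENNReal.ofReal (1 - Real.cos (lam * ω.1 (vl n)))) else 0) ≤ ∑' ω : St n,
      if Pre N ω ∧ Df N ω = ∅ then nu u N β ε ω *
        ENNReal.ofReal (1 - Real.cos (lam * ω.1 (vl n))) else 0 := by
    refine ENNReal.tsum_le_tsum fun ω => ?_
    split_ifs <;> simp
  have t1 : (∑' ω : St n, if Reg N ω then nu u N β ε ω * gg u N β ε ω * 1 else 0) ≤
      (∑' ω : St n, if Reg N ω ∧ Good (Ast N ω) then nu u N β ε ω * gg u N β ε ω * 1 else 0) +
      ∑' ω : St n, if Reg N ω then nu u N β ε ω * gg u N β ε ω *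
        (if Bad (Lam N ω ∅) then 1 else 0) else 0 := by
    rw [← ENNReal.tsum_add]
    refine ENNReal.tsum_le_tsum fun ω => ?_
    by_cases a : Reg N ω
    · by_cases b : Good (Ast N ω)
      · rw [if_pos a, if_pos ⟨a, b⟩]; exact le_self_add
      · have : Bad (Lam N ω ∅) := Bad.mono (by_contra fun c => b (good_of_not_bad c))
          (lam_anti (Set.empty_subset (Gs N ω)))
        rw [if_pos a, if_pos a, if_pos this]; exact le_add_self
    · rw [if_neg a]; exact zero_le
  have t2 : (∑' ω : St n, if Reg N ω ∧ Good (Ast N ω) then nu u N β ε ω * gg u N β ε ω *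
      ENNReal.ofReal (1 - Real.cos (lam * ω.1 (vl n))) else 0) ≤
      (∑' ω : St n, if Reg N ω then nu u N β ε ω * gg u N β ε ω * (if Bad (Lam N ω ∅) then 0 else
        ENNReal.ofReal (1 - Real.cos (lam * ω.1 (vl n)))) else 0) +
      2 * ∑' ω : St n, if Reg N ω then nu u N β ε ω * gg u N β ε ω *
        (if Bad (Lam N ω ∅) then 1 else 0) else 0 := by
    rw [← ENNReal.tsum_mul_left, ← ENNReal.tsum_add]
    refine ENNReal.tsum_le_tsum fun ω => ?_
    by_cases a : Reg N ω ∧ Good (Ast N ω)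
    · rw [if_pos a, if_pos a.1, if_pos a.1]
      split_ifs
      · rw [mul_zero, zero_add, mul_one, mul_comm 2]
        refine mul_le_mul_right ?_ _
        rw [← ENNReal.ofReal_ofNat]
        exact ENNReal.ofReal_le_ofReal (by linarith [Real.neg_one_le_cos (lam * ω.1 (vl n))])
      · exact le_self_add
    · rw [if_neg a]; exact zero_le
  rw [r1, s1] at t1
  rw [r3] at t2
  rw [sX] at e3
  rw [← e2, ← r2] at pe
  simp only [mul_one] at t1 c0
  generalize (∑' m : Vx n → ℤ, ENNReal.ofReal (wt u m)) = Z at *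
  generalize (∑' ω : St n, if Reg N ω then nu u N β ε ω * gg u N β ε ω *
    (if Bad (Lam N ω ∅) then 1 else 0) else 0) = D at *
  have t3 := t1.trans (add_le_add_left (c0.trans (mul_le_mul_right
    (t2.trans (add_le_add_left e3 _)) 2)) D)
  generalize (∑' m : Vx n → ℤ, ENNReal.ofReal (wt u m) *
    ENNReal.ofReal (1 - Real.cos (lam * m (vl n)))) = X at *
  refine (ENNReal.add_le_add_iff_right hfin).1 ?_
  calc Z + Z ≤ (2 * (X + 2 * D) + D) + (2 * (X + 2 * D) + D) := add_le_add t3 t3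
    _ = 4 * X + 10 * D := by ring
    _ ≤ _ := add_le_add_right pe _

end Pool.Agent.Lib.MP_9cc147_pr.Mono
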