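import Pool.Agent.Lib.MP_9cc147_pr.Fejer

/-! Delocalisation for interactions with small second differences. -/

open Finset MeasureTheory Filter Topology Complex
open scoped Real

namespace Pool.Agent.Lib.MP_9cc147_pr

variable {n : ℕ}

def Grow (u : ℤ → ℝ) : Prop :=
  ∀ p : ℝ, 0 ≤ p → ∃ C, ∀ k : ℤ, p * Real.log (1 + |(k : ℝ)|) - C ≤ u k

lemma exists_WP {Y : ℝ} (hY : 1 ≤ Y) : ∃ C : ℝ, 0 < C ∧ ∀ (β : ℝ) (u : ℤ → ℝ),
    (∀ k, |d2 u k| ≤ β) → Grow u → ∃ W, WP W Y (C * β) ∧ ∀ k : ℤ, W k = u k := by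
  have hH : 0 < 40 * Y := by linarith
  obtain ⟨C, hC, h⟩ := exists_W hH
  refine ⟨4 * C / (40 * Y) ^ 2, by positivity, fun β u hu hg => ?_⟩
  obtain ⟨W, h1, h2, h3, h4⟩ := h β u hu
  refine ⟨W, ⟨h1, h3, fun z hz => ?_, fun p hp => ?_⟩, h2⟩
  · have hf : ∀ t ∈ Metric.ball (0 : ℂ) (40 * Y), (z.re : ℂ) + t ∈ strip (40 * Y) := by
      intro t ht
      have : ‖t‖ < 40 * Y := by simpa using ht
      simpa [strip] using (abs_im_le_norm t).trans_lt this
    have := schwarz2 (f := fun t => W (z.re + t) - lin u ⌊z.re⌋ (z.re + t)) (R := 40 * Y)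
      (B := C * β) ((h1.comp (by fun_prop) hf).sub (by unfold lin; fun_prop)) (fun t ht => by
        refine h4 _ _ (hf t ht) ?_
        have a1 : ‖t‖ < 40 * Y := by simpa using ht
        have a2 := abs_le.1 ((abs_re_le_norm t).trans a1.le)
        have a3 := Int.floor_le z.re
        have a4 := Int.lt_floor_add_one z.re
        simp only [add_re, ofReal_re]
        exact abs_le.2 ⟨by linarith, by linarith⟩) (fun t _ => by
        have := h3 (z.re + t)
        rw [map_add, conj_ofReal, conj_ofReal] at this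
        simp [conj_eq_iff_im.1 this.symm, lin]) (y := z.im) hz
    simp only [re_add_im, add_zero, sub_re] at this
    have e : (lin u ⌊z.re⌋ z).re = (lin u ⌊z.re⌋ z.re).re := by simp [lin]
    rw [e, sub_sub_sub_cancel_right] at this
    refine this.trans (le_of_eq ?_)
    ring
  · obtain ⟨C', hC'⟩ := hg p hp
    refine ⟨C' + p * Real.log 2 + C * β, fun z hz => ?_⟩
    have a3 := Int.floor_le z.re
    have a4 := Int.lt_floor_add_one z.re
    have b1 := (abs_le.1 ((abs_re_le_norm _).trans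
      (h4 ⌊z.re⌋ z hz (abs_le.2 ⟨by linarith, by linarith⟩)))).1
    have b2 : ∀ k : ℤ, |z.re - k| ≤ 1 → p * Real.log (1 + |z.re|) - (C' + p * Real.log 2) ≤ u k := by
      intro k hk
      have c1 := abs_sub_abs_le_abs_sub z.re k
      have c2 : Real.log (1 + |z.re|) ≤ Real.log 2 + Real.log (1 + |(k : ℝ)|) := by
        rw [← Real.log_mul two_ne_zero (by positivity)]
        exact Real.log_le_log (by positivity) (by linarith [abs_nonneg (k : ℝ)])
      nlinarith [hC' k]
    have b3 := b2 ⌊z.re⌋ (abs_le.2 ⟨by linarith, by linarith⟩)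
    have b4 := b2 (⌊z.re⌋ + 1) (by push_cast; exact abs_le.2 ⟨by linarith, by linarith⟩)
    have e : (lin u ⌊z.re⌋ z).re = u ⌊z.re⌋ + (z.re - ⌊z.re⌋) * (u (⌊z.re⌋ + 1) - u ⌊z.re⌋) := by
      simp [lin]
    rw [sub_re, e] at b1
    nlinarith

noncomputable def wt (u : ℤ → ℝ) (m : Vx n → ℤ) : ℝ :=
  if m (vz n) = 0 then Real.exp (-∑ e ∈ Ed n, u (m e.1 - m e.2)) else 0

lemma wt_nonneg (u : ℤ → ℝ) (m : Vx n → ℤ) : 0 ≤ wt u m := by
  unfold wt; split_ifs <;> positivity

lemma base_int {W : ℂ → ℂ} {u : ℤ → ℝ} (h : ∀ k : ℤ, W k = u k) (lam : ℝ) (m : Vx n → ℤ) :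
    (if m (vz n) = 0 then Base W lam (cx (rl m)) else 0) =
      exp ((lam * m (vl n) : ℝ) * I) * wt u m := by
  unfold wt
  split_ifs with hm
  · have e : ∀ e : Vx n × Vx n, W (gr (cx (rl m)) e) = u (m e.1 - m e.2) := by
      intro e; rw [← h]; simp [gr, cx, rl]
    simp only [Base, e]
    simp only [cx, rl, hm]
    push_cast
    congr 2; ring
  · simp

lemma wt_summable {W : ℂ → ℂ} {Y b : ℝ} (hW : WP W Y b) (hY : 1 ≤ Y) {u : ℤ → ℝ}
    (h : ∀ k : ℤ, W k = u k) :
    Summable fun m : Vx n → ℤ => (1 + (m (vl n) : ℝ) ^ 2) * wt u m := by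
  have hp : 0 ≤ pp n := by unfold pp; positivity
  obtain ⟨C, hC0, hC⟩ := weight_bound (n := n) hW (p := pp n + 2) (by positivity) (R := 0) le_rfl
  refine Summable.of_nonneg_of_le (fun m => mul_nonneg (by positivity) (wt_nonneg u m))
    (fun m => ?_) (summable_maj.mul_left C)
  by_cases hm : m (vz n) = 0
  · have h1 := hC _ (rl m) (fun e _ => cx_strip hY (rl m) e) (by simp [rl, hm]) (by simp [gr, cx])
    have h2 := congrArg norm (base_int h 0 m)
    rw [if_pos hm, norm_base_real, norm_mul, norm_exp_ofReal_mul_I, one_mul, norm_real,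
      Real.norm_of_nonneg (wt_nonneg u m)] at h2
    rw [h2] at h1
    have h3 : |(m (vl n) : ℝ)| ≤ ‖rl m‖ := norm_le_pi_norm (rl m) (vl n)
    have h4 : 1 + (m (vl n) : ℝ) ^ 2 ≤ (1 + ‖rl m‖) ^ (2 : ℝ) := by
      rw [Real.rpow_two, ← sq_abs]
      nlinarith [abs_nonneg (m (vl n) : ℝ)]
    refine (mul_le_mul h4 h1 (wt_nonneg u m) (by positivity)).trans (le_of_eq ?_)
    rw [mul_left_comm, ← Real.rpow_add (by positivity)]
    congr 2; ring
  · rw [wt, if_neg hm, mul_zero]; positivity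

theorem core (A : ℝ) : ∃ β : ℝ, 0 < β ∧ ∀ u : ℤ → ℝ, (∀ k, |d2 u k| ≤ β) → Grow u →
    ∀ n : ℕ, 1 ≤ n → Summable (wt (n := n) u) ∧
      Summable (fun m : Vx n → ℤ => (m (vl n) : ℝ) ^ 2 * wt u m) ∧
      A * Real.log (n + 1) ≤ (∑' m : Vx n → ℤ, (m (vl n) : ℝ) ^ 2 * wt u m) /
        ∑' m : Vx n → ℤ, wt u m := by
  set A' := 5 * |A| + 4 with hA'
  have A0 := abs_nonneg A
  set Y := 10 ^ 7 + 16 * A' with hYd
  have hY : 10 ^ 7 ≤ Y := by linarith
  have hY1 : 1 ≤ Y := by linarith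
  obtain ⟨C, hC, h⟩ := exists_WP hY1
  refine ⟨1 / (12000 * C * Y), by positivity, fun u hu hg n hn => ?_⟩
  obtain ⟨W, hW, hWu⟩ := h _ u hu hg
  set m := Nat.log 64 (4 * n) with hm
  have hL : rr m ≤ 4 * n := Nat.pow_log_le_self _ (by omega)
  have hL' : 4 * n < 64 ^ (m + 1) := Nat.lt_pow_succ_log_self (by norm_num) _
  have m0 : (0 : ℝ) ≤ m := Nat.cast_nonneg _
  set X := A' * (m + 1) with hX
  have X4 : 4 ≤ X := by nlinarith
  set lam := (√X)⁻¹ with hlam
  have sX : 2 ≤ √X := Real.le_sqrt_of_sq_le (by linarith)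
  have l0 : 0 < lam := by positivity
  have l2 : lam ^ 2 * X = 1 := by
    rw [hlam, inv_pow, Real.sq_sqrt (by linarith), inv_mul_cancel₀ (by linarith)]
  have hP := fun N => (KK_cone (PP_cone W lam) (fejer_PP hW hY (by positivity)
    (le_of_eq (by field_simp)) hL l0 (by rw [hlam, one_div]; gcongr) (κ := 4 * A') (by linarith)
    (by linarith) (le_of_eq (by rw [hX] at l2; linear_combination -4 * l2))) N).2.2
  have t1 := (continuous_re.tendsto _).comp (limit (n := n) hW hY1 lam)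
  have t0 := ((continuous_re.tendsto _).comp (limit (n := n) hW hY1 0)).const_mul (1 / 2)
  have key := le_of_tendsto_of_tendsto' t1 t0 hP
  have s := wt_summable (n := n) hW hY1 hWu
  have w0 := wt_nonneg (n := n) u
  have s0 : Summable (wt (n := n) u) := Summable.of_nonneg_of_le w0
    (fun m => le_mul_of_one_le_left (w0 m) (by nlinarith [sq_nonneg (m (vl n) : ℝ)])) s
  have s2 : Summable fun m : Vx n → ℤ => (m (vl n) : ℝ) ^ 2 * wt u m := Summable.of_nonneg_of_le
    (fun m => mul_nonneg (sq_nonneg _) (w0 m)) (fun m => by nlinarith [w0 m]) s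
  refine ⟨s0, s2, ?_⟩
  have sc : ∀ l : ℝ, Summable fun m : Vx n → ℤ => exp ((l * m (vl n) : ℝ) * I) * wt u m :=
    fun l => Summable.of_norm_bounded s0 fun m => by
      rw [norm_mul, norm_exp_ofReal_mul_I, one_mul, norm_real, Real.norm_of_nonneg (w0 m)]
  simp only [base_int hWu] at key
  rw [re_tsum (sc _), re_tsum (sc _)] at key
  simp only [re_mul_ofReal, exp_ofReal_mul_I_re, zero_mul, Real.cos_zero, one_mul] at key
  have k2 : ∑' m : Vx n → ℤ, (wt u m - lam ^ 2 / 2 * ((m (vl n) : ℝ) ^ 2 * wt u m)) ≤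
      ∑' m : Vx n → ℤ, Real.cos (lam * m (vl n)) * wt u m := by
    refine Summable.tsum_le_tsum (fun m => ?_) (s0.sub (s2.mul_left _)) ?_
    · nlinarith [mul_le_mul_of_nonneg_right (Real.one_sub_sq_div_two_le_cos (x := lam * m (vl n)))
        (w0 m)]
    · simpa only [reCLM_apply, re_mul_ofReal, exp_ofReal_mul_I_re] using (reCLM.summable (sc lam))
  rw [s0.tsum_sub (s2.mul_left _), tsum_mul_left] at k2
  have pos : 0 < ∑' m : Vx n → ℤ, wt u m := s0.tsum_pos w0 0 (by simp [wt, Real.exp_pos])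
  rw [le_div_iff₀ pos]
  have lg : Real.log (n + 1) ≤ 5 * (m + 1) := by
    have a1 : (n + 1 : ℝ) ≤ 64 ^ (m + 1) := by exact_mod_cast (by omega : n + 1 ≤ 64 ^ (m + 1))
    have a2 := Real.log_le_log (by positivity) a1
    rw [Real.log_pow, show (64 : ℝ) = 2 ^ 6 by norm_num, Real.log_pow] at a2
    push_cast at a2
    nlinarith [Real.log_two_lt_d9]
  have lg0 : 0 ≤ Real.log (n + 1) := Real.log_nonneg (by linarith [Nat.cast_nonneg (α := ℝ) n])
  have a3 : A * Real.log (n + 1) ≤ X := by nlinarith [le_abs_self A]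
  have a4 : ∑' m : Vx n → ℤ, wt u m ≤
      lam ^ 2 * ∑' m : Vx n → ℤ, (m (vl n) : ℝ) ^ 2 * wt u m := by linarith
  have a5 := mul_le_mul_of_nonneg_left a4 (by linarith : 0 ≤ X)
  rw [← mul_assoc, mul_comm X (lam ^ 2), l2, one_mul] at a5
  nlinarith

lemma d2_le {U : ℝ → ℝ} (hU : ContDiff ℝ 2 U) {B : ℝ} (hB : ∀ x, |deriv (deriv U) x| ≤ B)
    (x h : ℝ) : |U (x + h) - 2 * U x + U (x - h)| ≤ B * h ^ 2 := by
  have d1 : Differentiable ℝ U := hU.differentiable (by norm_num)
  have d2 : Differentiable ℝ (deriv U) := hU.differentiable_deriv_two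
  have a1 : ∀ s, |deriv U (s + h) - deriv U s| ≤ B * |h| := fun s => by
    simpa using convex_univ.norm_image_sub_le_of_norm_deriv_le (fun y _ => d2 y)
      (fun y _ => hB y) (Set.mem_univ s) (Set.mem_univ (s + h))
  have a2 : ∀ s, HasDerivAt (fun s => U (s + h) - U s) (deriv U (s + h) - deriv U s) s := fun s =>
    ((d1 (s + h)).hasDerivAt.comp_add_const s h).sub (d1 s).hasDerivAt
  have := convex_univ.norm_image_sub_le_of_norm_hasDerivWithin_le
    (fun y _ => (a2 y).hasDerivWithinAt) (fun y _ => a1 y) (Set.mem_univ (x - h)) (Set.mem_univ x)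
  simp only [sub_add_cancel, sub_sub_cancel, Real.norm_eq_abs] at this
  rw [mul_assoc, abs_mul_abs_self, ← sq] at this
  convert this using 2; ring

lemma grow_of {U : ℝ → ℝ} (hU : Continuous U) (he : ∀ x, U (-x) = U x) {α M : ℝ} (hα : 0 < α)
    (ht : Tendsto (fun x => U x / x ^ α) atTop atTop) (hM : 0 < M) :
    Grow fun k => U (k / M) := by
  intro p hp
  have h1 : ∀ᶠ x : ℝ in atTop, p * Real.log (1 + x) ≤ U (x / M) := by
    have a1 := (tendsto_id.atTop_div_const hM).eventually (ht.eventually_ge_atTop 1)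
    have a2 := (isLittleO_log_rpow_atTop hα).bound (c := 1 / (2 * (p + 1) * M ^ α)) (by positivity)
    filter_upwards [a1, a2, eventually_ge_atTop 2] with x b1 b2 b3
    simp only [id] at b1
    rw [one_le_div (by positivity), Real.div_rpow (by linarith) hM.le] at b1
    have b4 : 0 ≤ Real.log x := Real.log_nonneg (by linarith)
    rw [Real.norm_of_nonneg b4, Real.norm_of_nonneg (by positivity)] at b2
    have b5 : Real.log (1 + x) ≤ 2 * Real.log x := by
      rw [← Real.log_rpow (by linarith), Real.rpow_two]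
      exact Real.log_le_log (by linarith) (by nlinarith)
    have b6 : 2 * (p + 1) * Real.log x ≤ x ^ α / M ^ α := by
      refine (mul_le_mul_of_nonneg_left b2 (by positivity)).trans (le_of_eq ?_)
      field_simp
    nlinarith
  obtain ⟨X, hX⟩ := eventually_atTop.1 h1
  obtain ⟨C, hC⟩ := isCompact_Icc.exists_bound_of_continuousOn (s := Set.Icc 0 X)
    (f := fun x => p * Real.log (1 + x) - U (x / M)) (ContinuousOn.sub (ContinuousOn.mul
      continuousOn_const (ContinuousOn.log (by fun_prop) fun x hx => by linarith [hx.1]))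
      (by fun_prop))
  refine ⟨|C|, fun k => ?_⟩
  have e : U (k / M) = U (|(k : ℝ)| / M) := by
    rcases abs_cases (k : ℝ) with h | h <;> rw [h.1]
    rw [neg_div, he]
  simp only [e]
  rcases le_total X |(k : ℝ)| with h | h
  · linarith [hX _ h, abs_nonneg C]
  · linarith [le_abs_self C, (abs_le.1 (hC _ ⟨abs_nonneg _, h⟩)).2]

end Pool.Agent.Lib.MP_9cc147_pr
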