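import Pool.Agent.Lib.MP_9cc147_pr.Geom

/-! Packing numbers, items. -/

open Finset

namespace Pool.Agent.Lib.MP_9cc147_pr

variable {n : ℕ}

def Far (r : ℕ) (S T : Finset (Vx n)) : Prop := ∀ p ∈ S, ∀ q ∈ T, r ≤ ds p q
def Small (k : ℕ) (S : Finset (Vx n)) : Prop := ∀ p ∈ S, ∀ q ∈ S, 16 * ds p q ≤ rr k
def Conn (r : ℕ) (S : Finset (Vx n)) : Prop :=
  ∀ T ⊆ S, T.Nonempty → T ≠ S → ∃ p ∈ T, ∃ q ∈ S, q ∉ T ∧ ds p q < r
def Spr (r : ℕ) (T : Finset (Vx n)) : Prop := ∀ p ∈ T, ∀ q ∈ T, p ≠ q → r ≤ ds p q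

lemma Far.symm {r : ℕ} {S T : Finset (Vx n)} (h : Far r S T) : Far r T S :=
  fun p hp q hq => ds_comm q p ▸ h q hq p hp

lemma Far.mono {r r' : ℕ} {S T : Finset (Vx n)} (h : Far r S T) (hr : r' ≤ r) : Far r' S T :=
  fun p hp q hq => hr.trans (h p hp q hq)

lemma Far.union {r : ℕ} {S T T' : Finset (Vx n)} (h : Far r S T) (h' : Far r S T') :
    Far r S (T ∪ T') := fun p hp q hq => (mem_union.1 hq).elim (h p hp q) (h' p hp q)

lemma Conn.mono {r r' : ℕ} {S : Finset (Vx n)} (h : Conn r S) (hr : r ≤ r') : Conn r' S := by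
  intro T h1 h2 h3
  obtain ⟨p, hp, q, hq, hq', hd⟩ := h T h1 h2 h3
  exact ⟨p, hp, q, hq, hq', hd.trans_le hr⟩

lemma Conn.union {r : ℕ} {S S' : Finset (Vx n)} (h : Conn r S) (h' : Conn r S') {p q : Vx n}
    (hp : p ∈ S) (hq : q ∈ S') (hd : ds p q < r) : Conn r (S ∪ S') := by
  intro T h1 h2 h3
  have key : ∀ Z : Finset (Vx n), Conn r Z → Z ⊆ S ∪ S' → (T ∩ Z).Nonempty → ¬ Z ⊆ T →
      ∃ p ∈ T, ∃ q ∈ S ∪ S', q ∉ T ∧ ds p q < r := by
    intro Z hZ hs a1 a2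
    obtain ⟨a, ha, b, hb, hb', hd⟩ := hZ (T ∩ Z) inter_subset_right a1
      (fun e => a2 (e ▸ inter_subset_left))
    exact ⟨a, (mem_inter.1 ha).1, b, hs hb, fun hT => hb' (mem_inter.2 ⟨hT, hb⟩), hd⟩
  by_cases c1 : S ⊆ T
  · by_cases c2 : S' ⊆ T
    · exact absurd (Subset.antisymm h1 (union_subset c1 c2)) h3
    · by_cases c3 : q ∈ T
      · exact key S' h' subset_union_right ⟨q, mem_inter.2 ⟨c3, hq⟩⟩ c2
      · exact ⟨p, c1 hp, q, mem_union_right _ hq, c3, hd⟩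
  · by_cases c3 : (T ∩ S).Nonempty
    · exact key S h subset_union_left c3 c1
    · have hpT : p ∉ T := fun hT => c3 ⟨p, mem_inter.2 ⟨hT, hp⟩⟩
      by_cases c2 : S' ⊆ T
      · exact ⟨q, c2 hq, p, mem_union_left _ hp, hpT, ds_comm p q ▸ hd⟩
      · obtain ⟨t, ht⟩ := h2
        refine key S' h' subset_union_right ⟨t, mem_inter.2 ⟨ht, ?_⟩⟩ c2
        exact (mem_union.1 (h1 ht)).resolve_left fun hS => c3 ⟨t, mem_inter.2 ⟨ht, hS⟩⟩

open Classical in
noncomputable def Pk (k : ℕ) (S : Finset (Vx n)) : ℕ :=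
  (S.powerset.filter (Spr (rr k))).sup card

lemma le_Pk {k : ℕ} {S T : Finset (Vx n)} (h : T ⊆ S) (hT : Spr (rr k) T) : T.card ≤ Pk k S := by
  classical
  exact le_sup (f := card) (mem_filter.2 ⟨mem_powerset.2 h, hT⟩)

lemma Pk_spec (k : ℕ) (S : Finset (Vx n)) : ∃ T ⊆ S, Spr (rr k) T ∧ T.card = Pk k S := by
  classical
  obtain ⟨T, hT, h⟩ := exists_mem_eq_sup (S.powerset.filter (Spr (rr k)))
    ⟨∅, mem_filter.2 ⟨by simp, by simp [Spr]⟩⟩ card
  rw [mem_filter, mem_powerset] at hT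
  exact ⟨T, hT.1, hT.2, h.symm⟩

lemma one_le_Pk (k : ℕ) {S : Finset (Vx n)} {g : Vx n} (h : g ∈ S) : 1 ≤ Pk k S := by
  simpa using le_Pk (k := k) (singleton_subset_iff.2 h) (by simp [Spr])

lemma Pk_union (k : ℕ) (S S' : Finset (Vx n)) : Pk k (S ∪ S') ≤ Pk k S + Pk k S' := by
  obtain ⟨T, h1, h2, h3⟩ := Pk_spec k (S ∪ S')
  have a1 : (T ∩ S).card ≤ Pk k S := le_Pk inter_subset_right
    fun p hp q hq => h2 p (mem_inter.1 hp).1 q (mem_inter.1 hq).1
  have a2 : (T ∩ S').card ≤ Pk k S' := le_Pk inter_subset_right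
    fun p hp q hq => h2 p (mem_inter.1 hp).1 q (mem_inter.1 hq).1
  have a3 : T = T ∩ S ∪ T ∩ S' := by rw [← inter_union_distrib_left, inter_eq_left.2 h1]
  have a4 := card_union_le (T ∩ S) (T ∩ S')
  rw [← a3] at a4
  omega

lemma Pk_small {j k : ℕ} {S : Finset (Vx n)} (h : Small j S) (hjk : j ≤ k) : Pk k S ≤ 1 := by
  obtain ⟨T, h1, h2, h3⟩ := Pk_spec k S
  rw [← h3]
  refine card_le_one.2 fun a ha b hb => ?_
  by_contra hab
  have := h2 a ha b hb hab
  have := h a (h1 ha) b (h1 hb)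
  have := rr_mono hjk
  have := rr_pos k
  omega

lemma Pk_cover (k : ℕ) (S : Finset (Vx n)) :
    ∃ T : Finset (Vx n), T.card = Pk k S ∧ ∀ p ∈ S, ∃ t ∈ T, ds t p < rr k := by
  obtain ⟨T, h1, h2, h3⟩ := Pk_spec k S
  refine ⟨T, h3, fun p hp => ?_⟩
  by_contra hc
  push Not at hc
  have hpT : p ∉ T := fun h => by have := hc p h; have := rr_pos k; simp at *; omega
  have := le_Pk (k := k) (insert_subset hp h1) (by
    intro a ha b hb hab
    rcases mem_insert.1 ha with rfl | ha' <;> rcases mem_insert.1 hb with rfl | hb'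
    · exact absurd rfl hab
    · rw [ds_comm]; exact hc b hb'
    · exact hc a ha'
    · exact h2 a ha' b hb' hab)
  rw [card_insert_of_notMem hpT] at this
  omega

lemma Pk_double {k : ℕ} {S : Finset (Vx n)} (hc : Conn (rr (k + 1)) S) (hl : ¬ Small (k + 1) S) :
    2 * Pk (k + 2) S ≤ Pk k S := by
  obtain ⟨T, h1, h2, h3⟩ := Pk_spec (k + 2) S
  have e1 := rr_succ k
  have e2 : rr (k + 2) = 64 * rr (k + 1) := rr_succ (k + 1)
  have e0 := rr_pos k
  have : ∀ t ∈ S, ∃ q ∈ S, rr k ≤ ds t q ∧ ds t q < rr k + rr (k + 1) := by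
    intro t ht
    obtain ⟨p, hp, q, hq, hq', hd⟩ := hc (S.filter fun x => ds t x < rr k) (filter_subset _ _)
      ⟨t, by simp [ht, e0]⟩ (by
        intro e
        apply hl
        intro a ha b hb
        rw [← e, mem_filter] at ha hb
        have := ds_tri a t b
        rw [ds_comm a t] at this
        omega)
    rw [mem_filter] at hp hq'
    have := ds_tri t p q
    exact ⟨q, hq, by simpa [hq] using hq', by omega⟩
  choose! f hf1 hf2 hf3 using this
  have far : ∀ a ∈ T, ∀ b ∈ T, a ≠ b → rr k ≤ ds a (f b) ∧ rr k ≤ ds (f a) (f b) := by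
    intro a ha b hb hab
    have := h2 a ha b hb hab
    have := hf3 a (h1 ha)
    have := hf3 b (h1 hb)
    have a1 := ds_tri a (f b) b
    have a2 := ds_tri a (f a) (f b)
    rw [ds_comm (f b) b] at a1
    omega
  have far' : ∀ a ∈ T, ∀ b ∈ T, rr k ≤ ds a (f b) := by
    intro a ha b hb
    by_cases hab : a = b
    · subst hab; exact hf2 a (h1 ha)
    · exact (far a ha b hb hab).1
  have inj : Set.InjOn f T := by
    intro a ha b hb hab
    by_contra hne
    have := (far a ha b hb hne).2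
    rw [hab, ds_self] at this
    omega
  have dj : Disjoint T (T.image f) := by
    rw [disjoint_left]
    intro a ha hb
    obtain ⟨b, hb', rfl⟩ := mem_image.1 hb
    have := far' _ ha b hb'
    rw [ds_self] at this
    omega
  have := le_Pk (k := k) (S := S) (T := T ∪ T.image f) (union_subset h1 (by
    intro a ha
    obtain ⟨b, hb, rfl⟩ := mem_image.1 ha
    exact hf1 b (h1 hb))) (by
    intro a ha b hb hab
    rcases mem_union.1 ha with ha | ha <;> rcases mem_union.1 hb with hb | hb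
    · have := h2 a ha b hb hab
      omega
    · obtain ⟨b, hb', rfl⟩ := mem_image.1 hb
      exact far' a ha b hb'
    · obtain ⟨a, ha', rfl⟩ := mem_image.1 ha
      rw [ds_comm]; exact far' b hb a ha'
    · obtain ⟨b, hb', rfl⟩ := mem_image.1 hb
      obtain ⟨a, ha', rfl⟩ := mem_image.1 ha
      exact (far a ha' b hb' fun e => hab (e ▸ rfl)).2)
  rw [card_union_of_disjoint dj, card_image_of_injOn inj] at this
  omega

lemma terr_card {k : ℕ} {S U : Finset (Vx n)} {S0 : Vx n → Finset (Vx n)}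
    (hf : ∀ c ∈ U, ∀ c' ∈ U, c ≠ c' → Far (rr k) (S0 c) (S0 c'))
    (hU : ∀ c ∈ U, ∃ p ∈ S0 c, ∃ q ∈ S, ds p q < rr (k + 1)) :
    U.card ≤ 66049 * Pk (k + 1) S := by
  obtain ⟨T, h1, h2⟩ := Pk_cover (k + 1) S
  have : ∀ c ∈ U, ∃ p ∈ S0 c, ∃ t ∈ T, ds t p ≤ 128 * rr k := by
    intro c hc
    obtain ⟨p, hp, q, hq, hd⟩ := hU c hc
    obtain ⟨t, ht, hd'⟩ := h2 q hq
    have := ds_tri t q p
    rw [ds_comm q p] at this
    have := rr_succ k
    exact ⟨p, hp, t, ht, by omega⟩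
  choose! p hp t ht hd using this
  have e0 := rr_pos k
  have inj : Set.InjOn p U := by
    intro a ha b hb hab
    by_contra hne
    have := hf a ha b hb hne _ (hp a ha) _ (hp b hb)
    rw [hab, ds_self] at this
    omega
  rw [← h1]
  refine card_le_mul_card_image_of_maps_to ht 66049 fun b _ => ?_
  rw [← card_image_of_injOn (f := p) (inj.mono (by simp [Set.subset_def]; tauto))]
  refine packing _ b 128 e0 ?_ ?_
  · intro x hx
    obtain ⟨c, hc, rfl⟩ := mem_image.1 hx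
    rw [mem_filter] at hc
    rw [← hc.2]; exact hd c hc.1
  · intro x hx y hy hxy
    obtain ⟨c, hc, rfl⟩ := mem_image.1 hx
    obtain ⟨c', hc', rfl⟩ := mem_image.1 hy
    rw [mem_filter] at hc hc'
    exact hf c hc.1 c' hc'.1 (fun e => hxy (e ▸ rfl)) _ (hp c hc.1) _ (hp c' hc'.1)

structure Item (n : ℕ) where
  S : Finset (Vx n)
  ρ : Vx n → ℤ
  z : ℝ
  sg : ℕ → Vx n → ℤ
  w : ℕ

def pr (ρ : Vx n → ℤ) (ψ : Vx n → ℝ) : ℝ := ∑ x, ρ x * ψ x

noncomputable def fac (a : Item n) (ψ : Vx n → ℝ) : ℝ :=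
  1 + a.z * Real.cos (2 * Real.pi * pr a.ρ ψ)

noncomputable def Psi (X : Finset (Vx n)) (it : Vx n → Item n) (ψ : Vx n → ℝ) : ℝ :=
  ∏ g ∈ X, fac (it g) ψ

structure Ok (K : ℕ) (g : Vx n) (a : Item n) (k : ℕ) : Prop where
  mem : g ∈ a.S
  supp : ∀ x, a.ρ x ≠ 0 → x ∈ a.S
  cen : ∀ i c, a.sg i c ≠ 0 → c ∈ a.S ∧ i < k
  sep : Sep a.sg
  l1 : ∑ x, |(a.ρ x : ℝ)| ≤ a.w
  nbw : nb K a.sg ≤ a.w
  gain : (a.w : ℝ) ≤ pr a.ρ (sw K a.sg)
  one : 1 ≤ a.w

lemma Ok.mono {K : ℕ} {g : Vx n} {a : Item n} {k k' : ℕ} (h : Ok K g a k) (hk : k ≤ k') :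
    Ok K g a k' :=
  { h with cen := fun i c hc => ⟨(h.cen i c hc).1, (h.cen i c hc).2.trans_le hk⟩ }

lemma sw_add (K : ℕ) (sg sg' : ℕ → Vx n → ℤ) (s : ℤ) (x : Vx n) :
    sw K (fun i c => sg i c + s * sg' i c) x = sw K sg x + s * sw K sg' x := by
  simp only [sw, mul_sum, ← sum_add_distrib]
  refine sum_congr rfl fun i _ => sum_congr rfl fun c _ => ?_
  push_cast; ring

lemma nb_add (K : ℕ) (sg sg' : ℕ → Vx n → ℤ) {s : ℤ} (hs : s = 1 ∨ s = -1) :
    nb K (fun i c => sg i c + s * sg' i c) ≤ nb K sg + nb K sg' := by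
  simp only [nb, ← sum_add_distrib]
  refine sum_le_sum fun i _ => sum_le_sum fun c _ => ?_
  push_cast
  refine (abs_add_le _ _).trans ?_
  rcases hs with rfl | rfl <;> simp

def one1 (j : ℕ) (g : Vx n) : ℕ → Vx n → ℤ := fun i c => if i = j ∧ c = g then 1 else 0

lemma sw_one1 {K j : ℕ} (h : j < K) (g x : Vx n) : sw K (one1 j g) x = bump j g x := by
  unfold sw one1
  rw [sum_eq_single j, sum_eq_single g] <;> simp +contextual [h]

lemma nb_one1 {K j : ℕ} (h : j < K) (g : Vx n) : nb K (one1 j g) = 1 := by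
  unfold nb one1
  rw [sum_eq_single j, sum_eq_single g] <;> simp +contextual [h]

lemma pr_add (ρ ρ' : Vx n → ℤ) (s : ℤ) (ψ : Vx n → ℝ) :
    pr (fun x => ρ x + s * ρ' x) ψ = pr ρ ψ + s * pr ρ' ψ := by
  simp only [pr, mul_sum, ← sum_add_distrib]
  refine sum_congr rfl fun c _ => ?_
  push_cast; ring

lemma pr_add' (ρ : Vx n → ℤ) (s : ℝ) (ψ ψ' : Vx n → ℝ) :
    pr ρ (fun x => ψ x + s * ψ' x) = pr ρ ψ + s * pr ρ ψ' := by
  simp only [pr, mul_sum, ← sum_add_distrib]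
  refine sum_congr rfl fun c _ => ?_
  ring

lemma pr_cross {K r : ℕ} {ρ : Vx n → ℤ} {sg : ℕ → Vx n → ℤ} {S T : Finset (Vx n)}
    (h1 : ∀ x, ρ x ≠ 0 → x ∈ S) (h2 : ∀ i c, sg i c ≠ 0 → c ∈ T ∧ rr i ≤ r) (hf : Far r S T) :
    pr ρ (sw K sg) = 0 := by
  refine sum_eq_zero fun x _ => ?_
  by_cases hx : ρ x = 0
  · simp [hx]
  · rw [sw_zero, mul_zero]
    intro i c hc
    have := hf x (h1 x hx) c (h2 i c hc).1
    have := (h2 i c hc).2
    rw [ds_comm c x]
    omega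

def mrg (a b : Item n) (s : ℤ) : Item n where
  S := a.S ∪ b.S
  ρ := fun x => a.ρ x + s * b.ρ x
  z := 3 * a.z * b.z
  sg := fun i c => a.sg i c + s * b.sg i c
  w := a.w + b.w

lemma Sep.add {sg sg' : ℕ → Vx n → ℤ} (h : Sep sg) (h' : Sep sg') {s : ℤ} (hs : s = 1 ∨ s = -1)
    (hf : ∀ i c c', sg i c ≠ 0 → sg' i c' ≠ 0 → rr i ≤ ds c c') :
    Sep fun i c => sg i c + s * sg' i c := by
  constructor
  · intro i c
    by_cases h0 : sg i c = 0
    · have := h'.le i c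
      rcases hs with rfl | rfl <;> simpa [h0] using this
    · by_cases h1 : sg' i c = 0
      · simpa [h1] using h.le i c
      · have := hf i c c h0 h1
        have := rr_pos i
        simp at *; omega
  · intro i c c' h1 h2 hne
    have a : ∀ c, sg i c + s * sg' i c ≠ 0 → sg i c ≠ 0 ∨ sg' i c ≠ 0 := by
      intro c hc
      by_contra hh
      push Not at hh
      simp [hh.1, hh.2] at hc
    rcases a c h1 with h1 | h1 <;> rcases a c' h2 with h2 | h2
    · exact h.sep i c c' h1 h2 hne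
    · exact hf i c c' h1 h2
    · rw [ds_comm]; exact hf i c' c h2 h1
    · exact h'.sep i c c' h1 h2 hne

lemma Ok.mrg {K k : ℕ} {g h : Vx n} {a b : Item n} (ha : Ok K g a (k + 1)) (hb : Ok K h b (k + 1))
    (hf : Far (rr k) a.S b.S) {s : ℤ} (hs : s = 1 ∨ s = -1) : Ok K g (mrg a b s) (k + 1) := by
  have ca : ∀ i c, a.sg i c ≠ 0 → c ∈ a.S ∧ rr i ≤ rr k := fun i c hc =>
    ⟨(ha.cen i c hc).1, rr_mono (Nat.lt_succ_iff.1 (ha.cen i c hc).2)⟩
  have cb : ∀ i c, b.sg i c ≠ 0 → c ∈ b.S ∧ rr i ≤ rr k := fun i c hc =>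
    ⟨(hb.cen i c hc).1, rr_mono (Nat.lt_succ_iff.1 (hb.cen i c hc).2)⟩
  refine ⟨mem_union_left _ ha.mem, ?_, ?_, ?_, ?_, ?_, ?_, ?_⟩
  · intro x hx
    by_cases h0 : a.ρ x = 0
    · exact mem_union_right _ (hb.supp x fun h1 => hx (by simp [MP_9cc147_pr.mrg, h0, h1]))
    · exact mem_union_left _ (ha.supp x h0)
  · intro i c hc
    by_cases h0 : a.sg i c = 0
    · have := hb.cen i c fun h1 => hc (by simp [MP_9cc147_pr.mrg, h0, h1])
      exact ⟨mem_union_right _ this.1, this.2⟩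
    · exact ⟨mem_union_left _ (ha.cen i c h0).1, (ha.cen i c h0).2⟩
  · exact ha.sep.add hb.sep hs fun i c c' h1 h2 =>
      (ca i c h1).2.trans (hf c (ca i c h1).1 c' (cb i c' h2).1)
  · have h1 := ha.l1
    have h2 := hb.l1
    simp only [MP_9cc147_pr.mrg]
    push_cast
    refine le_trans ?_ (add_le_add h1 h2)
    rw [← sum_add_distrib]
    refine sum_le_sum fun c _ => (abs_add_le _ _).trans ?_
    rcases hs with rfl | rfl <;> simp
  · refine (nb_add K _ _ hs).trans ?_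
    simp only [MP_9cc147_pr.mrg]
    push_cast
    exact add_le_add ha.nbw hb.nbw
  · simp only [MP_9cc147_pr.mrg]
    have e : sw K (fun i c => a.sg i c + s * b.sg i c) =
      fun x => sw K a.sg x + (s : ℝ) * sw K b.sg x := funext (sw_add K _ _ s)
    rw [e, pr_add, pr_add', pr_add', pr_cross ha.supp cb hf, pr_cross hb.supp ca hf.symm]
    have h1 := ha.gain
    have h2 := hb.gain
    push_cast
    rcases hs with rfl | rfl <;> simp <;> linarith
  · exact ha.one.trans (Nat.le_add_right _ _)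

def lay (a : Item n) (g : Vx n) (j : ℕ) : Item n :=
  { a with sg := fun i c => a.sg i c + (∑ x, a.ρ x).sign * one1 j g i c, w := a.w + 1 }

lemma Ok.lay {K j : ℕ} {g : Vx n} {a : Item n} (ha : Ok K g a j) (hj : j < K) (hs : Small j a.S)
    (hQ : ∑ x, a.ρ x ≠ 0) : Ok K g (lay a g j) (j + 1) := by
  have hsg : (∑ x, a.ρ x).sign = 1 ∨ (∑ x, a.ρ x).sign = -1 := by
    rcases lt_or_gt_of_ne hQ with h | h
    · exact Or.inr (Int.sign_eq_neg_one_of_neg h)
    · exact Or.inl (Int.sign_eq_one_of_pos h)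
  have o1 : ∀ i c, one1 j g i c ≠ 0 → i = j ∧ c = g := by
    intro i c h
    by_contra hh
    simp [one1, hh] at h
  refine ⟨ha.mem, ha.supp, ?_, ?_, ?_, ?_, ?_, ?_⟩
  · intro i c hc
    by_cases h0 : a.sg i c = 0
    · obtain ⟨rfl, rfl⟩ := o1 i c fun h1 => hc (by simp [MP_9cc147_pr.lay, h0, h1])
      exact ⟨ha.mem, Nat.lt_succ_self _⟩
    · exact ⟨(ha.cen i c h0).1, (ha.cen i c h0).2.trans (Nat.lt_succ_self _)⟩
  · refine ha.sep.add ⟨fun i c => ?_, fun i c c' h1 h2 hne => ?_⟩ hsg fun i c c' h1 h2 => ?_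
    · unfold one1; split_ifs <;> simp
    · exact absurd ((o1 i c h1).2.trans (o1 i c' h2).2.symm) hne
    · have := (ha.cen i c h1).2
      have := (o1 i c' h2).1
      omega
  · have := ha.l1
    simp only [MP_9cc147_pr.lay]
    push_cast; linarith
  · refine (nb_add K _ _ hsg).trans ?_
    rw [nb_one1 hj]
    simp only [MP_9cc147_pr.lay]
    push_cast; linarith [ha.nbw]
  · simp only [MP_9cc147_pr.lay]
    have e : sw K (fun i c => a.sg i c + (∑ x, a.ρ x).sign * one1 j g i c) =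
      fun x => sw K a.sg x + ((∑ x, a.ρ x).sign : ℝ) * sw K (one1 j g) x :=
        funext (sw_add K _ _ _)
    have e2 : pr a.ρ (sw K (one1 j g)) = (∑ x, a.ρ x : ℤ) := by
      push_cast
      refine sum_congr rfl fun x _ => ?_
      by_cases hx : a.ρ x = 0
      · simp [hx]
      · have := hs g ha.mem x (ha.supp x hx)
        rw [sw_one1 hj, bump_one (by omega), mul_one]
    rw [e, pr_add', e2, ← Int.cast_mul, Int.sign_mul_self_eq_natAbs]
    have h1 := ha.gain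
    have h2 : (1 : ℝ) ≤ ((∑ x, a.ρ x).natAbs : ℤ) := by
      exact_mod_cast Int.natAbs_pos.2 hQ
    push_cast at h2 ⊢
    linarith
  · exact Nat.le_add_left _ _

end Pool.Agent.Lib.MP_9cc147_pr
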