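import Mathlib

/-! Second order Schwarz estimate and contour shift for integrals over `V → ℝ`. -/

open Complex Metric Set MeasureTheory Filter Topology

namespace Pool.Agent.Lib.MP_9cc147_pr

lemma mapsTo_cb {f : ℂ → ℂ} {c : ℂ} {R B : ℝ} (hR : 0 < R) (hB : ∀ z ∈ ball c R, ‖f z‖ ≤ B) :
    MapsTo f (ball c R) (closedBall (f c) (2 * B)) := by
  intro z hz
  rw [mem_closedBall, dist_eq_norm]
  have h1 := hB z hz
  have h2 := hB c (mem_ball_self hR)
  have := norm_sub_le (f z) (f c)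
  linarith

lemma schwarz2 {f : ℂ → ℂ} {R B : ℝ} (hd : DifferentiableOn ℂ f (ball 0 R))
    (hB : ∀ z ∈ ball (0 : ℂ) R, ‖f z‖ ≤ B) (hre : ∀ t : ℝ, |t| < R → (f t).im = 0)
    {y : ℝ} (hy : |y| < R) : |(f (y * I)).re - (f 0).re| ≤ 4 * B * y ^ 2 / R ^ 2 := by
  have hR : 0 < R := (abs_nonneg _).trans_lt hy
  have hn : ball (0 : ℂ) R ∈ 𝓝 (0 : ℂ) := ball_mem_nhds _ hR
  set g := dslope f 0 with hg
  have hgd : DifferentiableOn ℂ g (ball 0 R) := (Complex.differentiableOn_dslope hn).2 hd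
  have hgB : ∀ z ∈ ball (0 : ℂ) R, ‖g z‖ ≤ 2 * B / R := fun z hz =>
    norm_dslope_le_div_of_mapsTo_ball hd (mapsTo_cb hR hB) hz
  set h := dslope g 0 with hh
  have hyI : (y : ℂ) * I ∈ ball (0 : ℂ) R := by simpa using hy
  have hhB : ‖h (y * I)‖ ≤ 2 * (2 * B / R) / R :=
    norm_dslope_le_div_of_mapsTo_ball hgd (mapsTo_cb hR hgB) hyI
  have e1 : ∀ z, f z = f 0 + z * g z := by
    intro z
    have := sub_smul_dslope f 0 z
    simp only [sub_zero, smul_eq_mul] at this
    rw [hg, this]; ring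
  have e2 : ∀ z, g z = g 0 + z * h z := by
    intro z
    have := sub_smul_dslope g 0 z
    simp only [sub_zero, smul_eq_mul] at this
    rw [hh, this]; ring
  have hf0 : (f 0).im = 0 := by simpa using hre 0 (by simpa using hR)
  have hg0 : (g 0).im = 0 := by
    have hc : ContinuousAt g 0 := (hgd.differentiableAt hn).continuousAt
    have hc2 : ContinuousAt (fun t : ℝ => (g t).im) 0 := by
      refine continuous_im.continuousAt.comp ?_
      refine ContinuousAt.comp (g := g) ?_ continuous_ofReal.continuousAt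
      simpa using hc
    have t1 : Tendsto (fun t : ℝ => (g t).im) (𝓝[≠] 0) (𝓝 (g 0).im) := by
      simpa using hc2.tendsto.mono_left nhdsWithin_le_nhds
    have t2 : (fun t : ℝ => (g t).im) =ᶠ[𝓝[≠] 0] fun _ => 0 := by
      have : ∀ᶠ t : ℝ in 𝓝 0, |t| < R := by
        have := ball_mem_nhds (0 : ℝ) hR
        filter_upwards [this] with t ht using by simpa using ht
      filter_upwards [self_mem_nhdsWithin, nhdsWithin_le_nhds this] with t ht ht2
      have h1 := congrArg im (e1 t)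
      rw [hre t ht2] at h1
      simp only [add_im, hf0, mul_im, ofReal_re, ofReal_im, zero_mul, add_zero, zero_add] at h1
      exact (mul_eq_zero.1 h1.symm).resolve_left ht
    exact tendsto_nhds_unique t1 (tendsto_const_nhds.congr' t2.symm)
  have e3 : (f (y * I)).re - (f 0).re = -(y ^ 2 * (h (y * I)).re) := by
    rw [e1 (y * I), e2 (y * I)]
    simp [hg0]; ring
  rw [e3, abs_neg, abs_mul, abs_of_nonneg (sq_nonneg y)]
  have := (abs_re_le_norm (h (y * I))).trans hhB
  calc y ^ 2 * |(h (y * I)).re| ≤ y ^ 2 * (2 * (2 * B / R) / R) := by gcongr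
    _ = _ := by field_simp; ring

variable {V : Type*} [Fintype V]

/-- real point plus a complex multiple of a real direction -/
def pt (ψ a : V → ℝ) (t : ℂ) : V → ℂ := fun x => ψ x + t * a x

/-- real point as a complex point -/
def cx (ψ : V → ℝ) : V → ℂ := fun x => ψ x

omit [Fintype V] in
lemma pt_zero (ψ a : V → ℝ) : pt ψ a 0 = cx ψ := by ext x; simp [pt, cx]

lemma cont_cx : Continuous (cx : (V → ℝ) → V → ℂ) := by unfold cx; fun_prop

lemma hasDerivAt_pt (ψ a : V → ℝ) (t : ℂ) : HasDerivAt (pt ψ a) (cx a) t := by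
  refine hasDerivAt_pi.2 fun x => ?_
  simpa [pt, cx] using ((hasDerivAt_id t).mul_const (a x : ℂ)).const_add (ψ x : ℂ)

lemma shift (A : (V → ℂ) → ℂ) (B : (V → ℝ) → ℂ) (a : V → ℝ) {U : Set (V → ℂ)} (hU : IsOpen U)
    (hA : DifferentiableOn ℂ A U) {ρ : ℝ} (hin : ∀ ψ t, |t.im| < ρ → pt ψ a t ∈ U)
    (hB : AEStronglyMeasurable B) (hinv : ∀ ψ (s : ℝ), B (ψ + s • a) = B ψ)
    (hdom : ∀ R : ℝ, ∃ g : (V → ℝ) → ℝ, Integrable g ∧
      ∀ ψ t, |t.im| < ρ → ‖t‖ ≤ R → ‖A (pt ψ a t) * B ψ‖ ≤ g ψ) {y : ℝ} (hy : |y| < ρ) :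
    ∫ ψ, A (cx ψ) * B ψ = ∫ ψ, A (pt ψ a (y * I)) * B ψ := by
  have hρ : 0 < ρ := (abs_nonneg _).trans_lt hy
  set S : Set ℂ := {t | |t.im| < ρ} with hS
  have hSo : IsOpen S := isOpen_lt (by fun_prop) continuous_const
  have hSc : Convex ℝ S := by
    have : S = {t | t.im < ρ} ∩ {t | -ρ < t.im} := by
      ext t; simp [hS, abs_lt, and_comm]
    rw [this]
    exact (convex_halfSpace_im_lt ρ).inter (convex_halfSpace_im_gt (-ρ))
  set F : ℂ → (V → ℝ) → ℂ := fun t ψ => A (pt ψ a t) * B ψ with hF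
  have hpc : ∀ t, Continuous fun ψ => pt ψ a t := by intro t; unfold pt; fun_prop
  have hmeas : ∀ t ∈ S, AEStronglyMeasurable (F t) := by
    intro t ht
    refine AEStronglyMeasurable.mul ?_ hB
    exact (hA.continuousOn.comp_continuous (hpc t) fun ψ => hin ψ t ht).aestronglyMeasurable
  have hder : ∀ t ∈ S, ∀ ψ, HasDerivAt (F · ψ) (fderiv ℂ A (pt ψ a t) (cx a) * B ψ) t := by
    intro t ht ψ
    have h1 := (hA.differentiableAt (hU.mem_nhds (hin ψ t ht))).hasFDerivAt
    exact (h1.comp_hasDerivAt t (hasDerivAt_pt ψ a t)).mul_const (B ψ)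
  have hG : DifferentiableOn ℂ (fun t => ∫ ψ, F t ψ) S := by
    intro t0 ht0
    obtain ⟨δ, hδ, hsub⟩ := Metric.isOpen_iff.1 hSo t0 ht0
    obtain ⟨g, hg, hgb⟩ := hdom (‖t0‖ + δ)
    have hb : ∀ t ∈ ball t0 δ, ∀ ψ, ‖F t ψ‖ ≤ g ψ := by
      intro t ht ψ
      refine hgb ψ t (hsub ht) ?_
      have := norm_sub_norm_le t t0
      rw [mem_ball, dist_eq_norm] at ht
      linarith
    have hsub2 : ∀ t ∈ ball t0 (δ / 2), ball t (δ / 2) ⊆ ball t0 δ := by
      intro t ht
      refine ball_subset_ball' ?_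
      rw [mem_ball] at ht; linarith
    refine (hasDerivAt_integral_of_dominated_loc_of_deriv_le (μ := volume) (F := F)
      (F' := fun t ψ => fderiv ℂ A (pt ψ a t) (cx a) * B ψ) (s := ball t0 (δ / 2))
      (bound := fun ψ => 2 * g ψ / (δ / 2)) (ball_mem_nhds _ (by positivity)) ?_ ?_ ?_ ?_ ?_
      ?_).2.differentiableAt.differentiableWithinAt
    · filter_upwards [hSo.mem_nhds ht0] with t ht using hmeas t ht
    · exact hg.mono' (hmeas t0 ht0) (Eventually.of_forall fun ψ => hb t0 (mem_ball_self hδ) ψ)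
    · refine AEStronglyMeasurable.mul ?_ hB
      exact ((measurable_fderiv_apply_const ℂ A (cx a)).comp
        (hpc t0).measurable).aestronglyMeasurable
    · refine Eventually.of_forall fun ψ t ht => ?_
      have htS : t ∈ S := hsub (ball_subset_ball (by linarith) ht)
      rw [← (hder t htS ψ).deriv]
      refine norm_deriv_le_div_of_mapsTo_ball ?_ (mapsTo_cb (by positivity) ?_) (by positivity)
      · intro s hs
        exact (hder s (hsub (hsub2 t ht hs)) ψ).differentiableAt.differentiableWithinAt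
      · intro s hs
        exact hb s (hsub2 t ht hs) ψ
    · exact (hg.const_mul 2).div_const _
    · exact Eventually.of_forall fun ψ t ht =>
        hder t (hsub (ball_subset_ball (by linarith) ht)) ψ
  have hreal : ∀ s : ℝ, ∫ ψ, F s ψ = ∫ ψ, F 0 ψ := by
    intro s
    rw [← integral_add_right_eq_self (fun ψ => F 0 ψ) (s • a)]
    refine integral_congr_ae (Eventually.of_forall fun ψ => ?_)
    simp only [hF, hinv]
    congr 2
    ext x; simp [pt]
  have h0 : (0 : ℂ) ∈ S := by simpa [hS] using hρ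
  have hfr : ∃ᶠ z in 𝓝[≠] (0 : ℂ), (fun t => ∫ ψ, F t ψ) z = (fun _ => ∫ ψ, F 0 ψ) z := by
    have ht : Tendsto (fun s : ℝ => (s : ℂ)) (𝓝[≠] 0) (𝓝[≠] 0) := by
      refine tendsto_nhdsWithin_iff.2 ⟨?_, ?_⟩
      · simpa using (continuous_ofReal.tendsto 0).mono_left nhdsWithin_le_nhds
      · filter_upwards [self_mem_nhdsWithin] with s hs using by simpa using hs
    exact ht.frequently (Frequently.of_forall hreal)
  have := (hG.analyticOnNhd hSo).eqOn_of_preconnected_of_frequently_eq analyticOnNhd_const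
    hSc.isPreconnected h0 hfr (x := y * I) (by simpa [hS] using hy)
  simp only [hF, pt_zero] at this
  exact this.symm

end Pool.Agent.Lib.MP_9cc147_pr
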