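import Pool.Agent.Lib.MP_9cc147_pr.Cost

/-! One complex translation. -/

open Finset Complex Metric MeasureTheory Filter
open scoped ComplexConjugate Real

namespace Pool.Agent.Lib.MP_9cc147_pr

variable {n : ℕ}

lemma diffOn_prod {ι : Type*} {T : Finset ι} {f : ι → (Vx n → ℂ) → ℂ} {U : Set (Vx n → ℂ)}
    (h : ∀ i ∈ T, DifferentiableOn ℂ (f i) U) :
    DifferentiableOn ℂ (fun φ => ∏ i ∈ T, f i φ) U := by
  classical
  induction T using Finset.induction_on with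
  | empty => simp
  | insert a s ha ih =>
    simp only [prod_insert ha]
    exact (h a (mem_insert_self _ _)).mul (ih fun i hi => h i (mem_insert_of_mem hi))

noncomputable def prc (ρ : Vx n → ℝ) (φ : Vx n → ℂ) : ℂ := ∑ x, ρ x * φ x

noncomputable def Base (W : ℂ → ℂ) (lam : ℝ) (φ : Vx n → ℂ) : ℂ :=
  exp (I * lam * (φ (vl n) - φ (vz n))) * exp (-∑ e ∈ Ed n, W (gr φ e))

def Adm (H : (Vx n → ℝ) → ℂ) : Prop :=
  AEStronglyMeasurable H ∧ ∃ M, ∀ ψ, ‖H ψ‖ ≤ M ∧ (2 < |ψ (vz n)| → H ψ = 0)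

lemma Adm.mul {H G : (Vx n → ℝ) → ℂ} (hH : Adm H) (hG : Continuous G) {M : ℝ}
    (hM : ∀ ψ, ‖G ψ‖ ≤ M) : Adm fun ψ => G ψ * H ψ := by
  obtain ⟨h1, M', h2⟩ := hH
  refine ⟨hG.aestronglyMeasurable.mul h1, M * M', fun ψ => ⟨?_, fun h => by simp [(h2 ψ).2 h]⟩⟩
  rw [norm_mul]
  exact mul_le_mul (hM ψ) (h2 ψ).1 (norm_nonneg _) ((norm_nonneg _).trans (hM ψ))

/-- decay exponent -/
def pp (n : ℕ) : ℝ := (Fintype.card (Vx n) : ℝ) + 1

lemma integrable_maj : Integrable fun ψ : Vx n → ℝ => (1 + ‖ψ‖) ^ (-pp n) :=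
  integrable_one_add_norm (by simp [pp])

lemma weight_bound {W : ℂ → ℂ} {Y b : ℝ} (hW : WP W Y b) {p : ℝ} (hp : 0 ≤ p) {R : ℝ} (hR : 0 ≤ R) :
    ∃ C, 0 ≤ C ∧ ∀ (φ : Vx n → ℂ) (ψ : Vx n → ℝ), (∀ e ∈ Ed n, gr φ e ∈ strip (40 * Y)) →
      |ψ (vz n)| ≤ R → (∀ e ∈ Ed n, |(gr φ e).re - (ψ e.1 - ψ e.2)| ≤ R) →
      ‖exp (-∑ e ∈ Ed n, W (gr φ e))‖ ≤ C * (1 + ‖ψ‖) ^ (-p) := by
  obtain ⟨C, hC⟩ := hW.grow p hp
  refine ⟨Real.exp ((Ed n).card * C) * ((1 + R + 2 * n) * (1 + R)) ^ p, by positivity,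
    fun φ ψ h1 h2 h3 => ?_⟩
  set S := ∑ e ∈ Ed n, Real.log (1 + |(gr φ e).re|) with hS
  have l0 : ∀ e ∈ Ed n, 0 ≤ Real.log (1 + |(gr φ e).re|) := fun e _ =>
    Real.log_nonneg (by linarith [abs_nonneg (gr φ e).re])
  have hS0 : 1 ≤ Real.exp S := Real.one_le_exp (sum_nonneg l0)
  have a1 : ∀ e ∈ Ed n, ‖ψ e.1 - ψ e.2‖ ≤ (1 + R) * Real.exp S := by
    intro e he
    have b1 := Real.exp_le_exp.2 (single_le_sum l0 he)
    rw [Real.exp_log (by positivity)] at b1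
    have b2 := abs_sub_abs_le_abs_sub (ψ e.1 - ψ e.2) (gr φ e).re
    rw [abs_sub_comm _ (gr φ e).re] at b2
    rw [Real.norm_eq_abs]
    nlinarith [h3 e he]
  have a2 : 1 + ‖ψ‖ ≤ (1 + R + 2 * n) * (1 + R) * Real.exp S := by
    have : ‖ψ‖ ≤ R + 2 * n * ((1 + R) * Real.exp S) := by
      refine (pi_norm_le_iff_of_nonneg (by positivity)).2 fun x => ?_
      have b1 := path ψ (vz n) n (by positivity) (fun e he _ _ => a1 e he) x (ds_le _ _)
      have b2 : (ds (vz n) x : ℝ) ≤ n := by exact_mod_cast ds_le _ _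
      have b3 : 2 * (ds (vz n) x : ℝ) * ((1 + R) * Real.exp S) ≤ 2 * n * ((1 + R) * Real.exp S) := by
        gcongr
      have b4 := abs_sub_abs_le_abs_sub (ψ x) (ψ (vz n))
      rw [Real.norm_eq_abs] at b1 ⊢
      linarith
    have b5 : 1 ≤ (1 + R) * Real.exp S := by nlinarith
    nlinarith
  have a3 : p * S - (Ed n).card * C ≤ ∑ e ∈ Ed n, (W (gr φ e)).re := by
    rw [hS, mul_sum, ← nsmul_eq_mul, ← sum_const, ← sum_sub_distrib]
    exact sum_le_sum fun e he => hC _ (h1 e he)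
  have a4 : (1 + ‖ψ‖) ^ p ≤ ((1 + R + 2 * n) * (1 + R)) ^ p * Real.exp (p * S) := by
    rw [mul_comm p, Real.exp_mul, ← Real.mul_rpow (by positivity) (by positivity)]
    exact Real.rpow_le_rpow (by positivity) a2 hp
  rw [norm_exp, neg_re, re_sum, Real.rpow_neg (by positivity), ← div_eq_mul_inv,
    le_div_iff₀ (by positivity)]
  refine (mul_le_mul (Real.exp_le_exp.2 (neg_le_neg a3)) a4 (by positivity) (by positivity)).trans
    (le_of_eq ?_)
  rw [mul_comm _ (Real.exp (p * S)), ← mul_assoc, ← Real.exp_add]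
  congr 2; ring

lemma cx_strip {Y : ℝ} (hY : 1 ≤ Y) (ψ : Vx n → ℝ) (e : Vx n × Vx n) :
    gr (cx ψ) e ∈ strip (40 * Y) := by
  simp only [strip, gr, cx, Set.mem_ofPred_eq, sub_im, ofReal_im, sub_self, abs_zero]
  linarith

lemma base_diff {W : ℂ → ℂ} {Y b : ℝ} (hW : WP W Y b) (lam : ℝ) :
    DifferentiableOn ℂ (Base (n := n) W lam) {φ | ∀ e ∈ Ed n, gr φ e ∈ strip (40 * Y)} := by
  unfold Base
  refine DifferentiableOn.mul (by fun_prop) (DifferentiableOn.cexp (DifferentiableOn.neg ?_))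
  refine DifferentiableOn.fun_sum fun e he => hW.diff.comp (by unfold gr; fun_prop) ?_
  exact fun φ hφ => hφ e he

lemma base_cont {W : ℂ → ℂ} {Y b : ℝ} (hW : WP W Y b) (hY : 1 ≤ Y) (lam : ℝ) :
    Continuous fun ψ : Vx n → ℝ => Base W lam (cx ψ) :=
  (base_diff hW lam).continuousOn.comp_continuous cont_cx fun ψ e _ => cx_strip hY ψ e

lemma norm_base_real (W : ℂ → ℂ) (lam : ℝ) (ψ : Vx n → ℝ) :
    ‖Base W lam (cx ψ)‖ = ‖exp (-∑ e ∈ Ed n, W (gr (cx ψ) e))‖ := by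
  rw [Base, norm_mul, norm_exp]; simp [cx]

lemma integrable_base {W : ℂ → ℂ} {Y b : ℝ} (hW : WP W Y b) (hY : 1 ≤ Y) (lam : ℝ)
    {H : (Vx n → ℝ) → ℂ} (hH : Adm H) : Integrable fun ψ => Base W lam (cx ψ) * H ψ := by
  obtain ⟨C, hC0, hC⟩ := weight_bound (n := n) hW (p := pp n) (by unfold pp; positivity)
    (R := 2) (by norm_num)
  obtain ⟨h1, M, h2⟩ := hH
  refine ((integrable_maj.const_mul C).mul_const M).mono'
    ((base_cont hW hY lam).aestronglyMeasurable.mul h1) (Eventually.of_forall fun ψ => ?_)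
  have hM := (norm_nonneg _).trans (h2 ψ).1
  by_cases h : 2 < |ψ (vz n)|
  · rw [(h2 ψ).2 h, mul_zero, norm_zero]; positivity
  · rw [norm_mul, norm_base_real]
    exact mul_le_mul (hC _ ψ (fun e _ => cx_strip hY ψ e) (not_lt.1 h)
      (fun e _ => by simp [gr, cx])) (h2 ψ).1 (norm_nonneg _) (by positivity)

noncomputable def Fac (W : ℂ → ℂ) (K : ℕ) (sg : ℕ → Vx n → ℤ) (lam : ℝ) (ρ : Vx n → ℝ)
    (T : Finset (Vx n)) (Z : Vx n → (Vx n → ℂ) → ℂ) (t : ℝ) (φ : Vx n → ℂ) : ℂ :=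
  exp (2 * π * I * prc ρ (sh φ (nw K sg) (t * I))) * exp (-(lam * t * nw K sg (vl n) : ℝ)) *
    (∏ e ∈ act K sg, exp (W (gr φ e) - W (gr (sh φ (nw K sg) (t * I)) e))) *
    ∏ τ ∈ T, (1 + Z τ (sh φ (nw K sg) (t * I))) / (1 + Z τ φ)

lemma nw_vz (K : ℕ) (sg : ℕ → Vx n → ℤ) : nw K sg (vz n) = 0 := sub_self _

lemma nw_grad (K : ℕ) {sg : ℕ → Vx n → ℤ} (hs : Sep sg) {e : Vx n × Vx n} (he : e ∈ Ed n) :
    |nw K sg e.1 - nw K sg e.2| ≤ 17 := by
  rw [nw_sub]; simpa [rr] using sw_grad K hs he 0 (by simp)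

lemma base_sh (W : ℂ → ℂ) (K : ℕ) (sg : ℕ → Vx n → ℤ) (lam t : ℝ) (φ : Vx n → ℂ) :
    Base W lam (sh φ (nw K sg) (t * I)) = Base W lam φ * (exp (-(lam * t * nw K sg (vl n) : ℝ)) *
      ∏ e ∈ act K sg, exp (W (gr φ e) - W (gr (sh φ (nw K sg) (t * I)) e))) := by
  have e1 : ∑ e ∈ act K sg, (W (gr φ e) - W (gr (sh φ (nw K sg) (t * I)) e)) =
      ∑ e ∈ Ed n, (W (gr φ e) - W (gr (sh φ (nw K sg) (t * I)) e)) := by
    refine sum_subset (filter_subset _ _) fun e he hn => ?_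
    have : sw K sg e.1 = sw K sg e.2 := by simpa [act, he] using hn
    rw [gr_sh, nw_sub, this]; simp
  rw [← exp_sum, e1, sum_sub_distrib, Base, Base]
  simp only [← exp_add]
  congr 1
  simp only [sh, nw_vz]
  push_cast
  linear_combination (lam * t * nw K sg (vl n) : ℂ) * I_mul_I

lemma step {W : ℂ → ℂ} {Y b : ℝ} (hW : WP W Y b) (hY : 1 ≤ Y) (K : ℕ) {sg : ℕ → Vx n → ℤ}
    (hs : Sep sg) (lam : ℝ) (ρ : Vx n → ℝ) {T : Finset (Vx n)} {sc : Vx n → ℕ}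
    {Z : Vx n → (Vx n → ℂ) → ℂ} (hZ : ∀ τ ∈ T, ZP Y (sc τ) τ (Z τ))
    (hgr : ∀ τ ∈ T, ∀ e ∈ blk (sc τ) τ, |nw K sg e.1 - nw K sg e.2| ≤ 17 / (64 * rr (sc τ)))
    {B : (Vx n → ℝ) → ℂ} (hB : Adm B) (hinv : ∀ ψ (s : ℝ), B (ψ + s • nw K sg) = B ψ)
    {t : ℝ} (ht : |t| ≤ Y) :
    ∫ ψ, (Base W lam (cx ψ) * exp (2 * π * I * prc ρ (cx ψ)) * ∏ τ ∈ T, (1 + Z τ (cx ψ))) * B ψ =
      ∫ ψ, (Base W lam (cx ψ) * Fac W K sg lam ρ T Z t (cx ψ) * ∏ τ ∈ T, (1 + Z τ (cx ψ))) * B ψ := by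
  set U : Set (Vx n → ℂ) := {φ | ∀ e ∈ Ed n, gr φ e ∈ strip (40 * Y)} ∩
    ⋂ τ ∈ T, tube Y (sc τ) τ with hU
  have hUo : IsOpen U := by
    refine IsOpen.inter ?_ (isOpen_biInter_finset fun τ _ => tube_open _ _ _)
    have : {φ : Vx n → ℂ | ∀ e ∈ Ed n, gr φ e ∈ strip (40 * Y)} =
      ⋂ e ∈ Ed n, (fun φ => gr φ e) ⁻¹' strip (40 * Y) := by ext φ; simp
    rw [this]
    exact isOpen_biInter_finset fun e _ => (strip_open _).preimage (by unfold gr; fun_prop)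
  have hin : ∀ ψ (s : ℂ), |s.im| < 2 * Y → pt ψ (nw K sg) s ∈ U := by
    intro ψ s hs'
    refine ⟨fun e he => ?_, Set.mem_iInter₂.2 fun τ hτ e he => ?_⟩
    · have := im_sh (φ := cx ψ) (A := 0) (by simp [gr, cx]) hs'.le (nw_grad K hs he)
      exact this.trans_lt (by linarith)
    · have := im_sh (φ := cx ψ) (A := 0) (by simp [gr, cx]) hs'.le (hgr τ hτ e he)
      refine this.trans_lt ?_
      have := rr_posR (sc τ)
      rw [zero_add, ← mul_div_assoc, div_lt_div_iff₀ (by positivity) this]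
      nlinarith
  have key := shift (fun φ => Base W lam φ * exp (2 * π * I * prc ρ φ) * ∏ τ ∈ T, (1 + Z τ φ)) B
    (nw K sg) hUo ?_ hin hB.1 hinv ?_ (y := t) (by linarith)
  · rw [key]
    refine integral_congr_ae (Eventually.of_forall fun ψ => ?_)
    have e : pt ψ (nw K sg) (t * I) = sh (cx ψ) (nw K sg) (t * I) := rfl
    simp only [e, base_sh, Fac, prod_div_distrib]
    have : ∏ τ ∈ T, (1 + Z τ (cx ψ)) ≠ 0 :=
      prod_ne_zero_iff.2 fun τ hτ => one_add_ne hY (hZ τ hτ) (cx_tube hY _ _ ψ)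
    field_simp
  · refine (((base_diff hW lam).mono Set.inter_subset_left).mul (by unfold prc; fun_prop)).mul ?_
    refine diffOn_prod fun τ hτ => DifferentiableOn.const_add _ ?_
    exact (hZ τ hτ).diff.mono fun φ hφ => Set.mem_iInter₂.1 hφ.2 τ hτ
  · intro R
    obtain ⟨C, hC0, hC⟩ := weight_bound (n := n) hW (p := pp n) (by unfold pp; positivity)
      (R := 2 + |R| * 17) (by positivity)
    obtain ⟨-, M, h2⟩ := hB
    refine ⟨_, (((integrable_maj.const_mul C).const_mul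
      (Real.exp (|lam| * (|R| * |nw K sg (vl n)|)))).mul_const
      (Real.exp (2 * π * (|R| * |∑ x, ρ x * nw K sg x|)))).mul_const (2 ^ T.card * M),
      fun ψ s h3 h4 => ?_⟩
    have hM := (norm_nonneg _).trans (h2 ψ).1
    have h5 : |s.im| ≤ |R| := (abs_im_le_norm s).trans (h4.trans (le_abs_self _))
    have h6 : |s.re| ≤ |R| := (abs_re_le_norm s).trans (h4.trans (le_abs_self _))
    by_cases h : 2 < |ψ (vz n)|
    · rw [(h2 ψ).2 h, mul_zero, norm_zero]; positivity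
    rw [norm_mul, norm_mul, norm_mul, mul_assoc, Base, norm_mul]
    have hU' := hin ψ s h3
    refine mul_le_mul (mul_le_mul (mul_le_mul ?_ ?_ (norm_nonneg _) (by positivity)) ?_
      (norm_nonneg _) (by positivity)) (mul_le_mul ?_ (h2 ψ).1 (norm_nonneg _) (by positivity))
      (by positivity) (by positivity)
    · rw [norm_exp]
      refine Real.exp_le_exp.2 ((le_abs_self _).trans ?_)
      have : (I * lam * (pt ψ (nw K sg) s (vl n) - pt ψ (nw K sg) s (vz n))).re =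
        -(lam * (s.im * nw K sg (vl n))) := by simp [pt, nw_vz]
      rw [this, abs_neg, abs_mul, abs_mul]
      gcongr
    · refine hC _ ψ hU'.1 ((not_lt.1 h).trans (by linarith [abs_nonneg R])) fun e he => ?_
      have : (gr (pt ψ (nw K sg) s) e).re - (ψ e.1 - ψ e.2) =
        s.re * (nw K sg e.1 - nw K sg e.2) := by simp [gr, pt]; ring
      rw [this, abs_mul]
      exact (mul_le_mul h6 (nw_grad K hs he) (abs_nonneg _) (abs_nonneg _)).trans (by linarith)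
    · rw [norm_exp]
      refine Real.exp_le_exp.2 ((le_abs_self _).trans ?_)
      have : (2 * π * I * prc ρ (pt ψ (nw K sg) s)).re =
          -(2 * π * (s.im * ∑ x, ρ x * nw K sg x)) := by
        simp [prc, pt, mul_sum, mul_left_comm]
      rw [this, abs_neg, abs_mul, abs_mul s.im, abs_of_pos Real.two_pi_pos]
      gcongr
    · rw [norm_prod, ← prod_const]
      refine prod_le_prod (fun _ _ => norm_nonneg _) fun τ hτ => ?_
      have := ((hZ τ hτ).bd _ (Set.mem_iInter₂.1 hU'.2 τ hτ)).trans (eta_le hY _)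
      have h7 := norm_add_le 1 (Z τ (pt ψ (nw K sg) s))
      rw [norm_one] at h7
      linarith

end Pool.Agent.Lib.MP_9cc147_pr
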